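import Pool.Agent.Lib.MP_651af7_nt.Av.TrB

/-! Block T: transcendence degree and generic points of the model. -/

namespace Pool.Agent.Lib.MP_651af7_nt.Av

open MvPolynomial

set_option linter.unusedSectionVars false

variable {k ι K F F' : Type} [Field k] [Field K] [Field F] [Field F'] [Algebra K F] [Algebra K F']

section aux

/-- The closure of a set in the algebraic matroid is a field. -/
theorem tr_cl (S : Set F) : ∃ L : IntermediateField K F,
    (L : Set F) = (AlgebraicIndependent.matroid K F).closure S ∧ S ⊆ L := by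
  have h := AlgebraicIndependent.matroid_closure_eq (R := K) (s := S)
  refine ⟨((Subalgebra.algebraicClosure (Algebra.adjoin K S) F).restrictScalars
    K).toIntermediateField fun x hx => IsAlgebraic.inv hx, h.symm, fun x hx => ?_⟩
  exact isAlgebraic_algebraMap (⟨x, Algebra.subset_adjoin hx⟩ : Algebra.adjoin K S)

theorem tr_td_le {S T : Set F} (h : T ⊆ (AlgebraicIndependent.matroid K F).closure S) :
    td K T ≤ td K S :=
  (Matroid.eRk_mono _ h).trans (Matroid.eRk_closure_eq _ _).le

theorem tr_aeval_mem {σ : Type} [Algebra k K] [Algebra k F] [IsScalarTower k K F]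
    (L : IntermediateField K F) {v : σ → F} (hv : ∀ a, v a ∈ L) (f : MvPolynomial σ k) :
    aeval v f ∈ L := by
  rw [aeval_def]
  refine eval₂_mem (fun i _ => ?_) hv
  rw [IsScalarTower.algebraMap_apply k K F]
  exact L.algebraMap_mem _

/-- A point whose ideal is a given prime. -/
theorem tr_point [Finite ι] (p : Ideal (MvPolynomial ι K)) [p.IsPrime] :
    ∃ (M : Type) (_ : Field M) (_ : Algebra K M) (x : ι → M), (∀ f, aeval x f = 0 ↔ f ∈ p) ∧
      td K (Set.range x) = Cardinal.toNat (Algebra.trdeg K (MvPolynomial ι K ⧸ p)) := by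
  let Q := MvPolynomial ι K ⧸ p
  let M := FractionRing Q
  let x : ι → M := fun a => algebraMap Q M (Ideal.Quotient.mk p (X a))
  have hx : ∀ f : MvPolynomial ι K, aeval x f = algebraMap Q M (Ideal.Quotient.mk p f) := by
    intro f
    have h : (aeval x : MvPolynomial ι K →ₐ[K] M) =
        (IsScalarTower.toAlgHom K Q M).comp (Ideal.Quotient.mkₐ K p) := by
      ext a
      exact aeval_X _ _
    rw [h]
    rfl
  refine ⟨M, inferInstance, inferInstance, x, fun f => ?_, ?_⟩
  · rw [hx, map_eq_zero_iff _ (IsFractionRing.injective Q M), Ideal.Quotient.eq_zero_iff_mem]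
  obtain ⟨L, hL, hS⟩ := tr_cl (K := K) (Set.range x)
  have hsp : (AlgebraicIndependent.matroid K M).Spanning (Set.range x) := by
    refine ⟨?_, Set.subset_univ _⟩
    rw [← hL]
    refine Set.eq_univ_of_forall fun m => ?_
    obtain ⟨a, b, -, rfl⟩ := IsFractionRing.div_surjective (A := Q) m
    obtain ⟨f, rfl⟩ := Ideal.Quotient.mk_surjective a
    obtain ⟨g, rfl⟩ := Ideal.Quotient.mk_surjective b
    rw [← hx, ← hx]
    exact L.div_mem (tr_aeval_mem L (fun a => hS ⟨a, rfl⟩) f)
      (tr_aeval_mem L (fun a => hS ⟨a, rfl⟩) g)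
  have h1 : Algebra.trdeg K M = Algebra.trdeg K Q := by
    have := IsLocalization.isAlgebraic (nonZeroDivisors Q) (S := M)
    rw [← trdeg_add_eq K Q (A := M), trdeg_eq_zero (R := Q) (A := M), add_zero]
  obtain ⟨n, hn⟩ := Cardinal.lt_aleph0.1 (trdeg_lt_aleph0_of_finiteType (R := K) (S := Q))
  rw [td, hsp.eRk_eq, ← Matroid.toENat_cRank_eq, AlgebraicIndependent.matroid_cRank_eq, h1]
  change Cardinal.toENat (Algebra.trdeg K Q) = Cardinal.toNat (Algebra.trdeg K Q)
  rw [hn]
  simp

/-- The cone over a point has one more dimension. -/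
theorem tr_cone [Algebra F F'] [IsScalarTower K F F'] {t : F'} (ht : Transcendental F t)
    {w : ι → F} (h0 : w ≠ 0) :
    td K (rat w) + 1 ≤ td K (Set.range fun a => t * algebraMap F F' (w a)) := by
  obtain ⟨a, ha⟩ := Function.ne_iff.1 h0
  have ht0 : t ≠ 0 := fun h => ht (h ▸ isAlgebraic_zero)
  have h1 : IsScalarTower.toAlgHom K F F' '' rat w = rat fun a => t * algebraMap F F' (w a) := by
    rw [td_rat_smul ht0, rat, rat, ← Set.range_comp]
    congr 1
    ext p
    simp
  have h2 : (1 : ℕ∞) ≤ td F {t * algebraMap F F' (w a)} := by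
    have h3 : t * algebraMap F F' (w a) ∉ (AlgebraicIndependent.matroid F F').closure ∅ := by
      rw [AlgebraicIndependent.matroid_closure_eq]
      intro h
      have h4 : IsAlgebraic F (t * algebraMap F F' (w a)) := by
        have h5 : Algebra.IsAlgebraic F (Algebra.adjoin F (∅ : Set F')) := by
          rw [Algebra.adjoin_empty]
          infer_instance
        exact IsAlgebraic.restrictScalars F h
      have h6 := h4.mul (isAlgebraic_algebraMap (A := F') (w a)⁻¹)
      rw [mul_assoc, ← map_mul, mul_inv_cancel₀ ha, map_one, mul_one] at h6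
      exact ht h6
    have h4 := Matroid.eRk_insert_eq_add_one (M := AlgebraicIndependent.matroid F F')
      ⟨Set.mem_univ _, h3⟩
    rw [Matroid.eRk_empty, zero_add, insert_empty_eq] at h4
    exact h4.ge
  obtain ⟨L, hL, hS⟩ := tr_cl (K := K) (Set.range fun a => t * algebraMap F F' (w a))
  rw [← td_image (IsScalarTower.toAlgHom K F F')]
  refine (add_le_add_right h2 _).trans ((td_add_le (M := F) ?_).trans (tr_td_le ?_))
  · rintro _ ⟨y, -, rfl⟩
    exact ⟨y, rfl⟩
  · rw [h1, ← hL]
    rintro _ (⟨p, rfl⟩ | rfl)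
    · exact L.div_mem (hS ⟨_, rfl⟩) (hS ⟨_, rfl⟩)
    · exact hS ⟨_, rfl⟩

/-- A linear form applied to the coefficients. -/
noncomputable def trCw {σ : Type} [Algebra k K] (l : K →ₗ[k] k) (P : MvPolynomial σ K) :
    MvPolynomial σ k := ∑ μ ∈ P.support, monomial μ (l (coeff μ P))

theorem coeff_trCw {σ : Type} [Algebra k K] (l : K →ₗ[k] k) (P : MvPolynomial σ K) (μ : σ →₀ ℕ) :
    coeff μ (trCw l P) = l (coeff μ P) := by
  classical
  simp only [trCw, coeff_sum, coeff_monomial, Finset.sum_ite_eq', mem_support_iff]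
  split_ifs with h
  · rfl
  · rw [not_not.1 h, map_zero]

theorem trCw_add {σ : Type} [Algebra k K] (l : K →ₗ[k] k) (P Q : MvPolynomial σ K) :
    trCw l (P + Q) = trCw l P + trCw l Q := by
  ext μ
  simp [coeff_trCw]

theorem trCw_mul {σ : Type} [Algebra k K] (l : K →ₗ[k] k) (Q : MvPolynomial σ K)
    (f : MvPolynomial σ k) : trCw l (Q * map (algebraMap k K) f) = trCw l Q * f := by
  classical
  ext μ
  simp only [coeff_trCw, coeff_mul, map_sum, coeff_map]
  refine Finset.sum_congr rfl fun p _ => ?_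
  rw [mul_comm, ← Algebra.smul_def, map_smul, smul_eq_mul, mul_comm]

theorem trCw_rename {σ τ : Type} [Algebra k K] (l : K →ₗ[k] k) (s : σ → τ)
    (P : MvPolynomial σ K) : trCw l (rename s P) = rename s (trCw l P) := by
  classical
  have h : ∀ {ρ : Type} (μ : ρ →₀ ℕ) (c : K), trCw l (monomial μ c) = monomial μ (l c) := by
    intro ρ μ c
    ext ν
    simp only [coeff_trCw, coeff_monomial]
    split_ifs <;> simp
  induction P using MvPolynomial.induction_on' with
  | monomial μ c => rw [rename_monomial, h, h, rename_monomial]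
  | add P Q hP hQ => rw [map_add, trCw_add, trCw_add, map_add, hP, hQ]

theorem trCw_mem {σ : Type} [Algebra k K] (l : K →ₗ[k] k) {I : Ideal (MvPolynomial σ k)}
    {P : MvPolynomial σ K} (hP : P ∈ I.map (map (algebraMap k K))) : trCw l P ∈ I := by
  have key : ∀ Q, trCw l (Q * P) ∈ I := by
    refine Submodule.span_induction (p := fun P _ => ∀ Q, trCw l (Q * P) ∈ I) ?_ ?_ ?_ ?_ hP
    · rintro _ ⟨f, hf, rfl⟩ Q
      rw [trCw_mul]
      exact I.mul_mem_left _ hf
    · intro Q
      simp [trCw]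
    · intro x y _ _ hx hy Q
      rw [mul_add, trCw_add]
      exact add_mem (hx Q) (hy Q)
    · intro a x _ hx Q
      rw [smul_eq_mul, ← mul_assoc]
      exact hx _
  simpa using key 1

/-- A point whose ideal over `K` comes from `k` has the same degree over both fields. -/
theorem tr_td_base [Algebra k K] [Algebra k F] [IsScalarTower k K F] {I : Ideal (MvPolynomial ι k)}
    {x : ι → F} (hx : ∀ f, aeval x f = 0 ↔ f ∈ I.map (map (algebraMap k K))) :
    td K (Set.range x) = td k (Set.range x) := by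
  refine le_antisymm (td_le_of_tower _) ?_
  obtain ⟨B, hB⟩ := (AlgebraicIndependent.matroid k F).exists_isBasis (Set.range x)
  rw [td, ← hB.encard_eq_eRk]
  refine Matroid.Indep.encard_le_eRk_of_subset ?_ hB.subset
  have hi : AlgebraicIndependent k (fun b : B => (b : F)) := hB.indep
  choose s hs using fun b : B => hB.subset b.2
  have he : (fun b : B => (b : F)) = x ∘ s := funext fun b => (hs b).symm
  change AlgebraicIndependent K (fun b : B => (b : F))
  rw [he, algebraicIndependent_iff] at hi ⊢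
  intro f hf
  rw [← aeval_rename, hx] at hf
  ext μ
  refine (Module.forall_dual_apply_eq_zero_iff k _).1 fun l => ?_
  have h1 := trCw_mem l hf
  have h2 := (hx _).2 (Ideal.mem_map_of_mem _ h1)
  rw [aeval_map_algebraMap, trCw_rename, aeval_rename] at h2
  rw [← coeff_trCw, hi _ h2, coeff_zero]

end aux

namespace AV

variable (A : AV k ι) [Finite ι] [Algebra k K] [Algebra k F] [IsScalarTower k K F]

theorem mem_IK_iff {f : MvPolynomial ι k} : MvPolynomial.map (algebraMap k K) f ∈ A.IK K ↔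
    f ∈ A.I := by
  refine ⟨fun h => ?_, fun h => Ideal.mem_map_of_mem _ h⟩
  obtain ⟨l, hl⟩ := Module.Projective.exists_dual_eq_one k (one_ne_zero (α := K))
  have h1 := trCw_mem l h
  have h2 : trCw l (MvPolynomial.map (algebraMap k K) f) = f := by
    ext μ
    rw [coeff_trCw, coeff_map, Algebra.algebraMap_eq_smul_one, map_smul, hl, smul_eq_mul, mul_one]
  rwa [h2] at h1

theorem IK_hom : ∀ P ∈ A.IK K, ∀ d, homogeneousComponent d P ∈ A.IK K := by
  intro P hP d
  have key : ∀ Q, homogeneousComponent d (Q * P) ∈ A.IK K := by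
    refine Submodule.span_induction
      (p := fun P _ => ∀ Q, homogeneousComponent d (Q * P) ∈ A.IK K) ?_ ?_ ?_ ?_ hP
    · rintro _ ⟨f, hf, rfl⟩ Q
      induction Q using MvPolynomial.induction_on' with
      | monomial μ c =>
        have h1 : monomial μ c * MvPolynomial.map (algebraMap k K) f =
            c • MvPolynomial.map (algebraMap k K) (monomial μ 1 * f) := by
          rw [map_mul, map_monomial, map_one, ← smul_mul_assoc, smul_monomial, smul_eq_mul, mul_one]
        have h2 : ∀ g : MvPolynomial ι k, homogeneousComponent d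
            (MvPolynomial.map (algebraMap k K) g) =
            MvPolynomial.map (algebraMap k K) (homogeneousComponent d g) := by
          intro g
          ext ν
          simp only [coeff_homogeneousComponent, coeff_map]
          split_ifs <;> simp
        rw [h1, map_smul, h2]
        exact Submodule.smul_of_tower_mem _ _
          (Ideal.mem_map_of_mem _ (A.hom _ (A.I.mul_mem_left _ hf) d))
      | add p q hp hq =>
        rw [add_mul, map_add]
        exact add_mem hp hq
    · simp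
    · intro x y _ _ hx hy Q
      rw [mul_add, map_add]
      exact add_mem (hx Q) (hy Q)
    · intro a x _ hx Q
      rw [smul_eq_mul, ← mul_assoc]
      exact hx _
  simpa using key 1

omit [Finite ι] in
theorem tr_zero_IK {w : ι → F} (hw : ∀ f ∈ A.I, aeval w f = 0) : ∀ f ∈ A.IK K, aeval w f = 0 := by
  have h : A.IK K ≤ RingHom.ker (aeval w : MvPolynomial ι K →ₐ[K] F) :=
    Ideal.map_le_iff_le_comap.2 fun f hf => by
      change aeval w (MvPolynomial.map (algebraMap k K) f) = 0
      rw [aeval_map_algebraMap]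
      exact hw f hf
  exact h

theorem tr_prime : A.I.IsPrime := by
  have := A.prime k
  have h : A.I = (A.IK k).comap (MvPolynomial.map (algebraMap k k)) :=
    Ideal.ext fun f => A.mem_IK_iff.symm
  rw [h]
  exact Ideal.comap_isPrime _ (A.I.map _)

variable (K) in
/-- A point with ideal `IK` and its degrees. -/
theorem tr_gen : ∃ (M : Type) (_ : Field M) (_ : Algebra k M) (_ : Algebra K M)
    (_ : IsScalarTower k K M) (x : ι → M), (∀ f, aeval x f = 0 ↔ f ∈ A.IK K) ∧ x A.ao ≠ 0 ∧
      td K (rat x) = A.dim ∧ td K (Set.range x) = A.dim + 1 := by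
  have : (A.IK K).IsPrime := A.prime K
  have := A.tr_prime
  obtain ⟨M, _, _, x, hx, -⟩ := tr_point (A.IK K)
  obtain ⟨M₀, _, _, x₀, hx₀, hd⟩ := tr_point A.I
  let _ : Algebra k M := ((algebraMap K M).comp (algebraMap k K)).toAlgebra
  have : IsScalarTower k K M := .of_algebraMap_eq fun _ => rfl
  have hk : ∀ f : MvPolynomial ι k, aeval x f = 0 ↔ f ∈ A.I := fun f => by
    rw [← A.mem_IK_iff (K := K), ← hx, aeval_map_algebraMap]
  have h0 : x A.ao ≠ 0 := fun h => by
    have h1 := (rep_zero (A := A) (R := k)).zero _ ((hk (X A.ao)).1 (by rwa [aeval_X]))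
    rw [aeval_X, A.o_ao, map_one] at h1
    exact one_ne_zero h1
  have h1 : td K (Set.range x) = td k (Set.range x₀) := by
    rw [tr_td_base (k := k) hx]
    exact le_antisymm (td_le_of_spec fun f hf => (hk f).2 ((hx₀ f).1 hf)).1
      (td_le_of_spec fun f hf => (hx₀ f).2 ((hk f).1 hf)).1
  have h2 : td K (Set.range x) = td K (rat x) + 1 := by
    refine le_antisymm (td_range_le x) ((tr_cone (K := K) (RatFunc.transcendental_X (K := M))
      (Function.ne_iff.2 ⟨_, h0⟩)).trans (td_le_of_spec fun f hf => ?_).1)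
    refine zero_mul_of_hom A.IK_hom (fun g hg => ?_) _ f ((hx f).1 hf)
    exact (aeval_algebraMap_apply _ x g).trans (by rw [(hx g).2 hg, map_zero])
  have h3 : td K (rat x) = A.dim := by
    rw [h1, hd] at h2
    have h4 : td K (rat x) ≠ ⊤ := fun h => by simp [h] at h2
    obtain ⟨m, hm⟩ := ENat.ne_top_iff_exists.1 h4
    rw [← hm] at h2 ⊢
    rw [dim, show Cardinal.toNat (Algebra.trdeg k (MvPolynomial ι k ⧸ A.I)) = m + 1 by
      exact_mod_cast h2, Nat.add_sub_cancel]
  exact ⟨M, _, _, _, this, x, hx, h0, h3, by rw [h2, h3]⟩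

theorem td_le_dim {w : ι → F} (hw : ∀ f ∈ A.I, aeval w f = 0) : td K (rat w) ≤ A.dim := by
  by_cases h0 : w = 0
  · obtain ⟨L, hL, -⟩ := tr_cl (K := K) (∅ : Set F)
    refine (tr_td_le (S := ∅) ?_).trans ((Matroid.eRk_empty _).le.trans (zero_le))
    rintro _ ⟨p, rfl⟩
    rw [← hL, h0]
    exact L.div_mem L.zero_mem L.zero_mem
  obtain ⟨M, _, _, _, _, x, hx, -, hd, -⟩ := A.tr_gen K
  rw [← hd]
  exact (td_rat_le_of_spec h0 fun f _ _ hf => A.tr_zero_IK hw f ((hx f).1 hf)).1

theorem gen_iff {w : ι → F} (h0 : w ≠ 0) (hw : ∀ f ∈ A.I, aeval w f = 0) :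
    Gen (A.IK K) w ↔ td K (rat w) = A.dim := by
  obtain ⟨M, _, _, _, _, x, hx, hx0, hd, -⟩ := A.tr_gen K
  refine ⟨fun h => le_antisymm (A.td_le_dim hw) ?_, fun h f n hn hf => (hx f).1 ?_⟩
  · rw [← hd]
    exact (td_rat_le_of_spec (Function.ne_iff.2 ⟨_, hx0⟩)
      fun f n hn hf => (hx f).2 (h f n hn hf)).1
  · exact (td_rat_le_of_spec h0 fun f _ _ hf => A.tr_zero_IK hw f ((hx f).1 hf)).2
      (hd.trans h.symm).le f n hn hf

variable (K) in
/-- A generic point over `K`. -/
theorem exists_gen : ∃ (M : Type) (_ : Field M) (_ : Algebra k M) (_ : Algebra K M)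
    (_ : IsScalarTower k K M) (P : A.Pt M), Gen (A.IK K) P.co := by
  obtain ⟨M, _, _, _, _, x, hx, hx0, -⟩ := A.tr_gen K
  obtain ⟨P, u, hu⟩ := exists_rep (A := A) (v := x) ⟨_, hx0.isUnit⟩ fun f hf => by
    rw [← aeval_map_algebraMap K]
    exact (hx _).2 (A.mem_IK_iff.2 hf)
  refine ⟨M, _, _, _, inferInstance, P, fun f n hn hf => (hx f).1 ?_⟩
  rw [show x = fun a => u * P.co a from funext hu, aeval_mul_of_hom hn, hf, mul_zero]

omit [Finite ι] in
theorem tr_rat_rep {P : A.Pt F} {v : ι → F} (h : Rep P v) : rat P.co = rat v := by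
  obtain ⟨u, hu⟩ := h
  rw [show v = fun a => u * P.co a from funext hu, td_rat_smul u.ne_zero]

omit [Finite ι] in
theorem tr_rep_rat (P : A.Pt F) : ∃ v, Rep P v ∧ ∀ a, v a ∈ rat P.co := by
  obtain ⟨a, ha⟩ := (rep_co P).unit
  exact ⟨_, (rep_co P).smul ha.inv, fun b => ⟨(b, a), div_eq_inv_mul _ _⟩⟩

/-- The coordinates of a sum or a difference are algebraic over those of the terms. -/
theorem rat_add_sub (P Q : A.Pt F) :
    rat (P + Q).co ⊆ (AlgebraicIndependent.matroid K F).closure (rat P.co ∪ rat Q.co) ∧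
    rat (P - Q).co ⊆ (AlgebraicIndependent.matroid K F).closure (rat P.co ∪ rat Q.co) := by
  obtain ⟨L, hL, hS⟩ := tr_cl (K := K) (rat P.co ∪ rat Q.co)
  obtain ⟨x, hx, hx'⟩ := A.tr_rep_rat P
  obtain ⟨y, hy, hy'⟩ := A.tr_rep_rat Q
  obtain ⟨a, b, h⟩ := exists_unit_ph hx hy
  have hm : ∀ c d, A.ph c d x y ∈ L := fun c d => tr_aeval_mem L (by
    rintro (e | e)
    exacts [hS (.inl (hx' e)), hS (.inr (hy' e))]) _
  rw [A.tr_rat_rep (rep_add hx hy h), A.tr_rat_rep (rep_sub hx hy h), ← hL]
  constructor <;> rintro _ ⟨p, rfl⟩ <;> exact L.div_mem (hm _ _) (hm _ _)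

theorem td_map (P : A.Pt K) : td K (rat (A.map (IsScalarTower.toAlgHom k K F) P).co) = 0 := by
  obtain ⟨L, hL, -⟩ := tr_cl (K := K) (∅ : Set F)
  rw [A.tr_rat_rep ((rep_co P).map _)]
  refine le_antisymm ((tr_td_le (S := ∅) ?_).trans (Matroid.eRk_empty _).le) (zero_le)
  rintro _ ⟨p, rfl⟩
  rw [← hL]
  exact L.div_mem (L.algebraMap_mem _) (L.algebraMap_mem _)

/-- Points of a subvariety of codimension two. -/
theorem td_of_height {J : Type} (G : J → MvPolynomial ι k) {d : ℕ} (hG : ∀ j, (G j).IsHomogeneous d)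
    (hc : 2 ≤ ((Ideal.span (Set.range G)).map (Ideal.Quotient.mk A.I)).height)
    {M : Type} [Field M] [Algebra k M] {w : ι → M} (h0 : w ≠ 0) (hw : ∀ f ∈ A.I, aeval w f = 0)
    (hG0 : ∀ j, aeval w (G j) = 0) : td k (rat w) + 2 ≤ A.dim := by
  obtain ⟨M₀, _, -, _, -, x, hx, -, -, hd⟩ := A.tr_gen k
  have hx' : ∀ f, aeval x f = 0 ↔ f ∈ A.I := fun f => by
    rw [hx, ← A.mem_IK_iff (K := k), Algebra.algebraMap_self, MvPolynomial.map_id]
  let w' : ι → RatFunc M := fun a => RatFunc.X * algebraMap M (RatFunc M) (w a)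
  have h1 : td k (rat w) + 1 ≤ td k (Set.range w') := tr_cone RatFunc.transcendental_X h0
  have h2 : ∀ f : MvPolynomial ι k, aeval w f = 0 →
      aeval (fun a => algebraMap M (RatFunc M) (w a)) f = 0 :=
    fun f hf => (aeval_algebraMap_apply _ w f).trans (by rw [hf, map_zero])
  let p : Ideal (MvPolynomial ι k) := RingHom.ker (aeval w' : MvPolynomial ι k →ₐ[k] RatFunc M)
  have hp : p.IsPrime := RingHom.ker_isPrime _
  have hIp : A.I ≤ p := zero_mul_of_hom A.hom (fun f hf => h2 f (hw f hf)) _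
  have hGp : Ideal.span (Set.range G) ≤ p := Ideal.span_le.2 (by
    rintro _ ⟨j, rfl⟩
    change aeval w' (G j) = 0
    rw [aeval_mul_of_hom (hG j), h2 _ (hG0 j), mul_zero])
  have hp' : (p.map (Ideal.Quotient.mk A.I)).IsPrime :=
    Ideal.map_isPrime_of_surjective Ideal.Quotient.mk_surjective (by rwa [Ideal.mk_ker])
  have h3 : ¬ (p.map (Ideal.Quotient.mk A.I)).height ≤ (1 : ℕ) := fun h =>
    absurd ((hc.trans (Ideal.height_mono (Ideal.map_mono hGp))).trans h) (by norm_num)
  rw [Ideal.height_le_iff] at h3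
  push Not at h3
  obtain ⟨q₁, hq₁, l₁, h3⟩ := h3
  have h4 : ¬ q₁.height ≤ (0 : ℕ) := fun h => absurd (h3.trans h) (by norm_num)
  rw [Ideal.height_le_iff] at h4
  push Not at h4
  obtain ⟨q₀, hq₀, l₀, -⟩ := h4
  obtain ⟨M₁, _, _, y₁, hy₁, -⟩ := tr_point (q₁.comap (Ideal.Quotient.mk A.I))
  obtain ⟨M₂, _, _, y₀, hy₀, -⟩ := tr_point (q₀.comap (Ideal.Quotient.mk A.I))
  have e₀ : td k (Set.range y₀) ≤ A.dim + 1 := by
    rw [← hd]
    refine (td_le_of_spec fun f hf => (hy₀ f).2 ?_).1
    rw [Ideal.mem_comap, Ideal.Quotient.eq_zero_iff_mem.2 ((hx' f).1 hf)]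
    exact zero_mem _
  have e₁ : td k (Set.range y₁) < td k (Set.range y₀) := lt_of_not_ge fun h => by
    refine l₀.not_ge fun g hg => ?_
    obtain ⟨f, rfl⟩ := Ideal.Quotient.mk_surjective g
    exact (hy₀ f).1 ((td_le_of_spec fun f hf => (hy₁ f).2 (l₀.le ((hy₀ f).1 hf))).2 h f
      ((hy₁ f).2 hg))
  have e₂ : td k (Set.range w') < td k (Set.range y₁) := lt_of_not_ge fun h => by
    refine l₁.not_ge (Ideal.map_le_iff_le_comap.2 fun f hf => ?_)
    refine (hy₁ f).1 ((td_le_of_spec fun f hf => ?_).2 h f hf)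
    have h5 := Ideal.comap_mono (f := Ideal.Quotient.mk A.I) l₁.le ((hy₁ f).1 hf)
    rwa [Ideal.comap_map_of_surjective _ Ideal.Quotient.mk_surjective, ← RingHom.ker_eq_comap_bot,
      Ideal.mk_ker, sup_eq_left.2 hIp] at h5
  have e₃ : td k (rat w) + 2 + 1 ≤ A.dim + 1 :=
    calc td k (rat w) + 2 + 1 = td k (rat w) + 1 + 1 + 1 := by
          rw [← one_add_one_eq_two, ← add_assoc]
      _ ≤ td k (Set.range w') + 1 + 1 := by gcongr
      _ ≤ td k (Set.range y₁) + 1 := by
          gcongr
          exact Order.add_one_le_of_lt e₂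
      _ ≤ td k (Set.range y₀) := Order.add_one_le_of_lt e₁
      _ ≤ _ := e₀
  exact (ENat.add_le_add_iff_right ENat.one_ne_top).1 e₃

end AV

end Pool.Agent.Lib.MP_651af7_nt.Av
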