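import Mathlib

/-! Derivations: chain rule, the Jacobian criterion for algebraic independence, and the
invariance of leading forms of power series. -/

namespace Pool.Agent.Lib.MP_651af7_nt.Av

open Finset MvPolynomial

section chain

variable {K₀ K R σ : Type} [CommRing K₀] [CommRing K] [CommRing R] [Algebra K₀ R] [Algebra K R]

/-- Chain rule for a derivation killing the coefficients. -/
theorem der_aeval' [Fintype σ] (D : Derivation K₀ R R) (hD : ∀ a : K, D (algebraMap K R a) = 0)
    (f : σ → R) (P : MvPolynomial σ K) :
    D (aeval f P) = ∑ s, aeval f (pderiv s P) * D (f s) := by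
  classical
  induction P using MvPolynomial.induction_on with
  | C a => simp [hD]
  | add p q hp hq => simp only [map_add, hp, hq, add_mul, sum_add_distrib]
  | mul_X p t hp =>
    have h2 : ∑ s, aeval f (p * pderiv s (X t : MvPolynomial σ K)) * D (f s) =
        aeval f p * D (f t) := by
      rw [sum_eq_single t]
      · rw [pderiv_X_self, mul_one]
      · intro s _ hs
        rw [pderiv_X_of_ne hs.symm, mul_zero, map_zero, zero_mul]
      · simp
    simp only [pderiv_mul, map_add, add_mul, sum_add_distrib, h2]
    rw [map_mul, aeval_X, Derivation.leibniz, hp, smul_eq_mul, smul_eq_mul, add_comm, mul_sum]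
    congr 1
    exact sum_congr rfl fun s _ => by rw [map_mul, aeval_X]; ring

/-- Chain rule. -/
theorem der_aeval [Fintype σ] (D : Derivation K R R) (f : σ → R) (P : MvPolynomial σ K) :
    D (aeval f P) = ∑ s, aeval f (pderiv s P) * D (f s) :=
  der_aeval' D D.map_algebraMap f P

/-- A derivation killing the arguments kills the value. -/
theorem der_aeval_eq_zero (D : Derivation K₀ R R) (hD : ∀ a : K, D (algebraMap K R a) = 0)
    {f : σ → R} (hf : ∀ s, D (f s) = 0) (P : MvPolynomial σ K) : D (aeval f P) = 0 := by
  induction P using MvPolynomial.induction_on with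
  | C a => simp [hD]
  | add p q hp hq => rw [map_add, map_add, hp, hq, add_zero]
  | mul_X p t hp => rw [map_mul, aeval_X, Derivation.leibniz, hp, hf, smul_zero, smul_zero, add_zero]

/-- A derivation killing the coefficients of a polynomial kills its simple roots. -/
theorem der_root_eq_zero [IsDomain R] (D : Derivation K₀ R R) {P : Polynomial R} {y : R}
    (hP : ∀ n, D (P.coeff n) = 0) (h0 : P.eval y = 0) (h1 : P.derivative.eval y ≠ 0) :
    D y = 0 := by
  have h2 : D (P.eval y) = P.derivative.eval y * D y := by
    rw [Polynomial.eval_eq_sum, Polynomial.derivative_eval, Polynomial.sum, Polynomial.sum,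
      map_sum, sum_mul]
    refine sum_congr rfl fun n _ => ?_
    rw [Derivation.leibniz, hP, smul_zero, add_zero, Derivation.leibniz_pow]
    simp only [smul_eq_mul, nsmul_eq_mul]
    ring
  rw [h0, map_zero] at h2
  exact (mul_eq_zero.mp h2.symm).resolve_left h1

/-- The same for one variable `t` of a relation in several variables. -/
theorem der_eq_zero_of_rel [IsDomain R] [Fintype σ] (D : Derivation K₀ R R)
    (hD : ∀ a : K, D (algebraMap K R a) = 0) {f : σ → R} {P : MvPolynomial σ K} {t : σ}
    (h0 : aeval f P = 0) (h1 : aeval f (pderiv t P) ≠ 0)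
    (hf : ∀ s, s ≠ t → D (f s) = 0 ∨ pderiv s P = 0) : D (f t) = 0 := by
  have h2 := der_aeval' D hD f P
  rw [h0, map_zero, sum_eq_single t] at h2
  · exact (mul_eq_zero.mp h2.symm).resolve_left h1
  · intro s _ hs
    rcases hf s hs with h | h
    · rw [h, mul_zero]
    · rw [h, map_zero, zero_mul]
  · simp

end chain

section jac

variable {K R σ : Type} [Field K] [CharZero K] [CommRing R] [IsDomain R] [Algebra K R]

omit [CharZero K] in
theorem totalDegree_pderiv_lt {P : MvPolynomial σ K} {s : σ} (h : pderiv s P ≠ 0) :
    (pderiv s P).totalDegree < P.totalDegree := by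
  classical
  obtain ⟨m, hm, he⟩ := exists_mem_eq_sup _ (support_nonempty.mpr h)
    fun m : σ →₀ ℕ => m.sum fun _ e => e
  rw [totalDegree, he]
  have h1 : m + Finsupp.single s 1 ∈ P.support := by
    rw [mem_support_iff, coeff_pderiv] at hm
    exact mem_support_iff.mpr (left_ne_zero_of_mul hm)
  refine lt_of_lt_of_le ?_ (le_totalDegree h1)
  rw [Finsupp.sum_add_index' (fun _ => rfl) fun _ _ _ => rfl, Finsupp.sum_single_index rfl]
  exact Nat.lt_succ_self _

theorem eq_C_of_pderiv {P : MvPolynomial σ K} (h : ∀ s, pderiv s P = 0) : P = C (coeff 0 P) := by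
  classical
  ext m
  rw [coeff_C]
  split_ifs with hm
  · rw [← hm]
  · obtain ⟨s, hs⟩ : ∃ s, m s ≠ 0 := by
      by_contra hc
      push Not at hc
      exact hm (Finsupp.ext hc).symm
    have h1 := coeff_pderiv (i := s) P (m - Finsupp.single s 1)
    rw [h s, coeff_zero, tsub_add_cancel_of_le
      (Finsupp.single_le_iff.mpr (Nat.one_le_iff_ne_zero.mpr hs))] at h1
    exact (mul_eq_zero.mp h1.symm).resolve_right (Nat.cast_add_one_ne_zero _)

/-- Jacobian criterion, in the form: the differentials are linearly independent. -/
theorem indep_of_der [Fintype σ] {f : σ → R}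
    (h : ∀ c : σ → R, (∀ D : Derivation K R R, ∑ s, c s * D (f s) = 0) → c = 0) :
    AlgebraicIndependent K f := by
  rw [algebraicIndependent_iff]
  intro P
  induction hn : P.totalDegree using Nat.strong_induction_on generalizing P with
  | _ n ih =>
    intro hP
    have h1 := h (fun s => aeval f (pderiv s P)) fun D => by rw [← der_aeval, hP, map_zero]
    have h2 : ∀ s, pderiv s P = 0 := fun s => by
      by_contra hc
      exact hc (ih _ (hn ▸ totalDegree_pderiv_lt hc) _ rfl (congrFun h1 s))
    rw [eq_C_of_pderiv h2] at hP ⊢
    rw [aeval_C, map_eq_zero] at hP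
    rw [hP, map_zero]

/-- Jacobian criterion. -/
theorem indep_of_det [Fintype σ] [DecidableEq σ] {f : σ → R} (D : σ → Derivation K R R)
    (h : (Matrix.of fun s t => D t (f s)).det ≠ 0) : AlgebraicIndependent K f :=
  indep_of_der fun _ hc => Matrix.eq_zero_of_vecMul_eq_zero h (funext fun t => hc (D t))

/-- Power series whose linear parts along the variables `e t` form an invertible matrix are
algebraically independent. -/
theorem jac_indep {τ : Type} [Fintype σ] [DecidableEq σ] {f : σ → MvPowerSeries τ K} (e : σ → τ)
    (h : (Matrix.of fun s t => MvPowerSeries.coeff (Finsupp.single (e t) 1) (f s)).det ≠ 0) :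
    AlgebraicIndependent K f := by
  have : IsDomain (MvPowerSeries τ K) := NoZeroDivisors.to_isDomain _
  refine indep_of_det (fun t => MvPowerSeries.pderiv K (e t)) fun h0 => h ?_
  have h1 := congrArg MvPowerSeries.constantCoeff h0
  rw [RingHom.map_det, map_zero] at h1
  rw [← h1]
  congr 1
  ext s t
  simp [← MvPowerSeries.coeff_zero_eq_constantCoeff_apply, MvPowerSeries.coeff_pderiv]

/-- The same with the linear independence of the linear parts as hypothesis. -/
theorem jac_indep' {τ : Type} [Fintype σ] {f : σ → MvPowerSeries τ K}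
    (h : LinearIndependent K fun s (t : τ) => MvPowerSeries.coeff (Finsupp.single t 1) (f s)) :
    AlgebraicIndependent K f := by
  classical
  obtain ⟨e, he⟩ : ∃ e : σ → τ,
      (Matrix.of fun s t => MvPowerSeries.coeff (Finsupp.single (e t) 1) (f s)).det ≠ 0 := by
    let M : τ → σ → K := fun t s => MvPowerSeries.coeff (Finsupp.single t 1) (f s)
    have h1 : Submodule.span K (Set.range M) = ⊤ := by
      by_contra hc
      obtain ⟨φ, hφ0, hφ⟩ := Submodule.exists_dual_map_eq_bot_of_lt_top
        (lt_top_iff_ne_top.mpr hc) inferInstance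
      apply hφ0
      have h2 := Fintype.linearIndependent_iff.mp h (fun s => φ (Pi.single s 1)) (by
        funext t
        have h3 : φ (M t) = 0 := by
          have h4 : φ (M t) ∈ (Submodule.span K (Set.range M)).map φ :=
            Submodule.mem_map_of_mem (Submodule.subset_span ⟨t, rfl⟩)
          rwa [hφ] at h4
        rw [LinearMap.pi_apply_eq_sum_univ] at h3
        rw [Finset.sum_apply, Pi.zero_apply, ← h3]
        refine sum_congr rfl fun s _ => ?_
        rw [Pi.smul_apply, smul_eq_mul, smul_eq_mul, mul_comm]
        congr 2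
        funext j
        rw [Pi.single_apply]
        exact if_congr eq_comm rfl rfl)
      exact LinearMap.pi_ext' fun s => LinearMap.ext_ring (h2 s)
    obtain ⟨b, hb, hsp, hli⟩ := exists_linearIndependent K (Set.range M)
    have hfin : Fintype b := hli.setFinite.fintype
    have hc : Fintype.card b = Fintype.card σ := by
      have h2 := finrank_span_set_eq_card (R := K) (s := b) hli
      rw [hsp, h1, finrank_top, Module.finrank_fintype_fun_eq_card, Set.toFinset_card] at h2
      exact h2.symm
    let ε : σ ≃ b := Fintype.equivOfCardEq hc.symm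
    choose e he using fun t : σ => hb (ε t).2
    refine ⟨e, ?_⟩
    have h2 : LinearIndependent K fun t => M (e t) := by
      simp only [he]
      exact hli.comp ε ε.injective
    have h3 := Matrix.linearIndependent_rows_iff_isUnit (A := Matrix.of fun t => M (e t)) |>.mp h2
    rw [← Matrix.det_transpose]
    exact ((Matrix.isUnit_iff_isUnit_det _).mp h3).ne_zero
  exact jac_indep e he

end jac

end Pool.Agent.Lib.MP_651af7_nt.Av
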