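import Pool.Agent.Lib.MP_651af7_nt.Av.ERed

/-! Engine: existence of normal forms. -/

namespace Pool.Agent.Lib.MP_651af7_nt.Av

open MvPolynomial Finset

variable {k ι : Type} [Field k] [Fintype ι] {g e ρ : ℕ} {J : Ideal (MvPolynomial ι k)}
  {u : Fin (g + 1) → MvPolynomial ι k}

/-- The weights of the variables. -/
private def erdW (g : ℕ) (ι : Type) (e : ℕ) : Fin (g + 1) ⊕ ι → ℤ :=
  Sum.elim (fun _ => (e : ℤ)) fun _ => 1

private lemma erd_weight (ω : Ex g ι) : Finsupp.weight (erdW g ι e) ω =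
    ((e * ∑ l, ω (.inl l) + ∑ a, ω (.inr a) : ℕ) : ℤ) := by
  rw [Finsupp.weight_eq_sum, Fintype.sum_sum_type]
  simp [erdW, mul_sum, mul_comm]

private lemma erd_rename {P : MvPolynomial (Fin (g + 1)) k} {d : ℤ}
    (h : ∀ β ∈ P.support, ((e * β.degree : ℕ) : ℤ) = d) :
    IsWeightedHomogeneous (erdW g ι e) (rename (Sum.inl : _ → Fin (g + 1) ⊕ ι) P) d ∧
      ∀ b, degreeOf (.inr b) (rename (Sum.inl : _ → Fin (g + 1) ⊕ ι) P) = 0 := by
  have h0 : ∀ (β : Fin (g + 1) →₀ ℕ) (b : ι),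
      β.mapDomain (Sum.inl : _ → Fin (g + 1) ⊕ ι) (.inr b) = 0 := fun β b =>
    Finsupp.mapDomain_of_notMem_range _ _ (by simp)
  constructor
  · intro ω hω
    obtain ⟨β, rfl, hβ⟩ := coeff_rename_ne_zero _ _ _ hω
    rw [erd_weight, ← h β (mem_support_iff.2 hβ), Finsupp.degree_eq_sum]
    simp only [h0, Finsupp.mapDomain_apply Sum.inl_injective, sum_const_zero, add_zero]
  · intro b
    refine Nat.le_zero.1 (degreeOf_le_iff.2 fun ω hω => ?_)
    obtain ⟨β, rfl, -⟩ := coeff_rename_ne_zero _ _ _ (mem_support_iff.1 hω)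
    exact (h0 β b).le

private lemma erd_one {c : ι → Fin (ρ + 1) → MvPolynomial (Fin (g + 1)) k}
    (h : NN J e (ρ + 1) u c) (a : ι) (n : ℕ) :
    ∃ (W : Fin (ρ + 1) → MvPolynomial (Fin (g + 1) ⊕ ι) k) (t : Fin (ρ + 1) → ℝ),
      (∀ l, IsWeightedHomogeneous (erdW g ι e) (W l) ((n : ℤ) - (l : ℕ))) ∧
      (∀ l b, degreeOf (.inr b) (W l) = 0) ∧
      X a ^ n - ∑ l, aeval (Sum.elim u X) (W l) * X a ^ (l : ℕ) ∈ J ∧
      (∀ l, 0 ≤ t l) ∧ ∑ l, t l ≤ ((ρ : ℝ) + 2) ^ n ∧
      ∀ (na : Prop) (S : SN (MvPolynomial (Fin (g + 1) ⊕ ι) k) na) (s : ℝ), 1 ≤ s →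
        (∀ l, S.N (rename Sum.inl (c a l)) ≤ s) → ∀ l, S.N (W l) ≤ E na (t l) * s ^ n := by
  induction n with
  | zero =>
    refine ⟨Fin.cons 1 0, Fin.cons 1 0, fun l => ?_, fun l b => ?_, ?_, fun l => ?_, ?_,
      fun na S s _ _ l => ?_⟩
    · refine Fin.cases ?_ (fun i => ?_) l
      · simpa using isWeightedHomogeneous_one k _
      · exact isWeightedHomogeneous_zero k _ _
    · refine Fin.cases ?_ (fun i => ?_) l <;> simp
    · simp [Fin.sum_univ_succ]
    · refine Fin.cases ?_ (fun i => ?_) l <;> simp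
    · simp [Fin.sum_univ_succ]
    · refine Fin.cases ?_ (fun i => ?_) l
      · simpa [E_one] using S.one
      · simpa [S.zero] using E_nonneg le_rfl
  | succ n ih =>
    obtain ⟨W, t, h1, h2, h3, h4, h5, h6⟩ := ih
    have hc := fun l => erd_rename (ι := ι) (e := e) (P := c a l) (d := ((ρ + 1 : ℕ) : ℤ) - (l : ℕ))
      fun β hβ => by have := h.hc a l β hβ; omega
    refine ⟨fun l => (Fin.cons 0 (Fin.init W) : Fin (ρ + 1) → _) l +
        W (Fin.last ρ) * rename Sum.inl (c a l),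
      fun l => (Fin.cons 0 (Fin.init t) : Fin (ρ + 1) → ℝ) l + t (Fin.last ρ),
      fun l => ?_, fun l b => ?_, ?_, fun l => ?_, ?_, fun na S s hs hS l => ?_⟩
    · refine IsWeightedHomogeneous.add ?_ ?_
      · refine Fin.cases ?_ (fun i => ?_) l
        · exact isWeightedHomogeneous_zero k _ _
        · have e1 : ((n + 1 : ℕ) : ℤ) - ((i.succ : Fin (ρ + 1)) : ℕ) =
              n - ((i.castSucc : Fin (ρ + 1)) : ℕ) := by simp
          rw [e1]
          exact h1 _
      · have e1 : ((n + 1 : ℕ) : ℤ) - (l : ℕ) =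
            n - ((Fin.last ρ : Fin (ρ + 1)) : ℕ) + (((ρ + 1 : ℕ) : ℤ) - (l : ℕ)) := by
          simp only [Fin.val_last]
          push_cast
          ring
        rw [e1]
        exact (h1 _).mul (hc l).1
    · refine Nat.le_zero.1 ((degreeOf_add_le _ _ _).trans (max_le ?_ ?_))
      · refine Fin.cases ?_ (fun i => ?_) l
        · simp
        · exact (h2 _ b).le
      · refine (degreeOf_mul_le _ _ _).trans ?_
        rw [h2, (hc l).2]
    · have e1 : ∀ l, aeval (Sum.elim u X) (rename (Sum.inl : _ → Fin (g + 1) ⊕ ι) (c a l)) =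
          aeval u (c a l) := fun l => by rw [aeval_rename, Sum.elim_comp_inl]
      have key := J.add_mem (J.mul_mem_left (X a) h3)
        (J.mul_mem_left (aeval (Sum.elim u X) (W (Fin.last ρ))) (h.rel a))
      refine (congrArg (· ∈ J) ?_).mp key
      simp only [map_add, map_mul, e1, add_mul, sum_add_distrib, mul_assoc, ← mul_sum]
      rw [Fin.sum_univ_castSucc, Fin.sum_univ_succ fun l => aeval (Sum.elim u X)
        ((Fin.cons 0 (Fin.init W) : Fin (ρ + 1) → _) l) * X a ^ (l : ℕ)]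
      have e2 : ∑ i : Fin ρ, aeval (Sum.elim u X) ((Fin.cons 0 (Fin.init W) : Fin (ρ + 1) → _)
          i.succ) * X a ^ ((i.succ : Fin (ρ + 1)) : ℕ) = X a * ∑ i : Fin ρ,
            aeval (Sum.elim u X) (W i.castSucc) * X a ^ ((i.castSucc : Fin (ρ + 1)) : ℕ) := by
        rw [mul_sum]
        refine sum_congr rfl fun i _ => ?_
        simp only [Fin.cons_succ, Fin.init, Fin.val_succ, Fin.val_castSucc]
        ring
      rw [e2]
      simp only [Fin.cons_zero, map_zero, zero_mul, zero_add, Fin.val_last]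
      ring
    · refine add_nonneg ?_ (h4 _)
      refine Fin.cases ?_ (fun i => ?_) l
      · exact le_rfl
      · exact h4 _
    · have a1 : t (Fin.last ρ) ≤ ∑ l, t l := single_le_sum (fun l _ => h4 l) (mem_univ _)
      have a2 : ∑ i : Fin ρ, t i.castSucc ≤ ∑ l, t l := by
        rw [Fin.sum_univ_castSucc]
        exact le_add_of_nonneg_right (h4 _)
      have a3 := mul_le_mul_of_nonneg_left (a1.trans h5) (show (0 : ℝ) ≤ ρ + 1 by positivity)
      rw [sum_add_distrib, Fin.sum_univ_succ, sum_const, card_univ, Fintype.card_fin, pow_succ]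
      simp only [Fin.cons_zero, Fin.cons_succ, Fin.init, nsmul_eq_mul]
      push_cast
      linarith
    · have hs0 : 0 ≤ s := zero_le_one.trans hs
      refine S.add_le ?_ ?_
      · refine Fin.cases ?_ (fun i => ?_) l
        · rw [Fin.cons_zero, Fin.cons_zero, S.zero]
          exact mul_nonneg (E_nonneg le_rfl) (pow_nonneg hs0 _)
        · exact (h6 na S s hs hS _).trans (mul_le_mul_of_nonneg_left
            (pow_le_pow_right₀ hs (Nat.le_succ n)) (E_nonneg (h4 _)))
      · rw [pow_succ, ← mul_assoc]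
        exact S.mul_le (h6 na S s hs hS _) (hS l)

/-- Sketch.  For one variable `a` define `V n : Fin ρ → k [U]` by `V 0 = (1, 0, ..)`,
`V (n + 1) l = V n (l - 1) + V n (ρ - 1) * c a l`, and put
`r a n = ∑ l, rename inl (V n l) * X (inr a) ^ l`.  Then `X a ^ n - r a n (u, X) ∈ J`,
`e * degree + l = n` on the support of `V n l`, and the sum (the maximum in the ultrametric case)
over `l` of `pl (V n l)` is at most `(E (ρ + 1) * s) ^ n`, hence so is `pl (r a n)`.  Put
`rd μ = ∏ a, r a (μ a)`; use `exists_polSN` and `coeff_le_pl`. -/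
theorem exists_rd (he : 1 ≤ e) {c : ι → Fin ρ → MvPolynomial (Fin (g + 1)) k}
    (h : NN J e ρ u c) : ∃ rd, IsRd J e ρ u rd ∧ ∀ (v : AbsoluteValue k ℝ) (s : ℝ), 1 ≤ s →
      (∀ a l, pl v (c a l) ≤ s) → ∀ μ ω,
        v (coeff ω (rd μ)) ≤ (E (IsNonarchimedean v) (ρ + 1) * s) ^ μ.degree := by
  classical
  obtain ⟨ρ, rfl⟩ : ∃ ρ', ρ = ρ' + 1 := ⟨ρ - 1, by have := h.pos; omega⟩
  choose W t h1 h2 h3 h4 h5 h6 using erd_one h
  obtain ⟨r, hr⟩ : ∃ r : ι → ℕ → MvPolynomial (Fin (g + 1) ⊕ ι) k,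
      ∀ a n, r a n = ∑ l, W a n l * X (.inr a) ^ (l : ℕ) := ⟨_, fun _ _ => rfl⟩
  refine ⟨fun μ => ∏ a, r a (μ a), ⟨h.hu, fun μ => ?_, fun μ ω hω => ?_⟩,
    fun v s hs hc μ ω => ?_⟩
  · rw [monomial_eq, C_1, one_mul, Finsupp.prod_fintype _ _ fun _ => pow_zero _, map_prod]
    refine Ideal.Quotient.eq.1 ?_
    rw [map_prod, map_prod]
    refine prod_congr rfl fun a _ => Ideal.Quotient.eq.2 ?_
    simpa only [hr, map_sum, map_mul, map_pow, aeval_X, Sum.elim_inr] using h3 a (μ a)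
  · have a1 : ∀ a n, IsWeightedHomogeneous (erdW g ι e) (r a n) (n : ℤ) := by
      intro a n
      rw [hr]
      refine IsWeightedHomogeneous.sum _ _ _ fun l _ => ?_
      have b1 := (h1 a n l).mul
        ((isWeightedHomogeneous_X k (erdW g ι e) (.inr a)).pow (l : ℕ))
      simpa [erdW] using b1
    have a2 : ∀ a n b, degreeOf (.inr b) (r a n) ≤ if a = b then ρ else 0 := by
      intro a n b
      rw [hr]
      refine (degreeOf_sum_le _ _ _).trans (Finset.sup_le fun l _ => ?_)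
      refine (degreeOf_mul_le _ _ _).trans ?_
      rw [h2, zero_add]
      split_ifs with hab
      · rw [hab, degreeOf_X_self_pow]
        exact l.is_le
      · exact (degreeOf_X_pow_of_ne _ fun e => hab (Sum.inr_injective e).symm).le
    refine (mem_Mon he).2 ⟨?_, fun b => ?_⟩
    · have b1 := IsWeightedHomogeneous.prod univ (fun a => r a (μ a)) (fun a => (μ a : ℤ))
        (fun a _ => a1 a (μ a)) (mem_support_iff.1 hω)
      rw [erd_weight] at b1
      rw [Finsupp.degree_eq_sum]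
      exact_mod_cast b1
    · refine Nat.lt_succ_of_le ((monomial_le_degreeOf _ hω).trans
        ((degreeOf_prod_le _ _ _).trans ((sum_le_sum fun a _ => a2 a (μ a) b).trans ?_)))
      simp
  · obtain ⟨S, hS⟩ := exists_polSN (absSN v) (σ := Fin (g + 1) ⊕ ι) (t := fun _ => 1)
      fun _ => zero_le_one
    have hs0 : 0 ≤ s := zero_le_one.trans hs
    have hX : ∀ i, S.N (X i) ≤ 1 := fun i => hS ▸ polN_X _ (fun _ => zero_le_one) i
    have a1 : ∀ a l, S.N (rename Sum.inl (c a l)) ≤ s := by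
      intro a l
      rw [rename_eq_aeval, aeval_def]
      exact (eval₂_le_polN (absSN v) (t := fun _ => 1) S _
        (fun z => hS ▸ polN_C _ (fun _ => zero_le_one) z) (fun i => hX _) _).trans (hc a l)
    have a2 : ∀ a n, S.N (r a n) ≤ (E (IsNonarchimedean v) ((ρ + 1 : ℕ) + 1) * s) ^ n := by
      intro a n
      rw [hr, mul_pow, ← E_pow]
      refine (S.sum_le univ (t := t a n) (pow_nonneg hs0 n) fun l _ => ?_).trans
        (mul_le_mul_of_nonneg_right (E_mono ((h5 a n).trans_eq ?_)) (pow_nonneg hs0 n))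
      · have b1 := S.mul_le (h6 a n _ S s hs (a1 a) l) (S.pow_le (hX (.inr a)) l)
        rwa [one_pow, mul_one] at b1
      · push_cast
        ring
    refine (coeff_le_pl v _ ω).trans ?_
    rw [pl, ← hS, Finsupp.degree_eq_sum, ← prod_pow_eq_pow_sum]
    exact S.prod_le _ fun a _ => a2 a (μ a)

end Pool.Agent.Lib.MP_651af7_nt.Av
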