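import Pool.Agent.Lib.MP_651af7_nt.Av.EDefs

/-! Engine: normal forms modulo monic equations. -/

namespace Pool.Agent.Lib.MP_651af7_nt.Av

open MvPolynomial Finset

variable {k ι R R' : Type} [Field k] [Fintype ι] [CommRing R] [Algebra k R] [CommRing R']
  [Algebra k R'] {g e ρ n : ℕ} {J : Ideal (MvPolynomial ι k)}
  {u : Fin (g + 1) → MvPolynomial ι k} {rd : (ι →₀ ℕ) → MvPolynomial (Fin (g + 1) ⊕ ι) k}

theorem mem_Mon (he : 1 ≤ e) {ω : Ex g ι} : ω ∈ Mon ι g e ρ n ↔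
    e * ∑ l, ω (.inl l) + ∑ a, ω (.inr a) = n ∧ ∀ a, ω (.inr a) < ρ := by
  classical
  unfold Mon
  rw [mem_filter, mem_Iic]
  refine ⟨fun h => h.2, fun h => ⟨fun x => ?_, h⟩⟩
  show ω x ≤ n
  have h1 := h.1
  rcases x with l | a
  · have h2 : ω (.inl l) ≤ ∑ l, ω (.inl l) :=
      single_le_sum (f := fun l => ω (.inl l)) (fun _ _ => Nat.zero_le _) (mem_univ l)
    have h3 : ∑ l, ω (.inl l) ≤ e * ∑ l, ω (.inl l) := Nat.le_mul_of_pos_left _ he
    omega
  · have h2 : ω (.inr a) ≤ ∑ a, ω (.inr a) :=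
      single_le_sum (f := fun a => ω (.inr a)) (fun _ _ => Nat.zero_le _) (mem_univ a)
    omega

theorem card_Mon_le_pow : (Mon ι g e ρ n).card ≤ 2 ^ ((g + 1 + Fintype.card ι) * n) := by
  classical
  have h1 : (Mon ι g e ρ n).card ≤
      (Fintype.piFinset fun _ : Fin (g + 1) ⊕ ι => range (n + 1)).card := by
    refine card_le_card_of_injOn (fun ω => (ω : Fin (g + 1) ⊕ ι → ℕ)) (fun ω hω => ?_)
      fun _ _ _ _ h => DFunLike.coe_injective h
    have h2 := (mem_filter.1 (mem_coe.1 hω)).1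
    rw [mem_Iic] at h2
    rw [mem_coe, Fintype.mem_piFinset]
    intro x
    exact mem_range.2 (Nat.lt_succ_of_le (h2 x))
  refine h1.trans ?_
  rw [Fintype.card_piFinset, prod_const, card_range, card_univ, Fintype.card_sum, Fintype.card_fin,
    mul_comm, pow_mul]
  exact Nat.pow_le_pow_left Nat.lt_two_pow_self _

omit [Fintype ι] in
theorem ered_eq {P : MvPolynomial ι R} {s : Finset (ι →₀ ℕ)} (hs : P.support ⊆ s) (ω : Ex g ι) :
    redc rd P ω = ∑ μ ∈ s, coeff μ P * algebraMap k R (coeff ω (rd μ)) :=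
  sum_subset hs fun μ _ hμ => by rw [notMem_support_iff.1 hμ, zero_mul]

omit [Fintype ι] in
theorem ered_add (P Q : MvPolynomial ι R) (ω : Ex g ι) :
    redc rd (P + Q) ω = redc rd P ω + redc rd Q ω := by
  classical
  rw [ered_eq support_add, ered_eq (P := P) subset_union_left,
    ered_eq (P := Q) subset_union_right, ← sum_add_distrib]
  exact sum_congr rfl fun μ _ => by rw [coeff_add, add_mul]

omit [Fintype ι] in
theorem ered_deg {P : MvPolynomial ι R} (hP : P.IsHomogeneous n) {μ : ι →₀ ℕ}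
    (hμ : μ ∈ P.support) : μ.degree = n := by
  by_contra h
  exact mem_support_iff.1 hμ (hP.coeff_eq_zero h)

theorem redc_sum {I : Type} (s : Finset I) (P : I → MvPolynomial ι R) (ω : Ex g ι) :
    redc rd (∑ i ∈ s, P i) ω = ∑ i ∈ s, redc rd (P i) ω := by
  classical
  induction s using Finset.induction_on with
  | empty => simp [redc]
  | insert i s hi ih => rw [sum_insert hi, sum_insert hi, ered_add, ih]

theorem redc_C_mul (c : R) (P : MvPolynomial ι R) (ω : Ex g ι) :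
    redc rd (C c * P) ω = c * redc rd P ω := by
  rw [ered_eq (s := P.support) (fun μ hμ => ?_), redc, mul_sum]
  · exact sum_congr rfl fun μ _ => by rw [coeff_C_mul, mul_assoc]
  · rw [mem_support_iff] at hμ ⊢
    intro h
    exact hμ (by rw [coeff_C_mul, h, mul_zero])

theorem map_redc (f : R →ₐ[k] R') (P : MvPolynomial ι R) (ω : Ex g ι) :
    f (redc rd P ω) = redc rd (MvPolynomial.map (f : R →+* R') P) ω := by
  rw [ered_eq (support_map_subset _ P), redc, map_sum]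
  exact sum_congr rfl fun μ _ => by rw [map_mul, coeff_map, AlgHom.commutes]; rfl

theorem IsRd.expand (h : IsRd J e ρ u rd) {P : MvPolynomial ι R} (hP : P.IsHomogeneous n)
    {y : ι → R} (hy : ∀ f ∈ J, aeval y f = 0) :
    eval y P = ∑ ω ∈ Mon ι g e ρ n, redc rd P ω * mon u y ω := by
  have h1 : ∀ μ ∈ P.support, ∏ a, y a ^ μ a =
      ∑ ω ∈ Mon ι g e ρ n, algebraMap k R (coeff ω (rd μ)) * mon u y ω := by
    intro μ hμ
    have h2 := hy _ (h.rel μ)
    rw [map_sub, sub_eq_zero, aeval_monomial, map_one, one_mul,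
      Finsupp.prod_fintype _ _ fun _ => pow_zero _] at h2
    have h3 := h.supp μ
    rw [ered_deg hP hμ] at h3
    rw [h2, ← AlgHom.comp_apply, comp_aeval, aeval_def, eval₂_eq']
    rw [sum_subset h3 fun ω _ hω => by rw [notMem_support_iff.1 hω, map_zero, zero_mul]]
    refine sum_congr rfl fun ω _ => ?_
    rw [Fintype.prod_sum_type, mon]
    simp
  rw [eval_eq', sum_congr rfl fun μ hμ => by rw [h1 μ hμ, mul_sum], sum_comm]
  refine sum_congr rfl fun ω _ => ?_
  rw [redc, sum_mul]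
  exact sum_congr rfl fun μ _ => (mul_assoc _ _ _).symm

theorem IsRd.mem (h : IsRd J e ρ u rd) {P : MvPolynomial ι k} (hP : P.IsHomogeneous n)
    (h0 : ∀ ω ∈ Mon ι g e ρ n, redc rd P ω = 0) : P ∈ J := by
  have h1 : ∀ f : MvPolynomial ι k,
      aeval (fun a => Ideal.Quotient.mkₐ k J (X a)) f = Ideal.Quotient.mkₐ k J f := fun f => by
    rw [← comp_aeval, AlgHom.comp_apply, aeval_X_left_apply]
  have h2 := h.expand (R := MvPolynomial ι k ⧸ J) (hP.map (algebraMap k _))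
    (y := fun a => Ideal.Quotient.mkₐ k J (X a)) fun f hf => by
      rw [h1]
      exact Ideal.Quotient.eq_zero_iff_mem.2 hf
  rw [eval_map, ← aeval_def, h1, sum_eq_zero fun ω hω => ?_] at h2
  · exact Ideal.Quotient.eq_zero_iff_mem.1 h2
  · have h3 := map_redc (rd := rd) (Algebra.ofId k (MvPolynomial ι k ⧸ J)) P ω
    rw [h0 ω hω, map_zero] at h3
    exact mul_eq_zero_of_left h3.symm _

variable {v : AbsoluteValue k ℝ} {S : SN R (IsNonarchimedean v)}

theorem SN.Ov.redc_le (hS : S.Ov v) {s : ℝ} (hs0 : 0 ≤ s)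
    (hs : ∀ μ ω, v (coeff ω (rd μ)) ≤ s ^ μ.degree) {P : MvPolynomial ι R}
    (hP : P.IsHomogeneous n) (ω : Ex g ι) :
    S.N (redc rd P ω) ≤ polN S (fun _ => 1) P * s ^ n := by
  have h1 : S.N (redc rd P ω) ≤ polN S (fun _ => s) P := by
    refine S.sum_le_agg fun μ _ => S.mul_le le_rfl ?_
    rw [wt_const]
    exact (hS _).trans (hs μ ω)
  refine h1.trans (polN_le_mul S (fun _ => hs0) (pow_nonneg hs0 n) fun μ hμ => ?_)
  rw [wt_const, ered_deg hP hμ]

theorem SN.mon_le {na : Prop} (S : SN R na) (he : 1 ≤ e) {y : ι → R} {Y γ : ℝ} (hY : 0 ≤ Y)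
    (hγ : 0 ≤ γ) (hy : ∀ a, S.N (y a) ≤ Y) (hu : ∀ l, S.N (aeval y (u l)) ≤ Y ^ e)
    {mk : Finset (Fin (g + 1))} (hm : ∀ l ∈ mk, S.N (aeval y (u l)) ≤ γ * Y ^ e) {ω : Ex g ι}
    (hω : ω ∈ Mon ι g e ρ n) : S.N (mon u y ω) ≤ γ ^ (∑ l ∈ mk, ω (.inl l)) * Y ^ n := by
  classical
  have h1 : S.N (∏ l, aeval y (u l) ^ ω (.inl l)) ≤
      ∏ l, ((if l ∈ mk then γ else 1) * Y ^ e) ^ ω (.inl l) := by
    refine S.prod_le _ fun l _ => S.pow_le ?_ _
    split_ifs with hl
    · exact hm l hl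
    · rw [one_mul]
      exact hu l
  have h2 : S.N (∏ a, y a ^ ω (.inr a)) ≤ ∏ a, Y ^ ω (.inr a) :=
    S.prod_le _ fun a _ => S.pow_le (hy a) _
  refine (S.mul_le h1 h2).trans (le_of_eq ?_)
  simp only [mul_pow, prod_mul_distrib, ite_pow, one_pow, prod_ite_mem, univ_inter,
    prod_pow_eq_pow_sum]
  rw [← pow_mul, mul_assoc, ← pow_add, ((mem_Mon he).1 hω).1]

end Pool.Agent.Lib.MP_651af7_nt.Av
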