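import Pool.Agent.Lib.MP_651af7_nt.Av.ParB

/-! Block P: bounds for branches and for quotients of polynomials in a branch. -/

namespace Pool.Agent.Lib.MP_651af7_nt.Av

open MvPolynomial Finset

theorem par_coeff_le {k : Type} [Field k] {r : ℕ} {v : AbsoluteValue k ℝ} {Q t : ℝ}
    {u : MvPowerSeries (Fin r) k} {c : k} (hQ : 0 < Q) (ht : t ≤ 1)
    (h : ∀ m, SLe v Q⁻¹ m (u - MvPowerSeries.C c) t) {α : Fin r →₀ ℕ} (hα : α ≠ 0) :
    v (MvPowerSeries.coeff α u) ≤ Q ^ α.degree := by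
  classical
  have h1 := ((h _).coeff (β := α) le_rfl).trans ht
  rwa [map_sub, MvPowerSeries.coeff_C, if_neg hα, sub_zero, inv_pow,
    mul_inv_le_iff₀ (pow_pos hQ _), one_mul] at h1

theorem par_br_sle (ι : Type) [Fintype ι] (B : ℕ) : ∃ (c : ℝ) (n : ℕ), 1 ≤ c ∧
    ∀ (k : Type) [Field k] (v : AbsoluteValue k ℝ) (r : ℕ) (C : Chart k ι r) (x : ι → k)
      (ξ : ι → MvPowerSeries (Fin r) k) (M : ℝ), C.At x → C.Br x ξ → 1 ≤ M →
      (∀ a, (C.φ a).totalDegree ≤ B) → (∀ a, v (x a) ≤ M) → (∀ a μ, v (coeff μ (C.φ a)) ≤ M) →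
      (∀ a, a ∉ Set.range C.I → v (aeval x (pderiv a (C.φ a)))⁻¹ ≤ M) →
      ∀ m a, SLe v ((E (IsNonarchimedean v) c * M ^ n)⁻¹ ^ 2) m (ξ a - MvPowerSeries.C (x a))
        (E (IsNonarchimedean v) c * M ^ n)⁻¹ := by
  obtain ⟨c, n, hc, H⟩ := par_impl ι B
  refine ⟨c, n, hc, fun k _ v r C x ξ M hA h hM hB hx hφ hi => H k v r (Set.range C.I)ᶜ C.φ x ξ M _
    hM (sq_nonneg _) h.const h.eqn (fun a _ b hb hba => C.pderiv_eq_zero hba hb)
    (fun a ha => (hA a ha).2.ne_zero) (fun a _ => hB a) hx (fun a _ => hφ a) hi fun b hb m => ?_⟩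
  obtain ⟨j, rfl⟩ := not_not.1 hb
  rw [h.coord, add_sub_cancel_left]
  exact sle_X (sq_nonneg _) j

/-- The size of the coefficients of a branch: `M` bounds the coordinates, the coefficients of
the equations and the inverses of the derivatives. -/
theorem exists_br_bound (ι : Type) [Fintype ι] (r B : ℕ) : ∃ (c : ℝ) (n : ℕ), 1 ≤ c ∧
    ∀ (k : Type) [Field k] (v : AbsoluteValue k ℝ) (C : Chart k ι r) (x : ι → k)
      (ξ : ι → MvPowerSeries (Fin r) k) (M : ℝ), C.At x → C.Br x ξ → 1 ≤ M →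
      (∀ a, (C.φ a).totalDegree ≤ B) → (∀ a, v (x a) ≤ M) → (∀ a μ, v (coeff μ (C.φ a)) ≤ M) →
      (∀ a, a ∉ Set.range C.I → v (eval x (pderiv a (C.φ a)))⁻¹ ≤ M) →
      ∀ a α, α ≠ 0 → v (MvPowerSeries.coeff α (ξ a)) ≤
        (E (IsNonarchimedean v) c * M ^ n) ^ α.degree := by
  obtain ⟨c, n, hc, H⟩ := par_br_sle ι B
  refine ⟨c ^ 2, n * 2, one_le_pow₀ hc, fun k _ v C x ξ M hA h hM hB hx hφ hi a α hα => ?_⟩
  have h1 : 1 ≤ E (IsNonarchimedean v) c * M ^ n :=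
    one_le_mul_of_one_le_of_one_le (par_one_le_E _ hc) (one_le_pow₀ hM)
  rw [par_E_pow, pow_mul, ← mul_pow]
  refine par_coeff_le (c := x a) (by positivity) (inv_le_one_of_one_le₀ h1) (fun m => ?_) hα
  rw [← inv_pow]
  exact H k v r C x ξ M hA h hM hB hx hφ hi m a

variable {k ι : Type} [Field k] [Fintype ι] {r : ℕ}

theorem par_fin_coeff {σ J : Type} [Finite J] (φ : J → MvPolynomial σ k) :
    (⋃ a, Set.range fun μ => coeff μ (φ a)).Finite := by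
  classical
  refine Set.finite_iUnion fun a => (insert 0 (φ a).coeffs).finite_toSet.subset ?_
  rintro _ ⟨μ, rfl⟩
  by_cases h : coeff μ (φ a) = 0
  · simp [h]
  · exact mem_insert_of_mem (coeff_mem_coeffs μ h)

theorem par_bd {C : Chart k ι r} {x : ι → k} {ξ ϱ : ι → MvPowerSeries (Fin r) k} (hA : C.At x)
    (h : C.Br x ξ) (D : MvPolynomial ι k) (N : ι → MvPolynomial ι k) (hD : aeval x D ≠ 0)
    (hϱ : ∀ a, ϱ a * aeval ξ D = aeval ξ (N a)) :
    ∃ (c : ℝ) (s : Finset k), ∀ v : AbsoluteValue k ℝ, ∀ a α, α ≠ 0 →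
      v (MvPowerSeries.coeff α (ϱ a)) ≤
        (E (IsNonarchimedean v) c * ∏ z ∈ s, max 1 (v z)) ^ α.degree := by
  classical
  let ψ : ι ⊕ ι → MvPolynomial (ι ⊕ ι) k := fun a =>
    X a * rename Sum.inl D - rename Sum.inl (N (a.elim id id))
  let y : ι ⊕ ι → k := Sum.elim x fun a => MvPowerSeries.constantCoeff (ϱ a)
  have hin : ∀ (b : ι) (f : MvPolynomial ι k),
      pderiv (Sum.inr b) (rename (Sum.inl : ι → ι ⊕ ι) f) = 0 := fun b f =>
    pderiv_eq_zero_of_notMem_vars fun hv => by simpa using mem_vars_rename _ _ hv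
  have hψ : ∀ a, aeval y (pderiv (Sum.inr a) (ψ (Sum.inr a))) = aeval x D := fun a => by
    simp [ψ, y, hin, aeval_rename]
  obtain ⟨c₁, n₁, hc₁, H₁⟩ := par_br_sle ι (univ.sup fun a => (C.φ a).totalDegree)
  obtain ⟨c₂, n₂, hc₂, H₂⟩ := par_impl (ι ⊕ ι) (univ.sup fun a => (ψ a).totalDegree)
  have hfin := (((((Set.finite_range y).union (par_fin_coeff C.φ)).union (par_fin_coeff ψ)).union
    (Set.finite_range fun a => (aeval x (pderiv a (C.φ a)))⁻¹)).insert (aeval x D)⁻¹).insert 1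
  refine ⟨(c₂ * c₁) ^ 2, hfin.toFinset.image (· ^ ((n₂ + n₁) * 2)), fun v a α hα => ?_⟩
  obtain ⟨z, hz, hM⟩ := Set.exists_max_image _ v hfin ⟨1, .inl rfl⟩
  have hM1 : 1 ≤ v z := by simpa using hM 1 (.inl rfl)
  have h1 := H₁ k v r C x ξ (v z) hA h hM1 (fun a => le_sup (f := fun a => (C.φ a).totalDegree)
    (mem_univ a)) (fun a => hM _ (.inr (.inr (.inl (.inl (.inl ⟨.inl a, rfl⟩))))))
    (fun a μ => hM _ (.inr (.inr (.inl (.inl (.inr (Set.mem_iUnion.2 ⟨a, μ, rfl⟩)))))))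
    fun a _ => hM _ (.inr (.inr (.inr ⟨a, rfl⟩)))
  have q₁ : 1 ≤ E (IsNonarchimedean v) c₁ * v z ^ n₁ :=
    one_le_mul_of_one_le_of_one_le (par_one_le_E _ hc₁) (one_le_pow₀ hM1)
  have q₂ : 1 ≤ E (IsNonarchimedean v) c₂ * v z ^ n₂ :=
    one_le_mul_of_one_le_of_one_le (par_one_le_E _ hc₂) (one_le_pow₀ hM1)
  have h2 := H₂ k v r (Set.range Sum.inr) ψ y (Sum.elim ξ ϱ) (v z)
    ((E (IsNonarchimedean v) c₂ * v z ^ n₂)⁻¹ ^ 2 * (E (IsNonarchimedean v) c₁ * v z ^ n₁)⁻¹ ^ 2)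
    hM1 (by positivity) (by
      rintro (a | a)
      exacts [h.const a, rfl]) (by
      rintro _ ⟨a, rfl⟩
      simp [ψ, aeval_rename, hϱ]) (by
      rintro _ ⟨a, rfl⟩ _ ⟨b, rfl⟩ hb
      simp [ψ, hin, pderiv_X_of_ne hb.symm]) (by
      rintro _ ⟨a, rfl⟩
      rwa [hψ]) (fun a _ => le_sup (f := fun a => (ψ a).totalDegree) (mem_univ a))
    (fun a => hM _ (.inr (.inr (.inl (.inl (.inl ⟨a, rfl⟩))))))
    (fun a _ μ => hM _ (.inr (.inr (.inl (.inr (Set.mem_iUnion.2 ⟨a, μ, rfl⟩)))))) (by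
      rintro _ ⟨a, rfl⟩
      rw [hψ]
      exact hM _ (.inr (.inl rfl))) (by
      rintro (b | b) hb m
      · exact ((h1 m b).scale (sq_nonneg _) (by simp [h.const]) (sq_nonneg _) (pow_le_one₀
          (by positivity) (inv_le_one_of_one_le₀ q₂))).mono le_rfl
          (mul_le_of_le_one_right (sq_nonneg _) (inv_le_one_of_one_le₀ q₁))
      · exact absurd ⟨b, rfl⟩ hb)
  rw [← mul_pow, ← mul_inv, inv_pow] at h2
  refine (par_coeff_le (by positivity) (inv_le_one_of_one_le₀ q₂) (fun m => h2 m (.inr a))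
    hα).trans (pow_le_pow_left₀ (by positivity) ?_ _)
  rw [mul_mul_mul_comm, ← pow_add, mul_pow, ← pow_mul, par_E_pow, par_E_mul, ← map_pow]
  refine mul_le_mul_of_nonneg_left ((le_max_right 1 _).trans ?_) (sq_nonneg _)
  rw [← mul_prod_erase _ _ (mem_image_of_mem (· ^ ((n₂ + n₁) * 2)) (hfin.mem_toFinset.2 hz))]
  exact le_mul_of_one_le_right (by positivity) (one_le_prod fun _ _ => le_max_left _ _)

end Pool.Agent.Lib.MP_651af7_nt.Av
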