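import Pool.Agent.Lib.MP_651af7_nt.Av.Tr
import Pool.Agent.Lib.MP_651af7_nt.Av.ParC

/-! Block P: the parametrisation at the origin. -/

namespace Pool.Agent.Lib.MP_651af7_nt.Av

open MvPolynomial

variable {k ι : Type} [Field k] [Fintype ι] {r : ℕ}

namespace AV

/-- A rational point with an etale chart. -/
theorem par_point [CharZero k] (B : AV k ι) (h : B.Dense) : ∃ (C : Chart k ι B.dim) (P : B.Pt k)
    (x : ι → k), Rep P x ∧ C.a₀ = B.ao ∧ C.At x ∧ C.On B.I x ∧ ∀ a, a ∉ Set.range C.I →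
      ∀ w : ι → DualNumber k, w B.ao = 1 → (∀ f ∈ B.I, aeval w f = 0) → aeval w (C.φ a) = 0 := by
  classical
  obtain ⟨M, _, -, _, -, z, hz, hz0, hd, -⟩ := B.tr_gen k
  have hz' : ∀ f, aeval z f = 0 ↔ f ∈ B.I := fun f => by
    rw [hz, ← B.mem_IK_iff (K := k), Algebra.algebraMap_self, MvPolynomial.map_id]
  obtain ⟨n, C, h0, hA, hn, -, hO⟩ := exists_chart (K := k) (fun a => (z B.ao)⁻¹ * z a) B.ao
    (inv_mul_cancel₀ hz0)
  rw [td_rat_smul (inv_ne_zero hz0), hd, Nat.cast_inj] at hn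
  subst hn
  choose g d hg hg' using fun f : MvPolynomial ι k => exists_homogenise f B.ao
  have h1 : ∀ f, aeval (fun a => (z B.ao)⁻¹ * z a) f = 0 ↔ g f ∈ B.I := fun f => by
    rw [← hg' f M _ (inv_mul_cancel₀ hz0), aeval_mul_of_hom (hg f), ← hz',
      mul_eq_zero_iff_left (pow_ne_zero _ (inv_ne_zero hz0))]
  obtain ⟨T, hT⟩ := IsNoetherian.noetherian B.I
  choose s hs hs' using fun f : T => hO f (zero_mul_of_hom B.hom (fun f => (hz' f).2) _ f
    (hT ▸ Submodule.subset_span f.2))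
  let S : MvPolynomial ι k := (∏ f, s f) * ∏ a : ↥(Set.range C.I)ᶜ, pderiv a.1 (C.φ a)
  have h2 : ¬ X B.ao * g S ∈ B.I := fun h2 => by
    rcases B.tr_prime.mem_or_mem h2 with h3 | h3
    · exact hz0 (by simpa using (hz' _).2 h3)
    · refine absurd ((h1 S).2 h3) (IsUnit.ne_zero ?_)
      simp only [S, map_mul, map_prod]
      exact (IsUnit.prod_univ_iff.2 hs).mul (IsUnit.prod_univ_iff.2 fun a => (hA a a.2).2)
  obtain ⟨P, hP⟩ := not_forall.1 fun h3 => h2 (h _ _ ((isHomogeneous_X k B.ao).mul (hg S)) h3)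
  rw [map_mul, eval_X, mul_eq_zero, not_or] at hP
  have hx := (rep_co P).smul (inv_ne_zero hP.1).isUnit
  have h3 : IsUnit (aeval (fun a => (P.co B.ao)⁻¹ * P.co a) S) := by
    rw [← hg' S k _ (inv_mul_cancel₀ hP.1), aeval_mul_of_hom (hg S)]
    exact (mul_ne_zero (pow_ne_zero _ (inv_ne_zero hP.1)) hP.2).isUnit
  simp only [S, map_mul, map_prod, IsUnit.mul_iff, IsUnit.prod_univ_iff] at h3
  have h4 : ∀ a, a ∉ Set.range C.I → g (C.φ a) ∈ B.I := fun a ha => (h1 _).1 (hA a ha).1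
  refine ⟨C, P, _, hx, h0, fun a ha => ⟨?_, h3.2 ⟨a, ha⟩⟩, fun f hf => ?_,
    fun a ha w hw hw' => (hg' _ _ w hw).symm.trans (hw' _ (h4 a ha))⟩
  · exact (hg' _ _ _ (inv_mul_cancel₀ hP.1)).symm.trans (hx.zero _ (h4 a ha))
  · refine ⟨∏ f, s f, by simpa only [map_prod, IsUnit.prod_univ_iff] using h3.1, ?_⟩
    rw [← hT] at hf
    refine Submodule.span_induction (p := fun f _ => (∏ f, s f) * f ∈ C.ideal) (fun f hf => ?_)
      (by simp) (fun f f' _ _ h5 h6 => mul_add _ f f' ▸ add_mem h5 h6) (fun c f _ h5 => ?_) hf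
    · rw [← Finset.mul_prod_erase _ _ (Finset.mem_univ (⟨f, hf⟩ : T)), mul_right_comm]
      exact Ideal.mul_mem_right _ _ (hs' ⟨f, hf⟩)
    · rw [smul_eq_mul, mul_left_comm]
      exact Ideal.mul_mem_left _ _ h5

/-- The translates of the tangent vectors of a chart form a basis. -/
theorem par_basis {B : AV k ι} {C : Chart k ι r} {P : B.Pt k} {x : ι → k} (hx : Rep P x)
    (h1 : x B.ao = 1) (hA : C.At x) (hφ : ∀ a, a ∉ Set.range C.I → ∀ w : ι → DualNumber k,
      w B.ao = 1 → (∀ f ∈ B.I, aeval w f = 0) → aeval w (C.φ a) = 0) {v σ : Fin r → ι → k}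
    (hv : ∀ j, C.Tv x j (v j)) (h0 : ∀ j, v j B.ao = 0) (hσ : ∀ j, B.Tang x (v j) (σ j)) :
    B.LieBasis σ := by
  classical
  have hT := fun j => (tang_iff_trl hx).1 (hσ j)
  have hs : ∀ c : Fin r → k, B.trl x (∑ j, c j • v j) = ∑ j, c j • σ j := fun c => by
    simp only [map_sum, map_smul, fun j => (hT j).2]
  have hI : ∀ (c : Fin r → k) l, (∑ j, c j • v j) (C.I l) = c l := fun c l => by
    simp [Finset.sum_apply, fun j => (hv j).1 l]
  have hi : LinearIndependent k σ := Fintype.linearIndependent_iff.2 fun c hc l => by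
    rw [← hI c l, eq_zero_of_trl hx (sum_mem fun j _ => (B.Tan x).smul_mem _ (hT j).1) h1
      (by simp [Finset.sum_apply, h0]) ((hs c).trans hc), Pi.zero_apply]
  have hk : ∀ l : ι → k, B.IsLie l → ∃ c : Fin r → k, ∑ j, c j • σ j = l := by
    intro l hl
    obtain ⟨w, hw⟩ := hl.exists_tang hx
    have h2 := hw.add hx (tang_self hx (-w B.ao))
    have h3 : (w + -w B.ao • x) B.ao = 0 := by simp [h1]
    generalize w + -w B.ao • x = w at h2 h3
    refine ⟨fun j => w (C.I j), ?_⟩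
    rw [← hs, ← add_zero l, ← ((tang_iff_trl hx).1 h2).2]
    congr 1
    funext a
    by_cases ha : a ∈ Set.range C.I
    · obtain ⟨j, rfl⟩ := ha
      exact hI _ j
    have h4 := (aeval_dv x w (C.φ a)).2
    rw [hφ a ha _ (by simp [dv, h1, h3]) h2.mem, TrivSqZeroExt.snd_zero] at h4
    have h5 : ∑ b, aeval x (pderiv b (C.φ a)) * (∑ j, w (C.I j) • v j) b = 0 := by
      simp only [Finset.sum_apply, Pi.smul_apply, smul_eq_mul, Finset.mul_sum]
      rw [Finset.sum_comm]
      refine Finset.sum_eq_zero fun j _ => ?_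
      simp only [mul_left_comm _ (w (C.I j)), ← Finset.mul_sum, (hv j).2 a ha, mul_zero]
    rw [h4, ← sub_eq_zero, ← Finset.sum_sub_distrib, Finset.sum_eq_single a (fun b _ hb => ?_)
      (by simp), ← mul_sub, (hA a ha).2.mul_right_eq_zero, sub_eq_zero] at h5
    · exact h5
    · by_cases hb' : b ∈ Set.range C.I
      · obtain ⟨j, rfl⟩ := hb'
        rw [hI, sub_self]
      · simp [C.pderiv_eq_zero hb hb']
  refine ⟨fun j => (hσ j).isLie hx, hi, fun R _ _ l hl => ?_⟩
  obtain ⟨π, hπ⟩ := (Fintype.linearCombination k σ).exists_leftInverse_of_injective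
    (LinearMap.ker_eq_bot.2 hi.fintypeLinearCombination_injective)
  refine ⟨fun j => ∑ b, π (fun e => if b = e then 1 else 0) j • l b, fun a => sub_eq_zero.1
    ((Module.forall_dual_apply_eq_zero_iff k _).1 fun ψ => ?_)⟩
  have h1 : B.IsLie fun b => ψ (l b) := by
    refine isLie_iff.2 ⟨fun f hf => ?_, (congrArg ψ hl.1).trans (map_zero ψ)⟩
    have h2 := congrArg ψ ((isLie_iff.1 hl).1 f hf)
    rw [dP_eq_sum, map_sum, map_zero] at h2
    rw [dP_eq_sum, ← h2]
    refine Finset.sum_congr rfl fun b _ => ?_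
    rw [show aeval (B.oo R) (pderiv b f) = algebraMap k R (aeval (B.oo k) (pderiv b f)) from
      aeval_algebraMap_apply R B.o _, ← Algebra.smul_def, map_smul, smul_eq_mul]
  obtain ⟨c, hc⟩ := hk _ h1
  have h2 : π (fun b => ψ (l b)) = c := hc ▸ LinearMap.congr_fun hπ c
  rw [LinearMap.pi_apply_eq_sum_univ] at h2
  have h3 := congrFun hc a
  rw [map_sub, ← h3, ← h2]
  simp only [mul_comm _ (algebraMap k R _), ← Algebra.smul_def, map_sum, map_smul,
    Finset.sum_apply, Pi.smul_apply, smul_eq_mul, sub_eq_zero]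
  refine Finset.sum_congr rfl fun j _ => ?_
  rw [mul_comm]
  congr 1
  exact Finset.sum_congr rfl fun b _ => mul_comm _ _

/-- The translates of a branch are generic. -/
theorem par_gen {B : AV k ι} {I : Fin B.dim → ι} {c : Fin B.dim → k}
    {ξ ϱ : ι → MvPowerSeries (Fin B.dim) k} {Q : B.Pt (MvPowerSeries (Fin B.dim) k)} {P : B.Pt k}
    (hQ : Rep Q ξ) (h1 : ξ B.ao = 1)
    (hI : ∀ j, ξ (I j) = MvPowerSeries.C (c j) + MvPowerSeries.X j)
    (hϱ : Rep (Q - B.map (Algebra.ofId k _) P) ϱ) (y : B.Pt k) (b : ι)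
    (h0 : (fun a => B.ph a b (fun c => MvPowerSeries.C (y.co c)) ϱ) ≠ 0) :
    Gen B.I fun a => B.ph a b (fun c => MvPowerSeries.C (y.co c)) ϱ := by
  let R := MvPowerSeries (Fin B.dim) k
  have : IsDomain R := NoZeroDivisors.to_isDomain _
  let g := IsScalarTower.toAlgHom k R (FractionRing R)
  have hg : Function.Injective g := IsFractionRing.injective R _
  have hy : Rep (B.map (Algebra.ofId k R) y) fun c => MvPowerSeries.C (y.co c) :=
    (rep_co y).map _
  obtain ⟨u, hu⟩ := law hy hϱ (rep_co _) (rep_co _)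
  set W := B.map (Algebra.ofId k R) y + (Q - B.map (Algebra.ofId k R) P) with hW
  generalize (B.map (Algebra.ofId k R) y - (Q - B.map (Algebra.ofId k R) P)).co = t at hu
  have h2 : (fun a => B.ph a b (fun c => MvPowerSeries.C (y.co c)) ϱ) =
      fun a => (u * t b) * W.co a := funext fun a => by rw [hu]; ring
  rw [h2] at h0 ⊢
  have h3 : (u * t b : R) ≠ 0 := fun h => h0 (funext fun a => by rw [h, zero_mul, Pi.zero_apply])
  have h4 := (rep_co W).map g
  have h5 : B.map g Q = B.map g W - B.map (IsScalarTower.toAlgHom k k _) (y - P) := by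
    rw [hW, map_add, map_sub, map_sub, map_map, map_map,
      Subsingleton.elim (g.comp (Algebra.ofId k R)) (IsScalarTower.toAlgHom k k _)]
    abel
  have h6 : (B.dim : ℕ∞) ≤ td k (rat fun a => g (ξ a)) := by
    have h7 : AlgebraicIndependent k (MvPowerSeries.X : Fin B.dim → R) := by
      rw [algebraicIndependent_iff_injective_aeval,
        show (aeval MvPowerSeries.X : MvPolynomial (Fin B.dim) k →ₐ[k] R) =
          coeToMvPowerSeries.algHom k from algHom_ext fun j => by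
            rw [aeval_X, coeToMvPowerSeries.algHom_apply, coe_X, MvPowerSeries.map_X]]
      intro p q h
      simpa using h
    refine le_trans (by simpa using card_le_td (h7.map' hg) fun j => Set.mem_range_self j)
      (td_le_of_adjoin (S := Set.range (g ∘ MvPowerSeries.X)) ?_)
    rintro _ ⟨j, rfl⟩
    have h8 : (g ∘ MvPowerSeries.X) j = g (ξ (I j)) / g (ξ B.ao) - algebraMap k _ (c j) := by
      rw [h1, map_one, div_one, hI, map_add, ← g.commutes]
      exact (add_sub_cancel_left _ _).symm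
    rw [h8]
    exact sub_mem (Algebra.subset_adjoin ⟨(I j, B.ao), rfl⟩) (Subalgebra.algebraMap_mem _ _)
  have h7 : Gen (B.IK k) fun a => g (W.co a) := by
    refine (B.gen_iff (Function.ne_iff.2 (h4.unit.imp fun _ h => h.ne_zero)) h4.zero).2
      (le_antisymm (B.td_le_dim h4.zero) (h6.trans ?_))
    rw [← B.tr_rat_rep (hQ.map g), ← B.tr_rat_rep h4, h5]
    refine (tr_td_le (B.rat_add_sub _ _).2).trans ((td_union_le _ _).trans ?_)
    rw [B.td_map, add_zero]
  intro f n hn hf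
  rw [aeval_mul_of_hom hn, mul_eq_zero_iff_left (pow_ne_zero _ h3)] at hf
  rw [← B.mem_IK_iff (K := k), Algebra.algebraMap_self, MvPolynomial.map_id]
  exact h7 f n hn (by rw [← par_map_aeval, hf, map_zero])

end AV

theorem AV.exists_par [NumberField k] (B : AV k ι) (h : B.Dense) : ∃ ϱ, B.Par B.dim ϱ := by
  obtain ⟨C, P, x, hx, h0, hA, hO, hφ⟩ := B.par_point h
  obtain ⟨ξ, hξ⟩ := C.exists_br hA
  have h1 : B.ao ∉ Set.range C.I := fun ⟨j, hj⟩ => C.ne j (hj.trans h0.symm)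
  have h2 : ξ B.ao = 1 := by simpa [← h0, C.φ₀, sub_eq_zero] using hξ.eqn _ h1
  have h3 : x B.ao = 1 := by rw [← hξ.const, h2, map_one]
  obtain ⟨Q, hQ⟩ := exists_rep (A := B) ⟨_, h2 ▸ isUnit_one⟩ (hξ.mem hO)
  have hP := hx.map (Algebra.ofId k (MvPowerSeries (Fin B.dim) k))
  set Z := Q - B.map (Algebra.ofId k _) P with hZ
  have h4 : B.map (parEps k _) Z = 0 := by
    rw [hZ, map_sub, map_map, Subsingleton.elim (AlgHom.comp _ _) (AlgHom.id k k), map_id,
      (hQ.map _).inj (funext hξ.const ▸ hx :), sub_self]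
  obtain ⟨u, hu⟩ := (rep_zero (A := B) (R := k)).exists_smul (h4 ▸ (rep_co Z).map (parEps k _))
  obtain ⟨e, he⟩ : IsUnit (Z.co B.ao) := MvPowerSeries.isUnit_iff_constantCoeff.2 (by
    rw [← parEps_apply, hu, B.o_ao, map_one, mul_one]
    exact u.isUnit)
  have hϱ := (rep_co Z).smul e⁻¹.isUnit
  have h5 : (fun a => (↑e⁻¹ : MvPowerSeries _ k) * Z.co a) B.ao = 1 := by simp [← he]
  generalize (fun a => (↑e⁻¹ : MvPowerSeries _ k) * Z.co a) = ϱ at hϱ h5
  have h6 : ∀ a, MvPowerSeries.constantCoeff (ϱ a) = B.o a := by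
    obtain ⟨u, hu⟩ := (rep_zero (A := B) (R := k)).exists_smul (h4 ▸ hϱ.map (parEps k _))
    have h7 := hu B.ao
    rw [h5, B.o_ao, map_one, map_one, mul_one] at h7
    intro a
    rw [← parEps_apply, hu, ← h7, one_mul]
    rfl
  obtain ⟨c, hc⟩ := law hQ hP (rep_co _) hϱ
  have h7 : ∀ a b, B.ph a b ξ (fun c => Algebra.ofId k _ (x c)) =
      B.ph a B.ao ξ (fun c => Algebra.ofId k _ (x c)) * ϱ b := fun a b => by
    rw [hc, hc, h5]
    ring
  have h8 : ∀ (j : Fin B.dim) (w : ι → MvPowerSeries (Fin B.dim) k), w B.ao = 1 →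
      lin w j B.ao = 0 := fun j w hw => by simp [lin, hw, par_coeff_single]
  refine ⟨ϱ, hϱ.zero, h6, h5, par_basis hx h3 hA hφ hξ.tv (fun j => h8 j ξ h2) fun j =>
    ⟨fun f hf => par_dv_zero hξ.const j (hQ.zero f hf), h8 j ϱ h5, fun a b => ?_⟩,
    par_gen hQ h2 hξ.coord hϱ, ?_⟩
  · have h9 := congrArg (parJet j) (h7 a b)
    have h10 : (fun c => parJet j (Algebra.ofId k _ (x c))) = dv x 0 := funext fun c => by
      rw [Algebra.ofId_apply, AlgHom.commutes, dv, Pi.zero_apply, TrivSqZeroExt.inr_zero, add_zero]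
      rfl
    rwa [map_mul, map_ph, map_ph, parJet_dv hξ.const, h10, congrFun (parJet_dv h6 j) b] at h9
  · obtain ⟨a, ha⟩ := (rep_co (Q + B.map (Algebra.ofId k _) P)).unit
    have h9 : ∀ b, aeval ξ (B.ph a b X fun c => MvPolynomial.C (x c)) =
        B.ph a b ξ fun c => Algebra.ofId k _ (x c) := fun b => by
      simp [map_ph, Algebra.ofId_apply]
    refine par_bd hA hξ (B.ph a B.ao X fun c => MvPolynomial.C (x c))
      (fun b => B.ph a b X fun c => MvPolynomial.C (x c)) (IsUnit.ne_zero ?_) fun b => ?_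
    · rw [← par_const_aeval hξ.const, ← MvPowerSeries.isUnit_iff_constantCoeff, h9, hc, h5,
        mul_one]
      exact c.isUnit.mul ha
    · rw [h9, h9, h7 a b, mul_comm]

end Pool.Agent.Lib.MP_651af7_nt.Av
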