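import Pool.Agent.Lib.MP_651af7_nt.Av.EAd
import Pool.Agent.Lib.MP_651af7_nt.Av.ERd
import Pool.Agent.Lib.MP_651af7_nt.Av.Par

/-! Engine: sizes and radii of the blocks. -/

namespace Pool.Agent.Lib.MP_651af7_nt.Av

open MvPolynomial Finset Height

variable {k ι : Type} [Field k] [Fintype ι]

omit [Fintype ι] in
theorem Chart.At.one {r : ℕ} {C : Chart k ι r} {x : ι → k} (h : C.At x) : x C.a₀ = 1 := by
  have h1 := (h C.a₀ fun ⟨j, hj⟩ => C.ne j hj).1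
  rw [C.φ₀, map_sub, aeval_X, map_one] at h1
  exact sub_eq_zero.1 h1

variable [NumberField k]

theorem esize_fam {I : Type} [Fintype I] {c : I → AbsoluteValue k ℝ → ℝ} {h : I → ℝ}
    (hc : ∀ i, Ad (c i) (h i)) : ∃ s, Ad s (∑ i, h i) ∧ ∀ i v, c i v ≤ s v := by
  classical
  refine ⟨_, ad_prod univ fun i _ => hc i, fun i v => ?_⟩
  rw [← mul_prod_erase univ _ (mem_univ i)]
  exact le_mul_of_one_le_right ((hc i).pos v).le (one_le_prod fun j _ => (hc j).one v)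

theorem esize_fam' {I : Type} [Fintype I] {c : I → AbsoluteValue k ℝ → ℝ} {h : ℝ}
    (hc : ∀ i, Ad (c i) h) : ∃ s, Ad s (Fintype.card I * h) ∧ ∀ i v, c i v ≤ s v := by
  obtain ⟨s, hs, hs'⟩ := esize_fam (h := fun _ => h) hc
  refine ⟨s, hs.mono (le_of_eq ?_), hs'⟩
  rw [sum_const, card_univ, nsmul_eq_mul]

omit [NumberField k] in
theorem esize_geo {τ : Type} [Fintype τ] {v : AbsoluteValue k ℝ} {y : ℝ}
    {f : MvPowerSeries τ k} (h : ∀ α, α ≠ 0 → v (MvPowerSeries.coeff α f) ≤ y ^ α.degree) :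
    Geo v (E (IsNonarchimedean v) (2 * Fintype.card τ + 1) * y) f := by
  intro α hα
  rw [mul_pow, mul_comm]
  have h0 : (0 : ℝ) ≤ 2 * Fintype.card τ := by positivity
  exact mul_le_mul (pow_le_pow_left₀ (E_nonneg h0) (E_mono (by linarith)) _) (h α hα)
    (v.nonneg _) (pow_nonneg (E_nonneg (by linarith)) _)

omit [Fintype ι] in
theorem esize_pderiv {B : ℕ} {w : ℝ} (hw : 0 ≤ w) {P : MvPolynomial ι k} (h : SmallP B w P)
    (a : ι) : SmallP B (w + ∑ n ∈ range (B + 1), logHeight₁ (n : k)) (pderiv a P) := by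
  have key : ∀ μ : ι →₀ ℕ, coeff (μ + Finsupp.single a 1) P ≠ 0 → μ.degree + 1 ≤ B := by
    intro μ hμ
    have h1 := (le_totalDegree (mem_support_iff.2 hμ)).trans h.1
    have h2 : ((μ + Finsupp.single a 1).sum fun _ e => e) = (μ + Finsupp.single a 1).degree := rfl
    rw [h2, map_add, Finsupp.degree_single] at h1
    exact h1
  have hs : 0 ≤ ∑ n ∈ range (B + 1), logHeight₁ (n : k) :=
    sum_nonneg fun n _ => zero_le_logHeight₁ _
  refine ⟨Finset.sup_le fun μ hμ => ?_, fun μ => ?_⟩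
  · have h1 := mem_support_iff.1 hμ
    rw [coeff_pderiv] at h1
    have h2 := key μ (left_ne_zero_of_mul h1)
    have h3 : (μ.sum fun _ e => e) = μ.degree := rfl
    omega
  · rw [coeff_pderiv]
    by_cases h0 : coeff (μ + Finsupp.single a 1) P = 0
    · rw [h0, zero_mul, logHeight₁_zero]
      linarith
    · have h2 := key μ h0
      have h3 : μ a ≤ μ.degree := Finsupp.le_degree a μ
      have h4 : logHeight₁ (((μ a + 1 : ℕ) : k)) ≤ ∑ n ∈ range (B + 1), logHeight₁ (n : k) :=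
        single_le_sum (f := fun n : ℕ => logHeight₁ (n : k)) (fun n _ => zero_le_logHeight₁ _)
          (mem_range.2 (by omega))
      rw [Nat.cast_succ] at h4
      exact (logHeight₁_mul_le _ _).trans (add_le_add (h.2 _) h4)

/-- `s` is the product of `E 2`, `E (ρ + 1)` and of sizes for the `Φ a b`, `o a`, `u l`, `c a l`. -/
theorem exists_sz (B : AV k ι) (g ρ B₀ : ℕ) {e : ℕ} (he : 1 ≤ e) : ∃ κ : ℝ, 0 ≤ κ ∧
    ∀ (u : Fin (g + 1) → MvPolynomial ι k) (c : ι → Fin ρ → MvPolynomial (Fin (g + 1)) k) (h : ℝ),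
      0 ≤ h → NN B.I e ρ u c → (∀ i, SmallP B₀ h (u i)) → (∀ a l, SmallP B₀ h (c a l)) →
      ∃ rd s, IsRd B.I e ρ u rd ∧ Ad s (κ * (h + 1)) ∧ ∀ v, Sz B v u rd (s v) := by
  obtain ⟨κ₁, hκ₁, H₁⟩ := exists_ad_pl k ι B₀
  obtain ⟨κ₂, hκ₂, H₂⟩ := exists_ad_pl k (Fin (g + 1)) B₀
  choose cΦ hΦ hcΦ hcΦ' using fun p : ι × ι => exists_ad_fixed (B.Φ p.1 p.2)
  obtain ⟨sΦ, hsΦ, hsΦ'⟩ := esize_fam hcΦ
  obtain ⟨so, hso, hso'⟩ := esize_fam fun a => ad_max (B.o a)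
  have hρ : (1 : ℝ) ≤ ρ + 1 := le_add_of_nonneg_left (Nat.cast_nonneg ρ)
  obtain ⟨C₀, hf⟩ : ∃ C₀, Ad (fun v : AbsoluteValue k ℝ => E (IsNonarchimedean v) 2 * sΦ v * so v *
      E (IsNonarchimedean v) (ρ + 1)) C₀ :=
    ⟨_, (((ad_E one_le_two).mul hsΦ).mul hso).mul (ad_E hρ)⟩
  have hC₀ := hf.nonneg
  refine ⟨C₀ + Fintype.card (Fin (g + 1)) * κ₁ + Fintype.card (ι × Fin ρ) * κ₂, by positivity,
    fun u c h hh hNN hu hc => ?_⟩
  choose cu hcu hcu' using fun i => H₁ (u i) h hh (hu i)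
  choose cc hcc hcc' using fun p : ι × Fin ρ => H₂ (c p.1 p.2) h hh (hc p.1 p.2)
  obtain ⟨su, hsu, hsu'⟩ := esize_fam' hcu
  obtain ⟨sc, hsc, hsc'⟩ := esize_fam' hcc
  obtain ⟨rd, hrd, hrd'⟩ := exists_rd he hNN
  refine ⟨rd, _, hrd, ((hf.mul hsu).mul hsc).mono ?_, fun v => ?_⟩
  · have := mul_nonneg hC₀ hh
    nlinarith
  · have a1 : 1 ≤ E (IsNonarchimedean v) 2 := one_le_E one_le_two
    have a2 := hsΦ.one v
    have a3 := hso.one v
    have a4 : 1 ≤ E (IsNonarchimedean v) (ρ + 1) := one_le_E hρ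
    have a5 := hsu.one v
    have a6 := hsc.one v
    have hl : ∀ {x y z : ℝ}, x ≤ y → 0 ≤ y → 1 ≤ z → x ≤ y * z := fun h1 h2 h3 =>
      h1.trans (le_mul_of_one_le_right h2 h3)
    have hr : ∀ {x y z : ℝ}, x ≤ z → 1 ≤ y → 0 ≤ z → x ≤ y * z := fun h1 h2 h3 =>
      h1.trans (le_mul_of_one_le_left h3 h2)
    have b2 := one_le_mul_of_one_le_of_one_le a1 a2
    have b3 := one_le_mul_of_one_le_of_one_le b2 a3
    have b4 := one_le_mul_of_one_le_of_one_le b3 a4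
    have b5 := one_le_mul_of_one_le_of_one_le b4 a5
    have z : ∀ {x : ℝ}, 1 ≤ x → 0 ≤ x := fun h => zero_le_one.trans h
    refine ⟨⟨?_, fun a b => ?_, fun a => ?_⟩, fun l => ?_, fun μ ω => ?_⟩
    · exact hl (hl (hl (hl (hl le_rfl (z a1) a2) (z b2) a3) (z b3) a4) (z b4) a5) (z b5) a6
    · exact hl (hl (hl (hl (hr ((hcΦ' (a, b) v).trans (hsΦ' (a, b) v)) a1 (z a2)) (z b2) a3)
        (z b3) a4) (z b4) a5) (z b5) a6
    · exact hl (hl (hl (hr ((le_max_right _ _).trans (hso' a v)) b2 (z a3)) (z b3) a4) (z b4) a5)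
        (z b5) a6
    · exact hl (hr ((hcu' l v).trans (hsu' l v)) b4 (z a5)) (z b5) a6
    · refine (hrd' v (sc v) a6 (fun a l => (hcc' (a, l) v).trans (hsc' (a, l) v)) μ ω).trans
        (pow_le_pow_left₀ (mul_nonneg (z a4) (z a6)) ?_ _)
      exact mul_le_mul_of_nonneg_right (hl (hr le_rfl b3 (z a4)) (z b4) a5) (z a6)

/-- `exists_br_bound` with `M` the product of `nm v x`, of sizes for the `φ a` and of the
`max 1 (v (eval x (pderiv a (φ a)))⁻¹)`; the height of the derivative is bounded through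
`Ad.logHeight₁_le` (`pl v (pderiv a P) ≤ E B₀ * pl v P`, or bound the coefficients). -/
theorem exists_rad (k ι : Type) [Field k] [NumberField k] [Fintype ι] (r B₀ : ℕ) :
    ∃ κ : ℝ, 0 ≤ κ ∧ ∀ (C : Chart k ι r) (x : ι → k) (ξ : ι → MvPowerSeries (Fin r) k) (w : ℝ),
      C.At x → C.Br x ξ → logHeight x ≤ w → (∀ a, SmallP B₀ w (C.φ a)) →
      ∃ q, Ad q (κ * (w + 1)) ∧ ∀ v a, Geo v (q v) (ξ a) := by
  obtain ⟨c, n, hc, H⟩ := exists_br_bound ι r B₀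
  obtain ⟨κ₁, hκ₁, H₁⟩ := exists_ad_pl k ι B₀
  obtain ⟨C₁, hC₁⟩ : ∃ C₁, C₁ = ∑ n ∈ range (B₀ + 1), logHeight₁ (n : k) := ⟨_, rfl⟩
  have hC₁' : 0 ≤ C₁ := hC₁ ▸ sum_nonneg fun n _ => zero_le_logHeight₁ _
  have hr : (1 : ℝ) ≤ 2 * Fintype.card (Fin r) + 1 := le_add_of_nonneg_left (by positivity)
  obtain ⟨C₂, hE₂⟩ : ∃ C₂, Ad (fun v : AbsoluteValue k ℝ =>
      E (IsNonarchimedean v) (2 * Fintype.card (Fin r) + 1)) C₂ := ⟨_, ad_E hr⟩
  obtain ⟨C₃, hE₃⟩ : ∃ C₃, Ad (fun v : AbsoluteValue k ℝ => E (IsNonarchimedean v) c) C₃ :=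
    ⟨_, ad_E hc⟩
  have hC₂ := hE₂.nonneg
  have hC₃ := hE₃.nonneg
  refine ⟨C₂ + (C₃ + n * (1 + Fintype.card ι * κ₁ + Fintype.card ι * (κ₁ * (C₁ + 1) + B₀))),
    by positivity, fun C x ξ w hx hξ hw hφ => ?_⟩
  have hw0 : 0 ≤ w := (logHeight_nonneg x).trans hw
  have hnm : Ad (fun v => nm v x) (w + 1) := (ad_nm hx.one).mono (by linarith)
  choose cφ hcφ hcφ' using fun a => H₁ (C.φ a) w hw0 (hφ a)
  choose cd hcd hcd' using fun a => H₁ (pderiv a (C.φ a)) (w + C₁) (by linarith)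
    (hC₁ ▸ esize_pderiv hw0 (hφ a) a)
  have hd : ∀ a, Ad (fun v => max 1 (v (eval x (pderiv a (C.φ a)))⁻¹))
      ((κ₁ * (C₁ + 1) + B₀) * (w + 1)) := fun a => by
    refine (ad_max _).mono ?_
    rw [logHeight₁_inv]
    refine (((hcd a).mul (hnm.pow B₀)).logHeight₁_le fun v _ => ?_).trans ?_
    · refine ((absSN_ov v).aeval_le' (esize_pderiv hw0 (hφ a) a).1 (hnm.one v)
        fun b => le_nm v x b).trans ?_
      exact mul_le_mul_of_nonneg_right (hcd' a v) (pow_nonneg (hnm.pos v).le _)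
    · have := mul_nonneg hκ₁ (mul_nonneg hC₁' hw0)
      nlinarith
  obtain ⟨sφ, hsφ, hsφ'⟩ := esize_fam' hcφ
  obtain ⟨sd, hsd, hsd'⟩ := esize_fam' hd
  have hM := (hnm.mul hsφ).mul hsd
  refine ⟨_, (hE₂.mul (hE₃.mul (hM.pow n))).mono ?_, fun v a => ?_⟩
  · have h1 := mul_nonneg hC₂ hw0
    have h2 := mul_nonneg hC₃ hw0
    nlinarith
  · have a1 := hnm.one v
    have a2 := hsφ.one v
    have a3 := hsd.one v
    have b2 := one_le_mul_of_one_le_of_one_le a1 a2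
    have z : ∀ {x : ℝ}, 1 ≤ x → 0 ≤ x := fun h => zero_le_one.trans h
    refine esize_geo (H k v C x ξ _ hx hξ (hM.one v)
      (fun b => (hφ b).1) (fun b => ?_) (fun b μ => ?_) (fun b _ => ?_) a)
    · exact ((le_nm v x b).trans (le_mul_of_one_le_right (z a1) a2)).trans
        (le_mul_of_one_le_right (z b2) a3)
    · exact ((((coeff_le_pl v _ μ).trans (hcφ' b v)).trans (hsφ' b v)).trans
        (le_mul_of_one_le_left (z a2) a1)).trans (le_mul_of_one_le_right (z b2) a3)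
    · exact ((le_max_right _ _).trans (hsd' b v)).trans (le_mul_of_one_le_left (z a3) b2)

theorem AV.Par.exists_rad {B : AV k ι} {g : ℕ} {ϱ : ι → MvPowerSeries (Fin g) k}
    (h : B.Par g ϱ) : ∃ q C, Ad q C ∧ ∀ v a, Geo v (q v) (ϱ a) := by
  obtain ⟨c, s, hs⟩ := h.bd
  have hr : (1 : ℝ) ≤ 2 * Fintype.card (Fin g) + 1 := le_add_of_nonneg_left (by positivity)
  have hc : (1 : ℝ) ≤ |c| + 1 := le_add_of_nonneg_left (abs_nonneg c)
  have hP := ad_prod s fun z _ => ad_max z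
  have hy := (ad_E hc).mul hP
  refine ⟨_, _, (ad_E hr).mul hy, fun v a => esize_geo fun α hα => ?_⟩
  refine (hs v a α hα).trans ((le_abs_self _).trans ?_)
  rw [abs_pow, abs_mul, abs_of_pos (hP.pos v)]
  refine pow_le_pow_left₀ (mul_nonneg (abs_nonneg _) (hP.pos v).le)
    (mul_le_mul_of_nonneg_right ?_ (hP.pos v).le) _
  by_cases hv : IsNonarchimedean v
  · rw [E_pos_case hv, E_pos_case hv, abs_one]
  · rw [E_neg_case hv, E_neg_case hv]
    linarith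

end Pool.Agent.Lib.MP_651af7_nt.Av
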