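import Pool.Agent.Lib.MP_651af7_nt.Av.Tr

/-! Block N: systems of parameters and monic equations. -/

namespace Pool.Agent.Lib.MP_651af7_nt.Av

open MvPolynomial

section alg

variable {ι K : Type} [Field K]

/-- The component of degree `d` of a multiple of a form of degree `e`. -/
theorem comp_mul_hom {u : MvPolynomial ι K} {e : ℕ} (hu : u.IsHomogeneous e)
    (g : MvPolynomial ι K) (d : ℕ) :
    homogeneousComponent d (g * u) = 0 ∨
      ∃ n, n + e = d ∧ homogeneousComponent d (g * u) = homogeneousComponent n g * u := by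
  have h : homogeneousComponent d (g * u) = ∑ n ∈ Finset.range (g.totalDegree + 1),
      if d = n + e then homogeneousComponent n g * u else 0 := by
    conv_lhs => rw [← sum_homogeneousComponent g, Finset.sum_mul, map_sum]
    exact Finset.sum_congr rfl fun n _ =>
      homogeneousComponent_of_mem ((homogeneousComponent_isHomogeneous n g).mul hu)
  by_cases hex : ∃ n ∈ Finset.range (g.totalDegree + 1), d = n + e
  · obtain ⟨n, hn, hd⟩ := hex
    refine Or.inr ⟨n, hd.symm, ?_⟩
    rw [h, Finset.sum_eq_single_of_mem n hn, if_pos hd]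
    intro m _ hm
    exact if_neg fun h' => hm (by omega)
  · refine Or.inl ?_
    rw [h]
    exact Finset.sum_eq_zero fun n hn => if_neg fun h' => hex ⟨n, hn, h'⟩

/-- Forms of large degree lie in an ideal whose radical contains the variables. -/
theorem exists_deg_mem [Fintype ι] {I : Ideal (MvPolynomial ι K)} (h : ∀ a, X a ∈ I.radical) :
    ∃ N, ∀ d, N ≤ d → ∀ f : MvPolynomial ι K, f.IsHomogeneous d → f ∈ I := by
  classical
  choose n hn using h
  refine ⟨∑ a, n a + 1, fun d hd f hf => ?_⟩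
  rw [f.as_sum]
  refine I.sum_mem fun β hβ => ?_
  have h1 : β.degree = d := by
    rw [Finsupp.degree_eq_weight_one]
    exact hf (mem_support_iff.mp hβ)
  obtain ⟨a, ha⟩ : ∃ a, n a ≤ β a := by
    by_contra hc
    have h2 : ∑ a, β a ≤ ∑ a, n a := Finset.sum_le_sum fun a _ => by
      have := not_exists.mp hc a
      omega
    rw [Finsupp.degree_eq_sum] at h1
    omega
  have h2 : β = (β - Finsupp.single a (n a)) + Finsupp.single a (n a) :=
    (tsub_add_cancel_of_le (Finsupp.single_le_iff.mpr ha)).symm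
  rw [h2, ← mul_one (coeff _ f), ← monomial_mul, ← X_pow_eq_monomial]
  exact I.mul_mem_left _ (hn a)

variable {g : ℕ} {J : Ideal (MvPolynomial ι K)} {u : Fin (g + 1) → MvPolynomial ι K} {e : ℕ}

/-- The quotient is a finite module over the parameters. -/
theorem finite_of_radical [Fintype ι] (hJ : ∀ P ∈ J, ∀ d, homogeneousComponent d P ∈ J)
    (he : 1 ≤ e) (hu : ∀ i, (u i).IsHomogeneous e)
    (h : ∀ a, X a ∈ (J ⊔ Ideal.span (Set.range u)).radical) :
    ((Ideal.Quotient.mk J).comp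
      (aeval u : MvPolynomial (Fin (g + 1)) K →ₐ[K] MvPolynomial ι K).toRingHom).Finite := by
  classical
  obtain ⟨N, hN⟩ := exists_deg_mem h
  let _ := ((Ideal.Quotient.mk J).comp
    (aeval u : MvPolynomial (Fin (g + 1)) K →ₐ[K] MvPolynomial ι K).toRingHom).toAlgebra
  have hs : ∀ (c : MvPolynomial (Fin (g + 1)) K) (f : MvPolynomial ι K),
      c • Ideal.Quotient.mk J f = Ideal.Quotient.mk J (aeval u c * f) := fun c f => by
    rw [Algebra.smul_def, map_mul]
    rfl
  set M : Submodule (MvPolynomial (Fin (g + 1)) K) (MvPolynomial ι K ⧸ J) := Submodule.span _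
    ((fun β : ι →₀ ℕ => Ideal.Quotient.mk J (monomial β 1)) '' {β | β.degree < N})
  have key : ∀ d, ∀ f : MvPolynomial ι K, f.IsHomogeneous d → Ideal.Quotient.mk J f ∈ M := by
    intro d
    induction d using Nat.strong_induction_on with
    | _ d ih =>
      intro f hf
      rcases lt_or_ge d N with hd | hd
      · rw [f.as_sum, map_sum]
        refine M.sum_mem fun β hβ => ?_
        have h1 : β.degree = d := by
          rw [Finsupp.degree_eq_weight_one]
          exact hf (mem_support_iff.mp hβ)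
        have h2 : Ideal.Quotient.mk J (monomial β (coeff β f)) =
            (C (coeff β f) : MvPolynomial (Fin (g + 1)) K) •
              Ideal.Quotient.mk J (monomial β 1) := by
          rw [hs, aeval_C, algebraMap_eq, C_mul_monomial, mul_one]
        rw [h2]
        exact M.smul_mem _ (Submodule.subset_span ⟨β, by simpa [h1] using hd, rfl⟩)
      · obtain ⟨j, hj, s, hs', hf'⟩ := Submodule.mem_sup.mp (hN d hd f hf)
        obtain ⟨c, rfl⟩ := Ideal.mem_span_range_iff_exists_fun.mp hs'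
        rw [← homogeneousComponent_eq_self hf, ← hf', map_add, map_add, map_sum, map_sum,
          Ideal.Quotient.eq_zero_iff_mem.mpr (hJ j hj d), zero_add]
        refine M.sum_mem fun i _ => ?_
        rcases comp_mul_hom (hu i) (c i) d with h0 | ⟨n, hn, h0⟩
        · rw [h0, map_zero]
          exact M.zero_mem
        · have h2 : Ideal.Quotient.mk J (homogeneousComponent n (c i) * u i) =
              (X i : MvPolynomial (Fin (g + 1)) K) •
                Ideal.Quotient.mk J (homogeneousComponent n (c i)) := by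
            rw [hs, aeval_X, mul_comm]
          rw [h0, h2]
          exact M.smul_mem _ (ih n (by omega) _ (homogeneousComponent_isHomogeneous n _))
  have hfg : M.FG := Submodule.fg_span ((Finsupp.finite_of_degree_lt N).image _)
  refine ⟨(?_ : M = ⊤) ▸ hfg⟩
  rw [eq_top_iff]
  rintro x -
  obtain ⟨f, rfl⟩ := Ideal.Quotient.mk_surjective x
  rw [← sum_homogeneousComponent f, map_sum]
  exact M.sum_mem fun d _ => key d _ (homogeneousComponent_isHomogeneous d f)

/-- The terms of `c` of the right degree. -/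
noncomputable def cut (e ρ l : ℕ) (c : MvPolynomial (Fin (g + 1)) K) :
    MvPolynomial (Fin (g + 1)) K :=
  ∑ β ∈ c.support with e * β.degree + l = ρ, monomial β (coeff β c)

theorem cut_supp {ρ l : ℕ} {c : MvPolynomial (Fin (g + 1)) K} {β : Fin (g + 1) →₀ ℕ}
    (h : β ∈ (cut e ρ l c).support) : e * β.degree + l = ρ := by
  classical
  obtain ⟨μ, hμ, h1⟩ := Finset.mem_biUnion.mp (support_sum h)
  rw [Finset.mem_singleton.mp (support_monomial_subset h1)]
  exact (Finset.mem_filter.mp hμ).2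

theorem comp_cut (hu : ∀ i, (u i).IsHomogeneous e) (ρ l : ℕ) (a : ι)
    (c : MvPolynomial (Fin (g + 1)) K) :
    homogeneousComponent ρ (aeval u c * X a ^ l) = aeval u (cut e ρ l c) * X a ^ l := by
  conv_lhs => rw [c.as_sum, map_sum, Finset.sum_mul, map_sum]
  rw [cut, map_sum, Finset.sum_mul, Finset.sum_filter]
  refine Finset.sum_congr rfl fun β _ => ?_
  have h : (aeval u (monomial β (coeff β c)) * X a ^ l).IsHomogeneous (e * β.degree + l) := by
    have h1 := (isHomogeneous_X K a).pow l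
    rw [one_mul] at h1
    exact ((isHomogeneous_monomial _ rfl).aeval u hu).mul h1
  rw [homogeneousComponent_of_mem h]
  exact if_congr eq_comm rfl rfl

/-- Monic equations from the absence of common zeros. -/
theorem nn_of_radical [Fintype ι] (hJ : ∀ P ∈ J, ∀ d, homogeneousComponent d P ∈ J)
    (he : 1 ≤ e) (hu : ∀ i, (u i).IsHomogeneous e)
    (h : ∀ a, X a ∈ (J ⊔ Ideal.span (Set.range u)).radical) : ∃ ρ c, NN J e ρ u c := by
  classical
  choose p hp h0 using fun a =>
    (finite_of_radical hJ he hu h).to_isIntegral (Ideal.Quotient.mk J (X a))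
  set ρ := ∑ a, (p a).natDegree + 1 with hρ
  have hle : ∀ a, (p a).natDegree ≤ ρ := fun a =>
    (Finset.single_le_sum (f := fun a => (p a).natDegree) (fun _ _ => Nat.zero_le _)
      (Finset.mem_univ a)).trans (Nat.le_succ _)
  obtain ⟨q, hq, hd, hq0⟩ : ∃ q : ι → Polynomial (MvPolynomial (Fin (g + 1)) K),
      (∀ a, (q a).Monic) ∧ (∀ a, (q a).natDegree = ρ) ∧ ∀ a, Polynomial.eval₂
        (aeval u : MvPolynomial (Fin (g + 1)) K →ₐ[K] MvPolynomial ι K).toRingHom (X a) (q a)
          ∈ J := by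
    refine ⟨fun a => p a * Polynomial.X ^ (ρ - (p a).natDegree),
      fun a => (hp a).mul (Polynomial.monic_X_pow _), fun a => ?_, fun a => ?_⟩
    · rw [Polynomial.natDegree_mul_X_pow _ (hp a).ne_zero]
      have := hle a
      omega
    · rw [Polynomial.eval₂_mul]
      refine J.mul_mem_right _ (Ideal.Quotient.eq_zero_iff_mem.mp ?_)
      rw [Polynomial.hom_eval₂]
      exact h0 a
  refine ⟨ρ, fun a l => cut e ρ l (-(q a).coeff l), by omega, hu, fun a l β hβ => cut_supp hβ,
    fun a => ?_⟩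
  have h1 := hJ _ (hq0 a) ρ
  have h2 := (hq a).coeff_natDegree
  rw [hd] at h2
  have h3 : (X a ^ ρ : MvPolynomial ι K).IsHomogeneous ρ := by
    simpa using (isHomogeneous_X K a).pow ρ
  rw [Polynomial.eval₂_eq_sum_range, hd, Finset.sum_range_succ, h2, map_one, one_mul, map_add,
    map_sum, homogeneousComponent_eq_self h3, Finset.sum_range] at h1
  convert h1 using 1
  rw [sub_eq_neg_add, ← Finset.sum_neg_distrib]
  congr 1
  refine Finset.sum_congr rfl fun l _ => ?_
  rw [← comp_cut hu, ← map_neg]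
  congr 1
  rw [map_neg, neg_mul, neg_neg]
  rfl

/-- The generic point of a prime ideal. -/
theorem exists_genpt (k : Type) [Field k] [Algebra k K] (P : Ideal (MvPolynomial ι K))
    [P.IsPrime] : ∃ (F : Type) (_ : Field F) (_ : Algebra k F) (_ : Algebra K F)
      (_ : IsScalarTower k K F) (x : ι → F), ∀ f : MvPolynomial ι K, aeval x f = 0 ↔ f ∈ P := by
  refine ⟨P.ResidueField, inferInstance, inferInstance, inferInstance, inferInstance,
    fun a => algebraMap (MvPolynomial ι K) _ (X a), fun f => ?_⟩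
  have h : (aeval fun a => algebraMap (MvPolynomial ι K) P.ResidueField (X a)) =
      IsScalarTower.toAlgHom K (MvPolynomial ι K) P.ResidueField :=
    algHom_ext fun a => by simp
  rw [h]
  exact Ideal.algebraMap_residueField_eq_zero

end alg

namespace AV

variable {k ι : Type} [Field k] [CharZero k] [Fintype ι] (B : AV k ι) (K : Type) [Field K]
  [Algebra k K]

/-- The common zeros of `S` on `B` have codimension at least `n`. -/
def Cod (S : Set (MvPolynomial ι K)) (n : ℕ) : Prop :=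
  ∀ (F : Type) [Field F] [Algebra k F] [Algebra K F] [IsScalarTower k K F] (w : ι → F), w ≠ 0 →
    (∀ f ∈ B.I, aeval w f = 0) → (∀ f ∈ S, aeval w f = 0) → td K (rat w) + (n : ℕ) ≤ B.dim

variable {B K}

omit [CharZero k] [Fintype ι] in
theorem zero_IK_iff {F : Type} [Field F] [Algebra k F] [Algebra K F] [IsScalarTower k K F]
    {w : ι → F} : B.IK K ≤ RingHom.ker (aeval w : MvPolynomial ι K →ₐ[K] F) ↔
      ∀ f ∈ B.I, aeval w f = 0 := by
  rw [IK, Ideal.map_le_iff_le_comap]
  refine forall₂_congr fun f _ => ?_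
  rw [Ideal.mem_comap, RingHom.mem_ker, aeval_map_algebraMap]

omit [CharZero k] [Fintype ι] in
theorem Cod.prime {S : Set (MvPolynomial ι K)} {n : ℕ} (h : B.Cod K S n)
    {P : Ideal (MvPolynomial ι K)} (hP : B.IK K ⊔ Ideal.span S ≤ P) {a : ι} (ha : X a ∉ P)
    {F : Type} [Field F] [Algebra k F] [Algebra K F] [IsScalarTower k K F] {x : ι → F}
    (hx : ∀ f : MvPolynomial ι K, aeval x f = 0 ↔ f ∈ P) : td K (rat x) + (n : ℕ) ≤ B.dim := by
  refine h F x (fun h0 => ha ((hx _).1 (by rw [aeval_X, h0]; rfl)))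
    (zero_IK_iff.1 fun f hf => (hx f).2 (hP (Ideal.mem_sup_left hf)))
    fun f hf => (hx f).2 (hP (Ideal.mem_sup_right (Ideal.subset_span hf)))

omit [CharZero k] in
theorem Cod.exists_notMem {S : Set (MvPolynomial ι K)} {n : ℕ} (h : B.Cod K S (n + 1)) :
    ∃ f ∈ S, f ∉ B.IK K := by
  by_contra! hc
  obtain ⟨M, _, _, _, _, P, hP⟩ := B.exists_gen K
  obtain ⟨a, ha⟩ := (rep_co P).unit
  have h0 : P.co ≠ 0 := fun h0 => ha.ne_zero (congrFun h0 a)
  have h1 := h M P.co h0 (rep_co P).zero fun f hf => zero_IK_iff.2 (rep_co P).zero (hc f hf)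
  rw [(B.gen_iff h0 (rep_co P).zero).1 hP] at h1
  have h2 : B.dim + (n + 1) ≤ B.dim := by exact_mod_cast h1
  omega

/-- One more parameter. -/
theorem Cod.step {S : Set (MvPolynomial ι K)} {n e : ℕ} (h : B.Cod K S n)
    {G : Finset (MvPolynomial ι K)} (hG : ∀ f ∈ G, f.IsHomogeneous e)
    (h' : B.Cod K G (n + 1)) : ∃ γ : MvPolynomial ι K → ℚ,
      B.Cod K (insert (∑ f ∈ G, C ((γ f : ℚ) : K) * f) S) (n + 1) ∧
        ∑ f ∈ G, C ((γ f : ℚ) : K) * f ∉ B.IK K := by
  classical
  have : CharZero K := charZero_of_injective_algebraMap (algebraMap k K).injective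
  have : Finite {P // P ∈ insert (B.IK K) (B.IK K ⊔ Ideal.span S).minimalPrimes ∧
      ∃ f ∈ G, f ∉ P} :=
    ((((B.IK K ⊔ Ideal.span S).finite_minimalPrimes_of_isNoetherianRing _).insert _).subset
      fun P hP => hP.1).to_subtype
  obtain ⟨γ, hγ⟩ := Submodule.exists_forall_notMem_of_forall_ne_top
    (K := ℚ) (M := MvPolynomial ι K → ℚ)
    (fun P : {P // P ∈ insert (B.IK K) (B.IK K ⊔ Ideal.span S).minimalPrimes ∧ ∃ f ∈ G, f ∉ P} =>
      { carrier := {γ | ∑ f ∈ G, C ((γ f : ℚ) : K) * f ∈ P.1}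
        add_mem' := fun {x y} hx hy => by
          have := P.1.add_mem hx hy
          simpa [Finset.sum_add_distrib, add_mul] using this
        zero_mem' := by simp
        smul_mem' := fun c x hx => by
          have := P.1.mul_mem_left (C (c : K)) hx
          simpa [Finset.mul_sum, mul_assoc] using this })
    (fun P hP => by
      obtain ⟨f, hf, hfP⟩ := P.2.2
      have h1 : (Pi.single f 1 : MvPolynomial ι K → ℚ) ∈
        (⊤ : Submodule ℚ (MvPolynomial ι K → ℚ)) := trivial
      rw [← hP] at h1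
      change ∑ f' ∈ G, C (((Pi.single f 1 : MvPolynomial ι K → ℚ) f' : ℚ) : K) * f' ∈ P.1 at h1
      rw [Finset.sum_eq_single_of_mem f hf fun b _ hb => by simp [Pi.single_eq_of_ne hb]] at h1
      exact hfP (by simpa using h1))
  refine ⟨γ, fun F _ _ _ _ w hw hI hS => ?_, hγ ⟨_, Set.mem_insert _ _, h'.exists_notMem⟩⟩
  have : (RingHom.ker (aeval w : MvPolynomial ι K →ₐ[K] F)).IsPrime := RingHom.ker_isPrime _
  obtain ⟨P, hP, hle⟩ := Ideal.exists_minimalPrimes_le
    (I := B.IK K ⊔ Ideal.span S) (J := RingHom.ker (aeval w : MvPolynomial ι K →ₐ[K] F))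
    (sup_le (zero_IK_iff.2 hI) (Ideal.span_le.2 fun f hf => hS f (Set.mem_insert_of_mem _ hf)))
  by_cases hc : ∃ f ∈ G, f ∉ P
  · have := hP.1.1
    obtain ⟨F', _, _, _, _, x, hx⟩ := exists_genpt k P
    obtain ⟨a, ha⟩ := Function.ne_iff.mp hw
    have h1 := h.prime hP.1.2 (a := a) (fun hX => ha (by simpa using hle hX)) hx
    obtain ⟨-, h2⟩ := td_rat_le_of_spec (K := K) (x := x) hw fun f _ _ hf => hle ((hx f).1 hf)
    have h3 : td K (rat w) < td K (rat x) := lt_of_not_ge fun h4 =>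
      hγ ⟨P, Set.mem_insert_of_mem _ hP, hc⟩ ((hx _).1 (h2 h4 _ e
        (IsHomogeneous.sum _ _ _ fun f hf => (hG f hf).C_mul _) (hS _ (Set.mem_insert _ _))))
    refine le_trans ?_ h1
    push_cast
    rw [add_comm (n : ℕ∞) 1, ← add_assoc]
    exact add_le_add_left (Order.add_one_le_of_lt h3) _
  · exact h' F w hw hI fun f hf => hle (by_contra fun hn => hc ⟨f, hf, hn⟩)

variable (B K)

/-- The parameter `u i` is a rational combination of the forms of the finite set `𝒢 i`; the
codimensions of the zero sets may come in any order. -/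
theorem exists_nn_perm {e : ℕ} (he : 1 ≤ e) (π : Equiv.Perm (Fin (B.dim + 1)))
    (𝒢 : Fin (B.dim + 1) → Finset (MvPolynomial ι K))
    (h𝒢 : ∀ i, ∀ f ∈ 𝒢 i, f.IsHomogeneous e)
    (hd : ∀ (i : Fin (B.dim + 1)) (F : Type) [Field F] [Algebra k F] [Algebra K F]
      [IsScalarTower k K F] (w : ι → F), w ≠ 0 → (∀ f ∈ B.I, aeval w f = 0) →
      (∀ f ∈ 𝒢 i, aeval w f = 0) → td K (rat w) + ((π i : ℕ) + 1 : ℕ) ≤ B.dim) :
    ∃ (γ : Fin (B.dim + 1) → MvPolynomial ι K → ℚ) (ρ : ℕ)
      (c : ι → Fin ρ → MvPolynomial (Fin (B.dim + 1)) K),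
      NN (B.IK K) e ρ (fun i => ∑ f ∈ 𝒢 i, C ((γ i f : ℚ) : K) * f) c ∧
        ∀ i, ∑ f ∈ 𝒢 i, C ((γ i f : ℚ) : K) * f ∉ B.IK K := by
  classical
  have key : ∀ n, n ≤ B.dim + 1 → ∃ γ : Fin (B.dim + 1) → MvPolynomial ι K → ℚ,
      B.Cod K ((fun i => ∑ f ∈ 𝒢 i, C ((γ i f : ℚ) : K) * f) '' {i | (π i : ℕ) < n}) n ∧
        ∀ i, (π i : ℕ) < n → ∑ f ∈ 𝒢 i, C ((γ i f : ℚ) : K) * f ∉ B.IK K := by
    intro n
    induction n with
    | zero =>
      exact fun _ => ⟨0, fun F _ _ _ _ w _ hI _ => by simpa using B.td_le_dim hI, by simp⟩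
    | succ n ih =>
      intro hn
      obtain ⟨γ, hγ, hγ'⟩ := ih (by omega)
      have hj : (π (π.symm ⟨n, hn⟩) : ℕ) = n := by rw [Equiv.apply_symm_apply]
      generalize π.symm ⟨n, hn⟩ = j at hj
      obtain ⟨γ₀, h0, h0'⟩ := hγ.step (h𝒢 j) fun F _ _ _ _ w hw hI hS => hj ▸ hd j F w hw hI hS
      refine ⟨Function.update γ j γ₀, fun F _ _ _ _ w hw hI hS => h0 F w hw hI ?_, fun i hi => ?_⟩
      · rintro f (rfl | ⟨i, hi, rfl⟩)
        · exact hS _ ⟨j, by simp [hj], by simp⟩
        · have hi' : (π i : ℕ) < n := hi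
          have hne : i ≠ j := fun h => by subst h; omega
          exact hS _ ⟨i, Nat.lt_succ_of_lt hi', by simp [Function.update_of_ne hne]⟩
      · rcases eq_or_ne i j with rfl | hne
        · rwa [Function.update_self]
        · rw [Function.update_of_ne hne]
          have : (π i : ℕ) ≠ π j := fun h => hne (π.injective (Fin.ext h))
          exact hγ' i (by omega)
  obtain ⟨γ, hγ, hγ'⟩ := key _ le_rfl
  suffices h : ∃ ρ c, NN (B.IK K) e ρ (fun i => ∑ f ∈ 𝒢 i, C ((γ i f : ℚ) : K) * f) c from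
    ⟨γ, h.choose, h.choose_spec.choose, h.choose_spec.choose_spec, fun i => hγ' i (π i).2⟩
  refine nn_of_radical B.IK_hom he
    (fun i => IsHomogeneous.sum _ _ _ fun f hf => (h𝒢 i f hf).C_mul _) fun a => ?_
  rw [Ideal.radical_eq_sInf, Submodule.mem_sInf]
  rintro P ⟨hP, _⟩
  obtain ⟨F, _, _, _, _, x, hx⟩ := exists_genpt k P
  by_contra ha
  have h1 := hγ.prime ((sup_le_sup_left (Ideal.span_mono (Set.image_subset_range _ _)) _).trans
    hP) ha hx
  have h2 : ((B.dim + 1 : ℕ) : ℕ∞) ≤ B.dim := le_add_self.trans h1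
  have h3 := ENat.natCast_le_natCast.mp h2
  omega

/-- The parameter `u i` is a rational combination of the forms of the finite set `𝒢 i`. -/
theorem exists_nn {e : ℕ} (he : 1 ≤ e) (𝒢 : Fin (B.dim + 1) → Finset (MvPolynomial ι K))
    (h𝒢 : ∀ i, ∀ f ∈ 𝒢 i, f.IsHomogeneous e)
    (hd : ∀ (i : Fin (B.dim + 1)) (F : Type) [Field F] [Algebra k F] [Algebra K F]
      [IsScalarTower k K F] (w : ι → F), w ≠ 0 → (∀ f ∈ B.I, aeval w f = 0) →
      (∀ f ∈ 𝒢 i, aeval w f = 0) → td K (rat w) + ((i : ℕ) + 1 : ℕ) ≤ B.dim) :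
    ∃ (γ : Fin (B.dim + 1) → MvPolynomial ι K → ℚ) (ρ : ℕ)
      (c : ι → Fin ρ → MvPolynomial (Fin (B.dim + 1)) K),
      NN (B.IK K) e ρ (fun i => ∑ f ∈ 𝒢 i, C ((γ i f : ℚ) : K) * f) c ∧
        ∑ f ∈ 𝒢 0, C ((γ 0 f : ℚ) : K) * f ∉ B.IK K := by
  obtain ⟨γ, ρ, c, h, h'⟩ := exists_nn_perm B K he 1 𝒢 h𝒢 hd
  exact ⟨γ, ρ, c, h, h' 0⟩

end AV

end Pool.Agent.Lib.MP_651af7_nt.Av
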