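import Pool.Agent.Lib.MP_651af7_nt.Av.SeqB
import Pool.Agent.Lib.MP_651af7_nt.Av.Noe

/-! Translated forms and their values along the family. -/

namespace Pool.Agent.Lib.MP_651af7_nt.Av.AV

open MvPolynomial Filter Height

set_option linter.unusedSectionVars false

section alg

variable {k ι K : Type} [Field k] [Field K] [Algebra k K] {A : AV k ι}

theorem ph_hom (a : ι → K) (c b : ι) :
    (A.ph c b (X : ι → MvPolynomial ι K) fun c => C (a c)).IsHomogeneous 2 := by
  rw [ph, aeval_def, eval₂_eq]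
  refine IsHomogeneous.sum _ _ _ fun m hm => ?_
  have h := congrArg Prod.fst (A.bih c b (mem_support_iff.mp hm))
  rw [Finsupp.weight_apply, Finsupp.sum, Prod.fst_sum] at h
  rw [← zero_add 2]
  refine (isHomogeneous_C _ _).mul ?_
  rw [show 2 = ∑ i ∈ m.support, (m i • bw ι ι i).1 from h.symm]
  refine IsHomogeneous.prod _ _ _ ?_
  rintro (i | i) -
  · simpa [bw] using (isHomogeneous_X K i).pow (m (.inl i))
  · simpa [bw] using (isHomogeneous_C ι (a i)).pow (m (.inr i))

theorem shift_hom (a : ι → K) {G : MvPolynomial ι k} {d : ℕ} (hG : G.IsHomogeneous d) (b : ι) :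
    (A.shift a G b).IsHomogeneous (2 * d) :=
  hG.aeval _ fun c => ph_hom a c b

theorem aeval_shift {R : Type} [CommRing R] [Algebra k R] [Algebra K R] [IsScalarTower k K R]
    (a : ι → K) (G : MvPolynomial ι k) (b : ι) (w : ι → R) :
    aeval w (A.shift a G b) = aeval (fun c => A.ph c b w fun c => algebraMap K R (a c)) G := by
  have h := DFunLike.congr_fun (comp_aeval (R := k)
    (fun c => A.ph c b (X : ι → MvPolynomial ι K) fun c => C (a c))
    ((aeval w : MvPolynomial ι K →ₐ[K] R).restrictScalars k)) G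
  simpa [map_ph, shift] using h

/-- The addition law with the unit absorbed into the coordinates of the difference. -/
theorem exists_ph_eq {R : Type} [CommRing R] [IsLocalRing R] [Algebra k R] {P Q : A.Pt R}
    {w a s : ι → R} (hw : Rep P w) (ha : Rep Q a) (hs : Rep (P + Q) s) :
    ∃ p, Rep (P - Q) p ∧ ∀ c b, A.ph c b w a = p b * s c := by
  obtain ⟨u, hu⟩ := law hw ha hs (rep_co _)
  exact ⟨_, (rep_co _).smul u.isUnit, fun c b => by rw [hu]; ring⟩

/-- A hypersurface section has smaller dimension. -/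
theorem td_succ_le [Finite ι] {F : Type} [Field F] [Algebra k F] [Algebra K F] [IsScalarTower k K F]
    {f : MvPolynomial ι K} {n : ℕ} (hf : f.IsHomogeneous n) (h : f ∉ A.IK K) {w : ι → F}
    (h0 : w ≠ 0) (hw : ∀ g ∈ A.I, aeval w g = 0) (hfw : aeval w f = 0) :
    td K (rat w) + 1 ≤ A.dim :=
  Order.add_one_le_of_lt (lt_of_le_of_ne (A.td_le_dim hw) fun e =>
    h ((A.gen_iff h0 hw).2 e f n hf hfw))

/-- The powers of the variables have no common zero. -/
theorem eq_zero_of_pow [Fintype ι] [DecidableEq (MvPolynomial ι K)] {F : Type} [Field F]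
    [Algebra K F] {e : ℕ} {w : ι → F} (h : ∀ f ∈ Finset.univ.image
      fun a => (X a ^ e : MvPolynomial ι K), aeval w f = 0) : w = 0 := funext fun a => by
  have h1 := h _ (Finset.mem_image_of_mem _ (Finset.mem_univ a))
  rw [map_pow, aeval_X] at h1
  exact eq_zero_of_pow_eq_zero h1

end alg

variable {α : Type} {U : Ultrafilter α} {k ι : Type} [Field k] [NumberField k] [Fintype ι]
  {A B : AV k ι} {h : Sub A B} {x : α → A.Pt k} {y : α → B.Pt k} {a : α → A.Pt k}
  {hH : Tendsto (fun n => ht (y n)) U atTop} {X : A.Pt (Up U k)} {Y : B.Pt (Up U k)}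
  {aK : A.Pt (Sm k hH)} {a' : α → ι → k} (H : Coset h x y a hH X Y aK a')

include H

/-- The value of the translated forms at `Y`. -/
theorem Coset.val_gen : ∃ p : ι → Up U k, (∃ b, p b ≠ 0) ∧ ∀ (G : MvPolynomial ι k) (d : ℕ) (b : ι),
    G.IsHomogeneous d → aeval Y.co (A.shift aK.co G b) = p b ^ d * aeval X.co G := by
  have h1 := (rep_co aK).map (IsScalarTower.toAlgHom k (Sm k hH) (Up U k))
  obtain ⟨p, hp, he⟩ := exists_ph_eq (h.rep_inc (rep_co Y)) h1 (s := X.co)
    (by rw [H.sub, sub_add_cancel]; exact rep_co X)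
  refine ⟨p, hp.unit.imp fun b hb => hb.ne_zero, fun G d b hG => ?_⟩
  rw [aeval_shift, ← aeval_mul_of_hom hG]
  exact congrArg (fun z => aeval z G) (funext fun c => he c b)

/-- A form that does not vanish at `X` has a translate outside the ideal of `B`. -/
theorem Coset.exists_notMem {G : MvPolynomial ι k} {d : ℕ} (hG : G.IsHomogeneous d)
    (h0 : aeval X.co G ≠ 0) : ∃ b, A.shift aK.co G b ∉ B.IK (Sm k hH) := by
  obtain ⟨p, ⟨b, hb⟩, he⟩ := H.val_gen
  refine ⟨b, fun hm => mul_ne_zero (pow_ne_zero d hb) h0 ?_⟩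
  rw [← he G d b hG]
  exact B.tr_zero_IK (rep_co Y).zero _ hm

/-- The addition law at the members of the family. -/
theorem Coset.val_mem : ∀ᶠ n in U, ∃ p, Rep (h.inc k (y n) - a n) p ∧
    ∀ c b, A.ph c b (y n).co (a' n) = p b * (x n).co c :=
  H.rep.mono fun n hn => exists_ph_eq (h.rep_inc (rep_co (y n))) hn (H.add n ▸ rep_co (x n))

theorem Coset.aeval_germ_shift (w : α → ι → k) (G : MvPolynomial ι k) (b : ι) :
    aeval (fun c => germ U fun n => w n c) (A.shift aK.co G b) =
      germ U fun n => eval (fun c => A.ph c b (w n) (a' n)) G := by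
  rw [aeval_shift, ← aeval_germ]
  refine congrArg (fun z => aeval z G) (funext fun c => ?_)
  have h1 := aeval_germ (U := U) (A.Φ c b) fun n => Sum.elim (w n) (a' n)
  simp only [← aeval_eq_eval] at h1
  refine Eq.trans ?_ h1
  refine congrArg (fun z => aeval z (A.Φ c b)) (funext ?_)
  rintro (i | i)
  exacts [rfl, H.co i]

/-- The value at the members of a family that represents a combination of translated forms. -/
theorem Coset.eval_repr {s : Finset (MvPolynomial ι (Sm k hH))} (γ : MvPolynomial ι (Sm k hH) → ℚ)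
    (G : MvPolynomial ι (Sm k hH) → MvPolynomial ι k) (b : MvPolynomial ι (Sm k hH) → ι)
    (hs : ∀ f ∈ s, f = A.shift aK.co (G f) (b f)) {un : α → MvPolynomial ι k}
    (hu : Repr U (MvPolynomial.map (algebraMap _ (Up U k))
      (∑ f ∈ s, C ((γ f : ℚ) : Sm k hH) * f)) un) :
    ∀ᶠ n in U, eval (y n).co (un n) =
      ∑ f ∈ s, (γ f : k) * eval (fun c => A.ph c (b f) (y n).co (a' n)) (G f) := by
  have h1 := hu.aeval fun n => (y n).co
  rw [aeval_map_algebraMap, map_sum] at h1
  rw [← germ_eq, ← h1]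
  have h2 : (fun n => ∑ f ∈ s, (γ f : k) * eval (fun c => A.ph c (b f) (y n).co (a' n)) (G f)) =
      ∑ f ∈ s, (fun _ => (γ f : k)) *
        fun n => eval (fun c => A.ph c (b f) (y n).co (a' n)) (G f) := by
    funext n
    simp
  rw [h2, map_sum]
  refine Finset.sum_congr rfl fun f hf => ?_
  rw [map_mul, map_mul, aeval_C, ← H.aeval_germ_shift, ← hs f hf, ← algebraMap_up, map_ratCast,
    map_ratCast]

/-- The contradiction from families of forms. -/
theorem Coset.finish {e : ℕ} (he : 1 ≤ e) (𝒢 : Fin (B.dim + 1) → Finset (MvPolynomial ι (Sm k hH)))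
    (h𝒢 : ∀ i, ∀ f ∈ 𝒢 i, f.IsHomogeneous e)
    (hd : ∀ (i : Fin (B.dim + 1)) (F : Type) [Field F] [Algebra k F] [Algebra (Sm k hH) F]
      [IsScalarTower k (Sm k hH) F] (w : ι → F), w ≠ 0 → (∀ f ∈ B.I, aeval w f = 0) →
      (∀ f ∈ 𝒢 i, aeval w f = 0) → td (Sm k hH) (rat w) + ((i : ℕ) + 1 : ℕ) ≤ B.dim)
    {md : Option (AbsoluteValue k ℝ)} (hmd : Mode B.dim md) {η : ℝ} (hη : 0 < η)
    (hbad : ∀ (γ : Fin (B.dim + 1) → MvPolynomial ι (Sm k hH) → ℚ)
      (un : α → Fin (B.dim + 1) → MvPolynomial ι k),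
      ∑ f ∈ 𝒢 0, C ((γ 0 f : ℚ) : Sm k hH) * f ∉ B.IK (Sm k hH) →
      (∀ i, Repr U (MvPolynomial.map (algebraMap _ (Up U k))
        (∑ f ∈ 𝒢 i, C ((γ i f : ℚ) : Sm k hH) * f)) fun n => un n i) →
      ∀ᶠ n in U, Bad md e η (un n) (y n).co) : False := by
  obtain ⟨γ, ρ, c, hnn, h0⟩ := B.exists_nn (Sm k hH) he 𝒢 h𝒢 hd
  choose un hun using fun i => exists_repr (U := U) (MvPolynomial.map (algebraMap _ (Up U k))
    (∑ f ∈ 𝒢 i, C ((γ i f : ℚ) : Sm k hH) * f))
  exact B.seq_core y hH H.gY H.gens he hnn (un := fun n i => un i n) hun hmd hη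
    (hbad γ _ h0 hun)

end Pool.Agent.Lib.MP_651af7_nt.Av.AV
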