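import Pool.Agent.Lib.MP_651af7_nt.Av.Defs

/-! Tangent vectors and the logarithmic derivative of an abelian variety. -/

namespace Pool.Agent.Lib.MP_651af7_nt.Av

open MvPolynomial TrivSqZeroExt

instance dualLocal (R : Type) [CommRing R] [IsLocalRing R] : IsLocalRing (DualNumber R) :=
  IsLocalRing.of_isUnit_or_isUnit_one_sub_self fun x => by
    simpa only [isUnit_iff_isUnit_fst, fst_sub, fst_one] using
      IsLocalRing.isUnit_or_isUnit_one_sub_self x.fst

section dual

variable {k K σ τ R R' : Type} [CommRing k] [CommRing K] [CommRing R] [CommRing R'] [Algebra k R]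
  [Algebra k R'] [Algebra K R]

/-- The vector `v + ε w`. -/
def dw (v w : σ → R) : σ → DualNumber R := fun a => ⟨v a, w a⟩

omit [CommRing R] in
@[simp] theorem fst_dw (v w : σ → R) (a : σ) : (dw v w a).fst = v a := rfl

omit [CommRing R] in
@[simp] theorem snd_dw (v w : σ → R) (a : σ) : (dw v w a).snd = w a := rfl

omit [CommRing R] in
theorem dw_elim (v w : σ → R) (v' w' : τ → R) :
    Sum.elim (dw v w) (dw v' w') = dw (Sum.elim v v') (Sum.elim w w') := by
  funext a
  cases a <;> rfl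

/-- The derivative of `P` at `v` in the direction `w`. -/
noncomputable def dP (v w : σ → R) (P : MvPolynomial σ K) : R := (aeval (dw v w) P).snd

theorem fst_aeval_dw (v w : σ → R) (P : MvPolynomial σ K) : (aeval (dw v w) P).fst = aeval v P := by
  have h : (fstHom K R R).comp (aeval (dw v w)) = aeval v := by
    rw [comp_aeval]
    rfl
  exact DFunLike.congr_fun h P

theorem dP_C (v w : σ → R) (a : K) : dP v w (C a) = 0 := by
  rw [dP, aeval_C, algebraMap_eq_inl', snd_inl]

theorem dP_add_pol (v w : σ → R) (P Q : MvPolynomial σ K) :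
    dP v w (P + Q) = dP v w P + dP v w Q := by rw [dP, map_add, snd_add, dP, dP]

theorem dP_mul_pol (v w : σ → R) (P Q : MvPolynomial σ K) :
    dP v w (P * Q) = aeval v P * dP v w Q + dP v w P * aeval v Q := by
  rw [dP, map_mul, DualNumber.snd_mul, fst_aeval_dw, fst_aeval_dw, dP, dP]

theorem dP_X (v w : σ → R) (s : σ) : dP v w (X s : MvPolynomial σ K) = w s := by
  rw [dP, aeval_X, snd_dw]

theorem dP_lin (v w w' : σ → R) (r : R) (P : MvPolynomial σ K) :
    dP v (r • w + w') P = r * dP v w P + dP v w' P := by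
  induction P using MvPolynomial.induction_on with
  | C a => simp [dP_C]
  | add p q hp hq => rw [dP_add_pol, dP_add_pol, dP_add_pol, hp, hq]; ring
  | mul_X p t hp =>
    rw [dP_mul_pol, dP_mul_pol, dP_mul_pol, hp, dP_X, dP_X, dP_X, Pi.add_apply, Pi.smul_apply,
      smul_eq_mul]
    ring

theorem dP_zero (v : σ → R) (P : MvPolynomial σ K) : dP v 0 P = 0 := by
  have h := dP_lin v 0 0 1 P
  rw [smul_zero, add_zero, one_mul] at h
  exact left_eq_add.mp h

theorem dP_add (v w w' : σ → R) (P : MvPolynomial σ K) :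
    dP v (w + w') P = dP v w P + dP v w' P := by
  simpa only [one_smul, one_mul] using dP_lin v w w' 1 P

theorem dP_smul (v w : σ → R) (r : R) (P : MvPolynomial σ K) : dP v (r • w) P = r * dP v w P := by
  simpa only [add_zero, dP_zero] using dP_lin v w 0 r P

theorem dP_eq_sum [Fintype σ] (v w : σ → R) (P : MvPolynomial σ K) :
    dP v w P = ∑ s, aeval v (pderiv s P) * w s := by
  classical
  induction P using MvPolynomial.induction_on with
  | C a => simp [dP_C]
  | add p q hp hq => simp only [dP_add_pol, hp, hq, map_add, add_mul, Finset.sum_add_distrib]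
  | mul_X p t hp =>
    have h2 : ∑ s, aeval v (p * pderiv s (X t : MvPolynomial σ K)) * w s = aeval v p * w t := by
      rw [Finset.sum_eq_single t]
      · rw [pderiv_X_self, mul_one]
      · intro s _ hs
        rw [pderiv_X_of_ne hs.symm, mul_zero, map_zero, zero_mul]
      · simp
    simp only [pderiv_mul, map_add, add_mul, Finset.sum_add_distrib, h2]
    rw [dP_mul_pol, dP_X, hp, add_comm, Finset.sum_mul]
    congr 1
    exact Finset.sum_congr rfl fun s _ => by rw [map_mul]; ring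

/-- Chain rule for a derivation killing the coefficients. -/
theorem dP_der (D : Derivation k R R) (hD : ∀ a : K, D (algebraMap K R a) = 0) (v : σ → R)
    (P : MvPolynomial σ K) : dP v (fun s => D (v s)) P = D (aeval v P) := by
  induction P using MvPolynomial.induction_on with
  | C a => rw [dP_C, aeval_C, hD]
  | add p q hp hq => rw [dP_add_pol, hp, hq, map_add, map_add]
  | mul_X p t hp =>
    rw [dP_mul_pol, hp, dP_X, map_mul, Derivation.leibniz, aeval_X, smul_eq_mul, smul_eq_mul,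
      mul_comm (v t)]

theorem dP_map_algebraMap [Algebra k K] [IsScalarTower k K R] (v w : σ → R)
    (P : MvPolynomial σ k) : dP v w (MvPolynomial.map (algebraMap k K) P) = dP v w P := by
  rw [dP, aeval_map_algebraMap, dP]

/-- The homomorphism of dual numbers induced by `f`. -/
def dmap (f : R →ₐ[k] R') : DualNumber R →ₐ[k] DualNumber R' where
  toFun x := ⟨f x.fst, f x.snd⟩
  map_one' := TrivSqZeroExt.ext (map_one f) (map_zero f)
  map_mul' x y := TrivSqZeroExt.ext (map_mul f _ _) (by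
    simp only [DualNumber.snd_mul, snd_mk, fst_mk, map_add, map_mul])
  map_zero' := TrivSqZeroExt.ext (map_zero f) (map_zero f)
  map_add' x y := TrivSqZeroExt.ext (map_add f _ _) (map_add f _ _)
  commutes' a := TrivSqZeroExt.ext (f.commutes a) (map_zero f)

theorem map_dP (f : R →ₐ[k] R') (v w : σ → R) (P : MvPolynomial σ k) :
    f (dP v w P) = dP (fun s => f (v s)) (fun s => f (w s)) P := by
  have h : (dmap f).comp (aeval (dw v w)) = aeval (dw (fun s => f (v s)) fun s => f (w s)) := by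
    rw [comp_aeval]
    rfl
  exact congrArg snd (DFunLike.congr_fun h P)

/-- The homomorphism `r ↦ r + ε D r`. -/
def eD (D : Derivation k R R) : R →ₐ[k] DualNumber R where
  toFun x := ⟨x, D x⟩
  map_one' := TrivSqZeroExt.ext rfl D.map_one_eq_zero
  map_mul' x y := TrivSqZeroExt.ext rfl (by
    simp only [DualNumber.snd_mul, snd_mk, fst_mk, Derivation.leibniz, smul_eq_mul, mul_comm])
  map_zero' := TrivSqZeroExt.ext rfl (map_zero D)
  map_add' x y := TrivSqZeroExt.ext rfl (map_add D _ _)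
  commutes' a := TrivSqZeroExt.ext rfl (D.map_algebraMap a)

end dual

variable {k : Type} [Field k] {ι : Type}

namespace AV

variable (A : AV k ι) {R R' : Type} [CommRing R] [Algebra k R] [CommRing R'] [Algebra k R']

variable (R) in
/-- The coordinates of the origin in `R`. -/
def oo : ι → R := fun a => algebraMap k R (A.o a)

theorem oo_ao : A.oo R A.ao = 1 := by rw [oo, A.o_ao, map_one]

/-- Tangent vectors to the affine cone at `v`. -/
def Tan (v : ι → R) : Submodule R (ι → R) where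
  carrier := {w | ∀ F ∈ A.I, dP v w F = 0}
  add_mem' h h' F hF := by rw [dP_add, h F hF, h' F hF, add_zero]
  zero_mem' F _ := dP_zero v F
  smul_mem' r _ h F hF := by rw [dP_smul, h F hF, mul_zero]

variable (R) in
/-- The tangent space at the origin. -/
def Lie : Submodule R (ι → R) := A.Tan (A.oo R) ⊓ LinearMap.ker (LinearMap.proj A.ao)

variable {A}

theorem mem_Tan {v w : ι → R} : w ∈ A.Tan v ↔ ∀ F ∈ A.I, dP v w F = 0 := Iff.rfl

theorem mem_Lie {w : ι → R} : w ∈ A.Lie R ↔ w ∈ A.Tan (A.oo R) ∧ w A.ao = 0 := Iff.rfl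

variable (A) in
/-- The numerator of the translation of the tangent vector `w` at `v` to the origin. -/
noncomputable def trN (a : ι) (v w : ι → R) (b : ι) : R :=
  dP (Sum.elim v v) (Sum.elim w 0) (A.Φ a b) -
    A.oo R b * dP (Sum.elim v v) (Sum.elim w 0) (A.Φ a A.ao)

theorem trN_lin (a : ι) (v w w' : ι → R) (r : R) (b : ι) :
    A.trN a v (r • w + w') b = r * A.trN a v w b + A.trN a v w' b := by
  have h : Sum.elim (r • w + w') (0 : ι → R) = r • Sum.elim w 0 + Sum.elim w' 0 := by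
    funext s
    cases s <;> simp
  rw [trN, trN, trN, h, dP_lin, dP_lin]
  ring

variable (A) in
/-- Translation of tangent vectors at `v` to the origin. -/
noncomputable def trl (v : ι → R) : (ι → R) →ₗ[R] (ι → R) where
  toFun w b :=
    Ring.inverse (A.ph (@Classical.epsilon ι ⟨A.ao⟩ fun a => IsUnit (A.ph a A.ao v v)) A.ao v v) *
      A.trN (@Classical.epsilon ι ⟨A.ao⟩ fun a => IsUnit (A.ph a A.ao v v)) v w b
  map_add' w w' := by
    funext b
    rw [Pi.add_apply, ← mul_add, ← one_smul R w, trN_lin, one_mul, one_smul]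
  map_smul' r w := by
    funext b
    have h0 : ∀ a, A.trN a v 0 b = 0 := fun a => by
      rw [trN, Sum.elim_zero_zero, dP_zero, dP_zero, mul_zero, sub_zero]
    rw [RingHom.id_apply, Pi.smul_apply, smul_eq_mul, ← add_zero (r • w), trN_lin, h0, add_zero,
      mul_left_comm]

theorem exists_rep_dw {p : A.Pt R} {v w : ι → R} (hv : Rep p v) (hw : w ∈ A.Tan v) :
    ∃ q : A.Pt (DualNumber R), Rep q (dw v w) :=
  exists_rep (hv.unit.imp fun _ h => isUnit_iff_isUnit_fst.mpr h) fun F hF =>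
    TrivSqZeroExt.ext ((fst_aeval_dw v w F).trans (hv.zero F hF)) (hw F hF)

theorem Rep.mem_Tan {q : A.Pt (DualNumber R)} {v w : ι → R} (h : Rep q (dw v w)) : w ∈ A.Tan v :=
  fun F hF => congrArg snd (h.zero F hF)

theorem Rep.self_mem_Tan {p : A.Pt R} {v : ι → R} (hv : Rep p v) : v ∈ A.Tan v := by
  obtain ⟨q, hq⟩ := exists_rep_dw hv (A.Tan v).zero_mem
  have h := hq.smul (c := ⟨1, 1⟩) (isUnit_iff_isUnit_fst.mpr isUnit_one)
  refine Rep.mem_Tan (q := q) ?_
  convert h using 1
  funext a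
  exact TrivSqZeroExt.ext (one_mul _).symm (by simp)

variable [IsLocalRing R] [IsLocalRing R']

theorem rep_oo : Rep (0 : A.Pt R) (A.oo R) := rep_zero

theorem Rep.fst {q : A.Pt (DualNumber R)} {v w : ι → R} (h : Rep q (dw v w)) :
    Rep (A.map (fstHom k R R) q) v := h.map (fstHom k R R)

theorem Rep.inl {p : A.Pt R} {v : ι → R} (h : Rep p v) :
    Rep (A.map (inlAlgHom k R R) p) (dw v 0) := h.map (inlAlgHom k R R)

/-- Coordinates of a point over the dual numbers can be chosen above given ones. -/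
theorem exists_dw {q : A.Pt (DualNumber R)} {v : ι → R} (h : Rep (A.map (fstHom k R R) q) v) :
    ∃ w, Rep q (dw v w) := by
  obtain ⟨u, hu⟩ := ((rep_co q).map (fstHom k R R)).exists_smul h
  have h1 := (rep_co q).smul (c := TrivSqZeroExt.inl (u : R)) (isUnit_inl_iff.mpr u.isUnit)
  refine ⟨fun a => (TrivSqZeroExt.inl (u : R) * q.co a : DualNumber R).snd, ?_⟩
  convert h1 using 1
  funext a
  exact TrivSqZeroExt.ext (hu a) rfl

theorem exists_dw' {q : A.Pt (DualNumber R)} {v : ι → R} (h : Rep (A.map (fstHom k R R) q) v)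
    {b : ι} (hb : v b = 1) : ∃ w, w b = 0 ∧ Rep q (dw v w) := by
  obtain ⟨w, hw⟩ := exists_dw h
  have h1 := hw.smul (c := ⟨1, -w b⟩) (isUnit_iff_isUnit_fst.mpr isUnit_one)
  refine ⟨fun a => w a - w b * v a, by simp only [hb, mul_one, sub_self], ?_⟩
  convert h1 using 1
  funext a
  exact TrivSqZeroExt.ext (one_mul _).symm (by simp [sub_eq_add_neg])

omit [IsLocalRing R] in
theorem dw_unique {q : A.Pt (DualNumber R)} {v w w' : ι → R} (h : Rep q (dw v w))
    (h' : Rep q (dw v w')) : ∃ c : R, w' = w + c • v := by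
  obtain ⟨u, hu⟩ := h.exists_smul h'
  obtain ⟨a, ha⟩ := h.unit
  have h1 : (u : DualNumber R).fst = 1 := by
    have h2 := congrArg TrivSqZeroExt.fst (hu a)
    rw [fst_mul, fst_dw, fst_dw] at h2
    exact (isUnit_iff_isUnit_fst.mp ha).mul_right_cancel (h2.symm.trans (one_mul _).symm)
  refine ⟨(u : DualNumber R).snd, funext fun b => ?_⟩
  have h2 := congrArg snd (hu b)
  rw [DualNumber.snd_mul, h1, one_mul] at h2
  exact h2

theorem exists_tv (q : A.Pt (DualNumber R)) : ∃ l : ι → R, l A.ao = 0 ∧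
    Rep (q - A.map (inlAlgHom k R R) (A.map (fstHom k R R) q)) (dw (A.oo R) l) := by
  refine exists_dw' ?_ A.oo_ao
  rw [map_sub, map_map (inlAlgHom k R R),
    show (fstHom k R R).comp (inlAlgHom k R R) = AlgHom.id k R from rfl, map_id, sub_self]
  exact rep_oo

omit [IsLocalRing R] in
theorem tv_unique {q : A.Pt (DualNumber R)} {l l' : ι → R} (h : Rep q (dw (A.oo R) l))
    (h' : Rep q (dw (A.oo R) l')) (h0 : l A.ao = 0) (h0' : l' A.ao = 0) : l = l' := by
  obtain ⟨c, hc⟩ := dw_unique h h'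
  have h1 := congrFun hc A.ao
  rw [Pi.add_apply, Pi.smul_apply, h0, h0', oo_ao, smul_eq_mul, mul_one, zero_add] at h1
  rw [hc, ← h1, zero_smul, add_zero]

theorem tv_add_aux {q q' : A.Pt (DualNumber R)} {l l' s : ι → R} (h : Rep q (dw (A.oo R) l))
    (h' : Rep q' (dw (A.oo R) l')) (hs : Rep (q + q') (dw (A.oo R) s)) (h0 : s A.ao = 0) (a : ι) :
    A.ph A.ao A.ao (A.oo R) (A.oo R) * s a =
      dP (Sum.elim (A.oo R) (A.oo R)) (Sum.elim l l') (A.Φ a A.ao) -
        A.oo R a * dP (Sum.elim (A.oo R) (A.oo R)) (Sum.elim l l') (A.Φ A.ao A.ao) := by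
  obtain ⟨c, hc⟩ := law h h' hs (rep_co _)
  have h1 : dw (A.oo R) s A.ao = 1 := TrivSqZeroExt.ext A.oo_ao h0
  have h2 : A.ph a A.ao (dw (A.oo R) l) (dw (A.oo R) l') =
      A.ph A.ao A.ao (dw (A.oo R) l) (dw (A.oo R) l') * dw (A.oo R) s a := by
    rw [hc, hc, h1]; ring
  have h3 := congrArg snd h2
  rw [DualNumber.snd_mul, ph, ph, dw_elim, fst_aeval_dw, fst_dw, snd_dw] at h3
  rw [dP, dP, h3, ph]
  ring

theorem tv_add {q q' : A.Pt (DualNumber R)} {l l' s : ι → R} (h : Rep q (dw (A.oo R) l))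
    (h' : Rep q' (dw (A.oo R) l')) (hs : Rep (q + q') (dw (A.oo R) s)) (hl : l A.ao = 0)
    (hl' : l' A.ao = 0) (h0 : s A.ao = 0) : s = l + l' := by
  have hz : Rep (0 : A.Pt (DualNumber R)) (dw (A.oo R) 0) := rep_oo
  have hu : IsUnit (A.ph A.ao A.ao (A.oo R) (A.oo R)) := by
    obtain ⟨c, hc⟩ := law (A := A) (R := R) rep_oo rep_oo (by rw [add_zero]; exact rep_oo)
      (by rw [sub_zero]; exact rep_oo)
    rw [hc, oo_ao, mul_one, mul_one]
    exact c.isUnit
  funext a
  have h1 := tv_add_aux h h' hs h0 a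
  have h2 := tv_add_aux h hz (by rwa [add_zero]) hl a
  have h3 := tv_add_aux hz h' (by rwa [zero_add]) hl' a
  have e : Sum.elim l l' = Sum.elim l (0 : ι → R) + Sum.elim (0 : ι → R) l' := by
    funext s
    cases s <;> simp
  refine hu.mul_left_cancel ?_
  rw [Pi.add_apply, mul_add, h1, h2, h3, e, dP_add, dP_add]
  ring

variable (A R) in
/-- The tangent vector at the origin obtained by translating a tangent vector. -/
noncomputable def lamE : A.Pt (DualNumber R) →+ (ι → R) :=
  AddMonoidHom.mk' (fun q => (exists_tv q).choose) fun q q' =>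
    tv_add (exists_tv q).choose_spec.2 (exists_tv q').choose_spec.2 (by
      rw [← add_sub_add_comm, ← map_add, ← map_add]
      exact (exists_tv (q + q')).choose_spec.2) (exists_tv q).choose_spec.1
      (exists_tv q').choose_spec.1 (exists_tv (q + q')).choose_spec.1

theorem lamE_ao (q : A.Pt (DualNumber R)) : A.lamE R q A.ao = 0 := (exists_tv q).choose_spec.1

theorem lamE_spec (q : A.Pt (DualNumber R)) :
    Rep (q - A.map (inlAlgHom k R R) (A.map (fstHom k R R) q)) (dw (A.oo R) (A.lamE R q)) :=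
  (exists_tv q).choose_spec.2

theorem lamE_mem (q : A.Pt (DualNumber R)) : A.lamE R q ∈ A.Lie R :=
  ⟨(lamE_spec q).mem_Tan, lamE_ao q⟩

theorem lamE_eq_zero_iff {q : A.Pt (DualNumber R)} :
    A.lamE R q = 0 ↔ q = A.map (inlAlgHom k R R) (A.map (fstHom k R R) q) := by
  have hz : Rep (0 : A.Pt (DualNumber R)) (dw (A.oo R) 0) := rep_oo
  refine ⟨fun h => sub_eq_zero.mp ((h ▸ lamE_spec q).inj hz), fun h => ?_⟩
  have h1 := lamE_spec q
  rw [← h, sub_self] at h1
  exact tv_unique h1 hz (lamE_ao q) rfl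

theorem lamE_inl (p : A.Pt R) : A.lamE R (A.map (inlAlgHom k R R) p) = 0 :=
  lamE_eq_zero_iff.mpr ((rep_co p).inl.inj (rep_co p).inl.fst.inl)

theorem lamE_of_rep {q : A.Pt (DualNumber R)} {l : ι → R} (h : Rep q (dw (A.oo R) l))
    (h0 : l A.ao = 0) : A.lamE R q = l := by
  have h1 := lamE_spec q
  rw [h.fst.inj rep_oo, map_zero, sub_zero] at h1
  exact tv_unique h1 h (lamE_ao q) h0

/-- The explicit formula, for every index `a`. -/
theorem ph_mul_lamE {q : A.Pt (DualNumber R)} {v w : ι → R} (h : Rep q (dw v w)) (a b : ι) :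
    A.ph a A.ao v v * A.lamE R q b = A.trN a v w b := by
  obtain ⟨c, hc⟩ := law h h.fst.inl (rep_co _) (lamE_spec q)
  have h1 : dw (A.oo R) (A.lamE R q) A.ao = 1 := TrivSqZeroExt.ext A.oo_ao (lamE_ao q)
  have h2 : A.ph a b (dw v w) (dw v 0) =
      A.ph a A.ao (dw v w) (dw v 0) * dw (A.oo R) (A.lamE R q) b := by
    rw [hc, hc, h1]; ring
  have h3 := congrArg snd h2
  rw [DualNumber.snd_mul, ph, ph, dw_elim, fst_aeval_dw, fst_dw, snd_dw] at h3
  rw [trN, dP, dP, h3, ph]
  ring

theorem Rep.exists_unit_ph_self {p : A.Pt R} {v : ι → R} (h : Rep p v) :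
    ∃ a, IsUnit (A.ph a A.ao v v) := by
  obtain ⟨c, hc⟩ := law h h (rep_co _) (by rw [sub_self]; exact rep_oo)
  obtain ⟨a, ha⟩ := (rep_co (p + p)).unit
  exact ⟨a, by rw [hc, oo_ao, mul_one]; exact c.isUnit.mul ha⟩

theorem lamE_eq_trl {q : A.Pt (DualNumber R)} {v w : ι → R} (h : Rep q (dw v w)) :
    A.lamE R q = A.trl v w := by
  funext b
  have hu := Classical.epsilon_spec h.fst.exists_unit_ph_self
  change _ = Ring.inverse (_ : R) * _
  rw [← ph_mul_lamE h, ← mul_assoc, Ring.inverse_mul_cancel _ hu, one_mul]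

section trl

variable {p : A.Pt R} {v w : ι → R}

theorem ph_mul_trl (hv : Rep p v) (hw : w ∈ A.Tan v) (a b : ι) :
    A.ph a A.ao v v * A.trl v w b = A.trN a v w b := by
  obtain ⟨q, hq⟩ := exists_rep_dw hv hw
  rw [← lamE_eq_trl hq, ph_mul_lamE hq]

theorem trl_mem (hv : Rep p v) (hw : w ∈ A.Tan v) : A.trl v w ∈ A.Lie R := by
  obtain ⟨q, hq⟩ := exists_rep_dw hv hw
  rw [← lamE_eq_trl hq]
  exact lamE_mem q

theorem trl_eq_zero_iff (hv : Rep p v) (hw : w ∈ A.Tan v) :
    A.trl v w = 0 ↔ ∃ c : R, w = c • v := by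
  obtain ⟨q, hq⟩ := exists_rep_dw hv hw
  rw [← lamE_eq_trl hq, lamE_eq_zero_iff]
  constructor
  · intro h
    obtain ⟨c, hc⟩ := dw_unique hq.fst.inl (h ▸ hq)
    exact ⟨c, by rw [hc, zero_add]⟩
  · rintro ⟨c, rfl⟩
    refine hq.inj ?_
    have h := hq.fst.inl.smul (c := ⟨1, c⟩) (isUnit_iff_isUnit_fst.mpr isUnit_one)
    convert h using 1
    funext a
    exact TrivSqZeroExt.ext (one_mul _).symm (by simp)

theorem trl_self (hv : Rep p v) : A.trl v v = 0 :=
  (trl_eq_zero_iff hv hv.self_mem_Tan).mpr ⟨1, (one_smul _ _).symm⟩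

theorem eq_zero_of_trl (hv : Rep p v) (hw : w ∈ A.Tan v) {b : ι} (hb : v b = 1) (h0 : w b = 0)
    (h : A.trl v w = 0) : w = 0 := by
  obtain ⟨c, hc⟩ := (trl_eq_zero_iff hv hw).mp h
  have h1 := congrFun hc b
  rw [h0, Pi.smul_apply, hb, smul_eq_mul, mul_one] at h1
  rw [hc, ← h1, zero_smul]

theorem exists_lamE_eq (p : A.Pt R) {l : ι → R} (hl : l ∈ A.Lie R) :
    ∃ q : A.Pt (DualNumber R), A.map (fstHom k R R) q = p ∧ A.lamE R q = l := by
  obtain ⟨q, hq⟩ := exists_rep_dw rep_oo hl.1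
  refine ⟨A.map (inlAlgHom k R R) p + q, ?_, ?_⟩
  · rw [map_add, hq.fst.inj rep_oo, add_zero]
    exact (rep_co p).inl.fst.inj (rep_co p)
  · rw [map_add, lamE_inl, zero_add, lamE_of_rep hq hl.2]

theorem trl_surj (hv : Rep p v) {l : ι → R} (hl : l ∈ A.Lie R) :
    ∃ w ∈ A.Tan v, A.trl v w = l := by
  obtain ⟨q, rfl, hq⟩ := exists_lamE_eq p hl
  obtain ⟨w, hw⟩ := exists_dw hv
  exact ⟨w, hw.mem_Tan, by rw [← lamE_eq_trl hw, hq]⟩

theorem trl_surj' (hv : Rep p v) {b : ι} (hb : v b = 1) {l : ι → R} (hl : l ∈ A.Lie R) :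
    ∃ w ∈ A.Tan v, w b = 0 ∧ A.trl v w = l := by
  obtain ⟨q, rfl, hq⟩ := exists_lamE_eq p hl
  obtain ⟨w, h0, hw⟩ := exists_dw' hv hb
  exact ⟨w, hw.mem_Tan, h0, by rw [← lamE_eq_trl hw, hq]⟩

theorem trl_oo {l : ι → R} (hl : l ∈ A.Lie R) : A.trl (A.oo R) l = l := by
  obtain ⟨q, hq⟩ := exists_rep_dw rep_oo hl.1
  rw [← lamE_eq_trl hq, lamE_of_rep hq hl.2]

end trl

theorem lamE_map (f : R →ₐ[k] R') (q : A.Pt (DualNumber R)) :
    A.lamE R' (A.map (dmap f) q) = fun a => f (A.lamE R q a) := by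
  have h1 := (lamE_spec q).map (dmap f)
  have h2 : (fun a => dmap f (dw (A.oo R) (A.lamE R q) a)) =
      dw (A.oo R') fun a => f (A.lamE R q a) :=
    funext fun a => TrivSqZeroExt.ext (f.commutes _) rfl
  have h3 : A.map (dmap f) (A.map (inlAlgHom k R R) (A.map (fstHom k R R) q)) =
      A.map (inlAlgHom k R' R') (A.map (fstHom k R' R') (A.map (dmap f) q)) := by
    simp only [map_map]
    exact map_congr (rep_co q) fun a => TrivSqZeroExt.ext rfl (map_zero f)
  rw [h2, map_sub, h3] at h1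
  exact tv_unique (lamE_spec _) h1 (lamE_ao _) (by rw [lamE_ao, map_zero])

omit [IsLocalRing R] [IsLocalRing R'] in
theorem map_mem_Tan (f : R →ₐ[k] R') {v w : ι → R} (hw : w ∈ A.Tan v) :
    (fun a => f (w a)) ∈ A.Tan fun a => f (v a) := fun F hF => by
  rw [← map_dP, hw F hF, map_zero]

omit [IsLocalRing R] [IsLocalRing R'] in
theorem map_mem_Lie (f : R →ₐ[k] R') {w : ι → R} (hw : w ∈ A.Lie R) :
    (fun a => f (w a)) ∈ A.Lie R' := by
  refine ⟨?_, (congrArg f hw.2).trans (map_zero f)⟩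
  have h := map_mem_Tan f hw.1
  have e : (fun a => f (A.oo R a)) = A.oo R' := funext fun a => f.commutes _
  rwa [e] at h

theorem trl_map (f : R →ₐ[k] R') {p : A.Pt R} {v w : ι → R} (hv : Rep p v) (hw : w ∈ A.Tan v) :
    A.trl (fun a => f (v a)) (fun a => f (w a)) = fun a => f (A.trl v w a) := by
  obtain ⟨q, hq⟩ := exists_rep_dw hv hw
  rw [← lamE_eq_trl hq, ← lamE_map]
  exact (lamE_eq_trl (hq.map (dmap f))).symm

variable (A) in
/-- The logarithmic derivative of a point along the derivation `D`. -/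
noncomputable def lamD (D : Derivation k R R) : A.Pt R →+ (ι → R) :=
  (A.lamE R).comp (A.map (eD D))

section lamD

variable {p : A.Pt R} {v : ι → R}

omit [IsLocalRing R] in
theorem Rep.der_mem_Tan (hv : Rep p v) (D : Derivation k R R) : (fun a => D (v a)) ∈ A.Tan v :=
  fun F hF => by rw [dP_der D D.map_algebraMap, hv.zero F hF, map_zero]

theorem lamD_eq (hv : Rep p v) (D : Derivation k R R) :
    A.lamD D p = A.trl v fun a => D (v a) := lamE_eq_trl (hv.map (eD D))

theorem lamD_mem (D : Derivation k R R) (p : A.Pt R) : A.lamD D p ∈ A.Lie R := lamE_mem _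

theorem ph_mul_lamD (hv : Rep p v) (D : Derivation k R R) (a b : ι) :
    A.ph a A.ao v v * A.lamD D p b = A.trN a v (fun c => D (v c)) b :=
  ph_mul_lamE (hv.map (eD D)) a b

variable (p) in
/-- The logarithmic derivative as a linear function of the derivation. -/
noncomputable def lamL : Derivation k R R →ₗ[R] (ι → R) where
  toFun D := A.lamD D p
  map_add' D D' := by
    rw [lamD_eq (rep_co p), lamD_eq (rep_co p), lamD_eq (rep_co p), ← map_add]
    rfl
  map_smul' r D := by
    rw [lamD_eq (rep_co p), lamD_eq (rep_co p), RingHom.id_apply, ← map_smul]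
    rfl

theorem lamD_zero (p : A.Pt R) : A.lamD 0 p = 0 := map_zero (lamL p)

theorem lamD_add (D D' : Derivation k R R) (p : A.Pt R) :
    A.lamD (D + D') p = A.lamD D p + A.lamD D' p := map_add (lamL p) D D'

theorem lamD_sub (D D' : Derivation k R R) (p : A.Pt R) :
    A.lamD (D - D') p = A.lamD D p - A.lamD D' p := map_sub (lamL p) D D'

theorem lamD_smul (r : R) (D : Derivation k R R) (p : A.Pt R) :
    A.lamD (r • D) p = r • A.lamD D p := map_smul (lamL p) r D

theorem lamD_sum {J : Type} (s : Finset J) (c : J → R) (D : J → Derivation k R R) (p : A.Pt R) :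
    A.lamD (∑ j ∈ s, c j • D j) p = ∑ j ∈ s, c j • A.lamD (D j) p := by
  refine (map_sum (lamL p) _ s).trans (Finset.sum_congr rfl fun j _ => lamD_smul _ _ _)

theorem lamD_eq_zero (hv : Rep p v) {D : Derivation k R R} (h : ∀ a, D (v a) = 0) :
    A.lamD D p = 0 := by
  rw [lamD_eq hv, show (fun a => D (v a)) = 0 from funext h, map_zero]

theorem lamD_eq_zero_iff (hv : Rep p v) {b : ι} (hb : v b = 1) {D : Derivation k R R} :
    A.lamD D p = 0 ↔ ∀ a, D (v a) = 0 :=
  ⟨fun h => congrFun (eq_zero_of_trl hv (hv.der_mem_Tan D) hb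
    (by rw [hb, D.map_one_eq_zero]) (by rwa [← lamD_eq hv])), lamD_eq_zero hv⟩

/-- Points coming from a ring of constants of `D`. -/
theorem lamD_map_const (f : R' →ₐ[k] R) {D : Derivation k R R} (h : ∀ r, D (f r) = 0)
    (q : A.Pt R') : A.lamD D (A.map f q) = 0 :=
  lamD_eq_zero ((rep_co q).map f) fun _ => h _

theorem map_lamD (f : R →ₐ[k] R') (hv : Rep p v) (D : Derivation k R R) :
    (fun a => f (A.lamD D p a)) = A.trl (fun a => f (v a)) fun a => f (D (v a)) := by
  rw [lamD_eq hv, trl_map f hv (hv.der_mem_Tan D)]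

theorem lamD_map (f : R →ₐ[k] R') (hv : Rep p v) {D : Derivation k R R} {D' : Derivation k R' R'}
    (h : ∀ a, D' (f (v a)) = f (D (v a))) :
    A.lamD D' (A.map f p) = fun a => f (A.lamD D p a) := by
  rw [map_lamD f hv, lamD_eq (hv.map f), funext h]

end lamD

end AV

namespace Sub

open AV

variable {K : Type} [Field K] [Algebra k K] {A : AV k ι} {B : AV K ι} {R : Type}
  [CommRing R] [Algebra k R] [Algebra K R] [IsScalarTower k K R]

theorem oo (h : Sub A B) : B.oo R = A.oo R := funext fun a => by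
  rw [AV.oo, h.o, ← IsScalarTower.algebraMap_apply, AV.oo]

theorem trN (h : Sub A B) (a : ι) (v w : ι → R) (b : ι) : B.trN a v w b = A.trN a v w b := by
  rw [AV.trN, AV.trN, h.oo, h.ao, h.Φ, h.Φ, dP_map_algebraMap, dP_map_algebraMap]

theorem trl (h : Sub A B) (v : ι → R) : B.trl v = A.trl v := by
  refine LinearMap.ext fun w => funext fun b => ?_
  change Ring.inverse (_ : R) * _ = Ring.inverse (_ : R) * _
  simp only [h.trN, h.ph, h.ao]

theorem Tan_le (h : Sub A B) (v : ι → R) : B.Tan v ≤ A.Tan v := fun w hw F hF => by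
  rw [← dP_map_algebraMap (K := K)]
  exact hw _ (h.le F hF)

theorem Lie_le (h : Sub A B) : B.Lie R ≤ A.Lie R := fun _ hw =>
  ⟨h.Tan_le _ (h.oo (R := R) ▸ hw.1), h.ao ▸ hw.2⟩

variable [IsLocalRing R]

theorem lamE_inc (h : Sub A B) (q : B.Pt (DualNumber R)) :
    A.lamE R (h.inc (DualNumber R) q) = B.lamE R q := by
  obtain ⟨w, hw⟩ := exists_dw (rep_co (B.map (fstHom K R R) q))
  rw [lamE_eq_trl hw, lamE_eq_trl (h.rep_inc hw), h.trl]

theorem lamD_inc (h : Sub A B) (D : Derivation K R R) (p : B.Pt R) :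
    A.lamD (D.restrictScalars k) (h.inc R p) = B.lamD D p := by
  rw [lamD_eq (rep_co p), lamD_eq (h.rep_inc (rep_co p)), h.trl]
  rfl

/-- A derivation moves a point of `B` along `B` if and only if its logarithmic derivative lies in
the tangent space of `B`. -/
theorem lamD_mem_iff (h : Sub A B) (D : Derivation k R R) {p : B.Pt R} {v : ι → R}
    (hv : Rep p v) : A.lamD D (h.inc R p) ∈ B.Lie R ↔ (fun a => D (v a)) ∈ B.Tan v := by
  have hv' := h.rep_inc hv
  rw [lamD_eq hv']
  refine ⟨fun h1 => ?_, fun h1 => h.trl v ▸ trl_mem hv h1⟩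
  obtain ⟨w, hw, e⟩ := trl_surj hv h1
  rw [h.trl, ← sub_eq_zero, ← map_sub] at e
  obtain ⟨c, hc⟩ := (trl_eq_zero_iff hv'
    ((A.Tan v).sub_mem (h.Tan_le v hw) (hv'.der_mem_Tan D))).mp e
  rw [show (fun a => D (v a)) = w - c • v by rw [← hc, sub_sub_cancel]]
  exact (B.Tan v).sub_mem hw ((B.Tan v).smul_mem c hv.self_mem_Tan)

end Sub

end Pool.Agent.Lib.MP_651af7_nt.Av
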