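import Pool.Agent.Lib.MP_651af7_nt.Av.EDefs
import Pool.Agent.Lib.MP_651af7_nt.Av.Lie

/-! Engine: more on the logarithmic derivative. -/

namespace Pool.Agent.Lib.MP_651af7_nt.Av

open Finset

variable {k ι : Type} [Field k]

section ser

variable {σ τ : Type} [Finite τ] (e : τ ↪ σ) (f : MvPowerSeries τ k)

theorem pderiv_rename_of_notMem {s : σ} (hs : s ∉ Set.range e) :
    MvPowerSeries.pderiv k s (MvPowerSeries.rename e f) = 0 := by
  ext μ
  rw [MvPowerSeries.coeff_pderiv, MvPowerSeries.coeff_rename_eq_zero, zero_mul, map_zero]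
  rintro ⟨ν, hν⟩
  have h := DFunLike.congr_fun hν s
  rw [Finsupp.mapDomain_of_notMem_range _ _ hs] at h
  simp at h

theorem cc_pderiv_rename (j : τ) :
    MvPowerSeries.constantCoeff (MvPowerSeries.pderiv k (e j) (MvPowerSeries.rename e f)) =
      MvPowerSeries.coeff (Finsupp.single j 1) f := by
  rw [← MvPowerSeries.coeff_zero_eq_constantCoeff_apply, MvPowerSeries.coeff_pderiv, zero_add,
    ← Finsupp.embDomain_single, MvPowerSeries.coeff_embDomain_rename]
  simp

end ser

namespace AV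

variable {A : AV k ι} {R : Type} [CommRing R] [Algebra k R] [IsLocalRing R] {P : A.Pt R}
  {x : ι → R}

theorem Rep.dbn (h : Rep P x) (j : ℕ) : Rep (2 ^ j • P) (A.dbn x j) := by
  induction j with
  | zero => simpa only [pow_zero, one_smul, AV.dbn] using h
  | succ j ih =>
    obtain ⟨a, ha⟩ := ih.exists_unit_ph_self
    rw [pow_succ, mul_two, add_nsmul]
    exact rep_add ih ih ha

theorem Rep.norm (h : Rep P x) {a : ι} (ha : IsUnit (x a)) : ∃ z, Rep P z ∧ z a = 1 := by
  obtain ⟨u, hu⟩ := ha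
  exact ⟨_, h.smul u⁻¹.isUnit, by rw [← hu, Units.inv_mul]⟩

theorem lam_eq (D : Derivation k R R) (h : Rep P x) {l : ι → R}
    (ht : A.Tang x (fun a => D (x a)) l) : lam D P = l :=
  Tang.unique h (lam_tang D h) ht

theorem lam_isLie (D : Derivation k R R) (P : A.Pt R) : A.IsLie (lam D P) :=
  Tang.isLie (rep_co P) (lam_tang D (rep_co P))

theorem lam_eq_zero {D : Derivation k R R} (h : Rep P x) (hD : ∀ a, D (x a) = 0) :
    lam D P = 0 := by
  rw [lam_eq_lamD, lamD_eq_zero h hD]

theorem der_of_lam {D : Derivation k R R} (h : Rep P x) {a₀ : ι} (h1 : x a₀ = 1)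
    (h0 : lam D P = 0) (a : ι) : D (x a) = 0 :=
  (lamD_eq_zero_iff h h1).mp (lam_eq_lamD D P ▸ h0) a

theorem lam_add_der (D D' : Derivation k R R) (P : A.Pt R) :
    lam (D + D') P = lam D P + lam D' P := by
  simp only [lam_eq_lamD, lamD_add]

theorem lam_smul_der (w : R) (D : Derivation k R R) (P : A.Pt R) :
    lam (w • D) P = w • lam D P := by
  simp only [lam_eq_lamD, lamD_smul]

theorem lam_sub_sum_der {J : Type} [Fintype J] (D : Derivation k R R) (w : J → R)
    (D' : J → Derivation k R R) (P : A.Pt R) :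
    lam (D - ∑ j, w j • D' j) P = lam D P - ∑ j, w j • lam (D' j) P := by
  simp only [lam_eq_lamD, lamD_sub, lamD_sum]

theorem lam_nsmul (D : Derivation k R R) (n : ℕ) (P : A.Pt R) :
    lam D (n • P) = n • lam D P := by
  simp only [lam_eq_lamD, map_nsmul]

variable {σ τ : Type} [Finite τ] (e : τ ↪ σ) {ξ : ι → MvPowerSeries τ k}
  {Q : A.Pt (MvPowerSeries σ k)}

theorem lam_rename_of_notMem (h : Rep Q fun a => MvPowerSeries.rename e (ξ a)) {s : σ}
    (hs : s ∉ Set.range e) : lam (MvPowerSeries.pderiv k s) Q = 0 :=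
  lam_eq_zero h fun _ => pderiv_rename_of_notMem e _ hs

/-- `Tang.map` for `cc`. -/
theorem tang_rename (h : Rep Q fun a => MvPowerSeries.rename e (ξ a)) (j : τ) :
    A.Tang (fun a => MvPowerSeries.constantCoeff (ξ a))
      (fun a => MvPowerSeries.coeff (Finsupp.single j 1) (ξ a))
      fun a => MvPowerSeries.constantCoeff (lam (MvPowerSeries.pderiv k (e j)) Q a) := by
  have h1 := (lam_tang (MvPowerSeries.pderiv k (e j)) h).map (cc k σ)
  simpa only [cc_apply, MvPowerSeries.constantCoeff_rename, cc_pderiv_rename] using h1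

/-- A vector of series that kills the ideal and has a nonzero constant term is a point. -/
theorem exists_rep_rename {P₀ : A.Pt k} {x₀ : ι → k} (h : Rep P₀ x₀)
    (h0 : ∀ a, MvPowerSeries.constantCoeff (ξ a) = x₀ a)
    (hz : ∀ f ∈ A.I, MvPolynomial.aeval ξ f = 0) : ∃ Q : A.Pt (MvPowerSeries σ k),
      (Rep Q fun a => MvPowerSeries.rename e (ξ a)) ∧ A.map (cc k σ) Q = P₀ := by
  obtain ⟨Q₀, hQ⟩ := exists_rep (A := A) (h.unit.imp fun a ha =>
    MvPowerSeries.isUnit_iff_constantCoeff.mpr (h0 a ▸ ha)) hz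
  have h1 := hQ.map (MvPowerSeries.rename e)
  refine ⟨_, h1, (h1.map (cc k σ)).inj ?_⟩
  simpa only [cc_apply, MvPowerSeries.constantCoeff_rename, h0] using h

end AV

end Pool.Agent.Lib.MP_651af7_nt.Av
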