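import Pool.Agent.Lib.MP_651af7_nt.Av.RBK

/-! The conormal height bound: a multihomogeneous form invariant under subspaces whose
annihilators have no small vector has large height, additively over the blocks. -/

namespace Pool.Agent.Lib.MP_651af7_nt.Av

open Finset Height Height.AdmissibleAbsValues NumberField MvPolynomial

section inv

variable {k σ : Type} [Field k] [Fintype σ]

theorem rb_chain (x τ : σ → k) (Ψ : MvPolynomial σ k) :
    Polynomial.derivative (aeval (fun s => Polynomial.C (x s) + Polynomial.C (τ s) * Polynomial.X) Ψ)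
      = aeval (fun s => Polynomial.C (x s) + Polynomial.C (τ s) * Polynomial.X)
        (∑ s, τ s • pderiv s Ψ) := by
  classical
  induction Ψ using MvPolynomial.induction_on with
  | C a => simp
  | add p q hp hq => simp only [map_add, hp, hq, smul_add, sum_add_distrib]
  | mul_X p t hp =>
    have h1 : ∑ s, τ s • pderiv s (p * X t) = (∑ s, τ s • pderiv s p) * X t + τ t • p := by
      have h2 : ∑ s, τ s • (p * pderiv s (X t : MvPolynomial σ k)) = τ t • p := by
        rw [sum_eq_single t]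
        · rw [pderiv_X_self, mul_one]
        · intro s _ hs
          rw [pderiv_X_of_ne hs.symm, mul_zero, smul_zero]
        · simp
      simp only [pderiv_mul, smul_add, sum_add_distrib, sum_mul, smul_mul_assoc, h2]
    have h3 : Polynomial.derivative (Polynomial.C (x t) + Polynomial.C (τ t) * Polynomial.X) =
        Polynomial.C (τ t) := by simp
    rw [h1, map_mul, Polynomial.derivative_mul, hp, map_add, map_mul, map_smul, aeval_X, h3,
      Polynomial.smul_eq_C_mul, mul_comm _ (Polynomial.C (τ t))]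

theorem rb_transl [CharZero k] (x τ : σ → k) {Ψ : MvPolynomial σ k}
    (h : ∑ s, τ s • pderiv s Ψ = 0) : eval (x + τ) Ψ = eval x Ψ := by
  have h1 := rb_chain x τ Ψ
  rw [h, map_zero] at h1
  have h2 := Polynomial.eq_C_of_derivative_eq_zero h1
  have h3 : ∀ t : k, Polynomial.eval t
      (aeval (fun s => Polynomial.C (x s) + Polynomial.C (τ s) * Polynomial.X) Ψ) =
      eval (fun s => x s + τ s * t) Ψ := fun t => by
    rw [← Polynomial.coe_aeval_eq_eval, ← AlgHom.comp_apply, comp_aeval, ← coe_aeval_eq_eval]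
    simp
  have h4 := h3 1
  have h5 := h3 0
  rw [h2, Polynomial.eval_C] at h4 h5
  simp only [mul_one, mul_zero, add_zero] at h4 h5
  exact h4.symm.trans h5

end inv

section loc

variable {k σ ρ : Type} [Field k] (v : AbsoluteValue k ℝ)

/-- Coefficientwise majorant. -/
def RbMaj (p : MvPolynomial ρ k) (P : MvPolynomial ρ NNReal) : Prop :=
  ∀ μ, v (coeff μ p) ≤ coeff μ P

theorem RbMaj.mul {p q : MvPolynomial ρ k} {P Q : MvPolynomial ρ NNReal} (h : RbMaj v p P)
    (h' : RbMaj v q Q) : RbMaj v (p * q) (P * Q) := by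
  classical
  intro μ
  rw [coeff_mul, coeff_mul]
  refine (v.sum_le _ _).trans ?_
  push_cast
  refine sum_le_sum fun x _ => ?_
  rw [map_mul]
  exact mul_le_mul (h _) (h' _) (v.nonneg _) (NNReal.coe_nonneg _)

theorem RbMaj.one : RbMaj v (1 : MvPolynomial ρ k) 1 := by
  classical
  intro μ
  rw [coeff_one, coeff_one]
  split_ifs <;> simp

theorem RbMaj.pow {p : MvPolynomial ρ k} {P : MvPolynomial ρ NNReal} (h : RbMaj v p P) (n : ℕ) :
    RbMaj v (p ^ n) (P ^ n) := by
  induction n with
  | zero => simpa using RbMaj.one v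
  | succ n ih => rw [pow_succ, pow_succ]; exact ih.mul v h

theorem RbMaj.prod {J : Type} (s : Finset J) {p : J → MvPolynomial ρ k}
    {P : J → MvPolynomial ρ NNReal} (h : ∀ j ∈ s, RbMaj v (p j) (P j)) :
    RbMaj v (∏ j ∈ s, p j) (∏ j ∈ s, P j) := by
  classical
  induction s using Finset.induction_on with
  | empty => simpa using RbMaj.one v
  | insert a s ha ih =>
    rw [prod_insert ha, prod_insert ha]
    exact (h a (mem_insert_self a s)).mul v (ih fun j hj => h j (mem_insert_of_mem hj))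

theorem RbMaj.lin {J : Type} [Fintype J] (a : J → k) (f : J → ρ) {η : NNReal}
    (h : ∀ j, v (a j) ≤ η) : RbMaj v (∑ j, C (a j) * X (f j)) (∑ j, C η * X (f j)) := by
  classical
  intro μ
  rw [coeff_sum, coeff_sum]
  refine (v.sum_le _ _).trans ?_
  push_cast
  refine sum_le_sum fun j _ => ?_
  rw [coeff_C_mul, coeff_C_mul, coeff_X, coeff_X]
  split_ifs
  · simpa using h j
  · simp

theorem rb_coeff_le_eval (P : MvPolynomial ρ NNReal) (μ : ρ →₀ ℕ) :
    coeff μ P ≤ eval (fun _ => 1) P := by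
  rw [eval_eq]
  simp only [one_pow, prod_const_one, mul_one]
  by_cases h : μ ∈ P.support
  · exact single_le_sum (f := fun d => coeff d P) (fun _ _ => zero_le) h
  · rw [notMem_support_iff.mp h]; exact zero_le

/-- All coefficients have absolute value at most one. -/
def RbInt (p : MvPolynomial ρ k) : Prop := ∀ μ, v (coeff μ p) ≤ 1

variable {v}

theorem rb_na_sum (hv : IsNonarchimedean v) {J : Type} (s : Finset J) (f : J → k) {B : ℝ}
    (hB : 0 ≤ B) (h : ∀ j ∈ s, v (f j) ≤ B) : v (∑ j ∈ s, f j) ≤ B := by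
  classical
  induction s using Finset.induction_on with
  | empty => simpa using hB
  | insert a s ha ih =>
    rw [sum_insert ha]
    exact (hv _ _).trans (max_le (h a (mem_insert_self a s))
      (ih fun j hj => h j (mem_insert_of_mem hj)))

theorem RbInt.mul (hv : IsNonarchimedean v) {p q : MvPolynomial ρ k} (h : RbInt v p)
    (h' : RbInt v q) : RbInt v (p * q) := by
  classical
  intro μ
  rw [coeff_mul]
  refine rb_na_sum hv _ _ zero_le_one fun x _ => ?_
  rw [map_mul]
  exact mul_le_one₀ (h _) (v.nonneg _) (h' _)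

theorem RbInt.one : RbInt v (1 : MvPolynomial ρ k) := by
  classical
  intro μ
  rw [coeff_one]
  split_ifs <;> simp

theorem RbInt.pow (hv : IsNonarchimedean v) {p : MvPolynomial ρ k} (h : RbInt v p) (n : ℕ) :
    RbInt v (p ^ n) := by
  induction n with
  | zero => simpa using RbInt.one
  | succ n ih => rw [pow_succ]; exact ih.mul hv h

theorem RbInt.prod (hv : IsNonarchimedean v) {J : Type} (s : Finset J) {p : J → MvPolynomial ρ k}
    (h : ∀ j ∈ s, RbInt v (p j)) : RbInt v (∏ j ∈ s, p j) := by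
  classical
  induction s using Finset.induction_on with
  | empty => simpa using RbInt.one
  | insert a s ha ih =>
    rw [prod_insert ha]
    exact (h a (mem_insert_self a s)).mul hv (ih fun j hj => h j (mem_insert_of_mem hj))

theorem RbInt.lin (hv : IsNonarchimedean v) {J : Type} [Fintype J] (a : J → k) (f : J → ρ)
    (h : ∀ j, v (a j) ≤ 1) : RbInt v (∑ j, C (a j) * X (f j)) := by
  classical
  intro μ
  rw [coeff_sum]
  refine rb_na_sum hv _ _ zero_le_one fun j _ => ?_
  rw [coeff_C_mul, coeff_X]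
  split_ifs
  · simpa using h j
  · simp

theorem rb_coeff_aeval [Fintype σ] (L : σ → MvPolynomial ρ k) (Ψ : MvPolynomial σ k) (μ : ρ →₀ ℕ) :
    coeff μ (aeval L Ψ) = ∑ α ∈ Ψ.support, coeff α Ψ * coeff μ (∏ s, L s ^ α s) := by
  rw [aeval_eq_eval₂Hom, coe_eval₂Hom, eval₂_eq', coeff_sum]
  exact sum_congr rfl fun α _ => by rw [algebraMap_eq, coeff_C_mul]

end loc

theorem rb_card {k I g : Type} [Field k] [Fintype I] [Fintype g] (ν : I → ℕ)
    (Ψ : MvPolynomial (I × g) k) (hν : ∀ α ∈ Ψ.support, ∀ i, ∑ j, α (i, j) = ν i) :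
    Ψ.support.card ≤ ∏ i, Fintype.card g ^ ν i := by
  classical
  have h1 : ∀ α : I × g →₀ ℕ, (∀ i, ∑ j, α (i, j) = ν i) →
      (1 : ℕ) ≤ coeff α (∏ i, (∑ j, X (i, j)) ^ ν i : MvPolynomial (I × g) ℕ) := by
    intro α hα
    have h2 : ∀ (p p' q q' : MvPolynomial (I × g) ℕ), (∀ μ, coeff μ p ≤ coeff μ p') →
        (∀ μ, coeff μ q ≤ coeff μ q') → ∀ μ, coeff μ (p * q) ≤ coeff μ (p' * q') := by
      intro p p' q q' hp hq μ
      rw [coeff_mul, coeff_mul]
      exact sum_le_sum fun x _ => Nat.mul_le_mul (hp _) (hq _)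
    have h3 : ∀ {J : Type} (s : Finset J) (p p' : J → MvPolynomial (I × g) ℕ),
        (∀ j μ, coeff μ (p j) ≤ coeff μ (p' j)) →
        ∀ μ, coeff μ (∏ j ∈ s, p j) ≤ coeff μ (∏ j ∈ s, p' j) := by
      intro J s p p' hp
      induction s using Finset.induction_on with
      | empty => intro μ; simp
      | insert a s ha ih => rw [prod_insert ha, prod_insert ha]; exact h2 _ _ _ _ (hp a) ih
    have h4 : (∏ i, (∑ j, X (i, j)) ^ ν i : MvPolynomial (I × g) ℕ) =
        ∏ s : I × g, ∏ _t ∈ range (α s), ∑ j, X (s.1, j) := by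
      rw [Fintype.prod_prod_type]
      refine prod_congr rfl fun i _ => ?_
      simp only [prod_const, card_range, prod_pow_eq_pow_sum, hα]
    have h5 : (monomial α 1 : MvPolynomial (I × g) ℕ) = ∏ s : I × g, ∏ _t ∈ range (α s), X s := by
      simp only [prod_const, card_range]
      rw [monomial_eq, C_1, one_mul, Finsupp.prod_fintype _ _ fun _ => pow_zero _]
    have h6 := h3 univ (fun s : I × g => ∏ _t ∈ range (α s), X s)
      (fun s => ∏ _t ∈ range (α s), ∑ j, X (s.1, j)) (fun s => h3 _ _ _ fun _ μ => by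
        rw [coeff_sum]
        exact single_le_sum (f := fun j => coeff μ (X (s.1, j) : MvPolynomial (I × g) ℕ))
          (fun _ _ => Nat.zero_le _) (mem_univ s.2)) α
    rwa [← h4, ← h5, coeff_monomial, if_pos rfl] at h6
  have h2 : eval (fun _ => 1) (∏ i, (∑ j, X (i, j)) ^ ν i : MvPolynomial (I × g) ℕ) =
      ∏ i, Fintype.card g ^ ν i := by simp
  rw [← h2, eval_eq, card_eq_sum_ones]
  simp only [one_pow, prod_const_one, mul_one]
  refine (sum_le_sum fun α hα => h1 α (hν α hα)).trans (sum_le_sum_of_subset fun α hα => ?_)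
  exact mem_support_iff.mpr (Nat.one_le_iff_ne_zero.mp (h1 α (hν α hα)))

/-- The conormal height bound, local form: a nonzero element of `k` that is bounded by the
coefficients of `Ψ` at the finite places and much smaller than them at the infinite places. -/
theorem conormal_local (k : Type) [Field k] [NumberField k] (g : Type) [Fintype g] :
    ∃ c : ℝ, 0 < c ∧ ∃ C : ℝ, ∀ (I : Type) [Fintype I] (T : I → Submodule k (g → k)) (H : I → ℝ)
      (ν : I → ℕ) (Ψ : MvPolynomial (I × g) k), Ψ ≠ 0 →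
      (∀ α ∈ Ψ.support, ∀ i, ∑ j, α (i, j) = ν i) →
      (∀ i, ∀ τ ∈ T i, ∑ j, τ j • pderiv (i, j) Ψ = 0) →
      (∀ i (l : g → k), l ≠ 0 → (∀ τ ∈ T i, ∑ j, l j * τ j = 0) → H i ≤ logHeight l) →
      ∃ β : k, β ≠ 0 ∧
        (∀ v ∈ nonarchAbsVal (K := k), ∀ B : ℝ, (∀ α, v (coeff α Ψ) ≤ B) → v β ≤ B) ∧
        (∀ v ∈ archAbsVal (K := k), ∀ B : ℝ, (∀ α, v (coeff α Ψ) ≤ B) →
          v β ≤ Real.exp (-∑ i, ν i * (c * H i - C)) * B) := by
  classical
  obtain ⟨N, c, hc, C, h⟩ := rb_field k g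
  refine ⟨c, hc, C + Real.log (N + 1) + Real.log (Fintype.card g + 1),
    fun I _ T H ν Ψ hΨ hν hT hH => ?_⟩
  choose e τ hτ he heτ hs using fun i => h (T i) (H i) (hH i)
  let L : (I → Fin N → g → k) → I × g → MvPolynomial (I × Fin N) k :=
    fun a s => ∑ l, MvPolynomial.C (a s.1 l s.2) * X (s.1, l)
  have hev : ∀ (a : I → Fin N → g → k) (s : I × Fin N → k), eval s (aeval (L a) Ψ) =
      eval (fun p => (∑ l, s (p.1, l) • a p.1 l) p.2) Ψ := fun a s => by
    rw [← coe_aeval_eq_eval, ← coe_aeval_eq_eval, RingHom.coe_coe, RingHom.coe_coe,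
      ← AlgHom.comp_apply, comp_aeval]
    congr 2
    funext p
    simp [L, mul_comm]
  have hinv : ∀ (x : I × g → k) (t : I → g → k), (∀ i, t i ∈ T i) →
      eval (x + fun p => t p.1 p.2) Ψ = eval x Ψ := fun x t ht =>
    rb_transl _ _ (by rw [Fintype.sum_prod_type]; exact sum_eq_zero fun i _ => hT i _ (ht i))
  have heq : aeval (L e) Ψ = aeval (L (e - τ)) Ψ := by
    refine MvPolynomial.funext fun s => ?_
    rw [hev, hev, ← hinv (fun p => (∑ l, s (p.1, l) • (e - τ) p.1 l) p.2)
      (fun i => ∑ l, s (i, l) • τ i l) fun i => (T i).sum_mem fun l _ => (T i).smul_mem _ (hτ i l)]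
    congr 2
    funext p
    simp [mul_sub]
  have hne : aeval (L e) Ψ ≠ 0 := by
    intro h0
    refine hΨ (MvPolynomial.funext fun x => ?_)
    choose s hs' using fun i => hs i fun j => x (i, j)
    have h1 := hev e fun p => s p.1 p.2
    rw [h0, map_zero, ← hinv _ _ hs'] at h1
    rw [map_zero, h1]
    congr 2
    funext p
    simp
  obtain ⟨μ, hμ⟩ := ne_zero_iff.mp hne
  refine ⟨_, hμ, fun v hv B hB => ?_, fun v hv B hB => ?_⟩
  · have hna := isNonarchimedean v hv
    rw [rb_coeff_aeval]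
    refine rb_na_sum hna _ _ ((v.nonneg _).trans (hB 0)) fun α _ => ?_
    rw [map_mul]
    refine (mul_le_of_le_one_right (v.nonneg _) ?_).trans (hB α)
    exact RbInt.prod hna _ (fun s _ => (RbInt.lin hna _ _ fun l => he s.1 v hv l s.2).pow hna _) μ
  · have hB0 : 0 ≤ B := (v.nonneg _).trans (hB 0)
    let η : I → NNReal := fun i => ⟨Real.exp (C - c * H i), (Real.exp_pos _).le⟩
    have h1 : ∀ α ∈ Ψ.support, v (coeff α Ψ * coeff μ (∏ s, L (e - τ) s ^ α s)) ≤
        B * ∏ i, ((N + 1) * Real.exp (C - c * H i)) ^ ν i := fun α hα => by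
      rw [map_mul]
      refine mul_le_mul (hB α) ?_ (v.nonneg _) hB0
      have h2 := RbMaj.prod v univ (fun (s : I × g) _ =>
        (RbMaj.lin v (fun l => (e - τ) s.1 l s.2) (fun l => (s.1, l)) (η := η s.1)
          fun l => heτ s.1 v hv l s.2).pow v (α s)) μ
      refine h2.trans ((NNReal.coe_le_coe.mpr (rb_coeff_le_eval _ μ)).trans ?_)
      simp only [map_prod, map_pow, map_sum, map_mul, eval_C, eval_X, mul_one, sum_const, card_univ,
        Fintype.card_fin, nsmul_eq_mul]
      rw [Fintype.prod_prod_type]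
      push_cast
      refine prod_le_prod (fun i _ => by positivity) fun i _ => ?_
      simp only [prod_pow_eq_pow_sum, hν α hα i]
      refine pow_le_pow_left₀ (by positivity) ?_ _
      exact mul_le_mul_of_nonneg_right (by linarith) (Real.exp_pos _).le
    rw [heq, rb_coeff_aeval]
    refine (v.sum_le _ _).trans ((sum_le_card_nsmul _ _ _ h1).trans ?_)
    have h2 : (Ψ.support.card : ℝ) ≤ ∏ i, ((Fintype.card g : ℝ) + 1) ^ ν i := by
      refine le_trans (b := ∏ i, (Fintype.card g : ℝ) ^ ν i) (by exact_mod_cast rb_card ν Ψ hν) ?_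
      gcongr
      linarith
    have h3 : Real.exp (-∑ i, ν i *
        (c * H i - (C + Real.log (N + 1) + Real.log (Fintype.card g + 1)))) =
        (∏ i, ((Fintype.card g : ℝ) + 1) ^ ν i) *
          ∏ i, ((N + 1) * Real.exp (C - c * H i)) ^ ν i := by
      rw [← sum_neg_distrib, Real.exp_sum, ← prod_mul_distrib]
      refine prod_congr rfl fun i _ => ?_
      rw [← mul_neg, Real.exp_nat_mul, ← mul_pow]
      congr 1
      rw [show -(c * H i - (C + Real.log (N + 1) + Real.log (Fintype.card g + 1))) =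
        Real.log (Fintype.card g + 1) + (Real.log (N + 1) + (C - c * H i)) by ring,
        Real.exp_add, Real.exp_add, Real.exp_log (by positivity), Real.exp_log (by positivity)]
    rw [h3, nsmul_eq_mul, mul_comm B, ← mul_assoc]
    gcongr

/-- The conormal height bound. -/
theorem conormal_height (k : Type) [Field k] [NumberField k] (g : Type) [Fintype g] :
    ∃ c : ℝ, 0 < c ∧ ∃ C : ℝ, ∀ (I : Type) [Fintype I] (T : I → Submodule k (g → k)) (H : I → ℝ)
      (ν : I → ℕ) (Ψ : MvPolynomial (I × g) k), Ψ ≠ 0 →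
      (∀ α ∈ Ψ.support, ∀ i, ∑ j, α (i, j) = ν i) →
      (∀ i, ∀ τ ∈ T i, ∑ j, τ j • pderiv (i, j) Ψ = 0) →
      (∀ i (l : g → k), l ≠ 0 → (∀ τ ∈ T i, ∑ j, l j * τ j = 0) → H i ≤ logHeight l) →
      ∑ i, ν i * (c * H i - C) ≤ logHeight fun α : Ψ.support => coeff α.1 Ψ := by
  obtain ⟨c, hc, C, h⟩ := conormal_local k g
  have hn : (0 : ℝ) < totalWeight k := by exact_mod_cast totalWeight_pos k
  refine ⟨totalWeight k * c, by positivity, totalWeight k * C, fun I _ T H ν Ψ hΨ hν hT hH => ?_⟩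
  obtain ⟨β, hβ, h1, h2⟩ := h I T H ν Ψ hΨ hν hT hH
  have hs : ∀ (v : AbsoluteValue k ℝ) α, v (coeff α Ψ) ≤ ⨆ α : Ψ.support, v (coeff α.1 Ψ) := by
    intro v α
    by_cases hα : α ∈ Ψ.support
    · exact Finite.le_ciSup_of_le (f := fun α : Ψ.support => v (coeff α.1 Ψ)) ⟨α, hα⟩ le_rfl
    · rw [notMem_support_iff.mp hα, map_zero]
      exact Real.iSup_nonneg fun _ => v.nonneg _
  obtain ⟨α, hα⟩ := ne_zero_iff.mp hΨ
  have h3 := rb_ht_cmp (x := fun _ : Unit => β) (y := fun α : Ψ.support => coeff α.1 Ψ)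
    (fun h0 => hα (congrFun h0 ⟨α, mem_support_iff.mpr hα⟩)) (fun h0 => hβ (congrFun h0 ()))
    (Real.exp_pos _) (fun v hv _ => h2 v hv _ (hs v)) (fun v hv _ => h1 v hv _ (hs v))
  rw [logHeight_eq_zero_of_subsingleton (ι := Unit), Real.log_exp, mul_neg, mul_sum] at h3
  have h4 : ∑ i, (ν i : ℝ) * (totalWeight k * c * H i - totalWeight k * C) =
      ∑ i, totalWeight k * (ν i * (c * H i - C)) := sum_congr rfl fun i _ => by ring
  linarith

end Pool.Agent.Lib.MP_651af7_nt.Av
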