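import Pool.Agent.Lib.MP_651af7_nt.Av.ELam

/-! Engine: the differential equation. -/

namespace Pool.Agent.Lib.MP_651af7_nt.Av.AV

open Finset

variable {k ι O : Type} [Field k] [NumberField k] [Fintype ι] {B : AV k ι} {g r : ℕ}
  {ϱ : ι → MvPowerSeries (Fin g) k} {ξ : O → ι → MvPowerSeries (Fin r) k}
  {𝒳 𝒯 : O → B.Pt (RR k O r g)}

/-- `tang_rename`, `tang_zero`, `Tang.unique`. -/
theorem Par.cc_lam (hϱ : B.Par g ϱ) (hT : ∀ o, Rep (𝒯 o) (rh r ϱ o)) (o : O) (j : Fin g) (a : ι) :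
    MvPowerSeries.constantCoeff (lam (MvPowerSeries.pderiv k (.inr (o, j))) (𝒯 o) a) =
      lin ϱ j a := by
  have h := tang_rename (vT r o) (hT o) j
  simp only [hϱ.const] at h
  exact congrFun (Tang.unique (rep_zero (R := k)) h (tang_zero (hϱ.basis.mem j))) a

private theorem einv_span (hϱ : B.Par g ϱ) (hT : ∀ o, Rep (𝒯 o) (rh r ϱ o)) (o : O)
    {l : ι → RR k O r g} (hl : B.IsLie l) : ∃ w : Fin g → RR k O r g,
      l = ∑ j, w j • lam (MvPowerSeries.pderiv k (.inr (o, j))) (𝒯 o) := by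
  choose M hM using fun j => hϱ.basis.span _ _
    (lam_isLie (MvPowerSeries.pderiv k (.inr (o, j))) (𝒯 o))
  obtain ⟨t, ht⟩ := hϱ.basis.span _ _ hl
  have h1 : (MvPowerSeries.constantCoeff : RR k O r g →+* k).mapMatrix (Matrix.of M) = 1 := by
    ext j l
    have h2 := Fintype.linearIndependent_iff.mp hϱ.basis.indep
      (fun l => MvPowerSeries.constantCoeff (M j l) - (1 : Matrix (Fin g) (Fin g) k) j l) (by
        funext a
        have h3 := hϱ.cc_lam hT o j a
        rw [hM, map_sum] at h3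
        simp only [map_mul, ← cc_apply, AlgHom.commutes, Algebra.algebraMap_self,
          RingHom.id_apply] at h3
        simp only [Finset.sum_apply, Pi.smul_apply, smul_eq_mul, sub_mul, sum_sub_distrib,
          ← cc_apply, h3, Matrix.one_apply, ite_mul, one_mul, zero_mul, sum_ite_eq, mem_univ,
          if_true, sub_self, Pi.zero_apply]) l
    exact sub_eq_zero.mp h2
  have h2 : IsUnit (Matrix.of M).det := MvPowerSeries.isUnit_iff_constantCoeff.mpr (by
    rw [RingHom.map_det, h1, Matrix.det_one]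
    exact isUnit_one)
  refine ⟨Matrix.vecMul t (Matrix.of M)⁻¹, funext fun a => ?_⟩
  have h4 : Matrix.vecMul (Matrix.vecMul t (Matrix.of M)⁻¹) (Matrix.of M) = t := by
    rw [Matrix.vecMul_vecMul, Matrix.nonsing_inv_mul _ h2, Matrix.vecMul_one]
  rw [ht, Finset.sum_apply]
  simp only [Pi.smul_apply, smul_eq_mul, hM, mul_sum]
  rw [sum_comm]
  refine sum_congr rfl fun l _ => ?_
  rw [← congrFun h4 l, Matrix.vecMul, dotProduct, sum_mul]
  exact sum_congr rfl fun j _ => mul_assoc _ _ _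

/-- Sketch.  By `LieBasis.span`, `lam ∂ξ (𝒳 o) = ∑ τ l σ l` and `lam ∂T_j (𝒯 o) = ∑ M j l σ l`;
by `cc_lam` and the independence of `σ = lin ϱ` the constant term of `M` is `1`, so `M` is
invertible; `w = τ M⁻¹`, `cc w = cc τ`; `lam_sub_sum_der`, `lam_add`, `lam_rename_of_notMem`,
`tang_rename`. -/
theorem Par.exists_w (hϱ : B.Par g ϱ) (hX : ∀ o, Rep (𝒳 o) (xi g ξ o))
    (hT : ∀ o, Rep (𝒯 o) (rh r ϱ o)) (o : O) (a' : Fin r) : ∃ w : Fin g → RR k O r g,
      (∀ o', lam (MvPowerSeries.pderiv k (.inl (o, a')) -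
        ∑ j, w j • MvPowerSeries.pderiv k (.inr (o, j))) (𝒳 o' + 𝒯 o') = 0) ∧
      B.Tang (fun a => MvPowerSeries.constantCoeff (ξ o a)) (lin (ξ o) a')
        fun a => ∑ l, MvPowerSeries.constantCoeff (w l) * algebraMap k k (lin ϱ l a) := by
  obtain ⟨w, h1⟩ := einv_span hϱ hT o (lam_isLie (MvPowerSeries.pderiv k (.inl (o, a'))) (𝒳 o))
  refine ⟨w, fun o' => ?_, ?_⟩
  · have a1 : lam (MvPowerSeries.pderiv k (Sum.inl (o, a'))) (𝒯 o') = 0 :=
      lam_rename_of_notMem (vT r o') (hT o') fun ⟨_, e⟩ => Sum.inr_ne_inl e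
    have a2 : ∀ l, lam (MvPowerSeries.pderiv k (Sum.inr (o, l))) (𝒳 o') = 0 := fun l =>
      lam_rename_of_notMem (vX g o') (hX o') fun ⟨_, e⟩ => Sum.inl_ne_inr e
    rw [lam_sub_sum_der, lam_add, a1, add_zero]
    simp only [lam_add, a2, zero_add]
    by_cases h : o' = o
    · subst h
      exact sub_eq_zero.mpr h1
    · have a3 : lam (MvPowerSeries.pderiv k (Sum.inl (o, a'))) (𝒳 o') = 0 :=
        lam_rename_of_notMem (vX g o') (hX o')
          fun ⟨_, e⟩ => h (congrArg Prod.fst (Sum.inl_injective e))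
      have a4 : ∀ l, lam (MvPowerSeries.pderiv k (Sum.inr (o, l))) (𝒯 o') = 0 := fun l =>
        lam_rename_of_notMem (vT r o') (hT o')
          fun ⟨_, e⟩ => h (congrArg Prod.fst (Sum.inr_injective e))
      simp only [a3, a4, smul_zero, sum_const_zero, sub_self]
  · have h2 := tang_rename (vX g o) (hX o) a'
    have h3 : (fun a => ∑ l, MvPowerSeries.constantCoeff (w l) * algebraMap k k (lin ϱ l a)) =
        fun a => MvPowerSeries.constantCoeff
          (lam (MvPowerSeries.pderiv k (Sum.inl (o, a'))) (𝒳 o) a) := by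
      funext a
      rw [h1]
      simp only [Finset.sum_apply, Pi.smul_apply, smul_eq_mul, map_sum, map_mul, hϱ.cc_lam hT,
        Algebra.algebraMap_self, RingHom.id_apply]
    rw [h3]
    exact h2

end Pool.Agent.Lib.MP_651af7_nt.Av.AV
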