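import Pool.Agent.Lib.MP_651af7_nt.Av.Defs

/-! Extension of the field of coefficients of an ideal. -/

namespace Pool.Agent.Lib.MP_651af7_nt.Av

open MvPolynomial

theorem aeval_alg {F A B σ : Type*} [CommRing F] [CommRing A] [CommRing B] [Algebra F A]
    [Algebra A B] [Algebra F B] [IsScalarTower F A B] (x : σ → A) (P : MvPolynomial σ F) :
    aeval (fun a => algebraMap A B (x a)) P = algebraMap A B (aeval x P) :=
  aeval_algebraMap_apply B x P

theorem aeval_hom {F A B σ : Type*} [CommRing F] [CommRing A] [CommRing B] [Algebra F A]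
    [Algebra F B] (f : A →ₐ[F] B) (x : σ → A) (P : MvPolynomial σ F) :
    aeval (fun a => f (x a)) P = f (aeval x P) := by
  rw [← AlgHom.comp_apply, comp_aeval]

section cf

variable {F R σ : Type*} [Field F] [CommRing R] [Algebra F R]

/-- A linear functional applied to the coefficients. -/
noncomputable def cf (l : R →ₗ[F] F) (Q : MvPolynomial σ R) : MvPolynomial σ F :=
  ∑ m ∈ Q.support, monomial m (l (coeff m Q))

theorem coeff_cf (l : R →ₗ[F] F) (Q : MvPolynomial σ R) (m : σ →₀ ℕ) :
    coeff m (cf l Q) = l (coeff m Q) := by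
  classical
  simp only [cf, coeff_sum, coeff_monomial, Finset.sum_ite_eq']
  split_ifs with h
  · rfl
  · rw [notMem_support_iff.1 h, map_zero]

theorem cf_add (l : R →ₗ[F] F) (P Q : MvPolynomial σ R) : cf l (P + Q) = cf l P + cf l Q := by
  ext m
  simp [coeff_cf]

theorem cf_zero (l : R →ₗ[F] F) : cf l (0 : MvPolynomial σ R) = 0 := by
  ext m
  simp [coeff_cf]

theorem cf_mul_map (l : R →ₗ[F] F) (Q : MvPolynomial σ R) (P : MvPolynomial σ F) :
    cf l (Q * MvPolynomial.map (algebraMap F R) P) = cf l Q * P := by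
  classical
  ext m
  simp only [coeff_cf, coeff_mul, map_sum, coeff_map]
  refine Finset.sum_congr rfl fun x _ => ?_
  rw [mul_comm, ← Algebra.smul_def, map_smul, smul_eq_mul, mul_comm]

theorem eval_cf (l : R →ₗ[F] F) (Q : MvPolynomial σ R) (x : σ → F) :
    eval x (cf l Q) = l (eval (fun a => algebraMap F R (x a)) Q) := by
  rw [cf, map_sum, eval_eq, map_sum]
  refine Finset.sum_congr rfl fun m _ => ?_
  rw [eval_monomial, Finsupp.prod]
  simp only [← map_pow, ← map_prod]
  rw [mul_comm (coeff m Q), ← Algebra.smul_def, map_smul, smul_eq_mul, mul_comm]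

theorem exists_sum_cf {β : Type*} (b : Module.Basis β F R) (Q : MvPolynomial σ R) :
    ∃ T : Finset β, (∀ i ∉ T, cf (b.coord i) Q = 0) ∧
      Q = ∑ i ∈ T, C (b i) * MvPolynomial.map (algebraMap F R) (cf (b.coord i) Q) := by
  classical
  refine ⟨Q.support.biUnion fun m => (b.repr (coeff m Q)).support, fun i hi => ?_, ?_⟩
  · ext m
    rw [coeff_cf, coeff_zero]
    by_contra h
    refine hi (Finset.mem_biUnion.2 ⟨m, mem_support_iff.2 fun e => h (by rw [e, map_zero]), ?_⟩)
    exact Finsupp.mem_support_iff.2 h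
  ext m
  simp only [coeff_sum, coeff_C_mul, coeff_map, coeff_cf, Module.Basis.coord_apply]
  by_cases h : m ∈ Q.support
  · conv_lhs => rw [← b.linearCombination_repr (coeff m Q)]
    rw [Finsupp.linearCombination_apply, Finsupp.sum_of_support_subset _
      (Finset.subset_biUnion_of_mem (fun m => (b.repr (coeff m Q)).support) h) _ (by simp)]
    exact Finset.sum_congr rfl fun i _ => by rw [Algebra.smul_def, mul_comm]
  · simp [notMem_support_iff.1 h]

theorem mem_map_of_cf {J : Ideal (MvPolynomial σ F)} {Q : MvPolynomial σ R}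
    (h : ∀ l : R →ₗ[F] F, cf l Q ∈ J) : Q ∈ J.map (MvPolynomial.map (algebraMap F R)) := by
  obtain ⟨T, -, hT⟩ := exists_sum_cf (Module.Basis.ofVectorSpace F R) Q
  rw [hT]
  exact Ideal.sum_mem _ fun i _ => Ideal.mul_mem_left _ _ (Ideal.mem_map_of_mem _ (h _))

theorem cf_mem {J : Ideal (MvPolynomial σ F)} {Q : MvPolynomial σ R}
    (h : Q ∈ J.map (MvPolynomial.map (algebraMap F R))) (l : R →ₗ[F] F) : cf l Q ∈ J := by
  have key : ∀ S, cf l (S * Q) ∈ J := by
    refine Submodule.span_induction (p := fun Q _ => ∀ S, cf l (S * Q) ∈ J) ?_ ?_ ?_ ?_ h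
    · rintro _ ⟨P, hP, rfl⟩ S
      rw [cf_mul_map]
      exact J.mul_mem_left _ hP
    · intro S
      rw [mul_zero, cf_zero]
      exact J.zero_mem
    · intro x y _ _ hx hy S
      rw [mul_add, cf_add]
      exact J.add_mem (hx S) (hy S)
    · intro a x _ hx S
      rw [smul_eq_mul, ← mul_assoc]
      exact hx _
  simpa using key 1

theorem mem_of_map_mem [Nontrivial R] {J : Ideal (MvPolynomial σ F)} {P : MvPolynomial σ F}
    (h : MvPolynomial.map (algebraMap F R) P ∈ J.map (MvPolynomial.map (algebraMap F R))) :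
    P ∈ J := by
  obtain ⟨l, hl⟩ := (Algebra.linearMap F R).exists_leftInverse_of_injective
    (LinearMap.ker_eq_bot.2 (algebraMap F R).injective)
  have h1 := cf_mem h l
  have h2 : cf l (MvPolynomial.map (algebraMap F R) P) = P := by
    ext m
    rw [coeff_cf, coeff_map]
    exact LinearMap.congr_fun hl _
  rwa [h2] at h1

theorem aeval_of_mem_map {S : Type*} [CommRing S] [Algebra F S] [Algebra R S]
    [IsScalarTower F R S] {J : Ideal (MvPolynomial σ F)} {v : σ → S}
    (hv : ∀ P ∈ J, aeval v P = 0) :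
    ∀ Q ∈ J.map (MvPolynomial.map (algebraMap F R)), aeval v Q = 0 := by
  intro Q hQ
  have : J.map (MvPolynomial.map (algebraMap F R)) ≤ RingHom.ker (aeval (R := R) v) :=
    Ideal.map_le_iff_le_comap.2 fun P hP => by
      rw [Ideal.mem_comap, RingHom.mem_ker, aeval_map_algebraMap]
      exact hv P hP
  exact this hQ

theorem map_map_ideal {S : Type*} [CommRing S] [Algebra F S] [Algebra R S] [IsScalarTower F R S]
    (J : Ideal (MvPolynomial σ F)) :
    (J.map (MvPolynomial.map (algebraMap F R))).map (MvPolynomial.map (algebraMap R S)) =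
      J.map (MvPolynomial.map (algebraMap F S)) := by
  rw [Ideal.map_map]
  congr 1
  refine RingHom.ext fun P => ?_
  rw [RingHom.comp_apply, map_map, ← IsScalarTower.algebraMap_eq]

end cf

variable {k : Type} [Field k] {ι : Type}

theorem mem_of_vanish [Finite ι] {Ω : Type} [Field Ω] [IsAlgClosed Ω]
    {J : Ideal (MvPolynomial ι Ω)} (hJ : J.IsPrime) {P : MvPolynomial ι Ω}
    (h : ∀ x : ι → Ω, (∀ Q ∈ J, aeval x Q = 0) → eval x P = 0) : P ∈ J := by
  rw [← IsPrime.vanishingIdeal_zeroLocus (K := Ω) J]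
  intro x hx
  exact h x hx

theorem mem_map_of_vanish [Finite ι] {Ω R : Type} [Field Ω] [IsAlgClosed Ω] [CommRing R]
    [Algebra Ω R] {J : Ideal (MvPolynomial ι Ω)} (hJ : J.IsPrime) {P : MvPolynomial ι R}
    (h : ∀ x : ι → Ω, (∀ Q ∈ J, aeval x Q = 0) → eval (fun a => algebraMap Ω R (x a)) P = 0) :
    P ∈ J.map (MvPolynomial.map (algebraMap Ω R)) :=
  mem_map_of_cf fun l => mem_of_vanish hJ fun x hx => by rw [eval_cf, h x hx, map_zero]

theorem prime_up [Finite ι] {Ω M : Type} [Field Ω] [IsAlgClosed Ω] [Field M] [Algebra Ω M]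
    {J : Ideal (MvPolynomial ι Ω)} (hJ : J.IsPrime) :
    (J.map (MvPolynomial.map (algebraMap Ω M))).IsPrime := by
  have key : ∀ x : ι → Ω, (∀ Q ∈ J, aeval x Q = 0) →
      ∀ P ∈ J.map (MvPolynomial.map (algebraMap Ω M)),
        eval (fun a => algebraMap Ω M (x a)) P = 0 := fun x hx P hP =>
    aeval_of_mem_map (S := M) (v := fun a => algebraMap Ω M (x a)) (fun Q hQ => by
      rw [aeval_alg, hx Q hQ, map_zero]) P hP
  refine ⟨fun h => hJ.ne_top ?_, fun {P Q} hPQ => ?_⟩
  · rw [Ideal.eq_top_iff_one] at h ⊢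
    exact mem_of_map_mem (R := M) (by rwa [map_one])
  by_contra hn
  rw [not_or] at hn
  obtain ⟨l, hl⟩ := not_forall.1 (mt mem_map_of_cf hn.1)
  obtain ⟨l', hl'⟩ := not_forall.1 (mt mem_map_of_cf hn.2)
  refine (hJ.mem_or_mem (mem_of_vanish hJ fun x hx => ?_)).elim hl hl'
  have h := key x hx _ hPQ
  rw [map_mul, mul_eq_zero] at h
  rw [map_mul, eval_cf, eval_cf]
  rcases h with h | h <;> simp [h]

/-- An ideal that stays prime over one algebraically closed field stays prime over every field. -/
theorem prime_of_isAlgClosed [Finite ι] {I : Ideal (MvPolynomial ι k)} (Ω : Type) [Field Ω]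
    [IsAlgClosed Ω] [Algebra k Ω] (h : (I.map (MvPolynomial.map (algebraMap k Ω))).IsPrime)
    (M : Type) [Field M] [Algebra k M] :
    (I.map (MvPolynomial.map (algebraMap k M))).IsPrime := by
  obtain ⟨𝔪, h𝔪⟩ := Ideal.exists_maximal (TensorProduct k Ω M)
  let _ : Field (TensorProduct k Ω M ⧸ 𝔪) := Ideal.Quotient.field 𝔪
  let _ : Algebra M (TensorProduct k Ω M ⧸ 𝔪) := ((Ideal.Quotient.mk 𝔪).comp
    (Algebra.TensorProduct.includeRight (R := k) (A := Ω) (B := M)).toRingHom).toAlgebra
  have : IsScalarTower k M (TensorProduct k Ω M ⧸ 𝔪) := IsScalarTower.of_algebraMap_eq fun c =>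
    congrArg (Ideal.Quotient.mk 𝔪)
      ((Algebra.TensorProduct.includeRight (R := k) (A := Ω) (B := M)).commutes c).symm
  have h1 := prime_up (M := TensorProduct k Ω M ⧸ 𝔪) h
  rw [map_map_ideal, ← map_map_ideal (R := M)] at h1
  have h2 := h1.comap (MvPolynomial.map (algebraMap M (TensorProduct k Ω M ⧸ 𝔪)))
  have h3 : ∀ J : Ideal (MvPolynomial ι M), (J.map (MvPolynomial.map
      (algebraMap M (TensorProduct k Ω M ⧸ 𝔪)))).comap (MvPolynomial.map
      (algebraMap M (TensorProduct k Ω M ⧸ 𝔪))) = J := fun J =>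
    le_antisymm (fun P hP => mem_of_map_mem hP) Ideal.le_comap_map
  rwa [h3] at h2

theorem vanish_aux [Finite ι] {I : Ideal (MvPolynomial ι k)} (Ω : Type) [Field Ω]
    [IsAlgClosed Ω] [Algebra k Ω] (h : (I.map (MvPolynomial.map (algebraMap k Ω))).IsPrime)
    {J : Type} (P : MvPolynomial (J × ι) k)
    (hP : ∀ x : J → ι → Ω, (∀ j, ∀ Q ∈ I, aeval (x j) Q = 0) →
      aeval (fun s : J × ι => x s.1 s.2) P = 0)
    {R : Type} [CommRing R] [Algebra k R] [Algebra Ω R] [IsScalarTower k Ω R] (s : Finset J) :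
    ∀ v : J → ι → R, (∀ j, ∀ Q ∈ I, aeval (v j) Q = 0) →
      (∀ j ∉ s, ∃ x : ι → Ω, (∀ Q ∈ I, aeval x Q = 0) ∧ v j = fun a => algebraMap Ω R (x a)) →
      aeval (fun s : J × ι => v s.1 s.2) P = 0 := by
  classical
  induction s using Finset.induction_on with
  | empty =>
    intro v _ hv
    choose x hx hx' using fun j => hv j (Finset.notMem_empty j)
    have e : (fun s : J × ι => v s.1 s.2) = fun s => algebraMap Ω R (x s.1 s.2) :=
      funext fun s => by rw [hx']
    rw [e, aeval_alg, hP x hx, map_zero]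
  | insert j s _ ih =>
    intro v hv hs
    let Q : MvPolynomial ι R :=
      aeval (fun s : J × ι => if s.1 = j then X s.2 else C (v s.1 s.2)) P
    have hQ : ∀ w : ι → R, aeval w Q =
        aeval (fun s : J × ι => Function.update v j w s.1 s.2) P := by
      intro w
      change ((aeval w : MvPolynomial ι R →ₐ[R] R).restrictScalars k) Q = _
      rw [← AlgHom.comp_apply, comp_aeval]
      congr 2
      ext ⟨i, a⟩
      by_cases e : i = j
      · subst e
        simp
      · simp [e]
    have h1 : Q ∈ (I.map (MvPolynomial.map (algebraMap k Ω))).map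
        (MvPolynomial.map (algebraMap Ω R)) := by
      refine mem_map_of_vanish h fun x hx => ?_
      have hx' : ∀ S ∈ I, aeval x S = 0 := fun S hS => by
        rw [← aeval_map_algebraMap Ω]
        exact hx _ (Ideal.mem_map_of_mem _ hS)
      refine (hQ _).trans (ih _ (fun i => ?_) fun i hi => ?_)
      · by_cases e : i = j
        · subst e
          intro S hS
          rw [Function.update_self, aeval_alg, hx' S hS, map_zero]
        · rw [Function.update_of_ne e]
          exact hv i
      · by_cases e : i = j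
        · subst e
          exact ⟨x, hx', Function.update_self ..⟩
        · rw [Function.update_of_ne e]
          exact hs i (by simp [e, hi])
    rw [map_map_ideal] at h1
    have h2 := aeval_of_mem_map (S := R) (hv j) Q h1
    rwa [hQ, Function.update_eq_self] at h2

/-- A polynomial in several blocks of variables that vanishes on the zeros of `I` in an
algebraically closed field (in each block) vanishes on the zeros of `I` in every algebra. -/
theorem vanish [Finite ι] {I : Ideal (MvPolynomial ι k)} (Ω : Type) [Field Ω]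
    [IsAlgClosed Ω] [Algebra k Ω] (h : (I.map (MvPolynomial.map (algebraMap k Ω))).IsPrime)
    {J : Type} [Finite J] (P : MvPolynomial (J × ι) k)
    (hP : ∀ x : J → ι → Ω, (∀ j, ∀ Q ∈ I, aeval (x j) Q = 0) →
      aeval (fun s : J × ι => x s.1 s.2) P = 0)
    {R : Type} [CommRing R] [Algebra k R] (v : J → ι → R) (hv : ∀ j, ∀ Q ∈ I, aeval (v j) Q = 0) :
    aeval (fun s : J × ι => v s.1 s.2) P = 0 := by
  have := Fintype.ofFinite J
  let f := Algebra.TensorProduct.includeRight (R := k) (A := Ω) (B := R)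
  have hf : Function.Injective f :=
    Algebra.TensorProduct.includeRight_injective (algebraMap k Ω).injective
  apply hf
  rw [map_zero, ← aeval_hom]
  exact vanish_aux Ω h P hP Finset.univ (fun j a => f (v j a))
    (fun j Q hQ => by rw [aeval_hom, hv j Q hQ, map_zero]) fun j hj => absurd (Finset.mem_univ j) hj

end Pool.Agent.Lib.MP_651af7_nt.Av
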