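import Pool.Agent.Lib.MP_651af7_nt.Av.Tr
import Pool.Agent.Lib.MP_651af7_nt.Av.Lie
import Pool.Agent.Lib.MP_651af7_nt.Av.PtA

/-! Block G (the subgroup generated by a locus): density, codimension, tangent spaces. -/

namespace Pool.Agent.Lib.MP_651af7_nt.Av.AV

open MvPolynomial

set_option linter.unusedSectionVars false
set_option linter.unusedVariables false

section dense

variable {k ι F : Type} [Field k] [Field F] [Algebra k F] (B : AV k ι)

theorem geo_ph_hom {K : Type} [Field K] [Algebra k K] {v w : ι → MvPolynomial ι K} {s t : ℕ}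
    (hv : ∀ c, (v c).IsHomogeneous s) (hw : ∀ c, (w c).IsHomogeneous t) (a b : ι) :
    (B.ph a b v w).IsHomogeneous (s * 2 + t * 2) := by
  rw [ph, aeval_def, eval₂_eq]
  refine IsHomogeneous.sum _ _ _ fun m hm => ?_
  have h := B.bih a b (mem_support_iff.mp hm)
  rw [Finsupp.weight_apply, Finsupp.sum] at h
  have h1 := congrArg Prod.fst h
  have h2 := congrArg Prod.snd h
  rw [Prod.fst_sum] at h1
  rw [Prod.snd_sum] at h2
  rw [← zero_add (s * 2 + t * 2)]
  refine (isHomogeneous_C _ _).mul ?_
  have h3 : s * 2 + t * 2 =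
      ∑ i ∈ m.support, (s * (m i • bw ι ι i).1 + t * (m i • bw ι ι i).2) := by
    rw [Finset.sum_add_distrib, ← Finset.mul_sum, ← Finset.mul_sum, h1, h2]
  rw [h3]
  refine IsHomogeneous.prod _ _ _ ?_
  rintro (i | i) -
  · simpa [bw] using (hv i).pow (m (.inl i))
  · simpa [bw] using (hw i).pow (m (.inr i))

theorem geo_aeval_ph {K R : Type} [Field K] [Algebra k K] [CommRing R] [Algebra k R] [Algebra K R]
    [IsScalarTower k K R] (v w : ι → MvPolynomial ι K) (a b : ι → ι) (f : MvPolynomial ι k)
    (x : ι → R) : aeval x (aeval (fun c => B.ph (a c) (b c) v w) f) =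
      aeval (fun c => B.ph (a c) (b c) (fun e => aeval x (v e)) fun e => aeval x (w e)) f := by
  have h := aeval_hom ((aeval x : MvPolynomial ι K →ₐ[K] R).restrictScalars k)
    (fun c => B.ph (a c) (b c) v w) f
  simp only [map_ph] at h
  exact h.symm

/-- The point lies in the closure of the rational points. -/
def GeoZ (p : B.Pt F) : Prop :=
  ∀ (f : MvPolynomial ι k) (n : ℕ), f.IsHomogeneous n →
    (∀ P : B.Pt k, eval P.co f = 0) → aeval p.co f = 0

variable {B}

theorem geo_rep {p : B.Pt F} {v w : ι → F} (hv : Rep p v) (hw : Rep p w) {f : MvPolynomial ι k}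
    {n : ℕ} (hf : f.IsHomogeneous n) (h : aeval v f = 0) : aeval w f = 0 := by
  obtain ⟨u, hu⟩ := hv.exists_smul hw
  rw [show w = fun a => u * v a from funext hu, aeval_mul_of_hom hf, h, mul_zero]

/-- A form that vanishes at a difference vanishes at the values of the law. -/
theorem geo_sub_val {p q : B.Pt F} {x y : ι → F} (hx : Rep p x) (hy : Rep q y)
    {f : MvPolynomial ι k} {n : ℕ} (hf : f.IsHomogeneous n) (h : aeval (p - q).co f = 0) (a : ι) :
    aeval (fun c => B.ph a c x y) f = 0 := by
  obtain ⟨u, hu⟩ := law hx hy (rep_co _) (rep_co _)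
  have h1 : (fun c => B.ph a c x y) = fun c => (u * (p + q).co a) * (p - q).co c :=
    funext fun c => by rw [hu, mul_assoc]
  rw [h1, aeval_mul_of_hom hf, h, mul_zero]

theorem geoZ_map {F' : Type} [Field F'] [Algebra k F'] (i : F →ₐ[k] F') {p : B.Pt F}
    (h : B.GeoZ p) : B.GeoZ (B.map i p) := fun f n hf h0 =>
  geo_rep ((rep_co p).map i) (rep_co _) hf (by rw [aeval_hom, h f n hf h0, map_zero])

theorem geoZ_rat (P : B.Pt k) : B.GeoZ P := fun f _ _ h0 => h0 P

theorem geoZ_zero : B.GeoZ (0 : B.Pt F) := by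
  rw [← map_zero (B.map (Algebra.ofId k F))]
  exact geoZ_map _ (geoZ_rat 0)

/-- The forms over the big field that vanish at the rational points vanish on the closure. -/
theorem GeoZ.ext {p : B.Pt F} (h : B.GeoZ p) {g : MvPolynomial ι F} {n : ℕ}
    (hg : g.IsHomogeneous n) (h0 : ∀ P : B.Pt k, eval (fun a => algebraMap k F (P.co a)) g = 0) :
    aeval p.co g = 0 := by
  obtain ⟨T, -, hT⟩ := exists_sum_cf (Module.Basis.ofVectorSpace k F) g
  rw [hT, map_sum]
  refine Finset.sum_eq_zero fun i _ => ?_
  rw [map_mul, aeval_map_algebraMap, h _ n ?_ fun P => by rw [eval_cf, h0, map_zero], mul_zero]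
  intro m hm
  refine hg fun e => hm ?_
  rw [coeff_cf, e, map_zero]

theorem GeoZ.rat_sub {q : B.Pt F} (h : B.GeoZ q) (P : B.Pt k) :
    B.GeoZ (B.map (Algebra.ofId k F) P - q) := by
  intro f n hf h0
  have hP := (rep_co P).map (Algebra.ofId k F)
  obtain ⟨a, b, hu⟩ := exists_unit_ph hP (rep_co q)
  refine geo_rep (rep_sub hP (rep_co q) hu) (rep_co _) hf ?_
  have h1 := h (aeval (fun c => B.ph a c (fun e => C (P.co e)) (X : ι → MvPolynomial ι k)) f) _
    (hf.aeval _ fun c => B.geo_ph_hom (fun e => isHomogeneous_C _ _)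
      (fun e => isHomogeneous_X _ _) a c) fun Q => by
    refine (B.geo_aeval_ph _ _ (fun _ => a) (fun c => c) f Q.co).trans ?_
    simp only [aeval_C, aeval_X, Algebra.algebraMap_self, RingHom.id_apply]
    exact geo_sub_val (rep_co P) (rep_co Q) hf (h0 _) a
  rw [B.geo_aeval_ph _ _ (fun _ => a) (fun c => c) f q.co] at h1
  simp only [aeval_C, aeval_X] at h1
  exact h1

theorem GeoZ.sub {p q : B.Pt F} (hp : B.GeoZ p) (hq : B.GeoZ q) : B.GeoZ (p - q) := by
  intro f n hf h0
  obtain ⟨a, b, hu⟩ := exists_unit_ph (rep_co p) (rep_co q)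
  refine geo_rep (rep_sub (rep_co p) (rep_co q) hu) (rep_co _) hf ?_
  have h1 := hp.ext
    (g := aeval (fun c => B.ph a c (X : ι → MvPolynomial ι F) fun e => C (q.co e)) f)
    (hf.aeval _ fun c => B.geo_ph_hom (fun e => isHomogeneous_X _ _)
      (fun e => isHomogeneous_C _ _) a c) fun Q => by
    refine (B.geo_aeval_ph _ _ (fun _ => a) (fun c => c) f _).trans ?_
    simp only [aeval_C, aeval_X, Algebra.algebraMap_self, RingHom.id_apply]
    exact geo_sub_val ((rep_co Q).map (Algebra.ofId k F)) (rep_co q) hf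
      (hq.rat_sub Q f n hf h0) a
  rw [B.geo_aeval_ph _ _ (fun _ => a) (fun c => c) f p.co] at h1
  simpa only [aeval_C, aeval_X, Algebra.algebraMap_self, RingHom.id_apply] using h1

theorem GeoZ.add {p q : B.Pt F} (hp : B.GeoZ p) (hq : B.GeoZ q) : B.GeoZ (p + q) := by
  have h := hp.sub (geoZ_zero.sub hq)
  rwa [zero_sub, sub_neg_eq_add] at h

theorem geo_rat_map {F' : Type} [Field F'] [Algebra k F'] (i : F →ₐ[k] F') (p : B.Pt F) :
    rat (B.map i p).co = i '' rat p.co := by
  obtain ⟨u, hu⟩ := ((rep_co p).map i).exists_smul (rep_co _)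
  rw [show (B.map i p).co = fun a => u * i (p.co a) from funext hu, td_rat_smul u.ne_zero, rat, rat,
    ← Set.range_comp]
  congr 1
  ext q
  simp

end dense

variable {k ι K E : Type} [Field k] [CharZero k] [Fintype ι] [Field K] [Field E] [Algebra k K]
  [Algebra k E] [Algebra K E] [IsScalarTower k K E]

/-- G2. If `y` lies in the closure of the rational points, these are dense. -/
theorem dense_of_gens (B : AV k ι) {y : B.Pt E} (hy : B.Gens K y)
    (h : ∀ (f : MvPolynomial ι k) (n : ℕ), f.IsHomogeneous n →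
      (∀ P : B.Pt k, eval P.co f = 0) → aeval y.co f = 0) : B.Dense := by
  obtain ⟨F, _, _, _, _, N, i, i', hg⟩ := hy
  have h1 : B.GeoZ
      (∑ l, (B.map ((i l).restrictScalars k) y - B.map ((i' l).restrictScalars k) y)) :=
    Finset.sum_induction _ B.GeoZ (fun _ _ => GeoZ.add) geoZ_zero fun l _ =>
      (geoZ_map _ h).sub (geoZ_map _ h)
  intro f n hf h0
  refine (B.mem_IK_iff (K := K)).1 (hg _ n (hf.map _) ?_)
  rw [aeval_map_algebraMap]
  exact h1 f n hf h0

/-- G3. The translate of a subvariety of codimension two meets `B` in codimension two. -/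
theorem codim {A B : AV k ι} (h : Sub A B) (hE : RelCl K E) {x : A.Pt E} (hx : Gen A.I x.co)
    {a : A.Pt K} (hxa : x - A.map (IsScalarTower.toAlgHom k K E) a ∈ (h.inc E).range)
    {J : Type} (G : J → MvPolynomial ι k) {d : ℕ} (hG : ∀ j, (G j).IsHomogeneous d)
    (hc : 2 ≤ ((Ideal.span (Set.range G)).map (Ideal.Quotient.mk A.I)).height)
    (F : Type) [Field F] [Algebra k F] [Algebra K F] [IsScalarTower k K F] (w : ι → F)
    (h0 : w ≠ 0) (hw : ∀ f ∈ B.I, aeval w f = 0)
    (hG0 : ∀ j b, aeval w (A.shift a.co (G j) b) = 0) : td K (rat w) + 2 ≤ B.dim := by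
  have : CharZero K := charZero_of_injective_algebraMap (algebraMap k K).injective
  obtain ⟨y, hy⟩ := hxa
  obtain ⟨W, hW⟩ := exists_rep (A := B) (v := w)
    ((Function.ne_iff.1 h0).imp fun _ e => Ne.isUnit e) hw
  let aF := A.map (IsScalarTower.toAlgHom k K F) a
  let p := h.inc F W + aF
  -- the forms vanish at `p`
  have h1 : td k (rat p.co) + 2 ≤ A.dim := by
    have ha := (rep_co a).map (IsScalarTower.toAlgHom k K F)
    obtain ⟨c, b, hu⟩ := exists_unit_ph (h.rep_inc hW) ha
    have hp := rep_add (h.rep_inc hW) ha hu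
    rw [A.tr_rat_rep hp]
    refine A.td_of_height G hG hc (Function.ne_iff.2 ⟨c, hu.ne_zero⟩) hp.zero fun j => ?_
    have h2 := hG0 j b
    rw [shift, A.geo_aeval_ph _ _ (fun c => c) (fun _ => b) (G j) w] at h2
    simp only [aeval_C, aeval_X] at h2
    exact h2
  -- translation by a point over `K` keeps the degree
  have h2 : td K (rat w) ≤ td K (rat p.co) := by
    have e : h.inc F W = p - aF := (add_sub_cancel_right _ _).symm
    rw [← A.tr_rat_rep (h.rep_inc hW), e]
    refine (tr_td_le (A.rat_add_sub p aF).2).trans ((td_union_le _ _).trans ?_)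
    rw [A.td_map a, add_zero]
  have h3 : td k (rat x.co) = A.dim := by
    refine (A.gen_iff (K := k) (Function.ne_iff.2
      ((rep_co x).unit.imp fun _ e => e.ne_zero)) (rep_co x).zero).1 fun f n hf e => ?_
    have h4 := (A.mem_IK_iff (K := k)).2 (hx f n hf e)
    rwa [Algebra.algebraMap_self, MvPolynomial.map_id] at h4
  obtain ⟨M, _, _, i, i', hi⟩ := exists_join hE F
  let _ : Algebra k M := ((algebraMap K M).comp (algebraMap k K)).toAlgebra
  have : IsScalarTower k K M := .of_algebraMap_eq fun _ => rfl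
  let _ : Algebra E M := i.toRingHom.toAlgebra
  have : IsScalarTower K E M := .of_algebraMap_eq fun c => (i.commutes c).symm
  have : IsScalarTower k E M := .of_algebraMap_eq fun c =>
    ((i.restrictScalars k).commutes c).symm
  let x' := A.map (i.restrictScalars k) x
  let p' := A.map (i'.restrictScalars k) p
  let z := B.map (i.restrictScalars k) y - B.map (i'.restrictScalars k) W
  have ex : rat x'.co = i '' rat x.co := geo_rat_map _ _
  have ep : rat p'.co = i' '' rat p.co := geo_rat_map _ _
  have ez : x' = p' + h.inc M z := by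
    have e1 : x = h.inc E y + A.map (IsScalarTower.toAlgHom k K E) a := by
      rw [hy, sub_add_cancel]
    have e2 : A.map (i.restrictScalars k) (A.map (IsScalarTower.toAlgHom k K E) a) =
        A.map (i'.restrictScalars k) aF := by
      rw [map_map, map_map]
      exact map_congr (rep_co a) fun c => (i.commutes _).trans (i'.commutes _).symm
    have e3 := h.inc_map (i.restrictScalars k) y
    have e4 := h.inc_map (i'.restrictScalars k) W
    change A.map (i.restrictScalars k) x = A.map (i'.restrictScalars k) (h.inc F W + aF) +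
      h.inc M (B.map (i.restrictScalars k) y - B.map (i'.restrictScalars k) W)
    rw [map_sub, e3, e4, e1, map_add, map_add, e2]
    change A.map (i.restrictScalars k) (h.inc E y) + _ =
      A.map (i'.restrictScalars k) (h.inc F W) + _ +
        (A.map (i.restrictScalars k) (h.inc E y) - A.map (i'.restrictScalars k) (h.inc F W))
    abel
  have h4 : td k (rat (h.inc M z).co) ≤ B.dim := by
    rw [A.tr_rat_rep (h.rep_inc (rep_co z))]
    exact B.td_le_dim (rep_co z).zero
  have h5 : td k (rat x'.co ∪ rat p'.co) ≤ td k (rat p.co) + B.dim := by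
    refine (tr_td_le (S := rat p'.co ∪ rat (h.inc M z).co) (Set.union_subset ?_ ?_)).trans
      ((td_union_le _ _).trans (add_le_add ?_ h4))
    · rw [ez]
      exact (A.rat_add_sub _ _).1
    · exact Set.subset_union_left.trans (Matroid.subset_closure _ _ (Set.subset_univ _))
    · rw [ep]
      exact (td_image (i'.restrictScalars k) _).le
  have h6 : A.dim + td K (rat p.co) ≤ td k (rat x'.co ∪ rat p'.co) := by
    refine le_trans (le_of_eq ?_) (td_add_le (M := E) ?_)
    · rw [ex, ep, td_join i' hi, ← h3]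
      exact congrArg (· + _) (td_image (i.restrictScalars k) _).symm
    · rw [ex]
      rintro _ ⟨c, -, rfl⟩
      exact ⟨c, rfl⟩
  have h7 : (A.dim : ℕ∞) + (td K (rat w) + 2) ≤ A.dim + B.dim :=
    calc (A.dim : ℕ∞) + (td K (rat w) + 2) = A.dim + td K (rat w) + 2 := by rw [add_assoc]
      _ ≤ A.dim + td K (rat p.co) + 2 := by gcongr
      _ ≤ td k (rat p.co) + B.dim + 2 := add_le_add (h6.trans h5) le_rfl
      _ = td k (rat p.co) + 2 + B.dim := add_right_comm _ _ _
      _ ≤ _ := by gcongr
  exact (ENat.add_le_add_iff_left (ENat.natCast_ne_top _)).1 h7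

theorem geo_tang_sum {B : AV k ι} {F J : Type} [Field F] [Algebra k F] {P : B.Pt F} {x : ι → F}
    (h : Rep P x) (s : Finset J) (c : J → F) {v l : J → ι → F}
    (hv : ∀ j ∈ s, B.Tang x (v j) (l j)) :
    B.Tang x (∑ j ∈ s, c j • v j) (∑ j ∈ s, c j • l j) := by
  classical
  induction s using Finset.induction_on with
  | empty => simpa using tang_self h 0
  | insert j s hj ih =>
    rw [Finset.sum_insert hj, Finset.sum_insert hj]
    exact Tang.add h (Tang.smul h (hv j (Finset.mem_insert_self _ _)) _)
      (ih fun t ht => hv t (Finset.mem_insert_of_mem ht))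

/-- A derivation moves a point of the chart in a direction tangent to the chart. -/
theorem geo_der {r : ℕ} (C : Chart K ι r) {w : ι → E} (hC : C.At w) {v : Fin r → ι → E}
    (hv : ∀ j, C.Tv w j (v j)) {F : Type} [Field F] [Algebra K F] (D : Derivation K F F)
    (e : E →ₐ[K] F) :
    (fun a => D (e (w a))) = ∑ j, D (e (w (C.I j))) • fun a => e (v j a) := by
  classical
  have h1 : ∀ l, D (e (w (C.I l))) = ∑ j, D (e (w (C.I j))) * e (v j (C.I l)) := fun l => by
    simp only [(hv _).1, apply_ite e, map_one, map_zero, mul_ite, mul_one, mul_zero,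
      Finset.sum_ite_eq, Finset.mem_univ, if_true]
  funext a
  rw [Finset.sum_apply]
  simp only [Pi.smul_apply, smul_eq_mul]
  by_cases ha : a ∈ Set.range C.I
  · obtain ⟨l, rfl⟩ := ha
    exact h1 l
  obtain ⟨h2, h3⟩ := hC a ha
  have h4 : ∑ b, e (aeval w (pderiv b (C.φ a))) * D (e (w b)) = 0 := by
    have h5 := dP_der D D.map_algebraMap (fun b => e (w b)) (C.φ a)
    rw [dP_eq_sum, aeval_hom e w (C.φ a), h2, map_zero, map_zero] at h5
    simpa only [aeval_hom] using h5
  have h5 : ∑ b, e (aeval w (pderiv b (C.φ a))) * ∑ j, D (e (w (C.I j))) * e (v j b) = 0 := by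
    simp only [Finset.mul_sum]
    rw [Finset.sum_comm]
    refine Finset.sum_eq_zero fun j _ => ?_
    have h6 := congrArg (fun t => D (e (w (C.I j))) * e t) ((hv j).2 a ha)
    simp only [map_zero, mul_zero, map_sum, map_mul, Finset.mul_sum] at h6
    rw [← h6]
    exact Finset.sum_congr rfl fun b _ => by ring
  have h6 : ∑ b, e (aeval w (pderiv b (C.φ a))) *
      (D (e (w b)) - ∑ j, D (e (w (C.I j))) * e (v j b)) = 0 := by
    simp only [mul_sub, Finset.sum_sub_distrib, h4, h5, sub_zero]
  rw [Finset.sum_eq_single a (fun b _ hb => ?_) (by simp)] at h6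
  · exact sub_eq_zero.1 ((mul_eq_zero.1 h6).resolve_left (h3.map e).ne_zero)
  by_cases hb' : b ∈ Set.range C.I
  · obtain ⟨l, rfl⟩ := hb'
    rw [← h1, sub_self, mul_zero]
  · rw [pderiv_eq_zero_of_notMem_vars fun hm => ?_, map_zero, map_zero, zero_mul]
    obtain ⟨μ, hμ, hb''⟩ := (mem_vars_iff_mem_support _).1 hm
    exact (C.supp a μ hμ b (Finsupp.mem_support_iff.1 hb'')).elim hb hb'

/-- G4. No nonzero covector over `K` kills the tangent space of a generating locus. -/
theorem kills_eq_zero (B : AV k ι) {σ : Fin B.dim → ι → k} (hσ : B.LieBasis σ) {y : B.Pt E}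
    (hy : B.Gens K y) {r : ℕ} (C : Chart K ι r) {w : ι → E} (hw : Rep y w) (hC : C.At w)
    (ℓ : Fin B.dim → K) (h : B.Kills σ C w fun l => algebraMap K E (ℓ l)) : ℓ = 0 := by
  classical
  have : CharZero K := charZero_of_injective_algebraMap (algebraMap k K).injective
  obtain ⟨F, _, _, _, _, N, i, i', hg⟩ := hy
  choose v τ hv hτ hℓ using h
  -- the comparison maps
  let L : (Fin B.dim → F) →ₗ[F] ι → F :=
    Fintype.linearCombination F fun l a => algebraMap k F (σ l a)
  let m : (Fin B.dim → F) →ₗ[F] F := Fintype.linearCombination F fun l => algebraMap K F (ℓ l)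
  let S : Submodule F (ι → F) := (LinearMap.ker m).map L
  have key : ∀ (D : Derivation K F F) (e : E →ₐ[K] F),
      lam (D.restrictScalars k) (B.map (e.restrictScalars k) y) ∈ S := by
    intro D e
    have hw' := hw.map (e.restrictScalars k)
    have h1 := geo_tang_sum hw' Finset.univ (fun j => D (e (w (C.I j))))
      fun j _ => (hτ j).map (e.restrictScalars k)
    have h2 := lam_tang (D.restrictScalars k) hw'
    have h3 := geo_der C hC hv D e
    change B.Tang _ (fun a => D (e (w a))) _ at h2
    rw [h3] at h2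
    rw [Tang.unique hw' h2 h1]
    refine S.sum_mem fun j _ => S.smul_mem _ ⟨fun l => e (τ j l), ?_, ?_⟩
    · have h4 := congrArg e (hℓ j)
      rw [map_zero, map_sum] at h4
      change ∑ l, e (τ j l) • algebraMap K F (ℓ l) = 0
      rw [← h4]
      exact Finset.sum_congr rfl fun l _ => by rw [map_mul, e.commutes, smul_eq_mul, mul_comm]
    · funext a
      change (∑ l, e (τ j l) • fun a => algebraMap k F (σ l a)) a =
        (e.restrictScalars k) (∑ l, τ j l * algebraMap k E (σ l a))
      rw [map_sum, Finset.sum_apply]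
      exact Finset.sum_congr rfl fun l _ => by
        rw [map_mul, AlgHom.commutes]
        rfl
  set z := ∑ l, (B.map ((i l).restrictScalars k) y - B.map ((i' l).restrictScalars k) y) with hz
  have key' : ∀ D : Derivation K F F, lam (D.restrictScalars k) z ∈ S := fun D => by
    rw [hz, lam_sum]
    refine S.sum_mem fun l _ => ?_
    rw [lam_sub]
    exact S.sub_mem (key D _) (key D _)
  obtain ⟨b, hb⟩ := (rep_co z).unit
  have hx := (rep_co z).smul hb.inv
  have h1 : td K (Set.range fun a => (z.co b)⁻¹ * z.co a) = B.dim := by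
    rw [← td_rat_eq hb.ne_zero]
    exact (B.gen_iff (Function.ne_iff.2 ⟨b, hb.ne_zero⟩) (rep_co z).zero).1 hg
  have hb1 : (fun a => (z.co b)⁻¹ * z.co a) b = 1 := inv_mul_cancel₀ hb.ne_zero
  generalize (fun a => (z.co b)⁻¹ * z.co a) = x at hx h1 hb1
  obtain ⟨s, j, hj, hi, hc, -⟩ := exists_td_basis_range K x
  have : Finite s := Finite.of_injective j hj
  have := Fintype.ofFinite s
  choose D hD using fun t : s => exists_derivation hi (Pi.single t 1)
  choose c hc0 hc1 using fun t : s => key' (D t)
  have h2 : LinearIndependent F c := by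
    refine LinearIndependent.of_comp L (Fintype.linearIndependent_iff.2 fun g hg t => ?_)
    have h3 := geo_tang_sum hx Finset.univ g fun t _ => lam_tang ((D t).restrictScalars k) hx
    simp only [← hc1] at h3
    change B.Tang _ _ (∑ t, g t • (L ∘ c) t) at h3
    rw [hg] at h3
    obtain ⟨u, hu⟩ := Tang.eq_smul hx h3
    have h4 := congrFun hu b
    have h5 := congrFun hu (j t)
    simp only [Finset.sum_apply, Pi.smul_apply, smul_eq_mul, Derivation.restrictScalars_apply]
      at h4 h5
    simp only [hb1, Derivation.map_one_eq_zero, mul_zero, Finset.sum_const_zero, mul_one] at h4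
    have h6 : ∀ t', D t' (x (j t)) = (Pi.single t' 1 : s → F) t := fun t' => hD t' t
    simpa [h6, ← h4, Pi.single_apply] using h5
  have h3 : Fintype.card s = Module.finrank F (Fin B.dim → F) := by
    rw [h1, ENat.card_eq_coe_fintype_card] at hc
    simpa using hc
  have h4 : LinearMap.ker m = ⊤ := by
    rw [eq_top_iff, ← h2.span_eq_top_of_card_eq_finrank' h3, Submodule.span_le]
    rintro _ ⟨t, rfl⟩
    exact hc0 t
  funext l
  have h5 : m (Pi.single l 1) = 0 := LinearMap.mem_ker.1 (h4 ▸ Submodule.mem_top)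
  rw [Fintype.linearCombination_apply_single, one_smul] at h5
  exact (algebraMap K F).injective (h5.trans (map_zero _).symm)

end Pool.Agent.Lib.MP_651af7_nt.Av.AV
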