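import Pool.Agent.Lib.MP_651af7_nt.Av.Lie

/-! Block P: existence of branches and their first order terms. -/

namespace Pool.Agent.Lib.MP_651af7_nt.Av

open MvPolynomial

/-- Hensel's lemma for a polynomial that need not be monic. -/
theorem par_hensel {R : Type*} [CommRing R] (I : Ideal R) [IsAdicComplete I R] (f : Polynomial R)
    (a₀ : R) (h₁ : f.eval a₀ ∈ I) (h₂ : IsUnit (f.derivative.eval a₀)) :
    ∃ a : R, f.eval a = 0 ∧ a - a₀ ∈ I := by
  obtain ⟨u, hu⟩ := h₂.exists_right_inv
  let c : ℕ → R := fun n => Nat.recOn n a₀ fun _ b => b - f.eval b * u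
  have hc : ∀ n, c (n + 1) = c n - f.eval (c n) * u := fun _ => rfl
  have h1 : ∀ n, c n - a₀ ∈ I ∧ f.eval (c n) ∈ I ^ (n + 1) := by
    intro n
    induction n with
    | zero => exact ⟨by simp [c], by simpa [c] using h₁⟩
    | succ n ih =>
      have h2 : f.eval (c n) ∈ I := Ideal.pow_le_self n.succ_ne_zero ih.2
      refine ⟨?_, ?_⟩
      · rw [hc, sub_right_comm]
        exact sub_mem ih.1 (I.mul_mem_right _ h2)
      obtain ⟨e, he⟩ := Polynomial.binomExpansion f (c n) (-(f.eval (c n) * u))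
      obtain ⟨e', he'⟩ := Polynomial.evalSubFactor f.derivative (c n) a₀
      have h3 : f.eval (c (n + 1)) =
          f.eval (c n) * (u * (e * u * f.eval (c n) - e' * (c n - a₀))) := by
        rw [hc, sub_eq_add_neg, he]
        linear_combination (-(f.eval (c n) * u)) * he' - f.eval (c n) * hu
      rw [h3, pow_succ]
      exact Ideal.mul_mem_mul ih.2 (I.mul_mem_left _
        (sub_mem (I.mul_mem_left _ h2) (I.mul_mem_left _ ih.1)))
  have h2 : ∀ m n, m ≤ n → c m ≡ c n [SMOD (I ^ m • ⊤ : Ideal R)] := by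
    intro m n hmn
    rw [smul_eq_mul, Ideal.mul_top]
    induction n, hmn using Nat.le_induction with
    | base => rfl
    | succ n hn ih =>
      refine ih.trans (SModEq.sub_mem.2 ?_)
      rw [hc, sub_sub_cancel]
      exact Ideal.mul_mem_right _ _ (Ideal.pow_le_pow_right (hn.trans n.le_succ) (h1 n).2)
  obtain ⟨a, ha⟩ := IsPrecomplete.prec' c (h2 _ _)
  simp only [smul_eq_mul, Ideal.mul_top] at ha
  refine ⟨a, IsHausdorff.haus' (I := I) _ fun n => ?_, ?_⟩
  · rw [smul_eq_mul, Ideal.mul_top]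
    refine ((ha n).symm.eval f).trans (SModEq.zero.2 ?_)
    exact Ideal.pow_le_pow_right n.le_succ (h1 n).2
  · have h3 := SModEq.sub_mem.1 (ha 1).symm
    rw [pow_one] at h3
    simpa using add_mem h3 (h1 1).1

variable {k ι : Type} [Field k] {r : ℕ}

/-- The constant term. -/
noncomputable def parEps (k : Type) [Field k] (r : ℕ) : MvPowerSeries (Fin r) k →ₐ[k] k where
  toRingHom := MvPowerSeries.constantCoeff
  commutes' c := by simp [MvPowerSeries.algebraMap_apply]

theorem parEps_apply (u : MvPowerSeries (Fin r) k) :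
    parEps k r u = MvPowerSeries.constantCoeff u := rfl

theorem par_map_aeval {σ R R' : Type} [CommRing R] [CommRing R'] [Algebra k R] [Algebra k R']
    (g : R →ₐ[k] R') (x : σ → R) (f : MvPolynomial σ k) :
    g (aeval x f) = aeval (fun a => g (x a)) f := by
  rw [← AlgHom.comp_apply, comp_aeval]

theorem par_const_aeval {σ : Type} {x : σ → k} {ξ : σ → MvPowerSeries (Fin r) k}
    (h : ∀ a, MvPowerSeries.constantCoeff (ξ a) = x a) (f : MvPolynomial σ k) :
    MvPowerSeries.constantCoeff (aeval ξ f) = aeval x f := by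
  rw [← parEps_apply, par_map_aeval]
  simp only [parEps_apply, h]

theorem par_coeff_single (j : Fin r) (u : MvPowerSeries (Fin r) k) :
    MvPowerSeries.coeff (Finsupp.single j 1) u =
      MvPowerSeries.constantCoeff (MvPowerSeries.pderiv k j u) := by
  rw [← MvPowerSeries.coeff_zero_eq_constantCoeff_apply, MvPowerSeries.coeff_pderiv]
  simp

/-- The first order term in the direction `j`. -/
noncomputable def parJet (j : Fin r) : MvPowerSeries (Fin r) k →ₐ[k] DualNumber k where
  toFun u := TrivSqZeroExt.inl (MvPowerSeries.constantCoeff u) +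
    TrivSqZeroExt.inr (MvPowerSeries.coeff (Finsupp.single j 1) u)
  map_one' := by ext <;> simp [par_coeff_single]
  map_mul' u u' := by
    ext
    · simp
    · simp [par_coeff_single, Derivation.leibniz, mul_comm]
  map_zero' := by simp
  map_add' u u' := by ext <;> simp
  commutes' c := by
    ext <;> simp [par_coeff_single, MvPowerSeries.algebraMap_apply, TrivSqZeroExt.algebraMap_eq_inl]

theorem parJet_dv {x : ι → k} {ξ : ι → MvPowerSeries (Fin r) k}
    (h : ∀ a, MvPowerSeries.constantCoeff (ξ a) = x a) (j : Fin r) :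
    (fun a => parJet j (ξ a)) = dv x (lin ξ j) := by
  funext a
  rw [dv, ← h]
  rfl

theorem par_dv_zero {x : ι → k} {ξ : ι → MvPowerSeries (Fin r) k}
    (h : ∀ a, MvPowerSeries.constantCoeff (ξ a) = x a) (j : Fin r) {f : MvPolynomial ι k}
    (hf : aeval ξ f = 0) : aeval (dv x (lin ξ j)) f = 0 := by
  rw [← parJet_dv h, ← par_map_aeval, hf, map_zero]

theorem Chart.pderiv_eq_zero (C : Chart k ι r) {a b : ι} (h : b ≠ a) (hb : b ∉ Set.range C.I) :
    pderiv b (C.φ a) = 0 := by
  classical
  refine pderiv_eq_zero_of_notMem_vars fun hv => ?_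
  obtain ⟨μ, hμ, h1⟩ := (mem_vars_iff_mem_support b).1 hv
  exact (C.supp a μ hμ b (Finsupp.mem_support_iff.1 h1)).elim h hb

theorem par_eval_update [DecidableEq ι] {R : Type} [CommRing R] [Algebra k R] (z : ι → R) (a : ι)
    (f : MvPolynomial ι k) : ∃ p : Polynomial R, ∀ y,
      p.eval y = aeval (Function.update z a y) f ∧
      p.derivative.eval y = aeval (Function.update z a y) (pderiv a f) := by
  induction f using MvPolynomial.induction_on with
  | C c => exact ⟨Polynomial.C (algebraMap k R c), fun y => by simp⟩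
  | add f g hf hg =>
    obtain ⟨p, hp⟩ := hf
    obtain ⟨q, hq⟩ := hg
    exact ⟨p + q, fun y => by simp [hp, hq]⟩
  | mul_X f b hf =>
    obtain ⟨p, hp⟩ := hf
    by_cases hb : b = a
    · subst hb
      exact ⟨p * Polynomial.X, fun y => by simp [hp, mul_comm, add_comm]⟩
    · exact ⟨p * Polynomial.C (z b), fun y => by simp [hp, hb, mul_comm]⟩

theorem Chart.exists_br (C : Chart k ι r) {x : ι → k} (h : C.At x) : ∃ ξ, C.Br x ξ := by
  classical
  let J : Ideal (MvPowerSeries (Fin r) k) := Ideal.span (Set.range MvPowerSeries.X)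
  let z : ι → MvPowerSeries (Fin r) k := fun a => MvPowerSeries.C (x a) +
    ∑ j, if C.I j = a then MvPowerSeries.X j else 0
  have hJ : ∀ u ∈ J, MvPowerSeries.constantCoeff u = 0 := by
    have h1 : J ≤ RingHom.ker MvPowerSeries.constantCoeff := Ideal.span_le.2 (by
      rintro _ ⟨j, rfl⟩
      exact MvPowerSeries.constantCoeff_X j)
    exact h1
  have hz : ∀ a, z a - MvPowerSeries.C (x a) ∈ J := fun a => by
    rw [add_sub_cancel_left]
    refine sum_mem fun j _ => ?_
    split_ifs
    exacts [Ideal.subset_span ⟨j, rfl⟩, zero_mem _]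
  have hc : ∀ {u : MvPowerSeries (Fin r) k} {c : k}, u - MvPowerSeries.C c ∈ J →
      MvPowerSeries.constantCoeff u = c := fun hu => by simpa [sub_eq_zero] using hJ _ hu
  have key : ∀ a, ∃ y, y - z a ∈ J ∧ (a ∈ Set.range C.I → y = z a) ∧
      (a ∉ Set.range C.I → aeval (Function.update z a y) (C.φ a) = 0) := by
    intro a
    by_cases ha : a ∈ Set.range C.I
    · exact ⟨z a, by simp, fun _ => rfl, fun h' => absurd ha h'⟩
    obtain ⟨p, hp⟩ := par_eval_update z a (C.φ a)
    obtain ⟨y, h1, h2⟩ := par_hensel J p (z a) (by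
      rw [(hp _).1, Function.update_eq_self, ← Ideal.Quotient.eq_zero_iff_mem,
        ← Ideal.Quotient.mkₐ_eq_mk k, par_map_aeval]
      have h3 : (fun b => Ideal.Quotient.mkₐ k J (z b)) = fun b => algebraMap k _ (x b) :=
        funext fun b => Ideal.Quotient.eq.2 (hz b)
      rw [h3]
      exact (aeval_algebraMap_apply _ x _).trans (by rw [(h a ha).1, map_zero])) (by
      rw [(hp _).2, Function.update_eq_self, MvPowerSeries.isUnit_iff_constantCoeff,
        par_const_aeval fun b => hc (hz b)]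
      exact (h a ha).2)
    exact ⟨y, h2, fun h' => absurd h' ha, fun _ => (hp y).1 ▸ h1⟩
  choose ξ h1 h2 h3 using key
  refine ⟨ξ, fun a => hc (by simpa using add_mem (h1 a) (hz a)), fun j => ?_, fun a ha => ?_⟩
  · rw [h2 _ ⟨j, rfl⟩]
    simp [z, C.inj.eq_iff]
  · rw [← h3 a ha, aeval_def, aeval_def]
    refine eval₂_congr _ _ _ fun {b μ} hb hμ => ?_
    rcases C.supp a μ (mem_support_iff.2 hμ) b (Finsupp.mem_support_iff.1 hb) with rfl | hb'
    · rw [Function.update_self]
    · rw [Function.update_of_ne (by rintro rfl; exact ha hb'), h2 b hb']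

theorem Chart.Br.mem {C : Chart k ι r} {x : ι → k} {ξ : ι → MvPowerSeries (Fin r) k}
    (h : C.Br x ξ) {J : Ideal (MvPolynomial ι k)} (hJ : C.On J x) : ∀ f ∈ J, aeval ξ f = 0 := by
  intro f hf
  obtain ⟨s, hs, h1⟩ := hJ f hf
  have h2 : C.ideal ≤ RingHom.ker (aeval ξ : MvPolynomial ι k →ₐ[k] _) := Ideal.span_le.2 (by
    rintro _ ⟨a, ha, rfl⟩
    exact h.eqn a ha)
  have h3 : aeval ξ (s * f) = 0 := h2 h1
  rw [← par_const_aeval h.const, ← MvPowerSeries.isUnit_iff_constantCoeff] at hs
  rwa [map_mul, hs.mul_right_eq_zero] at h3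

theorem Chart.Br.tv [Fintype ι] {C : Chart k ι r} {x : ι → k} {ξ : ι → MvPowerSeries (Fin r) k}
    (h : C.Br x ξ) (j : Fin r) : C.Tv x j (lin ξ j) := by
  classical
  refine ⟨fun l => ?_, fun a ha => ?_⟩
  · rw [lin, h.coord, par_coeff_single]
    by_cases hl : l = j
    · simp [hl]
    · simp [hl, MvPowerSeries.pderiv_X_of_ne hl]
  · rw [← (aeval_dv x (lin ξ j) _).2, par_dv_zero h.const j (h.eqn a ha), TrivSqZeroExt.snd_zero]

end Pool.Agent.Lib.MP_651af7_nt.Av
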