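import Pool.Agent.Lib.MP_651af7_nt.Av.ERed

/-! Engine: counting the conditions. -/

namespace Pool.Agent.Lib.MP_651af7_nt.Av

open Finset

variable {ι : Type} [Fintype ι] {g e ρ n : ℕ}

/-- Sketch.  If some `l₀` is not marked, `ω (inl l₀)` is determined by the other exponents.  If
all are marked, the set is empty. -/
theorem card_marked (he : 1 ≤ e) (mk : Finset (Fin (g + 1))) {L : ℕ}
    (h : mk.card ≤ g ∨ e * L + ρ * Fintype.card ι ≤ n) :
    ((Mon ι g e ρ n).filter fun ω => ∑ l ∈ mk, ω (.inl l) < L).card * (n + 1) ^ mk.card ≤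
      ρ ^ Fintype.card ι * L ^ mk.card * (n + 1) ^ g := by
  classical
  by_cases hc : mk.card ≤ g
  · obtain ⟨l₀, hl₀⟩ : ∃ l₀, l₀ ∉ mk := by
      by_contra h'
      have h1 : mk = univ := eq_univ_of_forall fun l => by_contra fun hl => h' ⟨l, hl⟩
      rw [h1, card_univ, Fintype.card_fin] at hc
      omega
    let t : Fin (g + 1) ⊕ ι → Finset ℕ := fun x => match x with
      | .inl l => range (if l ∈ mk then L else if l = l₀ then 1 else n + 1)
      | .inr _ => range ρ
    have h1 : ((Mon ι g e ρ n).filter fun ω => ∑ l ∈ mk, ω (.inl l) < L).card ≤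
        (Fintype.piFinset t).card := by
      refine card_le_card_of_injOn (fun ω => Function.update ω (.inl l₀) 0) (fun ω hω => ?_)
        fun ω hω ω' hω' heq => ?_
      · rw [mem_coe, mem_filter, mem_Mon he] at hω
        rw [mem_coe, Fintype.mem_piFinset]
        rintro (l | a)
        · simp only [t, mem_range]
          by_cases hl : l = l₀
          · subst hl
            simp [hl₀]
          · rw [Function.update_of_ne (by simpa using hl), if_neg hl]
            split_ifs with hm
            · exact (single_le_sum (f := fun l => ω (.inl l)) (fun _ _ => Nat.zero_le _) hm).trans_lt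
                hω.2
            · have h2 := single_le_sum (f := fun l => ω (.inl l)) (fun _ _ => Nat.zero_le _)
                (mem_univ l)
              have h3 := Nat.le_mul_of_pos_left (∑ l, ω (.inl l)) he
              have h4 := hω.1.1
              omega
        · simp only [t, mem_range]
          rw [Function.update_of_ne (by simp)]
          exact hω.1.2 a
      · rw [mem_coe, mem_filter, mem_Mon he] at hω hω'
        have h2 : ∀ x, x ≠ .inl l₀ → ω x = ω' x := fun x hx => by
          have := congrFun heq x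
          simpa only [Function.update_of_ne hx] using this
        have h3 : ∑ a, ω (.inr a) = ∑ a, ω' (.inr a) := sum_congr rfl fun a _ => h2 _ (by simp)
        have h4 : ∑ l, ω (.inl l) = ∑ l, ω' (.inl l) := by
          refine Nat.eq_of_mul_eq_mul_left he ?_
          have := hω.1.1
          have := hω'.1.1
          omega
        rw [← add_sum_erase _ _ (mem_univ l₀), ← add_sum_erase _ _ (mem_univ l₀),
          sum_congr rfl fun l hl => h2 (.inl l) (by simpa using ne_of_mem_erase hl)] at h4
        ext x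
        by_cases hx : x = .inl l₀
        · rw [hx]
          omega
        · exact h2 x hx
    have h2 : (∏ l : Fin (g + 1), if l ∈ mk then L else if l = l₀ then 1 else n + 1) *
        (n + 1) ^ mk.card = L ^ mk.card * (n + 1) ^ g := by
      have e1 : ∀ c : ℕ, c ^ mk.card = ∏ l : Fin (g + 1), if l ∈ mk then c else 1 := fun c => by
        rw [prod_ite_mem, univ_inter, prod_const]
      have e2 : (n + 1) ^ g = ∏ l : Fin (g + 1), if l = l₀ then 1 else n + 1 := by
        rw [Fin.prod_univ_succAbove _ l₀]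
        simp
      rw [e1, e1, e2, ← prod_mul_distrib, ← prod_mul_distrib]
      refine prod_congr rfl fun l _ => ?_
      by_cases hm : l ∈ mk
      · have : l ≠ l₀ := fun e => hl₀ (e ▸ hm)
        simp [hm, this]
      · simp [hm]
    refine (Nat.mul_le_mul_right _ h1).trans (le_of_eq ?_)
    rw [Fintype.card_piFinset, Fintype.prod_sum_type]
    simp only [t, card_range, prod_const, card_univ]
    rw [mul_right_comm, h2]
    ring
  · have h1 : mk = univ := eq_univ_of_card _ (le_antisymm (card_le_univ _) (by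
      rw [Fintype.card_fin]
      omega))
    have h2 := h.resolve_left hc
    rw [filter_eq_empty_iff.2, card_empty, zero_mul]
    · exact Nat.zero_le _
    · intro ω hω hlt
      rw [mem_Mon he] at hω
      rw [h1] at hlt
      have h3 : ∑ a, ω (.inr a) ≤ Fintype.card ι * ρ := by
        rw [← card_univ, ← smul_eq_mul]
        exact sum_le_card_nsmul _ _ _ fun a _ => (hω.2 a).le
      have h4 := (Nat.mul_lt_mul_left he).2 hlt
      have h5 := hω.1
      rw [mul_comm] at h3
      omega

theorem card_Mon_le (he : 1 ≤ e) : (Mon ι g e ρ n).card ≤ ρ ^ Fintype.card ι * (n + 1) ^ g := by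
  simpa using card_marked (ι := ι) (g := g) (ρ := ρ) (n := n) he ∅ (L := 1) (Or.inl (Nat.zero_le _))

theorem ecnt_side (he : 1 ≤ e) (hg : 1 ≤ g) (mk : Finset (Fin (g + 1))) {M L : ℕ} (hL : 1 ≤ L)
    (hM : e + ρ * Fintype.card ι ≤ M) :
    ((Mon ι g e ρ (2 * (g * (M * L)))).filter fun ω => ∑ l ∈ mk, ω (.inl l) < L).card *
      M ^ mk.card ≤ ρ ^ Fintype.card ι * (2 * g) ^ g * (M * L + 1) ^ g := by
  have h0 : M * L ≤ 2 * (g * (M * L)) := by
    have := Nat.le_mul_of_pos_left (M * L) hg
    omega
  have h1 := card_marked (ι := ι) (ρ := ρ) (n := 2 * (g * (M * L))) he mk (L := L) (Or.inr (by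
    have h2 := Nat.mul_le_mul_right L hM
    have h3 := Nat.le_mul_of_pos_right (ρ * Fintype.card ι) hL
    rw [add_mul] at h2
    omega))
  have h2 : (M * L) ^ mk.card ≤ (2 * (g * (M * L)) + 1) ^ mk.card :=
    Nat.pow_le_pow_left (by omega) _
  have h3 : (2 * (g * (M * L)) + 1) ^ g ≤ (2 * g) ^ g * (M * L + 1) ^ g := by
    rw [← mul_pow]
    refine Nat.pow_le_pow_left ?_ _
    rw [mul_add, mul_assoc]
    omega
  refine Nat.le_of_mul_le_mul_right ?_ (Nat.pow_pos (n := mk.card) hL)
  rw [mul_assoc, ← mul_pow]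
  refine ((Nat.mul_le_mul_left _ h2).trans h1).trans ((Nat.mul_le_mul_left _ h3).trans (le_of_eq ?_))
  ring

/-- Sketch.  `C₁ = ρ ^ (3 card ι) * (5 g) ^ g * (2 g) ^ (2 g)`; `dh p = 5 g * n none`; a forbidden
pattern has marked degree less than `4 ^ (J - j)` on each side; `M * 4 ^ (J - j) ≤ dg + 1`. -/
theorem card_low (ι : Type) [Fintype ι] (g ρ : ℕ) : ∃ C₁ : ℕ, ∀ (k : Type) [Field k] (m e M J : ℕ)
    (F : Cfg k ι g m) (mk : Bool → Finset (Fin (g + 1))), 1 ≤ e → 1 ≤ g →
    (mk false).card + (mk true).card = 2 → e + ρ * Fintype.card ι ≤ M → F.n none = M * 4 ^ J →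
    (∀ i, F.j i ≤ J) → (∀ i, F.n (some i) = M * 4 ^ (J - F.j i)) → ∀ p,
      (Mon ι g e ρ (F.dh p)).card * (F.low e ρ (4 ^ J) mk p).card * M ^ 2 ≤
        C₁ * (Fintype.card (Bx g (F.n none)) * Fintype.card (TT g F.n p)) := by
  classical
  refine ⟨ρ ^ Fintype.card ι * (5 * g) ^ g * (ρ ^ Fintype.card ι * (2 * g) ^ g) ^ 2,
    fun k _ m e M J F mk he hg hmk hM h0 hj hn p => ?_⟩
  have e1 : F.dh p = 5 * g * F.n none := by
    have e2 : ∀ s, 2 * 4 ^ F.j (p, s) * (g * F.n (some (p, s))) = 2 * (g * F.n none) := fun s => by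
      rw [hn, h0, ← Nat.add_sub_cancel' (hj (p, s)), pow_add, Nat.add_sub_cancel_left]
      ring
    simp only [Cfg.dh, e2, sum_const, card_univ, Fintype.card_bool, smul_eq_mul]
    ring
  have h1 : (Mon ι g e ρ (F.dh p)).card ≤
      ρ ^ Fintype.card ι * (5 * g) ^ g * Fintype.card (Bx g (F.n none)) := by
    refine (card_Mon_le he).trans ?_
    rw [mul_assoc, Fintype.card_fun, Fintype.card_fin, Fintype.card_fin, ← mul_pow, e1]
    refine Nat.mul_le_mul_left _ (Nat.pow_le_pow_left ?_ _)
    rw [mul_add]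
    omega
  have h2 : (F.low e ρ (4 ^ J) mk p).card ≤ ∏ s, ((Mon ι g e ρ (F.dg (some (p, s)))).filter
      fun ω => ∑ l ∈ mk s, ω (.inl l) < 4 ^ (J - F.j (p, s))).card := by
    rw [← Fintype.card_piFinset]
    refine card_le_card fun ω hω => ?_
    rw [Cfg.low, mem_filter, Cfg.pat, Fintype.mem_piFinset] at hω
    rw [Fintype.mem_piFinset]
    refine fun s => mem_filter.2 ⟨hω.1 s, ?_⟩
    have h3 := (single_le_sum (f := fun s => 4 ^ F.j (p, s) * ∑ l ∈ mk s, ω s (.inl l))
      (fun _ _ => Nat.zero_le _) (mem_univ s)).trans_lt hω.2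
    rw [← Nat.add_sub_cancel' (hj (p, s)), pow_add] at h3
    exact Nat.lt_of_mul_lt_mul_left h3
  have h3 : ∀ s, ((Mon ι g e ρ (F.dg (some (p, s)))).filter
      fun ω => ∑ l ∈ mk s, ω (.inl l) < 4 ^ (J - F.j (p, s))).card * M ^ (mk s).card ≤
      ρ ^ Fintype.card ι * (2 * g) ^ g * Fintype.card (Bx g (F.n (some (p, s)))) := fun s => by
    rw [Fintype.card_fun, Fintype.card_fin, Fintype.card_fin, Cfg.dg, hn]
    exact ecnt_side he hg (mk s) (Nat.pow_pos (by norm_num)) hM
  have h4 : (F.low e ρ (4 ^ J) mk p).card * M ^ 2 ≤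
      (ρ ^ Fintype.card ι * (2 * g) ^ g) ^ 2 * Fintype.card (TT g F.n p) := by
    refine (Nat.mul_le_mul_right _ h2).trans ?_
    have h5 := Nat.mul_le_mul (h3 true) (h3 false)
    rw [Fintype.card_pi, Fintype.prod_bool, Fintype.prod_bool]
    rw [mul_mul_mul_comm, ← pow_add, add_comm (mk true).card, hmk,
      mul_mul_mul_comm _ (Fintype.card _), ← sq] at h5
    exact h5
  rw [mul_assoc]
  refine (Nat.mul_le_mul h1 h4).trans (le_of_eq ?_)
  ring

theorem card_mark (hg : 1 ≤ g) {α : Type} (md : Option α) :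
    (mark g md false).card + (mark g md true).card = 2 := by
  cases md with
  | none =>
    have h : (0 : Fin (g + 1)) ≠ 1 := by
      obtain ⟨g', rfl⟩ : ∃ g', g = g' + 1 := ⟨g - 1, by omega⟩
      exact Fin.zero_ne_one
    simp [mark, card_pair h]
  | some a => simp [mark]

end Pool.Agent.Lib.MP_651af7_nt.Av
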