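import Pool.Agent.Lib.MP_651af7_nt.Av.EDefs
import Pool.Agent.Lib.MP_651af7_nt.Av.RB
import Pool.Agent.Lib.MP_651af7_nt.Av.Par

/-! Engine: the leading form and its height; degree sums. -/

namespace Pool.Agent.Lib.MP_651af7_nt.Av

open Finset Height

theorem MinT.exists_le {K Ξ I g : Type} [CommRing K] [Fintype g] {f : MvPowerSeries (Ξ ⊕ I × g) K}
    {α : I × g →₀ ℕ} (hT : MinT f (bdeg α)) {U : MvPowerSeries (Ξ ⊕ I × g) K} {κ : Ξ →₀ ℕ}
    (h : MvPowerSeries.coeff (κ.sumElim α) (U * f) ≠ 0) :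
    ∃ κ' ≤ κ, MvPowerSeries.coeff (κ'.sumElim α) f ≠ 0 := by
  classical
  rw [MvPowerSeries.coeff_mul] at h
  obtain ⟨p, hp, h1⟩ := exists_ne_zero_of_sum_ne_zero h
  obtain ⟨κ', α', e⟩ := exists_sumElim p.2
  have h2 : κ'.sumElim α' ≤ κ.sumElim α := e ▸ mem_antidiagonal.mp hp ▸ le_add_self
  have h3 : α' ≤ α := fun q => h2 (Sum.inr q)
  have h4 := right_ne_zero_of_mul h1
  rw [e] at h4
  have h5 : bdeg α' = bdeg α := by
    by_contra hc
    exact h4 (hT κ' α' (bdeg_mono h3) hc)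
  exact ⟨κ', fun a => h2 (Sum.inl a), eq_of_bdeg h3 h5 ▸ h4⟩

theorem exists_lead {K Ξ I g : Type} [Field K] [Fintype g] [Finite I]
    {f U : MvPowerSeries (Ξ ⊕ I × g) K} (hf : f ≠ 0) (hU : MvPowerSeries.constantCoeff U ≠ 0)
    {Sm : (Ξ →₀ ℕ) → (I → ℕ) → Prop} {Out : Prop}
    (h : ∀ α, (∃ κ : Ξ →₀ ℕ, MvPowerSeries.coeff (κ.sumElim α) (U * f) ≠ 0) →
      (∃ κ, Sm κ (bdeg α) ∧ MvPowerSeries.coeff (κ.sumElim α) (U * f) ≠ 0) ∨ Out) :
    (∃ κ κ' ν Ψ, κ ≤ κ' ∧ Sm κ' ν ∧ MinT f ν ∧ MinX f κ ν ∧ IsLead f κ ν Ψ ∧ Ψ ≠ 0) ∨ Out := by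
  obtain ⟨ν, hT, κ₀, α₀, rfl, h0⟩ := exists_minT hf
  obtain ⟨κ₁, -, hX₁, α, hα, h1⟩ := exists_minX h0
  refine (h α ⟨κ₁, ?_⟩).imp_left ?_
  · rw [coeff_mul_of_min hT hX₁ U hα]
    exact mul_ne_zero hU h1
  · rintro ⟨κ₂, h2, h3⟩
    rw [← hα] at hT
    obtain ⟨κ₃, h4, h5⟩ := hT.exists_le h3
    obtain ⟨κ, h6, hX, β, hβ, h7⟩ := exists_minX h5
    obtain ⟨Ψ, hΨ⟩ := exists_isLead f κ (bdeg α)
    refine ⟨κ, κ₂, _, Ψ, h6.trans h4, h2, hT, hX, hΨ, fun h8 => h7 ?_⟩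
    rw [← (hΨ β).1 hβ, h8, MvPolynomial.coeff_zero]

theorem lead_height (k : Type) [Field k] [NumberField k] (g : ℕ) : ∃ c : ℝ, 0 < c ∧ ∃ C : ℝ,
    ∀ (ι O : Type) [Fintype ι] [Fintype O] (B : AV k ι) (r : ℕ) (σ : Fin g → ι → k)
      (D : O → Chart k ι r) (x : O → ι → k) (ξ : O → ι → MvPowerSeries (Fin r) k) (H : O → ℝ)
      (f : RR k O r g) (κ : O × Fin r →₀ ℕ) (ν : O → ℕ) (Ψ : MvPolynomial (O × Fin g) k),
      (∀ o, (D o).Br (x o) (ξ o)) →
      (∀ o (l : Fin g → k), l ≠ 0 → B.Kills σ (D o) (x o) l → H o ≤ logHeight l) →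
      (∀ o a', ∃ w : Fin g → RR k O r g, MvPowerSeries.pderiv k (.inl (o, a')) f =
            ∑ j, w j * MvPowerSeries.pderiv k (.inr (o, j)) f ∧
          B.Tang (x o) (lin (ξ o) a')
            fun a => ∑ l, MvPowerSeries.constantCoeff (w l) * algebraMap k k (σ l a)) →
      MinT f ν → MinX f κ ν → IsLead f κ ν Ψ → Ψ ≠ 0 →
      ∑ o, ν o * (c * H o - C) ≤ logHeight fun α : Ψ.support => MvPolynomial.coeff α.1 Ψ := by
  obtain ⟨c, hc, C, h⟩ := conormal_height k (Fin g)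
  refine ⟨c, hc, C, fun ι O _ _ B r σ D x ξ H f κ ν Ψ hξ hK hw hT hX hΨ h0 => ?_⟩
  choose w hw1 hw2 using hw
  refine h O (fun o => Submodule.span k
    (Set.range fun a' j => MvPowerSeries.constantCoeff (w o a' j))) H ν Ψ h0 hΨ.deg
    (fun o τ hτ => ?_) fun o l hl hl' => hK o l hl fun a' =>
      ⟨_, _, (hξ o).tv a', hw2 o a', hl' _ (Submodule.subset_span ⟨a', rfl⟩)⟩
  induction hτ using Submodule.span_induction with
  | mem τ hτ =>
    obtain ⟨a', rfl⟩ := hτ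
    exact hΨ.inv hT hX (hw1 o a')
  | zero => simp
  | add τ τ' _ _ h1 h2 => simp only [Pi.add_apply, add_smul, sum_add_distrib, h1, h2, add_zero]
  | smul a τ _ h1 => simp only [Pi.smul_apply, smul_eq_mul, mul_smul, ← smul_sum, h1, smul_zero]

namespace Cfg

variable {k ι : Type} [Field k] {g m : ℕ} (F : Cfg k ι g m)
  (hn : ∀ i, F.n (some i) * 4 ^ F.j i = F.n none) {w : OO m → ℝ}
include hn

theorem dg_none : F.dg none = g * F.n none * (1 + 4 * m) := by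
  have h : ∀ i, 2 * 4 ^ F.j i * (g * F.n (some i)) = 2 * (g * F.n none) := fun i => by
    rw [← hn i]
    ring
  simp only [dg, h, sum_const, card_univ, Fintype.card_prod, Fintype.card_fin, Fintype.card_bool,
    smul_eq_mul]
  ring

theorem n_mul_le (h : ∀ i, w (some i) ≤ 2 * (4 ^ F.j i * w none)) (i : Fin m × Bool) :
    F.n (some i) * w (some i) ≤ 2 * (F.n none * w none) := by
  refine (mul_le_mul_of_nonneg_left (h i) (Nat.cast_nonneg _)).trans (le_of_eq ?_)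
  rw [← hn i]
  push_cast
  ring

theorem sum_dg_le (h : ∀ i, w (some i) ≤ 2 * (4 ^ F.j i * w none)) :
    ∑ o, F.dg o * w o ≤ g * (1 + 12 * m) * (F.n none * w none) := by
  rw [Fintype.sum_option, F.dg_none hn]
  have h1 : ∑ i, F.dg (some i) * w (some i) ≤ ∑ _i : Fin m × Bool, 4 * g * (F.n none * w none) :=
    sum_le_sum fun i _ => by
      have := mul_le_mul_of_nonneg_left (F.n_mul_le hn h i) (show (0 : ℝ) ≤ 2 * g by positivity)
      simp only [dg]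
      push_cast
      linarith
  simp only [sum_const, card_univ, Fintype.card_prod, Fintype.card_fin, Fintype.card_bool,
    nsmul_eq_mul] at h1
  push_cast at h1 ⊢
  linarith

theorem sum_dg_sub (h : ∀ i, w (some i) ≤ 2 * (4 ^ F.j i * w none)) {θ C : ℝ} (hθ : 0 ≤ θ)
    {p : Fin m × Bool → ℝ}
    (hp : ∀ i, 2 * (w (some i) + 4 ^ F.j i * w none) ≤ p i + θ * w (some i) + 4 ^ F.j i * C) :
    ∑ o, F.dg o * w o ≤ ∑ i, (g * F.n (some i) : ℕ) * p i + g * (F.n none * w none) +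
      2 * m * g * (2 * θ * (F.n none * w none) + F.n none * C) := by
  rw [Fintype.sum_option, F.dg_none hn]
  have h1 : ∑ i, (F.dg (some i) * w (some i) + 2 * g * (F.n none * w none)) ≤
      ∑ i, ((g * F.n (some i) : ℕ) * p i +
        g * (2 * θ * (F.n none * w none) + F.n none * C)) := sum_le_sum fun i _ => by
    have h2 := mul_le_mul_of_nonneg_left (F.n_mul_le hn h i) (show (0 : ℝ) ≤ θ * g by positivity)
    have h3 := mul_le_mul_of_nonneg_left (hp i) (show (0 : ℝ) ≤ g * F.n (some i) by positivity)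
    have h4 : (F.n none : ℝ) = F.n (some i) * 4 ^ F.j i := by rw [← hn i]; push_cast; ring
    simp only [dg]
    push_cast
    rw [h4] at h2 ⊢
    linarith
  simp only [sum_add_distrib, sum_const, card_univ, Fintype.card_prod, Fintype.card_fin,
    Fintype.card_bool, nsmul_eq_mul] at h1
  push_cast at h1 ⊢
  linarith

end Cfg

end Pool.Agent.Lib.MP_651af7_nt.Av
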