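import Pool.Agent.Lib.MP_651af7_nt.Av.EAd

/-! Engine: the local gains. -/

namespace Pool.Agent.Lib.MP_651af7_nt.Av

open MvPolynomial Finset Height
open Pool.Agent.Lib.MP_651af7_nt.Vj (gsum FinS)

variable {k ι : Type} [Field k] [NumberField k] [Fintype ι] {g e : ℕ}

omit [Fintype ι] in
open Classical in
theorem emark_ind (v₀ : AbsoluteValue k ℝ) (h : Adm v₀) :
    FinS (fun v : AbsoluteValue k ℝ => if v = v₀ then (1 : ℝ) else 0) ∧
      1 ≤ gsum (fun v : AbsoluteValue k ℝ => if v = v₀ then (1 : ℝ) else 0) := by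
  have h0 : ∀ v : AbsoluteValue k ℝ, (0 : ℝ) ≤ if v = v₀ then (1 : ℝ) else 0 := fun v => by
    split_ifs <;> norm_num
  refine ⟨?_, ?_⟩
  · refine Set.Finite.subset (Set.Subsingleton.finite (s := {w | w.val = v₀}) ?_) ?_
    · intro a ha b hb
      exact Subtype.ext (ha.trans hb.symm)
    · intro w hw
      by_contra hc
      exact hw (if_neg hc)
  · have h1 : 0 ≤ ((AdmissibleAbsValues.archAbsVal (K := k)).map
        fun v => if v = v₀ then (1 : ℝ) else 0).sum :=
      Multiset.sum_nonneg fun a ha => by
        obtain ⟨v, -, rfl⟩ := Multiset.mem_map.mp ha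
        exact h0 v
    have h2 : 0 ≤ ∑ᶠ v : AdmissibleAbsValues.nonarchAbsVal (K := k),
        if v.val = v₀ then (1 : ℝ) else 0 := finsum_nonneg fun v => h0 v.val
    unfold gsum
    rcases h with h | h
    · have h3 := Multiset.single_le_sum (s := (AdmissibleAbsValues.archAbsVal (K := k)).map
        fun v => if v = v₀ then (1 : ℝ) else 0) (fun a ha => by
          obtain ⟨v, -, rfl⟩ := Multiset.mem_map.mp ha
          exact h0 v) _ (Multiset.mem_map_of_mem _ h)
      rw [if_pos rfl] at h3
      linarith
    · have h3 : (∑ᶠ v : AdmissibleAbsValues.nonarchAbsVal (K := k),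
          if v.val = v₀ then (1 : ℝ) else 0) = 1 := by
        rw [finsum_eq_single _ (⟨v₀, h⟩ : AdmissibleAbsValues.nonarchAbsVal (K := k))
          fun w hw => if_neg fun hc => hw (Subtype.ext hc)]
        exact if_pos rfl
      linarith

/-- Sketch.  Always `v (eval x u) ≤ pl v u * nm v x ^ e` (`SN.Ov.aeval_le` for `absSN`).
`md = none`: `lam v = log (c false v * nm v x ^ e) - log (nm v ![u 0 (x), u 1 (x)]) ≥ 0` has sum
at least `η * logHeight x ≥ N * t`; `σ = 0` if `t = 0`, else `σ = lam * (t / gsum lam)`.
`md = some v₀`: `σ = t / n₀` at `v₀` and `0` elsewhere, where `n₀ ≥ 1` is the sum of the indicator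
function of `v₀` (compare `le_gsum_ite` in `MP_8865d3_nt/Fa/FaPF` or prove directly). -/
theorem exists_sigma {md : Option (AbsoluteValue k ℝ)} (hmd : Mode g md) {η t : ℝ} (ht : 0 ≤ t)
    {u : Bool → Fin (g + 1) → MvPolynomial ι k} {x : Bool → ι → k} (hx : ∀ b, x b ≠ 0)
    (hu : ∀ b l, (u b l).IsHomogeneous e) (hb : ∀ b, Bad md e η (u b) (x b))
    {c : Bool → AbsoluteValue k ℝ → ℝ} {h : Bool → ℝ} (hc : ∀ b, Ad (c b) (h b))
    (hcu : ∀ b v l, pl v (u b l) ≤ c b v) {N : Bool → ℕ} (hN1 : ∀ b, 1 ≤ N b)
    (hN : ∀ b, N b * t ≤ η * logHeight (x b)) :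
    ∃ σ : AbsoluteValue k ℝ → ℝ, (∀ v, 0 ≤ σ v) ∧ FinS σ ∧ gsum σ = t ∧
      ∀ v b, ∀ l ∈ mark g md b,
        v (eval (x b) (u b l)) ≤ c b v * Real.exp (-σ v) ^ N b * nm v (x b) ^ e := by
  have hev : ∀ b v l, v (eval (x b) (u b l)) ≤ c b v * nm v (x b) ^ e := fun b v l => by
    have h1 := (absSN_ov v).aeval_le (hu b l) (y := x b) (nm_nn v (x b)) (le_nm v (x b))
    rw [aeval_eq_eval] at h1
    exact h1.trans (mul_le_mul_of_nonneg_right (hcu b v l) (pow_nonneg (nm_nn v _) _))
  have hN' : ∀ b, (1 : ℝ) ≤ N b := fun b => by exact_mod_cast hN1 b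
  cases md with
  | none =>
    obtain ⟨hW, hη⟩ : BadY e η (u false 0) (u false 1) (x false) := hb false
    set W : Fin 2 → k := ![eval (x false) (u false 0), eval (x false) (u false 1)] with hWd
    set lam : AbsoluteValue k ℝ → ℝ := fun v => Real.log (c false v) +
      ((e : ℝ) * Real.log (nm v (x false)) + -1 * Real.log (nm v W)) with hlam
    have hexp : ∀ v, c false v * Real.exp (-lam v) * nm v (x false) ^ e = nm v W := fun v => by
      have h1 := (hc false).pos v
      have h2 := pow_pos (nm_pos v (hx false)) e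
      have h3 : -lam v = Real.log (nm v W) -
          (Real.log (c false v) + Real.log (nm v (x false) ^ e)) := by
        rw [Real.log_pow]; simp only [hlam]; ring
      rw [h3, Real.exp_sub, Real.exp_add, Real.exp_log h1, Real.exp_log h2,
        Real.exp_log (nm_pos v hW)]
      field_simp
    have hl0 : ∀ v, 0 ≤ lam v := fun v => by
      have h1 : nm v W ≤ c false v * nm v (x false) ^ e := by
        obtain ⟨a, ha⟩ := exists_nm v W
        rw [← ha]
        fin_cases a
        · exact hev false v 0
        · exact hev false v 1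
      have h2 := Real.log_le_log (nm_pos v hW) h1
      rw [Real.log_mul ((hc false).pos v).ne' (pow_pos (nm_pos v (hx false)) e).ne',
        Real.log_pow] at h2
      simp only [hlam]
      linarith
    have f1 := (finS_nm (x false)).const_mul (e : ℝ)
    have f2 := (finS_nm W).const_mul (-1)
    have hf : FinS lam := (hc false).fin.add (f1.add f2)
    have hS : N false * t ≤ gsum lam := by
      have h1 : gsum lam = gsum (fun v => Real.log (c false v)) +
          ((e : ℝ) * logHeight (x false) + -1 * logHeight W) := by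
        rw [hlam, Vj.gsum_add (hc false).fin (f1.add f2), Vj.gsum_add f1 f2,
          Vj.gsum_const_mul (finS_nm _), Vj.gsum_const_mul (finS_nm _), gsum_nm (hx false),
          gsum_nm hW]
      have h2 : 0 ≤ gsum fun v => Real.log (c false v) := by
        rw [← Vj.pf_gsum_zero (K := k)]
        exact Vj.pf_gsum_mono Vj.pf_finS_zero (hc false).fin
          fun v => Real.log_nonneg ((hc false).one v)
      linarith [hN false]
    have htS : t ≤ gsum lam := le_trans (le_mul_of_one_le_left ht (hN' false)) hS
    have hS0 : 0 ≤ gsum lam := ht.trans htS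
    refine ⟨fun v => t / gsum lam * lam v, fun v => mul_nonneg (div_nonneg ht hS0) (hl0 v),
      hf.const_mul _, ?_, ?_⟩
    · rw [Vj.gsum_const_mul hf]
      rcases hS0.eq_or_lt with h0 | h0
      · rw [← h0, mul_zero]; linarith
      · exact div_mul_cancel₀ _ h0.ne'
    · intro v b l hl
      cases b with
      | true => simp [mark] at hl
      | false =>
        have h1 : v (eval (x false) (u false l)) ≤ nm v W := by
          have hl' : l = 0 ∨ l = 1 := by simpa [mark] using hl
          rcases hl' with rfl | rfl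
          · exact le_nm v W 0
          · exact le_nm v W 1
        refine h1.trans ?_
        rw [← hexp v, ← Real.exp_nat_mul]
        refine mul_le_mul_of_nonneg_right (mul_le_mul_of_nonneg_left (Real.exp_le_exp.mpr ?_)
          ((hc false).pos v).le) (pow_nonneg (nm_nn v _) _)
        have h2 : N false * (t / gsum lam) ≤ 1 := by
          rw [← mul_div_assoc]
          exact div_le_one_of_le₀ hS hS0
        have h3 := mul_le_mul_of_nonneg_right h2 (hl0 v)
        nlinarith [h3]
  | some v₀ =>
    classical
    obtain ⟨hf, hn⟩ := emark_ind v₀ (hmd.2 v₀ rfl)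
    set n₀ := gsum (fun v : AbsoluteValue k ℝ => if v = v₀ then (1 : ℝ) else 0) with hn₀
    have hn0 : 0 < n₀ := one_pos.trans_le hn
    refine ⟨fun v => t / n₀ * if v = v₀ then (1 : ℝ) else 0, fun v => mul_nonneg
      (div_nonneg ht hn0.le) (by split_ifs <;> norm_num), hf.const_mul _, ?_, ?_⟩
    · rw [Vj.gsum_const_mul hf]
      exact div_mul_cancel₀ _ hn0.ne'
    · intro v b l hl
      have hl' : l = 0 := by simpa [mark] using hl
      subst hl'
      by_cases hv : v = v₀
      · subst hv
        have h1 : v (eval (x b) (u b 0)) ≤ nm v (x b) ^ e * Real.exp (-(η * logHeight (x b))) :=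
          hb b
        refine h1.trans ?_
        beta_reduce
        rw [mul_comm, if_pos rfl, mul_one, ← Real.exp_nat_mul]
        refine mul_le_mul_of_nonneg_right ?_ (pow_nonneg (nm_nn v _) _)
        refine le_trans (Real.exp_le_exp.mpr ?_)
          (le_mul_of_one_le_left (Real.exp_pos _).le ((hc b).one v))
        have h2 : t / n₀ ≤ t := div_le_self ht hn
        have h3 := mul_le_mul_of_nonneg_left h2 (Nat.cast_nonneg (α := ℝ) (N b))
        linarith [hN b]
      · simpa [if_neg hv] using hev b v 0

end Pool.Agent.Lib.MP_651af7_nt.Av
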