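import Pool.Agent.Lib.MP_651af7_nt.Av.EBd

/-! Engine: the coefficient of a monomial in `T` is a polynomial in the coordinates. -/

namespace Pool.Agent.Lib.MP_651af7_nt.Av

open Finset

private theorem enest_split {Ξ Θ : Type} (μ : Ξ ⊕ Θ →₀ ℕ) :
    ∃ (κ : Ξ →₀ ℕ) (α : Θ →₀ ℕ), μ = κ.sumElim α :=
  ⟨_, _, (Finsupp.comapDomain_sumElim_comapDomain μ).symm⟩

private theorem enest_inj {Ξ Θ : Type} {κ κ' : Ξ →₀ ℕ} {α α' : Θ →₀ ℕ} :
    κ.sumElim α = κ'.sumElim α' ↔ κ = κ' ∧ α = α' := by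
  refine ⟨fun h => ⟨?_, ?_⟩, fun h => by rw [h.1, h.2]⟩
  · ext x
    exact DFunLike.congr_fun h (.inl x)
  · ext x
    exact DFunLike.congr_fun h (.inr x)

/-- Series in two groups of variables. -/
theorem exists_nest (k Ξ Θ : Type) [Field k] :
    ∃ φ : MvPowerSeries (Ξ ⊕ Θ) k →ₐ[k] MvPowerSeries Θ (MvPowerSeries Ξ k), ∀ f κ α,
      MvPowerSeries.coeff κ (MvPowerSeries.coeff α (φ f)) =
        MvPowerSeries.coeff (κ.sumElim α) f := by
  classical
  let L : MvPowerSeries (Ξ ⊕ Θ) k →ₗ[k] MvPowerSeries Θ (MvPowerSeries Ξ k) :=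
    { toFun := fun f α κ => f (κ.sumElim α)
      map_add' := fun _ _ => rfl
      map_smul' := fun _ _ => rfl }
  have hL : ∀ f κ α, MvPowerSeries.coeff κ (MvPowerSeries.coeff α (L f)) =
      MvPowerSeries.coeff (κ.sumElim α) f := fun _ _ _ => rfl
  refine ⟨AlgHom.ofLinearMap L ?_ fun f f' => ?_, hL⟩
  · ext α κ
    rw [hL, MvPowerSeries.coeff_one, MvPowerSeries.coeff_one, ← Finsupp.sumElim_zero_zero]
    simp only [enest_inj]
    by_cases h : α = 0
    · simp [h, MvPowerSeries.coeff_one]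
    · simp [h]
  · ext α κ
    rw [hL, MvPowerSeries.coeff_mul, MvPowerSeries.coeff_mul, map_sum]
    simp only [MvPowerSeries.coeff_mul, hL]
    rw [← sum_product']
    symm
    refine sum_bij (fun x _ => (x.2.1.sumElim x.1.1, x.2.2.sumElim x.1.2)) ?_ ?_ ?_ fun _ _ => rfl
    · rintro ⟨⟨α₁, α₂⟩, κ₁, κ₂⟩ hx
      simp only [mem_product, HasAntidiagonal.mem_antidiagonal] at hx ⊢
      rw [← Finsupp.sumElim_add, hx.1, hx.2]
    · rintro ⟨⟨α₁, α₂⟩, κ₁, κ₂⟩ - ⟨⟨β₁, β₂⟩, l₁, l₂⟩ - h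
      simp only [Prod.mk.injEq, enest_inj] at h ⊢
      tauto
    · rintro ⟨μ₁, μ₂⟩ hμ
      obtain ⟨κ₁, α₁, rfl⟩ := enest_split μ₁
      obtain ⟨κ₂, α₂, rfl⟩ := enest_split μ₂
      rw [HasAntidiagonal.mem_antidiagonal, ← Finsupp.sumElim_add, enest_inj] at hμ
      exact ⟨((α₁, α₂), κ₁, κ₂), by simpa using ⟨hμ.2, hμ.1⟩, rfl⟩

section nest

variable {k Ξ Θ : Type} [Field k]
  {φ : MvPowerSeries (Ξ ⊕ Θ) k →ₐ[k] MvPowerSeries Θ (MvPowerSeries Ξ k)}

private theorem enest_inl (hφ : ∀ f κ α, MvPowerSeries.coeff κ (MvPowerSeries.coeff α (φ f)) =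
    MvPowerSeries.coeff (κ.sumElim α) f) (h : MvPowerSeries Ξ k) :
    φ (MvPowerSeries.rename (Function.Embedding.inl : Ξ ↪ Ξ ⊕ Θ) h) = MvPowerSeries.C h := by
  classical
  ext α κ
  rw [hφ, MvPowerSeries.coeff_C]
  split_ifs with h0
  · rw [h0, ← Finsupp.embDomain_inl, MvPowerSeries.coeff_embDomain_rename]
  · rw [map_zero]
    refine MvPowerSeries.coeff_rename_eq_zero _ _ ?_
    rintro ⟨x, hx⟩
    rw [← Finsupp.embDomain_eq_mapDomain, Finsupp.embDomain_inl, enest_inj] at hx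
    exact h0 hx.2.symm

private theorem enest_inr (hφ : ∀ f κ α, MvPowerSeries.coeff κ (MvPowerSeries.coeff α (φ f)) =
    MvPowerSeries.coeff (κ.sumElim α) f) (h : MvPowerSeries Θ k) :
    φ (MvPowerSeries.rename (Function.Embedding.inr : Θ ↪ Ξ ⊕ Θ) h) =
      MvPowerSeries.map MvPowerSeries.C h := by
  classical
  ext α κ
  rw [hφ, MvPowerSeries.coeff_map, MvPowerSeries.coeff_C]
  split_ifs with h0
  · rw [h0, ← Finsupp.embDomain_inr, MvPowerSeries.coeff_embDomain_rename]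
  · refine MvPowerSeries.coeff_rename_eq_zero _ _ ?_
    rintro ⟨x, hx⟩
    rw [← Finsupp.embDomain_eq_mapDomain, Finsupp.embDomain_inr, enest_inj] at hx
    exact h0 hx.1.symm

end nest

variable {k ι : Type} [Field k] [Fintype ι] {g m : ℕ}

/-- The universal point. -/
private noncomputable def enestY (B : AV k ι) (ϱ : ι → MvPowerSeries (Fin g) k) (b : OO m → ι)
    (o : OO m) (a : ι) : MvPowerSeries (OO m × Fin g) (MvPolynomial (OO m × ι) k) :=
  B.ph a (b o) (fun c => MvPowerSeries.C (MvPolynomial.X (o, c)))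
    fun c => MvPowerSeries.rename (vO o) (MvPowerSeries.map MvPolynomial.C (ϱ c))

private theorem enest_bound (F : Cfg k ι g m) (B : AV k ι) {ϱ : ι → MvPowerSeries (Fin g) k}
    (hϱ : ∀ a, MvPowerSeries.constantCoeff (ϱ a) = B.o a) (c : Co g F.n) (a : Fin m × Bool → ι)
    (b : OO m → ι) (α : OO m × Fin g →₀ ℕ) (v : AbsoluteValue k ℝ) (s : OO m → ℝ) (q H : ℝ)
    (hs : ∀ o, Sz₀ B v (s o)) (hg : ∀ a, Geo v q (ϱ a)) (hq : 1 ≤ q) (hH : 1 ≤ H)
    (hc : ∀ z τ, |(c z τ : ℝ)| ≤ H) (t : OO m × ι → ℝ) (T : OO m → ℝ) (ht : ∀ p, 0 ≤ t p)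
    (hT : ∀ o, 1 ≤ T o) (htT : ∀ p, t p ≤ T p.1) (μ : OO m × ι →₀ ℕ) :
    v (MvPolynomial.coeff μ (MvPowerSeries.coeff α (F.FF B c a (enestY B ϱ b)))) * wt t μ ≤
      E (IsNonarchimedean v) H * (∏ o, (s o ^ 6 * T o ^ 2) ^ F.dg o) * q ^ α.degree := by
  have hq0 : 0 < q := zero_lt_one.trans_le hq
  have hq1 : ∀ _ : OO m × Fin g, 0 ≤ q⁻¹ := fun _ => inv_nonneg.2 hq0.le
  obtain ⟨S₁, h₁⟩ := exists_polSN (absSN v) ht
  obtain ⟨S₂, h₂⟩ := exists_serSN S₁ hq1 α
  have o₁ : S₁.Ov v := (absSN_ov v).pol ht h₁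
  have o₂ : S₂.Ov v := o₁.ser hq1 h₂
  have hC : ∀ x : k, S₁.N (MvPolynomial.C x) ≤ v x := o₁
  have hy : ∀ o a', S₂.N (enestY B ϱ b o a') ≤ s o ^ 5 * T o ^ 2 := by
    intro o a'
    have hs1 := one_le_of_two (hs o).two
    refine (o₂.ph_le (hs o) (X := T o) (Y := s o ^ 2) (fun c' => ?_) (fun c' => ?_) _ _).trans
      (le_of_eq (by ring))
    · rw [h₂]
      refine (serN_C S₁ hq1 _).trans ?_
      rw [h₁]
      exact (polN_X _ ht _).trans (htT (o, c'))
    · have k1 := serN_rename_sub S₁ (κ := α) (vO o) hq1 (MvPowerSeries.map MvPolynomial.C (ϱ c'))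
        hq0.le zero_le_one le_rfl (fun β hβ => le_trans (mul_le_mul_of_nonneg_right
          (by rw [MvPowerSeries.coeff_map]; exact hC _)
          (pow_nonneg (E_nonneg (by positivity)) _)) (hg c' β hβ))
        fun _ => (inv_mul_cancel₀ hq0.ne').le
      have k2 := (serN_C S₁ (κ := α) hq1 (MvPowerSeries.constantCoeff
        (MvPowerSeries.map MvPolynomial.C (ϱ c')))).trans (c := v (B.o c')) (by
          rw [MvPowerSeries.constantCoeff_map, hϱ]
          exact hC _)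
      rw [← h₂] at k1 k2
      have k3 := S₂.add_le (s := 1) (t := 1) (M := s o) (by rw [E_one, one_mul]; exact k1.trans hs1)
        (by rw [E_one, one_mul]; exact k2.trans ((hs o).o c'))
      rw [sub_add_cancel, one_add_one_eq_two] at k3
      rw [sq]
      exact k3.trans (mul_le_mul_of_nonneg_right (hs o).two (zero_le_one.trans hs1))
  have k4 := o₂.FF_le F hs (fun o => one_le_mul_of_one_le_of_one_le
    (one_le_pow₀ (one_le_of_two (hs o).two)) (one_le_pow₀ (hT o))) hy hH hc a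
  have k5 := coeff_le_serN S₁ hq1 (F.FF B c a (enestY B ϱ b)) (le_refl α)
  have k6 := coeff_le_polN (absSN v) ht (MvPowerSeries.coeff α (F.FF B c a (enestY B ϱ b))) μ
  rw [← h₂, wt_const, inv_pow, ← div_eq_mul_inv, div_le_iff₀ (pow_pos hq0 _)] at k5
  rw [← h₁] at k6
  refine k6.trans (k5.trans (mul_le_mul_of_nonneg_right (k4.trans (le_of_eq ?_))
    (pow_nonneg hq0.le _)))
  refine congrArg _ (prod_congr rfl fun o _ => ?_)
  ring

/-- Sketch.  Work in `R₁ = MvPowerSeries (OO m × Fin g) (MvPolynomial (OO m × ι) k)` with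
`y o a = ph a (b o) (C (X (o, ·))) (rename (vO o) (map C (ϱ ·)))`, `G = coeff α (FF c a y)`.
First claim: `map_FF` and `map_ph` for `MvPowerSeries.mapAlgHom (aeval (xo ξ))` and for `φ` of
`exists_nest` (`φ (xi ξ o a) = C (xo ξ (o, a))`, `φ (rh ϱ o a) = rename (vO o) (map C (ϱ a))`).
Bounds: `S = serN (polN (absSN v) t) (1 / q) α`; `y o ≤ s ^ 5 * (t o) ^ 2`; `FF_le`.  The degree
bound is the same estimate for the trivial absolute value, `s = q = 1` and `t = 2` at the variable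
`(o, a)`, `1` elsewhere. -/
theorem Cfg.exists_coef (F : Cfg k ι g m) (B : AV k ι) {ϱ : ι → MvPowerSeries (Fin g) k}
    (hϱ : ∀ a, MvPowerSeries.constantCoeff (ϱ a) = B.o a) (c : Co g F.n) (a : Fin m × Bool → ι)
    (b : OO m → ι) (α : OO m × Fin g →₀ ℕ) : ∃ G : MvPolynomial (OO m × ι) k,
      (∀ (r : ℕ) (ξ : OO m → ι → MvPowerSeries (Fin r) k) (κ : OO m × Fin r →₀ ℕ),
        MvPowerSeries.coeff κ (MvPolynomial.aeval (xo ξ) G) =
          MvPowerSeries.coeff (κ.sumElim α) (F.FF B c a (ty B ξ ϱ b))) ∧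
      (∀ μ ∈ G.support, ∀ p, μ p ≤ 2 * F.dg p.1) ∧
      ∀ (v : AbsoluteValue k ℝ) (s : OO m → ℝ) (q H : ℝ), (∀ o, Sz₀ B v (s o)) →
        (∀ a, Geo v q (ϱ a)) → 1 ≤ q → 1 ≤ H → (∀ z τ, |(c z τ : ℝ)| ≤ H) → ∀ μ,
          v (MvPolynomial.coeff μ G) ≤
            E (IsNonarchimedean v) H * (∏ o, s o ^ (6 * F.dg o)) * q ^ α.degree := by
  classical
  refine ⟨MvPowerSeries.coeff α (F.FF B c a (enestY B ϱ b)), fun r ξ κ => ?_, fun μ hμ p => ?_,
    fun v s q H hs hg hq hH hc μ => ?_⟩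
  · obtain ⟨φ, hφ⟩ := exists_nest k (OO m × Fin r) (OO m × Fin g)
    have h1 := F.map_FF B (MvPowerSeries.mapAlgHom (σ := OO m × Fin g)
      (MvPolynomial.aeval (R := k) (xo ξ))) c a (enestY B ϱ b)
    rw [← hφ, F.map_FF B φ]
    refine congrArg _ (Eq.trans ?_ (congrArg _ (h1.trans (congrArg _ ?_))))
    · rfl
    funext o a'
    rw [enestY, ty, AV.map_ph, AV.map_ph]
    congr 1
    · funext c'
      rw [MvPowerSeries.mapAlgHom_apply, MvPowerSeries.map_C]
      refine Eq.trans ?_ ((enest_inl hφ (xo ξ (o, c'))).symm.trans (congrArg _ ?_))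
      · simp
      · exact MvPowerSeries.rename_rename _ _ _
    · funext c'
      refine Eq.trans ?_ ((enest_inr hφ (MvPowerSeries.rename (vO o) (ϱ c'))).symm.trans
        (congrArg _ ?_))
      · rw [MvPowerSeries.mapAlgHom_apply, MvPowerSeries.rename_map]
        ext β : 1
        rw [MvPowerSeries.coeff_map, MvPowerSeries.coeff_map, MvPowerSeries.coeff_map]
        exact MvPolynomial.aeval_C _ _
      · exact MvPowerSeries.rename_rename _ _ _
  · let v : AbsoluteValue k ℝ := AbsoluteValue.trivial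
    have hv : ∀ x, v x ≤ 1 := fun x => by
      by_cases hx : x = 0
      · simp [hx]
      · exact (AbsoluteValue.trivial_apply hx).le
    have hna : IsNonarchimedean v := fun x y => by
      by_cases hx : x = 0
      · simp [hx]
      · exact (hv _).trans (le_max_of_le_left (AbsoluteValue.trivial_apply hx).ge)
    obtain ⟨H, hH⟩ := Finite.exists_le fun x : Bx g (F.n none) × (∀ p, TT g F.n p) =>
      |(c x.1 x.2 : ℝ)|
    have h1 := enest_bound F B hϱ c a b α v (fun _ => 1) 1 (max 1 H)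
      (fun _ => ⟨(E_pos_case hna _).le, fun a' b' => ?_, fun _ => hv _⟩)
      (fun a' β _ => by rw [E_pos_case hna, one_pow, mul_one]; exact hv _) le_rfl (le_max_left _ _)
      (fun z τ => (hH (z, τ)).trans (le_max_right _ _)) (fun p' => if p' = p then 2 else 1)
      (fun o => if o = p.1 then 2 else 1) (fun p' => by split_ifs <;> norm_num)
      (fun o => by split_ifs <;> norm_num) (fun p' => by
        by_cases h : p' = p
        · simp [h]
        · rw [if_neg h]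
          split_ifs <;> norm_num) μ
    · have h2 : v (MvPolynomial.coeff μ (MvPowerSeries.coeff α (F.FF B c a (enestY B ϱ b)))) = 1 :=
        AbsoluteValue.trivial_apply (MvPolynomial.mem_support_iff.1 hμ)
      rw [h2, one_mul, E_pos_case hna, one_mul, one_pow α.degree, mul_one, wt_eq,
        prod_eq_single p (fun p' _ h => by simp [h]) (by simp),
        prod_eq_single p.1 (fun o _ h => by simp [h]) (by simp), if_pos rfl, if_pos rfl, one_pow,
        one_mul, ← pow_mul] at h1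
      exact (pow_le_pow_iff_right₀ one_lt_two).1 h1
    · have h2 := polN_le_card (absSN v) (t := fun _ => 1) (fun _ => zero_le_one) (P := B.Φ a' b')
        zero_le_one fun ν _ => by rw [wt_one, mul_one]; exact hv _
      rwa [E_pos_case hna, one_mul] at h2
  · have h1 := enest_bound F B hϱ c a b α v s q H hs hg hq hH hc (fun _ => 1) (fun _ => 1)
      (fun _ => zero_le_one) (fun _ => le_rfl) (fun _ => le_rfl) μ
    simpa only [wt_one, mul_one, one_pow, ← pow_mul] using h1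

end Pool.Agent.Lib.MP_651af7_nt.Av
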