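import Pool.Agent.Lib.MP_651af7_nt.Av.ENvA

/-! Engine: the zero lemma along the branches of charts over a number field. -/

namespace Pool.Agent.Lib.MP_651af7_nt.Av

open MvPolynomial Finset
open Pool.Agent.Lib.Common.Subspace (IsInt len)

theorem env_card {σ k : Type} [Fintype σ] [Field k] (G : MvPolynomial σ k) {T : ℝ} (hT : 0 ≤ T)
    (h : ∀ μ ∈ G.support, ∀ s, (μ s : ℝ) ≤ T) :
    (G.support.card : ℝ) ≤ Real.exp (Fintype.card σ * T) := by
  classical
  have h1 : G.support.card ≤ (Fintype.piFinset fun _ : σ => range (⌊T⌋₊ + 1)).card :=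
    card_le_card_of_injOn (fun μ => ⇑μ) (fun μ hμ => mem_coe.2 (Fintype.mem_piFinset.2 fun s =>
      mem_range.2 (Nat.lt_succ_of_le (Nat.le_floor (h μ hμ s))))) DFunLike.coe_injective.injOn
  rw [Fintype.card_piFinset, prod_const, card_range, card_univ] at h1
  rw [Real.exp_nat_mul]
  refine (Nat.cast_le.2 h1).trans ?_
  push_cast
  exact pow_le_pow_left₀ (by positivity)
    (by linarith [Nat.floor_le hT, Real.add_one_le_exp T]) _

theorem env_min (σ : Type) (mp : Polynomial ℤ) : ∃ φ : MvPolynomial (Option σ) ℚ, IsInt φ ∧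
    (∀ μ ∈ φ.support, μ none ≤ mp.natDegree ∧ ∀ s, μ (some s) = 0) ∧
    ∀ (R : Type) [CommRing R] (ev : MvPolynomial (Option σ) ℚ →+* R),
      ev φ = Polynomial.aeval (ev (X none)) mp ∧
        ev (pderiv none φ) = Polynomial.aeval (ev (X none)) (Polynomial.derivative mp) := by
  classical
  have e : (Polynomial.aeval (X none) mp : MvPolynomial (Option σ) ℚ) =
      ∑ l ∈ range (mp.natDegree + 1), monomial (Finsupp.single none l) (mp.coeff l : ℚ) := by
    rw [Polynomial.aeval_eq_sum_range]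
    refine sum_congr rfl fun l _ => ?_
    rw [X_pow_eq_monomial, smul_monomial, zsmul_one]
  refine ⟨Polynomial.aeval (X none) mp, ?_, fun μ hμ => ?_, fun R _ ev => ⟨?_, ?_⟩⟩
  · rw [e]
    exact Common.Subspace.isInt_sum _ _ fun l _ => Common.Subspace.isInt_monomial _ _
  · rw [e] at hμ
    obtain ⟨l, hl, h1⟩ := mem_biUnion.1 (support_sum hμ)
    obtain rfl := mem_singleton.1 (support_monomial_subset h1)
    exact ⟨by simpa using Nat.lt_succ_iff.1 (mem_range.1 hl), fun s => by simp⟩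
  · exact (Polynomial.aeval_algHom_apply ev.toIntAlgHom _ _).symm
  · have h1 := Derivation.comp_aeval_eq (X none)
      ((pderiv none : Derivation ℚ (MvPolynomial (Option σ) ℚ) _).restrictScalars ℤ) mp
    simp only [Derivation.restrictScalars_apply, pderiv_X_self, smul_eq_mul, mul_one] at h1
    rw [h1]
    exact (Polynomial.aeval_algHom_apply ev.toIntAlgHom _ _).symm

theorem env_rename {k ι O : Type} [Field k] (o : O) (P : MvPolynomial ι k) {μ : O × ι →₀ ℕ}
    (hμ : μ ∈ (rename (Prod.mk o) P).support) :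
    (∀ o' a, o' ≠ o → μ (o', a) = 0) ∧ ∃ ν ∈ P.support, (∀ a, μ (o, a) = ν a) ∧
      coeff μ (rename (Prod.mk o) P) = coeff ν P := by
  obtain ⟨ν, rfl, h⟩ := coeff_rename_ne_zero _ _ _ (mem_support_iff.1 hμ)
  refine ⟨fun o' a h' => Finsupp.mapDomain_of_notMem_range _ _ ?_, ν, mem_support_iff.2 h, fun a =>
    Finsupp.mapDomain_apply (Prod.mk_right_injective o) _ _,
    coeff_rename_mapDomain _ (Prod.mk_right_injective o) _ _⟩
  rintro ⟨b, hb⟩
  exact h' (congrArg Prod.fst hb).symm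

theorem env_xo {k ι O : Type} [Field k] {r : ℕ} (ξ : O → ι → MvPowerSeries (Fin r) k) (o : O)
    (P : MvPolynomial ι k) : aeval (xo ξ) (rename (Prod.mk o) P) =
      MvPowerSeries.rename (vO o : Fin r ↪ O × Fin r) (aeval (ξ o) P) := by
  rw [aeval_rename, ← AlgHom.comp_apply, comp_aeval]
  rfl

theorem env_const {k ι : Type} [Field k] {r : ℕ} {ξ : ι → MvPowerSeries (Fin r) k} {x : ι → k}
    (h : ∀ a, MvPowerSeries.constantCoeff (ξ a) = x a) (P : MvPolynomial ι k) :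
    MvPowerSeries.constantCoeff (aeval ξ P) = aeval x P := by
  rw [← cc_apply, ← AlgHom.comp_apply, comp_aeval]
  exact congrArg (fun y => aeval y P) (funext h)

theorem env_exit {k O : Type} [Field k] [CharZero k] {r : ℕ} (o : O)
    {g : MvPolynomial (O × Fin r) ℚ} (h0 : g ≠ 0) (hi : IsInt g) {B : ℕ}
    (hs : ∀ μ ∈ g.support, ∀ b : O × Fin r, (b.1 ≠ o → μ b = 0) ∧ μ b ≤ B) (y : O × Fin r → k)
    (hy : aeval y g = 0) : ∃ q : MvPolynomial (Fin r) ℚ, q ≠ 0 ∧ IsInt q ∧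
      (∀ μ ∈ q.support, ∀ j, μ j ≤ B) ∧ len q ≤ len g ∧ aeval (fun j => y (o, j)) q = 0 := by
  classical
  have he := Prod.mk_right_injective (β := Fin r) o
  obtain ⟨q, rfl⟩ := exists_rename_eq_of_vars_subset_range g (Prod.mk o) he fun s h => by
    obtain ⟨μ, hμ, h5⟩ := (mem_vars_iff_mem_support s).1 (mem_coe.1 h)
    by_contra h6
    exact Finsupp.mem_support_iff.1 h5 ((hs μ hμ s).1 fun h7 => h6 ⟨s.2, by rw [← h7]⟩)
  refine ⟨q, fun h => h0 (by rw [h, map_zero]), fun μ => ?_, fun μ hμ j => ?_, ?_, ?_⟩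
  · rw [← coeff_rename_mapDomain _ he]
    exact hi _
  · have h1 : Finsupp.mapDomain (Prod.mk o) μ ∈ (rename (Prod.mk o) q).support := by
      rw [mem_support_iff, coeff_rename_mapDomain _ he]
      exact mem_support_iff.1 hμ
    have h2 := (hs _ h1 (o, j)).2
    rwa [Finsupp.mapDomain_apply he] at h2
  · exact Common.Subspace.len_le_of_injOn _ _ (Finsupp.mapDomain (Prod.mk o))
      (Finsupp.mapDomain_injective he).injOn fun μ _ => (coeff_rename_mapDomain _ he q μ).symm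
  · rwa [aeval_rename] at hy

/-- Sketch.  `nonvanishing'` for `σ = Option (O × ι)`, `τ = O × Fin r`, `blk = Prod.fst`,
`e (o, j) = some (o, (C o).I j)`, `ev = aeval` of `C θ` and `xo ξ`, `ε' = K * ε` with a natural
number `K ≥ 3` that depends on `B₀` and `ι` (`exists_ad_pl`), weight of `none` equal to `K' / ε'`
where `K' ≥ max 1 (log (len mp))`, list = the `some (o, a)` with `a` not a coordinate, then `none`;
`φ (some (o, a))` = lift of `rename (o, ·) ((C o).φ a)`, `φ none = mp (X none)`.  The support of `G`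
has at most `∏ (D / w o + 1) ≤ exp (card O * card ι * D / W)` elements.  Separability: the constant
coefficient of the derivative is `d * eval x (pderiv a φ) ≠ 0`.  In the second alternative `g` is
`rename (o, ·) q`. -/
theorem nvk (k ι O : Type) [Field k] [NumberField k] [Fintype ι] [Fintype O] (r B₀ : ℕ) {θ : ℝ}
    (hθ : 0 < θ) : ∃ (B' : ℕ) (ζ : ℝ), 0 < ζ ∧ ∀ ε : ℝ, 0 < ε → ∃ W : ℝ,
      ∀ (w : O → ℝ) (C : O → Chart k ι r) (x : O → ι → k) (ξ : O → ι → MvPowerSeries (Fin r) k),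
        (∀ o, W ≤ w o) → (∀ o o', o ≠ o' → w o ≤ ζ * w o' ∨ w o' ≤ ζ * w o) →
        (∀ o, (C o).At (x o)) → (∀ o, (C o).Br (x o) (ξ o)) →
        (∀ o a, SmallP B₀ (ε * w o) ((C o).φ a)) →
        ∀ (D : ℝ) (G : MvPolynomial (O × ι) k) (c : AbsoluteValue k ℝ → ℝ), W ≤ D →
          (∀ μ ∈ G.support, ∀ p, w p.1 * μ p ≤ D) → Ad c (ε * D) →
          (∀ μ v, Adm v → v (coeff μ G) ≤ c v) → aeval (xo ξ) G ≠ 0 →
          (∃ κ : O × Fin r →₀ ℕ, ∑ o, w o * bdeg κ o < θ * D ∧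
            MvPowerSeries.coeff κ (aeval (xo ξ) G) ≠ 0) ∨
          ∃ (o : O) (q : MvPolynomial (Fin r) ℚ), q ≠ 0 ∧ IsInt q ∧
            (∀ μ ∈ q.support, ∀ j, μ j ≤ B') ∧ len q ≤ Real.exp (B' * ε * w o) ∧
            aeval (fun j => x o ((C o).I j)) q = 0 := by
  classical
  obtain ⟨ϑ, n, C₀, mp, hC₀, m0, m1, HL⟩ := exists_lift k
  obtain ⟨κ₀, hκ₀, HA⟩ := exists_ad_pl k ι B₀
  obtain ⟨φ₀, p1, p2, p3⟩ := env_min (O × ι) mp
  obtain ⟨B, η, hη, H⟩ := nonvanishing' (σ := Option (O × ι)) k (Prod.fst : O × Fin r → O)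
    (B₀ + n + mp.natDegree) (Fintype.card (O × ι) + 1) θ hθ
  obtain ⟨K, hK⟩ := exists_nat_ge (κ₀ + 3)
  obtain ⟨K', hK'⟩ : ∃ K' : ℝ, K' = len φ₀ + 1 := ⟨_, rfl⟩
  have k1 : 1 ≤ K' := by linarith [Common.Subspace.len_nonneg φ₀]
  have k3 : (3 : ℝ) ≤ K := by linarith
  obtain ⟨N, hN⟩ : ∃ N : ℝ, N = Fintype.card (O × ι) := ⟨_, rfl⟩
  have n0 : 0 ≤ N := hN ▸ Nat.cast_nonneg _
  refine ⟨B * K, η, hη, fun ε hε => ?_⟩
  obtain ⟨A, hA⟩ : ∃ A : ℝ, A = K' * (n + 1) + N * (B₀ + 1) + C₀ + κ₀ := ⟨_, rfl⟩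
  obtain ⟨a0, a0'⟩ : 0 ≤ K' * n ∧ 0 ≤ N * B₀ := ⟨by positivity, by positivity⟩
  refine ⟨A / ε, fun w C x ξ hW hsep hat hbr hsm D G c hD hdeg hc hG h0 => ?_⟩
  have w1 : ∀ o, A ≤ ε * w o := fun o => by simpa only [div_le_iff₀' hε] using hW o
  have w0 : ∀ o, 0 < w o := fun o => (mul_pos_iff_of_pos_left hε).1 (by linarith [w1 o])
  have d1 : A ≤ ε * D := by simpa only [div_le_iff₀' hε] using hD
  have d0 : 0 < D := (mul_pos_iff_of_pos_left hε).1 (by linarith)
  have e0 : 0 < K * ε := by positivity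
  have c0 : C₀ ≤ Real.exp C₀ := by linarith [Real.add_one_le_exp C₀]
  obtain ⟨ev, ev0, ev1⟩ : ∃ ev : MvPolynomial (Option (O × ι)) ℚ →+* MvPowerSeries (O × Fin r) k,
      ev (X none) = algebraMap k _ ϑ ∧ (fun s => ev (X (some s))) = xo ξ :=
    ⟨eval₂Hom (algebraMap ℚ _) fun s => s.elim (algebraMap k _ ϑ) (xo ξ), by simp, by simp⟩
  obtain ⟨w', w2, w3⟩ : ∃ w' : Option (O × ι) → ℝ, w' none = K' / (K * ε) ∧
      ∀ p, w' (some p) = w p.1 := ⟨fun s => s.elim _ fun p => w p.1, rfl, fun _ => rfl⟩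
  have w4 : K * ε * w' none = K' := by rw [w2, mul_div_cancel₀ _ e0.ne']
  have w5 : ∀ t : ℝ, A ≤ ε * t → w' none * (n + 1) ≤ t := fun t ht => by
    have : 0 ≤ ε * t := by linarith
    refine le_of_mul_le_mul_left ?_ e0
    rw [← mul_assoc, w4]
    linarith [mul_le_mul_of_nonneg_right k3 this]
  have w6 : 0 ≤ w' none := w2 ▸ by positivity
  have hφ : ∀ p : O × ι, ∃ φ : MvPolynomial (Option (O × ι)) ℚ,
      (∀ μ ∈ φ.support, μ.some ∈ (rename (Prod.mk p.1) ((C p.1).φ p.2)).support) ∧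
      (p.2 ∉ Set.range (C p.1).I →
        Common.ZeroLemma.Rel ev w' (K * ε) (B₀ + n + mp.natDegree) (some p) φ) := by
    rintro ⟨o, a⟩
    obtain ⟨c₁, hc₁, hb⟩ := HA _ _ (by linarith [w1 o]) (hsm o a)
    have g1 : ∀ μ ∈ (rename (Prod.mk o) ((C o).φ a)).support, ∀ s, μ s ≤ B₀ := by
      rintro μ hμ ⟨o', b⟩
      obtain ⟨h1, ν, hν, h2, -⟩ := env_rename o _ hμ
      by_cases h : o' = o
      · rw [h, h2]
        exact ((Finsupp.le_degree b ν).trans (le_totalDegree hν)).trans (hsm o a).1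
      · rw [h1 _ _ h]
        exact Nat.zero_le _
    obtain ⟨d, φ, hd, q1, q2, q3, q4⟩ := HL _ (rename (Prod.mk o) ((C o).φ a)) c₁ _ hc₁
      fun μ v _ => by
        by_cases h : μ ∈ (rename (Prod.mk o) ((C o).φ a)).support
        · obtain ⟨-, ν, -, -, h2⟩ := env_rename o _ h
          exact h2 ▸ (coeff_le_pl v _ ν).trans (hb v)
        · rw [notMem_support_iff.1 h, map_zero]
          exact (hc₁.pos v).le
    obtain ⟨q5, q6⟩ := q4 _ ev ev0
    refine ⟨φ, fun μ hμ => (q2 μ hμ).2, fun ha => ⟨q1, fun μ hμ s => ?_, fun μ hμ s hs => ?_,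
      q3.trans ?_, ?_, ?_⟩⟩
    · rcases s with _ | s
      · exact (q2 μ hμ).1.trans (by omega)
      · exact (g1 _ (q2 μ hμ).2 s).trans (by omega)
    · rcases s with _ | ⟨o', b⟩
      · have := w5 _ (w1 o)
        rw [w3] at hs
        linarith [mul_nonneg w6 (Nat.cast_nonneg n)]
      · rw [w3, w3] at hs
        exact (env_rename o _ (q2 μ hμ).2).1 o' b fun h => by simp [h] at hs
    · have h1 := env_card _ (Nat.cast_nonneg B₀) fun μ hμ s => Nat.cast_le.2 (g1 μ hμ s)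
      refine (mul_le_mul h1 (mul_le_mul_of_nonneg_right c0 (Real.exp_pos _).le) (by positivity)
        (Real.exp_pos _).le).trans ?_
      rw [← Real.exp_add, ← Real.exp_add, Real.exp_le_exp, w3, ← hN]
      have h2 := w1 o
      have h3 : 0 ≤ ε * w o := by linarith
      have h4 := mul_le_mul_of_nonneg_right hK h3
      linarith
    · rw [q5, ev1, env_xo, (hbr o).eqn a ha, map_zero, mul_zero]
    · rw [q6, ev1, pderiv_rename (Prod.mk_right_injective o), env_xo]
      intro h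
      have h1 := congrArg MvPowerSeries.constantCoeff h
      rw [map_mul, map_natCast, MvPowerSeries.constantCoeff_rename, env_const (hbr o).const,
        map_zero] at h1
      exact mul_ne_zero (Nat.cast_ne_zero.2 hd.ne') (hat o a ha).2.ne_zero h1
  choose φ f1 f2 using hφ
  obtain ⟨d, G', hd, q1, q2, q3, q4⟩ := HL _ G c _ hc hG
  obtain ⟨q5, -⟩ := q4 _ ev ev0
  rw [ev1] at q5
  have hd' : (d : k) ≠ 0 := Nat.cast_ne_zero.2 hd.ne'
  have q6 : ∀ κ, MvPowerSeries.coeff κ (ev G') = d * MvPowerSeries.coeff κ (aeval (xo ξ) G) :=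
    fun κ => by rw [q5, ← nsmul_eq_mul, map_nsmul, nsmul_eq_mul]
  obtain ⟨L, hL⟩ : ∃ L : Finset (O × ι), ∀ p, p ∈ L ↔ p.2 ∉ Set.range (C p.1).I :=
    ⟨univ.filter fun p => p.2 ∉ Set.range (C p.1).I, fun p => by simp only [mem_filter_univ]⟩
  refine (H (fun p => some (p.1, (C p.1).I p.2)) ?_ (K * ε) w' e0 ?_ ?_ ?_
    (fun p => x p.1 ((C p.1).I p.2)) ev ?_ (L.toList.map some ++ [none]) (fun s => s.elim φ₀ φ)
    ?_ ?_ ?_ ?_ D (by linarith [mul_le_mul_of_nonneg_right k3 (mul_pos hε d0).le]) G'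
    ⟨q1, fun μ hμ s => ?_, q3.trans ?_⟩ ?_).imp ?_ ?_
  · rintro ⟨o, j⟩ ⟨o', j'⟩ h
    obtain ⟨rfl, h1⟩ := Prod.mk.inj (Option.some.inj h)
    exact congrArg (Prod.mk o) ((C o).inj h1)
  · rintro (_ | p)
    · rwa [w4]
    · rw [w3]
      linarith [w1 p.1, mul_le_mul_of_nonneg_right k3 (mul_pos hε (w0 p.1)).le]
  · intro a b h
    rw [w3, w3]
    exact congrArg w h
  · intro a b h
    rw [w3, w3]
    exact hsep _ _ h
  · rintro ⟨o, j⟩
    refine (congrFun ev1 _).trans ?_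
    rw [xo, (hbr o).coord, map_add, MvPowerSeries.rename_C, MvPowerSeries.rename_X]
    rfl
  · rw [List.length_append, List.length_map, length_toList]
    exact Nat.add_le_add_right (card_le_univ L) 1
  · rintro (_ | ⟨o, a⟩)
    · exact Or.inl (by simp)
    · by_cases h : a ∈ Set.range (C o).I
      · obtain ⟨j, rfl⟩ := h
        exact Or.inr ⟨(o, j), rfl⟩
      · exact Or.inl (List.mem_append_left _ (List.mem_map_of_mem (mem_toList.2 ((hL _).2 h))))
  · rw [List.pairwise_append, List.pairwise_map]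
    refine ⟨(List.Pairwise.and_mem.1 L.nodup_toList).imp ?_, List.pairwise_singleton _ _, ?_⟩
    · rintro ⟨o, a⟩ ⟨o', b⟩ ⟨ha, -, hne⟩ μ hμ
      obtain ⟨h1, ν, hν, h2, -⟩ := env_rename o' _ (f1 (o', b) μ hμ)
      by_cases h : o = o'
      · subst h
        refine (h2 a).trans (by_contra fun h3 => ?_)
        rcases (C o).supp b ν hν a h3 with h4 | h4
        · exact hne (by rw [h4])
        · exact (hL _).1 (mem_toList.1 ha) h4
      · exact h1 o a h
    · intro a ha b hb μ hμ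
      obtain ⟨p, -, rfl⟩ := List.mem_map.1 ha
      obtain rfl := List.mem_singleton.1 hb
      exact (p2 μ hμ).2 p
  · intro t ht
    rcases List.mem_append.1 ht with h | h
    · obtain ⟨p, hp, rfl⟩ := List.mem_map.1 h
      exact f2 p ((hL _).1 (mem_toList.1 hp))
    · obtain rfl := List.mem_singleton.1 h
      obtain ⟨h1, h2⟩ := p3 _ ev
      refine ⟨p1, fun μ hμ s => ?_, fun μ hμ s hs => ?_, ?_, ?_, ?_⟩
      · rcases s with _ | s
        · exact (p2 μ hμ).1.trans (by omega)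
        · exact ((p2 μ hμ).2 s).le.trans (Nat.zero_le _)
      · rcases s with _ | s
        · exact absurd hs (lt_irrefl _)
        · exact (p2 μ hμ).2 s
      · rw [w4]
        change len φ₀ ≤ _
        linarith [Real.add_one_le_exp K']
      · exact h1.trans (by rw [ev0, Polynomial.aeval_algebraMap_apply, m0, map_zero])
      · refine h2.trans_ne ?_
        rw [ev0, Polynomial.aeval_algebraMap_apply]
        exact (map_ne_zero _).2 m1
  · rcases s with _ | p
    · have h1 : (μ none : ℝ) ≤ n + 1 := by exact_mod_cast (q2 μ hμ).1.trans (Nat.le_succ n)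
      exact (mul_le_mul_of_nonneg_left h1 w6).trans (w5 D d1)
    · rw [w3]
      exact hdeg _ (q2 μ hμ).2 p
  · have a1 : 0 < A := by linarith
    have h1 := env_card G (T := ε * D / A) (by positivity) fun μ hμ s => by
      rw [le_div_iff₀ a1]
      have h2 := mul_le_mul_of_nonneg_left (hdeg μ hμ s) hε.le
      linarith [mul_le_mul_of_nonneg_left (w1 s.1) (Nat.cast_nonneg (α := ℝ) (μ s))]
    refine (mul_le_mul h1 (mul_le_mul_of_nonneg_right c0 (Real.exp_pos _).le) (by positivity)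
      (Real.exp_pos _).le).trans ?_
    rw [← Real.exp_add, ← Real.exp_add, Real.exp_le_exp, ← hN]
    have h3 : 0 ≤ ε * D := by positivity
    have h2 : N * (ε * D / A) ≤ ε * D := by
      rw [← mul_div_assoc, div_le_iff₀ a1]
      linarith [mul_le_mul_of_nonneg_right (show N ≤ A by linarith) h3]
    linarith [mul_le_mul_of_nonneg_right k3 h3]
  · intro h
    refine h0 (MvPowerSeries.ext fun κ => ?_)
    have h1 := q6 κ
    rw [h, map_zero] at h1
    rw [map_zero]
    exact (mul_eq_zero.1 h1.symm).resolve_left hd'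
  · rintro ⟨κ, h1, h2⟩
    refine ⟨κ, lt_of_eq_of_lt ?_ h1, fun h => h2 (by rw [q6, h, mul_zero])⟩
    rw [Finsupp.weight_eq_sum, Fintype.sum_prod_type]
    simp only [bdeg, w3, Nat.cast_sum, mul_sum, nsmul_eq_mul, mul_comm]
  · rintro ⟨a, g, h1, h2, h3, h4, h5⟩
    obtain ⟨q, g1, g2, g3, g4, g5⟩ := env_exit a.1 h1.ne_zero h2 h3 _ h5
    have : 1 ≤ K := by exact_mod_cast (show (1 : ℝ) ≤ K by linarith)
    refine ⟨a.1, q, g1, g2, fun μ hμ j => (g3 μ hμ j).trans (Nat.le_mul_of_pos_right _ this),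
      g4.trans (h4.trans_eq ?_), g5⟩
    rw [w3, Nat.cast_mul, mul_assoc (B : ℝ) K]

end Pool.Agent.Lib.MP_651af7_nt.Av
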