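import Pool.Agent.Lib.MP_651af7_nt.Av.EAd

/-! Engine: common denominators and expansion in the powers of a generator. -/

namespace Pool.Agent.Lib.MP_651af7_nt.Av

open Finset NumberField

variable {k : Type} [Field k] [NumberField k]

private theorem eexp_val (v : FinitePlace k) {x : k} (hx : x ≠ 0) :
    ∃ a : ℤ, v x = (Ideal.absNorm v.maximalIdeal.asIdeal : ℝ) ^ a := by
  rw [← FinitePlace.norm_embedding_eq, FinitePlace.norm_embedding',
    WithZeroMulInt.toNNReal_neg_apply _ ((Valuation.ne_zero_iff _).2 hx)]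
  exact ⟨_, by push_cast; rfl⟩

private theorem eexp_int {x : k} (hx : ∀ v : FinitePlace k, v x ≤ 1) : IsIntegral ℤ x := by
  obtain ⟨a, rfl⟩ := IsDedekindDomain.HeightOneSpectrum.mem_integers_of_valuation_le_one
    (R := 𝓞 k) k x fun v => by
      have h := hx (FinitePlace.mk v)
      rw [FinitePlace.mk_apply, FinitePlace.norm_embedding'] at h
      exact (WithZeroMulInt.toNNReal_le_one_iff (HeightOneSpectrum.one_lt_absNorm_nnreal v)).1
        (by exact_mod_cast h)
  exact a.isIntegral_coe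

private theorem eexp_nat (v : FinitePlace k) (n : ℕ) : v (n : k) ≤ 1 := by
  rw [← FinitePlace.norm_embedding_eq, FinitePlace.norm_embedding]
  exact HeightOneSpectrum.adicAbv_natCast_le_one k _ n

private theorem eexp_loc (v : FinitePlace k) {c : ℝ} (hc : 1 ≤ c) :
    ∃ d : ℕ, 0 < d ∧ (d : ℝ) ≤ c ∧ ∀ x : k, v x ≤ c → v ((d : k) * x) ≤ 1 := by
  have h1 := HeightOneSpectrum.one_lt_absNorm v.maximalIdeal
  have h2 : v (Ideal.absNorm v.maximalIdeal.asIdeal : k) < 1 := by
    rw [← FinitePlace.norm_embedding_eq, ← map_natCast (algebraMap (𝓞 k) k)]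
    exact (FinitePlace.norm_lt_one_iff_mem k _ _).2 (Ideal.absNorm_mem _)
  have hv := fun {x : k} (hx : x ≠ 0) => eexp_val v hx
  generalize Ideal.absNorm v.maximalIdeal.asIdeal = N at h1 h2 hv
  have h3 : (1 : ℝ) < N := by exact_mod_cast h1
  obtain ⟨f, h4, h5⟩ := exists_nat_pow_near hc h3
  refine ⟨N ^ f, by positivity, by exact_mod_cast h4, fun x hx => ?_⟩
  rcases eq_or_ne x 0 with rfl | h0
  · simp
  obtain ⟨a, ha⟩ := hv h0
  obtain ⟨b, hb⟩ := hv (x := (N : k)) (by exact_mod_cast (zero_lt_one.trans h1).ne')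
  have h6 : b < 0 := by
    rw [hb] at h2
    exact (zpow_lt_one_iff_right₀ h3).1 h2
  have h7 : a < ((f + 1 : ℕ) : ℤ) := by
    rw [ha] at hx
    have := hx.trans_lt h5
    rw [← zpow_natCast] at this
    exact (zpow_lt_zpow_iff_right₀ h3).1 this
  rw [map_mul, Nat.cast_pow, map_pow, ha, hb, ← zpow_natCast, ← zpow_mul,
    ← zpow_add₀ (zero_lt_one.trans h3).ne']
  refine zpow_le_one_of_nonpos₀ h3.le ?_
  push_cast at h7
  nlinarith [Int.natCast_nonneg f]

/-- Sketch.  `d` is the product over the finitely many finite places `v` with `1 < c v` of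
`N v ^ f`, `f` maximal with `N v ^ f ≤ c v`; `v (N v) ≤ 1 / N v`, the values of `v` are the powers
of `N v`, so `v (d * x) ≤ 1` at all finite places.  (Or: the norm of the ideal of denominators.)
`d ≤ ∏ finite c v`, and one archimedean factor is at most the product of all of them. -/
theorem Ad.exists_den {c : AbsoluteValue k ℝ → ℝ} {h : ℝ} (hc : Ad c h) {Λ : Type} [Finite Λ]
    (x : Λ → k) (hx : ∀ i v, Adm v → v (x i) ≤ c v) :
    ∃ d : ℕ, 0 < d ∧ ∀ i, IsIntegral ℤ ((d : k) * x i) ∧ house ((d : k) * x i) ≤ Real.exp h := by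
  classical
  choose d h1 h2 h3 using fun v : FinitePlace k => eexp_loc v (hc.one v.1)
  have hfin : (Function.support fun v : FinitePlace k => Real.log (c v.1)).Finite := hc.fin
  have hD : 0 < ∏ v ∈ hfin.toFinset, d v := prod_pos fun v _ => h1 v
  have hA : ∀ i, house (x i) ≤
      Real.exp ((Height.AdmissibleAbsValues.archAbsVal (K := k)).map
        fun v => Real.log (c v)).sum := fun i => by
    refine (pi_norm_le_iff_of_nonneg (Real.exp_pos _).le).2 fun σ => ?_
    have hm : (InfinitePlace.mk σ).1 ∈ Height.AdmissibleAbsValues.archAbsVal (K := k) :=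
      mem_multisetInfinitePlace.2 (InfinitePlace.mk σ).isInfinitePlace
    calc ‖canonicalEmbedding k (x i) σ‖ = (InfinitePlace.mk σ).1 (x i) := by
          rw [canonicalEmbedding.apply_at]
          exact (InfinitePlace.apply σ (x i)).symm
      _ ≤ c (InfinitePlace.mk σ).1 := hx i _ (Or.inl hm)
      _ = Real.exp (Real.log (c (InfinitePlace.mk σ).1)) := (Real.exp_log (hc.pos _)).symm
      _ ≤ _ := by
          refine Real.exp_le_exp.2 (Multiset.single_le_sum (fun y hy => ?_) _
            (Multiset.mem_map_of_mem _ hm))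
          obtain ⟨v, -, rfl⟩ := Multiset.mem_map.1 hy
          exact Real.log_nonneg (hc.one v)
  have hB : ((∏ v ∈ hfin.toFinset, d v : ℕ) : ℝ) ≤
      Real.exp (∑ᶠ v : FinitePlace k, Real.log (c v.1)) := by
    rw [finsum_eq_sum _ hfin, Real.exp_sum, Nat.cast_prod]
    exact prod_le_prod (fun v _ => Nat.cast_nonneg _) fun v _ => by
      rw [Real.exp_log (hc.pos _)]; exact h2 v
  refine ⟨_, hD, fun i => ⟨eexp_int fun w => ?_, ?_⟩⟩
  · have hw : w (x i) ≤ c w.1 := hx i w.1 (Or.inr w.2)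
    by_cases hm : w ∈ hfin.toFinset
    · rw [← prod_erase_mul _ _ hm, Nat.cast_mul, mul_assoc, map_mul]
      exact mul_le_one₀ (eexp_nat w _) (apply_nonneg _ _) (h3 w _ hw)
    · have h4 : Real.log (c w.1) = 0 := not_not.1 fun h4 => hm (hfin.mem_toFinset.2 h4)
      rw [Real.eq_one_of_pos_of_log_eq_zero (hc.pos _) h4] at hw
      rw [map_mul]
      exact mul_le_one₀ (eexp_nat w _) (apply_nonneg _ _) hw
  · rw [house_nat_mul]
    refine (mul_le_mul hB (hA i) (house_nonneg _) (Real.exp_pos _).le).trans ?_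
    rw [← Real.exp_add, add_comm]
    exact Real.exp_le_exp.2 hc.le

private theorem eexp_coord : ∃ c : ℝ, 0 ≤ c ∧ ∀ (α : 𝓞 k) j,
    |(((RingOfIntegers.basis k).repr α j : ℤ) : ℝ)| ≤ c * house (α : k) := by
  classical
  obtain ⟨c, hc⟩ : ∃ c : ℝ, ∀ (α : 𝓞 k) (σ : k →+* ℂ),
      ‖(((integralBasis k).reindex (equivReindex k).symm).repr α σ : ℂ)‖ ≤
        c * house (algebraMap (𝓞 k) k α) :=
    ⟨_, NumberField.house.basis_repr_norm_le_const_mul_house k⟩
  refine ⟨max 0 c, le_max_left _ _, fun α j => ?_⟩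
  obtain ⟨σ, rfl⟩ := (equivReindex k).surjective j
  have h := hc α σ
  have h1 : ((integralBasis k).reindex (equivReindex k).symm).repr (α : k) σ =
      (((RingOfIntegers.basis k).repr α (equivReindex k σ) : ℤ) : ℚ) := by
    rw [Module.Basis.repr_reindex_apply, Equiv.symm_symm]
    exact integralBasis_repr_apply k α _
  rw [h1, Rat.cast_intCast, Complex.norm_intCast] at h
  exact h.trans (mul_le_mul_of_nonneg_right (le_max_right _ _) (house_nonneg _))

private theorem eexp_den {I : Type} [Fintype I] (q : I → ℚ) :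
    ∃ N : ℕ, 0 < N ∧ ∀ i, ∃ m : ℤ, (N : ℚ) * q i = m := by
  refine ⟨∏ i, (q i).den, prod_pos fun i _ => (q i).den_pos, fun i => ?_⟩
  obtain ⟨e, he⟩ := dvd_prod_of_mem (fun i => (q i).den) (mem_univ i)
  refine ⟨e * (q i).num, ?_⟩
  rw [he, Nat.cast_mul, mul_right_comm, Rat.den_mul_eq_num]
  push_cast
  ring

/-- Sketch.  `θ` is an integral primitive element, `mp` its minimal polynomial; express an
integral basis in the powers of `θ` with a common denominator `N₀`; the coordinates in the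
integral basis are bounded by `NumberField.house.basis_repr_norm_le_const_mul_house` (see
`mova_coord` in `Rt/MovA.lean`). -/
theorem exists_pow_exp (k : Type) [Field k] [NumberField k] :
    ∃ (θ : k) (n N₀ : ℕ) (C : ℝ) (mp : Polynomial ℤ), 0 < N₀ ∧ 1 ≤ C ∧
      Polynomial.aeval θ mp = 0 ∧ Polynomial.aeval θ (Polynomial.derivative mp) ≠ 0 ∧
      ∀ x : k, IsIntegral ℤ x → ∃ z : Fin n → ℤ,
        (N₀ : k) * x = ∑ l, (z l : k) * θ ^ (l : ℕ) ∧ ∀ l, |(z l : ℝ)| ≤ C * house x := by
  let pb := Field.powerBasisOfFiniteOfSeparable ℚ k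
  obtain ⟨b, hb, hmp⟩ :=
    IsLocalization.integerNormalization_spec (nonZeroDivisors ℤ) (minpoly ℚ pb.gen)
  obtain ⟨c, hc0, hc⟩ := eexp_coord (k := k)
  obtain ⟨N, hN, hm⟩ := eexp_den fun p : Module.Free.ChooseBasisIndex ℤ (𝓞 k) × Fin pb.dim =>
    pb.basis.repr (RingOfIntegers.basis k p.1 : k) p.2
  choose m hm using hm
  have hS : 0 ≤ ∑ p, |(m p : ℝ)| := sum_nonneg fun p _ => abs_nonneg _
  refine ⟨pb.gen, pb.dim, N, 1 + (∑ p, |(m p : ℝ)|) * c, _, hN,
    le_add_of_nonneg_right (mul_nonneg hS hc0),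
    IsLocalization.integerNormalization_aeval_eq_zero (nonZeroDivisors ℤ) _
      (minpoly.aeval ℚ pb.gen), ?_, fun x hx => ?_⟩
  · rw [← Polynomial.aeval_map_algebraMap ℚ, ← Polynomial.derivative_map, hmp,
      Polynomial.derivative_smul, map_zsmul]
    exact smul_ne_zero (nonZeroDivisors.ne_zero hb)
      ((Algebra.IsSeparable.isSeparable ℚ pb.gen).aeval_derivative_ne_zero (minpoly.aeval _ _))
  · let α : 𝓞 k := ⟨x, hx⟩
    have h1 : ∀ j, (N : k) * (RingOfIntegers.basis k j : k) =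
        ∑ l, (m (j, l) : k) * pb.gen ^ (l : ℕ) := fun j => by
      conv_lhs => rw [← pb.basis.sum_repr (RingOfIntegers.basis k j : k)]
      rw [mul_sum]
      refine sum_congr rfl fun l _ => ?_
      have h2 := congrArg (algebraMap ℚ k) (hm (j, l))
      rw [map_mul, map_natCast, map_intCast] at h2
      rw [← h2, pb.basis_eq_pow, Algebra.smul_def, mul_assoc]
    have h2 : x = ∑ j, (((RingOfIntegers.basis k).repr α j : ℤ) : k) *
        (RingOfIntegers.basis k j : k) := by
      have h3 := congrArg (algebraMap (𝓞 k) k) ((RingOfIntegers.basis k).sum_repr α)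
      rw [map_sum] at h3
      refine h3.symm.trans (sum_congr rfl fun j _ => ?_)
      rw [zsmul_eq_mul, map_mul, map_intCast]
    refine ⟨fun l => ∑ j, (RingOfIntegers.basis k).repr α j * m (j, l), ?_, fun l => ?_⟩
    · rw [h2, mul_sum]
      push_cast
      simp only [sum_mul]
      rw [sum_comm]
      refine sum_congr rfl fun j _ => ?_
      rw [mul_left_comm, h1, mul_sum]
      exact sum_congr rfl fun l _ => (mul_assoc _ _ _).symm
    · have h3 : 0 ≤ house x := house_nonneg x
      have h4 : ∑ j, |(m (j, l) : ℝ)| ≤ ∑ p, |(m p : ℝ)| := by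
        rw [Fintype.sum_prod_type]
        exact sum_le_sum fun j _ =>
          single_le_sum (f := fun l => |(m (j, l) : ℝ)|) (fun _ _ => abs_nonneg _) (mem_univ l)
      push_cast
      calc |∑ j, (((RingOfIntegers.basis k).repr α j : ℤ) : ℝ) * (m (j, l) : ℝ)|
          ≤ ∑ j, |(m (j, l) : ℝ)| * (c * house x) := by
            refine (abs_sum_le_sum_abs _ _).trans (sum_le_sum fun j _ => ?_)
            rw [abs_mul, mul_comm]
            exact mul_le_mul_of_nonneg_left (hc α j) (abs_nonneg _)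
        _ ≤ (∑ p, |(m p : ℝ)|) * (c * house x) := by
            rw [← sum_mul]
            exact mul_le_mul_of_nonneg_right h4 (mul_nonneg hc0 h3)
        _ ≤ _ := by linarith

theorem exists_exp (k : Type) [Field k] [NumberField k] :
    ∃ (θ : k) (n : ℕ) (C : ℝ) (mp : Polynomial ℤ), 1 ≤ C ∧
      Polynomial.aeval θ mp = 0 ∧ Polynomial.aeval θ (Polynomial.derivative mp) ≠ 0 ∧
      ∀ (Λ : Type) [Finite Λ] (x : Λ → k) (c : AbsoluteValue k ℝ → ℝ) (h : ℝ), Ad c h →
        (∀ i v, Adm v → v (x i) ≤ c v) → ∃ (d : ℕ) (z : Λ → Fin n → ℤ), 0 < d ∧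
          (∀ i, (d : k) * x i = ∑ l, (z i l : k) * θ ^ (l : ℕ)) ∧
          ∀ i l, |(z i l : ℝ)| ≤ C * Real.exp h := by
  obtain ⟨θ, n, N₀, C, mp, h0, h1, h2, h3, H⟩ := exists_pow_exp k
  refine ⟨θ, n, C, mp, h1, h2, h3, fun Λ _ x c h hc hx => ?_⟩
  obtain ⟨d, hd, h4⟩ := hc.exists_den x hx
  choose z hz hb using fun i => H _ (h4 i).1
  refine ⟨N₀ * d, z, Nat.mul_pos h0 hd, fun i => ?_, fun i l => (hb i l).trans ?_⟩
  · rw [← hz, Nat.cast_mul, mul_assoc]
  · exact mul_le_mul_of_nonneg_left (h4 i).2 (by linarith)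

end Pool.Agent.Lib.MP_651af7_nt.Av
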