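import Pool.Agent.Lib.MP_651af7_nt.MWSel

/-! Kummer theory of quadratic characters unramified outside a finite set, and an abstract weak
Mordell-Weil theorem. -/

namespace Pool.Agent.Lib.MP_651af7_nt.Av

open IsDedekindDomain NumberField Ideal

section inertia

variable {K L : Type} [Field K] [NumberField K] [Field L] [NumberField L] [Algebra K L]

/-- The automorphism acts trivially on the residue field of `w`. -/
def Inert (w : HeightOneSpectrum (𝓞 L)) (τ : Gal(L/K)) : Prop :=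
  ∀ x : L, w.valuation L x ≤ 1 → w.valuation L (τ x - x) < 1

omit [NumberField K] in
theorem inert_of_mem (w : HeightOneSpectrum (𝓞 L)) {τ : Gal(L/K)}
    (h : τ ∈ w.asIdeal.inertia Gal(L/K)) : Inert w τ := by
  intro x hx
  obtain ⟨n, ⟨d, hd⟩, e⟩ := w.exists_primeCompl_mul_eq_of_integer x hx
  have h1 : ∀ z : 𝓞 L, w.valuation L (τ z - z) < 1 := fun z => by
    have := (w.valuation_lt_one_iff_mem (K := L) (τ • z - z)).2 (h z)
    exact this
  have hd1 : w.valuation L (d : L) = 1 := by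
    have := (w.intValuation_eq_one_iff_mem_primeCompl d).2 hd
    rw [← this]
    exact w.valuation_of_algebraMap d
  have hd2 : w.valuation L (τ d) = 1 := by
    have := (w.valuation L).map_add_eq_of_lt_right (x := τ d - d) (y := d) (hd1 ▸ h1 d)
    rwa [sub_add_cancel, hd1] at this
  have e1 : x * (d : L) = (n : L) := e
  have e2 : τ x * τ d = τ n := by rw [← map_mul, e1]
  have e3 : (τ x - x) * ((d : L) * τ d) = (τ n - n) * d - n * (τ d - d) := by
    linear_combination (d : L) * e2 - τ d * e1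
  have e4 := congrArg (w.valuation L) e3
  rw [map_mul, map_mul, hd1, hd2, mul_one, mul_one] at e4
  rw [e4]
  refine lt_of_le_of_lt ((w.valuation L).map_sub _ _) (max_lt ?_ ?_)
  · rw [map_mul, hd1, mul_one]
    exact h1 n
  · rw [map_mul]
    exact lt_of_le_of_lt (mul_le_of_le_one_left' (w.valuation_le_one n)) (h1 d)

theorem isSquare_of_inertia [IsGalois K L] (v : HeightOneSpectrum (𝓞 K))
    (w : HeightOneSpectrum (𝓞 L)) [w.asIdeal.LiesOver v.asIdeal] {α : L} {a : K}
    (h : α ^ 2 = algebraMap K L a) (hI : ∀ τ : Gal(L/K), Inert w τ → τ α = α) :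
    IsSquare (v.valuation K a) := by
  let H := w.asIdeal.inertia Gal(L/K)
  let E : IntermediateField K L := FixedPoints.intermediateField H
  have : NumberField E := NumberField.of_module_finite K E
  have : IsGaloisGroup H E L := IsGaloisGroup.subgroup Gal(L/K) K L H
  have : IsGaloisGroup H (𝓞 E) (𝓞 L) := IsGaloisGroup.of_isFractionRing H (𝓞 E) (𝓞 L) E L
  let u : HeightOneSpectrum (𝓞 E) := w.under (𝓞 E)
  have : w.asIdeal.LiesOver u.asIdeal := ⟨rfl⟩
  have : u.asIdeal.LiesOver v.asIdeal := LiesOver.tower_bot w.asIdeal u.asIdeal v.asIdeal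
  have := v.isPrime
  have := u.isPrime
  have := w.isPrime
  have : PerfectField v.asIdeal.ResidueField := inferInstance
  have : PerfectField u.asIdeal.ResidueField := inferInstance
  have h1 := card_inertia_eq_ramificationIdxIn (G := Gal(L/K)) v.asIdeal w.asIdeal
  have h2 := card_inertia_eq_ramificationIdxIn (G := H) u.asIdeal w.asIdeal
  have h3 : w.asIdeal.inertia H = ⊤ := by
    rw [eq_top_iff]
    exact fun σ _ => coe_mem_inertia.1 σ.2
  rw [h3, Subgroup.card_top] at h2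
  rw [ramificationIdxIn_eq_ramificationIdx _ w.asIdeal Gal(L/K)] at h1
  rw [ramificationIdxIn_eq_ramificationIdx _ w.asIdeal H] at h2
  have h4 := ramificationIdx_tower (R := 𝓞 K) u.asIdeal w.asIdeal
  have h5 : u.asIdeal.ramificationIdx (𝓞 K) = 1 := by
    rw [← h2, ← h1] at h4
    exact (right_eq_mul₀ (Nat.card_pos (α := H)).ne').1 h4
  have h6 := HeightOneSpectrum.valuation_liesOver E v u a
  rw [ramificationIdx'_eq_ramificationIdx _ _ v.ne_bot, h5, pow_one] at h6
  have hα : α ∈ E := fun τ => hI τ (inert_of_mem w τ.2)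
  have h7 : algebraMap K E a = (⟨α, hα⟩ : E) ^ 2 := Subtype.ext h.symm
  rw [h6, h7, map_pow]
  exact IsSquare.sq _

end inertia

theorem kummer_finite {K : Type} [Field K] [NumberField K] (S : Set (HeightOneSpectrum (𝓞 K)))
    (hS : S.Finite) : ∃ T : Finset K, ∀ (L : Type) [Field L] [NumberField L] [Algebra K L]
      [IsGalois K L] (ε : Gal(L/K) →* ℤˣ),
      (∀ v ∉ S, ∀ w : HeightOneSpectrum (𝓞 L), w.asIdeal.LiesOver v.asIdeal →
        ∀ τ, Inert w τ → ε τ = 1) →
      ∃ t ∈ T, ∃ α : L, α ≠ 0 ∧ α ^ 2 = algebraMap K L t ∧ ∀ τ, τ α = ((ε τ : ℤ) : L) * α := by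
  obtain ⟨T, hT⟩ := Pool.Agent.MP_651af7_nt.MW.selmer_finite S hS
  refine ⟨T, fun L _ _ _ _ ε hε => ?_⟩
  let f : Gal(L/K) → Lˣ := fun τ => Units.map (Int.castRingHom L : ℤ →* L) (ε τ)
  have hf : ∀ τ, (f τ : L) = ((ε τ : ℤ) : L) := fun τ => rfl
  obtain ⟨β, hβ⟩ := groupCohomology.isMulCoboundary₁_of_isMulCocycle₁_of_aut_to_units f
    fun σ τ => Units.ext (by
      rw [Units.val_mul, hf, hf, AlgEquiv.smul_units_def, Units.coe_map, hf, map_mul]
      simp [mul_comm])
  have hβ' : ∀ τ : Gal(L/K), τ (β : L) = ((ε τ : ℤ) : L) * β := fun τ => by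
    have := congrArg Units.val (div_eq_iff_eq_mul.1 (hβ τ))
    rw [Units.val_mul, hf] at this
    exact this
  have hsq : ∀ τ, ((ε τ : ℤ) : L) ^ 2 = 1 := fun τ => by
    rcases Int.units_eq_one_or (ε τ) with h | h <;> simp [h]
  obtain ⟨a, ha⟩ : (β : L) ^ 2 ∈ (⊥ : IntermediateField K L) :=
    (IsGalois.mem_bot_iff_fixed _).2 fun τ => by rw [map_pow, hβ', mul_pow, hsq, one_mul]
  have ha' : algebraMap K L a = (β : L) ^ 2 := ha
  have ha0 : a ≠ 0 := by
    rintro rfl
    exact pow_ne_zero 2 β.ne_zero (by rw [← ha', map_zero])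
  obtain ⟨t, ht, z, e⟩ := hT a ha0 fun v hv => by
    have := v.isPrime
    obtain ⟨⟨P, hP, hP'⟩⟩ := v.asIdeal.nonempty_primesOver (S := 𝓞 L)
    let w : HeightOneSpectrum (𝓞 L) := ⟨P, hP, ne_bot_of_liesOver_of_ne_bot v.ne_bot P⟩
    have : w.asIdeal.LiesOver v.asIdeal := hP'
    refine isSquare_of_inertia v w ha'.symm fun τ hτ => ?_
    rw [hβ', hε v hv w hP' τ hτ]
    simp
  have hz : algebraMap K L z ≠ 0 := by
    rw [Ne, map_eq_zero]
    rintro rfl
    exact ha0 (by simpa using e)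
  refine ⟨t, ht, β / algebraMap K L z, div_ne_zero β.ne_zero hz, ?_, fun τ => ?_⟩
  · rw [div_pow, ← ha', e, map_mul, map_pow, mul_div_cancel_right₀ _ (pow_ne_zero 2 hz)]
  · rw [map_div₀, AlgEquiv.commutes, hβ', mul_div_assoc]

theorem sign_add : ∀ z z' : ZMod 2, (if z + z' = 0 then 1 else -1 : ℤˣ) =
    (if z = 0 then 1 else -1) * if z' = 0 then 1 else -1 := by decide

theorem exists_sign {M : Type} [AddCommGroup M] {T : M} (hT : T ≠ 0) (h2 : T + T = 0) :
    ∃ φ : M → ℤˣ, φ T ≠ 1 ∧ φ 0 = 1 ∧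
      ∀ x y, x + x = 0 → y + y = 0 → φ (x + y) = φ x * φ y := by
  classical
  let N : AddSubgroup M := (nsmulAddMonoidHom 2 : M →+ M).ker
  have hN : ∀ x, x ∈ N ↔ x + x = 0 := fun x => by
    simp [N, two_nsmul]
  have : Module (ZMod 2) N := AddCommGroup.zmodModule fun x => Subtype.ext x.2
  have : Fact (Nat.Prime 2) := ⟨Nat.prime_two⟩
  obtain ⟨l, hl⟩ := Module.Projective.exists_dual_ne_zero (ZMod 2)
    (x := (⟨T, (hN T).2 h2⟩ : N)) fun h => hT (congrArg Subtype.val h)
  let s : ZMod 2 → ℤˣ := fun z => if z = 0 then 1 else -1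
  have hs : ∀ z z', s (z + z') = s z * s z' := sign_add
  refine ⟨fun x => if h : x ∈ N then s (l ⟨x, h⟩) else 1, ?_, ?_, fun x y hx hy => ?_⟩
  · simp only [dif_pos ((hN T).2 h2), s, if_neg hl]
    decide
  · have : (⟨0, N.zero_mem⟩ : N) = 0 := rfl
    simp only [dif_pos N.zero_mem, this, map_zero, s, if_true]
  · have hx' := (hN x).2 hx
    have hy' := (hN y).2 hy
    simp only [dif_pos hx', dif_pos hy', dif_pos (N.add_mem hx' hy')]
    rw [← hs, ← map_add]
    rfl

/-- The abstract weak Mordell-Weil theorem. -/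
theorem weak_abstract {K Ω : Type} [Field K] [NumberField K] [Field Ω] [Algebra K Ω]
    [IsAlgClosure K Ω] {Γ M : Type} [AddCommGroup Γ] [AddCommGroup M] (ι : Γ →+ M)
    (hι : Function.Injective ι) (act : Gal(Ω/K) → M →+ M)
    (hact : ∀ σ τ y, act (σ * τ) y = act σ (act τ y)) (hfix : ∀ σ x, act σ (ι x) = ι x)
    (hdesc : ∀ y, (∀ σ, act σ y = y) → y ∈ ι.range) (hdiv : ∀ x, ∃ y, y + y = ι x)
    (hfin : {T : M | T + T = 0}.Finite) (hrat : ∀ T : M, T + T = 0 → T ∈ ι.range)
    (S : Set (HeightOneSpectrum (𝓞 K))) (hS : S.Finite)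
    (hur : ∀ x y, y + y = ι x → ∃ (L : IntermediateField K Ω) (_ : NumberField L)
      (_ : IsGalois K L), ∀ σ : Gal(Ω/K), (AlgEquiv.restrictNormalHom L σ = 1 → act σ y = y) ∧
        ∀ v ∉ S, ∀ w : HeightOneSpectrum (𝓞 L), w.asIdeal.LiesOver v.asIdeal →
          Inert w (AlgEquiv.restrictNormalHom L σ) → act σ y = y) :
    (nsmulAddMonoidHom 2 : Γ →+ Γ).range.FiniteIndex := by
  classical
  have : IsAlgClosed Ω := IsAlgClosure.isAlgClosed K
  obtain ⟨T, hT⟩ := kummer_finite S hS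
  choose y hy using hdiv
  have hfix2 : ∀ σ (t : M), t + t = 0 → act σ t = t := fun σ t ht => by
    obtain ⟨x, rfl⟩ := hrat t ht
    exact hfix σ x
  have htor : ∀ x σ, (act σ (y x) - y x) + (act σ (y x) - y x) = 0 := fun x σ => by
    rw [sub_add_sub_comm, ← map_add, hy, hfix, sub_self]
  let c : Γ →+ Gal(Ω/K) → M := AddMonoidHom.mk' (fun x σ => act σ (y x) - y x) fun x x' => by
    funext σ
    have h1 : (y (x + x') - y x - y x') + (y (x + x') - y x - y x') = 0 := by
      rw [sub_add_sub_comm, sub_add_sub_comm, hy, hy, hy, map_add]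
      abel
    have h2 := hfix2 σ _ h1
    rw [map_sub, map_sub] at h2
    rw [Pi.add_apply, sub_add_sub_comm, sub_eq_sub_iff_sub_eq_sub, ← sub_sub, ← sub_sub, h2]
  have hc : ∀ x σ, c x σ = act σ (y x) - y x := fun _ _ => rfl
  have hmul : ∀ x σ τ, c x (σ * τ) = c x σ + c x τ := fun x σ τ => by
    have h2 := hfix2 σ _ (htor x τ)
    rw [map_sub] at h2
    rw [hc, hc, hc, hact, ← h2]
    abel
  choose r hr using fun t : K => IsAlgClosed.exists_pow_nat_eq (algebraMap K Ω t) two_pos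
  have hker : ∀ x σ, (∀ t ∈ T, σ (r t) = r t) → c x σ = 0 := by
    intro x σ hσ
    by_contra h0
    obtain ⟨φ, h1, h2, h3⟩ := exists_sign h0 (htor x σ)
    obtain ⟨L, _, _, hL⟩ := hur x (y x) (hy x)
    let ε' : Gal(Ω/K) →* ℤˣ := MonoidHom.mk' (fun τ => φ (c x τ)) fun τ τ' => by
      rw [hmul]
      exact h3 _ _ (htor x τ) (htor x τ')
    have hε' : ∀ τ, act τ (y x) = y x → ε' τ = 1 := fun τ hτ => by
      show φ (c x τ) = 1
      rw [hc, hτ, sub_self, h2]
    have hs := AlgEquiv.restrictNormalHom_surjective (F := K) (K₁ := L) Ω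
    let ε := (AlgEquiv.restrictNormalHom L).liftOfSurjective hs
      ⟨ε', fun τ hτ => hε' τ ((hL τ).1 hτ)⟩
    have hε : ∀ τ, ε (AlgEquiv.restrictNormalHom L τ) = ε' τ := fun τ =>
      MonoidHom.liftOfRightInverse_comp_apply _ _ _ _ τ
    obtain ⟨t, ht, α, a0, a1, a2⟩ := hT L ε fun v hv w hw τ hτ => by
      obtain ⟨τ, rfl⟩ := hs τ
      rw [hε]
      exact hε' τ ((hL τ).2 v hv w hw hτ)
    have a3 : (α : Ω) ^ 2 = r t ^ 2 := by
      rw [hr]
      exact congrArg Subtype.val a1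
    have a4 : σ α = α := by
      rcases sq_eq_sq_iff_eq_or_eq_neg.1 a3 with h | h
      · rw [h, hσ t ht]
      · rw [h, map_neg, hσ t ht]
    have a5 := congrArg Subtype.val (a2 (AlgEquiv.restrictNormalHom L σ))
    rw [AlgEquiv.restrictNormalHom_apply, a4, hε] at a5
    have a6 : ε' σ = -1 := (Int.units_eq_one_or _).resolve_left h1
    have : CharZero Ω := charZero_of_injective_algebraMap (algebraMap K Ω).injective
    have a7 : (α : Ω) = 0 := by
      rw [a6] at a5
      simp only [Units.val_neg, Units.val_one, Int.cast_neg, Int.cast_one, neg_mul, one_mul,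
        NegMemClass.coe_neg] at a5
      linear_combination a5 / 2
    exact a0 (Subtype.ext a7)
  let ψ : Gal(Ω/K) → T → Ω := fun σ t => σ (r t)
  have hψ : (Set.range ψ).Finite := by
    refine (Set.Finite.pi' (t := fun t : T => ({r t, -r t} : Set Ω))
      fun t => Set.toFinite _).subset ?_
    rintro _ ⟨σ, rfl⟩ t
    have : σ (r t) ^ 2 = r t ^ 2 := by rw [← map_pow, hr, AlgEquiv.commutes]
    exact sq_eq_sq_iff_eq_or_eq_neg.1 this
  have hcψ : ∀ x σ σ', ψ σ = ψ σ' → c x σ = c x σ' := fun x σ σ' h => by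
    have h1 := hker x (σ⁻¹ * σ') fun t ht => by
      have h2 : σ (r t) = σ' (r t) := congrFun h ⟨t, ht⟩
      rw [AlgEquiv.mul_apply, ← h2, ← AlgEquiv.mul_apply, inv_mul_cancel, AlgEquiv.one_apply]
    have h2 := hmul x σ (σ⁻¹ * σ')
    rw [mul_inv_cancel_left, h1, add_zero] at h2
    exact h2.symm
  have hfr : Finite c.range := by
    have := hψ.to_subtype
    have := hfin.to_subtype
    refine Finite.of_injective (β := Set.range ψ → {T : M | T + T = 0})
      (fun f q => ⟨f.1 q.2.choose, ?_⟩) ?_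
    · obtain ⟨_, x, rfl⟩ := f
      exact htor x _
    · rintro ⟨_, x, rfl⟩ ⟨_, x', rfl⟩ h
      refine Subtype.ext (funext fun σ => ?_)
      have h1 := congrArg Subtype.val (congrFun h ⟨ψ σ, σ, rfl⟩)
      have h2 := (⟨σ, rfl⟩ : ∃ τ, ψ τ = ψ σ).choose_spec
      exact (hcψ x _ _ h2).symm.trans (h1.trans (hcψ x' _ _ h2))
  have : c.ker.FiniteIndex := AddSubgroup.finiteIndex_ker c
  refine AddSubgroup.finiteIndex_of_le (H := c.ker) fun x hx => ?_
  obtain ⟨z, hz⟩ := hdesc (y x) fun σ => sub_eq_zero.1 (congrFun hx σ)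
  refine ⟨z, hι ?_⟩
  rw [nsmulAddMonoidHom_apply, two_nsmul, map_add, hz, hy]

end Pool.Agent.Lib.MP_651af7_nt.Av
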