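import Pool.Agent.Lib.MP_651af7_nt.Av.MWHt
import Pool.Agent.Lib.MP_651af7_nt.Av.MWKum
import Pool.Agent.Lib.MP_651af7_nt.MWQuad

/-! The Mordell-Weil theorem and the canonical height as a squared Euclidean norm. -/

namespace Pool.Agent.Lib.MP_651af7_nt.Av

open MvPolynomial IsDedekindDomain NumberField

section val

variable {K L : Type} [Field K] [NumberField K] [Field L] [NumberField L] [Algebra K L]

/-- The coefficients are integral at `v`. -/
def IntAt {σ : Type} (v : HeightOneSpectrum (𝓞 K)) (P : MvPolynomial σ K) : Prop :=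
  ∀ m ∈ P.support, v.valuation K (coeff m P) ≤ 1

theorem finite_not_intAt {σ : Type} (P : MvPolynomial σ K) : {v | ¬IntAt v P}.Finite := by
  refine (P.support.finite_toSet.biUnion
    (t := fun m => HeightOneSpectrum.Support (𝓞 K) (coeff m P))
    fun m _ => HeightOneSpectrum.Support.finite _ _).subset fun v hv => ?_
  simp only [IntAt, Set.mem_ofPred_eq, not_forall, not_le] at hv
  obtain ⟨m, hm, h⟩ := hv
  exact Set.mem_biUnion hm h

theorem IntAt.val_le {σ : Type} {v : HeightOneSpectrum (𝓞 K)} {P : MvPolynomial σ K}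
    (h : IntAt v P) (w : HeightOneSpectrum (𝓞 L)) [w.asIdeal.LiesOver v.asIdeal] {y : σ → L}
    (hy : ∀ a, w.valuation L (y a) ≤ 1) : w.valuation L (aeval y P) ≤ 1 := by
  refine eval₂_mem (s := (w.valuation L).integer) (fun m hm => ?_) hy
  rw [Valuation.mem_integer_iff, ← HeightOneSpectrum.valuation_liesOver L v w]
  exact pow_le_one' (h m hm) _

theorem no_close {ι : Type} [Fintype ι] {v : HeightOneSpectrum (𝓞 K)}
    (w : HeightOneSpectrum (𝓞 L)) [w.asIdeal.LiesOver v.asIdeal] {F : ι → ι → MvPolynomial ι K}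
    {H : ι × ι × ι → MvPolynomial ι K} (hF : ∀ a c, IntAt v (F a c)) (hH : ∀ j, IntAt v (H j))
    {y y' : ι → L} (hy : ∀ a, w.valuation L (y a) ≤ 1)
    (hy' : ∀ a, w.valuation L (y' a - y a) < 1)
    (hrel : ∀ a b c, aeval y (F a c) * y' b = aeval y (F b c) * y' a) :
    w.valuation L (aeval y (∑ j : ι × ι × ι,
      H j * (F j.1 j.2.2 * X j.2.1 - F j.2.1 j.2.2 * X j.1))) < 1 := by
  rw [map_sum]
  refine Valuation.map_sum_lt _ one_ne_zero fun j _ => ?_
  have e : aeval y (F j.1 j.2.2 * X j.2.1 - F j.2.1 j.2.2 * X j.1) =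
      aeval y (F j.2.1 j.2.2) * (y' j.1 - y j.1) - aeval y (F j.1 j.2.2) * (y' j.2.1 - y j.2.1) := by
    rw [map_sub, map_mul, map_mul, aeval_X, aeval_X]
    linear_combination hrel j.1 j.2.1 j.2.2
  rw [map_mul, map_mul, e]
  refine lt_of_le_of_lt (mul_le_of_le_one_left' ((hH j).val_le w hy)) ?_
  refine lt_of_le_of_lt ((w.valuation L).map_sub _ _) (max_lt ?_ ?_)
  all_goals
    rw [map_mul]
    exact lt_of_le_of_lt (mul_le_of_le_one_left' ((hF _ _).val_le w hy)) (hy' _)

end val

namespace AV

variable {k : Type} [Field k] {ι : Type} [Fintype ι] (A : AV k ι)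

section weak

variable {K Ω : Type} [Field K] [Algebra k K] [Field Ω] [Algebra k Ω] [Algebra K Ω]
  [IsScalarTower k K Ω]

/-- The forms that give the translation by a point with coordinates `t`. -/
noncomputable def tr (t : ι → K) (a c : ι) : MvPolynomial ι K :=
  aeval (Sum.elim X fun b => C (t b)) (MvPolynomial.map (algebraMap k K) (A.Φ a c))

omit [Fintype ι] in
theorem aeval_tr (t : ι → K) (a c : ι) (z : ι → Ω) :
    aeval z (A.tr t a c) = A.ph a c z fun b => algebraMap K Ω (t b) := by
  rw [tr, ← AlgHom.comp_apply, comp_aeval, aeval_map_algebraMap, ph]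
  congr 2
  ext (b | b) <;> simp

theorem tr_cert [IsAlgClosed Ω] {T : A.Pt K} (hT : T ≠ 0) (a : ι) :
    ∃ (M : ℕ) (H : ι × ι × ι → MvPolynomial ι K), ∀ z : ι → Ω, (∀ P ∈ A.I, aeval z P = 0) →
      z a ^ M = aeval z (∑ j : ι × ι × ι,
        H j * (A.tr T.co j.1 j.2.2 * X j.2.1 - A.tr T.co j.2.1 j.2.2 * X j.1)) := by
  obtain ⟨M, hM⟩ := null_cert Ω (A.I.map (MvPolynomial.map (algebraMap k K)))
    (fun j : ι × ι × ι => A.tr T.co j.1 j.2.2 * X j.2.1 - A.tr T.co j.2.1 j.2.2 * X j.1) (X a)
    fun z hz h => by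
      rw [aeval_X]
      by_contra h0
      obtain ⟨p, hp⟩ := exists_rep_of_ne (A := A) (fun e => h0 (congrFun e a)) fun P hP => by
        have := hz _ (Ideal.mem_map_of_mem _ hP)
        rwa [aeval_map_algebraMap] at this
      have hq := (rep_co T).map (IsScalarTower.toAlgHom k K Ω)
      obtain ⟨b, c, hu⟩ := exists_unit_ph hp hq
      have h1 := (rep_add hp hq hu).of_minors hp.unit fun a₁ a₂ => by
        have := h (a₁, a₂, c)
        rw [map_sub, map_mul, map_mul, aeval_X, aeval_X, aeval_tr, aeval_tr, sub_eq_zero] at this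
        exact this
      have h2 := add_eq_left.1 (h1.inj hp)
      exact hT (map_injective (algebraMap K Ω).injective (h2.trans (map_zero _).symm))
  obtain ⟨H, hH⟩ := hM M le_rfl
  refine ⟨M, H, fun z hz => ?_⟩
  have h1 : A.I.map (MvPolynomial.map (algebraMap k K)) ≤ RingHom.ker (aeval (R := K) z) := by
    rw [Ideal.map_le_iff_le_comap]
    intro P hP
    rw [Ideal.mem_comap, RingHom.mem_ker, aeval_map_algebraMap]
    exact hz P hP
  have h2 := h1 hH
  rwa [RingHom.mem_ker, map_sub, map_pow, aeval_X, sub_eq_zero] at h2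

variable [NumberField K] [IsAlgClosure K Ω]

theorem weak (hrat : ∀ T : A.Pt Ω, T + T = 0 → T ∈ (A.map (IsScalarTower.toAlgHom k K Ω)).range) :
    (nsmulAddMonoidHom 2 : A.Pt K →+ A.Pt K).range.FiniteIndex := by
  have : IsAlgClosed Ω := IsAlgClosure.isAlgClosed K
  let j := A.map (IsScalarTower.toAlgHom k K Ω)
  have hj : Function.Injective j := map_injective (algebraMap K Ω).injective
  let act : Gal(Ω/K) → A.Pt Ω →+ A.Pt Ω := fun σ => A.map ((σ : Ω →ₐ[K] Ω).restrictScalars k)
  have hrep : ∀ σ {p : A.Pt Ω} {y : ι → Ω}, Rep p y → Rep (act σ p) fun a => σ (y a) :=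
    fun σ p y h => h.map _
  have hfix : ∀ σ x, act σ (j x) = j x := fun σ x => by
    have h1 := (rep_co x).map (IsScalarTower.toAlgHom k K Ω)
    refine (hrep σ h1).inj ?_
    simpa using h1
  have hfin : {T : A.Pt K | T + T = 0 ∧ T ≠ 0}.Finite := by
    refine ((finite_half (0 : A.Pt Ω)).preimage hj.injOn).subset fun T hT => ?_
    show j T + j T = 0
    rw [← map_add, hT.1, map_zero]
  have := hfin.to_subtype
  choose M H hH using fun (T : {T : A.Pt K | T + T = 0 ∧ T ≠ 0}) (a : ι) =>
    A.tr_cert (Ω := Ω) T.2.2 a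
  refine weak_abstract j hj act (fun σ τ y => ?_) hfix (fun y hy => ?_)
    (fun x => exists_half _) (finite_half 0) hrat
    (⋃ T : {T : A.Pt K | T + T = 0 ∧ T ≠ 0}, ⋃ a, ((⋃ c, {v | ¬IntAt v (A.tr T.1.co a c)}) ∪
      ⋃ i, {v | ¬IntAt v (H T a i)}))
    (Set.finite_iUnion fun T => Set.finite_iUnion fun a =>
      (Set.finite_iUnion fun c => finite_not_intAt _).union
        (Set.finite_iUnion fun i => finite_not_intAt _)) fun x y hxy => ?_
  · exact (hrep _ (rep_co y)).inj (hrep σ (hrep τ (rep_co y)))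
  · obtain ⟨w, a, hw, ha⟩ := exists_rep_one y
    have h1 : ∀ b, ∃ c, algebraMap K Ω c = w b := fun b =>
      (InfiniteGalois.mem_bot_iff_fixed (k := K) (w b)).2 fun σ => by
        have h2 := hw.minors (hy σ ▸ hrep σ hw) a b
        simpa [ha] using h2
    choose u hu using h1
    obtain ⟨p, -, hp⟩ := exists_map_eq (f := IsScalarTower.toAlgHom k K Ω) (q := y) (v := u)
      (algebraMap K Ω).injective
      ⟨a, Ne.isUnit fun h => one_ne_zero (ha.symm.trans ((hu a).symm.trans (by rw [h, map_zero])))⟩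
      (by simpa [hu] using hw)
    exact ⟨p, hp⟩
  · let L := FiniteGaloisIntermediateField.adjoin K (Set.range y.co)
    let w : ι → L := fun a => ⟨y.co a, FiniteGaloisIntermediateField.subset_adjoin K _ ⟨a, rfl⟩⟩
    refine ⟨L.toIntermediateField, NumberField.of_module_finite K L, inferInstance,
      fun σ => ⟨fun h => ?_, fun v hv 𝔴 h𝔴 h => ?_⟩⟩
    · refine (hrep σ (rep_co y)).inj ?_
      have : (fun a => σ (y.co a)) = y.co := funext fun a => by
        have := AlgEquiv.restrictNormalHom_apply L.toIntermediateField σ (w a)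
        rw [h] at this
        exact this.symm
      rw [this]
      exact rep_co y
    · have : NumberField L := NumberField.of_module_finite K L
      by_contra hne
      obtain ⟨T, hT⟩ := hrat (act σ y - y) (by
        rw [sub_add_sub_comm, ← map_add, hxy, hfix, sub_self])
      have hT2 : T + T = 0 ∧ T ≠ 0 := by
        refine ⟨hj ?_, fun h0 => hne (sub_eq_zero.1 (by rw [← hT, h0, map_zero]))⟩
        rw [map_add, map_zero, show j T = _ from hT, sub_add_sub_comm, ← map_add, hxy, hfix,
          sub_self]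
      simp only [Set.mem_iUnion, Set.mem_union, Set.mem_ofPred_eq, not_exists, not_or,
        not_not] at hv
      have : Nonempty ι := ⟨A.ao⟩
      obtain ⟨a, ha⟩ := Finite.exists_max fun a => 𝔴.valuation L (w a)
      have ha0 : w a ≠ 0 := fun h0 => (rep_co y).ne_zero (funext fun b => by
        have h1 := ha b
        rw [h0, map_zero, le_zero_iff, map_eq_zero] at h1
        exact congrArg Subtype.val h1)
      let u : ι → L := fun b => (w a)⁻¹ * w b
      have hu : Rep y fun b => (u b : Ω) :=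
        (rep_co y).div (c := y.co a) fun h0 => ha0 (Subtype.ext h0)
      have hu1 : ∀ b, 𝔴.valuation L (u b) ≤ 1 := fun b => by
        rw [map_mul, map_inv₀, inv_mul_le_iff₀ (zero_lt_iff.2 ((map_ne_zero _).2 ha0)), mul_one]
        exact ha b
      have hco : ∀ P : MvPolynomial ι K, ((aeval u P : L) : Ω) = aeval (fun b => (u b : Ω)) P :=
        fun P => comp_aeval_apply u L.toIntermediateField.val P
      have h1 := no_close 𝔴 (fun a c => (hv ⟨T, hT2⟩ a).1 c) (hv ⟨T, hT2⟩ a).2 hu1
        (fun b => h (u b) (hu1 b)) fun a₁ a₂ c => Subtype.ext (by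
          have hq := (rep_co T).map (IsScalarTower.toAlgHom k K Ω)
          obtain ⟨s, hs⟩ := law hu hq (s := fun b => σ (u b))
            (by rw [hT, add_sub_cancel]; exact hrep σ hu) (rep_co _)
          rw [MulMemClass.coe_mul, MulMemClass.coe_mul, hco, hco, aeval_tr, aeval_tr,
            AlgEquiv.restrictNormalHom_apply, AlgEquiv.restrictNormalHom_apply]
          have h2 := hs a₁ c
          have h3 := hs a₂ c
          simp only [IsScalarTower.coe_toAlgHom'] at h2 h3
          rw [h2, h3]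
          ring)
      have h2 := hH ⟨T, hT2⟩ a _ hu.zero
      rw [← hco, show u a = 1 from inv_mul_cancel₀ ha0, OneMemClass.coe_one, one_pow] at h2
      exact h1.ne ((congrArg _ (Subtype.ext h2.symm : _ = (1 : L))).trans (map_one _))

end weak

/-- Mordell-Weil. -/
theorem mw_fg [NumberField k] : AddGroup.FG (A.Pt k) := by
  let Ω := AlgebraicClosure k
  have := (finite_half (0 : A.Pt Ω)).to_subtype
  let s : Set Ω := Set.range fun Ta : {T : A.Pt Ω | T + T = 0} × ι => Ta.1.1.co Ta.2
  let K := IntermediateField.adjoin k s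
  have : FiniteDimensional k K :=
    IntermediateField.finiteDimensional_adjoin fun x _ => Algebra.IsIntegral.isIntegral x
  have : NumberField K := NumberField.of_module_finite k K
  have : IsAlgClosure K Ω := ⟨inferInstance, inferInstance⟩
  have hw := A.weak (K := K) (Ω := Ω) fun T hT => by
    obtain ⟨a, ha⟩ := (rep_co T).unit
    obtain ⟨p, -, hp⟩ := exists_map_eq (f := IsScalarTower.toAlgHom k K Ω) (q := T)
      (v := fun a => ⟨T.co a, IntermediateField.subset_adjoin k s ⟨(⟨T, hT⟩, a), rfl⟩⟩)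
      (algebraMap K Ω).injective ⟨a, Ne.isUnit fun h => ha.ne_zero (congrArg Subtype.val h)⟩
      (rep_co T)
    exact ⟨p, hp⟩
  obtain ⟨C, hC⟩ := ht_parallelogram K A
  have hK : AddGroup.FG (A.Pt K) := AddCommGroup.fg_of_descent' hw htK_nonneg hC
  have hK' : Module.Finite ℤ (A.Pt K) := Module.Finite.iff_addGroup_fg.mpr hK
  have hk : Module.Finite ℤ (A.Pt k) := Module.Finite.of_injective
    (A.map (Algebra.ofId k K)).toIntLinearMap (map_injective (algebraMap k K).injective)
  exact Module.Finite.iff_addGroup_fg.mp hk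

/-- The canonical height is the squared norm of an additive map to a Euclidean space. -/
theorem exists_euclid [NumberField k] :
    ∃ (r : ℕ) (φ : A.Pt k →+ EuclideanSpace ℝ (Fin r)) (C : ℝ), ∀ P, |‖φ P‖ ^ 2 - htK P| ≤ C := by
  obtain ⟨C, hC⟩ := ht_parallelogram k A
  have := A.mw_fg
  exact Pool.Agent.MP_651af7_nt.MW.exists_euclid_of_approx htK htK_nonneg C hC

end AV

end Pool.Agent.Lib.MP_651af7_nt.Av
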