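import Pool.Agent.Lib.MP_651af7_nt.Av.Voc
import Pool.Agent.Lib.MP_651af7_nt.Av.MW
import Pool.Agent.Lib.MP_651af7_nt.MWCell

/-! Heights, Mordell-Weil, cones. -/

namespace Pool.Agent.Lib.MP_651af7_nt.Av.AV

open Height Filter

variable {k ι : Type} [Field k] [NumberField k] [Fintype ι] (A : AV k ι)

theorem ht_eq {A : AV k ι} {P : A.Pt k} {x : ι → k} (h : Rep P x) : ht P = logHeight x := by
  exact h.htK.symm

theorem ht_nonneg {A : AV k ι} (P : A.Pt k) : 0 ≤ ht P := logHeight_nonneg _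

theorem ht_par : ∃ C : ℝ, ∀ P Q : A.Pt k,
    |ht (P + Q) + ht (P - Q) - 2 * (ht P + ht Q)| ≤ C := by
  exact ht_parallelogram k A

theorem ht_two_pow : ∃ C : ℝ, ∀ (P : A.Pt k) (j : ℕ),
    |ht (2 ^ j • P) - 4 ^ j * ht P| ≤ C * 4 ^ j := by
  obtain ⟨r, φ, C, H⟩ := A.exists_euclid
  refine ⟨2 * C, fun P j => ?_⟩
  have h1 := Pool.Agent.MP_651af7_nt.MW.one_smul_est H (2 ^ j) P
  have e : ((2 ^ j : ℕ) : ℝ) ^ 2 = 4 ^ j := by
    push_cast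
    rw [← pow_mul, mul_comm, pow_mul]
    norm_num
  have C0 : 0 ≤ C := (abs_nonneg _).trans (H 0)
  have h2 : C ≤ C * 4 ^ j := le_mul_of_one_le_right C0 (one_le_pow₀ (by norm_num))
  rw [e] at h1
  exact h1.trans (by linarith)

/-- Mordell-Weil. -/
theorem fg : AddGroup.FG (A.Pt k) := by
  exact A.mw_fg

theorem ht_add_le {ε : ℝ} (hε : 0 < ε) : ∃ C : ℝ, 0 ≤ C ∧ ∀ P Q : A.Pt k,
    ht (P + Q) ≤ (1 + ε) * ht P + C * (ht Q + 1) ∧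
      ht (P - Q) ≤ (1 + ε) * ht P + C * (ht Q + 1) := by
  obtain ⟨r, φ, C, H⟩ := A.exists_euclid
  have C0 : 0 ≤ C := (abs_nonneg _).trans (H 0)
  have e0 : 0 < ε⁻¹ := inv_pos.2 hε
  have key : ∀ P Q S : A.Pt k, ‖φ S‖ ≤ ‖φ P‖ + ‖φ Q‖ →
      ht S ≤ (1 + ε) * ht P + ((1 + ε⁻¹) + (3 + ε + ε⁻¹) * C) * (ht Q + 1) := by
    intro P Q S h
    have a1 : ht S ≤ ‖φ S‖ ^ 2 + C := by linarith [(abs_le.1 (H S)).1, show htK S = ht S from rfl]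
    have a2 : ‖φ P‖ ^ 2 ≤ ht P + C := by linarith [(abs_le.1 (H P)).2, show htK P = ht P from rfl]
    have a3 : ‖φ Q‖ ^ 2 ≤ ht Q + C := by linarith [(abs_le.1 (H Q)).2, show htK Q = ht Q from rfl]
    have a4 : ‖φ S‖ ^ 2 ≤ (‖φ P‖ + ‖φ Q‖) ^ 2 := pow_le_pow_left₀ (norm_nonneg _) h 2
    have a5 : (‖φ P‖ + ‖φ Q‖) ^ 2 ≤ (1 + ε) * ‖φ P‖ ^ 2 + (1 + ε⁻¹) * ‖φ Q‖ ^ 2 := by
      have b1 : 0 ≤ ε⁻¹ * (ε * ‖φ P‖ - ‖φ Q‖) ^ 2 := by positivity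
      have b2 : ε⁻¹ * (ε * ‖φ P‖ - ‖φ Q‖) ^ 2 =
          ε * ‖φ P‖ ^ 2 - 2 * ‖φ P‖ * ‖φ Q‖ + ε⁻¹ * ‖φ Q‖ ^ 2 := by
        field_simp
        ring
      linarith
    have a6 := mul_le_mul_of_nonneg_left a2 (by positivity : 0 ≤ 1 + ε)
    have a7 := mul_le_mul_of_nonneg_left a3 (by positivity : 0 ≤ 1 + ε⁻¹)
    have a8 : 0 ≤ (3 + ε + ε⁻¹) * C * ht Q := mul_nonneg (by positivity) (ht_nonneg Q)
    linarith
  refine ⟨(1 + ε⁻¹) + (3 + ε + ε⁻¹) * C, by positivity, fun P Q => ⟨key P Q _ ?_, key P Q _ ?_⟩⟩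
  · rw [map_add]
    exact norm_add_le _ _
  · rw [map_sub]
    exact norm_sub_le _ _

theorem ht_le_smul {D : ℕ} (hD : 0 < D) : ∃ C : ℝ, ∀ P : A.Pt k, ht P ≤ ht (D • P) + C := by
  obtain ⟨r, φ, C, H⟩ := A.exists_euclid
  refine ⟨2 * C, fun P => ?_⟩
  have a1 := (abs_le.1 (H P)).1
  have a2 := (abs_le.1 (H (D • P))).2
  have a3 : ‖φ P‖ ≤ ‖φ (D • P)‖ := by
    rw [map_nsmul, ← Nat.cast_smul_eq_nsmul ℝ, norm_smul, Real.norm_natCast]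
    exact le_mul_of_one_le_left (norm_nonneg _) (by exact_mod_cast hD)
  have a4 := pow_le_pow_left₀ (norm_nonneg _) a3 2
  change htK P ≤ htK (D • P) + _
  linarith

/-- Along an ultrafilter the directions and the logarithms of the heights modulo `log 4`
converge. -/
theorem cone {α : Type} (U : Ultrafilter α) (y : α → A.Pt k)
    (hH : Tendsto (fun n => ht (y n)) U atTop) {θ : ℝ} (hθ : 0 < θ) :
    ∃ T ∈ U, ∀ n ∈ T, ∀ n' ∈ T, ht (y n) ≤ ht (y n') → ∃ j, Close θ j (y n) (y n') := by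
  obtain ⟨r, φ, C, H⟩ := A.exists_euclid
  have C0 : 0 ≤ C := (abs_nonneg _).trans (H 0)
  obtain ⟨δ, d0, d1, d2⟩ : ∃ δ : ℝ, 0 < δ ∧ δ ≤ 1 / 180 ∧ 36 * δ ≤ θ :=
    ⟨min (1 / 180) (θ / 36), by positivity, min_le_left _ _,
      by linarith [min_le_right (1 / 180) (θ / 36)]⟩
  obtain ⟨N, c, hc⟩ :=
    Pool.Agent.MP_651af7_nt.MW.exists_ball_cells (EuclideanSpace ℝ (Fin r)) d0
  choose κ k1 k2 using fun n => Pool.Agent.MP_651af7_nt.MW.exists_pow_four (‖φ (y n)‖ ^ 2)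
  have hb : ∀ n, ‖((2 : ℝ) ^ κ n)⁻¹ • φ (y n)‖ ≤ 2 := fun n => by
    have T0 : (0 : ℝ) < 2 ^ κ n := by positivity
    rw [norm_smul, norm_inv, Real.norm_of_nonneg T0.le, inv_mul_le_iff₀ T0]
    refine (pow_le_pow_iff_left₀ (norm_nonneg _) (by positivity) two_ne_zero).1 ?_
    have e : ((2 : ℝ) ^ κ n * 2) ^ 2 = 4 * 4 ^ κ n := by
      rw [mul_pow, ← pow_mul, mul_comm (κ n), pow_mul]
      norm_num [mul_comm]
    rw [e]
    exact k2 n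
  obtain ⟨i, hi⟩ : ∃ i, ∀ᶠ n in U, c (((2 : ℝ) ^ κ n)⁻¹ • φ (y n)) = i :=
    Ultrafilter.eventually_exists_iff.1 (.of_forall fun n => ⟨_, rfl⟩)
  refine ⟨_, hi.and ((hH.eventually_ge_atTop (50 * C + 2)).and
    ((hH.const_mul_atTop hθ).eventually_ge_atTop (10 * C))), ?_⟩
  have key : ∀ n n', c (((2 : ℝ) ^ κ n)⁻¹ • φ (y n)) = c (((2 : ℝ) ^ κ n')⁻¹ • φ (y n')) →
      50 * C + 2 ≤ ht (y n) → 50 * C + 2 ≤ ht (y n') → κ n ≤ κ n' →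
      ht (y n' - 2 ^ (κ n' - κ n) • y n) ≤ 18 * δ * ht (y n') + 5 * C ∧
        9 * ht (y n') ≤ 11 * (4 ^ (κ n' - κ n) * ht (y n)) ∧
        9 * (4 ^ (κ n' - κ n) * ht (y n)) ≤ 11 * ht (y n') := by
    intro n n' e h1 h2 hk
    obtain ⟨a1, -, -, a2⟩ := Pool.Agent.MP_651af7_nt.MW.one_cell_est H hk d0.le (by linarith)
      (hb n') (hc _ _ (hb n) (hb n') e)
    have a3 := abs_le.1 (H (y n'))
    change _ ≤ _ - ht (y n') ∧ _ - ht (y n') ≤ _ at a3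
    change ht _ ≤ _ at a1
    change |_ * ht (y n) - ht (y n')| ≤ _ at a2
    have a4 : (4 : ℝ) ^ κ n' ≤ 2 * ht (y n') :=
      (k1 n').trans (max_le (by linarith [a3.2]) (by linarith))
    have a5 := mul_le_mul_of_nonneg_left a4 d0.le
    have a6 : δ * ht (y n') ≤ 1 / 180 * ht (y n') :=
      mul_le_mul_of_nonneg_right d1 (ht_nonneg _)
    have a7 : (4 : ℝ) ^ (κ n' - κ n) * (50 * C) ≤ 4 ^ (κ n' - κ n) * ht (y n) :=
      mul_le_mul_of_nonneg_left (by linarith) (by positivity)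
    rw [abs_le] at a2
    exact ⟨by linarith, by linarith [a2.1], by linarith [a2.2]⟩
  rintro n ⟨e, h1, -⟩ n' ⟨e', h1', h2'⟩ hle
  by_cases hk : κ n ≤ κ n'
  · obtain ⟨b1, b2, b3⟩ := key n n' (e.trans e'.symm) h1 h1' hk
    have b4 := mul_le_mul_of_nonneg_right d2 (ht_nonneg (y n'))
    have b5 := ht_nonneg (y n')
    exact ⟨_, by linarith, by linarith, by linarith⟩
  · obtain ⟨-, -, b3⟩ := key n' n (e'.trans e.symm) h1' h1 (by omega)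
    have b4 : (4 : ℝ) ^ 1 ≤ 4 ^ (κ n - κ n') := pow_le_pow_right₀ (by norm_num) (by omega)
    have b5 := mul_le_mul_of_nonneg_right b4 (ht_nonneg (y n'))
    linarith

end Pool.Agent.Lib.MP_651af7_nt.Av.AV
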