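import Pool.Agent.Lib.MP_651af7_nt.Av.ELocal
import Pool.Agent.Lib.MP_651af7_nt.Av.ELead
import Pool.Agent.Lib.MP_651af7_nt.Av.ESieg
import Pool.Agent.Lib.MP_651af7_nt.Av.ECnt
import Pool.Agent.Lib.MP_651af7_nt.Av.ESize
import Pool.Agent.Lib.MP_651af7_nt.Av.EMark
import Pool.Agent.Lib.MP_651af7_nt.Av.ENest
import Pool.Agent.Lib.MP_651af7_nt.Av.ENv
import Pool.Agent.Lib.MP_651af7_nt.Av.Ht

/-! Engine: choice of the parameters and conclusion. -/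

namespace Pool.Agent.Lib.MP_651af7_nt.Av

open MvPolynomial Finset AV Height

variable {k ι : Type} [Field k] [NumberField k] [Fintype ι]

theorem AV.ht_add_ge (B : AV k ι) : ∃ C : ℝ, 0 ≤ C ∧ ∀ (θ : ℝ) (j : ℕ) (P Q : B.Pt k),
    Close θ j P Q → 2 * (ht Q + 4 ^ j * ht P) ≤ ht (Q + 2 ^ j • P) + θ * ht Q + 4 ^ j * C := by
  obtain ⟨C₁, h₁⟩ := B.ht_par
  obtain ⟨C₂, h₂⟩ := B.ht_two_pow
  refine ⟨|C₁| + 2 * |C₂|, by positivity, fun θ j P Q h => ?_⟩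
  have h3 := (abs_le.1 (h₁ Q (2 ^ j • P))).1
  have h4 := (abs_le.1 (h₂ P j)).1
  have h5 : (1 : ℝ) ≤ 4 ^ j := one_le_pow₀ (by norm_num)
  have h6 := h.1
  have h7 := mul_le_mul_of_nonneg_right (le_abs_self C₂) (show (0 : ℝ) ≤ 4 ^ j by positivity)
  have h8 := mul_le_mul_of_nonneg_right h5 (abs_nonneg C₁)
  have h9 := le_abs_self C₁
  linarith

theorem degree_eq_sum_bdeg {O g : Type} [Fintype O] [Fintype g] (α : O × g →₀ ℕ) :
    α.degree = ∑ o, bdeg α o := by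
  rw [Finsupp.degree_eq_sum, Fintype.sum_prod_type]
  rfl

/-- The final numerical contradiction. -/
theorem emain_num {O : Type} [Fintype O] {w κ κ' ν nt dg : O → ℝ}
    {g D Ψ Y G lH c C₀ C' κr κs η' θ' K K₁ K₂ A tw ε a : ℝ} (hD : 0 < D) (hw : ∀ o, 1 ≤ w o)
    (hε : ∀ o, 1 ≤ ε * w o) (hκ : ∀ o, 0 ≤ κ o) (hκ' : ∀ o, κ o ≤ κ' o) (hν : ∀ o, 0 ≤ ν o)
    (hdg : ∀ o, 0 ≤ dg o) (hnt : ∀ o, nt o ≤ 2 * η' * w o) (hη : 0 < η') (hc : 8 * η' ≤ c)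
    (hC : ∀ o, 2 * (C₀ + C') ≤ c * w o) (hκr : 0 ≤ κr) (hκs : 0 ≤ κs) (hA : 0 ≤ A) (htw : 0 ≤ tw)
    (hε0 : 0 < ε) (h1 : ∑ o, ν o * (c * w o - C₀) ≤ Ψ)
    (h2 : Ψ + Y + G ≤ tw * lH + ∑ o, dg o * (A * (κs * (ε * w o + 1)) + w o) +
      ∑ o, (κ o * (κr * (w o + 1) + nt o) + ν o * (C' + nt o)))
    (h3 : ∑ o, w o * κ' o < θ' * (K * D + ∑ o, ν o * w o))
    (h4 : (2 * κr + 2 * η') * θ' ≤ a) (h5 : a * K ≤ 1) (h6 : 4 * a ≤ c) (hK : 0 ≤ K)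
    (h7 : lH ≤ K₂ * (ε * D)) (h8 : ∑ o, dg o * w o ≤ K₁ * D)
    (h9 : 2 * (tw * K₂ + 2 * A * κs * K₁) * ε ≤ 1)
    (h10 : ∑ o, dg o * w o ≤ Y + 2 * g * D + D / 2) (h11 : (2 * g + 3) * D ≤ G) : False := by
  have hw0 : ∀ o, 0 ≤ w o := fun o => zero_le_one.trans (hw o)
  have s0 : 0 ≤ ∑ o, ν o * w o := sum_nonneg fun o _ => mul_nonneg (hν o) (hw0 o)
  have s1 : ∑ o, dg o * (A * (κs * (ε * w o + 1)) + w o) ≤
      2 * A * κs * ε * ∑ o, dg o * w o + ∑ o, dg o * w o := by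
    rw [mul_sum, ← sum_add_distrib]
    refine sum_le_sum fun o _ => ?_
    have := mul_le_mul_of_nonneg_left (hε o) (mul_nonneg (hdg o) (mul_nonneg hA hκs))
    linarith
  have s2 : ∑ o, (κ o * (κr * (w o + 1) + nt o) + ν o * (C' + nt o)) +
      c / 4 * ∑ o, ν o * w o ≤
      (2 * κr + 2 * η') * ∑ o, w o * κ' o + ∑ o, ν o * (c * w o - C₀) := by
    rw [mul_sum, mul_sum, ← sum_add_distrib, ← sum_add_distrib]
    refine sum_le_sum fun o _ => ?_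
    have e1 : κr * (w o + 1) + nt o ≤ (2 * κr + 2 * η') * w o := by
      have := mul_le_mul_of_nonneg_left (hw o) hκr
      have := hnt o
      linarith
    have e3 : κ o * (κr * (w o + 1) + nt o) ≤ κ' o * ((2 * κr + 2 * η') * w o) :=
      (mul_le_mul_of_nonneg_left e1 (hκ o)).trans (mul_le_mul_of_nonneg_right (hκ' o)
        (mul_nonneg (by linarith) (hw0 o)))
    have e4 : C' + nt o + c / 4 * w o ≤ c * w o - C₀ := by
      have := mul_le_mul_of_nonneg_right hc (hw0 o)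
      have := hnt o
      have := hC o
      linarith
    have e5 := mul_le_mul_of_nonneg_left e4 (hν o)
    linarith
  have s3 := mul_le_mul_of_nonneg_left h3.le (show 0 ≤ 2 * κr + 2 * η' by linarith)
  have s4 := mul_le_mul_of_nonneg_right h4 (add_nonneg (mul_nonneg hK hD.le) s0)
  have s5 := mul_le_mul_of_nonneg_right h5 hD.le
  have s6 := mul_le_mul_of_nonneg_right h6 s0
  have s7 := mul_le_mul_of_nonneg_left h7 htw
  have s8 := mul_le_mul_of_nonneg_left h8 (show 0 ≤ 2 * A * κs * ε by positivity)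
  have s9 := mul_le_mul_of_nonneg_right h9 hD.le
  linarith

theorem emain_coef {O : Type} [Fintype O] {w ν dg : O → ℝ} {D lH C' κs K₁ K₂ tw ε : ℝ}
    (hD : 0 ≤ D) (hε : ∀ o, 1 ≤ ε * w o) (hC : ∀ o, C' ≤ ε * w o) (hν : ∀ o, 0 ≤ ν o)
    (hdg : ∀ o, 0 ≤ dg o) (hκs : 0 ≤ κs) (htw : 0 ≤ tw) (hε0 : 0 < ε) (hK : 0 ≤ K₁)
    (h7 : lH ≤ K₂ * (ε * D)) (h8 : ∑ o, dg o * w o ≤ K₁ * D) :
    tw * lH + ∑ o, 6 * dg o * (κs * (ε * w o + 1)) + (∑ o, ν o) * C' ≤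
      ε * ((2 * K₁ + tw * K₂ + 12 * κs * K₁ + 1) * D + ∑ o, ν o * w o) := by
  have s1 : ∑ o, 6 * dg o * (κs * (ε * w o + 1)) ≤ 12 * κs * ε * ∑ o, dg o * w o := by
    rw [mul_sum]
    refine sum_le_sum fun o _ => ?_
    have := mul_le_mul_of_nonneg_left (hε o) (mul_nonneg (hdg o) hκs)
    linarith
  have s2 : (∑ o, ν o) * C' ≤ ε * ∑ o, ν o * w o := by
    rw [mul_sum, sum_mul]
    refine sum_le_sum fun o _ => ?_
    have := mul_le_mul_of_nonneg_left (hC o) (hν o)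
    linarith
  have s7 := mul_le_mul_of_nonneg_left h7 htw
  have s8 := mul_le_mul_of_nonneg_left h8 (show 0 ≤ 12 * κs * ε by positivity)
  have s9 : 0 ≤ ε * D * (2 * K₁ + 1) := by positivity
  linarith

theorem emain_log {O : Type} [Fintype O] {w dg : O → ℝ} {D C κs K₁ ε : ℝ}
    (hε : ∀ o, 1 ≤ ε * w o) (hC : C ≤ ε * D) (hdg : ∀ o, 0 ≤ dg o) (hκs : 0 ≤ κs) (hε0 : 0 < ε)
    (h8 : ∑ o, dg o * w o ≤ K₁ * D) :
    C + ∑ o, dg o * (2 * (κs * (ε * w o + 1)) + 1) ≤ (1 + (4 * κs + 1) * K₁) * (ε * D) := by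
  have s1 : ∑ o, dg o * (2 * (κs * (ε * w o + 1)) + 1) ≤ (4 * κs + 1) * ε * ∑ o, dg o * w o := by
    rw [mul_sum]
    refine sum_le_sum fun o _ => ?_
    have := mul_le_mul_of_nonneg_left (hε o) (mul_nonneg (hdg o) hκs)
    have := mul_le_mul_of_nonneg_left (hε o) (hdg o)
    linarith
  have s8 := mul_le_mul_of_nonneg_left h8 (show 0 ≤ (4 * κs + 1) * ε by positivity)
  linarith

theorem emain_card {m T M N C X Z : ℕ} (hm : m = T * M) (hM0 : 0 < M) (hM : 2 * T * N * C ≤ M)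
    (h : X * M ^ 2 ≤ C * Z) : 2 * m * (N * X) ≤ Z := by
  refine Nat.le_of_mul_le_mul_right ?_ hM0
  calc _ = 2 * T * N * (X * M ^ 2) := by rw [hm]; ring
    _ ≤ 2 * T * N * (C * Z) := Nat.mul_le_mul_left _ h
    _ ≤ _ := by
      rw [← mul_assoc, mul_comm Z M]
      exact Nat.mul_le_mul_right _ hM

theorem AV.engine' (B : AV k ι) {g : ℕ} {ϱ : ι → MvPowerSeries (Fin g) k} (hϱ : B.Par g ϱ)
    (r ρ B₀ : ℕ) {e : ℕ} (he : 1 ≤ e) {δ η : ℝ} (hδ : 0 < δ) (hη : 0 < η)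
    {md : Option (AbsoluteValue k ℝ)} (hmd : Mode g md) :
    ∃ (m B' : ℕ) (θ ζ ε₀ : ℝ), 0 < θ ∧ 0 < ζ ∧ 0 < ε₀ ∧ ∀ ε : ℝ, 0 < ε → ε ≤ ε₀ → ∃ W : ℝ,
      ∀ (b : OO m → B.Blk g r ρ) (j : Fin m × Bool → ℕ),
        (∀ o, (b o).Good (lin ϱ) B₀ e ε δ) → (∀ o, W ≤ ht (b o).P) →
        (∀ o o', o ≠ o' → ht (b o).P ≤ ζ * ht (b o').P ∨ ht (b o').P ≤ ζ * ht (b o).P) →
        (∀ i, Close θ (j i) (b none).P (b (some i)).P) →
        (∀ i, Bad md e η (b (some i)).u (b (some i)).x) →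
        ∃ o, (b o).Exit B' (B' * ε * ht (b o).P) := by
  classical
  obtain ⟨c₀, hc₀, C₀, hlead⟩ := lead_height k g
  obtain ⟨κs, hκs, hsz⟩ := exists_sz B g ρ B₀ he
  obtain ⟨κr, hκr, hrad⟩ := exists_rad k ι r B₀
  obtain ⟨q', C', aq', hq'⟩ := hϱ.exists_rad
  obtain ⟨N, Cs, hCs, hsieg⟩ := siegel k ι
  obtain ⟨C₁, hcnt⟩ := card_low ι g ρ
  obtain ⟨Ch, hCh, hadd⟩ := B.ht_add_ge
  obtain ⟨η', hη0, hη1, hη2⟩ : ∃ η' : ℝ, 0 < η' ∧ 2 * η' ≤ η ∧ 8 * η' ≤ c₀ * δ :=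
    ⟨min (η / 2) (c₀ * δ / 8), by positivity, by linarith [min_le_left (η / 2) (c₀ * δ / 8)],
      by linarith [min_le_right (η / 2) (c₀ * δ / 8)]⟩
  obtain ⟨T, hT⟩ := exists_nat_ge ((2 * g + 3) / η')
  rw [div_le_iff₀ hη0] at hT
  have hT0 : 0 < T := Nat.pos_of_ne_zero fun h => by
    rw [h, Nat.cast_zero, zero_mul] at hT
    linarith [Nat.cast_nonneg (α := ℝ) g]
  obtain ⟨M, hM1, hM2⟩ : ∃ M : ℕ, 2 * T * N * C₁ ≤ M ∧ e + ρ * Fintype.card ι ≤ M :=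
    ⟨_, le_max_left _ _, le_max_right _ _⟩
  have hM0 : 0 < M := by omega
  obtain ⟨m, hm⟩ : ∃ m, m = T * M := ⟨_, rfl⟩
  have hm0 : (0 : ℝ) < m := by rw [hm]; positivity
  obtain ⟨tw, htw⟩ : ∃ tw : ℝ, tw = totalWeight k := ⟨_, rfl⟩
  have htw0 : 0 ≤ tw := by rw [htw]; positivity
  obtain ⟨K₁, hK₁⟩ : ∃ K₁ : ℝ, K₁ = g * (1 + 12 * m) := ⟨_, rfl⟩
  have hK₁0 : 0 ≤ K₁ := by rw [hK₁]; positivity
  obtain ⟨K₂, hK₂⟩ : ∃ K₂ : ℝ, K₂ = 1 + (4 * κs + 1) * K₁ := ⟨_, rfl⟩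
  have hK₂0 : 0 ≤ K₂ := by rw [hK₂]; positivity
  obtain ⟨K, hK⟩ : ∃ K : ℝ, K = 2 * K₁ + tw * K₂ + 12 * κs * K₁ + 1 := ⟨_, rfl⟩
  have hK1 : 2 * K₁ + 1 ≤ K := by
    have : 0 ≤ tw * K₂ + 12 * κs * K₁ := by positivity
    linarith
  have hK0 : 0 < K := by linarith
  obtain ⟨a, ha0, ha1, ha2⟩ : ∃ a : ℝ, 0 < a ∧ a * K ≤ 1 ∧ 4 * a ≤ c₀ * δ :=
    ⟨min (1 / K) (c₀ * δ / 4), by positivity, (le_div_iff₀ hK0).1 (min_le_left _ _),
      by linarith [min_le_right (1 / K) (c₀ * δ / 4)]⟩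
  obtain ⟨B', ζ, hζ, hnv⟩ := nvk k ι (OO m) r B₀ (θ := a / (2 * κr + 2 * η')) (by positivity)
  obtain ⟨A, hA⟩ : ∃ A : ℝ, A = (g + Fintype.card ι + 17 : ℕ) := ⟨_, rfl⟩
  have hA0 : 0 ≤ A := by rw [hA]; positivity
  have hX0 : 0 ≤ 2 * (tw * K₂ + 2 * A * κs * K₁) := by positivity
  refine ⟨m, B', 1 / (4 * m), ζ, 1 / (2 * (tw * K₂ + 2 * A * κs * K₁) + 1), by positivity, hζ,
    by positivity, fun ε hε hε0 => ?_⟩
  rw [le_div_iff₀ (by linarith)] at hε0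
  have hε1 : ε ≤ 1 := by nlinarith
  obtain ⟨Wn, hWn⟩ := hnv ε hε
  refine ⟨max (max Wn 1) (max (max (1 / ε) (Cs / ε)) (max (C' / ε)
    (max (2 * (C₀ + C') / (c₀ * δ)) (4 * m * g * Ch)))), fun b j hG hW hr hC hB => ?_⟩
  simp only [max_le_iff, div_le_iff₀' hε, div_le_iff₀' (mul_pos hc₀ hδ), forall_and] at hW
  obtain ⟨⟨hW0, hW1⟩, ⟨hW2, hW3⟩, hW4, hW5, hW6⟩ := hW
  have hw0 : ∀ o, 0 ≤ ht (b o).P := fun o => ht_nonneg _
  have hx1 : ∀ o, (b o).x (b o).C.a₀ = 1 := fun o => (hG o).atx.one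
  have hx0 : ∀ o, (b o).x ≠ 0 := fun o h0 => by simpa [h0] using hx1 o
  have hht : ∀ o, ht (b o).P = logHeight (b o).x := fun o => ht_eq (hG o).rep
  choose ξ hξ using fun o => (b o).C.exists_br (hG o).atx
  choose rd s hrd as hs using fun o => hsz (b o).u (b o).c (ε * ht (b o).P)
    (mul_nonneg hε.le (hw0 o)) (hG o).nn (hG o).smu (hG o).smc
  choose q aq hq using fun o => hrad (b o).C (b o).x (ξ o) (ht (b o).P) (hG o).atx (hξ o)
    (hht o).ge fun a => ⟨((hG o).smφ a).1, fun μ => (((hG o).smφ a).2 μ).trans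
      (mul_le_of_le_one_left (hw0 o) hε1)⟩
  have hξ0 := fun o => (hξ o).const
  have hξ1 := fun o => (hξ o).mem (hG o).on
  obtain ⟨fr, hfr⟩ := hϱ.exists_str j (fun o => (hG o).rep) hξ0 hξ1
  obtain ⟨J, hJ⟩ : ∃ J, ∀ i, j i ≤ J := ⟨univ.sup j, fun i => le_sup (mem_univ i)⟩
  let F : Cfg k ι g m :=
    ⟨fun o => o.elim (M * 4 ^ J) fun i => M * 4 ^ (J - j i), j, fr, fun o => (b o).u, rd⟩
  have hn : ∀ i, F.n (some i) * 4 ^ F.j i = F.n none := fun i => by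
    change M * 4 ^ (J - j i) * 4 ^ j i = M * 4 ^ J
    rw [mul_assoc, ← pow_add, Nat.sub_add_cancel (hJ i)]
  obtain ⟨c, hc0, hc, hV⟩ := hsieg B g m e ρ (4 ^ J) F (mark g md) s _ hrd as hs fun p => by
    have h1 := hcnt k m e M J F (mark g md) he hmd.1 (card_mark hmd.1 md) hM2 rfl hJ
      (fun _ => rfl) p
    exact emain_card hm hM0 hM1 h1
  obtain ⟨f, l, hf, hl, hinv, hU⟩ := hfr F rfl rfl c hc0
  have hnt : ∀ o, (nn j o : ℝ) * (η' * ht (b none).P) ≤ 2 * η' * ht (b o).P := fun o => by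
    cases o with
    | none => simpa [nn] using mul_nonneg (by linarith) (hw0 none)
    | some i =>
      have := mul_le_mul_of_nonneg_left (hC i).2.2 hη0.le
      simp only [nn]
      push_cast
      linarith
  choose σ hσ fσ gσ hmk using fun p : Fin m => exists_sigma hmd (η := η)
    (mul_nonneg hη0.le (hw0 none)) (u := fun s => (b (some (p, s))).u)
    (fun s => hx0 (some (p, s))) (fun s => (hrd _).hu) (fun s => hB (p, s))
    (fun s => as (some (p, s))) (fun s v => (hs _ v).u) (N := fun s => 4 ^ j (p, s))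
    (fun s => Nat.one_le_pow _ _ (by norm_num)) fun s => (hnt (some (p, s))).trans (by
      rw [← hht]
      exact mul_le_mul_of_nonneg_right hη1 (hw0 _))
  have hy : ∀ i, ((b (some i)).P + 2 ^ j i • (b none).P).co ≠ 0 := fun i h0 => by
    obtain ⟨a, ha⟩ := (rep_co ((b (some i)).P + 2 ^ j i • (b none).P)).unit
    exact ha.ne_zero (congrFun h0 a)
  choose a₁ ha₁ using fun i => Function.ne_iff.1 (hy i)
  obtain ⟨U, hU1, hU2⟩ := hU a₁ fun o => (b o).C.a₀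
  obtain ⟨D, hD⟩ : ∃ D : ℝ, D = F.n none * ht (b none).P := ⟨_, rfl⟩
  have hn1 : (1 : ℝ) ≤ F.n none := by
    exact_mod_cast (show 0 < M * 4 ^ J by positivity)
  have hD1 : ht (b none).P ≤ D := hD ▸ le_mul_of_one_le_left (hw0 _) hn1
  have hD0 : 0 < D := by linarith [hW1 none]
  have hdg : ∀ o, (0 : ℝ) ≤ F.dg o := fun o => Nat.cast_nonneg _
  have h8 : ∑ o, F.dg o * ht (b o).P ≤ K₁ * D := by
    rw [hK₁, hD]
    exact F.sum_dg_le hn fun i => (hC i).2.1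
  have h7 := emain_log hW2 ((hW3 none).trans (mul_le_mul_of_nonneg_left hD1 hε.le)) hdg hκs hε h8
  rw [← hK₂] at h7
  obtain ⟨lH, hlH⟩ : ∃ lH, lH = Cs + ∑ o, F.dg o * (2 * (κs * (ε * ht (b o).P + 1)) + 1) :=
    ⟨_, rfl⟩
  rw [← hlH] at h7 hc
  have hH : 1 ≤ Real.exp lH := Real.one_le_exp (hlH ▸ add_nonneg hCs (sum_nonneg fun o _ => by
    have := hw0 o
    positivity))
  have key := exists_lead hf (U := U) (by
      rw [hU2]
      exact mul_ne_zero hl (mul_ne_zero (prod_ne_zero_iff.2 fun o _ => by simp [hx1])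
        (prod_ne_zero_iff.2 fun i _ => pow_ne_zero _ (ha₁ i))))
    (Sm := fun κ ν => ∑ o, ht (b o).P * bdeg κ o <
      a / (2 * κr + 2 * η') * (K * D + ∑ o, ν o * ht (b o).P))
    (Out := ∃ o, (b o).Exit B' (B' * ε * ht (b o).P)) fun α ⟨κ, hκ⟩ => by
      obtain ⟨G, g1, g2, g3⟩ := F.exists_coef B hϱ.const c a₁ (fun o => (b o).C.a₀) α
      have s0 : 0 ≤ ∑ o, bdeg α o * ht (b o).P :=
        sum_nonneg fun o _ => mul_nonneg (Nat.cast_nonneg _) (hw0 o)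
      have s1 := mul_le_mul_of_nonneg_right hK1 hD0.le
      have s2 := mul_nonneg hK₁0 hD0.le
      have aG := ((ad_E (k := k) hH).mul (ad_prod univ fun o _ => (as o).pow (6 * F.dg o))).mul
        (aq'.pow α.degree)
      rw [← hU1] at hκ ⊢
      simp only [← g1] at hκ ⊢
      refine hWn (fun o => ht (b o).P) (fun o => (b o).C) (fun o => (b o).x) ξ hW0 hr
        (fun o => (hG o).atx) hξ (fun o => (hG o).smφ) _ G _ (by linarith [hW0 none])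
        (fun μ hμ p => ?_) (aG.mono ?_) (fun μ v _ => g3 v _ _ _ (fun o => (hs o v).toSz₀)
          (hq' v) (aq'.one v) hH hc μ) fun h0 => hκ (by rw [h0, map_zero])
      · have h1 : (μ p : ℝ) ≤ 2 * F.dg p.1 := by exact_mod_cast g2 μ hμ p
        have h2 := mul_le_mul_of_nonneg_left h1 (hw0 p.1)
        have h3 := single_le_sum (f := fun o => F.dg o * ht (b o).P)
          (fun o _ => mul_nonneg (hdg o) (hw0 o)) (mem_univ p.1)
        linarith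
      · rw [Real.log_exp, ← htw, degree_eq_sum_bdeg, hK]
        push_cast
        exact emain_coef hD0.le hW2 hW4 (fun _ => Nat.cast_nonneg _) hdg hκs htw0 hε hK₁0 h7 h8
  refine key.resolve_left ?_
  rintro ⟨κ, κ', ν, Ψ, k1, k2, k3, k4, k5, k6⟩
  have h1 := hlead ι (OO m) B r (lin ϱ) (fun o => (b o).C) (fun o => (b o).x) ξ
    (fun o => δ * ht (b o).P) f κ ν Ψ hξ (fun o => (hG o).nsv) hinv k3 k4 k5 k6
  have h2 := F.global_ineq hϱ he hrd (fun o => (hG o).rep) hx1 hξ0 hξ1 hH hc hV hy hl hU k3 k4 k5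
    k6 as aq aq' hσ fσ gσ hs hq hq' hmk
  have h10 := F.sum_dg_sub hn (w := fun o => ht (b o).P) (fun i => (hC i).2.1)
    (θ := 1 / (4 * m)) (by positivity) fun i => hadd _ _ _ _ (hC i)
  simp only [← mul_assoc] at h1
  simp only [← hht, Real.log_exp, ← htw, ← hA] at h2
  refine emain_num (g := g) hD0 hW1 hW2 (fun _ => Nat.cast_nonneg _)
    (fun o => Nat.cast_le.2 (bdeg_mono k1 o)) (fun _ => Nat.cast_nonneg _) hdg hnt hη0 hη2 hW5 hκr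
    hκs hA0 htw0 hε h1 h2 k2 (le_of_eq (mul_div_cancel₀ _ (by positivity))) ha1 ha2 hK0.le h7 h8
    (by linarith) (h10.trans ?_) ?_
  · have h3 := mul_le_mul_of_nonneg_left (hW6 none) (zero_le_one.trans hn1)
    have h4 : 2 * m * g * (2 * (1 / (4 * m)) * D) = g * D := by
      field_simp
      ring
    rw [← hD] at h3 ⊢
    unfold ht at *
    linarith
  · have h3 := mul_le_mul_of_nonneg_right hT hD0.le
    refine h3.trans (le_of_eq ?_)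
    rw [hD, show (m : ℝ) = T * M by exact_mod_cast hm]
    change _ * (((M * 4 ^ J : ℕ) : ℝ) * _) = _
    push_cast
    ring

end Pool.Agent.Lib.MP_651af7_nt.Av
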