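import Pool.Agent.Lib.MP_651af7_nt.Av.ERed

/-! Engine: homogeneity and crude bounds. -/

namespace Pool.Agent.Lib.MP_651af7_nt.Av

open MvPolynomial Finset

variable {k ι R R' : Type} [Field k] [CommRing R] [Algebra k R] [CommRing R'] [Algebra k R']
  {g m : ℕ}

theorem sec_mul {R : Type} [CommRing R] {n : OO m → ℕ} (c : Co g n) (s : OO m → R)
    (Q : OO m → Fin (g + 1) → R) :
    sec c (fun o l => s o * Q o l) = (∏ o, s o ^ (g * n o)) * sec c Q := by
  simp only [sec, bx_mul, prod_mul_distrib, mul_sum, Fintype.prod_option, Fintype.prod_prod_type,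
    sum_mul]
  exact sum_congr rfl fun τ _ => sum_congr rfl fun z _ => by ring

theorem AV.dbn_mul (B : AV k ι) (s : R) (y : ι → R) (j : ℕ) (a : ι) :
    B.dbn (fun c => s * y c) j a = s ^ 4 ^ j * B.dbn y j a := by
  induction j generalizing a with
  | zero => simp [AV.dbn]
  | succ j ih =>
    simp only [AV.dbn, funext ih]
    rw [B.ph_mul, ← pow_mul, ← pow_add, pow_succ]
    congr 2
    ring

theorem card_Bx_le (g n : ℕ) : Fintype.card (Bx g n) ≤ 2 ^ (g * n) := by
  rw [Fintype.card_fun, Fintype.card_fin, Fintype.card_fin, mul_comm, pow_mul]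
  exact Nat.pow_le_pow_left Nat.lt_two_pow_self _

theorem Cfg.dh_le (F : Cfg k ι g m) (p : Fin m) : F.dh p ≤ F.dg none := by
  rw [Cfg.dh, Cfg.dg, Fintype.sum_prod_type]
  exact Nat.add_le_add_left (single_le_sum
    (f := fun p => ∑ s, 2 * 4 ^ F.j (p, s) * (g * F.n (some (p, s))))
    (fun _ _ => Nat.zero_le _) (mem_univ p)) _

theorem Cfg.FF_mul (F : Cfg k ι g m) (B : AV k ι) (c : Co g F.n) (a : Fin m × Bool → ι)
    (s : OO m → R) (y : OO m → ι → R) :
    F.FF B c a (fun o b => s o * y o b) = (∏ o, s o ^ F.dg o) * F.FF B c a y := by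
  have h : F.Q B a (fun o b => s o * y o b) = fun o l =>
      (Option.elim o (s none) fun i => s (some i) ^ 2 * (s none ^ 4 ^ F.j i) ^ 2) *
        F.Q B a y o l := by
    funext o l
    cases o with
    | none => rfl
    | some i =>
      simp only [Cfg.Q, Cfg.arm, funext (B.dbn_mul (s none) (y none) (F.j i)), B.ph_mul,
        Option.elim_some]
  rw [Cfg.FF, h, sec_mul, Cfg.FF]
  congr 1
  simp only [Fintype.prod_option, Option.elim_none, Option.elim_some, Cfg.dg, mul_pow, pow_add,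
    prod_mul_distrib, ← prod_pow_eq_pow_sum, ← pow_mul]
  rw [mul_assoc, mul_comm (∏ i, s (some i) ^ _)]
  congr 2
  exact prod_congr rfl fun i _ => by rw [mul_comm (4 ^ F.j i)]

variable [Fintype ι] {B : AV k ι} {v : AbsoluteValue k ℝ} {S : SN R (IsNonarchimedean v)}

theorem SN.Ov.ph_le (hS : S.Ov v) {s X Y : ℝ} (hs : Sz₀ B v s) {x y : ι → R}
    (hx : ∀ a, S.N (x a) ≤ X) (hy : ∀ a, S.N (y a) ≤ Y) (a b : ι) :
    S.N (B.ph a b x y) ≤ s * (X ^ 2 * Y ^ 2) := by
  have hX : 0 ≤ X := (S.nonneg _).trans (hx a)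
  have hY : 0 ≤ Y := (S.nonneg _).trans (hy a)
  have ht : ∀ c : ι ⊕ ι, 0 ≤ Sum.elim (fun _ => X) (fun _ => Y) c := by
    rintro (c | c)
    exacts [hX, hY]
  rw [AV.ph, aeval_def]
  refine (eval₂_le_polN (absSN v) S (algebraMap k R) hS (t := Sum.elim (fun _ => X) fun _ => Y)
    (by rintro (c | c); exacts [hx c, hy c]) _).trans ((polN_le_mul (absSN v) ht
      (b := X ^ 2 * Y ^ 2) (by positivity) fun μ hμ => le_of_eq ?_).trans
      (mul_le_mul_of_nonneg_right (hs.Φ a b) (by positivity)))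
  have h := B.bih a b (mem_support_iff.mp hμ)
  rw [Finsupp.weight_apply, Finsupp.sum] at h
  have h1 : ∀ i, Sum.elim (fun _ => X) (fun _ => Y) i ^ μ i =
      X ^ (μ i • bw ι ι i).1 * Y ^ (μ i • bw ι ι i).2 := by
    rintro (c | c) <;> simp [bw]
  simp only [wt, Finsupp.prod, h1, prod_mul_distrib, prod_pow_eq_pow_sum, ← Prod.fst_sum,
    ← Prod.snd_sum, h]

/-- Prove first `s * S.N (dbn y j a) ≤ (s * Y) ^ 4 ^ j` by induction. -/
theorem SN.Ov.dbn_le (hS : S.Ov v) {s Y : ℝ} (hs : Sz₀ B v s) {y : ι → R}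
    (hy : ∀ a, S.N (y a) ≤ Y) (j : ℕ) (a : ι) : S.N (B.dbn y j a) ≤ (s * Y) ^ 4 ^ j := by
  have h1 : 1 ≤ s := one_le_of_two hs.two
  have h0 : 0 < s := one_pos.trans_le h1
  have hY : 0 ≤ Y := (S.nonneg _).trans (hy a)
  have key : ∀ j a, S.N (B.dbn y j a) ≤ (s * Y) ^ 4 ^ j / s := by
    intro j
    induction j with
    | zero => exact fun a => (hy a).trans (le_of_eq (by rw [pow_zero, pow_one, mul_div_cancel_left₀ _ h0.ne']))
    | succ j ih =>
      intro a
      refine (hS.ph_le hs ih ih a B.ao).trans ?_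
      have e : s * (((s * Y) ^ 4 ^ j / s) ^ 2 * ((s * Y) ^ 4 ^ j / s) ^ 2) =
          (s * Y) ^ 4 ^ (j + 1) / s / s ^ 2 := by
        rw [pow_succ 4, pow_mul]
        field_simp
      rw [e]
      exact div_le_self (by positivity) (one_le_pow₀ h1)
  exact (key j a).trans (div_le_self (by positivity) h1)

theorem SN.Ov.FF_le (hS : S.Ov v) (F : Cfg k ι g m) {s Y : OO m → ℝ} (hs : ∀ o, Sz₀ B v (s o))
    (hY : ∀ o, 1 ≤ Y o) {y : OO m → ι → R} (hy : ∀ o a, S.N (y o a) ≤ Y o) {c : Co g F.n} {H : ℝ}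
    (hH : 1 ≤ H) (hc : ∀ z τ, |(c z τ : ℝ)| ≤ H) (a : Fin m × Bool → ι) :
    S.N (F.FF B c a y) ≤ E (IsNonarchimedean v) H * ∏ o, (s o * Y o) ^ F.dg o := by
  have h1 : ∀ o, 1 ≤ s o := fun o => one_le_of_two (hs o).two
  have h0 : ∀ o, 0 ≤ s o := fun o => zero_le_one.trans (h1 o)
  have hY0 : ∀ o, 0 ≤ Y o := fun o => zero_le_one.trans (hY o)
  have hE : 0 ≤ E (IsNonarchimedean v) H := E_nonneg (zero_le_one.trans hH)
  have hc' : ∀ o, E (IsNonarchimedean v) (Fintype.card (Bx g (F.n o))) ≤ s o ^ (g * F.n o) :=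
    fun o => E_le_pow (hs o).two (by exact_mod_cast card_Bx_le g (F.n o))
  have hz : ∀ τ, S.N (∑ z, (c z τ : R) * bx (F.Q B a y none) z) ≤
      E (IsNonarchimedean v) H * (s none * Y none) ^ (g * F.n none) := fun τ => by
    refine (S.sum_le_card univ (M := E (IsNonarchimedean v) H * Y none ^ (g * F.n none))
      (mul_nonneg hE (pow_nonneg (hY0 _) _)) fun z _ => S.mul_le
        ((S.intCast_le _).trans (E_mono (hc z τ))) (S.bx_le (fun l => hy none _) z)).trans ?_
    rw [mul_pow, mul_left_comm]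
    exact mul_le_mul_of_nonneg_left (mul_le_mul_of_nonneg_right (hc' none)
      (pow_nonneg (hY0 _) _)) hE
  set b : Fin m × Bool → ℝ := fun i =>
    (s (some i) * (Y (some i) ^ 2 * ((s none * Y none) ^ 4 ^ F.j i) ^ 2)) ^ (g * F.n (some i))
    with hb
  have hb0 : ∀ i, 0 ≤ b i := fun i =>
    pow_nonneg (mul_nonneg (h0 _) (mul_nonneg (sq_nonneg _) (sq_nonneg _))) _
  have ha : ∀ τ : ∀ p, TT g F.n p, S.N (∏ p, ∏ t, bx (F.Q B a y (some (p, t))) (τ p t)) ≤
      ∏ p, ∏ t, b (p, t) := fun τ => S.prod_le _ fun p _ => S.prod_le _ fun t _ =>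
    S.bx_le (fun l => hS.ph_le (hs _) (hy _) (hS.dbn_le (hs none) (hy none) _) _ _) _
  have hM := mul_nonneg (mul_nonneg hE (pow_nonneg (mul_nonneg (h0 none) (hY0 none))
    (g * F.n none))) (prod_nonneg fun p (_ : p ∈ univ) => prod_nonneg fun t (_ : t ∈ univ) =>
      hb0 (p, t))
  refine (S.sum_le_card univ hM fun τ _ => S.mul_le (hz τ) (ha τ)).trans ?_
  have hcard : E (IsNonarchimedean v) ((univ : Finset (∀ p, TT g F.n p)).card : ℝ) ≤
      ∏ p, ∏ t, s (some (p, t)) ^ (g * F.n (some (p, t))) := by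
    rw [card_univ, Fintype.card_pi, Nat.cast_prod, E_prod]
    refine prod_le_prod (fun _ _ => E_nonneg (Nat.cast_nonneg _)) fun p _ => ?_
    rw [Fintype.card_pi, Nat.cast_prod, E_prod]
    exact prod_le_prod (fun _ _ => E_nonneg (Nat.cast_nonneg _)) fun t _ => hc' _
  refine (mul_le_mul_of_nonneg_right hcard hM).trans (le_of_eq ?_)
  rw [← Fintype.prod_prod_type (f := fun i => s (some i) ^ (g * F.n (some i))),
    ← Fintype.prod_prod_type (f := b), Fintype.prod_option, Cfg.dg, pow_add, ← prod_pow_eq_pow_sum,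
    mul_left_comm, mul_assoc, mul_assoc, ← prod_mul_distrib, ← prod_mul_distrib]
  congr 2
  refine prod_congr rfl fun i _ => ?_
  rw [hb, Cfg.dg, ← mul_pow, pow_mul _ 2, pow_mul _ (2 * _), ← mul_pow, mul_comm 2, pow_mul]
  ring

end Pool.Agent.Lib.MP_651af7_nt.Av
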