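import Pool.Agent.Lib.MP_651af7_nt.Av.GeoA4
import Pool.Agent.Lib.MP_651af7_nt.Av.Lie

/-! Rigidity of closed subgroups. -/

namespace Pool.Agent.Lib.MP_651af7_nt.Av

open MvPolynomial AV TrivSqZeroExt

variable {k ι L : Type} [Field k] [Field L] [Algebra k L]

theorem exists_homog (f : MvPolynomial ι L) (a : ι) : ∃ (F : MvPolynomial ι L) (n : ℕ),
    F.IsHomogeneous n ∧ ∀ (N : Type) [CommRing N] [Algebra L N] (v : ι → N), v a = 1 →
      aeval v F = aeval v f := by
  refine ⟨∑ d ∈ Finset.range (f.totalDegree + 1),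
    X a ^ (f.totalDegree - d) * homogeneousComponent d f, f.totalDegree,
    IsHomogeneous.sum _ _ _ fun d hd => ?_, fun N _ _ v hv => ?_⟩
  · have := (isHomogeneous_X_pow (R := L) a (f.totalDegree - d)).mul
      (homogeneousComponent_isHomogeneous d f)
    rwa [Nat.sub_add_cancel (Nat.lt_succ_iff.1 (Finset.mem_range.1 hd))] at this
  · conv_rhs => rw [← sum_homogeneousComponent f]
    simp [hv]

theorem AV.IK_self (B : AV L ι) : B.IK L = B.I := by
  have e : (MvPolynomial.map (RingHom.id L) : MvPolynomial ι L →+* _) = RingHom.id _ :=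
    RingHom.ext MvPolynomial.map_id
  rw [IK, Algebra.algebraMap_self, e, Ideal.map_id]

theorem AV.exists_gen' [Finite ι] (B : AV L ι) :
    ∃ (M : Type) (_ : Field M) (_ : Algebra L M) (g : B.Pt M), Gen B.I g.co := by
  obtain ⟨M, _, i1, i2, t, g, hg⟩ := B.exists_gen L
  obtain rfl : i1 = i2 := Algebra.algebra_ext _ _ fun c =>
    @IsScalarTower.algebraMap_apply L L M _ _ _ _ i2 i1 t c
  exact ⟨M, _, i1, g, B.IK_self ▸ hg⟩

theorem AV.X_ao_notMem (B : AV L ι) (M : Type) [Field M] [Algebra L M] :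
    (X B.ao : MvPolynomial ι M) ∉ B.IK M := fun h => by
  have := aeval_of_mem_map (S := M) (rep_zero (A := B) (R := M)).zero _ h
  simp [B.o_ao] at this

theorem AV.mem_of_pts [Finite ι] [IsAlgClosed L] (B : AV L ι) {M : Type} [Field M] [Algebra L M]
    {G : MvPolynomial ι M} (h : ∀ (β : B.Pt L) w, Rep β w →
      eval (fun a => algebraMap L M (w a)) G = 0) : G ∈ B.IK M := by
  have hp : B.I.IsPrime := B.IK_self ▸ B.prime L
  refine ((B.prime M).mem_or_mem (mem_map_of_vanish (P := X B.ao * G) hp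
    fun x hx => ?_)).resolve_left (B.X_ao_notMem M)
  rw [map_mul, eval_X]
  by_cases h0 : x B.ao = 0
  · simp [h0]
  · obtain ⟨β, hβ⟩ := exists_rep (A := B) ⟨_, IsUnit.mk0 _ h0⟩ hx
    rw [h β x hβ, mul_zero]

theorem AV.exists_shift [Finite ι] [IsAlgClosed L] (B : AV L ι) {G : MvPolynomial ι L} {n : ℕ}
    (hG : G.IsHomogeneous n) (h0 : G ∉ B.I) {M : Type} [Field M] [Algebra L M] (b : B.Pt M) :
    ∃ H ∉ B.IK M, ∀ (β : B.Pt L) w, Rep β w → eval (fun a => algebraMap L M (w a)) H ≠ 0 →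
      aeval (b + B.map (Algebra.ofId L M) β).co G ≠ 0 := by
  let H : ι → MvPolynomial ι M := fun c => aeval (fun a => B.ph a c (fun e => C (b.co e)) X) G
  have hH : ∀ c (y : ι → M), eval y (H c) = aeval (fun a => B.ph a c b.co y) G := fun c y => by
    have h1 := aeval_hom ((aeval (R := M) y).restrictScalars L)
      (fun a => B.ph a c (fun e => C (b.co e)) X) G
    simp only [map_ph, AlgHom.restrictScalars_apply, aeval_X, aeval_C, Algebra.algebraMap_self,
      RingHom.id_apply] at h1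
    exact h1.symm
  have : ∃ c, H c ∉ B.IK M := by
    by_contra hn
    push Not at hn
    refine h0 (B.IK_self ▸ B.mem_of_pts fun β w hw => ?_)
    have h1 := rep_co (B.map (Algebra.ofId L M) β - b)
    obtain ⟨a, c, hu⟩ := exists_unit_ph (rep_co b) h1
    have h2 := rep_add (rep_co b) h1 hu
    rw [add_sub_cancel] at h2
    have h3 := aeval_of_mem_map (S := M) h1.zero _ (hn c)
    have h4 := (h2.hom_iff (hw.map (Algebra.ofId L M)) hG).2 ((hH c _).symm.trans h3)
    rw [aeval_hom, map_eq_zero] at h4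
    exact h4
  obtain ⟨c, hc⟩ := this
  refine ⟨H c, hc, fun β w hw h1 h2 => h1 ?_⟩
  obtain ⟨u, hu⟩ := law (rep_co b) (hw.map (Algebra.ofId L M)) (rep_co _) (rep_co _)
  have e : (fun a => B.ph a c b.co fun a => algebraMap L M (w a)) =
      fun a => (u * (b - B.map (Algebra.ofId L M) β).co c) *
        (b + B.map (Algebra.ofId L M) β).co a := funext fun a => (hu a c).trans (by ring)
  rw [hH, e, aeval_mul_of_hom hG, h2, mul_zero]

theorem AV.exists_shift₂ [Finite ι] [IsAlgClosed L] (B : AV L ι) {G : MvPolynomial ι L} {n : ℕ}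
    (hG : G.IsHomogeneous n) (h0 : G ∉ B.I) {M : Type} [Field M] [Algebra L M] (b b' : B.Pt M) :
    ∃ β : B.Pt L, aeval (b + B.map (Algebra.ofId L M) β).co G ≠ 0 ∧
      aeval (b' + B.map (Algebra.ofId L M) β).co G ≠ 0 := by
  obtain ⟨H, h1, h2⟩ := B.exists_shift hG h0 b
  obtain ⟨H', h3, h4⟩ := B.exists_shift hG h0 b'
  have h5 : H * H' ∉ B.IK M := fun h => ((B.prime M).mem_or_mem h).elim h1 h3
  have h6 := mt B.mem_of_pts h5
  push Not at h6
  obtain ⟨β, w, hw, h7⟩ := h6
  rw [map_mul, mul_ne_zero_iff] at h7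
  exact ⟨β, h2 β w hw h7.1, h4 β w hw h7.2⟩

variable (D₀ : Derivation k L L)

/-- The homomorphism `c ↦ c + ε D₀ c`. -/
noncomputable def tw (R : Type) [CommRing R] [Algebra L R] : L →+* DualNumber R where
  toFun c := inl (algebraMap L R c) + inr (algebraMap L R (D₀ c))
  map_one' := by simp
  map_zero' := by simp
  map_add' a b := by
    rw [D₀.map_add, map_add, map_add, inl_add, inr_add, add_add_add_comm]
  map_mul' a b := by
    rw [D₀.leibniz, smul_eq_mul, smul_eq_mul, map_add, map_mul, map_mul, map_mul]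
    generalize algebraMap L R (D₀ a) = s
    generalize algebraMap L R (D₀ b) = t
    ext <;> simp [mul_comm]

section

variable {R R' : Type} [CommRing R] [Algebra L R] [CommRing R'] [Algebra L R']

theorem eval₂_tw (y : ι → DualNumber R) (f : MvPolynomial ι L) : eval₂ (tw D₀ R) y f =
    aeval y f + inr (aeval (fun a => (y a).fst) (cfm D₀.toLinearMap.toAddMonoidHom f)) := by
  have e : ∀ m : ι →₀ ℕ, (∏ i ∈ m.support, y i ^ m i).fst = ∏ i ∈ m.support, (y i).fst ^ m i :=
    fun m => (map_prod (fstHom L R R) (fun i => y i ^ m i) m.support).trans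
      (Finset.prod_congr rfl fun i _ => fst_pow _ _)
  rw [cfm, map_sum, aeval_def, eval₂_eq, eval₂_eq, ← inrHom_apply R, map_sum,
    ← Finset.sum_add_distrib]
  refine Finset.sum_congr rfl fun m _ => ?_
  rw [aeval_monomial, Finsupp.prod, ← e]
  change (inl (algebraMap L R (coeff m f)) + inr (algebraMap L R (D₀ (coeff m f))) :
    DualNumber R) * _ = _ + inr (algebraMap L R (D₀ (coeff m f)) * _)
  generalize algebraMap L R (D₀ (coeff m f)) = s
  ext <;> simp [algebraMap_eq_inl', mul_comm, add_comm]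

theorem fst_dv (w v : ι → R) : (fun a => (dv w v a).fst) = w := funext fun a => by simp [dv]

theorem eval₂_tw_der [Algebra k R] (D : Derivation k R R)
    (hD : ∀ c, D (algebraMap L R c) = algebraMap L R (D₀ c)) (w : ι → R) (f : MvPolynomial ι L) :
    eval₂ (tw D₀ R) (dv w fun a => D (w a)) f = inl (aeval w f) + inr (D (aeval w f)) := by
  induction f using MvPolynomial.induction_on with
  | C c => simp [tw, hD]
  | add p q hp hq => rw [eval₂_add, hp, hq]; ext <;> simp
  | mul_X p a hp => rw [eval₂_mul, hp, eval₂_X]; ext <;> simp [dv, mul_comm, add_comm]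

variable [Fintype ι] (B : AV L ι)

/-- `w + ε v` is a zero of the equations deformed by `D₀`. -/
def Cmp (w v : ι → R) : Prop := ∀ f ∈ B.I, aeval w f = 0 ∧
  aeval w (cfm D₀.toLinearMap.toAddMonoidHom f) + ∑ a, aeval w (pderiv a f) * v a = 0

variable {D₀ B}

theorem cmp_iff {w v : ι → R} :
    Cmp D₀ B w v ↔ ∀ f ∈ B.I, eval₂ (tw D₀ R) (dv w v) f = 0 := by
  refine forall₂_congr fun f _ => ?_
  rw [eval₂_tw, TrivSqZeroExt.ext_iff, fst_dv]
  simp [(aeval_dv w v f).1, (aeval_dv w v f).2, add_comm]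

theorem Cmp.smul {w v : ι → R} (h : Cmp D₀ B w v) (u : R) :
    Cmp D₀ B (fun a => u * w a) fun a => u * v a := by
  rw [cmp_iff] at h ⊢
  have e : dv (fun a => u * w a) (fun a => u * v a) = fun a => inl u * dv w v a :=
    funext fun a => by ext <;> simp [dv]
  rw [e]
  exact @zero_mul_of_hom L _ _ _ (tw D₀ R).toAlgebra _ _ B.hom _ h _

theorem Cmp.map {w v : ι → R} (h : Cmp D₀ B w v) (g : R →ₐ[L] R') :
    Cmp D₀ B (fun a => g (w a)) fun a => g (v a) := fun f hf => by
  simp only [aeval_hom, ← map_mul, ← map_sum, ← map_add, (h f hf).1, (h f hf).2, map_zero, and_self]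

theorem Cmp.sub {w v v' : ι → R} (h : Cmp D₀ B w v) (h' : Cmp D₀ B w v') :
    ∀ f ∈ B.I, aeval (dv w (v - v')) f = 0 := fun f hf => by
  rw [TrivSqZeroExt.ext_iff, (aeval_dv w _ f).1, (aeval_dv w _ f).2]
  refine ⟨(h f hf).1, ?_⟩
  simp only [Pi.sub_apply, mul_sub, Finset.sum_sub_distrib, snd_zero]
  linear_combination (h f hf).2 - (h' f hf).2

variable [Algebra k R] [Algebra k R'] {A : AV k ι}

omit [Algebra L R] [Fintype ι] in
theorem AV.Tang.scale {w v l : ι → R} (h : A.Tang w v l) (u : R) :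
    A.Tang (fun a => u * w a) (fun a => u * v a) l := by
  have e : dv (fun a => u * w a) (fun a => u * v a) = fun a => inl u * dv w v a :=
    funext fun a => by ext <;> simp [dv]
  have e' : dv (fun a => u * w a) 0 = fun a => inl u * dv w 0 a :=
    funext fun a => by ext <;> simp [dv]
  refine ⟨e ▸ zero_mul_of_hom A.hom h.mem _, h.ao, fun a b => ?_⟩
  rw [e, e', ph_mul, ph_mul, h.eq a b, mul_assoc _ (A.ph _ _ _ _)]

variable (B) in
/-- The differential of `P` at the origin. -/
noncomputable def dif (P : MvPolynomial ι L) (l : ι → R) : R :=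
  ∑ a, aeval (fun c => algebraMap L R (B.o c)) (pderiv a P) * l a

omit [Algebra k R] in
theorem dif_add (P : MvPolynomial ι L) (l l' : ι → R) :
    dif B P (l + l') = dif B P l + dif B P l' := by
  simp [dif, mul_add, Finset.sum_add_distrib]

variable (D₀ A) in
/-- The obstruction to rigidity at the point `p`. -/
def Val (P : MvPolynomial ι L) (p : B.Pt R) (c : R) : Prop :=
  ∃ w v l, Rep p w ∧ Cmp D₀ B w v ∧ A.Tang w v l ∧ c = dif B P l

variable [IsLocalRing R] [IsLocalRing R'] [IsScalarTower k L R] [IsScalarTower k L R']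
  {P : MvPolynomial ι L}

theorem Val.map {p : B.Pt R} {c : R} (h : Val D₀ A P p c) (g : R →ₐ[L] R') :
    Val D₀ A P (B.map g p) (g c) := by
  obtain ⟨w, v, l, h1, h2, h3, rfl⟩ := h
  refine ⟨_, _, _, h1.map g, h2.map g, h3.map (g.restrictScalars k), ?_⟩
  simp [dif, ← aeval_hom]

theorem Val.unique (h : Sub A B) (hP : P ∈ B.I) {p : B.Pt R} {c c' : R} (h1 : Val D₀ A P p c)
    (h2 : Val D₀ A P p c') : c = c' := by
  obtain ⟨w, v, l, a1, a2, a3, rfl⟩ := h1
  obtain ⟨w', v', l', b1, b2, b3, rfl⟩ := h2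
  obtain ⟨u, hu⟩ := b1.exists_smul a1
  obtain rfl : w = fun a => u * w' a := funext hu
  obtain ⟨l₀, h0⟩ := exists_tang a1 (a2.sub (b2.smul u))
  have h3 := (h.tang_iff.1 h0).1.add (h.rep_inc a1) (b3.scale u)
  rw [sub_add_cancel] at h3
  have h4 := congrArg snd ((h0.isLie a1).2 P hP)
  rw [(aeval_dv _ _ _).2] at h4
  rw [a3.unique (h.rep_inc a1) h3, dif_add, show dif B P l₀ = 0 from h4, zero_add]

theorem val_der (h : Sub A B) {D : Derivation k R R}
    (hD : ∀ c, D (algebraMap L R c) = algebraMap L R (D₀ c)) (p : B.Pt R) :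
    Val D₀ A P p (dif B P (lam D (h.inc R p))) :=
  ⟨p.co, fun a => D (p.co a), _, rep_co p, cmp_iff.2 fun f hf => by
    simp [eval₂_tw_der D₀ D hD, (rep_co p).zero f hf], lam_tang D (h.rep_inc (rep_co p)), rfl⟩

end

variable {D₀} [Fintype ι] [CharZero L] {A : AV k ι} {B : AV L ι} (h : Sub A B)
include h

theorem exists_open {M : Type} [Field M] [Algebra k M] [Algebra L M] [IsScalarTower k L M]
    {g : B.Pt M} (hg : Gen B.I g.co) : ∃ (G : MvPolynomial ι L) (n : ℕ), G.IsHomogeneous n ∧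
      G ∉ B.I ∧ ∀ (R : Type) [CommRing R] [IsLocalRing R] [Algebra k R] [Algebra L R]
        [IsScalarTower k L R] (p : B.Pt R), IsUnit (aeval p.co G) →
        ∀ P, ∃ c, Val D₀ A P p c := by
  classical
  obtain ⟨a₀, ha⟩ := (rep_co g).unit
  obtain ⟨w, hw, e⟩ := Rep.exists_norm ha.ne_zero
  let F := IntermediateField.adjoin L (Set.range w)
  let w₁ : ι → F := fun a => ⟨w a, IntermediateField.subset_adjoin _ _ ⟨a, rfl⟩⟩
  obtain ⟨D, hD⟩ := exists_derivation_ext (F := F) D₀
  have hc : Cmp D₀ B w₁ fun a => D (w₁ a) := cmp_iff.2 fun f hf => by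
    have h1 : aeval w₁ f = 0 := F.val.injective (by
      rw [map_zero]
      exact (aeval_hom F.val w₁ f).symm.trans (hw.zero f hf))
    simp [eval₂_tw_der D₀ D hD, h1]
  have hr : ∀ a, ∃ r s : MvPolynomial ι L, aeval w s ≠ 0 ∧
      aeval w s * (D (w₁ a) : M) = aeval w r := fun a => by
    obtain ⟨r, s, h1⟩ := (IntermediateField.mem_adjoin_range_iff L w _).1 (D (w₁ a)).2
    by_cases h0 : aeval w s = 0
    · exact ⟨0, 1, by simp, by simp [h1, h0]⟩
    · exact ⟨r, s, h0, by rw [h1, mul_div_cancel₀ _ h0]⟩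
  choose r s hs hrs using hr
  obtain ⟨Q, n, hQ, eQ⟩ := exists_homog (∏ a, s a) a₀
  have hQ0 : aeval w (∏ a, s a) ≠ 0 := by
    rw [map_prod]
    exact Finset.prod_ne_zero_iff.2 fun a _ => hs a
  refine ⟨X a₀ * Q, 1 + n, (isHomogeneous_X L a₀).mul hQ, fun hm => hQ0 ?_, ?_⟩
  · simpa [e, eQ M w e] using hw.zero _ hm
  intro R _ _ _ _ _ p hu P
  rw [map_mul, aeval_X] at hu
  obtain ⟨u, hu₀⟩ := isUnit_of_mul_isUnit_left hu
  have h1 := (rep_co p).smul u⁻¹.isUnit
  set y := fun a => (↑u⁻¹ : R) * p.co a with hy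
  have e' : y a₀ = 1 := by simp [hy, ← hu₀]
  have h2 : IsUnit (aeval y (∏ a, s a)) := by
    rw [← eQ R y e', hy, aeval_mul_of_hom hQ]
    exact (u⁻¹.isUnit.pow n).mul (isUnit_of_mul_isUnit_right hu)
  have h3 : ∀ f : MvPolynomial ι L, aeval w f = 0 → aeval y f = 0 := fun f hf => by
    obtain ⟨T, m, hT, eT⟩ := exists_homog f a₀
    rw [← eT R y e']
    exact h1.zero T (hg T m hT ((hw.hom_iff (rep_co g) hT).2 ((eT M w e).trans hf)))
  obtain ⟨t, ht⟩ := h2
  have h4 : Cmp D₀ B y fun a => ↑t⁻¹ * aeval y (r a * ∏ b ∈ Finset.univ.erase a, s b) := by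
    refine fun f hf => ⟨h1.zero f hf, ?_⟩
    have h5 := h3 ((∏ a, s a) * cfm D₀.toLinearMap.toAddMonoidHom f +
      ∑ a, pderiv a f * (r a * ∏ b ∈ Finset.univ.erase a, s b)) (by
        have h6 := ((hc.map F.val) f hf).2
        have h7 : ∀ a, aeval w (r a * ∏ b ∈ Finset.univ.erase a, s b) =
            aeval w (∏ a, s a) * (D (w₁ a) : M) := fun a => by
          rw [← Finset.mul_prod_erase _ _ (Finset.mem_univ a), map_mul, map_mul, ← hrs]
          ring
        simp only [map_add, map_sum, map_mul _ (pderiv _ f), map_mul _ (∏ a, s a), h7]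
        simp only [mul_left_comm _ (aeval w (∏ a, s a)), ← Finset.mul_sum, ← mul_add]
        exact mul_eq_zero_of_right _ h6)
    simp only [map_add, map_sum, map_mul _ (pderiv _ f), map_mul _ (∏ a, s a), ← ht] at h5
    simp only [mul_left_comm _ (↑t⁻¹ : R), ← Finset.mul_sum]
    linear_combination (↑t⁻¹ : R) * h5 -
      aeval y (cfm D₀.toLinearMap.toAddMonoidHom f) * t.inv_mul
  obtain ⟨l, hl⟩ := exists_tang (v := fun a => ↑t⁻¹ *
      aeval y (r a * ∏ b ∈ Finset.univ.erase a, s b)) (h.rep_inc h1) fun f hf => by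
    have h5 := cmp_iff.1 h4 _ (h.le f hf)
    have h6 : (tw D₀ R).comp (algebraMap k L) = algebraMap k (DualNumber R) := by
      ext c <;> simp [tw, algebraMap_eq_inl', ← IsScalarTower.algebraMap_apply]
    rwa [eval₂_map, h6] at h5
  exact ⟨_, y, _, l, h1, h4, hl, rfl⟩

variable [IsAlgClosed L] {P : MvPolynomial ι L} (hP : P ∈ B.I) {G : MvPolynomial ι L} {n : ℕ}
  (hG : G.IsHomogeneous n) (h0 : G ∉ B.I)
  (hU : ∀ (R : Type) [CommRing R] [IsLocalRing R] [Algebra k R] [Algebra L R]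
    [IsScalarTower k L R] (p : B.Pt R), IsUnit (aeval p.co G) → ∀ P, ∃ c, Val D₀ A P p c)
include hP hG h0 hU

theorem val_mem {M : Type} [Field M] [Algebra k M] [Algebra L M] [IsScalarTower k L M]
    {p : B.Pt M} {c : M} (hc : Val D₀ A P p c) : c ∈ (algebraMap L M).range := by
  by_contra hn
  have : IsIntegrallyClosedIn (algebraMap L M).range M := by
    rw [Subring.isIntegrallyClosedIn_iff]
    rintro x ⟨q, hq, e⟩
    let φ : L ≃+* (algebraMap L M).range := RingEquiv.ofBijective (algebraMap L M).rangeRestrict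
      ⟨fun _ _ e => (algebraMap L M).injective (congrArg Subtype.val e),
        (algebraMap L M).rangeRestrict_surjective⟩
    have hx : IsIntegral L x := ⟨q.map φ.symm.toRingHom, hq.map _, by
      rw [Polynomial.eval₂_map, ← e]
      congr 1
      exact RingHom.ext fun c => congrArg Subtype.val (φ.apply_symm_apply c)⟩
    exact minpoly.mem_range_of_degree_eq_one L x
      (IsAlgClosed.degree_eq_one_of_irreducible L (minpoly.irreducible hx))
  obtain ⟨V, hV, hcV⟩ := Subring.exists_le_valuationSubring_of_isIntegrallyClosedIn hn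
  let _ : Algebra L V := ((algebraMap L M).codRestrict V fun c => hV ⟨c, rfl⟩).toAlgebra
  let _ : Algebra k V := ((algebraMap L V).comp (algebraMap k L)).toAlgebra
  have : IsScalarTower k L V := IsScalarTower.of_algebraMap_eq fun _ => rfl
  let j : V →ₐ[L] M := ⟨V.subtype, fun _ => rfl⟩
  obtain ⟨q, rfl⟩ := B.map_surjective_of_valuation j Subtype.val_injective
    (fun x => (V.mem_or_inv_mem x).imp (fun h => ⟨⟨_, h⟩, rfl⟩) fun h => ⟨⟨_, h⟩, rfl⟩) p
  let ρ := IsScalarTower.toAlgHom L V (IsLocalRing.ResidueField V)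
  obtain ⟨β, h1, -⟩ := B.exists_shift₂ hG h0 (B.map ρ q) (B.map ρ q)
  have h2 : IsUnit (aeval (q + B.map (Algebra.ofId L V) β).co G) := by
    have h3 := (rep_co (q + B.map (Algebra.ofId L V) β)).map ρ
    rw [map_add, AV.map_map, Algebra.comp_ofId] at h3
    have h4 := mt (h3.hom_iff (rep_co _) hG).2 h1
    rw [aeval_hom] at h4
    exact (IsLocalRing.residue_ne_zero_iff_isUnit _).1 h4
  obtain ⟨c₁, h3⟩ := hU V _ h2 P
  obtain ⟨D, hD⟩ := exists_derivation_ext (F := M) D₀
  have h4 := (h3.map j).unique h hP (val_der h hD _)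
  have h5 := ((val_der (P := P) h (fun _ => rfl) β).map (Algebra.ofId L M)).unique h hP
    (val_der h hD _)
  rw [map_add, map_add, lam_add, dif_add, AV.map_map, Algebra.comp_ofId, ← h5,
    ← hc.unique h hP (val_der h hD _)] at h4
  exact hcV (eq_sub_of_add_eq h4.symm ▸ sub_mem c₁.2 (hV ⟨_, rfl⟩))

theorem val_const {M : Type} [Field M] [Algebra k M] [Algebra L M] [IsScalarTower k L M]
    {g : B.Pt M} (hg : Gen B.I g.co) : ∃ c₀ : L, ∀ β : B.Pt L, aeval β.co G ≠ 0 →
      dif B P (lam D₀ (h.inc L β)) = c₀ := by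
  obtain ⟨D, hD⟩ := exists_derivation_ext (F := M) D₀
  obtain ⟨c₀, hc⟩ := val_mem h hP hG h0 hU (val_der h hD g)
  refine ⟨c₀, fun β hβ => ?_⟩
  obtain ⟨c, v, h1, h2⟩ := Spec.exists_cor (L := L) (p := g) (q := β) fun f m hf e =>
    (rep_co β).zero f (hg f m hf e)
  have hp : (RingHom.ker c.π).IsPrime := RingHom.ker_isPrime _
  let R := Localization.AtPrime (RingHom.ker c.π)
  let _ : Algebra k R := ((algebraMap L R).comp (algebraMap k L)).toAlgebra
  have : IsScalarTower k L R := IsScalarTower.of_algebraMap_eq fun _ => rfl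
  have hj : ∀ y : (RingHom.ker c.π).primeCompl, IsUnit (c.j y) := fun y =>
    IsUnit.mk0 _ fun e => y.2 (by
      rw [map_eq_zero_iff _ c.inj] at e
      rw [e]
      exact zero_mem _)
  have hπ : ∀ y : (RingHom.ker c.π).primeCompl, IsUnit (c.π y) := fun y => IsUnit.mk0 _ y.2
  let j : R →ₐ[L] M := IsLocalization.liftAlgHom hj
  let π : R →ₐ[L] L := IsLocalization.liftAlgHom hπ
  have ej : ∀ y, j (algebraMap c.R R y) = c.j y := fun y => IsLocalization.lift_eq hj y
  have eπ : ∀ y, π (algebraMap c.R R y) = c.π y := fun y => IsLocalization.lift_eq hπ y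
  have inj : Function.Injective j :=
    (IsLocalization.lift_injective_iff hj).2 fun x y =>
      ⟨fun e => by simpa [ej] using congrArg j e, fun e => congrArg _ (c.inj e)⟩
  have hu : ∀ y, c.π y ≠ 0 → IsUnit (algebraMap c.R R y) := fun y hy =>
    IsLocalization.map_units R (⟨y, hy⟩ : (RingHom.ker c.π).primeCompl)
  obtain ⟨p, h3, h4⟩ := exists_map_eq (A := B) inj (q := g) (v := fun a => algebraMap c.R R (v a))
    (h2.unit.imp fun a ha => hu _ ha.ne_zero) (by simpa only [ej] using h1)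
  have h5 : B.map π p = β := (h3.map π).inj (by simpa only [eπ] using h2)
  have h6 : IsUnit (aeval p.co G) := by
    obtain ⟨u, hu'⟩ := h3.exists_smul (rep_co p)
    rw [show p.co = _ from funext hu', aeval_mul_of_hom hG, aeval_alg]
    refine (u.isUnit.pow n).mul (hu _ ?_)
    rw [← aeval_hom]
    exact mt (h2.hom_iff (rep_co β) hG).2 hβ
  obtain ⟨c₁, h7⟩ := hU R p h6 P
  have h8 := (h4 ▸ h7.map j).unique h hP (val_der h hD g)
  have h9 := (h5 ▸ h7.map π).unique h hP (val_der h (fun _ => rfl) β)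
  rw [← hc, ← j.commutes] at h8
  rw [← h9, inj h8, π.commutes]
  rfl

omit hP hG h0 hU in
/-- The ideal of a closed subgroup is stable under the derivations of the base field. -/
theorem rigid (D₀ : Derivation k L L) :
    ∀ f ∈ B.I, cfm D₀.toLinearMap.toAddMonoidHom f ∈ B.I := by
  obtain ⟨M, _, _, g, hg⟩ := B.exists_gen'
  let _ : Algebra k M := ((algebraMap L M).comp (algebraMap k L)).toAlgebra
  have : IsScalarTower k L M := IsScalarTower.of_algebraMap_eq fun _ => rfl
  obtain ⟨G, n, hG, h0, hU⟩ := exists_open (D₀ := D₀) h hg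
  have key : ∀ P ∈ B.I, ∀ β : B.Pt L, dif B P (lam D₀ (h.inc L β)) = 0 := fun P hP β => by
    obtain ⟨c₀, hc⟩ := val_const h hP hG h0 hU hg
    obtain ⟨γ, h1, h2⟩ := B.exists_shift₂ hG h0 0 β
    have h3 := hc _ h1
    have h4 := hc _ h2
    rw [zero_add] at h3
    rw [map_add, lam_add, dif_add, h3] at h4
    exact add_eq_right.1 h4
  intro f hf
  refine B.IK_self ▸ B.mem_of_pts fun β w hw => ?_
  have h1 := lam_tang D₀ (h.rep_inc hw)
  have h2 := h.tang_of_isLie hw h1 ⟨h.ao ▸ h1.ao, fun P hP => by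
    rw [TrivSqZeroExt.ext_iff, (aeval_dv _ _ _).1, (aeval_dv _ _ _).2]
    exact ⟨rep_zero.zero P hP, key P hP β⟩⟩
  have h3 := eval₂_tw_der D₀ D₀ (fun _ => rfl) w f
  rw [eval₂_tw, h2.mem f hf, hw.zero f hf, fst_dv] at h3
  simpa using congrArg snd h3

end Pool.Agent.Lib.MP_651af7_nt.Av
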