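import Pool.Agent.Lib.MP_651af7_nt.Av.EDefs

/-! Engine: adelic sizes. -/

namespace Pool.Agent.Lib.MP_651af7_nt.Av

open MvPolynomial Finset Height
open Pool.Agent.Lib.MP_651af7_nt.Vj (gsum FinS)

section nm

variable {k ι : Type} [Field k] [Fintype ι] (v : AbsoluteValue k ℝ) (x : ι → k)

theorem le_nm (a : ι) : v (x a) ≤ nm v x := by
  exact le_ciSup (f := fun a => v (x a)) (Finite.bddAbove_range _) a

theorem nm_nn : 0 ≤ nm v x := by
  exact Real.iSup_nonneg fun a => v.nonneg _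

theorem exists_nm [Nonempty ι] : ∃ a, v (x a) = nm v x := by
  exact exists_eq_ciSup_of_finite (f := fun a => v (x a))

theorem nm_pos {x : ι → k} (hx : x ≠ 0) : 0 < nm v x := by
  obtain ⟨a, ha⟩ := Function.ne_iff.1 hx
  exact (v.pos ha).trans_le (le_nm v x a)

end nm

variable {k ι : Type} [Field k] [NumberField k] {c c' : AbsoluteValue k ℝ → ℝ} {h h' : ℝ}

theorem gsum_mono {f g : AbsoluteValue k ℝ → ℝ} (hf : FinS f) (hg : FinS g)
    (h : ∀ v, Adm v → f v ≤ g v) : gsum f ≤ gsum g := by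
  exact add_le_add (Multiset.sum_map_le_sum_map _ _ fun v hv => h v (Or.inl hv))
    (finsum_le_finsum' hf hg fun v => h v.val (Or.inr v.2))

theorem Ad.nonneg (hc : Ad c h) : 0 ≤ h := by
  refine le_trans ?_ hc.le
  rw [← Vj.pf_gsum_zero (K := k)]
  exact Vj.pf_gsum_mono Vj.pf_finS_zero hc.fin fun v => Real.log_nonneg (hc.one v)

theorem Ad.pos (hc : Ad c h) (v : AbsoluteValue k ℝ) : 0 < c v := one_pos.trans_le (hc.one v)

theorem Ad.mono (hc : Ad c h) (hh : h ≤ h') : Ad c h' := ⟨hc.one, hc.fin, hc.le.trans hh⟩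

theorem ad_one : Ad (fun _ : AbsoluteValue k ℝ => 1) 0 := by
  refine ⟨fun _ => le_rfl, ?_, ?_⟩
  · simpa only [Real.log_one] using Vj.pf_finS_zero
  · simpa only [Real.log_one] using Vj.pf_gsum_zero.le

theorem Ad.mul (hc : Ad c h) (hc' : Ad c' h') : Ad (fun v => c v * c' v) (h + h') := by
  have e : (fun v => Real.log (c v * c' v)) = fun v => Real.log (c v) + Real.log (c' v) :=
    funext fun v => Real.log_mul (hc.pos v).ne' (hc'.pos v).ne'
  refine ⟨fun v => one_le_mul_of_one_le_of_one_le (hc.one v) (hc'.one v), ?_, ?_⟩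
  · rw [e]
    exact hc.fin.add hc'.fin
  · rw [e, Vj.gsum_add hc.fin hc'.fin]
    exact add_le_add hc.le hc'.le

theorem Ad.pow (hc : Ad c h) (n : ℕ) : Ad (fun v => c v ^ n) (n * h) := by
  refine ⟨fun v => one_le_pow₀ (hc.one v), ?_, ?_⟩
  · simpa only [Real.log_pow] using hc.fin.const_mul n
  · simp only [Real.log_pow]
    rw [Vj.gsum_const_mul hc.fin]
    exact mul_le_mul_of_nonneg_left hc.le (Nat.cast_nonneg n)

theorem ad_prod {I : Type} (s : Finset I) {c : I → AbsoluteValue k ℝ → ℝ} {h : I → ℝ}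
    (hc : ∀ i ∈ s, Ad (c i) (h i)) : Ad (fun v => ∏ i ∈ s, c i v) (∑ i ∈ s, h i) := by
  classical
  induction s using Finset.induction_on with
  | empty => simpa only [prod_empty, sum_empty] using ad_one
  | insert a s ha ih =>
    simp only [prod_insert ha, sum_insert ha]
    exact (hc a (mem_insert_self a s)).mul (ih fun i hi => hc i (mem_insert_of_mem hi))

theorem ad_E {t : ℝ} (ht : 1 ≤ t) : Ad (fun v : AbsoluteValue k ℝ => E (IsNonarchimedean v) t)
    (totalWeight k * Real.log t) := by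
  have h0 : ∀ v : AdmissibleAbsValues.nonarchAbsVal (K := k),
      Real.log (E (IsNonarchimedean v.val) t) = 0 := fun v => by
    rw [E_pos_case (AdmissibleAbsValues.isNonarchimedean _ v.2), Real.log_one]
  refine ⟨fun v => one_le_E ht, ?_, ?_⟩
  · simp [FinS, h0]
  · have h1 : ((AdmissibleAbsValues.archAbsVal (K := k)).map fun v : AbsoluteValue k ℝ =>
        Real.log (E (IsNonarchimedean v) t)).sum ≤
        ((AdmissibleAbsValues.archAbsVal (K := k)).map fun _ => Real.log t).sum :=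
      Multiset.sum_map_le_sum_map _ _ fun v _ =>
        Real.log_le_log (E_pos (one_pos.trans_le ht)) (E_le_self ht)
    rw [Multiset.map_const', Multiset.sum_replicate, nsmul_eq_mul] at h1
    unfold gsum totalWeight
    simpa only [h0, finsum_zero, add_zero] using h1

theorem ad_max (z : k) : Ad (fun v => max 1 (v z)) (logHeight₁ z) := by
  simp only [max_comm (1 : ℝ)]
  exact ⟨fun v => le_max_right _ _, Vj.finS_max z, (Vj.gsum_max z).le⟩

theorem Ad.logHeight₁_le (hc : Ad c h) {z : k} (hz : ∀ v, Adm v → v z ≤ c v) :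
    logHeight₁ z ≤ h := by
  rw [← Vj.gsum_max]
  exact (gsum_mono (Vj.finS_max z) hc.fin fun v hv =>
    Real.log_le_log (by positivity) (max_le (hz v hv) (hc.one v))).trans hc.le

theorem finS_nm [Fintype ι] (x : ι → k) : FinS fun v => Real.log (nm v x) := by
  rcases isEmpty_or_nonempty ι with hι | hι
  · simpa only [nm, Real.iSup_of_isEmpty, Real.log_zero] using Vj.pf_finS_zero
  · refine (Set.finite_iUnion fun a => Vj.finS_log (x a)).subset fun v hv => ?_
    obtain ⟨a, ha⟩ := exists_nm v.val x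
    refine Set.mem_iUnion.2 ⟨a, ?_⟩
    intro h0
    exact hv (ha ▸ h0 : Real.log (nm v.val x) = 0)

theorem gsum_nm [Fintype ι] {x : ι → k} (hx : x ≠ 0) :
    gsum (fun v => Real.log (nm v x)) = logHeight x := by
  rw [logHeight_eq_log_mulHeight, mulHeight_eq hx]
  exact (Vj.pf_log_prod (fun v => nm v x) fun v => nm_pos v hx).symm

theorem ad_nm [Fintype ι] {x : ι → k} {a : ι} (hx : x a = 1) :
    Ad (fun v => nm v x) (logHeight x) := by
  have h0 : x ≠ 0 := fun h => one_ne_zero (hx.symm.trans (congrFun h a))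
  refine ⟨fun v => ?_, finS_nm x, (gsum_nm h0).le⟩
  simpa only [hx, map_one] using le_nm v x a

theorem ead_pl {σ : Type} (P : MvPolynomial σ k) (T : Finset (σ →₀ ℕ)) (hT : P.support ⊆ T) :
    ∃ c, Ad c (totalWeight k * Real.log ((T.card : ℝ) + 1) + ∑ μ ∈ T, logHeight₁ (coeff μ P)) ∧
      ∀ v, pl v P ≤ c v := by
  have h1 : (1 : ℝ) ≤ (T.card : ℝ) + 1 := by simp
  refine ⟨_, (ad_E h1).mul (ad_prod T fun μ _ => ad_max (coeff μ P)), fun v => ?_⟩
  have h2 : (0 : ℝ) ≤ ∏ μ ∈ T, max 1 (v (coeff μ P)) := prod_nonneg fun _ _ => by positivity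
  refine (polN_le_card (absSN v) (fun _ => zero_le_one) h2 fun μ hμ => ?_).trans ?_
  · classical
    rw [wt_one, mul_one, ← mul_prod_erase T _ (hT hμ)]
    refine (le_max_right 1 (v (coeff μ P))).trans (le_mul_of_one_le_right (by positivity) ?_)
    exact Finset.one_le_prod fun _ _ => le_max_left _ _
  · refine mul_le_mul_of_nonneg_right (E_mono ?_) h2
    have : (P.support.card : ℝ) ≤ T.card := by exact_mod_cast card_le_card hT
    linarith

/-- A size for the length of a small polynomial: `E (number of monomials)` times the product of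
the `max 1 (v (coeff μ P))`. -/
theorem exists_ad_pl (k σ : Type) [Field k] [NumberField k] [Fintype σ] (B : ℕ) :
    ∃ κ : ℝ, 0 ≤ κ ∧ ∀ (P : MvPolynomial σ k) (h : ℝ), 0 ≤ h → SmallP B h P →
      ∃ c, Ad c (κ * (h + 1)) ∧ ∀ v, pl v P ≤ c v := by
  have hfin := Finsupp.finite_of_degree_le (σ := σ) B
  have h1 : (1 : ℝ) ≤ (hfin.toFinset.card : ℝ) + 1 := by simp
  have h2 : 0 ≤ totalWeight k * Real.log ((hfin.toFinset.card : ℝ) + 1) :=
    mul_nonneg (Nat.cast_nonneg _) (Real.log_nonneg h1)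
  refine ⟨totalWeight k * Real.log ((hfin.toFinset.card : ℝ) + 1) + hfin.toFinset.card,
    by positivity, fun P h hh hP => ?_⟩
  obtain ⟨c, hc, hl⟩ := ead_pl P hfin.toFinset fun μ hμ => by
    rw [Set.Finite.mem_toFinset]
    exact (le_totalDegree hμ).trans hP.1
  refine ⟨c, hc.mono ?_, hl⟩
  have h3 : ∑ μ ∈ hfin.toFinset, logHeight₁ (coeff μ P) ≤ hfin.toFinset.card * h := by
    simpa only [nsmul_eq_mul] using sum_le_card_nsmul _ _ h fun μ _ => hP.2 μ
  have h4 : (0 : ℝ) ≤ hfin.toFinset.card := Nat.cast_nonneg _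
  nlinarith [mul_nonneg h2 hh]

theorem exists_ad_fixed {σ : Type} (P : MvPolynomial σ k) :
    ∃ c h, Ad c h ∧ ∀ v, pl v P ≤ c v := by
  obtain ⟨c, hc⟩ := ead_pl P P.support subset_rfl
  exact ⟨c, _, hc⟩

/-- The product formula. -/
theorem height_ineq [Fintype ι] {Λ I J : Type} [Fintype Λ] [Fintype I] [Fintype J] {Ψ : Λ → k}
    (hΨ : Ψ ≠ 0) {l : k} (hl : l ≠ 0) {x : I → ι → k} (hx : ∀ i, x i ≠ 0) (d : I → ℕ)
    {y : J → ι → k} (hy : ∀ j, y j ≠ 0) (d' : J → ℕ) {f : AbsoluteValue k ℝ → ℝ} (hf : FinS f)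
    (h : ∀ v, Adm v → ∀ α, v l * v (Ψ α) * ∏ j, nm v (y j) ^ d' j ≤
      Real.exp (f v) * ∏ i, nm v (x i) ^ d i) :
    logHeight Ψ + ∑ j, d' j * logHeight (y j) ≤ gsum f + ∑ i, d i * logHeight (x i) := by
  have a1 : ∀ i ∈ (univ : Finset I), FinS fun v => (d i : ℝ) * Real.log (nm v (x i)) :=
    fun i _ => (finS_nm _).const_mul _
  have a2 : ∀ j ∈ (univ : Finset J), FinS fun v => (d' j : ℝ) * Real.log (nm v (y j)) :=
    fun j _ => (finS_nm _).const_mul _
  have a3 := (Vj.finS_log l).add (finS_nm Ψ)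
  have h1 := gsum_mono (a3.add (Vj.finS_sum univ a2)) (hf.add (Vj.finS_sum univ a1))
    fun v hv => ?_
  · rw [Vj.gsum_add a3 (Vj.finS_sum univ a2), Vj.gsum_add (Vj.finS_log l) (finS_nm Ψ),
      Vj.gsum_add hf (Vj.finS_sum univ a1), Vj.gsum_log hl, Vj.gsum_sum univ a1,
      Vj.gsum_sum univ a2, zero_add, gsum_nm hΨ] at h1
    simpa only [Vj.gsum_const_mul (finS_nm _), gsum_nm (hx _), gsum_nm (hy _)] using h1
  · have : Nonempty Λ := ⟨(Function.ne_iff.1 hΨ).choose⟩
    obtain ⟨α, hα⟩ := exists_nm v Ψ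
    have b1 : ∀ i ∈ (univ : Finset I), 0 < nm v (x i) ^ d i :=
      fun i _ => pow_pos (nm_pos v (hx i)) _
    have b2 : ∀ j ∈ (univ : Finset J), 0 < nm v (y j) ^ d' j :=
      fun j _ => pow_pos (nm_pos v (hy j)) _
    have b3 := mul_pos (v.pos hl) (nm_pos v hΨ)
    have h2 := h v hv α
    rw [hα] at h2
    have h3 := Real.log_le_log (mul_pos b3 (prod_pos b2)) h2
    rw [Real.log_mul b3.ne' (prod_pos b2).ne', Real.log_mul (v.pos hl).ne' (nm_pos v hΨ).ne',
      Real.log_mul (Real.exp_pos _).ne' (prod_pos b1).ne', Real.log_exp,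
      Real.log_prod fun i hi => (b1 i hi).ne', Real.log_prod fun j hj => (b2 j hj).ne'] at h3
    simpa only [Real.log_pow] using h3

end Pool.Agent.Lib.MP_651af7_nt.Av
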