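import Pool.Agent.Lib.MP_651af7_nt.Av.LosB

/-! Block S: the field of small germs is algebraically closed in the ultrapower. -/

namespace Pool.Agent.Lib.MP_651af7_nt.Av

open Filter Height Polynomial

variable {α : Type} {U : Ultrafilter α} {k : Type} [Field k]

theorem relCl_up : RelCl k (Up U k) := by
  rintro c ⟨p, hp, hc⟩
  obtain ⟨f, rfl⟩ := germ_surj U c
  have h1 : aeval f p = fun n => p.eval (f n) := funext fun n =>
    (aeval_algHom_apply (Pi.evalAlgHom k (fun _ : α => k) n) f p).symm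
  rw [← germA_apply, aeval_algHom_apply, h1, germA_apply, germ_eq_zero] at hc
  obtain ⟨z, -, hz⟩ := (Ultrafilter.eventually_exists_mem_iff (P := fun z n => z = f n)
    (finite_setOfPred_isRoot hp)).1 (hc.mono fun n hn => ⟨f n, hn, rfl⟩)
  exact ⟨z, (germ_eq U).2 hz⟩

variable [NumberField k]

theorem logHeight_pows_le (m : ℕ) (z : k) :
    logHeight (fun i : Fin (m + 1) => z ^ (i : ℕ)) ≤ m * logHeight₁ z := by
  have h1 := logHeight_fun_prod_eq (ι := fun _ : Fin m => Fin 2) (x := fun _ => ![z, 1])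
    fun a h => one_ne_zero (congrFun h 1)
  have h2 := logHeight_comp_le
    (fun i : Fin (m + 1) => fun j : Fin m => if (j : ℕ) < i then (0 : Fin 2) else 1)
    fun I : Fin m → Fin 2 => ∏ a, ![z, 1] (I a)
  rw [h1, Finset.sum_const, Finset.card_univ, Fintype.card_fin, nsmul_eq_mul,
    ← logHeight₁_eq_logHeight] at h2
  refine le_trans (le_of_eq ?_) h2
  congr 1
  funext i
  simp only [Function.comp_apply, apply_ite ![z, 1], Matrix.cons_val_zero, Matrix.cons_val_one,
    Finset.prod_ite, Finset.prod_const, one_pow, mul_one, Fin.card_filter_val_lt]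
  rw [min_eq_right (Nat.lt_succ_iff.1 i.2)]

theorem logHeight₁_root_le {d : ℕ} (a : ℕ → k) {z : k}
    (h : z ^ d + ∑ i ∈ Finset.range d, a i * z ^ i = 0) :
    logHeight₁ z ≤ totalWeight k * Real.log d + ∑ i ∈ Finset.range d, logHeight₁ (a i) := by
  obtain _ | m := d
  · simp at h
  have h1 := logHeight_linearMap_apply_le
    (fun p : Fin 2 × Fin (m + 1) => if p.1 = 0 then -a p.2 else if p.2 = 0 then 1 else 0)
    fun i => z ^ (i : ℕ)
  have h2 := logHeight_le_sum
    fun p : Fin 2 × Fin (m + 1) => if p.1 = 0 then -a p.2 else if p.2 = 0 then (1 : k) else 0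
  have h3 : (fun j : Fin 2 => ∑ i : Fin (m + 1),
      (if j = 0 then -a i else if i = 0 then 1 else 0) * z ^ (i : ℕ)) = ![z ^ (m + 1), 1] := by
    funext j
    fin_cases j
    · rw [Finset.sum_range] at h
      simp only [Fin.zero_eta, if_true, neg_mul, Finset.sum_neg_distrib, Matrix.cons_val_zero]
      exact (eq_neg_of_add_eq_zero_left h).symm
    · simp
  have h4 : ∑ p : Fin 2 × Fin (m + 1), logHeight₁
      (if p.1 = 0 then -a p.2 else if p.2 = 0 then (1 : k) else 0) =
      ∑ i ∈ Finset.range (m + 1), logHeight₁ (a i) := by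
    rw [Fintype.sum_prod_type, Fin.sum_univ_two, Finset.sum_range]
    simp [logHeight₁_neg, apply_ite logHeight₁]
  have h5 := logHeight_pows_le m z
  rw [h4] at h2
  simp only [h3, ← logHeight₁_eq_logHeight, logHeight₁_pow, Nat.card_eq_fintype_card,
    Fintype.card_fin] at h1
  push_cast at h1 ⊢
  linarith

variable {H : α → ℝ} (hH : Tendsto H U atTop)

theorem relCl_sm : RelCl k (Sm k hH) ∧ RelCl (Sm k hH) (Up U k) := by
  refine ⟨fun c hc => ?_, fun c hc => ?_⟩
  · obtain ⟨z, hz⟩ := relCl_up (U := U) (c : Up U k) (hc.algHom (Sm k hH).val)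
    exact ⟨z, Subtype.ext hz⟩
  · obtain ⟨p, hp, hc⟩ := hc.isIntegral
    obtain ⟨f, rfl⟩ := germ_surj U c
    choose g hg hg' using fun i => (p.coeff i).2
    rw [← aeval_def, hp.as_sum] at hc
    have h1 : ∀ i, algebraMap (Sm k hH) (Up U k) (p.coeff i) = germ U (g i) := fun i => (hg i).symm
    simp only [map_add, map_sum, map_mul, map_pow, aeval_X, aeval_C, h1] at hc
    simp only [← map_pow, ← map_mul, ← map_sum, ← map_add, germ_eq_zero] at hc
    refine ⟨⟨_, (mem_sm_iff hH).2 (((Lo.const hH _).add (Lo.sum hH (Finset.range p.natDegree)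
      fun i _ => hg' i)).mono (hc.mono fun n hn => logHeight₁_root_le (fun i => g i n) ?_))⟩, rfl⟩
    simpa only [Pi.add_apply, Pi.pow_apply, Finset.sum_apply, Pi.mul_apply] using hn

end Pool.Agent.Lib.MP_651af7_nt.Av
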