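import Pool.Agent.Lib.MP_651af7_nt.Av.Geo
import Pool.Agent.Lib.MP_651af7_nt.Av.LosR
import Pool.Agent.Lib.MP_651af7_nt.Av.LosC

/-! Block S (the field of small germs, transfer to the members of the family). -/

namespace Pool.Agent.Lib.MP_651af7_nt.Av

open MvPolynomial Filter Height

variable {α : Type} {U : Ultrafilter α} {k ι : Type} [Field k]

variable [NumberField k]

/-- The transfer of all the data. -/
theorem AV.exists_blk [Fintype ι] (B : AV k ι) {σ : Fin B.dim → ι → k} (hσ : B.LieBasis σ)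
    (y : α → B.Pt k) (hH : Tendsto (fun n => AV.ht (y n)) U atTop) {Y : B.Pt (Up U k)}
    (hY : IsGerm U Y y) (hg : B.Gens (Sm k hH) Y) {e ρ : ℕ}
    {u : Fin (B.dim + 1) → MvPolynomial ι (Sm k hH)}
    {c : ι → Fin ρ → MvPolynomial (Fin (B.dim + 1)) (Sm k hH)} (hnn : NN (B.IK (Sm k hH)) e ρ u c)
    {un : α → Fin (B.dim + 1) → MvPolynomial ι k}
    (hu : ∀ i, Repr U (MvPolynomial.map (algebraMap _ (Up U k)) (u i)) fun n => un n i) :
    ∃ (r B₀ : ℕ) (δ : ℝ) (b : α → B.Blk B.dim r ρ), 0 < δ ∧ (∀ n, (b n).P = y n ∧ (b n).u = un n) ∧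
      (∀ ε : ℝ, 0 < ε → ∀ᶠ n in U, (b n).Good σ B₀ e ε δ) ∧
      ∀ B' : ℕ, ∃ δ' : ℝ, 0 < δ' ∧ ∀ᶠ n in U, ¬(b n).Exit B' (δ' * AV.ht (y n)) := by
  classical
  have : CharZero (Sm k hH) := charZero_of_injective_algebraMap (algebraMap k _).injective
  obtain ⟨a₀, ha₀⟩ := AV.Rep.unit hY
  obtain ⟨x, hx, hx0⟩ : ∃ x : α → ι → k, (∀ᶠ n in U, AV.Rep (y n) (x n)) ∧
      (germ U fun n => x n a₀) = 1 := by
    refine ⟨fun n a => ((y n).co a₀)⁻¹ * (y n).co a,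
      (germ_isUnit.1 ha₀).mono fun n hn => (AV.rep_co (y n)).smul hn.inv, ?_⟩
    rw [← map_one (germ U), germ_eq]
    exact (germ_isUnit.1 ha₀).mono fun n hn => inv_mul_cancel₀ hn.ne_zero
  have hX := hY.rep hx
  obtain ⟨r, C, -, hat, -, hind, hon⟩ :=
    exists_chart (K := Sm k hH) (fun a => germ U fun n => x n a) a₀ hx0
  obtain ⟨Cn, hC⟩ := exists_reprC (U := U) (k := k) C
  choose cn hcn using fun a l =>
    exists_repr (MvPolynomial.map (algebraMap (Sm k hH) (Up U k)) (c a l))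
  obtain ⟨B₁, hB₁⟩ := Finite.exists_le fun a => (C.φ a).totalDegree
  obtain ⟨B₂, hB₂⟩ := Finite.exists_le fun i => (u i).totalDegree
  obtain ⟨B₃, hB₃⟩ := Finite.exists_le fun p : ι × Fin ρ => (c p.1 p.2).totalDegree
  obtain ⟨δ, hδ, hnsv⟩ := exists_delta hH (p := fun δ n => ∃ ℓ : Fin B.dim → k, ℓ ≠ 0 ∧
      B.Kills σ (Cn n) (x n) ℓ ∧ logHeight ℓ < δ * AV.ht (y n)) fun d hd h => by
    have h1 : ∀ n, ∃ ℓ : Fin B.dim → k, (∃ ℓ : Fin B.dim → k, ℓ ≠ 0 ∧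
        B.Kills σ (Cn n) (x n) ℓ ∧ logHeight ℓ < d n * AV.ht (y n)) →
        ℓ ≠ 0 ∧ B.Kills σ (Cn n) (x n) ℓ ∧ logHeight ℓ < d n * AV.ht (y n) := fun n =>
      ⟨Classical.epsilon fun ℓ => ℓ ≠ 0 ∧ B.Kills σ (Cn n) (x n) ℓ ∧
        logHeight ℓ < d n * AV.ht (y n), fun h => Classical.epsilon_spec h⟩
    choose ℓ hℓ using h1
    have h2 := h.mono hℓ
    obtain ⟨l₀, hl₀⟩ := Ultrafilter.eventually_exists_iff.1
      (h2.mono fun n hn => Function.ne_iff.1 hn.1)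
    have h3 : ∀ l, (germ U fun n => (ℓ n l₀)⁻¹ * ℓ n l) ∈ Sm k hH := fun l =>
      (mem_sm_iff hH).2 (hd.mono (h2.mono fun n hn => by
        rw [← div_eq_inv_mul]
        exact (logHeight₁_div_le _ _ _).trans hn.2.2.le))
    have h4 := AV.kills_eq_zero B hσ hg C hX hat (fun l => ⟨_, h3 l⟩)
      (hC.kills (ℓ := fun n l => (ℓ n l₀)⁻¹ * ℓ n l) (h2.mono fun n hn => hn.2.1.mul _))
    have h5 : (germ U fun n => (ℓ n l₀)⁻¹ * ℓ n l₀) = 0 := congrArg Subtype.val (congrFun h4 l₀)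
    obtain ⟨n, h6, h7⟩ := ((germ_eq_zero.1 h5).and hl₀).exists
    exact mul_ne_zero (inv_ne_zero h7) h7 h6
  refine ⟨r, max B₁ (max B₂ B₃), δ, fun n => ⟨y n, x n, Cn n, un n, fun a l => cn a l n⟩, hδ,
    fun n => ⟨rfl, rfl⟩, fun ε hε => ?_, fun B' => ?_⟩
  · have h1 := hC.on hon (I := B.I) fun f hf => by
      rw [RingHom.mem_ker, aeval_map_algebraMap]
      exact hX.zero f hf
    have h2 := hnn.transfer (cn := fun n a l => cn a l n) hu hcn
    have h3 := eventually_all.2 fun a => (hC.φ a).small hH (B := max B₁ (max B₂ B₃))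
      ((hB₁ a).trans (le_max_left _ _)) hε
    have h4 := eventually_all.2 fun i => (hu i).small hH (B := max B₁ (max B₂ B₃))
      ((hB₂ i).trans ((le_max_left _ _).trans (le_max_right _ _))) hε
    have h5 := eventually_all.2 fun a => eventually_all.2 fun l =>
      (hcn a l).small hH (B := max B₁ (max B₂ B₃))
        ((hB₃ (a, l)).trans ((le_max_right _ _).trans (le_max_right _ _))) hε
    filter_upwards [hx, hC.atx hat, h1, h2, h3, h4, h5, hnsv] with n h0 h0' h1 h2 h3 h4 h5 h6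
    exact ⟨h0, h0', h1, h2, h3, h4, h5, fun ℓ hℓ hk => not_lt.1 fun hlt => h6 ⟨ℓ, hℓ, hk, hlt⟩⟩
  · obtain ⟨δ', hδ', h⟩ := exists_not_exit hH (fun n j => x n (C.I j)) hind B'
    refine ⟨δ', hδ', h.mono ?_⟩
    rintro n hn ⟨q, h1, h2, h3, h4, h5⟩
    refine hn q h1 h2 h3 h4 ?_
    simpa only [hC.I] using h5

end Pool.Agent.Lib.MP_651af7_nt.Av
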