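import Pool.Agent.Lib.MP_651af7_nt.Av.ESn

/-! Engine: Gauss norms of polynomials and of truncated power series. -/

namespace Pool.Agent.Lib.MP_651af7_nt.Av

open Finset

open Classical in
/-- The maximum in the ultrametric case, the sum otherwise. -/
noncomputable def agg (na : Prop) {α : Type} (s : Finset α) (f : α → ℝ) : ℝ :=
  if na then s.fold max 0 f else ∑ a ∈ s, f a

/-- The value of a monomial at the radii. -/
noncomputable def wt {σ : Type} (t : σ → ℝ) (μ : σ →₀ ℕ) : ℝ := μ.prod fun s n => t s ^ n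

variable {R R' σ : Type} [CommRing R] [CommRing R'] {na : Prop}

/-- The Gauss norm of a polynomial for the radii `t`. -/
noncomputable def polN (S : SN R na) (t : σ → ℝ) (P : MvPolynomial σ R) : ℝ :=
  agg na P.support fun μ => S.N (MvPolynomial.coeff μ P) * wt t μ

open Classical in
/-- The Gauss norm of the coefficients below `κ` of a power series. -/
noncomputable def serN (S : SN R na) (t : σ → ℝ) (κ : σ →₀ ℕ) (f : MvPowerSeries σ R) : ℝ :=
  agg na (Iic κ) fun μ => S.N (MvPowerSeries.coeff μ f) * wt t μ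

/-- The length of a polynomial over the ground field at the place `v`. -/
noncomputable def pl {k : Type} [Field k] (v : AbsoluteValue k ℝ) (P : MvPolynomial σ k) : ℝ :=
  polN (absSN v) (fun _ => 1) P

theorem wt_add (t : σ → ℝ) (μ ν : σ →₀ ℕ) : wt t (μ + ν) = wt t μ * wt t ν :=
  Finsupp.prod_add_index' (fun _ => pow_zero _) fun _ _ _ => pow_add _ _ _

theorem wt_zero (t : σ → ℝ) : wt t 0 = 1 := Finsupp.prod_zero_index

theorem wt_one (μ : σ →₀ ℕ) : wt (fun _ => (1 : ℝ)) μ = 1 := by simp [wt, Finsupp.prod]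

theorem wt_single (t : σ → ℝ) (s : σ) (n : ℕ) : wt t (Finsupp.single s n) = t s ^ n :=
  Finsupp.prod_single_index (pow_zero _)

theorem wt_eq [Fintype σ] (t : σ → ℝ) (μ : σ →₀ ℕ) : wt t μ = ∏ s, t s ^ μ s :=
  Finsupp.prod_fintype _ _ fun _ => pow_zero _

theorem wt_nonneg {t : σ → ℝ} (ht : ∀ s, 0 ≤ t s) (μ : σ →₀ ℕ) : 0 ≤ wt t μ :=
  prod_nonneg fun s _ => pow_nonneg (ht s) _

theorem wt_pos {t : σ → ℝ} (ht : ∀ s, 0 < t s) (μ : σ →₀ ℕ) : 0 < wt t μ :=
  prod_pos fun s _ => pow_pos (ht s) _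

theorem wt_const (c : ℝ) (μ : σ →₀ ℕ) : wt (fun _ => c) μ = c ^ μ.degree := by
  simp [wt, Finsupp.prod, Finsupp.degree_apply, prod_pow_eq_pow_sum]

section agg

variable {α : Type} {s : Finset α} {f : α → ℝ}

theorem enrm_pos (h : na) : agg na s f = s.fold max 0 f := if_pos h

theorem enrm_neg (h : ¬na) : agg na s f = ∑ a ∈ s, f a := if_neg h

theorem agg_nonneg (hf : ∀ a ∈ s, 0 ≤ f a) : 0 ≤ agg na s f := by
  by_cases h : na
  · rw [enrm_pos h]
    exact (le_fold_max _).2 (Or.inl le_rfl)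
  · rw [enrm_neg h]
    exact sum_nonneg hf

theorem le_agg (hf : ∀ a ∈ s, 0 ≤ f a) {a : α} (ha : a ∈ s) : f a ≤ agg na s f := by
  by_cases h : na
  · rw [enrm_pos h]
    exact (le_fold_max _).2 (Or.inr ⟨a, ha, le_rfl⟩)
  · rw [enrm_neg h]
    exact single_le_sum hf ha

theorem agg_le {M : ℝ} (hM : 0 ≤ M) (h1 : na → ∀ a ∈ s, f a ≤ M)
    (h2 : ¬na → ∑ a ∈ s, f a ≤ M) : agg na s f ≤ M := by
  by_cases h : na
  · rw [enrm_pos h]
    exact (fold_max_le _).2 ⟨hM, h1 h⟩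
  · rw [enrm_neg h]
    exact h2 h

theorem agg_le_card {M : ℝ} (hM : 0 ≤ M) (h : ∀ a ∈ s, f a ≤ M) :
    agg na s f ≤ E na s.card * M := by
  refine agg_le (mul_nonneg (E_nonneg (Nat.cast_nonneg _)) hM) (fun h1 a ha => ?_) fun h1 => ?_
  · rw [E_pos_case h1, one_mul]
    exact h a ha
  · rw [E_neg_case h1, ← nsmul_eq_mul]
    exact sum_le_card_nsmul _ _ _ h

/-- The triangle inequality. -/
theorem SN.sum_le_agg (S : SN R na) {x : α → R} (h : ∀ a ∈ s, S.N (x a) ≤ f a) :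
    S.N (∑ a ∈ s, x a) ≤ agg na s f := by
  have h0 : ∀ a ∈ s, 0 ≤ f a := fun a ha => (S.nonneg _).trans (h a ha)
  by_cases h1 : na
  · have := S.sum_le_card s (agg_nonneg (na := na) h0) fun a ha => (h a ha).trans (le_agg h0 ha)
    rwa [E_pos_case h1, one_mul] at this
  · have := S.sum_le s (t := f) zero_le_one fun a ha => by
      rw [E_neg_case h1, mul_one]
      exact h a ha
    rwa [E_neg_case h1, mul_one, ← enrm_neg h1] at this

theorem enrm_empty : agg na (∅ : Finset α) f = 0 := by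
  by_cases h : na
  · rw [enrm_pos h, fold_empty]
  · rw [enrm_neg h, sum_empty]

theorem enrm_sum_le {s' : Finset α} {g : α → ℝ} (hg : ∀ a ∈ s', 0 ≤ g a)
    (h : ∀ a ∈ s, f a ≤ 0 ∨ a ∈ s' ∧ f a ≤ g a) : ∑ a ∈ s, f a ≤ ∑ a ∈ s', g a := by
  classical
  rw [← sum_filter_add_sum_filter_not s fun a => a ∈ s' ∧ f a ≤ g a]
  have h1 : ∑ a ∈ s with ¬(a ∈ s' ∧ f a ≤ g a), f a ≤ 0 :=
    sum_nonpos fun a ha => (h a (mem_filter.1 ha).1).resolve_right (mem_filter.1 ha).2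
  have h2 : ∑ a ∈ s with a ∈ s' ∧ f a ≤ g a, f a ≤ ∑ a ∈ s', g a :=
    (sum_le_sum fun a ha => (mem_filter.1 ha).2.2).trans
      (sum_le_sum_of_subset_of_nonneg (fun a ha => (mem_filter.1 ha).2.1) fun a ha _ => hg a ha)
  linarith

theorem enrm_mono {s' : Finset α} {g : α → ℝ} (hg : ∀ a ∈ s', 0 ≤ g a)
    (h : ∀ a ∈ s, f a ≤ 0 ∨ a ∈ s' ∧ f a ≤ g a) : agg na s f ≤ agg na s' g :=
  agg_le (agg_nonneg hg) (fun _ a ha => (h a ha).elim (fun h1 => h1.trans (agg_nonneg hg))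
    fun h1 => h1.2.trans (le_agg hg h1.1)) fun h1 => by
      rw [enrm_neg h1]
      exact enrm_sum_le hg h

theorem enrm_mul {g : α → ℝ} {b : ℝ} (hb : 0 ≤ b) (hg : ∀ a ∈ s, 0 ≤ g a)
    (h : ∀ a ∈ s, f a ≤ g a * b) : agg na s f ≤ agg na s g * b :=
  agg_le (mul_nonneg (agg_nonneg hg) hb)
    (fun _ a ha => (h a ha).trans (mul_le_mul_of_nonneg_right (le_agg hg ha) hb)) fun h1 => by
      rw [enrm_neg h1, sum_mul]
      exact sum_le_sum h

theorem enrm_single {M : ℝ} (hM : 0 ≤ M) (a₀ : α) (h : ∀ a ∈ s, f a ≤ 0 ∨ a = a₀ ∧ f a ≤ M) :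
    agg na s f ≤ M :=
  (enrm_mono (s' := {a₀}) (g := fun _ => M) (fun _ _ => hM) fun a ha =>
    (h a ha).imp_right fun h1 => ⟨mem_singleton.2 h1.1, h1.2⟩).trans
      (agg_le hM (fun _ _ _ => le_rfl) fun _ => by simp)

theorem enrm_add {A B : Finset α} {g h : α → ℝ} (hg : ∀ a, 0 ≤ g a) (hh : ∀ a, 0 ≤ h a)
    (hA : ∀ a ∈ s, g a = 0 ∨ a ∈ A) (hB : ∀ a ∈ s, h a = 0 ∨ a ∈ B)
    (h1 : ∀ a ∈ s, f a ≤ g a + h a) (h2 : na → ∀ a ∈ s, f a ≤ max (g a) (h a)) :
    agg na s f ≤ agg na A g + agg na B h ∧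
      (na → agg na s f ≤ max (agg na A g) (agg na B h)) := by
  have a0 : 0 ≤ agg na A g := agg_nonneg fun a _ => hg a
  have b0 : 0 ≤ agg na B h := agg_nonneg fun a _ => hh a
  have key : na → agg na s f ≤ max (agg na A g) (agg na B h) := fun hna =>
    agg_le (le_max_of_le_left a0) (fun _ a ha => (h2 hna a ha).trans (max_le_max
      ((hA a ha).elim (fun e => e.le.trans a0) (le_agg fun a _ => hg a))
      ((hB a ha).elim (fun e => e.le.trans b0) (le_agg fun a _ => hh a)))) fun h => absurd hna h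
  refine ⟨?_, key⟩
  by_cases hna : na
  · exact (key hna).trans (max_le (by linarith) (by linarith))
  · rw [enrm_neg hna, enrm_neg hna, enrm_neg hna]
    refine (sum_le_sum h1).trans ?_
    rw [sum_add_distrib]
    exact add_le_add
      (enrm_sum_le (fun a _ => hg a) fun a ha => (hA a ha).imp le_of_eq fun e => ⟨e, le_rfl⟩)
      (enrm_sum_le (fun a _ => hh a) fun a ha => (hB a ha).imp le_of_eq fun e => ⟨e, le_rfl⟩)

end agg

theorem enrm_conv [DecidableEq σ] (S : SN R na) {t : σ → ℝ} (ht : ∀ s, 0 ≤ t s)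
    {M A B : Finset (σ →₀ ℕ)} (c d : (σ →₀ ℕ) → R)
    (h : ∀ μ ∈ M, ∀ p ∈ antidiagonal μ, c p.1 = 0 ∨ d p.2 = 0 ∨ p.1 ∈ A ∧ p.2 ∈ B) :
    (agg na M fun μ => S.N (∑ p ∈ antidiagonal μ, c p.1 * d p.2) * wt t μ) ≤
      (agg na A fun μ => S.N (c μ) * wt t μ) * agg na B fun μ => S.N (d μ) * wt t μ := by
  obtain ⟨f, hf⟩ : ∃ f : (σ →₀ ℕ) → ℝ, f = fun μ => S.N (c μ) * wt t μ := ⟨_, rfl⟩
  obtain ⟨g, hg⟩ : ∃ g : (σ →₀ ℕ) → ℝ, g = fun μ => S.N (d μ) * wt t μ := ⟨_, rfl⟩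
  have f0 : ∀ μ, 0 ≤ f μ := fun μ => hf ▸ mul_nonneg (S.nonneg _) (wt_nonneg ht μ)
  have g0 : ∀ μ, 0 ≤ g μ := fun μ => hg ▸ mul_nonneg (S.nonneg _) (wt_nonneg ht μ)
  have a0 : 0 ≤ agg na A f := agg_nonneg fun a _ => f0 a
  have b0 : 0 ≤ agg na B g := agg_nonneg fun a _ => g0 a
  have h1 : ∀ μ, S.N (∑ p ∈ antidiagonal μ, c p.1 * d p.2) * wt t μ ≤
      agg na (antidiagonal μ) fun p => f p.1 * g p.2 := fun μ => by
    refine (mul_le_mul_of_nonneg_right (S.sum_le_agg fun p _ => S.mul _ _) (wt_nonneg ht μ)).trans ?_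
    rcases (wt_nonneg ht μ).eq_or_lt with h0 | h0
    · rw [← h0, mul_zero]
      exact agg_nonneg fun p _ => mul_nonneg (f0 _) (g0 _)
    · rw [← le_div_iff₀ h0, div_eq_mul_inv]
      refine enrm_mul (inv_pos.2 h0).le (fun p _ => mul_nonneg (f0 _) (g0 _)) fun p hp => ?_
      rw [← div_eq_mul_inv, le_div_iff₀ h0, ← mem_antidiagonal.1 hp, wt_add, hf, hg]
      exact le_of_eq (by ring)
  have h2 : ∀ μ ∈ M, ∀ p ∈ antidiagonal μ, f p.1 * g p.2 ≤ 0 ∨ p.1 ∈ A ∧ p.2 ∈ B := by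
    intro μ hμ p hp
    rcases h μ hμ p hp with e | e | e
    · exact Or.inl (by simp [hf, e, S.zero])
    · exact Or.inl (by simp [hg, e, S.zero])
    · exact Or.inr e
  rw [← hf, ← hg]
  refine agg_le (mul_nonneg a0 b0) (fun hna μ hμ => (h1 μ).trans (agg_le (mul_nonneg a0 b0)
    (fun _ p hp => ?_) fun h => absurd hna h)) fun hna => ?_
  · rcases h2 μ hμ p hp with e | e
    · exact e.trans (mul_nonneg a0 b0)
    · exact mul_le_mul (le_agg (fun a _ => f0 a) e.1) (le_agg (fun a _ => g0 a) e.2) (g0 _) a0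
  · refine (sum_le_sum fun μ _ => h1 μ).trans ?_
    simp only [enrm_neg hna]
    rw [sum_mul_sum, ← sum_product', ← sum_biUnion]
    · refine enrm_sum_le (fun p _ => mul_nonneg (f0 _) (g0 _)) fun p hp => ?_
      obtain ⟨μ, hμ, hp⟩ := mem_biUnion.1 hp
      exact (h2 μ hμ p hp).imp_right fun e => ⟨mem_product.2 e, le_rfl⟩
    · intro μ _ ν _ e
      exact disjoint_left.2 fun p h1 h2 =>
        e ((mem_antidiagonal.1 h1).symm.trans (mem_antidiagonal.1 h2))

theorem enrm_monomial (S : SN R na) {t : σ → ℝ} (ht : ∀ s, 0 ≤ t s) (μ : σ →₀ ℕ) (c : R) :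
    polN S t (MvPolynomial.monomial μ c) ≤ S.N c * wt t μ := by
  classical
  refine enrm_single (mul_nonneg (S.nonneg _) (wt_nonneg ht μ)) μ fun ν hν => Or.inr ?_
  obtain rfl := mem_singleton.1 (MvPolynomial.support_monomial_subset hν)
  rw [MvPolynomial.coeff_monomial, if_pos rfl]
  exact ⟨rfl, le_rfl⟩

theorem enrm_serC (S : SN R na) {t : σ → ℝ} (κ : σ →₀ ℕ) (c : R) :
    serN S t κ (MvPowerSeries.C c) ≤ S.N c := by
  classical
  refine enrm_single (S.nonneg _) 0 fun ν _ => ?_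
  rw [MvPowerSeries.coeff_C]
  split_ifs with h
  · exact Or.inr ⟨h, by rw [h, wt_zero, mul_one]⟩
  · exact Or.inl (by rw [S.zero, zero_mul])

/-- The Gauss norm as a seminorm. -/
theorem exists_polSN (S : SN R na) {t : σ → ℝ} (ht : ∀ s, 0 ≤ t s) :
    ∃ S' : SN (MvPolynomial σ R) na, S'.N = polN S t := by
  classical
  have h0 : ∀ (P : MvPolynomial σ R) μ, 0 ≤ S.N (P.coeff μ) * wt t μ := fun P μ =>
    mul_nonneg (S.nonneg _) (wt_nonneg ht μ)
  have h1 : ∀ (P : MvPolynomial σ R) μ, S.N (P.coeff μ) * wt t μ = 0 ∨ μ ∈ P.support := by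
    intro P μ
    by_cases h : P.coeff μ = 0
    · exact Or.inl (by rw [h, S.zero, zero_mul])
    · exact Or.inr (MvPolynomial.mem_support_iff.2 h)
  have h2 : ∀ P Q : MvPolynomial σ R, polN S t (P + Q) ≤ polN S t P + polN S t Q ∧
      (na → polN S t (P + Q) ≤ max (polN S t P) (polN S t Q)) := fun P Q =>
    enrm_add (h0 P) (h0 Q) (fun μ _ => h1 P μ) (fun μ _ => h1 Q μ)
      (fun μ _ => by
        rw [MvPolynomial.coeff_add, ← add_mul]
        exact mul_le_mul_of_nonneg_right (S.add _ _) (wt_nonneg ht μ))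
      fun hna μ _ => by
        rw [MvPolynomial.coeff_add, ← max_mul_of_nonneg _ _ (wt_nonneg ht μ)]
        exact mul_le_mul_of_nonneg_right (S.add_na hna _ _) (wt_nonneg ht μ)
  refine ⟨⟨polN S t, fun P => agg_nonneg fun μ _ => h0 P μ, ?_, ?_, fun P => ?_, fun P Q => ?_,
    fun P Q => (h2 P Q).1, fun hna P Q => (h2 P Q).2 hna⟩, rfl⟩
  · rw [polN, MvPolynomial.support_zero, enrm_empty]
  · refine (enrm_monomial S ht 0 1).trans ?_
    rw [wt_zero, mul_one]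
    exact S.one
  · simp only [polN, MvPolynomial.support_neg, MvPolynomial.coeff_neg, S.neg]
  · simp only [polN, MvPolynomial.coeff_mul]
    refine enrm_conv S ht (fun μ => P.coeff μ) (fun μ => Q.coeff μ) fun μ _ p _ => ?_
    simp only [MvPolynomial.mem_support_iff]
    tauto

/-- The truncated Gauss norm as a seminorm. -/
theorem exists_serSN (S : SN R na) {t : σ → ℝ} (ht : ∀ s, 0 ≤ t s) (κ : σ →₀ ℕ) :
    ∃ S' : SN (MvPowerSeries σ R) na, S'.N = serN S t κ := by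
  classical
  have h0 : ∀ (P : MvPowerSeries σ R) μ, 0 ≤ S.N (P.coeff μ) * wt t μ := fun P μ =>
    mul_nonneg (S.nonneg _) (wt_nonneg ht μ)
  have h2 : ∀ P Q : MvPowerSeries σ R, serN S t κ (P + Q) ≤ serN S t κ P + serN S t κ Q ∧
      (na → serN S t κ (P + Q) ≤ max (serN S t κ P) (serN S t κ Q)) := fun P Q =>
    enrm_add (h0 P) (h0 Q) (fun μ h => Or.inr h) (fun μ h => Or.inr h)
      (fun μ _ => by
        rw [map_add, ← add_mul]
        exact mul_le_mul_of_nonneg_right (S.add _ _) (wt_nonneg ht μ))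
      fun hna μ _ => by
        rw [map_add, ← max_mul_of_nonneg _ _ (wt_nonneg ht μ)]
        exact mul_le_mul_of_nonneg_right (S.add_na hna _ _) (wt_nonneg ht μ)
  refine ⟨⟨serN S t κ, fun P => agg_nonneg fun μ _ => h0 P μ, ?_, ?_, fun P => ?_, fun P Q => ?_,
    fun P Q => (h2 P Q).1, fun hna P Q => (h2 P Q).2 hna⟩, rfl⟩
  · refine le_antisymm ?_ (agg_nonneg fun μ _ => h0 0 μ)
    have := enrm_serC S (t := t) κ 0
    rwa [map_zero, S.zero] at this
  · exact (enrm_serC S κ 1).trans S.one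
  · simp only [serN, map_neg, S.neg]
  · simp only [serN, MvPowerSeries.coeff_mul]
    refine enrm_conv S ht (fun μ => P.coeff μ) (fun μ => Q.coeff μ) fun μ hμ p hp => ?_
    rw [mem_Iic, ← mem_antidiagonal.1 hp] at hμ
    exact Or.inr (Or.inr ⟨mem_Iic.2 (le_self_add.trans hμ), mem_Iic.2 (le_add_self.trans hμ)⟩)

section pol

open MvPolynomial

variable (S : SN R na) {t : σ → ℝ}

theorem polN_nonneg (ht : ∀ s, 0 ≤ t s) (P : MvPolynomial σ R) : 0 ≤ polN S t P :=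
  agg_nonneg fun μ _ => mul_nonneg (S.nonneg _) (wt_nonneg ht μ)

theorem coeff_le_polN (ht : ∀ s, 0 ≤ t s) (P : MvPolynomial σ R) (μ : σ →₀ ℕ) :
    S.N (coeff μ P) * wt t μ ≤ polN S t P := by
  by_cases h : coeff μ P = 0
  · rw [h, S.zero, zero_mul]
    exact polN_nonneg S ht P
  · exact le_agg (f := fun μ => S.N (coeff μ P) * wt t μ)
      (fun μ _ => mul_nonneg (S.nonneg _) (wt_nonneg ht μ)) (mem_support_iff.2 h)

theorem polN_monomial (ht : ∀ s, 0 ≤ t s) (μ : σ →₀ ℕ) (c : R) :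
    polN S t (monomial μ c) ≤ S.N c * wt t μ := enrm_monomial S ht μ c

theorem polN_C (ht : ∀ s, 0 ≤ t s) (c : R) : polN S t (C c) ≤ S.N c := by
  have := polN_monomial S ht 0 c
  rwa [wt_zero, mul_one] at this

theorem polN_X (ht : ∀ s, 0 ≤ t s) (s : σ) : polN S t (X s) ≤ t s := by
  refine (polN_monomial S ht (Finsupp.single s 1) 1).trans ?_
  rw [wt_single, pow_one]
  exact mul_le_of_le_one_left (ht s) S.one

theorem polN_le_card (ht : ∀ s, 0 ≤ t s) {P : MvPolynomial σ R} {M : ℝ} (hM : 0 ≤ M)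
    (h : ∀ μ ∈ P.support, S.N (coeff μ P) * wt t μ ≤ M) :
    polN S t P ≤ E na P.support.card * M := agg_le_card hM h

/-- Change of the radii. -/
theorem polN_le_mul (ht : ∀ s, 0 ≤ t s) {P : MvPolynomial σ R} {b : ℝ} (hb : 0 ≤ b)
    (h : ∀ μ ∈ P.support, wt t μ ≤ b) : polN S t P ≤ polN S (fun _ => 1) P * b :=
  enrm_mul hb (fun μ _ => mul_nonneg (S.nonneg _) (wt_nonneg (fun _ => zero_le_one) μ))
    fun μ hμ => by
      rw [wt_one, mul_one]
      exact mul_le_mul_of_nonneg_left (h μ hμ) (S.nonneg _)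

/-- Values. -/
theorem eval₂_le_polN (S' : SN R' na) (φ : R →+* R') (hφ : ∀ c, S'.N (φ c) ≤ S.N c) {y : σ → R'}
    (hy : ∀ s, S'.N (y s) ≤ t s) (P : MvPolynomial σ R) : S'.N (eval₂ φ y P) ≤ polN S t P := by
  rw [eval₂_eq]
  exact S'.sum_le_agg fun μ _ =>
    S'.mul_le (hφ _) (S'.prod_le _ fun s _ => S'.pow_le (hy s) _)

theorem enrm_mul_sub (S : SN R na) {x x' y y' : R} {a b γ m n : ℝ} (hx : S.N x ≤ a)
    (hy : S.N y' ≤ b) (h1 : S.N (x - x') ≤ E na m * (γ * a)) (h2 : S.N (y - y') ≤ E na n * (γ * b)) :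
    S.N (x * y - x' * y') ≤ E na (m + n) * (γ * (a * b)) := by
  rw [show x * y - x' * y' = (x - x') * y' + x * (y - y') by ring]
  exact S.add_le ((S.mul_le h1 hy).trans_eq (by ring)) ((S.mul_le hx h2).trans_eq (by ring))

theorem enrm_pow_sub (S : SN R na) {x x' : R} {a γ : ℝ} (hγ : 0 ≤ γ) (hx : S.N x ≤ a)
    (hx' : S.N x' ≤ a) (h : S.N (x - x') ≤ γ * a) (n : ℕ) :
    S.N (x ^ n - x' ^ n) ≤ E na n * (γ * a ^ n) := by
  induction n with
  | zero => simpa [S.zero] using mul_nonneg (E_nonneg le_rfl) hγ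
  | succ n ih =>
    rw [pow_succ, pow_succ, pow_succ, Nat.cast_succ]
    exact enrm_mul_sub S (S.pow_le hx n) hx' ih (by rwa [E_one, one_mul])

theorem enrm_prod_sub (S : SN R na) {I : Type} (s : Finset I) {x x' : I → R} {a n : I → ℝ} {γ : ℝ}
    (hγ : 0 ≤ γ) (hx : ∀ i, S.N (x i) ≤ a i) (hx' : ∀ i, S.N (x' i) ≤ a i)
    (h : ∀ i, S.N (x i - x' i) ≤ E na (n i) * (γ * a i)) :
    S.N (∏ i ∈ s, x i - ∏ i ∈ s, x' i) ≤ E na (∑ i ∈ s, n i) * (γ * ∏ i ∈ s, a i) := by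
  classical
  induction s using Finset.induction_on with
  | empty => simpa [S.zero] using mul_nonneg (E_nonneg le_rfl) hγ
  | insert i s hi ih =>
    rw [prod_insert hi, prod_insert hi, prod_insert hi, sum_insert hi]
    exact enrm_mul_sub S (hx i) (S.prod_le s fun i _ => hx' i) (h i) ih

/-- Differences of values (telescope each monomial). -/
theorem eval₂_sub_le (S' : SN R' na) (φ : R →+* R') (hφ : ∀ c, S'.N (φ c) ≤ S.N c)
    {y y' : σ → R'} {γ : ℝ} (hγ : 0 ≤ γ) (hy : ∀ s, S'.N (y s) ≤ t s)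
    (hy' : ∀ s, S'.N (y' s) ≤ t s) (hd : ∀ s, S'.N (y s - y' s) ≤ γ * t s)
    (P : MvPolynomial σ R) :
    S'.N (eval₂ φ y P - eval₂ φ y' P) ≤ E na P.totalDegree * γ * polN S t P := by
  have ht : ∀ s, 0 ≤ t s := fun s => (S'.nonneg _).trans (hy s)
  rw [eval₂_eq, eval₂_eq, ← sum_sub_distrib, mul_comm]
  refine (S'.sum_le_agg (f := fun μ => S.N (coeff μ P) * wt t μ * (E na P.totalDegree * γ))
    fun μ hμ => ?_).trans (enrm_mul (mul_nonneg (E_nonneg (Nat.cast_nonneg _)) hγ)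
      (fun μ _ => mul_nonneg (S.nonneg _) (wt_nonneg ht μ)) fun _ _ => le_rfl)
  rw [← mul_sub, mul_assoc]
  refine S'.mul_le (hφ _) ((enrm_prod_sub S' _ hγ (fun s => S'.pow_le (hy s) _)
    (fun s => S'.pow_le (hy' s) _) fun s => enrm_pow_sub S' hγ (hy s) (hy' s) (hd s) _).trans ?_)
  have h1 : ∑ s ∈ μ.support, (μ s : ℝ) ≤ P.totalDegree := by exact_mod_cast le_totalDegree hμ
  exact (mul_le_mul_of_nonneg_right (E_mono h1) (mul_nonneg hγ (wt_nonneg ht μ))).trans_eq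
    (by rw [wt, Finsupp.prod]; ring)

end pol

section ser

open MvPowerSeries

variable (S : SN R na) {t : σ → ℝ} {κ : σ →₀ ℕ}

theorem coeff_le_serN (ht : ∀ s, 0 ≤ t s) (f : MvPowerSeries σ R) {μ : σ →₀ ℕ} (hμ : μ ≤ κ) :
    S.N (coeff μ f) * wt t μ ≤ serN S t κ f := by
  classical
  exact le_agg (f := fun μ => S.N (coeff μ f) * wt t μ)
    (fun μ _ => mul_nonneg (S.nonneg _) (wt_nonneg ht μ)) (mem_Iic.2 hμ)

theorem serN_C (ht : ∀ s, 0 ≤ t s) (c : R) : serN S t κ (C c) ≤ S.N c := enrm_serC S κ c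

theorem enrm_geo {τ : Type} [Fintype τ] (T : Finset (τ →₀ ℕ)) (h0 : 0 ∉ T) :
    ∑ α ∈ T, (2 * Fintype.card τ : ℝ)⁻¹ ^ α.degree ≤ 1 := by
  classical
  obtain ⟨x, hx⟩ : ∃ x : ℝ, x = (2 * Fintype.card τ : ℝ)⁻¹ := ⟨_, rfl⟩
  have x0 : 0 ≤ x := by rw [hx]; positivity
  have x1 : Fintype.card τ * x ≤ 1 / 2 ∧ x ≤ 1 / 2 := by
    rcases Nat.eq_zero_or_pos (Fintype.card τ) with h | h
    · simp [hx, h]
    · have h1 : (1 : ℝ) ≤ Fintype.card τ := by exact_mod_cast h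
      have h2 : Fintype.card τ * x = 1 / 2 := by rw [hx]; field_simp
      exact ⟨h2.le, by nlinarith⟩
  obtain ⟨N, hN⟩ : ∃ N : ℕ, N = T.sup (fun α => α.degree) + 1 := ⟨_, rfl⟩
  have h1 : ∑ α ∈ insert 0 T, x ^ α.degree ≤ (∑ i ∈ range N, x ^ i) ^ Fintype.card τ := by
    rw [← card_univ, ← prod_const, prod_univ_sum]
    refine le_trans (le_of_eq ?_) (sum_le_sum_of_subset_of_nonneg
      (s := (insert 0 T).image fun α : τ →₀ ℕ => (α : τ → ℕ)) (fun φ hφ => ?_)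
      fun φ _ _ => by positivity)
    · rw [sum_image DFunLike.coe_injective.injOn]
      exact sum_congr rfl fun α _ => by rw [prod_pow_eq_pow_sum, Finsupp.degree_eq_sum]
    · obtain ⟨α, hα, rfl⟩ := mem_image.1 hφ
      refine Fintype.mem_piFinset.2 fun a => mem_range.2 ?_
      rcases mem_insert.1 hα with rfl | hα
      · simp [hN]
      · have := le_sup (f := fun α : τ →₀ ℕ => α.degree) hα
        have := Finsupp.le_degree a α
        omega
  have h2 : (∑ i ∈ range N, x ^ i) * (1 - x) ≤ 1 := by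
    rw [geom_sum_mul_neg]
    linarith [pow_nonneg x0 N]
  have h3 : 1 / 2 ≤ (1 - x) ^ Fintype.card τ := by
    have := one_add_mul_le_pow (show -2 ≤ -x by linarith) (Fintype.card τ)
    rw [← sub_eq_add_neg] at this
    linarith
  have h4 : 0 ≤ ∑ i ∈ range N, x ^ i := by positivity
  have h5 := pow_le_one₀ (n := Fintype.card τ) (mul_nonneg h4 (by linarith)) h2
  rw [mul_pow] at h5
  have h6 := mul_le_mul_of_nonneg_left h3 (pow_nonneg h4 (Fintype.card τ))
  rw [sum_insert h0, map_zero, pow_zero] at h1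
  rw [← hx]
  linarith

/-- Geometric bound.  In the archimedean case the sum over the exponents supported on the `n`
variables is at most `γ * ((1 - x)⁻¹ ^ n - 1) ≤ γ` for `x = 1 / (2 n)`. -/
theorem serN_rename_sub {τ : Type} [Fintype τ] (e : τ ↪ σ) (ht : ∀ s, 0 ≤ t s)
    (f : MvPowerSeries τ R) {q γ : ℝ} (hq : 0 ≤ q) (hγ0 : 0 ≤ γ) (hγ1 : γ ≤ 1)
    (hf : ∀ α, α ≠ 0 → S.N (coeff α f) * E na (2 * Fintype.card τ) ^ α.degree ≤ q ^ α.degree)
    (he : ∀ a, t (e a) * q ≤ γ) :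
    serN S t κ (rename e f - C (constantCoeff f)) ≤ γ := by
  classical
  obtain ⟨g, hg⟩ : ∃ g : (σ →₀ ℕ) → ℝ,
    g = fun μ => S.N (coeff μ (rename e f - C (constantCoeff f))) * wt t μ := ⟨_, rfl⟩
  have g1 : ∀ μ, μ ∉ Set.range (Finsupp.embDomain e) → g μ = 0 := fun μ hμ => by
    have h1 : μ ≠ 0 := fun h => hμ ⟨0, by rw [h, Finsupp.embDomain_zero]⟩
    have h2 : μ ∉ Set.range (Finsupp.mapDomain e) := fun ⟨α, h⟩ =>
      hμ ⟨α, by rwa [Finsupp.embDomain_eq_mapDomain]⟩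
    simp only [hg, map_sub, coeff_rename_eq_zero _ _ h2, coeff_C, if_neg h1, sub_zero, S.zero,
      zero_mul]
  have g2 : g (Finsupp.embDomain e 0) = 0 := by
    simp only [hg, map_sub, coeff_embDomain_rename]
    simp [S.zero]
  have g3 : ∀ α, α ≠ 0 →
      g (Finsupp.embDomain e α) * E na (2 * Fintype.card τ) ^ α.degree ≤ γ := fun α hα => by
    have h1 : Finsupp.embDomain e α ≠ 0 := fun h => hα (Finsupp.embDomain_eq_zero.1 h)
    have h2 : wt t (Finsupp.embDomain e α) = wt (fun a => t (e a)) α := Finsupp.prod_embDomain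
    simp only [hg, map_sub, coeff_embDomain_rename, coeff_C, if_neg h1, sub_zero, h2]
    rw [mul_right_comm]
    refine (mul_le_mul_of_nonneg_right (hf α hα) (wt_nonneg (fun a => ht _) α)).trans ?_
    rw [← wt_const, wt_eq, wt_eq, ← prod_mul_distrib]
    refine (prod_le_prod (g := fun a => γ ^ α a) (fun a _ => ?_) fun a _ => ?_).trans ?_
    · exact mul_nonneg (pow_nonneg hq _) (pow_nonneg (ht _) _)
    · rw [← mul_pow, mul_comm]
      exact pow_le_pow_left₀ (mul_nonneg (ht _) hq) (he a) _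
    · rw [prod_pow_eq_pow_sum, ← Finsupp.degree_eq_sum]
      exact pow_le_of_le_one hγ0 hγ1 fun h => hα ((Finsupp.degree_eq_zero_iff α).1 h)
  rw [serN, ← hg]
  refine agg_le hγ0 (fun hna μ _ => ?_) fun hna => ?_
  · by_cases h : μ ∈ Set.range (Finsupp.embDomain e)
    · obtain ⟨α, rfl⟩ := h
      by_cases h0 : α = 0
      · rw [h0, g2]
        exact hγ0
      · simpa [E_pos_case hna] using g3 α h0
    · rw [g1 μ h]
      exact hγ0
  · rw [← sum_preimage (Finsupp.embDomain e) _ (Finsupp.embDomain_injective e).injOn g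
      fun μ _ h => g1 μ h, ← sum_erase (a := 0) (f := fun α => g (Finsupp.embDomain e α)) _ g2]
    refine (sum_le_sum (g := fun α => γ * (2 * Fintype.card τ : ℝ)⁻¹ ^ α.degree)
      fun α hα => ?_).trans ?_
    · have h0 := ne_of_mem_erase hα
      obtain ⟨a, -⟩ := Finsupp.ne_iff.1 h0
      have h1 : (0 : ℝ) < Fintype.card τ := by exact_mod_cast Fintype.card_pos_iff.2 ⟨a⟩
      have h2 := g3 α h0
      rw [E_neg_case hna] at h2
      rw [inv_pow, ← div_eq_mul_inv, le_div_iff₀ (by positivity)]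
      exact h2
    · rw [← mul_sum]
      exact mul_le_of_le_one_right hγ0 (enrm_geo _ (notMem_erase _ _))

end ser

section field

open MvPolynomial

variable {k : Type} [Field k] (v : AbsoluteValue k ℝ) [Algebra k R]

theorem coeff_le_pl (P : MvPolynomial σ k) (μ : σ →₀ ℕ) : v (coeff μ P) ≤ pl v P := by
  have h := coeff_le_polN (absSN v) (t := fun _ => 1) (fun _ => zero_le_one) P μ
  rwa [wt_one, mul_one] at h

theorem pl_nonneg (P : MvPolynomial σ k) : 0 ≤ pl v P := polN_nonneg _ (fun _ => zero_le_one) P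

variable {v}

/-- Values of forms. -/
theorem SN.Ov.aeval_le {S : SN R (IsNonarchimedean v)} (hS : S.Ov v) {P : MvPolynomial σ k} {n : ℕ}
    (hP : P.IsHomogeneous n) {y : σ → R} {Y : ℝ} (hY : 0 ≤ Y) (hy : ∀ s, S.N (y s) ≤ Y) :
    S.N (aeval y P) ≤ pl v P * Y ^ n := by
  refine (eval₂_le_polN (absSN v) (t := fun _ => Y) S _ hS hy P).trans
    (polN_le_mul _ (fun _ => hY) (pow_nonneg hY n) fun μ hμ => le_of_eq ?_)
  rw [wt_const, hP.degree_eq_sum_deg_support hμ]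
  rfl

/-- Values of polynomials. -/
theorem SN.Ov.aeval_le' {S : SN R (IsNonarchimedean v)} (hS : S.Ov v) {P : MvPolynomial σ k}
    {n : ℕ} (hP : P.totalDegree ≤ n) {y : σ → R} {Y : ℝ} (hY : 1 ≤ Y) (hy : ∀ s, S.N (y s) ≤ Y) :
    S.N (aeval y P) ≤ pl v P * Y ^ n := by
  have h0 : 0 ≤ Y := zero_le_one.trans hY
  refine (eval₂_le_polN (absSN v) (t := fun _ => Y) S _ hS hy P).trans
    (polN_le_mul _ (fun _ => h0) (pow_nonneg h0 n) fun μ hμ => ?_)
  rw [wt_const]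
  exact pow_le_pow_right₀ hY ((le_totalDegree hμ).trans hP)

theorem SN.Ov.pol {S : SN R (IsNonarchimedean v)} (hS : S.Ov v) {t : σ → ℝ} (ht : ∀ s, 0 ≤ t s)
    {S' : SN (MvPolynomial σ R) (IsNonarchimedean v)} (h : S'.N = polN S t) : S'.Ov v := fun c => by
  rw [h, MvPolynomial.algebraMap_apply]
  exact (polN_C S ht _).trans (hS c)

theorem SN.Ov.ser {S : SN R (IsNonarchimedean v)} (hS : S.Ov v) {t : σ → ℝ} (ht : ∀ s, 0 ≤ t s)
    {κ : σ →₀ ℕ} {S' : SN (MvPowerSeries σ R) (IsNonarchimedean v)} (h : S'.N = serN S t κ) :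
    S'.Ov v := fun c => by
  rw [h, MvPowerSeries.algebraMap_apply]
  exact (serN_C S ht _).trans (hS c)

end field

end Pool.Agent.Lib.MP_651af7_nt.Av
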