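import Pool.Agent.Lib.MP_651af7_nt.Av.SeqS

/-! No family approaches a hypersurface quickly. -/

namespace Pool.Agent.Lib.MP_651af7_nt.Av.AV

open MvPolynomial Filter Height

variable {α : Type} {U : Ultrafilter α} {k ι : Type} [Field k] [NumberField k] [Fintype ι]

theorem seqD_le_exp {v : AbsoluteValue k ℝ} (hv : Adm v) (x : k) :
    v x ≤ Real.exp (logHeight₁ x) := by
  by_cases hx : x = 0
  · simp [hx]
  refine (Real.log_le_iff_le_exp (v.pos hx)).1 ((le_max_right 0 _).trans ?_)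
  have h1 : ∀ z ∈ AdmissibleAbsValues.archAbsVal.map fun w : AbsoluteValue k ℝ =>
      Real.posLog (w x), 0 ≤ z := fun z hz => by
    obtain ⟨w, -, rfl⟩ := Multiset.mem_map.1 hz
    exact Real.posLog_nonneg
  rw [logHeight₁_eq]
  rcases hv with hv | hv
  · exact le_add_of_le_of_nonneg (Multiset.single_le_sum h1 _ (Multiset.mem_map_of_mem _ hv))
      (finsum_nonneg fun _ => Real.posLog_nonneg)
  · refine le_add_of_nonneg_of_le (Multiset.sum_nonneg h1) (single_le_finsum
      (f := fun w : AdmissibleAbsValues.nonarchAbsVal (K := k) => Real.posLog (w.val x)) ⟨v, hv⟩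
      ((AdmissibleAbsValues.hasFiniteMulSupport hx).subset fun w hw h => hw ?_)
      fun _ => Real.posLog_nonneg)
    simp only [h, Real.posLog_one]

omit [NumberField k] in
theorem seqD_ph_le (A : AV k ι) (v : AbsoluteValue k ℝ) : ∃ C : ℝ, 0 < C ∧
    ∀ (y a : ι → k) (Y T : ℝ), (∀ c, v (y c) ≤ Y) → (∀ c, v (a c) ≤ T) →
      ∀ c b, v (A.ph c b y a) ≤ C * (Y ^ 2 * T ^ 2) := by
  let s : ι × ι → ℝ := fun p => ∑ m ∈ (A.Φ p.1 p.2).support, v (coeff m (A.Φ p.1 p.2))
  have hs : ∀ p, 0 ≤ s p := fun p => Finset.sum_nonneg fun _ _ => v.nonneg _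
  have hs' := Finset.sum_nonneg fun p (_ : p ∈ Finset.univ) => hs p
  refine ⟨∑ p, s p + 1, by linarith, fun y a Y T hy ha c b => ?_⟩
  have h1 := Finset.single_le_sum (fun p _ => hs p) (Finset.mem_univ (c, b))
  refine le_trans ?_ (mul_le_mul_of_nonneg_right (h1.trans (le_add_of_nonneg_right zero_le_one))
    (by positivity))
  rw [ph, aeval_def, eval₂_eq, Finset.sum_mul]
  refine (v.sum_le _ _).trans (Finset.sum_le_sum fun m hm => ?_)
  rw [map_mul, map_prod]
  refine mul_le_mul_of_nonneg_left ?_ (v.nonneg _)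
  have h := A.bih c b (mem_support_iff.mp hm)
  rw [Finsupp.weight_apply, Finsupp.sum] at h
  have h2 : Y ^ 2 * T ^ 2 = ∏ i ∈ m.support, Y ^ (m i • bw ι ι i).1 * T ^ (m i • bw ι ι i).2 := by
    simp only [Finset.prod_mul_distrib, Finset.prod_pow_eq_pow_sum, ← Prod.fst_sum,
      ← Prod.snd_sum, h]
  rw [h2]
  refine Finset.prod_le_prod (fun _ _ => v.nonneg _) ?_
  rintro (i | i) -
  · simpa [bw] using pow_le_pow_left₀ (v.nonneg _) (hy i) _
  · simpa [bw] using pow_le_pow_left₀ (v.nonneg _) (ha i) _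

theorem seq_prox (A : AV k ι) {R : MvPolynomial ι k} {e : ℕ} (hR : R.IsHomogeneous e)
    {v : AbsoluteValue k ℝ} (hv : Adm v) (x : α → A.Pt k)
    (hx : Tendsto (fun n => ht (x n)) U atTop) (h0 : ∀ᶠ n in U, eval (x n).co R ≠ 0) {η : ℝ}
    (hη : 0 < η) (hbad : ∀ᶠ n in U, BadR v e η R (x n).co) : False := by
  classical
  rcases Nat.eq_zero_or_pos e with rfl | he
  · obtain ⟨c, rfl⟩ : ∃ c, R = C c :=
      ⟨_, totalDegree_eq_zero_iff_eq_C.1 (Nat.le_zero.1 hR.totalDegree_le)⟩
    obtain ⟨n, h1, h2, h3⟩ := (h0.and (hbad.and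
      ((hx.const_mul_atTop hη).eventually_gt_atTop (-Real.log (v c))))).exists
    rw [eval_C] at h1
    rw [BadR, eval_C, pow_zero, one_mul, ← Real.log_le_iff_le_exp (v.pos h1)] at h2
    have h4 : η * logHeight (x n).co = η * ht (x n) := rfl
    linarith
  obtain ⟨B, h, y, a, hH, X, Y, aK, a', H⟩ := A.exists_coset x hx
  obtain ⟨b, hb⟩ := H.exists_notMem hR fun h1 =>
    (h0.and ((aeval_germ_co H.gX hR).1 h1)).exists.elim fun n hn => hn.1 hn.2
  obtain ⟨C₀, hC₀, hC⟩ := seqD_ph_le A v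
  refine H.finish (e := 2 * e) (by omega) (fun i => if i = 0 then {A.shift aK.co R b} else
    Finset.univ.image fun c => (MvPolynomial.X c ^ (2 * e) : MvPolynomial ι (Sm k hH)))
    (fun i f hf => ?_) (fun i F _ _ _ _ w hw0 hw hf => ?_) (md := some v)
    ⟨H.dim, fun _ e => Option.some.inj e ▸ hv⟩ (η := η / 4) (by positivity) fun γ un _ hun => ?_
  · split_ifs at hf
    · rw [Finset.mem_singleton.1 hf]
      exact shift_hom _ hR b
    · obtain ⟨c, -, rfl⟩ := Finset.mem_image.1 hf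
      exact isHomogeneous_X_pow c _
  · split_ifs at hf with hi
    · subst hi
      simpa using td_succ_le (shift_hom _ hR b) hb hw0 hw (hf _ (Finset.mem_singleton_self _))
    · exact absurd (eq_zero_of_pow hf) hw0
  have h1 := H.eval_repr (γ 0) (fun _ => R) (fun _ => b)
    (fun f hf => Finset.mem_singleton.1 hf) (un := fun n => un n 0) (by simpa using hun 0)
  set g : k := (γ 0 (A.shift aK.co R b) : k) with hg
  have hε : 0 < η / (16 * e) := by positivity
  have h2 : ∀ᶠ n in U, ∀ c, logHeight₁ (a' n c) ≤ η / (16 * e) * ht (y n) :=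
    eventually_all.2 fun c => H.small c _ hε
  have h3 := Lo.const hH (Real.log (max (v g) 1 * C₀ ^ e)) (η / 8) (by positivity)
  filter_upwards [h1, h2, h3, H.val_mem, H.le, hbad] with n h1 h2 h3 ⟨p, _, hp⟩ h4 h5
  change BadR v (2 * e) (η / 4) (un n 0) (y n).co
  rw [BadR] at h5 ⊢
  change _ ≤ _ * Real.exp (-(η * ht (x n))) at h5
  change _ ≤ _ * Real.exp (-(η / 4 * ht (y n)))
  set Ys := ⨆ c, v ((y n).co c) with hYs
  have hY0 : 0 ≤ Ys := Real.iSup_nonneg fun _ => v.nonneg _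
  have h6 : v (p b) * ⨆ c, v ((x n).co c) ≤
      C₀ * (Ys ^ 2 * Real.exp (η / (16 * e) * ht (y n)) ^ 2) := by
    rw [← iSup_mul_left]
    refine Real.iSup_le (fun c => ?_) (by positivity)
    rw [← hp]
    exact hC _ _ _ _ (fun c => le_ciSup (f := fun c => v ((y n).co c))
      (Set.finite_range _).bddAbove c)
      (fun c => (seqD_le_exp hv _).trans (Real.exp_le_exp.2 (h2 c))) c b
  have h7 : max (v g) 1 * C₀ ^ e ≤ Real.exp (η / 8 * ht (y n)) :=
    (Real.log_le_iff_le_exp (by positivity)).1 h3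
  have h8 : (Real.exp (η / (16 * e) * ht (y n)) ^ 2) ^ e = Real.exp (η / 8 * ht (y n)) := by
    rw [← pow_mul, ← Real.exp_nat_mul]
    congr 1
    push_cast
    field_simp
    ring
  have h9 : Real.exp (η / 8 * ht (y n)) * Real.exp (η / 8 * ht (y n)) *
      Real.exp (-(η * ht (x n))) ≤ Real.exp (-(η / 4 * ht (y n))) := by
    rw [← Real.exp_add, ← Real.exp_add]
    have := mul_le_mul_of_nonneg_left h4 hη.le
    exact Real.exp_le_exp.2 (by linarith)
  rw [h1, Finset.sum_singleton, funext fun c => hp c b, eval_mul_of_hom hR, map_mul, map_mul,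
    map_pow]
  calc v g * (v (p b) ^ e * v (eval (x n).co R))
      ≤ max (v g) 1 * (v (p b) ^ e * ((⨆ c, v ((x n).co c)) ^ e *
        Real.exp (-(η * ht (x n))))) := by
        gcongr
        exact le_max_left _ _
    _ = max (v g) 1 * (v (p b) * ⨆ c, v ((x n).co c)) ^ e * Real.exp (-(η * ht (x n))) := by
        ring
    _ ≤ max (v g) 1 * (C₀ * (Ys ^ 2 * Real.exp (η / (16 * e) * ht (y n)) ^ 2)) ^ e *
        Real.exp (-(η * ht (x n))) := by
        have := mul_nonneg (v.nonneg (p b)) (Real.iSup_nonneg fun c => v.nonneg ((x n).co c))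
        gcongr
    _ = Ys ^ (2 * e) * (max (v g) 1 * C₀ ^ e * Real.exp (η / 8 * ht (y n)) *
        Real.exp (-(η * ht (x n)))) := by
        rw [mul_pow, mul_pow, h8, ← pow_mul]
        ring
    _ ≤ _ := by
        refine mul_le_mul_of_nonneg_left (le_trans ?_ h9) (by positivity)
        gcongr

end Pool.Agent.Lib.MP_651af7_nt.Av.AV
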