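import Pool.Agent.Lib.MP_651af7_nt.Av.SeqC
import Pool.Agent.Lib.MP_651af7_nt.Av.SeqD

/-! The final statement. -/

namespace Pool.Agent.Lib.MP_651af7_nt.Av

open MvPolynomial Height NumberField Filter

variable {k ι : Type} [Field k] [NumberField k] [Fintype ι]

theorem AV.gcd_part (A : AV k ι) {J : Type} [Fintype J] (G : J → MvPolynomial ι k) {d : ℕ}
    (hG : ∀ j, (G j).IsHomogeneous d)
    (hc : 2 ≤ ((Ideal.span (Set.range G)).map (Ideal.Quotient.mk A.I)).height) {ε : ℝ}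
    (hε : 0 < ε) : ∃ (Θ : MvPolynomial ι k) (n : ℕ) (C : ℝ), Θ.IsHomogeneous n ∧ Θ ∉ A.I ∧
      ∀ x : ι → k, x ≠ 0 → (∀ f ∈ A.I, eval x f = 0) → eval x Θ ≠ 0 →
        (fun j => eval x (G j)) ≠ 0 ∧
          d * logHeight x - logHeight (fun j => eval x (G j)) ≤ ε * logHeight x + C := by
  by_contra hcon
  have hp := A.isPrime
  obtain ⟨j₀, hj₀⟩ : ∃ j, G j ∉ A.I := by
    by_contra h
    have h1 : (Ideal.span (Set.range G)).map (Ideal.Quotient.mk A.I) = ⊥ := by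
      rw [Ideal.map_eq_bot_iff_le_ker, Ideal.mk_ker, Ideal.span_le]
      rintro _ ⟨j, rfl⟩
      exact not_not.1 fun h' => h ⟨j, h'⟩
    rw [h1, Ideal.height_bot] at hc
    exact absurd hc (by decide)
  let T := {t : MvPolynomial ι k × ℕ × ℝ // t.1.IsHomogeneous t.2.1 ∧ t.1 ∉ A.I}
  let S : T → Set (A.Pt k) := fun t => {P | eval P.co t.1.1 ≠ 0 ∧
    ε * AV.ht P + t.1.2.2 < d * AV.ht P - logHeight fun j => eval P.co (G j)}
  have hS : ∀ t, (S t).Nonempty := fun t => by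
    by_contra h
    refine hcon ⟨t.1.1 * G j₀, t.1.2.1 + d, t.1.2.2, t.2.1.mul (hG j₀),
      fun h => (hp.mem_or_mem h).elim t.2.2 hj₀, fun x h0 hz h1 => ?_⟩
    rw [map_mul, mul_ne_zero_iff] at h1
    refine ⟨fun h2 => h1.2 (congrFun h2 j₀), not_lt.1 fun h2 => h ?_⟩
    obtain ⟨P, u, hu⟩ := AV.exists_rep_of_ne (A := A) h0 (by simpa only [aeval_eq_eval] using hz)
    obtain rfl : x = fun a => u * P.co a := funext hu
    simp only [eval_mul_of_hom (hG _), logHeight_mul_left u.ne_zero,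
      logHeight_mul_left (pow_ne_zero d u.ne_zero)] at h2
    rw [eval_mul_of_hom t.2.1] at h1
    exact ⟨P, right_ne_zero_of_mul h1.1, h2⟩
  have hdir : Directed (· ≥ ·) fun t => 𝓟 (S t) := fun t t' =>
    ⟨⟨(t.1.1 * t'.1.1, t.1.2.1 + t'.1.2.1, max t.1.2.2 t'.1.2.2), t.2.1.mul t'.2.1,
      fun h => (hp.mem_or_mem h).elim t.2.2 t'.2.2⟩,
      principal_mono.2 fun P hP => ⟨left_ne_zero_of_mul (map_mul (eval P.co) _ _ ▸ hP.1),
        lt_of_le_of_lt (by gcongr; exact le_max_left _ _) hP.2⟩,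
      principal_mono.2 fun P hP => ⟨right_ne_zero_of_mul (map_mul (eval P.co) _ _ ▸ hP.1),
        lt_of_le_of_lt (by gcongr; exact le_max_right _ _) hP.2⟩⟩
  have : Nonempty (A.Pt k) := ⟨0⟩
  have hne := iInf_neBot_of_directed hdir fun t => principal_neBot_iff.2 (hS t)
  have hU : ∀ t, ∀ᶠ P in Ultrafilter.of (⨅ t, 𝓟 (S t)), P ∈ S t := fun t =>
    (Ultrafilter.of_le _).trans (iInf_le _ t) (mem_principal_self _)
  have h1 : (1 : MvPolynomial ι k) ∉ A.I := (Ideal.ne_top_iff_one _).1 hp.ne_top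
  refine A.seq_gcd G hG hc id (tendsto_atTop.2 fun W => ?_) (fun f n hf h => ?_) hε
    ((hU ⟨(1, 0, 0), isHomogeneous_one _ _, h1⟩).mono fun P hP => ?_)
  · refine (hU ⟨(1, 0, d * W), isHomogeneous_one _ _, h1⟩).mono fun P hP => ?_
    have h2 : ε * AV.ht P + d * W < d * AV.ht P - logHeight fun j => eval P.co (G j) := hP.2
    have h3 := logHeight_nonneg fun j => eval P.co (G j)
    have h4 := mul_nonneg hε.le (AV.ht_nonneg P)
    exact (lt_of_mul_lt_mul_left (by linarith : (d : ℝ) * W < d * AV.ht P) d.cast_nonneg).le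
  · by_contra h2
    obtain ⟨P, h3, h4⟩ := (h.and (hU ⟨(f, n, 0), hf, h2⟩)).exists
    exact h4.1 h3
  · simpa using hP.2.le

theorem AV.prox_part (A : AV k ι) {R : MvPolynomial ι k} {e : ℕ} (hR : R.IsHomogeneous e)
    {v : AbsoluteValue k ℝ} (hv : Adm v) {ε : ℝ} (hε : 0 < ε) :
    ∃ C : ℝ, ∀ x : ι → k, x ≠ 0 → (∀ f ∈ A.I, eval x f = 0) → eval x R ≠ 0 →
      Real.log ((⨆ a, v (x a)) ^ e / v (eval x R)) ≤ ε * logHeight x + C := by
  by_contra hcon
  let L : A.Pt k → ℝ := fun P =>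
    Real.log ((⨆ a, v (P.co a)) ^ e / v (eval P.co R)) - ε * AV.ht P
  have hS : ∀ C : ℝ, ∃ P : A.Pt k, eval P.co R ≠ 0 ∧ C < L P := fun C => by
    by_contra h
    refine hcon ⟨C, fun x h0 hz h1 => not_lt.1 fun h2 => h ?_⟩
    obtain ⟨P, u, hu⟩ := AV.exists_rep_of_ne (A := A) h0 (by simpa only [aeval_eq_eval] using hz)
    obtain rfl : x = fun a => u * P.co a := funext hu
    rw [eval_mul_of_hom hR] at h1 h2
    rw [iSup_mul_left, logHeight_mul_left u.ne_zero, map_mul, map_pow, mul_pow,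
      mul_div_mul_left _ _ (pow_ne_zero e (v.ne_zero u.ne_zero))] at h2
    exact ⟨P, right_ne_zero_of_mul h1, lt_sub_iff_add_lt'.2 h2⟩
  have hne : (comap L atTop ⊓ 𝓟 {P : A.Pt k | eval P.co R ≠ 0}).NeBot := by
    rw [inf_principal_neBot_iff]
    rintro s ⟨t, ht, hs⟩
    obtain ⟨C, hC⟩ := mem_atTop_sets.1 ht
    obtain ⟨P, h1, h2⟩ := hS C
    exact ⟨P, hs (hC _ h2.le), h1⟩
  have hU := Ultrafilter.of_le (comap L atTop ⊓ 𝓟 {P : A.Pt k | eval P.co R ≠ 0})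
  have hL := tendsto_atTop.1 (tendsto_iff_comap.2 (hU.trans inf_le_left))
  have h0 := (hU.trans inf_le_right) (mem_principal_self _)
  refine A.seq_prox hR hv id (tendsto_atTop.2 fun W => ?_) h0 hε ?_
  · obtain ⟨C, hC⟩ := ((A.finite_ht_le (K := k) W).image L).bddAbove
    refine (hL (C + 1)).mono fun P hP => not_lt.1 fun h => ?_
    have := hC ⟨P, h.le, rfl⟩
    linarith
  · filter_upwards [h0, hL 0] with P h1 h2
    have h3 : 0 < v (eval P.co R) := v.pos h1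
    obtain ⟨a, ha⟩ := (AV.rep_co P).unit
    have h4 : 0 < (⨆ a, v (P.co a)) ^ e := pow_pos ((v.pos ha.ne_zero).trans_le
      (le_ciSup (f := fun a => v (P.co a)) (Finite.bddAbove_range _) a)) e
    have h5 := (Real.le_log_iff_exp_le (div_pos h4 h3)).1 (sub_nonneg.1 h2)
    change v (eval P.co R) ≤ (⨆ a, v (P.co a)) ^ e * Real.exp (-(ε * AV.ht P))
    rw [Real.exp_neg, ← div_eq_mul_inv, le_div_iff₀ (Real.exp_pos _), mul_comm]
    exact (le_div_iff₀ h3).1 h5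

theorem vojta (I : Ideal (MvPolynomial ι k)) (hI : ∀ P ∈ I, ∀ d, homogeneousComponent d P ∈ I)
    (hp : (I.map (MvPolynomial.map (algebraMap k (AlgebraicClosure k)))).IsPrime)
    (A : Type) [AddCommGroup A] (co : A → ι → AlgebraicClosure k) (h0 : ∀ p, co p ≠ 0)
    (hz : ∀ p, ∀ P ∈ I, aeval (co p) P = 0)
    (hs : ∀ v : ι → AlgebraicClosure k, v ≠ 0 → (∀ P ∈ I, aeval v P = 0) →
      ∃! p, ∃ c : AlgebraicClosure k, v = c • co p)
    (Φ : ι → ι → MvPolynomial (ι ⊕ ι) k)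
    (hΦ : ∀ a b, (Φ a b).IsWeightedHomogeneous
      (Sum.elim (fun _ => ((1, 0) : ℕ × ℕ)) fun _ => (0, 1)) (2, 2))
    (law : ∀ p q, ∃ c : AlgebraicClosure k, c ≠ 0 ∧ ∀ a b,
      aeval (Sum.elim (co p) (co q)) (Φ a b) = c * (co (p + q) a * co (p - q) b))
    {J : Type} [Fintype J] (G : J → MvPolynomial ι k) {d : ℕ} (hG : ∀ j, (G j).IsHomogeneous d)
    (hc : 2 ≤ ((Ideal.span (Set.range G)).map (Ideal.Quotient.mk I)).height) {ε : ℝ}
    (hε : 0 < ε) : ∃ (Θ : MvPolynomial ι k) (n : ℕ), Θ.IsHomogeneous n ∧ Θ ∉ I ∧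
      ∀ (R : MvPolynomial ι k) (e : ℕ) (S : Finset (FinitePlace k)), R.IsHomogeneous e →
      ∃ C : ℝ, ∀ x : ι → k, x ≠ 0 → (∀ P ∈ I, eval x P = 0) → eval x Θ ≠ 0 → eval x R ≠ 0 →
        (fun j => eval x (G j)) ≠ 0 ∧
        (∑ w : InfinitePlace k, w.mult * Real.log ((⨆ a, w.1 (x a)) ^ e / w.1 (eval x R)) +
          ∑ w ∈ S, Real.log ((⨆ a, w.1 (x a)) ^ e / w.1 (eval x R))) +
        (d * logHeight x - logHeight fun j => eval x (G j)) ≤ ε * logHeight x + C := by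
  obtain ⟨B, rfl, -⟩ := exists_av (AlgebraicClosure k) I hI hp A co h0 hz hs Φ hΦ law
  obtain ⟨Θ, n, C, h1, h2, h3⟩ := B.gcd_part G hG hc (half_pos hε)
  refine ⟨Θ, n, h1, h2, fun R e S hR => ?_⟩
  obtain ⟨N, hN⟩ : ∃ N : ℝ, N = ∑ w : InfinitePlace k, (w.mult : ℝ) + S.card := ⟨_, rfl⟩
  have hN0 : 0 ≤ N := by rw [hN]; positivity
  have hε' : 0 < ε / 2 / (N + 1) := by positivity
  choose c hc using fun w : InfinitePlace k => B.prox_part hR (v := w.1)
    (Or.inl (mem_multisetInfinitePlace.2 w.isInfinitePlace)) hε'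
  choose c' hc' using fun w : FinitePlace k => B.prox_part hR (v := w.1) (Or.inr w.2) hε'
  refine ⟨∑ w, w.mult * c w + ∑ w ∈ S, c' w + C, fun x x0 xz xΘ xR => ⟨(h3 x x0 xz xΘ).1, ?_⟩⟩
  have e1 := (h3 x x0 xz xΘ).2
  have e2 := Finset.sum_le_sum fun w (_ : w ∈ Finset.univ) =>
    mul_le_mul_of_nonneg_left (hc w x x0 xz xR) (w.mult.cast_nonneg (α := ℝ))
  have e3 := Finset.sum_le_sum fun w (_ : w ∈ S) => hc' w x x0 xz xR
  simp only [mul_add, Finset.sum_add_distrib, ← Finset.sum_mul, Finset.sum_const,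
    nsmul_eq_mul] at e2 e3
  have e4 : N * (ε / 2 / (N + 1) * logHeight x) ≤ ε / 2 * logHeight x := by
    rw [← mul_assoc]
    refine mul_le_mul_of_nonneg_right ?_ (logHeight_nonneg x)
    rw [mul_div_assoc', div_le_iff₀ (by positivity)]
    nlinarith
  rw [hN, add_mul] at e4
  rw [hN] at e2 e3
  linarith

end Pool.Agent.Lib.MP_651af7_nt.Av
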