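import Mathlib

/-! Projective models of abelian varieties as group functors on local algebras. -/

namespace Pool.Agent.Lib.MP_651af7_nt.Av

open MvPolynomial

variable {k : Type} [Field k] {ι : Type}

/-- The bidegree of the variables of two blocks. -/
def bw (ι κ : Type) : ι ⊕ κ → ℕ × ℕ := Sum.elim (fun _ => (1, 0)) fun _ => (0, 1)

/-- Unimodular zeros of `I` with coordinates in `R`. -/
structure Vec (I : Ideal (MvPolynomial ι k)) (R : Type) [CommRing R] [Algebra k R] where
  co : ι → R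
  unit : ∃ a, IsUnit (co a)
  zero : ∀ P ∈ I, aeval co P = 0

/-- Proportionality by a unit. -/
def Vec.rel (I : Ideal (MvPolynomial ι k)) (R : Type) [CommRing R] [Algebra k R] :
    Setoid (Vec I R) where
  r v w := ∃ u : Rˣ, ∀ a, w.co a = u * v.co a
  iseqv := ⟨fun _ => ⟨1, fun _ => by simp⟩,
    fun ⟨u, h⟩ => ⟨u⁻¹, fun a => by rw [h, Units.inv_mul_cancel_left]⟩,
    fun ⟨u, h⟩ ⟨u', h'⟩ => ⟨u' * u, fun a => by rw [h', h, Units.val_mul, mul_assoc]⟩⟩

/-- Points of the projective scheme of `I` with values in the local ring `R`. -/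
def Prj (I : Ideal (MvPolynomial ι k)) (R : Type) [CommRing R] [Algebra k R] : Type :=
  Quotient (Vec.rel I R)

/-- Chosen coordinates of a point. -/
noncomputable def Prj.co {I : Ideal (MvPolynomial ι k)} {R : Type} [CommRing R] [Algebra k R]
    (p : Prj I R) : ι → R := (Quotient.out p : Vec I R).co

/-- The group laws on `Prj I R` given by `(x + y)_a (x - y)_b = Φ a b (x, y)` up to a unit, with
neutral element `o`. -/
def Law {I : Ideal (MvPolynomial ι k)} (Φ : ι → ι → MvPolynomial (ι ⊕ ι) k) (o : ι → k)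
    (R : Type) [CommRing R] [Algebra k R] [AddCommGroup (Prj I R)] : Prop :=
  (∃ u : Rˣ, ∀ a, algebraMap k R (o a) = u * (0 : Prj I R).co a) ∧
  ∀ p q : Prj I R, ∃ u : Rˣ, ∀ a b,
    aeval (Sum.elim p.co q.co) (Φ a b) = u * ((p + q).co a * (p - q).co b)

/-- An abelian variety over `k` in projective space, with its addition and subtraction given by
one family of forms of bidegree `(2, 2)`. -/
structure AV (k : Type) [Field k] (ι : Type) where
  I : Ideal (MvPolynomial ι k)
  hom : ∀ P ∈ I, ∀ d, homogeneousComponent d P ∈ I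
  prime : ∀ (M : Type) [Field M] [Algebra k M],
    (I.map (MvPolynomial.map (algebraMap k M))).IsPrime
  Φ : ι → ι → MvPolynomial (ι ⊕ ι) k
  bih : ∀ a b, (Φ a b).IsWeightedHomogeneous (bw ι ι) (2, 2)
  ao : ι
  o : ι → k
  o_ao : o ao = 1
  grp : ∀ (R : Type) [CommRing R] [IsLocalRing R] [Algebra k R], AddCommGroup (Prj I R)
  law₀ : ∀ (R : Type) [CommRing R] [IsLocalRing R] [Algebra k R], @Law k _ ι I Φ o R _ _ (grp R)

section hom

variable {K R : Type*} [Field K] [CommRing R] [Algebra K R]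

theorem aeval_mul_of_hom {σ : Type*} {P : MvPolynomial σ K} {d : ℕ} (hP : P.IsHomogeneous d)
    (c : R) (v : σ → R) : aeval (fun a => c * v a) P = c ^ d * aeval v P := by
  rw [aeval_def, aeval_def, eval₂_eq, eval₂_eq, Finset.mul_sum]
  refine Finset.sum_congr rfl fun m hm => ?_
  have h : ∑ i ∈ m.support, m i = d := by
    have := hP (mem_support_iff.mp hm)
    simpa [Finsupp.weight_apply, Finsupp.sum] using this
  simp only [mul_pow, Finset.prod_mul_distrib, Finset.prod_pow_eq_pow_sum, h]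
  ring

theorem aeval_mul_of_bih {σ τ : Type} {P : MvPolynomial (σ ⊕ τ) K} {d e : ℕ}
    (hP : P.IsWeightedHomogeneous (bw σ τ) (d, e)) (s t : R) (v : σ → R) (w : τ → R) :
    aeval (Sum.elim (fun a => s * v a) fun b => t * w b) P =
      s ^ d * t ^ e * aeval (Sum.elim v w) P := by
  rw [aeval_def, aeval_def, eval₂_eq, eval₂_eq, Finset.mul_sum]
  refine Finset.sum_congr rfl fun m hm => ?_
  have h := hP (mem_support_iff.mp hm)
  rw [Finsupp.weight_apply, Finsupp.sum] at h
  have h1 : ∀ i, Sum.elim (fun a => s * v a) (fun b => t * w b) i ^ m i =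
      (s ^ (m i • bw σ τ i).1 * t ^ (m i • bw σ τ i).2) * Sum.elim v w i ^ m i := by
    rintro (a | b) <;> simp [bw, mul_pow]
  simp only [h1, Finset.prod_mul_distrib, Finset.prod_pow_eq_pow_sum, ← Prod.fst_sum,
    ← Prod.snd_sum, h]
  ring

theorem zero_mul_of_hom {σ : Type*}
    {I : Ideal (MvPolynomial σ K)} (hI : ∀ P ∈ I, ∀ d, homogeneousComponent d P ∈ I) {v : σ → R}
    (hv : ∀ P ∈ I, aeval v P = 0) (c : R) : ∀ P ∈ I, aeval (fun a => c * v a) P = 0 := by
  intro P hP
  rw [← sum_homogeneousComponent P, map_sum]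
  refine Finset.sum_eq_zero fun d _ => ?_
  rw [aeval_mul_of_hom (homogeneousComponent_isHomogeneous d P), hv _ (hI P hP d), mul_zero]

end hom

namespace AV

/-- The points of `A` with values in `R`. -/
def Pt (A : AV k ι) (R : Type) [CommRing R] [Algebra k R] : Type := Prj A.I R

instance (A : AV k ι) (R : Type) [CommRing R] [IsLocalRing R] [Algebra k R] :
    AddCommGroup (A.Pt R) := A.grp R

variable {A : AV k ι} {R R' R'' : Type} [CommRing R] [Algebra k R] [CommRing R'] [Algebra k R']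
  [CommRing R''] [Algebra k R'']

/-- Chosen homogeneous coordinates. -/
noncomputable def Pt.co (p : A.Pt R) : ι → R := Prj.co p

/-- `v` is a vector of homogeneous coordinates of `p`. -/
def Rep (p : A.Pt R) (v : ι → R) : Prop := ∃ u : Rˣ, ∀ a, v a = u * p.co a

/-- The value of the form `Φ a b`. -/
noncomputable def ph (A : AV k ι) (a b : ι) (v w : ι → R) : R := aeval (Sum.elim v w) (A.Φ a b)

theorem map_ph (f : R →ₐ[k] R') (a b : ι) (v w : ι → R) :
    f (A.ph a b v w) = A.ph a b (fun c => f (v c)) fun c => f (w c) := by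
  rw [ph, ph, ← AlgHom.comp_apply, comp_aeval]
  congr 2
  ext (c | c) <;> rfl

theorem ph_mul (a b : ι) (s t : R) (v w : ι → R) :
    A.ph a b (fun c => s * v c) (fun c => t * w c) = s ^ 2 * t ^ 2 * A.ph a b v w :=
  aeval_mul_of_bih (A.bih a b) s t v w

theorem rep_co (p : A.Pt R) : Rep p p.co := ⟨1, fun _ => by simp⟩

theorem Rep.unit {p : A.Pt R} {v : ι → R} (h : Rep p v) : ∃ a, IsUnit (v a) := by
  obtain ⟨u, hu⟩ := h
  obtain ⟨a, ha⟩ := (Quotient.out p : Vec A.I R).unit
  exact ⟨a, hu a ▸ u.isUnit.mul ha⟩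

theorem Rep.zero {p : A.Pt R} {v : ι → R} (h : Rep p v) : ∀ P ∈ A.I, aeval v P = 0 := by
  obtain ⟨u, hu⟩ := h
  obtain rfl : v = fun a => u * p.co a := funext hu
  exact zero_mul_of_hom A.hom (Quotient.out p : Vec A.I R).zero _

theorem exists_rep {v : ι → R} (hu : ∃ a, IsUnit (v a)) (hz : ∀ P ∈ A.I, aeval v P = 0) :
    ∃ p : A.Pt R, Rep p v :=
  ⟨Quotient.mk (Vec.rel A.I R) ⟨v, hu, hz⟩, Quotient.mk_out (s := Vec.rel A.I R) ⟨v, hu, hz⟩⟩

theorem Rep.exists_smul {p : A.Pt R} {v w : ι → R} (hv : Rep p v) (hw : Rep p w) :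
    ∃ u : Rˣ, ∀ a, w a = u * v a := by
  obtain ⟨s, hs⟩ := hv
  obtain ⟨t, ht⟩ := hw
  exact ⟨t * s⁻¹, fun a => by rw [ht, hs, Units.val_mul, mul_assoc, Units.inv_mul_cancel_left]⟩

theorem Rep.smul {p : A.Pt R} {v : ι → R} (hv : Rep p v) {c : R} (hc : IsUnit c) :
    Rep p fun a => c * v a := by
  obtain ⟨s, hs⟩ := hv
  obtain ⟨u, rfl⟩ := hc
  exact ⟨u * s, fun a => by simp only [hs, Units.val_mul, mul_assoc]⟩

theorem Rep.inj {p q : A.Pt R} {v : ι → R} (hp : Rep p v) (hq : Rep q v) : p = q := by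
  obtain ⟨s, hs⟩ := hp
  obtain ⟨t, ht⟩ := hq
  refine (Quotient.out_equiv_out (s := Vec.rel A.I R)).1 ⟨t⁻¹ * s, fun a => ?_⟩
  change q.co a = _ * p.co a
  rw [Units.val_mul, mul_assoc, ← hs, ht, Units.inv_mul_cancel_left]

/-- Unimodular vectors with vanishing minors represent the same point. -/
theorem Rep.of_minors {p : A.Pt R} {v w : ι → R} (hv : Rep p v) (hw : ∃ a, IsUnit (w a))
    (h : ∀ a b, v a * w b = v b * w a) : Rep p w := by
  obtain ⟨a, ha⟩ := hv.unit
  obtain ⟨b, hb⟩ := hw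
  have h1 : IsUnit (w a) := isUnit_of_mul_isUnit_right (h a b ▸ ha.mul hb)
  obtain ⟨u, hu⟩ := ha
  have h2 : w = fun c => (w a * ↑u⁻¹) * v c := funext fun c => by
    rw [mul_assoc, mul_comm (w a), mul_assoc, ← h a c, ← hu, Units.inv_mul_cancel_left]
  rw [h2]
  exact hv.smul (h1.mul u⁻¹.isUnit)

theorem Rep.minors {p : A.Pt R} {v w : ι → R} (hv : Rep p v) (hw : Rep p w) (a b : ι) :
    v a * w b = v b * w a := by
  obtain ⟨u, hu⟩ := hv.exists_smul hw
  rw [hu, hu]
  ring

/-- The zeros of a homogeneous ideal do not depend on the coordinates. -/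
theorem Rep.zero_of {K : Type*} [Field K] [Algebra K R] {J : Ideal (MvPolynomial ι K)}
    (hJ : ∀ P ∈ J, ∀ d, homogeneousComponent d P ∈ J) {p : A.Pt R} {v w : ι → R} (hv : Rep p v)
    (hw : Rep p w) (h : ∀ P ∈ J, aeval v P = 0) : ∀ P ∈ J, aeval w P = 0 := by
  obtain ⟨u, hu⟩ := hv.exists_smul hw
  obtain rfl : w = fun a => u * v a := funext hu
  exact zero_mul_of_hom hJ h _

theorem exists_im (f : R →ₐ[k] R') (p : A.Pt R) : ∃ q : A.Pt R', Rep q fun a => f (p.co a) :=
  exists_rep ((rep_co p).unit.imp fun _ h => h.map f) fun P hP => by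
    have h := congrArg f ((rep_co p).zero P hP)
    rwa [map_zero, ← AlgHom.comp_apply, comp_aeval] at h

/-- The image of a point under a homomorphism of `k`-algebras. -/
noncomputable def Pt.im (f : R →ₐ[k] R') (p : A.Pt R) : A.Pt R' := (exists_im f p).choose

theorem Rep.im (f : R →ₐ[k] R') {p : A.Pt R} {v : ι → R} (h : Rep p v) :
    Rep (p.im f) fun a => f (v a) := by
  obtain ⟨u, hu⟩ := h
  have h1 : Rep (p.im f) fun a => f (p.co a) := (exists_im f p).choose_spec
  have h2 : (fun a => f (v a)) = fun a => f u * f (p.co a) := funext fun a => by rw [hu, map_mul]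
  rw [h2]
  exact h1.smul (u.isUnit.map f)

variable [IsLocalRing R] [IsLocalRing R'] [IsLocalRing R'']

theorem rep_zero : Rep (0 : A.Pt R) fun a => algebraMap k R (A.o a) := (A.law₀ R).1

theorem law {p q : A.Pt R} {x y s t : ι → R} (hx : Rep p x) (hy : Rep q y) (hs : Rep (p + q) s)
    (ht : Rep (p - q) t) : ∃ c : Rˣ, ∀ a b, A.ph a b x y = c * (s a * t b) := by
  obtain ⟨u, hu⟩ := (A.law₀ R).2 p q
  obtain ⟨u₁, h₁⟩ := hx
  obtain ⟨u₂, h₂⟩ := hy
  obtain ⟨u₃, h₃⟩ := hs.exists_smul (rep_co _)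
  obtain ⟨u₄, h₄⟩ := ht.exists_smul (rep_co _)
  obtain rfl : x = fun a => u₁ * p.co a := funext h₁
  obtain rfl : y = fun a => u₂ * q.co a := funext h₂
  refine ⟨u₁ ^ 2 * u₂ ^ 2 * u * u₃ * u₄, fun a b => ?_⟩
  have h : A.ph a b p.co q.co = u * ((p + q).co a * (p - q).co b) := hu a b
  rw [ph_mul, h, h₃, h₄]
  push_cast
  ring

theorem exists_unit_ph {p q : A.Pt R} {x y : ι → R} (hx : Rep p x) (hy : Rep q y) :
    ∃ a b, IsUnit (A.ph a b x y) := by
  obtain ⟨c, hc⟩ := law hx hy (rep_co _) (rep_co _)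
  obtain ⟨a, ha⟩ := (rep_co (p + q)).unit
  obtain ⟨b, hb⟩ := (rep_co (p - q)).unit
  exact ⟨a, b, hc a b ▸ c.isUnit.mul (ha.mul hb)⟩

theorem rep_add {p q : A.Pt R} {x y : ι → R} (hx : Rep p x) (hy : Rep q y) {a b : ι}
    (h : IsUnit (A.ph a b x y)) : Rep (p + q) fun c => A.ph c b x y := by
  obtain ⟨c, hc⟩ := law hx hy (rep_co _) (rep_co _)
  rw [hc] at h
  have h1 := isUnit_of_mul_isUnit_right (isUnit_of_mul_isUnit_right h)
  have h2 : (fun c => A.ph c b x y) = fun a => (c * (p - q).co b) * (p + q).co a :=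
    funext fun a => by rw [hc]; ring
  rw [h2]
  exact (rep_co _).smul (c.isUnit.mul h1)

theorem rep_sub {p q : A.Pt R} {x y : ι → R} (hx : Rep p x) (hy : Rep q y) {a b : ι}
    (h : IsUnit (A.ph a b x y)) : Rep (p - q) fun c => A.ph a c x y := by
  obtain ⟨c, hc⟩ := law hx hy (rep_co _) (rep_co _)
  rw [hc] at h
  have h1 := isUnit_of_mul_isUnit_left (isUnit_of_mul_isUnit_right h)
  have h2 : (fun c => A.ph a c x y) = fun b => (c * (p + q).co a) * (p - q).co b :=
    funext fun b => by rw [hc]; ring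
  rw [h2]
  exact (rep_co _).smul (c.isUnit.mul h1)

/-- The group homomorphism induced by a homomorphism of local `k`-algebras. -/
noncomputable def map (A : AV k ι) (f : R →ₐ[k] R') : A.Pt R →+ A.Pt R' :=
  AddMonoidHom.mk' (Pt.im f) fun p q => by
    obtain ⟨a, b, h⟩ := exists_unit_ph (rep_co p) (rep_co q)
    have h1 := (rep_add (rep_co p) (rep_co q) h).im f
    have h2 := h.map f
    rw [map_ph] at h2
    simp only [map_ph] at h1
    exact h1.inj (rep_add ((rep_co p).im f) ((rep_co q).im f) h2)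

theorem Rep.map (f : R →ₐ[k] R') {p : A.Pt R} {v : ι → R} (h : Rep p v) :
    Rep (A.map f p) fun a => f (v a) := h.im f

theorem map_map (f : R →ₐ[k] R') (g : R' →ₐ[k] R'') (p : A.Pt R) :
    A.map g (A.map f p) = A.map (g.comp f) p :=
  (((rep_co p).map f).map g).inj ((rep_co p).map (g.comp f))

theorem map_id (p : A.Pt R) : A.map (AlgHom.id k R) p = p :=
  ((rep_co p).map (AlgHom.id k R)).inj (rep_co p)

theorem map_congr {f g : R →ₐ[k] R'} {p : A.Pt R} {v : ι → R} (h : Rep p v)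
    (e : ∀ a, f (v a) = g (v a)) : A.map f p = A.map g p :=
  (h.map f).inj (funext e ▸ h.map g)

theorem map_injective {f : R →ₐ[k] R'} (hf : Function.Injective f) :
    Function.Injective (A.map f) := by
  intro p q h
  refine Rep.inj ((rep_co p).of_minors (rep_co q).unit fun a b => hf ?_) (rep_co q)
  rw [map_mul, map_mul]
  exact ((rep_co p).map f).minors (h ▸ (rep_co q).map f) a b

/-- A point lies in the image of `map f` as soon as it has unimodular coordinates from `R`. -/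
theorem exists_map_eq {f : R →ₐ[k] R'} (hf : Function.Injective f) {q : A.Pt R'} {v : ι → R}
    (hu : ∃ a, IsUnit (v a)) (h : Rep q fun a => f (v a)) : ∃ p, Rep p v ∧ A.map f p = q := by
  obtain ⟨p, hp⟩ := exists_rep (A := A) hu fun P hP => hf (by
    rw [map_zero, ← AlgHom.comp_apply, comp_aeval]
    exact h.zero P hP)
  exact ⟨p, hp, (hp.map f).inj h⟩

end AV

/-- `B` is a closed subgroup of `A` defined over the extension `K` of `k`. -/
structure Sub {K : Type} [Field K] [Algebra k K] (A : AV k ι) (B : AV K ι) : Prop where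
  le : ∀ P ∈ A.I, MvPolynomial.map (algebraMap k K) P ∈ B.I
  Φ : ∀ a b, B.Φ a b = MvPolynomial.map (algebraMap k K) (A.Φ a b)
  ao : B.ao = A.ao
  o : ∀ a, B.o a = algebraMap k K (A.o a)

namespace Sub

open AV

variable {K : Type} [Field K] [Algebra k K] {A : AV k ι} {B : AV K ι} {R R' : Type}
  [CommRing R] [Algebra k R] [Algebra K R] [IsScalarTower k K R]
  [CommRing R'] [Algebra k R'] [Algebra K R'] [IsScalarTower k K R']

theorem ph (h : Sub A B) (a b : ι) (v w : ι → R) : B.ph a b v w = A.ph a b v w := by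
  rw [AV.ph, AV.ph, h.Φ, aeval_map_algebraMap]

theorem exists_rep (h : Sub A B) (p : B.Pt R) : ∃ q : A.Pt R, Rep q p.co :=
  AV.exists_rep (rep_co p).unit fun P hP => by
    rw [← aeval_map_algebraMap K]
    exact (rep_co p).zero _ (h.le P hP)

theorem rep_choose (h : Sub A B) {p : B.Pt R} {v : ι → R} (hv : Rep p v) :
    Rep (h.exists_rep p).choose v := by
  obtain ⟨u, hu⟩ := hv
  obtain rfl : v = fun a => u * p.co a := funext hu
  exact (h.exists_rep p).choose_spec.smul u.isUnit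

variable [IsLocalRing R] [IsLocalRing R']

variable (R) in
/-- The inclusion of the points of `B` into the points of `A`. -/
noncomputable def inc (h : Sub A B) : B.Pt R →+ A.Pt R :=
  AddMonoidHom.mk' (fun p => (h.exists_rep p).choose) fun p q => by
    obtain ⟨a, b, hu⟩ := exists_unit_ph (rep_co p) (rep_co q)
    have h1 := h.rep_choose (rep_add (rep_co p) (rep_co q) hu)
    simp only [h.ph] at h1 hu
    exact h1.inj (rep_add (h.rep_choose (rep_co p)) (h.rep_choose (rep_co q)) hu)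

theorem rep_inc (h : Sub A B) {p : B.Pt R} {v : ι → R} (hv : Rep p v) : Rep (h.inc R p) v :=
  h.rep_choose hv

theorem rep_of_inc (h : Sub A B) {p : B.Pt R} {v : ι → R} (hv : Rep (h.inc R p) v) : Rep p v := by
  obtain ⟨u, hu⟩ := (h.rep_inc (rep_co p)).exists_smul hv
  exact ⟨u, hu⟩

theorem inc_injective (h : Sub A B) : Function.Injective (h.inc R) := fun p _ e =>
  (rep_co p).inj (h.rep_of_inc (e ▸ h.rep_inc (rep_co p)))

theorem exists_inc_eq (h : Sub A B) {q : A.Pt R} {v : ι → R} (hv : Rep q v)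
    (hz : ∀ P ∈ B.I, aeval v P = 0) : ∃ p : B.Pt R, h.inc R p = q := by
  obtain ⟨p, hp⟩ := AV.exists_rep (A := B) hv.unit hz
  exact ⟨p, (h.rep_inc hp).inj hv⟩

theorem mem_range_inc (h : Sub A B) {q : A.Pt R} {v : ι → R} (hv : Rep q v) :
    q ∈ (h.inc R).range ↔ ∀ P ∈ B.I, aeval v P = 0 :=
  ⟨fun ⟨_, e⟩ => (h.rep_of_inc (e ▸ hv)).zero, fun hz => h.exists_inc_eq hv hz⟩

theorem inc_map (h : Sub A B) (f : R →ₐ[K] R') (p : B.Pt R) :
    h.inc R' (B.map f p) = A.map (f.restrictScalars k) (h.inc R p) :=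
  (h.rep_inc ((rep_co p).map f)).inj ((h.rep_inc (rep_co p)).map (f.restrictScalars k))

end Sub

/-- Equations of a closed irreducible subgroup of `A` over the extension `K` of `k`. -/
structure SubData (A : AV k ι) (K : Type) [Field K] [Algebra k K] where
  J : Ideal (MvPolynomial ι K)
  hom : ∀ P ∈ J, ∀ d, homogeneousComponent d P ∈ J
  prime : ∀ (M : Type) [Field M] [Algebra K M],
    (J.map (MvPolynomial.map (algebraMap K M))).IsPrime
  le : ∀ P ∈ A.I, MvPolynomial.map (algebraMap k K) P ∈ J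
  zero : ∀ P ∈ J, aeval (fun a => algebraMap k K (A.o a)) P = 0
  sub : ∀ (R : Type) [CommRing R] [IsLocalRing R] [Algebra k R] [Algebra K R]
    [IsScalarTower k K R] (p q : A.Pt R), (∀ P ∈ J, aeval p.co P = 0) →
    (∀ P ∈ J, aeval q.co P = 0) → ∀ P ∈ J, aeval (p - q).co P = 0

end Pool.Agent.Lib.MP_651af7_nt.Av
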