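import Mathlib

/-! Leading forms of power series in variables `ξ` and blocks of variables `T`. -/

namespace Pool.Agent.Lib.MP_651af7_nt.Av

open Finset

section low

variable {K σ : Type} [CommRing K]

/-- All coefficients strictly below `μ` vanish. -/
def Low (f : MvPowerSeries σ K) (μ : σ →₀ ℕ) : Prop :=
  ∀ μ' ≤ μ, μ' ≠ μ → MvPowerSeries.coeff μ' f = 0

theorem Low.coeff_mul {f : MvPowerSeries σ K} {μ : σ →₀ ℕ} (h : Low f μ) (u : MvPowerSeries σ K) :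
    MvPowerSeries.coeff μ (u * f) = MvPowerSeries.constantCoeff u * MvPowerSeries.coeff μ f := by
  classical
  rw [MvPowerSeries.coeff_mul, sum_eq_single (0, μ)]
  · rfl
  · intro p hp hne
    have h1 := mem_antidiagonal.mp hp
    rw [h p.2 (h1 ▸ le_add_self) fun h2 => hne ?_, mul_zero]
    rw [h2, add_eq_right] at h1
    exact Prod.ext h1 h2
  · intro h1
    exact absurd (mem_antidiagonal.mpr (zero_add μ)) h1

theorem Low.mono {f : MvPowerSeries σ K} {μ μ' : σ →₀ ℕ} (h : Low f μ) (h' : μ' ≤ μ) : Low f μ' :=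
  fun ν hν hne => h ν (hν.trans h') fun e => hne (le_antisymm hν (e ▸ h'))

theorem Low.mul {f : MvPowerSeries σ K} {μ : σ →₀ ℕ} (h : Low f μ) (u : MvPowerSeries σ K) :
    Low (u * f) μ := fun ν hν hne => by rw [(h.mono hν).coeff_mul, h ν hν hne, mul_zero]

theorem Low.pderiv {f : MvPowerSeries σ K} {μ : σ →₀ ℕ} {s : σ}
    (h : Low f (μ + Finsupp.single s 1)) : Low (MvPowerSeries.pderiv K s f) μ := fun ν hν hne => by
  rw [MvPowerSeries.coeff_pderiv, h _ (add_le_add_left hν _) fun e => hne (add_right_cancel e),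
    zero_mul]

end low

variable {K Ξ I g : Type} [CommRing K] [Fintype g]

/-- Degrees in the blocks. -/
def bdeg (α : I × g →₀ ℕ) : I → ℕ := fun i => ∑ j, α (i, j)

theorem bdeg_add (α β : I × g →₀ ℕ) : bdeg (α + β) = bdeg α + bdeg β := by
  funext i
  simp [bdeg, sum_add_distrib]

theorem bdeg_single [DecidableEq I] (i : I) (j : g) (n : ℕ) :
    bdeg (Finsupp.single (i, j) n) = Pi.single i n := by
  classical
  funext i'
  rw [bdeg, Pi.single_apply]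
  split_ifs with h
  · subst h
    rw [sum_eq_single j] <;> simp +contextual [eq_comm]
  · exact sum_eq_zero fun j' _ => Finsupp.single_eq_of_ne fun e => h (congrArg Prod.fst e)

theorem bdeg_mono {α β : I × g →₀ ℕ} (h : α ≤ β) : bdeg α ≤ bdeg β :=
  fun _ => sum_le_sum fun _ _ => h _

theorem eq_of_bdeg {α β : I × g →₀ ℕ} (h : α ≤ β) (h' : bdeg α = bdeg β) : α = β := by
  ext ⟨i, j⟩
  exact (sum_eq_sum_iff_of_le fun j _ => h (i, j)).mp (congrFun h' i) j (mem_univ j)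

/-- `ν` is minimal: no term of smaller block degree in `T`. -/
def MinT (f : MvPowerSeries (Ξ ⊕ I × g) K) (ν : I → ℕ) : Prop :=
  ∀ (κ : Ξ →₀ ℕ) (α : I × g →₀ ℕ), bdeg α ≤ ν → bdeg α ≠ ν →
    MvPowerSeries.coeff (κ.sumElim α) f = 0

/-- `κ` is minimal for the part of block degree `ν`. -/
def MinX (f : MvPowerSeries (Ξ ⊕ I × g) K) (κ : Ξ →₀ ℕ) (ν : I → ℕ) : Prop :=
  ∀ κ' ≤ κ, κ' ≠ κ → ∀ α : I × g →₀ ℕ, bdeg α = ν → MvPowerSeries.coeff (κ'.sumElim α) f = 0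

/-- `Ψ` is the part of `f` of exponent `κ` in `ξ` and of block degree `ν` in `T`. -/
def IsLead (f : MvPowerSeries (Ξ ⊕ I × g) K) (κ : Ξ →₀ ℕ) (ν : I → ℕ)
    (Ψ : MvPolynomial (I × g) K) : Prop :=
  ∀ α, (bdeg α = ν → MvPolynomial.coeff α Ψ = MvPowerSeries.coeff (κ.sumElim α) f) ∧
    (bdeg α ≠ ν → MvPolynomial.coeff α Ψ = 0)

theorem exists_isLead [Finite I] (f : MvPowerSeries (Ξ ⊕ I × g) K) (κ : Ξ →₀ ℕ) (ν : I → ℕ) :
    ∃ Ψ, IsLead f κ ν Ψ := by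
  classical
  have hfin : {α : I × g →₀ ℕ | bdeg α = ν}.Finite := by
    refine (Set.finite_Iic (Finsupp.equivFunOnFinite.symm fun p : I × g => ν p.1)).subset
      fun α hα p => ?_
    rw [← (hα : bdeg α = ν)]
    exact single_le_sum (f := fun j => α (p.1, j)) (fun _ _ => Nat.zero_le _) (mem_univ p.2)
  refine ⟨∑ α ∈ hfin.toFinset, MvPolynomial.monomial α (MvPowerSeries.coeff (κ.sumElim α) f),
    fun α => ?_⟩
  simp only [MvPolynomial.coeff_sum, MvPolynomial.coeff_monomial, sum_ite_eq',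
    Set.Finite.mem_toFinset, Set.mem_ofPred_eq]
  exact ⟨fun h => if_pos h, fun h => if_neg h⟩

theorem IsLead.deg {f : MvPowerSeries (Ξ ⊕ I × g) K} {κ : Ξ →₀ ℕ} {ν : I → ℕ}
    {Ψ : MvPolynomial (I × g) K} (h : IsLead f κ ν Ψ) :
    ∀ α ∈ Ψ.support, ∀ i, ∑ j, α (i, j) = ν i := fun α hα i => by
  by_contra hc
  exact MvPolynomial.mem_support_iff.mp hα ((h α).2 fun e => hc (congrFun e i))

omit [Fintype g] in
theorem exists_sumElim (μ : Ξ ⊕ I × g →₀ ℕ) : ∃ (κ : Ξ →₀ ℕ) (α : I × g →₀ ℕ), μ = κ.sumElim α :=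
  ⟨_, _, (Finsupp.comapDomain_sumElim_comapDomain μ).symm⟩

/-- A minimal block degree exists. -/
theorem exists_minT [Finite I] {f : MvPowerSeries (Ξ ⊕ I × g) K} (hf : f ≠ 0) :
    ∃ ν, MinT f ν ∧ ∃ (κ : Ξ →₀ ℕ) (α : I × g →₀ ℕ), bdeg α = ν ∧
      MvPowerSeries.coeff (κ.sumElim α) f ≠ 0 := by
  obtain ⟨μ, hμ⟩ : ∃ μ, MvPowerSeries.coeff μ f ≠ 0 := by
    by_contra hc
    push Not at hc
    exact hf (MvPowerSeries.ext hc)
  obtain ⟨κ, α, rfl⟩ := exists_sumElim μ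
  obtain ⟨ν, hν, hmin⟩ := (wellFounded_lt (α := I → ℕ)).has_min
    {ν | ∃ (κ : Ξ →₀ ℕ) (α : I × g →₀ ℕ), bdeg α = ν ∧ MvPowerSeries.coeff (κ.sumElim α) f ≠ 0}
    ⟨_, κ, α, rfl, hμ⟩
  refine ⟨ν, fun κ' α' h1 h2 => ?_, hν⟩
  by_contra hc
  exact hmin _ ⟨κ', α', rfl, hc⟩ (lt_of_le_of_ne h1 h2)

/-- A minimal exponent `κ` below a given one exists. -/
theorem exists_minX {f : MvPowerSeries (Ξ ⊕ I × g) K} {κ₀ : Ξ →₀ ℕ} {α₀ : I × g →₀ ℕ}
    (h : MvPowerSeries.coeff (κ₀.sumElim α₀) f ≠ 0) :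
    ∃ κ ≤ κ₀, MinX f κ (bdeg α₀) ∧ ∃ α, bdeg α = bdeg α₀ ∧
      MvPowerSeries.coeff (κ.sumElim α) f ≠ 0 := by
  obtain ⟨κ, ⟨h1, h2⟩, hmin⟩ := (wellFounded_lt (α := Ξ →₀ ℕ)).has_min
    {κ | κ ≤ κ₀ ∧ ∃ α, bdeg α = bdeg α₀ ∧ MvPowerSeries.coeff (κ.sumElim α) f ≠ 0}
    ⟨κ₀, le_rfl, α₀, rfl, h⟩
  refine ⟨κ, h1, fun κ' h3 h4 α hα => ?_, h2⟩
  by_contra hc
  exact hmin κ' ⟨h3.trans h1, α, hα, hc⟩ (lt_of_le_of_ne h3 h4)

theorem low_of_min {f : MvPowerSeries (Ξ ⊕ I × g) K} {κ : Ξ →₀ ℕ} {ν : I → ℕ} (hT : MinT f ν)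
    (hX : MinX f κ ν) {α : I × g →₀ ℕ} (hα : bdeg α ≤ ν) : Low f (κ.sumElim α) := by
  intro μ hμ hne
  obtain ⟨κ', α', rfl⟩ := exists_sumElim μ
  have h1 : κ' ≤ κ := fun a => hμ (Sum.inl a)
  have h2 : α' ≤ α := fun p => hμ (Sum.inr p)
  have h3 := bdeg_mono h2
  by_cases h4 : bdeg α' = ν
  · have h5 : α' = α := eq_of_bdeg h2 (le_antisymm h3 (h4 ▸ hα))
    exact hX κ' h1 (fun e => hne (by rw [e, h5])) α' h4
  · exact hT κ' α' (h3.trans hα) h4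

theorem MinT.mul {f : MvPowerSeries (Ξ ⊕ I × g) K} {ν : I → ℕ} (hT : MinT f ν)
    (u : MvPowerSeries (Ξ ⊕ I × g) K) : MinT (u * f) ν := by
  classical
  intro κ α h1 h2
  rw [MvPowerSeries.coeff_mul]
  refine sum_eq_zero fun p hp => ?_
  obtain ⟨κ', α', e⟩ := exists_sumElim p.2
  have h3 : α' ≤ α := fun q =>
    (show κ'.sumElim α' ≤ κ.sumElim α from e ▸ mem_antidiagonal.mp hp ▸ le_add_self) (Sum.inr q)
  have h4 := bdeg_mono h3
  rw [e, hT κ' α' (h4.trans h1) fun h5 => h2 (le_antisymm h1 (h5 ▸ h4)), mul_zero]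

/-- The leading coefficients of `u * f`. -/
theorem coeff_mul_of_min {f : MvPowerSeries (Ξ ⊕ I × g) K} {κ : Ξ →₀ ℕ} {ν : I → ℕ}
    (hT : MinT f ν) (hX : MinX f κ ν) (u : MvPowerSeries (Ξ ⊕ I × g) K) {α : I × g →₀ ℕ}
    (hα : bdeg α = ν) : MvPowerSeries.coeff (κ.sumElim α) (u * f) =
      MvPowerSeries.constantCoeff u * MvPowerSeries.coeff (κ.sumElim α) f :=
  (low_of_min hT hX hα.le).coeff_mul u

/-- Invariance of the leading form. -/
theorem IsLead.inv {f : MvPowerSeries (Ξ ⊕ I × g) K} {κ : Ξ →₀ ℕ} {ν : I → ℕ}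
    {Ψ : MvPolynomial (I × g) K} (h : IsLead f κ ν Ψ) (hT : MinT f ν) (hX : MinX f κ ν) {a : Ξ}
    {i : I} {w : g → MvPowerSeries (Ξ ⊕ I × g) K}
    (hw : MvPowerSeries.pderiv K (Sum.inl a) f =
      ∑ j, w j * MvPowerSeries.pderiv K (Sum.inr (i, j)) f) :
    ∑ j, MvPowerSeries.constantCoeff (w j) • MvPolynomial.pderiv (i, j) Ψ = 0 := by
  classical
  ext β
  rw [MvPolynomial.coeff_sum, MvPolynomial.coeff_zero]
  simp only [MvPolynomial.coeff_smul, MvPolynomial.coeff_pderiv, smul_eq_mul]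
  have hb : ∀ j, bdeg (β + Finsupp.single (i, j) 1) = bdeg β + Pi.single i 1 := fun j => by
    rw [bdeg_add, bdeg_single]
  by_cases hβ : bdeg β + Pi.single i 1 = ν
  · have he : ∀ j, κ.sumElim (β + Finsupp.single (i, j) 1) =
        κ.sumElim β + Finsupp.single (Sum.inr (i, j)) 1 := fun j => by
      rw [← Finsupp.sumElim_zero_single, ← Finsupp.sumElim_add, add_zero]
    have h1 := congrArg (MvPowerSeries.coeff (κ.sumElim β)) hw
    rw [MvPowerSeries.coeff_pderiv, ← Finsupp.sumElim_single_zero, ← Finsupp.sumElim_add, add_zero,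
      hT _ β (hβ ▸ le_self_add) (fun e => by
        have h2 := congrFun (e.trans hβ.symm) i
        simp at h2), zero_mul, map_sum] at h1
    rw [h1]
    refine sum_congr rfl fun j _ => ?_
    rw [(Low.pderiv (he j ▸ low_of_min hT hX ((hb j).trans hβ).le)).coeff_mul,
      MvPowerSeries.coeff_pderiv, (h _).1 ((hb j).trans hβ), he]
    rfl
  · exact sum_eq_zero fun j _ => by rw [(h _).2 (hb j ▸ hβ), zero_mul, mul_zero]

end Pool.Agent.Lib.MP_651af7_nt.Av
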