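import Pool.Agent.Lib.MP_651af7_nt.Av.ENrm
import Pool.Agent.Lib.MP_651af7_nt.Av.Lead

/-! Engine: definitions. -/

namespace Pool.Agent.Lib.MP_651af7_nt.Av

open MvPolynomial Finset
open Pool.Agent.Lib.MP_651af7_nt.Vj (gsum FinS)

/-- An adelic size of height at most `h`. -/
structure Ad {k : Type} [Field k] [NumberField k] (c : AbsoluteValue k ℝ → ℝ) (h : ℝ) : Prop where
  one : ∀ v, 1 ≤ c v
  fin : FinS fun v => Real.log (c v)
  le : gsum (fun v => Real.log (c v)) ≤ h

/-- The maximum norm. -/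
noncomputable def nm {k ι : Type} [Field k] (v : AbsoluteValue k ℝ) (x : ι → k) : ℝ := ⨆ a, v (x a)

/-- Geometric growth of the coefficients, with room for summation. -/
def Geo {k τ : Type} [Field k] [Fintype τ] (v : AbsoluteValue k ℝ) (q : ℝ)
    (f : MvPowerSeries τ k) : Prop :=
  ∀ α, α ≠ 0 → v (MvPowerSeries.coeff α f) *
    E (IsNonarchimedean v) (2 * Fintype.card τ) ^ α.degree ≤ q ^ α.degree

/-- The blocks: `none` is the centre, the arms come in pairs. -/
abbrev OO (m : ℕ) : Type := Option (Fin m × Bool)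

/-- Exponents in a box. -/
abbrev Bx (g n : ℕ) : Type := Fin g → Fin (n + 1)

/-- Exponents of one pair. -/
abbrev TT (g : ℕ) {m : ℕ} (n : OO m → ℕ) (p : Fin m) : Type := ∀ s : Bool, Bx g (n (some (p, s)))

/-- Coefficients of a section. -/
abbrev Co (g : ℕ) {m : ℕ} (n : OO m → ℕ) : Type := Bx g (n none) → (∀ p, TT g n p) → ℤ

/-- Exponents of reduced monomials. -/
abbrev Ex (g : ℕ) (ι : Type) : Type := Fin (g + 1) ⊕ ι →₀ ℕ

section univ

variable {R R' : Type} [CommRing R] [CommRing R'] {g m : ℕ}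

/-- A monomial of degree `g * n`. -/
def bx {n : ℕ} (Q : Fin (g + 1) → R) (τ : Bx g n) : R :=
  ∏ l, Q l.succ ^ (τ l : ℕ) * Q 0 ^ (n - τ l)

/-- A form of degree `g * n o` in the block `o`. -/
def sec {n : OO m → ℕ} (c : Co g n) (Q : OO m → Fin (g + 1) → R) : R :=
  ∑ τ, (∑ z, (c z τ : R) * bx (Q none) z) * ∏ p, ∏ s, bx (Q (some (p, s))) (τ p s)

/-- The centre and the differences `P i - 2 ^ j i • P none`. -/
def YY {G : Type} [AddCommGroup G] (j : Fin m × Bool → ℕ) (P : OO m → G) : OO m → G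
  | none => P none
  | some i => P (some i) - 2 ^ j i • P none

theorem map_bx (φ : R →+* R') {n : ℕ} (Q : Fin (g + 1) → R) (τ : Bx g n) :
    φ (bx Q τ) = bx (fun l => φ (Q l)) τ := by simp [bx]

theorem map_sec (φ : R →+* R') {n : OO m → ℕ} (c : Co g n) (Q : OO m → Fin (g + 1) → R) :
    φ (sec c Q) = sec c fun o l => φ (Q o l) := by simp [sec, map_bx]

theorem bx_mul {n : ℕ} (s : R) (Q : Fin (g + 1) → R) (τ : Bx g n) :
    bx (fun l => s * Q l) τ = s ^ (g * n) * bx Q τ := by
  have h : ∀ l, (s * Q l.succ) ^ (τ l : ℕ) * (s * Q 0) ^ (n - τ l) =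
      s ^ n * (Q l.succ ^ (τ l : ℕ) * Q 0 ^ (n - τ l)) := fun l => by
    rw [mul_pow, mul_pow, mul_mul_mul_comm, ← pow_add, Nat.add_sub_cancel' (τ l).is_le]
  simp only [bx, h, prod_mul_distrib, prod_const, card_univ, Fintype.card_fin]
  rw [← pow_mul, mul_comm n]

theorem SN.bx_le {na : Prop} (S : SN R na) {n : ℕ} {Q : Fin (g + 1) → R} {Y : ℝ}
    (h : ∀ l, S.N (Q l) ≤ Y) (τ : Bx g n) : S.N (bx Q τ) ≤ Y ^ (g * n) := by
  refine (S.prod_le univ (t := fun _ => Y ^ n) fun l _ => ?_).trans ?_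
  · refine (S.mul_le (S.pow_le (h _) _) (S.pow_le (h _) _)).trans ?_
    rw [← pow_add, Nat.add_sub_cancel' (τ l).is_le]
  · rw [prod_const, card_univ, Fintype.card_fin, ← pow_mul, mul_comm]

end univ

section red

variable {k ι R : Type} [Field k] [Fintype ι] [CommRing R] [Algebra k R] {g : ℕ}

open Classical in
/-- The reduced monomials of degree `n`. -/
noncomputable def Mon (ι : Type) [Fintype ι] (g e ρ n : ℕ) : Finset (Ex g ι) :=
  (Iic (Finsupp.equivFunOnFinite.symm fun _ => n)).filter fun ω =>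
    e * ∑ l, ω (.inl l) + ∑ a, ω (.inr a) = n ∧ ∀ a, ω (.inr a) < ρ

/-- The value of a reduced monomial. -/
noncomputable def mon (u : Fin (g + 1) → MvPolynomial ι k) (y : ι → R) (ω : Ex g ι) : R :=
  (∏ l, aeval y (u l) ^ ω (.inl l)) * ∏ a, y a ^ ω (.inr a)

/-- `rd μ` is a normal form of the monomial `μ`. -/
structure IsRd (J : Ideal (MvPolynomial ι k)) (e ρ : ℕ) (u : Fin (g + 1) → MvPolynomial ι k)
    (rd : (ι →₀ ℕ) → MvPolynomial (Fin (g + 1) ⊕ ι) k) : Prop where
  hu : ∀ l, (u l).IsHomogeneous e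
  rel : ∀ μ, monomial μ 1 - aeval (Sum.elim u X) (rd μ) ∈ J
  supp : ∀ μ, (rd μ).support ⊆ Mon ι g e ρ μ.degree

/-- A coefficient of the normal form of `P`. -/
noncomputable def redc (rd : (ι →₀ ℕ) → MvPolynomial (Fin (g + 1) ⊕ ι) k) (P : MvPolynomial ι R)
    (ω : Ex g ι) : R := ∑ μ ∈ P.support, coeff μ P * algebraMap k R (coeff ω (rd μ))

/-- The marked parameters. -/
def mark (g : ℕ) {α : Type} (md : Option α) (s : Bool) : Finset (Fin (g + 1)) :=
  match md with
  | none => if s then ∅ else {0, 1}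
  | some _ => {0}

/-- `s` bounds the group law at `v`. -/
structure Sz₀ (B : AV k ι) (v : AbsoluteValue k ℝ) (s : ℝ) : Prop where
  two : E (IsNonarchimedean v) 2 ≤ s
  Φ : ∀ a b, pl v (B.Φ a b) ≤ s
  o : ∀ a, v (B.o a) ≤ s

/-- `s` bounds the data of a block at `v`. -/
structure Sz (B : AV k ι) (v : AbsoluteValue k ℝ) (u : Fin (g + 1) → MvPolynomial ι k)
    (rd : (ι →₀ ℕ) → MvPolynomial (Fin (g + 1) ⊕ ι) k) (s : ℝ) : Prop extends Sz₀ B v s where
  u : ∀ l, pl v (u l) ≤ s
  rd : ∀ μ ω, v (coeff ω (rd μ)) ≤ s ^ μ.degree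

end red

/-- The discrete data of the construction. -/
structure Cfg (k ι : Type) [Field k] (g m : ℕ) where
  /-- sizes of the boxes -/
  n : OO m → ℕ
  /-- numbers of doublings -/
  j : Fin m × Bool → ℕ
  /-- the chosen coordinates -/
  q : OO m → Fin (g + 1) → ι
  /-- the parameters -/
  u : OO m → Fin (g + 1) → MvPolynomial ι k
  /-- the normal forms -/
  rd : OO m → (ι →₀ ℕ) → MvPolynomial (Fin (g + 1) ⊕ ι) k

section sections

variable {k ι R R' : Type} [Field k] [CommRing R] [Algebra k R] [CommRing R'] [Algebra k R']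
  {g m : ℕ}

/-- Iterated doubling. -/
noncomputable def AV.dbn (B : AV k ι) (y : ι → R) : ℕ → ι → R
  | 0 => y
  | j + 1 => fun a => B.ph a B.ao (B.dbn y j) (B.dbn y j)

theorem AV.map_dbn (B : AV k ι) (f : R →ₐ[k] R') (y : ι → R) (j : ℕ) (a : ι) :
    f (B.dbn y j a) = B.dbn (fun c => f (y c)) j a := by
  induction j generalizing a with
  | zero => rfl
  | succ j ih => simp only [AV.dbn, AV.map_ph, ih]

namespace Cfg

variable (F : Cfg k ι g m) (B : AV k ι)

/-- The degrees in the blocks. -/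
def dg : OO m → ℕ
  | none => g * F.n none + ∑ i, 2 * 4 ^ F.j i * (g * F.n (some i))
  | some i => 2 * (g * F.n (some i))

/-- The degree in the centre of one slice. -/
def dh (p : Fin m) : ℕ := g * F.n none + ∑ s, 2 * 4 ^ F.j (p, s) * (g * F.n (some (p, s)))

/-- Coordinates of `y - 2 ^ j • y₀` in the presentation `a`. -/
noncomputable def arm (i : Fin m × Bool) (a : ι) (y₀ y : ι → R) (l : Fin (g + 1)) : R :=
  B.ph a (F.q (some i) l) y (B.dbn y₀ (F.j i))

/-- The arguments of the section. -/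
noncomputable def Q (a : Fin m × Bool → ι) (y : OO m → ι → R) : OO m → Fin (g + 1) → R
  | none => fun l => y none (F.q none l)
  | some i => F.arm B i (a i) (y none) (y (some i))

/-- The auxiliary section in the presentation `a`. -/
noncomputable def FF (c : Co g F.n) (a : Fin m × Bool → ι) (y : OO m → ι → R) : R :=
  sec c (F.Q B a y)

/-- A basic factor as a polynomial in the coordinates of the arm. -/
noncomputable def Ee (i : Fin m × Bool) (a : ι) (y₀ : ι → R) (t : Bx g (F.n (some i))) :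
    MvPolynomial ι R := bx (F.arm B i a (fun c => C (y₀ c)) X) t

variable [Fintype ι]

/-- A coefficient of its normal form. -/
noncomputable def Jc (i : Fin m × Bool) (a : ι) (y₀ : ι → R) (t : Bx g (F.n (some i)))
    (ω : Ex g ι) : R := redc (F.rd (some i)) (F.Ee B i a y₀ t) ω

open Classical in
/-- All patterns of a pair. -/
noncomputable def pat (e ρ : ℕ) (p : Fin m) : Finset (Bool → Ex g ι) :=
  Fintype.piFinset fun s => Mon ι g e ρ (F.dg (some (p, s)))

open Classical in
/-- The forbidden patterns of a pair. -/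
noncomputable def low (e ρ L : ℕ) (mk : Bool → Finset (Fin (g + 1))) (p : Fin m) :
    Finset (Bool → Ex g ι) :=
  (F.pat e ρ p).filter fun ω => ∑ s, 4 ^ F.j (p, s) * ∑ l ∈ mk s, ω s (.inl l) < L

/-- The joint coefficient of a pattern in a slice. -/
noncomputable def slice (c : Co g F.n) (p : Fin m) (a : Bool → ι) (ω : Bool → Ex g ι)
    (τ : ∀ p, TT g F.n p) (y₀ : ι → R) : R :=
  ∑ t : TT g F.n p, (∑ z, (c z (Function.update τ p t) : R) * bx (fun l => y₀ (F.q none l)) z) *
    ∏ s, F.Jc B (p, s) (a s) y₀ (t s) (ω s)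

/-- The forbidden patterns do not occur. -/
def Van (e ρ L : ℕ) (mk : Bool → Finset (Fin (g + 1))) (c : Co g F.n) : Prop :=
  ∀ p a, ∀ ω ∈ F.low e ρ L mk p, ∀ τ, F.slice B c p a ω τ (X : ι → MvPolynomial ι k) ∈ B.I

omit [Fintype ι] in
theorem map_arm (f : R →ₐ[k] R') (i : Fin m × Bool) (a : ι) (y₀ y : ι → R) (l : Fin (g + 1)) :
    f (F.arm B i a y₀ y l) = F.arm B i a (fun c => f (y₀ c)) (fun c => f (y c)) l := by
  simp only [arm, AV.map_ph, AV.map_dbn]

omit [Fintype ι] in
theorem map_FF (f : R →ₐ[k] R') (c : Co g F.n) (a : Fin m × Bool → ι) (y : OO m → ι → R) :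
    f (F.FF B c a y) = F.FF B c a fun o b => f (y o b) := by
  refine (map_sec (f : R →+* R') c _).trans ?_
  unfold FF
  congr 1
  funext o l
  cases o with
  | none => rfl
  | some i => exact F.map_arm B f i _ _ _ l

end Cfg

end sections

section flat

variable {k ι O : Type} [Field k] {r g : ℕ}

/-- Power series in the variables `ξ` and `T` of all blocks. -/
abbrev RR (k O : Type) (r g : ℕ) : Type := MvPowerSeries (O × Fin r ⊕ O × Fin g) k

/-- The variables `ξ` of a block. -/
def vX (g : ℕ) (o : O) : Fin r ↪ O × Fin r ⊕ O × Fin g :=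
  ⟨fun a => .inl (o, a), fun _ _ h => by simpa using h⟩

/-- The variables `T` of a block. -/
def vT (r : ℕ) (o : O) : Fin g ↪ O × Fin r ⊕ O × Fin g :=
  ⟨fun a => .inr (o, a), fun _ _ h => by simpa using h⟩

/-- The variables of a block. -/
def vO {τ : Type} (o : O) : τ ↪ O × τ := ⟨fun a => (o, a), fun _ _ h => by simpa using h⟩

/-- The branches in the big ring. -/
noncomputable def xi (g : ℕ) (ξ : O → ι → MvPowerSeries (Fin r) k) (o : O) (a : ι) : RR k O r g :=
  MvPowerSeries.rename (vX g o) (ξ o a)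

/-- The parametrisation at the origin in the big ring. -/
noncomputable def rh (r : ℕ) (ϱ : ι → MvPowerSeries (Fin g) k) (o : O) (a : ι) : RR k O r g :=
  MvPowerSeries.rename (vT r o) (ϱ a)

/-- Coordinates of `ξ + ϱ (T)` in the presentation `b`. -/
noncomputable def ty (B : AV k ι) (ξ : O → ι → MvPowerSeries (Fin r) k)
    (ϱ : ι → MvPowerSeries (Fin g) k) (b : O → ι) (o : O) (a : ι) : RR k O r g :=
  B.ph a (b o) (xi g ξ o) (rh r ϱ o)

/-- The branches in the ring of the variables `ξ`. -/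
noncomputable def xo (ξ : O → ι → MvPowerSeries (Fin r) k) (p : O × ι) :
    MvPowerSeries (O × Fin r) k := MvPowerSeries.rename (vO p.1) (ξ p.1 p.2)

/-- The constant coefficient as a homomorphism of algebras. -/
noncomputable def cc (k σ : Type) [Field k] : MvPowerSeries σ k →ₐ[k] k :=
  { MvPowerSeries.constantCoeff (σ := σ) (R := k) with commutes' := fun _ => rfl }

theorem cc_apply {σ : Type} (f : MvPowerSeries σ k) : cc k σ f = MvPowerSeries.constantCoeff f :=
  rfl

end flat

end Pool.Agent.Lib.MP_651af7_nt.Av
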