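import Pool.Agent.Lib.MP_651af7_nt.Av.ELam
import Pool.Agent.Lib.MP_651af7_nt.Av.Jac

/-! Engine: independent coordinates, non-vanishing of the section. -/

namespace Pool.Agent.Lib.MP_651af7_nt.Av

open Finset

variable {k ι : Type} [Field k] [CharZero k] {g m : ℕ}

/-- The exponent of a monomial of the section. -/
private noncomputable def eframeEx {n : OO m → ℕ} (τ : ∀ p, TT g n p) (z : Bx g (n none)) :
    OO m × Fin g →₀ ℕ :=
  Finsupp.equivFunOnFinite.symm fun p => match p.1 with
    | none => z p.2
    | some i => τ i.1 i.2 p.2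

private theorem eframe_ex_inj {n : OO m → ℕ} {τ τ' : ∀ p, TT g n p} {z z' : Bx g (n none)}
    (h : eframeEx τ z = eframeEx τ' z') : τ = τ' ∧ z = z' :=
  ⟨funext fun p => funext fun s => funext fun l =>
      Fin.ext (DFunLike.congr_fun h (some (p, s), l)),
    funext fun l => Fin.ext (DFunLike.congr_fun h (none, l))⟩

omit [CharZero k] in
private theorem eframe_sec {R : Type} [CommRing R] [Algebra k R] {Z : OO m → Fin (g + 1) → R}
    (h1 : ∀ o, Z o 0 = 1) {n : OO m → ℕ} (c : Co g n) :
    sec c Z = MvPolynomial.aeval (fun p : OO m × Fin g => Z p.1 p.2.succ)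
      (∑ τ, ∑ z, MvPolynomial.monomial (eframeEx τ z) (c z τ : k)) := by
  rw [sec, map_sum]
  refine sum_congr rfl fun τ _ => ?_
  rw [map_sum, sum_mul]
  refine sum_congr rfl fun z _ => ?_
  rw [MvPolynomial.aeval_monomial, map_intCast, Finsupp.prod_fintype _ _ fun _ => pow_zero _,
    Fintype.prod_prod_type, Fintype.prod_option, Fintype.prod_prod_type, mul_assoc]
  simp only [bx, h1, one_pow, mul_one]
  rfl

/-- `sec c Z = aeval (Z · succ) (sec c (cons 1 X))` and the latter is a sum of distinct
monomials. -/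
theorem sec_ne_zero {R : Type} [CommRing R] [Algebra k R] {Z : OO m → Fin (g + 1) → R}
    (h1 : ∀ o, Z o 0 = 1) (h : AlgebraicIndependent k fun p : OO m × Fin g => Z p.1 p.2.succ)
    {n : OO m → ℕ} {c : Co g n} (hc : c ≠ 0) : sec c Z ≠ 0 := by
  classical
  intro h0
  rw [eframe_sec (k := k) h1] at h0
  have h2 := algebraicIndependent_iff.mp h _ h0
  refine hc (funext fun z => funext fun τ => ?_)
  have h3 := congrArg (MvPolynomial.coeff (eframeEx τ z)) h2
  rw [MvPolynomial.coeff_sum, sum_eq_single τ, MvPolynomial.coeff_sum, sum_eq_single z,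
    MvPolynomial.coeff_monomial, if_pos rfl, MvPolynomial.coeff_zero] at h3
  · exact Int.cast_eq_zero.mp h3
  · intro z' _ hz
    rw [MvPolynomial.coeff_monomial, if_neg fun h4 => hz (eframe_ex_inj h4).2]
  · simp
  · intro τ' _ hτ
    rw [MvPolynomial.coeff_sum]
    exact sum_eq_zero fun z' _ => by
      rw [MvPolynomial.coeff_monomial, if_neg fun h4 => hτ (eframe_ex_inj h4).1]
  · simp

omit [CharZero k] in
theorem der_sec {R : Type} [CommRing R] [Algebra k R] (D : Derivation k R R)
    {Z : OO m → Fin (g + 1) → R} (h : ∀ o l, D (Z o l) = 0) {n : OO m → ℕ} (c : Co g n) :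
    D (sec c Z) = 0 := by
  have hm : ∀ x y : R, D x = 0 → D y = 0 → D (x * y) = 0 := fun x y hx hy => by
    rw [Derivation.leibniz, hx, hy, smul_zero, smul_zero, add_zero]
  have hp : ∀ (x : R) (e : ℕ), D x = 0 → D (x ^ e) = 0 := fun x e hx => by
    rw [Derivation.leibniz_pow, hx, smul_zero, smul_zero]
  have hb : ∀ o (e : ℕ) (τ : Bx g e), D (bx (Z o) τ) = 0 := fun o e τ =>
    prod_induction _ (fun x => D x = 0) hm D.map_one_eq_zero fun l _ =>
      hm _ _ (hp _ _ (h _ _)) (hp _ _ (h _ _))
  rw [sec, map_sum]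
  refine sum_eq_zero fun τ _ => hm _ _ ?_ ?_
  · rw [map_sum]
    exact sum_eq_zero fun z _ => hm _ _ (D.map_intCast _) (hb _ _ _)
  · exact prod_induction _ (fun x => D x = 0) hm D.map_one_eq_zero fun p _ =>
      prod_induction _ (fun x => D x = 0) hm D.map_one_eq_zero fun s _ => hb _ _ _

omit [CharZero k] in
/-- Independent rows have independent columns. -/
private theorem eframe_cols {σ τ : Type} [Fintype σ] {N : σ → τ → k} (h : LinearIndependent k N) :
    ∃ e : σ → τ, LinearIndependent k fun t s => N s (e t) := by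
  classical
  let M : τ → σ → k := fun t s => N s t
  have h1 : Submodule.span k (Set.range M) = ⊤ := by
    by_contra hc
    obtain ⟨φ, hφ0, hφ⟩ := Submodule.exists_dual_map_eq_bot_of_lt_top
      (lt_top_iff_ne_top.mpr hc) inferInstance
    apply hφ0
    have h2 := Fintype.linearIndependent_iff.mp h (fun s => φ (Pi.single s 1)) (by
      funext t
      have h3 : φ (M t) = 0 := by
        have h4 : φ (M t) ∈ (Submodule.span k (Set.range M)).map φ :=
          Submodule.mem_map_of_mem (Submodule.subset_span ⟨t, rfl⟩)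
        rwa [hφ] at h4
      rw [LinearMap.pi_apply_eq_sum_univ] at h3
      rw [Finset.sum_apply, Pi.zero_apply, ← h3]
      refine sum_congr rfl fun s _ => ?_
      rw [Pi.smul_apply, smul_eq_mul, smul_eq_mul, mul_comm]
      congr 2
      funext j
      rw [Pi.single_apply]
      exact if_congr eq_comm rfl rfl)
    exact LinearMap.pi_ext' fun s => LinearMap.ext_ring (h2 s)
  obtain ⟨b, hb, hsp, hli⟩ := exists_linearIndependent k (Set.range M)
  have hfin : Fintype b := hli.setFinite.fintype
  have hc : Fintype.card b = Fintype.card σ := by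
    have h2 := finrank_span_set_eq_card (R := k) (s := b) hli
    rw [hsp, h1, finrank_top, Module.finrank_fintype_fun_eq_card, Set.toFinset_card] at h2
    exact h2.symm
  let ε : σ ≃ b := Fintype.equivOfCardEq hc.symm
  choose e he using fun t : σ => hb (ε t).2
  refine ⟨e, ?_⟩
  change LinearIndependent k fun t => M (e t)
  simp only [he]
  exact hli.comp ε ε.injective

omit [CharZero k] in
private theorem eframe_cc {V : Type} (v : V) (f : MvPowerSeries V k) :
    MvPowerSeries.constantCoeff (MvPowerSeries.pderiv k v f) =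
      MvPowerSeries.coeff (Finsupp.single v 1) f := by
  simp [← MvPowerSeries.coeff_zero_eq_constantCoeff_apply, MvPowerSeries.coeff_pderiv]

/-- Sketch.  Normalise `Z o` at a unit coordinate `q o 0`.  Let `M j a` be the coefficient of the
variable `t o j` in `Z o a`.  `Tang.map` for `cc` gives `Tang (cc Z) (M j) (σ j)`; by `Tang.add`,
`Tang.smul`, `tang_self` with `c = 0`, `Tang.unique` the rows `M j` are independent, so there are
`g` independent columns `q o (succ l)`.  `der_of_lam` and `h2` make the joint matrix of linear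
terms block triangular; `jac_indep'`. -/
theorem AV.exists_frame [Fintype ι] {B : AV k ι} {V I : Type} [Fintype I] {σ : Fin g → ι → k}
    (hσ : LinearIndependent k σ) (Q : Option I → B.Pt (MvPowerSeries V k))
    (t : Option I → Fin g → V) (h1 : ∀ o j a,
      MvPowerSeries.constantCoeff (AV.lam (MvPowerSeries.pderiv k (t o j)) (Q o) a) = σ j a)
    (h2 : ∀ o i j, o ≠ some i → AV.lam (MvPowerSeries.pderiv k (t (some i) j)) (Q o) = 0) :
    ∃ (q : Option I → Fin (g + 1) → ι) (Z : Option I → ι → MvPowerSeries V k),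
      (∀ o, AV.Rep (Q o) (Z o)) ∧ (∀ o, Z o (q o 0) = 1) ∧
      AlgebraicIndependent k fun p : Option I × Fin g => Z p.1 (q p.1 p.2.succ) := by
  classical
  choose a₀ ha₀ using fun o => (AV.rep_co (Q o)).unit
  choose Z hZ hZ1 using fun o => (AV.rep_co (Q o)).norm (ha₀ o)
  have hM : ∀ o, LinearIndependent k fun j a =>
      MvPowerSeries.coeff (Finsupp.single (t o j) 1) (Z o a) := fun o => by
    refine LinearIndependent.of_comp (B.trl fun a => cc k V (Z o a)) ?_
    convert hσ using 1
    funext j
    have h3 := (AV.lam_tang (MvPowerSeries.pderiv k (t o j)) (hZ o)).map (cc k V)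
    have h4 := ((AV.tang_iff_trl ((hZ o).map (cc k V))).mp h3).2
    simp only [cc_apply, eframe_cc, h1] at h4
    exact h4
  choose e he using fun o => eframe_cols (hM o)
  refine ⟨fun o => Fin.cons (a₀ o) (e o), Z, hZ, hZ1, jac_indep' ?_⟩
  simp only [Fin.cons_succ]
  refine Fintype.linearIndependent_iff.mpr fun c hc => ?_
  have h3 : ∀ o, (∀ o', o' ≠ o → ∀ j l, c (o', l) *
      MvPowerSeries.coeff (Finsupp.single (t o j) 1) (Z o' (e o' l)) = 0) →
      ∀ l, c (o, l) = 0 := fun o ho => by
    refine Fintype.linearIndependent_iff.mp (he o) (fun l => c (o, l)) (funext fun j => ?_)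
    have h4 := congrFun hc (t o j)
    rw [Finset.sum_apply, Fintype.sum_prod_type, sum_eq_single o] at h4
    · rw [Finset.sum_apply]
      exact h4
    · exact fun o' _ h5 => sum_eq_zero fun l _ => ho o' h5 j l
    · simp
  have h4 : ∀ i l, c (some i, l) = 0 := fun i => h3 _ fun o' h5 j l => by
    rw [← eframe_cc, AV.der_of_lam (hZ o') (hZ1 o') (h2 o' i j h5), map_zero, mul_zero]
  rintro ⟨_ | i, l⟩
  · refine h3 _ (fun o' h5 j l => ?_) l
    obtain ⟨i, rfl⟩ := Option.ne_none_iff_exists'.mp h5
    rw [h4, zero_mul]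
  · exact h4 i l

end Pool.Agent.Lib.MP_651af7_nt.Av
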