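import Pool.Agent.Lib.MP_651af7_nt.Av.EFrame
import Pool.Agent.Lib.MP_651af7_nt.Av.EInv
import Pool.Agent.Lib.MP_651af7_nt.Av.EPres

/-! Engine: the structure of the expansion of the section. -/

namespace Pool.Agent.Lib.MP_651af7_nt.Av

open Finset AV

variable {k ι : Type} [Field k] [NumberField k] [Fintype ι] {g m r : ℕ} {B : AV k ι}
  {ϱ : ι → MvPowerSeries (Fin g) k} {P : OO m → B.Pt k} {x : OO m → ι → k}
  {ξ : OO m → ι → MvPowerSeries (Fin r) k}

theorem AV.Par.ty_zero (hϱ : B.Par g ϱ) (hx : ∀ o, Rep (P o) (x o))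
    (hξ0 : ∀ o a, MvPowerSeries.constantCoeff (ξ o a) = x o a)
    (hξ : ∀ o, ∀ f ∈ B.I, MvPolynomial.aeval (ξ o) f = 0) (b : OO m → ι) (o : OO m) :
    ∀ f ∈ B.I, MvPolynomial.aeval (ty B ξ ϱ b o) f = 0 := by
  obtain ⟨𝒳, hX, -⟩ := exists_rep_rename (vX g o) (hx o) (hξ0 o) (hξ o)
  obtain ⟨𝒯, hT, -⟩ := exists_rep_rename (vT r o) (rep_zero (R := k)) hϱ.const hϱ.mem
  exact AV.ph_zero hX hT (b o)

private theorem estr_sum_apply {K R J : Type} [CommRing K] [CommRing R] [Algebra K R]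
    (s : Finset J) (D : J → Derivation K R R) (y : R) : (∑ j ∈ s, D j) y = ∑ j ∈ s, D j y := by
  classical
  induction s using Finset.induction_on with
  | empty => simp
  | insert a s ha ih => rw [sum_insert ha, sum_insert ha, Derivation.add_apply, ih]

/-- Sketch.  `exists_rep_rename` gives `𝒳`, `𝒯` with images `P o`, `0` under `cc`;
`exists_frame` for `YY j (𝒳 + 𝒯)` and `t o j = inr (o, j)`; `f = sec c (Z ∘ q)`; `sec_ne_zero`;
`exists_w`, `lam_sub`, `lam_nsmul`, `der_of_lam`, `der_sec`; `pres` with the chosen coordinates,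
whose constant terms represent `P o` and `P (some i) + 2 ^ j i • P none` (`Rep.map`,
`Rep.exists_smul`). -/
theorem AV.Par.exists_str (hϱ : B.Par g ϱ) (j : Fin m × Bool → ℕ) (hx : ∀ o, Rep (P o) (x o))
    (hξ0 : ∀ o a, MvPowerSeries.constantCoeff (ξ o a) = x o a)
    (hξ : ∀ o, ∀ f ∈ B.I, MvPolynomial.aeval (ξ o) f = 0) :
    ∃ q : OO m → Fin (g + 1) → ι, ∀ F : Cfg k ι g m, F.j = j → F.q = q → ∀ c : Co g F.n, c ≠ 0 →
      ∃ (f : RR k (OO m) r g) (l : k), f ≠ 0 ∧ l ≠ 0 ∧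
        (∀ o a', ∃ w : Fin g → RR k (OO m) r g, MvPowerSeries.pderiv k (.inl (o, a')) f =
            ∑ j, w j * MvPowerSeries.pderiv k (.inr (o, j)) f ∧
          B.Tang (x o) (lin (ξ o) a')
            fun a => ∑ l, MvPowerSeries.constantCoeff (w l) * algebraMap k k (lin ϱ l a)) ∧
        ∀ a b, ∃ U, F.FF B c a (ty B ξ ϱ b) = U * f ∧ MvPowerSeries.constantCoeff U =
          l * ((∏ o, x o (b o) ^ F.dg o) *
            ∏ i, (P (some i) + 2 ^ j i • P none).co (a i) ^ (g * F.n (some i))) := by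
  choose 𝒳 hX hX0 using fun o => exists_rep_rename (vX g o) (hx o) (hξ0 o) (hξ o)
  choose 𝒯 hT hT0 using
    fun o : OO m => exists_rep_rename (vT r o) (rep_zero (R := k)) hϱ.const hϱ.mem
  have a1 : ∀ o o' l, lam (MvPowerSeries.pderiv k (Sum.inr (o, l))) (𝒳 o') = 0 := fun o o' l =>
    lam_rename_of_notMem (vX g o') (hX o') fun ⟨_, e⟩ => Sum.inl_ne_inr e
  have a2 : ∀ o o' l, o' ≠ o → lam (MvPowerSeries.pderiv k (Sum.inr (o, l))) (𝒯 o') = 0 :=
    fun o o' l h => lam_rename_of_notMem (vT r o') (hT o')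
      fun ⟨_, e⟩ => h (congrArg Prod.fst (Sum.inr_injective e))
  obtain ⟨q, Z, hZ, hZ1, hind⟩ := AV.exists_frame hϱ.basis.indep (YY j fun o => 𝒳 o + 𝒯 o)
    (fun o l => Sum.inr (o, l)) (fun o l a => by
      cases o with
      | none => rw [YY, lam_add, a1, zero_add, hϱ.cc_lam hT]
      | some i =>
        rw [YY, lam_sub, lam_nsmul, lam_add, lam_add, a1, a1, a2 _ none _ (Option.some_ne_none i).symm,
          zero_add, add_zero, smul_zero, sub_zero, hϱ.cc_lam hT]) (fun o i l h => by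
      cases o with
      | none => rw [YY, lam_add, a1, zero_add, a2 _ _ _ h]
      | some i' =>
        rw [YY, lam_sub, lam_nsmul, lam_add, lam_add, a1, a1, a2 _ _ _ h,
          a2 _ none _ (Option.some_ne_none i).symm, add_zero, smul_zero, sub_zero])
  refine ⟨q, fun F hj hq c hc => ?_⟩
  subst hj hq
  obtain ⟨u, hu⟩ := F.pres c hX hT hZ (fun o => rep_co _) fun i => rep_co _
  choose s hs using fun o => (hx o).exists_smul (v := x o)
    (w := fun a => cc k _ ((𝒳 o - 𝒯 o).co a)) (by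
      have h := (rep_co (𝒳 o - 𝒯 o)).map (cc k _)
      rwa [map_sub, hX0, hT0, sub_zero] at h)
  choose t ht using fun i => (rep_co (P (some i) + 2 ^ F.j i • P none)).exists_smul
    (w := fun a => cc k _ ((𝒳 (some i) + 𝒯 (some i) + 2 ^ F.j i • (𝒳 none + 𝒯 none)).co a)) (by
      have h := (rep_co (𝒳 (some i) + 𝒯 (some i) + 2 ^ F.j i • (𝒳 none + 𝒯 none))).map (cc k _)
      rwa [map_add, map_nsmul, map_add, map_add, hX0, hX0, hT0, hT0, add_zero, add_zero] at h)
  have hl : cc k _ (u : RR k (OO m) r g) *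
      ((∏ o, (s o : k) ^ F.dg o) * ∏ i, (t i : k) ^ (g * F.n (some i))) ≠ 0 :=
    mul_ne_zero (u.isUnit.map (cc k _)).ne_zero (mul_ne_zero
      (prod_ne_zero_iff.mpr fun o _ => pow_ne_zero _ (s o).ne_zero)
      (prod_ne_zero_iff.mpr fun i _ => pow_ne_zero _ (t i).ne_zero))
  have hf : (sec c fun o l => Z o (F.q o l)) ≠ 0 :=
    sec_ne_zero (k := k) (Z := fun o l => Z o (F.q o l)) hZ1 hind hc
  have hw : ∀ o a', ∃ w : Fin g → RR k (OO m) r g,
      MvPowerSeries.pderiv k (.inl (o, a')) (sec c fun o l => Z o (F.q o l)) =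
        ∑ j, w j * MvPowerSeries.pderiv k (.inr (o, j)) (sec c fun o l => Z o (F.q o l)) ∧
      B.Tang (x o) (lin (ξ o) a')
        fun a => ∑ l, MvPowerSeries.constantCoeff (w l) * algebraMap k k (lin ϱ l a) := by
    intro o a'
    obtain ⟨w, h1, h2⟩ := hϱ.exists_w hX hT o a'
    simp only [hξ0] at h2
    refine ⟨w, ?_, h2⟩
    have h3 := der_sec (MvPowerSeries.pderiv k (.inl (o, a')) -
      ∑ j, w j • MvPowerSeries.pderiv k (.inr (o, j))) (Z := fun o l => Z o (F.q o l))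
      (fun o' l => der_of_lam (hZ o') (hZ1 o') (by
        cases o' with
        | none => exact h1 none
        | some i => rw [YY, lam_sub, lam_nsmul, h1, h1, smul_zero, sub_zero]) _) c
    rw [Derivation.sub_apply, estr_sum_apply, sub_eq_zero] at h3
    simpa only [Derivation.smul_apply, smul_eq_mul] using h3
  refine ⟨_, _, hf, hl, hw, fun a b => ⟨_, hu a b, ?_⟩⟩
  rw [← cc_apply]
  simp only [map_mul, map_prod, map_pow, hs, ht, mul_pow, prod_mul_distrib]
  ring

end Pool.Agent.Lib.MP_651af7_nt.Av
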