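import Pool.Agent.Lib.MP_651af7_nt.Av.ELoc
import Pool.Agent.Lib.MP_651af7_nt.Av.EGain
import Pool.Agent.Lib.MP_651af7_nt.Av.EStr

/-! Engine: the local and the global inequality for the leading form. -/

namespace Pool.Agent.Lib.MP_651af7_nt.Av

open MvPolynomial Finset AV Height
open Pool.Agent.Lib.MP_651af7_nt.Vj

/-- The logarithms of the factors by which the radii shrink. -/
def sg {m : ℕ} (j : Fin m × Bool → ℕ) (σ : Fin m → ℝ) : OO m → ℝ
  | none => 0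
  | some i => 4 ^ j i * σ i.1

variable {k ι : Type} [Field k] [NumberField k] [Fintype ι] {g m r : ℕ} {B : AV k ι}
  {ϱ : ι → MvPowerSeries (Fin g) k} {P : OO m → B.Pt k} {x : OO m → ι → k}
  {ξ : OO m → ι → MvPowerSeries (Fin r) k} {e ρ L : ℕ} {mk : Bool → Finset (Fin (g + 1))}

theorem Cfg.local_ineq (F : Cfg k ι g m) (hϱ : B.Par g ϱ) (he : 1 ≤ e)
    (hrd : ∀ o, IsRd B.I e ρ (F.u o) (F.rd o)) (hx : ∀ o, Rep (P o) (x o)) {a₀ : OO m → ι}
    (h1 : ∀ o, x o (a₀ o) = 1) (hξ0 : ∀ o a, MvPowerSeries.constantCoeff (ξ o a) = x o a)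
    (hξ : ∀ o, ∀ f ∈ B.I, aeval (ξ o) f = 0) {c : Co g F.n} {H : ℝ} (hH : 1 ≤ H)
    (hc : ∀ z τ, |(c z τ : ℝ)| ≤ H) (hV : F.Van B e ρ L mk c) {y : Fin m × Bool → ι → k}
    {f : RR k (OO m) r g} {l : k}
    (hU : ∀ a b, ∃ U, F.FF B c a (ty B ξ ϱ b) = U * f ∧ MvPowerSeries.constantCoeff U =
      l * ((∏ o, x o (b o) ^ F.dg o) * ∏ i, y i (a i) ^ (g * F.n (some i))))
    {κ : OO m × Fin r →₀ ℕ} {ν : OO m → ℕ} (hT : MinT f ν) (hX : MinX f κ ν)
    {α : OO m × Fin g →₀ ℕ} (hα : bdeg α = ν) (v : AbsoluteValue k ℝ) {s q : OO m → ℝ} {q' : ℝ}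
    {σ : Fin m → ℝ} (hs : ∀ o, Sz B v (F.u o) (F.rd o) (s o)) (hq : ∀ o a, Geo v (q o) (ξ o a))
    (hq' : ∀ a, Geo v q' (ϱ a)) (hq1 : ∀ o, 1 ≤ q o) (hq1' : 1 ≤ q') (hσ : ∀ p, 0 ≤ σ p)
    (hm : ∀ p b, ∀ l ∈ mk b, v (eval (x (some (p, b))) (F.u (some (p, b)) l)) ≤
      s (some (p, b)) * Real.exp (-σ p) ^ 4 ^ F.j (p, b) * nm v (x (some (p, b))) ^ e) :
    v l * v (MvPowerSeries.coeff (κ.sumElim α) f) * ∏ i, nm v (y i) ^ (g * F.n (some i)) ≤
      Real.exp (Real.log (E (IsNonarchimedean v) H) +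
        ∑ o, ((g + Fintype.card ι + 17) * F.dg o : ℕ) * Real.log (s o) - L * ∑ p, σ p +
        ∑ o, (bdeg κ o * (Real.log (q o) + sg F.j σ o) + ν o * (Real.log q' + sg F.j σ o))) *
      ∏ o, nm v (x o) ^ F.dg o := by
  have : Nonempty ι := ⟨B.ao⟩
  have hn1 : ∀ o, 1 ≤ nm v (x o) := fun o => by simpa [h1] using le_nm v (x o) (a₀ o)
  have hs1 : ∀ o, 1 ≤ s o := fun o => one_le_of_two (hs o).two
  have hsg : ∀ o, 0 ≤ sg F.j σ o := fun o => by
    cases o with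
    | none => exact le_rfl
    | some i => exact mul_nonneg (by positivity) (hσ _)
  obtain ⟨S, hS, h2, h3⟩ := exists_loc v hx hn1 hξ0 hϱ.const (γ := fun o => Real.exp (-sg F.j σ o))
    (fun o => (hs o).toSz₀) hq hq' hq1 hq1' (fun _ => Real.exp_pos _)
    (fun o => Real.exp_le_one_iff.2 (neg_nonpos.2 (hsg o))) κ α
  choose b hb using fun o => exists_nm v (x o)
  choose a ha using fun i => exists_nm v (y i)
  obtain ⟨U, hU1, hU2⟩ := hU a b
  have hγ : ∀ p b, Real.exp (-sg F.j σ (some (p, b))) = Real.exp (-σ p) ^ 4 ^ F.j (p, b) :=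
    fun p b => by
      rw [← Real.exp_nat_mul]
      simp [sg]
  have h4 := F.FF_gain he hS hrd hs (hϱ.ty_zero hx hξ0 hξ b)
    (Y := fun o => s o ^ 12 * nm v (x o) ^ 2)
    (fun o => one_le_mul_of_one_le_of_one_le (one_le_pow₀ (hs1 o)) (one_le_pow₀ (hn1 o)))
    (fun o => (h3 b o).1) (γ := fun p => Real.exp (-σ p)) (fun _ => (Real.exp_pos _).le)
    (fun p => Real.exp_le_one_iff.2 (neg_nonpos.2 (hσ p))) (fun p b' l hl => by
      rw [← hγ]
      exact (h3 b _).2 _ e he ((hrd _).hu l) ((hs _).u l) (by rw [hγ]; exact hm p b' l hl))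
    hH hc hV a
  have h5 := (h2 _).trans (mul_le_mul_of_nonneg_right h4 (prod_nonneg fun o _ => by
    have := hq1 o
    positivity))
  rw [hU1, coeff_mul_of_min hT hX U hα, hU2] at h5
  simp only [map_mul, map_prod, map_pow, ha, hb] at h5
  have hp : 0 < ∏ o, nm v (x o) ^ F.dg o := prod_pos fun o _ => pow_pos (by linarith [hn1 o]) _
  refine le_of_mul_le_mul_right ?_ hp
  refine le_trans (le_of_eq (by ring)) (h5.trans (le_of_eq ?_))
  have e1 : ∏ o, (s o ^ (g + Fintype.card ι + 5) * (s o ^ 12 * nm v (x o) ^ 2)) ^ F.dg o =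
      Real.exp (∑ o, ((g + Fintype.card ι + 17) * F.dg o : ℕ) * Real.log (s o)) *
        ((∏ o, nm v (x o) ^ F.dg o) * ∏ o, nm v (x o) ^ F.dg o) := by
    rw [Real.exp_sum, ← prod_mul_distrib, ← prod_mul_distrib]
    refine prod_congr rfl fun o _ => ?_
    rw [Real.exp_nat_mul, Real.exp_log (by linarith [hs1 o])]
    ring
  have e2 : ∏ p, Real.exp (-σ p) ^ L = Real.exp (-(L * ∑ p, σ p)) := by
    rw [prod_pow, ← Real.exp_sum, ← Real.exp_nat_mul, sum_neg_distrib, mul_neg]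
  have e3 : ∏ o, (q o / Real.exp (-sg F.j σ o)) ^ bdeg κ o *
      (q' / Real.exp (-sg F.j σ o)) ^ bdeg α o = Real.exp (∑ o, (bdeg κ o *
        (Real.log (q o) + sg F.j σ o) + ν o * (Real.log q' + sg F.j σ o))) := by
    rw [Real.exp_sum, hα]
    refine prod_congr rfl fun o _ => ?_
    rw [Real.exp_add, Real.exp_nat_mul, Real.exp_nat_mul, Real.exp_add, Real.exp_add,
      Real.exp_log (by linarith [hq1 o]), Real.exp_log (by linarith), Real.exp_neg, div_inv_eq_mul,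
      div_inv_eq_mul]
  rw [e1, e2, e3, Real.exp_add, sub_eq_add_neg, Real.exp_add, Real.exp_add,
    Real.exp_log (E_pos (by linarith))]
  ring

/-- The multiplicities of the gain in the radii. -/
def nn {m : ℕ} (j : Fin m × Bool → ℕ) : OO m → ℕ
  | none => 0
  | some i => 4 ^ j i

theorem Cfg.global_ineq (F : Cfg k ι g m) (hϱ : B.Par g ϱ) (he : 1 ≤ e)
    (hrd : ∀ o, IsRd B.I e ρ (F.u o) (F.rd o)) (hx : ∀ o, Rep (P o) (x o)) {a₀ : OO m → ι}
    (h1 : ∀ o, x o (a₀ o) = 1) (hξ0 : ∀ o a, MvPowerSeries.constantCoeff (ξ o a) = x o a)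
    (hξ : ∀ o, ∀ f ∈ B.I, aeval (ξ o) f = 0) {c : Co g F.n} {H : ℝ} (hH : 1 ≤ H)
    (hc : ∀ z τ, |(c z τ : ℝ)| ≤ H) (hV : F.Van B e ρ L mk c) {y : Fin m × Bool → ι → k}
    (hy : ∀ i, y i ≠ 0) {f : RR k (OO m) r g} {l : k} (hl : l ≠ 0)
    (hU : ∀ a b, ∃ U, F.FF B c a (ty B ξ ϱ b) = U * f ∧ MvPowerSeries.constantCoeff U =
      l * ((∏ o, x o (b o) ^ F.dg o) * ∏ i, y i (a i) ^ (g * F.n (some i))))
    {κ : OO m × Fin r →₀ ℕ} {ν : OO m → ℕ} (hT : MinT f ν) (hX : MinX f κ ν)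
    {Ψ : MvPolynomial (OO m × Fin g) k} (hΨ : IsLead f κ ν Ψ) (hΨ0 : Ψ ≠ 0)
    {s q : OO m → AbsoluteValue k ℝ → ℝ} {q' : AbsoluteValue k ℝ → ℝ}
    {σ : Fin m → AbsoluteValue k ℝ → ℝ} {h h' : OO m → ℝ} {C t : ℝ} (as : ∀ o, Ad (s o) (h o))
    (aq : ∀ o, Ad (q o) (h' o)) (aq' : Ad q' C) (hσ : ∀ p v, 0 ≤ σ p v) (fσ : ∀ p, FinS (σ p))
    (gσ : ∀ p, gsum (σ p) = t) (hs : ∀ o v, Sz B v (F.u o) (F.rd o) (s o v))
    (hq : ∀ o v a, Geo v (q o v) (ξ o a)) (hq' : ∀ v a, Geo v (q' v) (ϱ a))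
    (hm : ∀ p v b, ∀ l ∈ mk b, v (eval (x (some (p, b))) (F.u (some (p, b)) l)) ≤
      s (some (p, b)) v * Real.exp (-σ p v) ^ 4 ^ F.j (p, b) * nm v (x (some (p, b))) ^ e) :
    logHeight (fun α : Ψ.support => coeff α.1 Ψ) +
        ∑ i, (g * F.n (some i) : ℕ) * logHeight (y i) + L * (m * t) ≤
      totalWeight k * Real.log H +
        ∑ o, F.dg o * ((g + Fintype.card ι + 17 : ℕ) * h o + logHeight (x o)) +
        ∑ o, (bdeg κ o * (h' o + nn F.j o * t) + ν o * (C + nn F.j o * t)) := by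
  have hx0 : ∀ o, x o ≠ 0 := fun o h0 => by simpa [h0] using h1 o
  have hΨ1 : (fun α : Ψ.support => coeff α.1 Ψ) ≠ 0 := fun h0 => by
    obtain ⟨α, hα⟩ := ne_zero_iff.1 hΨ0
    exact hα (congrFun h0 ⟨α, mem_support_iff.2 hα⟩)
  have f0 : ∀ o, FinS fun v => sg F.j (fun p => σ p v) o := fun o => by
    cases o with
    | none => exact pf_finS_zero
    | some i => exact (fσ i.1).const_mul _
  have g0 : ∀ o, gsum (fun v => sg F.j (fun p => σ p v) o) = nn F.j o * t := fun o => by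
    cases o with
    | none => simpa [sg, nn] using pf_gsum_zero (K := k)
    | some i =>
      refine (gsum_const_mul (fσ i.1) _).trans ?_
      rw [gσ]
      simp [nn]
  have f1 := (ad_E (k := k) hH).fin
  have f2 := finS_sum univ fun o _ =>
    (as o).fin.const_mul ((g + Fintype.card ι + 17) * F.dg o : ℕ)
  have f3 := (finS_sum univ fun p _ => fσ p).const_mul (-L)
  have f4 := fun o => ((aq o).fin.add (f0 o)).const_mul (bdeg κ o)
  have f5 := fun o => (aq'.fin.add (f0 o)).const_mul (ν o)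
  have f6 := finS_sum univ fun o _ => (f4 o).add (f5 o)
  have key := height_ineq hΨ1 hl hx0 F.dg hy (fun i => g * F.n (some i))
    (((f1.add f2).add f3).add f6) fun v _ α => by
      have hα : bdeg α.1 = ν := funext (hΨ.deg α.1 α.2)
      have h2 := F.local_ineq hϱ he hrd hx h1 hξ0 hξ hH hc hV hU hT hX hα v (fun o => hs o v)
        (fun o => hq o v) (hq' v) (fun o => (aq o).one v) (aq'.one v) (fun p => hσ p v)
        fun p => hm p v
      rw [(hΨ α.1).1 hα]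
      simpa only [sub_eq_add_neg, neg_mul] using h2
  rw [gsum_add ((f1.add f2).add f3) f6, gsum_add (f1.add f2) f3, gsum_add f1 f2,
    gsum_sum univ (fun o _ => (as o).fin.const_mul _),
    gsum_const_mul (finS_sum univ fun p _ => fσ p), gsum_sum univ fun p _ => fσ p,
    gsum_sum univ fun o _ => (f4 o).add (f5 o)] at key
  have b1 := (ad_E (k := k) hH).le
  have b2 : ∑ o, gsum (fun v => (((g + Fintype.card ι + 17) * F.dg o : ℕ) : ℝ) *
      Real.log (s o v)) + ∑ o, F.dg o * logHeight (x o) ≤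
      ∑ o, F.dg o * ((g + Fintype.card ι + 17 : ℕ) * h o + logHeight (x o)) := by
    rw [← sum_add_distrib]
    refine sum_le_sum fun o _ => ?_
    rw [gsum_const_mul (as o).fin, Nat.cast_mul]
    have := mul_le_mul_of_nonneg_left (as o).le
      (show (0 : ℝ) ≤ (g + Fintype.card ι + 17 : ℕ) * F.dg o by positivity)
    linarith
  have b3 : ∑ o, gsum (fun v => bdeg κ o * (Real.log (q o v) + sg F.j (fun p => σ p v) o) +
      ν o * (Real.log (q' v) + sg F.j (fun p => σ p v) o)) ≤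
      ∑ o, (bdeg κ o * (h' o + nn F.j o * t) + ν o * (C + nn F.j o * t)) := by
    refine sum_le_sum fun o _ => ?_
    rw [gsum_add (f4 o) (f5 o), gsum_const_mul ((aq o).fin.add (f0 o)),
      gsum_const_mul (aq'.fin.add (f0 o)), gsum_add (aq o).fin (f0 o), gsum_add aq'.fin (f0 o), g0]
    have := (aq o).le
    have := aq'.le
    gcongr
  simp only [gσ, sum_const, card_univ, Fintype.card_fin, nsmul_eq_mul] at key
  linarith

end Pool.Agent.Lib.MP_651af7_nt.Av
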