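import Pool.Agent.Lib.MP_651af7_nt.Av.EExp
import Pool.Agent.Lib.Common.ZeroLemma.NV

/-! Engine: polynomials over a number field as integral polynomials in one more variable. -/

namespace Pool.Agent.Lib.MP_651af7_nt.Av

open MvPolynomial Finset
open Pool.Agent.Lib.Common.Subspace (IsInt len)
open Pool.Agent.Lib.Common.ZeroLemma

/-- substitution of `θ` for the new variable -/
noncomputable def envaSub {σ k : Type} [Field k] [CharZero k] (θ : k) :
    MvPolynomial (Option σ) ℚ →ₐ[ℚ] MvPolynomial σ k :=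
  aeval fun o => o.elim (C θ) X

theorem enva_mono {σ k : Type} [Field k] [CharZero k] (θ : k) (μ : σ →₀ ℕ) (l : ℕ) (z : ℤ) :
    envaSub θ (monomial (μ.optionElim l) (z : ℚ)) = monomial μ ((z : k) * θ ^ l) := by
  have h1 : (monomial (μ.optionElim l) (z : ℚ) : MvPolynomial (Option σ) ℚ) =
      X none ^ l * rename some (monomial μ (z : ℚ)) := by
    rw [rename_monomial, X_pow_eq_monomial, monomial_mul, one_mul]
    congr 2
    ext o
    cases o with
    | none => simp [Finsupp.mapDomain_of_notMem_range]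
    | some s => simp [Finsupp.mapDomain_apply (Option.some_injective σ)]
  have h2 : (envaSub θ).comp (rename some) = mapAlgHom (σ := σ) (Algebra.ofId ℚ k) :=
    MvPolynomial.algHom_ext fun s => by simp [envaSub]
  have h3 : envaSub θ (rename some (monomial μ (z : ℚ))) = monomial μ (z : k) := by
    have := DFunLike.congr_fun h2 (monomial μ (z : ℚ))
    simpa using this
  rw [h1, map_mul, map_pow, h3, mul_comm (z : k), ← C_mul_monomial, map_pow]
  simp [envaSub]

theorem enva_pderiv {σ k : Type} [Field k] [CharZero k] (θ : k) (t : σ)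
    (P : MvPolynomial (Option σ) ℚ) :
    envaSub θ (pderiv (some t) P) = pderiv t (envaSub θ P) := by
  classical
  induction P using MvPolynomial.induction_on with
  | C a =>
    rw [pderiv_C, map_zero, algHom_C, IsScalarTower.algebraMap_apply ℚ k (MvPolynomial σ k),
      algebraMap_eq, pderiv_C]
  | add P Q h1 h2 => simp only [map_add, h1, h2]
  | mul_X P o h =>
    rw [Derivation.leibniz, map_mul, Derivation.leibniz, map_add, smul_eq_mul, smul_eq_mul,
      smul_eq_mul, smul_eq_mul, map_mul, map_mul, h]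
    congr 2
    cases o with
    | none => simp [envaSub, pderiv_X]
    | some s =>
      by_cases e : s = t
      · subst e
        simp [envaSub]
      · simp [envaSub, pderiv_X, e]

theorem enva_ev {σ k R : Type} [Field k] [CharZero k] [CommRing R] [Algebra k R] {θ : k}
    (ev : MvPolynomial (Option σ) ℚ →+* R) (h : ev (X none) = algebraMap k R θ)
    (P : MvPolynomial (Option σ) ℚ) :
    ev P = aeval (fun s => ev (X (some s))) (envaSub θ P) := by
  have : ev = (aeval (fun s => ev (X (some s))) : MvPolynomial σ k →ₐ[k] R).toRingHom.comp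
      (envaSub θ).toRingHom := by
    refine MvPolynomial.ringHom_ext' (Subsingleton.elim _ _) fun o => ?_
    cases o with
    | none => simp [envaSub, h]
    | some s => simp [envaSub]
  exact congrArg (fun ψ => ψ P) this

/-- `G' = ∑ μ ∈ supp G, ∑ l, monomial (μ.optionElim l) (z μ l)` with `z` from `exists_exp`. -/
theorem exists_lift (k : Type) [Field k] [NumberField k] :
    ∃ (θ : k) (n : ℕ) (C₀ : ℝ) (mp : Polynomial ℤ), 1 ≤ C₀ ∧
      Polynomial.aeval θ mp = 0 ∧ Polynomial.aeval θ (Polynomial.derivative mp) ≠ 0 ∧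
      ∀ (σ : Type) (G : MvPolynomial σ k) (c : AbsoluteValue k ℝ → ℝ) (h : ℝ), Ad c h →
        (∀ μ v, Adm v → v (coeff μ G) ≤ c v) → ∃ (d : ℕ) (G' : MvPolynomial (Option σ) ℚ),
          0 < d ∧ IsInt G' ∧ (∀ μ ∈ G'.support, μ none ≤ n ∧ μ.some ∈ G.support) ∧
          len G' ≤ G.support.card * (C₀ * Real.exp h) ∧
          ∀ (R : Type) [CommRing R] [Algebra k R] (ev : MvPolynomial (Option σ) ℚ →+* R),
            ev (X none) = algebraMap k R θ →
            ev G' = d * aeval (fun s => ev (X (some s))) G ∧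
              ∀ t, ev (pderiv (some t) G') =
                d * aeval (fun s => ev (X (some s))) (pderiv t G) := by
  classical
  obtain ⟨θ, n, C₁, mp, h1, h2, h3, H⟩ := exists_exp k
  have hn : (0 : ℝ) ≤ n := Nat.cast_nonneg n
  refine ⟨θ, n, (n + 1) * C₁, mp, by nlinarith, h2, h3, fun σ G c h hc hG => ?_⟩
  obtain ⟨d, z, hd, hz, hb⟩ := H G.support (fun μ => coeff μ.1 G) c h hc fun μ v hv => hG μ v hv
  have hψ : envaSub θ (∑ μ : G.support, ∑ l : Fin n,
      monomial (μ.1.optionElim (l : ℕ)) (z μ l : ℚ)) = C (d : k) * G := by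
    simp only [map_sum, enva_mono]
    conv_rhs => rw [G.as_sum, Finset.mul_sum, ← Finset.sum_coe_sort]
    refine Finset.sum_congr rfl fun μ _ => ?_
    rw [← map_sum, ← hz, C_mul_monomial]
  refine ⟨d, ∑ μ : G.support, ∑ l : Fin n, monomial (μ.1.optionElim (l : ℕ)) (z μ l : ℚ), hd,
    Common.Subspace.isInt_sum _ _ fun μ _ => Common.Subspace.isInt_sum _ _ fun l _ =>
      Common.Subspace.isInt_monomial _ _, fun ν hν => ?_, ?_, fun R _ _ ev hev => ⟨?_, fun t => ?_⟩⟩
  · obtain ⟨μ, -, h4⟩ := Finset.mem_biUnion.1 (support_sum hν)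
    obtain ⟨l, -, h5⟩ := Finset.mem_biUnion.1 (support_sum h4)
    rw [Finset.mem_singleton.1 (support_monomial_subset h5), Finsupp.optionElim_apply_none,
      Finsupp.some_optionElim]
    exact ⟨l.2.le, μ.2⟩
  · refine (Common.Subspace.nrm_sum_le (fun _ => zero_le_one) _ _).trans ?_
    refine (Finset.sum_le_card_nsmul _ _ ((n + 1) * C₁ * Real.exp h) fun μ _ => ?_).trans ?_
    · refine (Common.Subspace.nrm_sum_le (fun _ => zero_le_one) _ _).trans ?_
      refine (Finset.sum_le_card_nsmul _ _ (C₁ * Real.exp h) fun l _ => ?_).trans ?_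
      · rw [Common.Subspace.nrm_monomial]
        simpa [Finsupp.prod, Rat.AbsoluteValue.real_eq_abs] using hb μ l
      · have h4 : 0 ≤ C₁ * Real.exp h := mul_nonneg (by linarith) (Real.exp_pos h).le
        rw [Finset.card_univ, Fintype.card_fin, nsmul_eq_mul]
        nlinarith
    · simp
  · rw [enva_ev ev hev, hψ, map_mul, algHom_C, map_natCast]
  · rw [enva_ev ev hev, enva_pderiv, hψ, pderiv_C_mul, map_mul, algHom_C, map_natCast]

/-- `ZeroLemma.nonvanishing` with the embedding quantified after the constants (same proof). -/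
theorem nonvanishing' {σ τ ι : Type} (K : Type) [Fintype τ] [Field K] [CharZero K] (blk : τ → ι)
    (B₀ k : ℕ) (θ : ℝ) (hθ : 0 < θ) :
    ∃ (B : ℕ) (η : ℝ), 0 < η ∧ ∀ (e : τ → σ), Function.Injective e →
      ∀ (ε : ℝ) (w : σ → ℝ), 0 < ε → (∀ a, 1 ≤ ε * w a) →
      (∀ a b, blk a = blk b → w (e a) = w (e b)) →
      (∀ a b, blk a ≠ blk b → w (e a) ≤ η * w (e b) ∨ w (e b) ≤ η * w (e a)) →
      ∀ (ξ : τ → K) (ev : MvPolynomial σ ℚ →+* MvPowerSeries τ K),
      (∀ a, ev (X (e a)) = MvPowerSeries.C (ξ a) + MvPowerSeries.X a) →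
      ∀ (l : List σ) (φ : σ → MvPolynomial σ ℚ), l.length ≤ k → (∀ s, s ∈ l ∨ s ∈ Set.range e) →
      (l.Pairwise fun a b => ∀ μ ∈ (φ b).support, μ a = 0) →
      (∀ t ∈ l, Rel ev w ε B₀ t (φ t)) →
      ∀ (D : ℝ), 1 ≤ ε * D → ∀ G : MvPolynomial σ ℚ, Common.ZeroLemma.Sm w ε D G → ev G ≠ 0 →
      (∃ κ : τ →₀ ℕ, Finsupp.weight (fun a => w (e a)) κ < θ * D ∧
        MvPowerSeries.coeff κ (ev G) ≠ 0) ∨
      ∃ (a : τ) (g : MvPolynomial τ ℚ), Irreducible g ∧ IsInt g ∧
        (∀ μ ∈ g.support, ∀ b, (blk b ≠ blk a → μ b = 0) ∧ μ b ≤ B) ∧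
        len g ≤ Real.exp (B * ε * w (e a)) ∧ aeval ξ g = 0 := by
  classical
  have hc : (1 : ℝ) ≤ 3 * ((B₀ + 1 : ℕ) : ℝ) := by
    push_cast
    linarith [Nat.cast_nonneg (α := ℝ) B₀]
  have hck : (0 : ℝ) < (3 * ((B₀ + 1 : ℕ) : ℝ)) ^ k := by positivity
  obtain ⟨B, η, hη, H⟩ := zero_lemma blk K (θ / (3 * ((B₀ + 1 : ℕ) : ℝ)) ^ k) (by positivity)
  refine ⟨B, η, hη, ?_⟩
  intro e he ε w hε hw hb1 hb2 ξ ev hev l φ hk hcov hl hφ D hD G hG h0
  have hw0 : ∀ a, 0 ≤ w a := fun a => ((mul_pos_iff_of_pos_left hε).1 (by linarith [hw a])).le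
  have hD0 : 0 < D := (mul_pos_iff_of_pos_left hε).1 (by linarith)
  have : IsDomain (MvPowerSeries τ K) := NoZeroDivisors.to_isDomain _
  obtain ⟨N, h1, h2, h3, h4, -⟩ := elim_list hw0 hε (Nat.le_add_left 1 B₀) φ l
    hl (fun t ht => ⟨(hφ t ht).int, fun μ hμ s => ((hφ t ht).deg μ hμ s).trans (Nat.le_succ _),
      (hφ t ht).blk, (hφ t ht).len, (hφ t ht).zero, (hφ t ht).sep⟩) hD hG h0
  obtain ⟨P, rfl⟩ := exists_rename_eq_of_vars_subset_range N e he (by
    intro s hs
    rcases hcov s with h | h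
    · obtain ⟨μ, hμ, h5⟩ := (mem_vars_iff_mem_support s).1 (Finset.mem_coe.1 hs)
      exact absurd (h4 s h μ hμ) (Finsupp.mem_support_iff.1 h5)
    · exact h)
  have h5 := (nv_rename he h1).mono hε.le (D' := (3 * ((B₀ + 1 : ℕ) : ℝ)) ^ k * D)
    (mul_le_mul_of_nonneg_right (pow_le_pow_right₀ hc hk) hD0.le)
  have h6 : ev (rename e P) =
      ((aeval (fun a => X a + C (ξ a)) P : MvPolynomial τ K) : MvPowerSeries τ K) := by
    have : ev.comp (rename e : MvPolynomial τ ℚ →ₐ[ℚ] MvPolynomial σ ℚ).toRingHom =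
        (coeToMvPowerSeries.ringHom).comp
          (aeval (fun a => X a + C (ξ a)) : MvPolynomial τ ℚ →ₐ[ℚ] MvPolynomial τ K).toRingHom := by
      refine MvPolynomial.ringHom_ext' (Subsingleton.elim _ _) fun a => ?_
      simp [hev, add_comm]
    have h7 := congrArg (fun ψ => ψ P) this
    exact h7
  by_cases hcase : ∃ κ : τ →₀ ℕ, Finsupp.weight (fun a => w (e a)) κ < θ * D ∧
      MvPowerSeries.coeff κ (ev G) ≠ 0
  · exact Or.inl hcase
  push Not at hcase
  refine Or.inr (H ε (fun a => w (e a)) (fun a => hw _) hε hb1 hb2 ξ _ (by positivity) P ?_ h5.int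
    h5.deg h5.len ?_)
  · rintro rfl
    exact h2 (by simp)
  · intro μ hμ
    rw [← mul_assoc, div_mul_cancel₀ _ hck.ne']
    by_contra hlt
    push Not at hlt
    obtain ⟨u, hu⟩ := h3
    have h7 : MvPowerSeries.coeff μ (ev (rename e P)) = 0 := by
      rw [hu, MvPowerSeries.coeff_mul]
      refine Finset.sum_eq_zero fun q hq => ?_
      rw [hcase q.1 ?_, zero_mul]
      rw [← Finset.HasAntidiagonal.mem_antidiagonal.1 hq, map_add] at hlt
      have h8 : 0 ≤ Finsupp.weight (fun a => w (e a)) q.2 := by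
        rw [Finsupp.weight_apply]
        exact Finset.sum_nonneg fun s _ => nsmul_nonneg (hw0 _) _
      linarith
    rw [h6, coeff_coe] at h7
    exact mem_support_iff.1 hμ h7

end Pool.Agent.Lib.MP_651af7_nt.Av
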