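import Pool.Agent.Lib.MP_651af7_nt.Av.Voc
import Pool.Agent.Lib.MP_651af7_nt.Vj.PF

/-! Engine: submultiplicative seminorms. -/

namespace Pool.Agent.Lib.MP_651af7_nt.Av

open Finset

/-- A submultiplicative seminorm, ultrametric if `na` holds. -/
structure SN (R : Type) [CommRing R] (na : Prop) where
  /-- the seminorm -/
  N : R → ℝ
  nonneg : ∀ f, 0 ≤ N f
  zero : N 0 = 0
  one : N 1 ≤ 1
  neg : ∀ f, N (-f) = N f
  mul : ∀ f g, N (f * g) ≤ N f * N g
  add : ∀ f g, N (f + g) ≤ N f + N g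
  add_na : na → ∀ f g, N (f + g) ≤ max (N f) (N g)

section E

variable {na : Prop}

lemma E_pos_case (h : na) (t : ℝ) : E na t = 1 := if_pos h

lemma E_neg_case (h : ¬na) (t : ℝ) : E na t = t := if_neg h

lemma E_one : E na 1 = 1 := by unfold E; split_ifs <;> rfl

lemma E_mul (s t : ℝ) : E na (s * t) = E na s * E na t := by unfold E; split_ifs <;> simp

lemma E_pow (t : ℝ) (n : ℕ) : E na (t ^ n) = E na t ^ n := by unfold E; split_ifs <;> simp

lemma E_prod {ι : Type*} (s : Finset ι) (t : ι → ℝ) :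
    E na (∏ i ∈ s, t i) = ∏ i ∈ s, E na (t i) := by unfold E; split_ifs <;> simp

lemma E_nonneg {t : ℝ} (h : 0 ≤ t) : 0 ≤ E na t := by unfold E; split_ifs <;> simp [h]

lemma E_pos {t : ℝ} (h : 0 < t) : 0 < E na t := by unfold E; split_ifs <;> simp [h]

lemma one_le_E {t : ℝ} (h : 1 ≤ t) : 1 ≤ E na t := by unfold E; split_ifs <;> simp [h]

lemma E_le_self {t : ℝ} (h : 1 ≤ t) : E na t ≤ t := by unfold E; split_ifs <;> simp [h]

lemma E_mono {s t : ℝ} (h : s ≤ t) : E na s ≤ E na t := by unfold E; split_ifs <;> simp [h]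

end E

namespace SN

variable {R : Type} [CommRing R] {na : Prop} (S : SN R na)

lemma mul_le {f g : R} {s t : ℝ} (hf : S.N f ≤ s) (hg : S.N g ≤ t) : S.N (f * g) ≤ s * t :=
  (S.mul f g).trans (mul_le_mul hf hg (S.nonneg _) ((S.nonneg _).trans hf))

lemma pow_le {f : R} {s : ℝ} (hf : S.N f ≤ s) (n : ℕ) : S.N (f ^ n) ≤ s ^ n := by
  induction n with
  | zero => simpa using S.one
  | succ n ih => rw [pow_succ, pow_succ]; exact S.mul_le ih hf

lemma prod_le {ι : Type*} (s : Finset ι) {f : ι → R} {t : ι → ℝ} (h : ∀ i ∈ s, S.N (f i) ≤ t i) :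
    S.N (∏ i ∈ s, f i) ≤ ∏ i ∈ s, t i := by
  classical
  induction s using Finset.induction_on with
  | empty => simpa using S.one
  | insert i s hi ih =>
    rw [prod_insert hi, prod_insert hi]
    exact S.mul_le (h i (mem_insert_self _ _)) (ih fun k hk => h k (mem_insert_of_mem hk))

lemma add_le {f g : R} {s t M : ℝ} (hf : S.N f ≤ E na s * M) (hg : S.N g ≤ E na t * M) :
    S.N (f + g) ≤ E na (s + t) * M := by
  by_cases h : na
  · simp only [E_pos_case h, one_mul] at *
    exact (S.add_na h f g).trans (max_le hf hg)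
  · simp only [E_neg_case h] at *
    linarith [S.add f g]

lemma sub_le {f g : R} {s t M : ℝ} (hf : S.N f ≤ E na s * M) (hg : S.N g ≤ E na t * M) :
    S.N (f - g) ≤ E na (s + t) * M := by
  rw [sub_eq_add_neg]
  exact S.add_le hf (by rwa [S.neg])

lemma sum_le {ι : Type*} (s : Finset ι) {f : ι → R} {t : ι → ℝ} {M : ℝ} (hM : 0 ≤ M)
    (h : ∀ i ∈ s, S.N (f i) ≤ E na (t i) * M) :
    S.N (∑ i ∈ s, f i) ≤ E na (∑ i ∈ s, t i) * M := by
  classical
  induction s using Finset.induction_on with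
  | empty => simpa [S.zero] using mul_nonneg (E_nonneg le_rfl) hM
  | insert i s hi ih =>
    rw [sum_insert hi, sum_insert hi]
    exact S.add_le (h i (mem_insert_self _ _)) (ih fun k hk => h k (mem_insert_of_mem hk))

lemma sum_le_card {ι : Type*} (s : Finset ι) {f : ι → R} {M : ℝ} (hM : 0 ≤ M)
    (h : ∀ i ∈ s, S.N (f i) ≤ M) : S.N (∑ i ∈ s, f i) ≤ E na s.card * M := by
  have := S.sum_le s (t := fun _ => 1) hM (fun i hi => by simpa [E_one] using h i hi)
  simpa using this

lemma natCast_le (n : ℕ) : S.N (n : R) ≤ E na n := by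
  have := S.sum_le_card (range n) (f := fun _ => 1) zero_le_one fun _ _ => S.one
  simpa using this

lemma intCast_le (n : ℤ) : S.N (n : R) ≤ E na |(n : ℝ)| := by
  obtain ⟨k, rfl | rfl⟩ := n.eq_nat_or_neg
  · simpa using S.natCast_le k
  · simpa [S.neg] using S.natCast_le k

lemma int_mul_le (n : ℤ) {f : R} {M : ℝ} (hf : S.N f ≤ M) :
    S.N ((n : R) * f) ≤ E na |(n : ℝ)| * M := S.mul_le (S.intCast_le n) hf

/-- Integer combinations. -/
lemma int_sum_le {ι : Type*} (s : Finset ι) (n : ι → ℤ) {f : ι → R} {M : ℝ} (hM : 0 ≤ M)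
    (h : ∀ i ∈ s, n i ≠ 0 → S.N (f i) ≤ M) :
    S.N (∑ i ∈ s, (n i : R) * f i) ≤ E na (∑ i ∈ s, |(n i : ℝ)|) * M := by
  refine S.sum_le s hM fun i hi => ?_
  by_cases h0 : n i = 0
  · simpa [h0, S.zero] using mul_nonneg (E_nonneg le_rfl) hM
  · exact S.int_mul_le _ (h i hi h0)

end SN


/-- An absolute value as a seminorm. -/
def absSN {k : Type} [Field k] (v : AbsoluteValue k ℝ) : SN k (IsNonarchimedean v) :=
  ⟨v, v.nonneg, v.map_zero, v.map_one.le, v.map_neg, fun f g => (v.map_mul f g).le, v.add_le,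
    fun h f g => h f g⟩

/-- The seminorm lies over the absolute value `v` of the ground field. -/
def SN.Ov {k R : Type} [Field k] [CommRing R] [Algebra k R] {na : Prop} (S : SN R na)
    (v : AbsoluteValue k ℝ) : Prop := ∀ c, S.N (algebraMap k R c) ≤ v c

theorem absSN_ov {k : Type} [Field k] (v : AbsoluteValue k ℝ) : (absSN v).Ov v := fun _ => le_rfl

theorem one_le_of_two {na : Prop} {s : ℝ} (h : E na 2 ≤ s) : 1 ≤ s := (one_le_E one_le_two).trans h

theorem E_le_pow {na : Prop} {s t : ℝ} {n : ℕ} (h : E na 2 ≤ s) (ht : t ≤ 2 ^ n) :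
    E na t ≤ s ^ n :=
  (E_mono ht).trans (by rw [E_pow]; exact pow_le_pow_left₀ (E_nonneg zero_le_two) h n)

/-- Gains in the arms multiply. -/
theorem SN.multi {R : Type} [CommRing R] {na : Prop} (S : SN R na) {m : ℕ} {T L : Fin m → Type}
    [∀ i, Fintype (T i)] (e : ∀ i, T i → R) (J : ∀ i, L i → T i → R) (γ : Fin m → ℝ)
    (hγ : ∀ i, 0 ≤ γ i)
    (hb : ∀ i (h : T i → R) (H : ℝ), 0 ≤ H → (∀ t, S.N (h t) ≤ H) →
      (∀ n, ∑ t, h t * J i n t = 0) → S.N (∑ t, h t * e i t) ≤ γ i * H)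
    (c : (∀ i, T i) → R) (H : ℝ) (hH : 0 ≤ H) (hc : ∀ τ, S.N (c τ) ≤ H)
    (hJ : ∀ i n τ, ∑ t, c (Function.update τ i t) * J i n t = 0) :
    S.N (∑ τ, c τ * ∏ i, e i (τ i)) ≤ (∏ i, γ i) * H := by
  induction m generalizing H with
  | zero => simpa using hc _
  | succ m ih =>
    rw [← (Fin.consEquiv T).sum_comp, Fintype.sum_prod_type, sum_comm, Fin.prod_univ_succ,
      mul_comm (γ 0), mul_assoc]
    have key := ih (fun i => e i.succ) (fun i => J i.succ) (fun i => γ i.succ) (fun i => hγ _)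
      (fun i => hb i.succ) (fun τ' => ∑ t, c (Fin.cons t τ') * e 0 t) (γ 0 * H)
      (mul_nonneg (hγ 0) hH) ?_ ?_
    · convert key using 3 with τ'
      rw [sum_mul]
      refine sum_congr rfl fun t _ => ?_
      simp [Fin.consEquiv, Fin.prod_univ_succ, mul_assoc]
    · intro τ'
      refine hb 0 (fun t => c (Fin.cons t τ')) H hH (fun t => hc _) fun n => ?_
      cases isEmpty_or_nonempty (T 0) with
      | inl h => simp
      | inr h =>
        obtain ⟨t₀⟩ := h
        simpa [Fin.update_cons_zero] using hJ 0 n (Fin.cons t₀ τ')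
    · intro i n τ'
      simp only [sum_mul]
      rw [sum_comm]
      refine sum_eq_zero fun s _ => ?_
      have := hJ i.succ n (Fin.cons s τ')
      simp only [← Fin.cons_update] at this
      calc _ = (∑ t, c (Fin.cons s (Function.update τ' i t)) * J i.succ n t) * e 0 s := by
            rw [sum_mul]
            exact sum_congr rfl fun t _ => by ring
        _ = 0 := by rw [this, zero_mul]

end Pool.Agent.Lib.MP_651af7_nt.Av
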