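import Pool.Agent.Lib.MP_651af7_nt.Av.GeoA2
import Pool.Agent.Lib.MP_651af7_nt.Av.GeoA3

/-! The subgroup generated by a locus. -/

namespace Pool.Agent.Lib.MP_651af7_nt.Av.AV

open MvPolynomial

variable {k ι K E : Type} [Field k] [CharZero k] [Fintype ι] [Field K] [Field E] [Algebra k K]
  [Algebra k E] [Algebra K E] [IsScalarTower k K E]

theorem mem_range_of_fixed {L : Type} [Field L] [Algebra k L] [Algebra K L] [IsScalarTower k K L]
    [IsGalois K L] (hK : RelCl k K) {c : L} (h1 : ∀ D : Derivation k L L, D c = 0)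
    (h2 : ∀ σ : L ≃ₐ[K] L, σ c = c) : c ∈ Set.range (algebraMap k L) := by
  obtain ⟨b, rfl⟩ := (InfiniteGalois.mem_range_algebraMap_iff_fixed c).2 h2
  have h3 : IsAlgebraic k (algebraMap K L b) := by
    by_contra hn
    obtain ⟨D, hD⟩ := exists_derivation (K := k) (t := fun _ : Unit => algebraMap K L b)
      (algebraicIndependent_unique_type_iff.2 hn) fun _ => 1
    exact one_ne_zero ((hD ()).symm.trans (h1 D))
  obtain ⟨a, rfl⟩ := hK b ((isAlgebraic_algebraMap_iff (algebraMap K L).injective).1 h3)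
  exact ⟨a, IsScalarTower.algebraMap_apply ..⟩

section

variable {L : Type} [Field L] [Algebra k L] [Algebra K L] [IsScalarTower k K L] [IsGalois K L]
  [IsAlgClosed L] [CharZero K] [CharZero L] {A : AV k ι} {x : A.Pt E} {X : Xt k K L}
  {z : A.Pt X.F} (hz : Gd x X z)
  (hm : ∀ (Y : Xt k K L) (w : A.Pt Y.F), Gd x Y w → td L (rat w.co) ≤ td L (rat z.co))
include hz hm

omit [CharZero K] in
theorem exists_model (hK : RelCl k K) : ∃ B : AV k ι, Sub A B ∧ B.IK L = idl L z.co := by
  let S : AddSubgroup (A.Pt L) :=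
    { carrier := {p | Spec L z.co p.co}
      zero_mem' := hz.2
      neg_mem' := fun {p} hp => by simpa using hz.spec_sub hm hz.2 hp
      add_mem' := fun {p q} hp hq => by
        simpa using hz.spec_sub hm hp (hz.spec_sub hm hz.2 hq) }
  have hle : ∀ P ∈ A.I, MvPolynomial.map (algebraMap k L) P ∈ idl L z.co := fun P hP =>
    mem_idl.2 fun d => by
      rw [homogeneousComponent_map, aeval_map_algebraMap]
      exact (rep_co z).zero _ (A.hom P hP d)
  have hid : (MvPolynomial.map (algebraMap L L) : MvPolynomial ι L →+* _) = RingHom.id _ :=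
    RingHom.ext MvPolynomial.map_id
  obtain ⟨S₁, e₁⟩ := exists_subData A (K := L) L (idl L z.co) (idl_hom _)
    (by rw [hid, Ideal.map_id]; exact idl_prime _ _) hle S fun p => spec_iff_idl
  have hJ := descent (k := k) (idl L z.co)
    (Set.range (fun D : Derivation k L L => D.toLinearMap.toAddMonoidHom) ∪
      Set.range fun σ : L ≃ₐ[K] L => σ.toAddEquiv.toAddMonoidHom - AddMonoidHom.id L)
    (by rintro _ (⟨D, rfl⟩ | ⟨σ, rfl⟩) <;> simp)
    (by
      rintro _ (⟨D, rfl⟩ | ⟨σ, rfl⟩) P hP
      · rw [← e₁] at hP ⊢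
        exact rigid S₁.sub_av D P hP
      · convert sub_mem (hz.map_mem hm (σ : L →ₐ[K] L) hP) hP using 1
        ext m
        simp [coeff_cfm, coeff_map])
    fun c hc => mem_range_of_fixed hK (fun D => hc _ (.inl ⟨D, rfl⟩))
      fun σ => sub_eq_zero.1 (hc _ (.inr ⟨σ, rfl⟩))
  obtain ⟨J, h1, h2⟩ : ∃ J : Ideal (MvPolynomial ι k),
      (∀ P, P ∈ J ↔ MvPolynomial.map (algebraMap k L) P ∈ idl L z.co) ∧
      J.map (MvPolynomial.map (algebraMap k L)) = idl L z.co := ⟨_, fun _ => Iff.rfl, hJ⟩
  have h3 : (J.map (MvPolynomial.map (algebraMap k L))).IsPrime := h2.symm ▸ idl_prime L z.co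
  obtain ⟨S₀, e₀⟩ := exists_subData A (K := k) L J
    (fun P hP d => by
      rw [h1, ← homogeneousComponent_map]
      exact idl_hom _ _ ((h1 P).1 hP) d) h3
    (fun P hP => by
      rw [Algebra.algebraMap_self, MvPolynomial.map_id, h1]
      exact hle P hP) S fun p => spec_iff_idl.trans ⟨fun h P hP => by
        rw [← aeval_map_algebraMap L]
        exact h _ ((h1 P).1 hP), fun h => by
        rw [← h2]
        exact aeval_of_mem_map h⟩
  exact ⟨S₀.av, S₀.sub_av, by rw [IK, S₀.av_I, e₀, h2]⟩

theorem exists_sub_aux (hK : RelCl k K) (hE : RelCl K E) :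
    ∃ (B : AV k ι) (h : Sub A B) (D : ℕ) (s : A.Pt K), 0 < D ∧
      D • x - A.map (IsScalarTower.toAlgHom k K E) s ∈ (h.inc E).range ∧
      ∀ (a : A.Pt K) (y : B.Pt E), h.inc E y = x - A.map (IsScalarTower.toAlgHom k K E) a →
        B.Gens K y := by
  obtain ⟨B, h, hJ⟩ := exists_model hz hm hK
  have kill : ∀ {M : Type} [Field M] [Algebra k M] [Algebra L M] [IsScalarTower k L M]
      (w : ι → M), Spec L z.co w → ∀ P ∈ B.I, aeval w P = 0 := by
    intro M _ _ _ _ w h P hP
    rw [← aeval_map_algebraMap L]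
    refine spec_iff_idl.1 h _ ?_
    rw [← hJ]
    exact Ideal.mem_map_of_mem _ hP
  obtain ⟨T, s, hT, h1, h2⟩ := exists_trace (K := K) (L := L) x
  refine ⟨B, h, T.card, s, hT.card_pos, ?_, fun a y hy => ?_⟩
  · obtain ⟨Y, i, i', -⟩ := Xt.joinK hE ({ F := L } : Xt k K L)
    have h3 : ∑ y ∈ T, (A.map (i.restrictScalars k) x - A.map (i'.restrictScalars k) y) ∈
        (h.inc Y.F).range := sum_mem fun y hy => by
      rw [← neg_sub, neg_mem_iff, h.mem_range_inc (rep_co _)]
      refine kill _ (hz.spec_diff hm hE i ((h1 y hy).trans ?_))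
      exact (spec_map (i'.restrictScalars K) y).1
    have h4 : A.map (i'.restrictScalars k) (A.map (IsScalarTower.toAlgHom k K L) s) =
        A.map (i.restrictScalars k) (A.map (IsScalarTower.toAlgHom k K E) s) := by
      rw [AV.map_map, AV.map_map]
      congr 2
      exact AlgHom.ext fun c => ((i'.restrictScalars K).commutes c).trans (i.commutes c).symm
    rw [Finset.sum_sub_distrib, Finset.sum_const, ← map_sum, ← h2, h4, ← map_nsmul, ← map_sub,
      h.mem_range_inc ((rep_co _).map _)] at h3
    refine (h.mem_range_inc (rep_co _)).2 fun P hP => i.toRingHom.injective ?_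
    rw [map_zero]
    exact (aeval_hom (i.restrictScalars k) _ P).symm.trans (h3 P hP)
  · obtain ⟨N, i, i', e⟩ := Df.exists_sum hz.1
    refine ⟨X.F, inferInstance, inferInstance, inferInstance, inferInstance, N, i, i',
      fun f n hf h3 => ?_⟩
    have h4 : h.inc X.F (∑ l, (B.map ((i l).restrictScalars k) y -
        B.map ((i' l).restrictScalars k) y)) = z := by
      rw [e, map_sum]
      refine Finset.sum_congr rfl fun l _ => ?_
      have h5 : A.map ((i l).restrictScalars k) (A.map (IsScalarTower.toAlgHom k K E) a) =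
          A.map ((i' l).restrictScalars k) (A.map (IsScalarTower.toAlgHom k K E) a) := by
        rw [AV.map_map, AV.map_map]
        congr 2
        exact AlgHom.ext fun c => ((i l).commutes c).trans ((i' l).commutes c).symm
      rw [map_sub, h.inc_map, h.inc_map, hy, map_sub, map_sub]
      exact (congrArg (fun t => _ - t - _) h5).trans (sub_sub_sub_cancel_right _ _ _)
    have h5 := ((h.rep_inc (rep_co _)).hom_iff (rep_co _) hf).2 h3
    rw [h4] at h5
    refine mem_of_map_mem (R := L) ?_
    rw [IK, map_map_ideal, ← IK, hJ, mem_idl_hom (hf.map _), aeval_map_algebraMap]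
    exact h5

end

/-- G1. The subgroup generated by the differences of the points of the locus of `x` over `K` is
defined over `k`. -/
theorem exists_sub (A : AV k ι) (hK : RelCl k K) (hE : RelCl K E) (x : A.Pt E) :
    ∃ (B : AV k ι) (h : Sub A B) (D : ℕ) (s : A.Pt K), 0 < D ∧
      D • x - A.map (IsScalarTower.toAlgHom k K E) s ∈ (h.inc E).range ∧
      ∀ (a : A.Pt K) (y : B.Pt E), h.inc E y = x - A.map (IsScalarTower.toAlgHom k K E) a →
        B.Gens K y := by
  have : CharZero K := charZero_of_injective_algebraMap (algebraMap k K).injective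
  obtain ⟨X, z, hz, hm⟩ := exists_max (K := K) (AlgebraicClosure K) x
  exact exists_sub_aux hz hm hK hE

end Pool.Agent.Lib.MP_651af7_nt.Av.AV
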