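import Pool.Agent.Lib.MP_651af7_nt.Av.Tr

/-! Specialisations of points. -/

namespace Pool.Agent.Lib.MP_651af7_nt.Av

open MvPolynomial AV

variable {k ι : Type} [Field k]

/-- Every form over `L` that vanishes at `w` vanishes at `w'`. -/
def Spec (L : Type) {M M' : Type} [Field L] [CommRing M] [CommRing M'] [Algebra L M] [Algebra L M']
    (w : ι → M) (w' : ι → M') : Prop :=
  ∀ (f : MvPolynomial ι L) (n : ℕ), f.IsHomogeneous n → aeval w f = 0 → aeval w' f = 0

/-- A subring of `M` with a homomorphism to `M'`. -/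
structure Cor (L M M' : Type) [Field L] [Field M] [Field M'] [Algebra L M] [Algebra L M'] where
  /-- the ring -/
  R : Type
  [cr : CommRing R]
  [al : Algebra L R]
  /-- the inclusion -/
  j : R →ₐ[L] M
  inj : Function.Injective j
  /-- the specialisation -/
  π : R →ₐ[L] M'

attribute [instance] Cor.cr Cor.al

section spec

variable {L M M' M'' : Type} [Field L] [Field M] [Field M'] [Field M''] [Algebra L M]
  [Algebra L M'] [Algebra L M'']

theorem Spec.trans {w : ι → M} {w' : ι → M'} {w'' : ι → M''} (h : Spec L w w')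
    (h' : Spec L w' w'') : Spec L w w'' := fun f n hf e => h' f n hf (h f n hf e)

theorem hom_smul_iff {f : MvPolynomial ι L} {n : ℕ} (hf : f.IsHomogeneous n) {c : M} (hc : c ≠ 0)
    (w : ι → M) : aeval (fun a => c * w a) f = 0 ↔ aeval w f = 0 := by
  rw [aeval_mul_of_hom hf, mul_eq_zero, or_iff_right (pow_ne_zero _ hc)]

/-- From forms to polynomials, after normalising one coordinate. -/
theorem Spec.affine {w : ι → M} {w' : ι → M'} (h : Spec L w w') {a : ι} (ha : w a = 1)
    (ha' : w' a = 1) (f : MvPolynomial ι L) (e : aeval w f = 0) : aeval w' f = 0 := by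
  let F : MvPolynomial ι L := ∑ d ∈ Finset.range (f.totalDegree + 1),
    X a ^ (f.totalDegree - d) * homogeneousComponent d f
  have hF : F.IsHomogeneous f.totalDegree := IsHomogeneous.sum _ _ _ fun d hd => by
    have := (isHomogeneous_X_pow (R := L) a (f.totalDegree - d)).mul
      (homogeneousComponent_isHomogeneous d f)
    rwa [Nat.sub_add_cancel (Nat.lt_succ_iff.1 (Finset.mem_range.1 hd))] at this
  have key : ∀ {N : Type} [Field N] [Algebra L N] (v : ι → N), v a = 1 → aeval v F = aeval v f := by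
    intro N _ _ v hv
    conv_rhs => rw [← sum_homogeneousComponent f]
    simp [F, hv]
  rw [← key w' ha']
  exact h F _ hF ((key w ha).trans e)

theorem exists_cor_vec {v : ι → M} {w : ι → M'}
    (h : ∀ f : MvPolynomial ι L, aeval v f = 0 → aeval w f = 0) :
    ∃ (c : Cor L M M') (y : ι → c.R), (∀ a, c.j (y a) = v a) ∧ ∀ a, c.π (y a) = w a := by
  let φ : MvPolynomial ι L →ₐ[L] M := aeval v
  let ψ : MvPolynomial ι L →ₐ[L] M' := aeval w
  have hs : Function.Surjective φ.rangeRestrict := φ.rangeRestrict_surjective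
  have hk : RingHom.ker φ.rangeRestrict.toRingHom ≤ RingHom.ker ψ.toRingHom := fun f hf =>
    h f (congrArg Subtype.val hf)
  refine ⟨⟨φ.range, φ.range.val, Subtype.val_injective,
    AlgHom.liftOfSurjective φ.rangeRestrict hs ψ hk⟩, fun a => φ.rangeRestrict (X a),
    fun a => aeval_X v a, fun a => ?_⟩
  exact (AlgHom.liftOfSurjective_apply φ.rangeRestrict hs ψ hk (X a)).trans (aeval_X w a)

variable {A : AV k ι} [Algebra k M] [Algebra k M'] [Algebra k M'']

theorem AV.Rep.hom_iff {p : A.Pt M} {v w : ι → M} (hv : Rep p v) (hw : Rep p w)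
    {f : MvPolynomial ι L} {n : ℕ} (hf : f.IsHomogeneous n) : aeval w f = 0 ↔ aeval v f = 0 := by
  obtain ⟨u, hu⟩ := hv.exists_smul hw
  obtain rfl : w = fun a => u * v a := funext hu
  exact hom_smul_iff hf u.ne_zero v

theorem AV.Rep.exists_norm {p : A.Pt M} {a : ι} (ha : p.co a ≠ 0) : ∃ v, Rep p v ∧ v a = 1 :=
  ⟨_, (rep_co p).smul (IsUnit.mk0 _ (inv_ne_zero ha)), inv_mul_cancel₀ ha⟩

theorem spec_of_rep {p : A.Pt M} {q : A.Pt M'} {v : ι → M} {w : ι → M'} (hv : Rep p v)
    (hw : Rep q w) (h : Spec L v w) : Spec L p.co q.co := fun f n hf e =>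
  (hw.hom_iff (rep_co q) hf).2 (h f n hf (((rep_co p).hom_iff hv hf).2 e))

theorem Spec.rep {p : A.Pt M} {q : A.Pt M'} {v : ι → M} {w : ι → M'} (h : Spec L p.co q.co)
    (hv : Rep p v) (hw : Rep q w) : Spec L v w := fun f n hf e =>
  ((rep_co q).hom_iff hw hf).2 (h f n hf ((hv.hom_iff (rep_co p) hf).2 e))

/-- `q` is the specialisation of `p`. -/
def Cor.Rel (c : Cor L M M') (p : A.Pt M) (q : A.Pt M') : Prop :=
  ∃ v : ι → c.R, Rep p (fun a => c.j (v a)) ∧ Rep q fun a => c.π (v a)

theorem Cor.Rel.spec {c : Cor L M M'} {p : A.Pt M} {q : A.Pt M'} (h : c.Rel p q) :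
    Spec L p.co q.co := by
  obtain ⟨v, h1, h2⟩ := h
  refine spec_of_rep h1 h2 fun f n _ e => ?_
  rw [aeval_hom, map_eq_zero_iff _ c.inj] at e
  rw [aeval_hom, e, map_zero]

theorem Spec.exists_cor {p : A.Pt M} {q : A.Pt M'} (h : Spec L p.co q.co) :
    ∃ c : Cor L M M', c.Rel p q := by
  obtain ⟨a, ha⟩ := (rep_co q).unit
  have ha' : p.co a ≠ 0 := fun e => ha.ne_zero (by
    simpa using h (X a) 1 (isHomogeneous_X L a) (by simpa using e))
  obtain ⟨v, hv, e⟩ := Rep.exists_norm ha'
  obtain ⟨w, hw, e'⟩ := Rep.exists_norm ha.ne_zero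
  have key := (h.rep hv hw).affine e e'
  obtain ⟨c, y, h1, h2⟩ := exists_cor_vec key
  exact ⟨c, y, by simpa only [h1] using hv, by simpa only [h2] using hw⟩

variable [Algebra k L] [IsScalarTower k L M] [IsScalarTower k L M'] [IsScalarTower k L M'']

theorem Cor.Rel.add_sub {c : Cor L M M'} {p p' : A.Pt M} {q q' : A.Pt M'} (h : c.Rel p q)
    (h' : c.Rel p' q') : c.Rel (p + p') (q + q') ∧ c.Rel (p - p') (q - q') := by
  let _ : Algebra k c.R := ((algebraMap L c.R).comp (algebraMap k L)).toAlgebra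
  have : IsScalarTower k L c.R := IsScalarTower.of_algebraMap_eq fun _ => rfl
  obtain ⟨v, h1, h2⟩ := h
  obtain ⟨w, h3, h4⟩ := h'
  obtain ⟨a, b, hu⟩ := exists_unit_ph h2 h4
  have e1 : ∀ a b, c.j (A.ph a b v w) = A.ph a b (fun a => c.j (v a)) fun a => c.j (w a) :=
    fun a b => map_ph (c.j.restrictScalars k) a b v w
  have e2 : ∀ a b, c.π (A.ph a b v w) = A.ph a b (fun a => c.π (v a)) fun a => c.π (w a) :=
    fun a b => map_ph (c.π.restrictScalars k) a b v w
  have hu' : IsUnit (A.ph a b (fun a => c.j (v a)) fun a => c.j (w a)) := by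
    refine IsUnit.mk0 _ fun e => hu.ne_zero ?_
    rw [← e1, map_eq_zero_iff _ c.inj] at e
    rw [← e2, e, map_zero]
  refine ⟨⟨fun d => A.ph d b v w, ?_, ?_⟩, ⟨fun d => A.ph a d v w, ?_, ?_⟩⟩
  · simp only [e1]
    exact rep_add h1 h3 hu'
  · simp only [e2]
    exact rep_add h2 h4 hu
  · simp only [e1]
    exact rep_sub h1 h3 hu'
  · simp only [e2]
    exact rep_sub h2 h4 hu

theorem spec_map (f : M →ₐ[L] M') (p : A.Pt M) :
    Spec L p.co (A.map (f.restrictScalars k) p).co ∧
      Spec L (A.map (f.restrictScalars k) p).co p.co := by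
  have h : Rep (A.map (f.restrictScalars k) p) fun a => f (p.co a) := (rep_co p).map _
  refine ⟨spec_of_rep (rep_co p) h fun g n _ e => ?_, spec_of_rep h (rep_co p) fun g n _ e => ?_⟩
  · rw [aeval_hom, e, map_zero]
  · rwa [aeval_hom, map_eq_zero] at e

theorem spec_zero : Spec L (0 : A.Pt M).co (0 : A.Pt M').co := by
  refine spec_of_rep rep_zero rep_zero fun g n _ e => ?_
  simp only [IsScalarTower.algebraMap_apply k L M, aeval_alg, map_eq_zero] at e
  simp only [IsScalarTower.algebraMap_apply k L M', aeval_alg, e, map_zero]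

end spec

section join

variable {K L F F' M M' : Type} [Field K] [Field L] [Field F] [Field F'] [Field M] [Field M']
  [Algebra K L] [Algebra K F] [Algebra K F'] [Algebra K M] [Algebra K M'] [Algebra L F']
  [Algebra L M] [Algebra L M'] [IsScalarTower K L F'] [IsScalarTower K L M] [IsScalarTower K L M']
  [Algebra k K] [Algebra k L] [Algebra k F] [Algebra k F'] [Algebra k M] [Algebra k M']
  [IsScalarTower k K F] [IsScalarTower k K M] [IsScalarTower k L F'] [IsScalarTower k L M]
  {A : AV k ι}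

/-- Independent points specialise independently. -/
theorem Cor.join {i : F →ₐ[K] M} {i' : F' →ₐ[L] M}
    (h : Function.Injective (Algebra.TensorProduct.productMap i (i'.restrictScalars K)))
    (c₁ : Cor K F M') (c₂ : Cor L F' M') : ∃ c : Cor L M M',
      (∀ (p : A.Pt F) q, c₁.Rel p q → c.Rel (A.map (i.restrictScalars k) p) q) ∧
      ∀ (p : A.Pt F') q, c₂.Rel p q → c.Rel (A.map (i'.restrictScalars k) p) q := by
  let _ : Algebra K c₂.R := ((algebraMap L c₂.R).comp (algebraMap K L)).toAlgebra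
  have : IsScalarTower K L c₂.R := IsScalarTower.of_algebraMap_eq fun _ => rfl
  let j : TensorProduct K c₂.R c₁.R →ₐ[L] M :=
    Algebra.TensorProduct.lift (i'.comp c₂.j) (i.comp c₁.j) fun _ _ => Commute.all _ _
  have hj : Function.Injective j := by
    have h1 := TensorProduct.map_injective_of_flat_flat (R := K) c₁.j.toLinearMap
      (c₂.j.restrictScalars K).toLinearMap c₁.inj c₂.inj
    have h2 := (h.comp h1).comp (TensorProduct.comm K c₂.R c₁.R).injective
    convert h2 using 1
    ext t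
    induction t with
    | zero => simp
    | add x y hx hy => simp only [Function.comp_apply, map_add] at hx hy ⊢; rw [hx, hy]
    | tmul x y => simp [j, mul_comm]
  refine ⟨⟨TensorProduct K c₂.R c₁.R, j, hj,
    Algebra.TensorProduct.lift c₂.π c₁.π fun _ _ => Commute.all _ _⟩, ?_, ?_⟩
  · rintro p q ⟨v, h1, h2⟩
    refine ⟨fun a => 1 ⊗ₜ v a, ?_, ?_⟩
    · simpa [j] using h1.map (i.restrictScalars k)
    · simpa using h2
  · rintro p q ⟨v, h1, h2⟩
    refine ⟨fun a => v a ⊗ₜ 1, ?_, ?_⟩
    · simpa [j] using h1.map (i'.restrictScalars k)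
    · simpa using h2

theorem spec_join {i : F →ₐ[K] M} {i' : F' →ₐ[L] M} [IsScalarTower k L M']
    (h : Function.Injective (Algebra.TensorProduct.productMap i (i'.restrictScalars K)))
    {p : A.Pt F} {p' : A.Pt F'} {q q' : A.Pt M'} (h1 : Spec K p.co q.co)
    (h2 : Spec L p'.co q'.co) :
    Spec L (A.map (i.restrictScalars k) p + A.map (i'.restrictScalars k) p').co (q + q').co ∧
    Spec L (A.map (i.restrictScalars k) p - A.map (i'.restrictScalars k) p').co (q - q').co := by
  obtain ⟨c₁, r₁⟩ := h1.exists_cor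
  obtain ⟨c₂, r₂⟩ := h2.exists_cor
  obtain ⟨c, e₁, e₂⟩ := Cor.join (A := A) h c₁ c₂
  have := (e₁ _ _ r₁).add_sub (e₂ _ _ r₂)
  exact ⟨this.1.spec, this.2.spec⟩

end join

end Pool.Agent.Lib.MP_651af7_nt.Av
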