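import Pool.Agent.Lib.MP_651af7_nt.Av.GeoA1

/-! The subgroup generated by the differences of the conjugates of a point. -/

namespace Pool.Agent.Lib.MP_651af7_nt.Av

open MvPolynomial AV

variable {k ι : Type} [Field k]

section idl

variable (L : Type) {M M' : Type} [Field L] [Field M] [Field M'] [Algebra L M] [Algebra L M']

/-- The homogeneous ideal of a point. -/
noncomputable def idl (w : ι → M) : Ideal (MvPolynomial ι L) :=
  RingHom.ker (aeval (R := L) fun a => Polynomial.C (w a) * Polynomial.X)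

theorem idl_prime (w : ι → M) : (idl L w).IsPrime := RingHom.ker_isPrime _

variable {L}

theorem coeff_aeval_cone (w : ι → M) (f : MvPolynomial ι L) (d : ℕ) :
    (aeval (R := L) (fun a => Polynomial.C (w a) * Polynomial.X) f).coeff d =
      aeval w (homogeneousComponent d f) := by
  have key : ∀ e, aeval (R := L) (fun a => Polynomial.C (w a) * Polynomial.X)
      (homogeneousComponent e f) = Polynomial.monomial e (aeval w (homogeneousComponent e f)) := by
    intro e
    simp only [mul_comm _ (Polynomial.X : Polynomial M)]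
    rw [aeval_mul_of_hom (homogeneousComponent_isHomogeneous e f), ← Polynomial.C_mul_X_pow_eq_monomial,
      mul_comm]
    exact congrArg (· * _) (aeval_alg (B := Polynomial M) w _)
  conv_lhs => rw [← sum_homogeneousComponent f]
  simp only [map_sum, key, Polynomial.finsetSum_coeff, Polynomial.coeff_monomial,
    Finset.sum_ite_eq', Finset.mem_range]
  split_ifs with h
  · rfl
  · rw [homogeneousComponent_eq_zero _ _ (by omega), map_zero]

theorem mem_idl {w : ι → M} {f : MvPolynomial ι L} :
    f ∈ idl L w ↔ ∀ d, aeval w (homogeneousComponent d f) = 0 := by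
  rw [idl, RingHom.mem_ker, Polynomial.ext_iff]
  simp only [coeff_aeval_cone, Polynomial.coeff_zero]

theorem mem_idl_hom {w : ι → M} {f : MvPolynomial ι L} {n : ℕ} (hf : f.IsHomogeneous n) :
    f ∈ idl L w ↔ aeval w f = 0 := by
  rw [mem_idl]
  refine ⟨fun h => by simpa [homogeneousComponent_eq_self hf] using h n, fun h d => ?_⟩
  rw [homogeneousComponent_of_mem hf]
  split_ifs
  · exact h
  · exact map_zero _

theorem idl_hom (w : ι → M) : ∀ P ∈ idl L w, ∀ d, homogeneousComponent d P ∈ idl L w :=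
  fun P hP d => (mem_idl_hom (homogeneousComponent_isHomogeneous d P)).2 (mem_idl.1 hP d)

theorem spec_iff_idl {w : ι → M} {w' : ι → M'} :
    Spec L w w' ↔ ∀ P ∈ idl L w, aeval w' P = 0 := by
  refine ⟨fun h P hP => ?_, fun h f n hf e => h f ((mem_idl_hom hf).2 e)⟩
  rw [← sum_homogeneousComponent P, map_sum]
  exact Finset.sum_eq_zero fun d _ =>
    h _ d (homogeneousComponent_isHomogeneous d P) (mem_idl.1 hP d)

end idl

/-- An extension field of `L`. -/
structure Xt (k K L : Type) [Field k] [Field K] [Field L] [Algebra k K] [Algebra k L]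
    [Algebra K L] where
  /-- the field -/
  F : Type
  [fld : Field F]
  [ak : Algebra k F]
  [aK : Algebra K F]
  [aL : Algebra L F]
  [t1 : IsScalarTower k K F]
  [t2 : IsScalarTower k L F]
  [t3 : IsScalarTower K L F]

attribute [instance] Xt.fld Xt.ak Xt.aK Xt.aL Xt.t1 Xt.t2 Xt.t3

variable {K L E : Type} [Field K] [Field L] [Field E] [Algebra k K] [Algebra k L] [Algebra K L]
  [Algebra k E] [Algebra K E] [IsScalarTower k K E] [IsScalarTower k K L]

omit [Algebra k E] [IsScalarTower k K E] in
theorem Xt.joinK [CharZero K] (hE : RelCl K E) (X : Xt k K L) :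
    ∃ (Y : Xt k K L) (i : E →ₐ[K] Y.F) (i' : X.F →ₐ[L] Y.F),
      Function.Injective (Algebra.TensorProduct.productMap i (i'.restrictScalars K)) := by
  obtain ⟨M, _, _, i, i', h⟩ := exists_join hE X.F
  let _ : Algebra L M := (i'.toRingHom.comp (algebraMap L X.F)).toAlgebra
  let _ : Algebra k M := ((algebraMap K M).comp (algebraMap k K)).toAlgebra
  have : IsScalarTower k K M := IsScalarTower.of_algebraMap_eq fun _ => rfl
  have : IsScalarTower K L M := IsScalarTower.of_algebraMap_eq fun c => by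
    rw [← i'.commutes, IsScalarTower.algebraMap_apply K L X.F]
    rfl
  have : IsScalarTower k L M := IsScalarTower.of_algebraMap_eq fun c => by
    rw [IsScalarTower.algebraMap_apply k K L, ← IsScalarTower.algebraMap_apply K L M]
    rfl
  exact ⟨{ F := M }, i, ⟨i'.toRingHom, fun _ => rfl⟩, h⟩

theorem Xt.joinL [CharZero L] [IsAlgClosed L] (X X' : Xt k K L) :
    ∃ (Y : Xt k K L) (i : X.F →ₐ[L] Y.F) (i' : X'.F →ₐ[L] Y.F),
      Function.Injective (Algebra.TensorProduct.productMap i (i'.restrictScalars L)) := by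
  obtain ⟨M, _, _, i, i', h⟩ := exists_join (K := L) (F := X.F) (fun c hc =>
    minpoly.mem_range_of_degree_eq_one L c
      (IsAlgClosed.degree_eq_one_of_irreducible L (minpoly.irreducible hc.isIntegral))) X'.F
  let _ : Algebra K M := ((algebraMap L M).comp (algebraMap K L)).toAlgebra
  let _ : Algebra k M := ((algebraMap L M).comp (algebraMap k L)).toAlgebra
  have : IsScalarTower K L M := IsScalarTower.of_algebraMap_eq fun _ => rfl
  have : IsScalarTower k L M := IsScalarTower.of_algebraMap_eq fun _ => rfl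
  have : IsScalarTower k K M := IsScalarTower.of_algebraMap_eq fun c => by
    rw [IsScalarTower.algebraMap_apply k L M, IsScalarTower.algebraMap_apply k K L]
    rfl
  exact ⟨{ F := M }, i, i', h⟩

/-- The same field with the structure over `L` changed by `σ`. -/
def Xt.twist (X : Xt k K L) (σ : L →ₐ[K] L) : Xt k K L :=
  @Xt.mk k K L _ _ _ _ _ _ X.F _ X.ak X.aK ((algebraMap L X.F).comp σ.toRingHom).toAlgebra X.t1
    (@IsScalarTower.of_algebraMap_eq k L X.F _ _ _ _
      ((algebraMap L X.F).comp σ.toRingHom).toAlgebra _ fun c => by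
      change _ = algebraMap L X.F (σ (algebraMap k L c))
      rw [IsScalarTower.algebraMap_apply k K L, σ.commutes, ← IsScalarTower.algebraMap_apply,
        ← IsScalarTower.algebraMap_apply])
    (@IsScalarTower.of_algebraMap_eq K L X.F _ _ _ _
      ((algebraMap L X.F).comp σ.toRingHom).toAlgebra _ fun c => by
      change _ = algebraMap L X.F (σ (algebraMap K L c))
      rw [σ.commutes, ← IsScalarTower.algebraMap_apply])

variable {A : AV k ι} (x : A.Pt E)

/-- The group generated by the differences of conjugates of `x`. -/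
def Df (K : Type) [Field K] [Algebra k K] [Algebra K E] [IsScalarTower k K E] (F : Type) [Field F]
    [Algebra k F] [Algebra K F] [IsScalarTower k K F] : AddSubgroup (A.Pt F) :=
  AddSubgroup.closure {p | ∃ i i' : E →ₐ[K] F,
    p = A.map (i.restrictScalars k) x - A.map (i'.restrictScalars k) x}

/-- Sums of differences of conjugates that specialise to the origin. -/
def Gd (X : Xt k K L) (z : A.Pt X.F) : Prop := z ∈ Df x K X.F ∧ Spec L z.co (0 : A.Pt L).co

variable {x}

theorem Df.exists_sum {F : Type} [Field F] [Algebra k F] [Algebra K F] [IsScalarTower k K F]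
    {z : A.Pt F} (h : z ∈ Df x K F) : ∃ (N : ℕ) (i i' : Fin N → E →ₐ[K] F),
      z = ∑ l, (A.map ((i l).restrictScalars k) x - A.map ((i' l).restrictScalars k) x) := by
  induction h using AddSubgroup.closure_induction with
  | mem p hp =>
    obtain ⟨i, i', rfl⟩ := hp
    exact ⟨1, fun _ => i, fun _ => i', by simp⟩
  | zero => exact ⟨0, Fin.elim0, Fin.elim0, by simp⟩
  | add p q _ _ hp hq =>
    obtain ⟨N, i, i', rfl⟩ := hp
    obtain ⟨N', j, j', rfl⟩ := hq
    exact ⟨N + N', Fin.append i j, Fin.append i' j', by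
      simp only [Fin.sum_univ_add, Fin.append_left, Fin.append_right]⟩
  | neg p _ hp =>
    obtain ⟨N, i, i', rfl⟩ := hp
    exact ⟨N, i', i, by simp⟩

omit [IsScalarTower k K L] in
theorem Gd.map {X Y : Xt k K L} {z : A.Pt X.F} (h : Gd x X z) (j : X.F →ₐ[L] Y.F) :
    Gd x Y (A.map (j.restrictScalars k) z) := by
  refine ⟨?_, (spec_map j z).2.trans h.2⟩
  have h1 := h.1
  clear h
  induction h1 using AddSubgroup.closure_induction with
  | mem p hp =>
    obtain ⟨i, i', rfl⟩ := hp
    refine AddSubgroup.subset_closure ⟨(j.restrictScalars K).comp i, (j.restrictScalars K).comp i', ?_⟩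
    rw [map_sub, AV.map_map, AV.map_map]
    rfl
  | zero => simp
  | add p q _ _ hp hq =>
    rw [map_add]
    exact add_mem hp hq
  | neg p _ hp =>
    rw [map_neg]
    exact neg_mem hp

theorem Gd.twist {X : Xt k K L} {z : A.Pt X.F} (h : Gd x X z) (σ : L →ₐ[K] L) :
    Gd x (X.twist σ) z := by
  refine ⟨h.1, fun f n hf e => ?_⟩
  have e1 : aeval z.co (MvPolynomial.map σ.toRingHom f) = 0 := by
    rw [aeval_def, eval₂_map]
    exact e
  have e2 := ((rep_co _).hom_iff rep_zero (hf.map σ.toRingHom)).2 (h.2 _ n (hf.map _) e1)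
  refine (rep_zero.hom_iff (rep_co _) hf).2 (σ.toRingHom.injective ?_)
  rw [map_zero, ← e2, aeval_def, aeval_def, eval₂_map, eval₂_comp_left]
  congr 1
  ext a
  exact (σ.restrictScalars k).commutes _

variable [Finite ι]

variable (x L) in
theorem exists_max : ∃ (X : Xt k K L) (z : A.Pt X.F), Gd x X z ∧
    ∀ (Y : Xt k K L) (w : A.Pt Y.F), Gd x Y w → td L (rat w.co) ≤ td L (rat z.co) := by
  let S : Set ℕ := {n | ∃ (X : Xt k K L) (z : A.Pt X.F), Gd x X z ∧ td L (rat z.co) = n}
  have h1 : ∀ (Y : Xt k K L) (w : A.Pt Y.F), Gd x Y w → ∃ n ∈ S, td L (rat w.co) = n := by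
    intro Y w hw
    obtain ⟨n, hn⟩ := ENat.ne_top_iff_exists.1
      (ne_top_of_le_ne_top (ENat.natCast_ne_top _) (A.td_le_dim (K := L) (rep_co w).zero))
    exact ⟨n, ⟨Y, w, hw, hn.symm⟩, hn.symm⟩
  have h2 : BddAbove S := ⟨A.dim, by
    rintro n ⟨X, z, -, e⟩
    have := A.td_le_dim (K := L) (rep_co z).zero
    rw [e] at this
    exact_mod_cast this⟩
  obtain ⟨n, hn, -⟩ := h1 { F := L } 0 ⟨zero_mem _, fun _ _ _ e => e⟩
  obtain ⟨X, z, hz, e⟩ := Nat.sSup_mem ⟨n, hn⟩ h2
  refine ⟨X, z, hz, fun Y w hw => ?_⟩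
  obtain ⟨m, hm, e'⟩ := h1 Y w hw
  rw [e, e']
  exact_mod_cast le_csSup h2 hm

variable [CharZero L] [IsAlgClosed L] {X : Xt k K L} {z : A.Pt X.F} (hz : Gd x X z)
  (hm : ∀ (Y : Xt k K L) (w : A.Pt Y.F), Gd x Y w → td L (rat w.co) ≤ td L (rat z.co))
include hz hm

theorem Gd.spec {Y : Xt k K L} {w : A.Pt Y.F} (hw : Gd x Y w) : Spec L z.co w.co := by
  obtain ⟨M, i, i', h⟩ := X.joinL Y
  have h1 := (spec_join h (spec_map i z).1 (hw.2.trans (spec_zero (M' := M.F)))).1
  have h2 := (spec_join h (hz.2.trans (spec_zero (M' := M.F))) (spec_map i' w).1).1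
  have h3 := (spec_join h hz.2 hw.2).1
  rw [add_zero] at h1 h3
  rw [zero_add] at h2
  have h4 := hm M _ ⟨add_mem (hz.map i).1 (hw.map i').1, h3⟩
  have h0 : z.co ≠ 0 := fun e => by
    obtain ⟨a, ha⟩ := (rep_co z).unit
    exact ha.ne_zero (congrFun e a)
  exact Spec.trans ((td_rat_le_of_spec h0 (h1.trans (spec_map i z).2)).2 h4)
    (h2.trans (spec_map i' w).2)

theorem Gd.spec_sub {M : Type} [Field M] [Algebra k M] [Algebra L M] [IsScalarTower k L M]
    {p q : A.Pt M} (hp : Spec L z.co p.co) (hq : Spec L z.co q.co) : Spec L z.co (p - q).co := by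
  obtain ⟨Y, i, i', h⟩ := X.joinL X
  have h1 := (spec_join h hz.2 hz.2).2
  rw [sub_zero] at h1
  exact (hz.spec hm ⟨sub_mem (hz.map i).1 (hz.map i').1, h1⟩).trans (spec_join h hp hq).2

theorem Gd.map_mem (σ : L →ₐ[K] L) {f : MvPolynomial ι L} (hf : f ∈ idl L z.co) :
    MvPolynomial.map σ.toRingHom f ∈ idl L z.co := by
  rw [mem_idl] at hf ⊢
  intro d
  rw [homogeneousComponent_map, aeval_def, eval₂_map]
  exact hz.spec hm (hz.twist σ) _ d (homogeneousComponent_isHomogeneous d f) (hf d)

/-- The difference of a conjugate of `x` and of a specialisation of `x`. -/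
theorem Gd.spec_diff [CharZero K] (hE : RelCl K E) {Y : Xt k K L} (i : E →ₐ[K] Y.F)
    {y : A.Pt Y.F} (hy : Spec K x.co y.co) :
    Spec L z.co (y - A.map (i.restrictScalars k) x).co := by
  obtain ⟨M, j, j', h⟩ := Y.joinK hE
  have r : Spec L (A.map (i.restrictScalars k) x).co (A.map (i.restrictScalars k) x).co :=
    fun _ _ _ e => e
  have h1 := (spec_join h (spec_map i x).1 r).2
  rw [sub_self] at h1
  refine (hz.spec hm ⟨AddSubgroup.subset_closure ⟨j, (j'.restrictScalars K).comp i, ?_⟩,
    h1.trans spec_zero⟩).trans (spec_join h hy r).2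
  rw [AV.map_map]
  rfl

end Pool.Agent.Lib.MP_651af7_nt.Av
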