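import Pool.Agent.Lib.MP_651af7_nt.Av.GeoA1

/-! Descent of ideals and of points. -/

namespace Pool.Agent.Lib.MP_651af7_nt.Av

open MvPolynomial AV

variable {k ι : Type} [Field k]

section cfm

variable {L σ : Type*} [Field L]

/-- An additive map applied to the coefficients. -/
noncomputable def cfm (θ : L →+ L) (P : MvPolynomial σ L) : MvPolynomial σ L :=
  ∑ m ∈ P.support, monomial m (θ (coeff m P))

theorem coeff_cfm (θ : L →+ L) (P : MvPolynomial σ L) (m : σ →₀ ℕ) :
    coeff m (cfm θ P) = θ (coeff m P) := by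
  classical
  simp only [cfm, coeff_sum, coeff_monomial, Finset.sum_ite_eq']
  split_ifs with h
  · rfl
  · rw [notMem_support_iff.1 h, map_zero]

theorem descent [Algebra k L] (J : Ideal (MvPolynomial σ L)) (Θ : Set (L →+ L))
    (h1 : ∀ θ ∈ Θ, θ 1 = 0) (hJ : ∀ θ ∈ Θ, ∀ P ∈ J, cfm θ P ∈ J)
    (hk : ∀ c, (∀ θ ∈ Θ, θ c = 0) → c ∈ Set.range (algebraMap k L)) :
    (J.comap (MvPolynomial.map (algebraMap k L))).map (MvPolynomial.map (algebraMap k L)) = J := by
  classical
  refine le_antisymm Ideal.map_comap_le fun P hP => ?_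
  induction hn : P.support using Finset.strongInduction generalizing P with
  | H s ih =>
    subst hn
    by_cases h0 : P = 0
    · rw [h0]
      exact zero_mem _
    obtain ⟨Q, ⟨hQ, hQ0, hs⟩, hmin⟩ := (wellFounded_lt (α := Finset (σ →₀ ℕ))).onFun
      (f := fun Q : MvPolynomial σ L => Q.support) |>.has_min
      {Q | Q ∈ J ∧ Q ≠ 0 ∧ Q.support ⊆ P.support} ⟨P, hP, h0, subset_rfl⟩
    obtain ⟨m, hm⟩ := support_nonempty.2 hQ0
    have hm' := mem_support_iff.1 hm
    let Q' := C (coeff m Q)⁻¹ * Q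
    have hQ' : Q' ∈ J := J.mul_mem_left _ hQ
    have e1 : coeff m Q' = 1 := by rw [coeff_C_mul, inv_mul_cancel₀ hm']
    have e2 : Q'.support ⊆ Q.support := fun μ hμ => mem_support_iff.2 fun e =>
      mem_support_iff.1 hμ (by rw [coeff_C_mul, e, mul_zero])
    have e3 : ∀ θ ∈ Θ, cfm θ Q' = 0 := fun θ hθ => by
      by_contra hne
      have h2 : (cfm θ Q').support ⊆ Q.support := fun μ hμ => e2 (mem_support_iff.2 fun e =>
        mem_support_iff.1 hμ (by rw [coeff_cfm, e, map_zero]))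
      refine hmin _ ⟨hJ θ hθ _ hQ', hne, h2.trans hs⟩ (Finset.ssubset_iff_of_subset h2 |>.2
        ⟨m, hm, notMem_support_iff.2 (by rw [coeff_cfm, e1, h1 θ hθ])⟩)
    have e4 : Q' ∈ Set.range (MvPolynomial.map (algebraMap k L)) := by
      refine mem_range_map_iff_coeffs_subset.2 fun c hc => ?_
      obtain ⟨μ, -, rfl⟩ := mem_coeffs_iff.1 hc
      exact hk _ fun θ hθ => by rw [← coeff_cfm, e3 θ hθ, coeff_zero]
    obtain ⟨Q₀, hQ₀⟩ := e4
    have h3 : Q' ∈ (J.comap (MvPolynomial.map (algebraMap k L))).map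
        (MvPolynomial.map (algebraMap k L)) :=
      hQ₀ ▸ Ideal.mem_map_of_mem _ (Ideal.mem_comap.2 (hQ₀ ▸ hQ'))
    have h4 : (P - C (coeff m P) * Q').support ⊆ P.support := fun μ hμ => by
      by_contra hn
      have h5 : coeff μ Q' = 0 := notMem_support_iff.1 fun h => hn (hs (e2 h))
      exact mem_support_iff.1 hμ (by
        rw [coeff_sub, coeff_C_mul, h5, notMem_support_iff.1 hn, mul_zero, sub_zero])
    have h5 := ih _ (Finset.ssubset_iff_of_subset h4 |>.2 ⟨m, hs hm, notMem_support_iff.2 (by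
      rw [coeff_sub, coeff_C_mul, e1, mul_one, sub_self])⟩)
      _ (J.sub_mem hP (J.mul_mem_left _ hQ')) rfl
    have h6 := add_mem h5 (Ideal.mul_mem_left _ (C (coeff m P)) h3)
    rwa [sub_add_cancel] at h6

end cfm

variable {K L E : Type} [Field K] [Field L] [Field E] [Algebra k K] [Algebra k L] [Algebra K L]
  [Algebra k E] [Algebra K E] [IsScalarTower k K E] [IsScalarTower k K L] {A : AV k ι}

theorem exists_of_fixed [IsGalois K L] {p : A.Pt L}
    (h : ∀ σ : L ≃ₐ[K] L, A.map ((σ : L →ₐ[K] L).restrictScalars k) p = p) :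
    ∃ s : A.Pt K, A.map (IsScalarTower.toAlgHom k K L) s = p := by
  obtain ⟨a, ha⟩ := (rep_co p).unit
  obtain ⟨v, hv, e⟩ := Rep.exists_norm ha.ne_zero
  have key : ∀ b, ∃ c : K, algebraMap K L c = v b := fun b =>
    (InfiniteGalois.mem_range_algebraMap_iff_fixed _).2 fun σ => by
      have h1 := hv.map ((σ : L →ₐ[K] L).restrictScalars k)
      rw [h] at h1
      simpa [e] using hv.minors h1 a b
  choose w hw using key
  obtain ⟨s, -, hs⟩ := exists_map_eq (A := A) (f := IsScalarTower.toAlgHom k K L)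
    (algebraMap K L).injective (q := p) (v := w)
    ⟨a, IsUnit.mk0 _ fun h0 => by simpa [h0, e] using hw a⟩ (by simpa [hw] using hv)
  exact ⟨s, hs⟩

theorem exists_spec [Finite ι] [IsAlgClosed L] (x : A.Pt E) :
    ∃ y : A.Pt L, Spec K x.co y.co := by
  obtain ⟨a, ha⟩ := (rep_co x).unit
  obtain ⟨v, hv, e⟩ := Rep.exists_norm ha.ne_zero
  have hp : (RingHom.ker (aeval (R := K) v)).IsPrime := RingHom.ker_isPrime _
  obtain ⟨w, hw⟩ : (zeroLocus L (RingHom.ker (aeval (R := K) v))).Nonempty := by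
    by_contra hn
    rw [Set.not_nonempty_iff_eq_empty] at hn
    have := IsPrime.vanishingIdeal_zeroLocus (K := L) (RingHom.ker (aeval (R := K) v))
    rw [hn, vanishingIdeal_empty] at this
    exact hp.ne_top this.symm
  have h1 : w a = 1 := by
    have := hw (X a - 1) (by simp [RingHom.mem_ker, e])
    rwa [map_sub, aeval_X, map_one, sub_eq_zero] at this
  obtain ⟨y, hy⟩ := exists_rep (A := A) (v := w) ⟨a, h1 ▸ isUnit_one⟩ fun P hP => by
    rw [← aeval_map_algebraMap K]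
    refine hw _ ?_
    rw [RingHom.mem_ker, aeval_map_algebraMap]
    exact hv.zero P hP
  exact ⟨y, spec_of_rep hv hy fun f _ _ h => hw f h⟩

theorem exists_trace [Finite ι] [IsAlgClosed L] [IsGalois K L] (x : A.Pt E) :
    ∃ (T : Finset (A.Pt L)) (s : A.Pt K), T.Nonempty ∧ (∀ y ∈ T, Spec K x.co y.co) ∧
      A.map (IsScalarTower.toAlgHom k K L) s = ∑ y ∈ T, y := by
  classical
  obtain ⟨y, hy⟩ := exists_spec (K := K) (L := L) x
  let g : (L ≃ₐ[K] L) → A.Pt L →+ A.Pt L := fun σ => A.map ((σ : L →ₐ[K] L).restrictScalars k)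
  have hg : ∀ σ τ p, g σ (g τ p) = g (σ * τ) p := fun σ τ p => AV.map_map _ _ _
  have hfin : (Set.range fun σ => g σ y).Finite := by
    have h1 : (Set.univ.pi fun a => (minpoly K (y.co a)).rootSet L).Finite :=
      Set.Finite.pi fun a => Polynomial.rootSet_finite _ _
    refine (h1.biUnion (t := fun v => {p : A.Pt L | Rep p v}) fun v _ =>
      Set.Subsingleton.finite fun _ hp _ hq => Rep.inj hp hq).subset ?_
    rintro _ ⟨σ, rfl⟩
    refine Set.mem_biUnion (x := fun a => σ (y.co a)) (fun a _ => ?_)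
      ((rep_co y).map ((σ : L →ₐ[K] L).restrictScalars k))
    rw [Polynomial.mem_rootSet]
    refine ⟨minpoly.ne_zero (Algebra.IsIntegral.isIntegral _), ?_⟩
    rw [Polynomial.aeval_algHom_apply, minpoly.aeval, map_zero]
  obtain ⟨s, hs⟩ := exists_of_fixed (K := K) (p := ∑ p ∈ hfin.toFinset, p) fun σ => by
    rw [map_sum]
    refine Finset.sum_bij (fun p _ => g σ p) ?_ ?_ ?_ fun _ _ => rfl
    · intro p hp
      obtain ⟨τ, rfl⟩ := hfin.mem_toFinset.1 hp
      exact hfin.mem_toFinset.2 ⟨σ * τ, (hg σ τ y).symm⟩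
    · intro p _ q _ e
      exact map_injective σ.injective e
    · intro p hp
      obtain ⟨τ, rfl⟩ := hfin.mem_toFinset.1 hp
      exact ⟨g (σ⁻¹ * τ) y, hfin.mem_toFinset.2 ⟨_, rfl⟩, by rw [hg, mul_inv_cancel_left]⟩
  refine ⟨hfin.toFinset, s, ⟨_, hfin.mem_toFinset.2 ⟨1, rfl⟩⟩, fun p hp => ?_, hs⟩
  obtain ⟨τ, rfl⟩ := hfin.mem_toFinset.1 hp
  exact hy.trans (spec_map (τ : L →ₐ[K] L) y).1

end Pool.Agent.Lib.MP_651af7_nt.Av
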