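import Pool.Agent.Lib.MP_651af7_nt.Av.Voc

/-! Block S, first part: families of polynomials and of points along an ultrafilter. -/

namespace Pool.Agent.Lib.MP_651af7_nt.Av

open MvPolynomial Filter Height

variable {α : Type} {U : Ultrafilter α} {k ι σ : Type} [Field k]

theorem germ_eq_zero {f : α → k} : germ U f = 0 ↔ ∀ᶠ n in U, f n = 0 := by
  rw [← map_zero (germ U), germ_eq]
  rfl

theorem germ_ne_zero {f : α → k} : germ U f ≠ 0 ↔ ∀ᶠ n in U, f n ≠ 0 := by
  rw [Ne, germ_eq_zero, Ultrafilter.eventually_not]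

theorem germ_isUnit {f : α → k} : IsUnit (germ U f) ↔ ∀ᶠ n in U, IsUnit (f n) := by
  simp only [isUnit_iff_ne_zero, germ_ne_zero]

variable (U k) in
/-- The germ as a map of algebras. -/
noncomputable def germA : (α → k) →ₐ[k] Up U k := { germ U with commutes' := fun _ => rfl }

theorem germA_apply (f : α → k) : germA U k f = germ U f := rfl

/-- The member of index `n` of a polynomial over the product ring. -/
noncomputable def evP (n : α) : MvPolynomial σ (α → k) →+* MvPolynomial σ k :=
  MvPolynomial.map (Pi.evalRingHom (fun _ => k) n)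

theorem coeff_evP (n : α) (Q : MvPolynomial σ (α → k)) (μ : σ →₀ ℕ) :
    coeff μ (evP n Q) = coeff μ Q n := coeff_map _ _ _

theorem repr_lift (Q : MvPolynomial σ (α → k)) :
    Repr U (MvPolynomial.map (germ U) Q) fun n => evP n Q :=
  ⟨⟨Q.support, fun _ => support_map_subset _ _⟩, fun μ => by
    simp only [coeff_map, coeff_evP]⟩

theorem Repr.exists_lift {P : MvPolynomial σ (Up U k)} {p : α → MvPolynomial σ k}
    (h : Repr U P p) : ∃ Q : MvPolynomial σ (α → k),
      P = MvPolynomial.map (germ U) Q ∧ p = fun n => evP n Q := by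
  classical
  obtain ⟨⟨s, hs⟩, h⟩ := h
  have key : ∀ μ, coeff μ (∑ ν ∈ s, monomial ν fun n => coeff ν (p n)) =
      fun n => coeff μ (p n) := by
    intro μ
    simp only [coeff_sum, coeff_monomial, Finset.sum_ite_eq']
    split_ifs with hμ
    · rfl
    · funext n
      exact (notMem_support_iff.1 fun h' => hμ (hs n h')).symm
  refine ⟨∑ ν ∈ s, monomial ν fun n => coeff ν (p n), ?_, funext fun n => ?_⟩
  · ext μ
    rw [coeff_map, key, h]
  · ext μ
    rw [coeff_evP, key]

theorem exists_repr' (P : MvPolynomial σ (Up U k)) :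
    ∃ p, Repr U P p ∧ ∀ n, (p n).support ⊆ P.support := by
  classical
  choose f hf using fun μ => germ_surj U (coeff μ P)
  have key : ∀ n μ, coeff μ (∑ ν ∈ P.support, monomial ν (f ν n)) =
      if μ ∈ P.support then f μ n else 0 := by
    intro n μ
    simp only [coeff_sum, coeff_monomial, Finset.sum_ite_eq']
  have hs : ∀ n, (∑ ν ∈ P.support, monomial ν (f ν n)).support ⊆ P.support := by
    intro n μ hμ
    rw [mem_support_iff, key] at hμ
    by_contra h
    exact hμ (if_neg h)
  refine ⟨fun n => ∑ ν ∈ P.support, monomial ν (f ν n), ⟨⟨_, hs⟩, fun μ => ?_⟩, hs⟩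
  simp only [key]
  split_ifs with hμ
  · exact (hf μ).symm
  · rw [notMem_support_iff.1 hμ]
    exact (map_zero _).symm

theorem exists_repr (P : MvPolynomial σ (Up U k)) : ∃ p, Repr U P p :=
  (exists_repr' P).imp fun _ h => h.1

theorem Repr.aeval {P : MvPolynomial σ (Up U k)} {p : α → MvPolynomial σ k} (h : Repr U P p)
    (x : α → σ → k) :
    aeval (fun a => germ U fun n => x n a) P = germ U fun n => eval (x n) (p n) := by
  obtain ⟨Q, rfl, rfl⟩ := h.exists_lift
  have h1 := map_eval (germ U) (fun a n => x n a) Q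
  have h2 : eval (fun a n => x n a) Q = fun n => eval (x n) (evP n Q) := funext fun n =>
    map_eval (Pi.evalRingHom (fun _ => k) n) (fun a n => x n a) Q
  rw [← h2, h1, aeval_eq_eval]
  rfl

theorem Repr.const (f : MvPolynomial σ k) :
    Repr U (MvPolynomial.map (algebraMap k (Up U k)) f) fun _ => f :=
  ⟨⟨f.support, fun _ => subset_rfl⟩, fun μ => by rw [coeff_map, algebraMap_up]⟩

theorem aeval_germ (f : MvPolynomial σ k) (x : α → σ → k) :
    aeval (fun a => germ U fun n => x n a) f = germ U fun n => eval (x n) f := by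
  rw [← (Repr.const f).aeval x, aeval_map_algebraMap]

theorem Repr.unique {P : MvPolynomial σ (Up U k)} {p q : α → MvPolynomial σ k} (hp : Repr U P p)
    (hq : Repr U P q) : ∀ᶠ n in U, p n = q n := by
  classical
  obtain ⟨⟨s, hs⟩, hp⟩ := hp
  obtain ⟨⟨t, ht⟩, hq⟩ := hq
  have h : ∀ᶠ n in U, ∀ μ ∈ s ∪ t, coeff μ (p n) = coeff μ (q n) :=
    (eventually_all_finset _).2 fun μ _ => (germ_eq U).1 ((hp μ).symm.trans (hq μ))
  refine h.mono fun n hn => ?_
  ext μ
  by_cases hμ : μ ∈ s ∪ t
  · exact hn μ hμ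
  · rw [Finset.mem_union, not_or] at hμ
    rw [notMem_support_iff.1 fun h' => hμ.1 (hs n h'),
      notMem_support_iff.1 fun h' => hμ.2 (ht n h')]

section closure

variable {P P' : MvPolynomial σ (Up U k)} {p p' : α → MvPolynomial σ k}

theorem Repr.supp (h : Repr U P p) : ∀ᶠ n in U, (p n).support ⊆ P.support := by
  obtain ⟨q, hq, hs⟩ := exists_repr' P
  exact (h.unique hq).mono fun n hn => hn ▸ hs n

theorem Repr.add (h : Repr U P p) (h' : Repr U P' p') :
    Repr U (P + P') fun n => p n + p' n := by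
  obtain ⟨Q, rfl, rfl⟩ := h.exists_lift
  obtain ⟨Q', rfl, rfl⟩ := h'.exists_lift
  simpa only [map_add] using repr_lift (U := U) (Q + Q')

theorem Repr.sub (h : Repr U P p) (h' : Repr U P' p') :
    Repr U (P - P') fun n => p n - p' n := by
  obtain ⟨Q, rfl, rfl⟩ := h.exists_lift
  obtain ⟨Q', rfl, rfl⟩ := h'.exists_lift
  simpa only [map_sub] using repr_lift (U := U) (Q - Q')

theorem Repr.mul (h : Repr U P p) (h' : Repr U P' p') :
    Repr U (P * P') fun n => p n * p' n := by
  obtain ⟨Q, rfl, rfl⟩ := h.exists_lift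
  obtain ⟨Q', rfl, rfl⟩ := h'.exists_lift
  simpa only [map_mul] using repr_lift (U := U) (Q * Q')

theorem Repr.X_pow (a : σ) (m : ℕ) :
    Repr U (X a ^ m : MvPolynomial σ (Up U k)) fun _ => X a ^ m := by
  simpa only [map_pow, map_X] using Repr.const (U := U) (X a ^ m : MvPolynomial σ k)

theorem Repr.zero : Repr U (0 : MvPolynomial σ (Up U k)) fun _ => 0 := by
  simpa only [map_zero] using Repr.const (U := U) (0 : MvPolynomial σ k)

theorem Repr.sum {J : Type} (s : Finset J) {G : J → MvPolynomial σ (Up U k)}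
    {g : α → J → MvPolynomial σ k} (h : ∀ j, Repr U (G j) fun n => g n j) :
    Repr U (∑ j ∈ s, G j) fun n => ∑ j ∈ s, g n j := by
  classical
  induction s using Finset.induction_on with
  | empty => simpa using Repr.zero
  | insert j s hj ih => simpa only [Finset.sum_insert hj] using (h j).add ih

theorem Repr.pderiv (h : Repr U P p) (a : σ) :
    Repr U (pderiv a P) fun n => pderiv a (p n) := by
  obtain ⟨Q, rfl, rfl⟩ := h.exists_lift
  simpa only [evP, pderiv_map] using repr_lift (U := U) (MvPolynomial.pderiv a Q)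

theorem Repr.comp {τ : Type} {G : σ → MvPolynomial τ (Up U k)} {g : α → σ → MvPolynomial τ k}
    (h : Repr U P p) (hg : ∀ j, Repr U (G j) fun n => g n j) :
    Repr U (MvPolynomial.aeval G P) fun n => MvPolynomial.aeval (g n) (p n) := by
  obtain ⟨Q, rfl, rfl⟩ := h.exists_lift
  choose T hT hT' using fun j => (hg j).exists_lift
  obtain rfl : G = fun j => MvPolynomial.map (germ U) (T j) := funext hT
  obtain rfl : g = fun n j => evP n (T j) := funext fun n => funext fun j => congrFun (hT' j) n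
  simpa only [evP, map_bind₁, aeval_eq_bind₁] using repr_lift (U := U) (bind₁ T Q)

theorem Repr.eq_zero_iff (h : Repr U P p) : P = 0 ↔ ∀ᶠ n in U, p n = 0 := by
  refine ⟨fun h0 => h.unique (h0 ▸ Repr.zero), fun h0 => ?_⟩
  ext μ
  rw [h.2, coeff_zero, germ_eq_zero]
  exact h0.mono fun n hn => by rw [hn, coeff_zero]

/-- Membership in a finitely generated ideal passes to the members of the family. -/
theorem Repr.mem_span {J : Type} [Finite J] {G : J → MvPolynomial σ (Up U k)}
    {g : α → J → MvPolynomial σ k} (hg : ∀ j, Repr U (G j) fun n => g n j) (h : Repr U P p)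
    (hP : P ∈ Ideal.span (Set.range G)) : ∀ᶠ n in U, p n ∈ Ideal.span (Set.range (g n)) := by
  have := Fintype.ofFinite J
  obtain ⟨c, rfl⟩ := Ideal.mem_span_range_iff_exists_fun.1 hP
  choose d hd using fun j => exists_repr (c j)
  have h1 := Repr.sum Finset.univ (g := fun n j => d j n * g n j) fun j => (hd j).mul (hg j)
  refine (h.unique h1).mono fun n hn => ?_
  rw [hn]
  exact Ideal.sum_mem _ fun j _ => Ideal.mul_mem_left _ _ (Ideal.subset_span ⟨j, rfl⟩)

/-- The same for an ideal defined over `k`. -/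
theorem Repr.mem_ideal [Finite σ] {I : Ideal (MvPolynomial σ k)} (h : Repr U P p)
    (hP : P ∈ I.map (MvPolynomial.map (algebraMap k (Up U k)))) : ∀ᶠ n in U, p n ∈ I := by
  obtain ⟨m, f, rfl⟩ := Submodule.fg_iff_exists_fin_generating_family.1
    (IsNoetherian.noetherian I)
  refine Repr.mem_span (g := fun _ j => f j) (fun j => Repr.const (f j)) h ?_
  change P ∈ (Ideal.span (Set.range f)).map _ at hP
  rwa [Ideal.map_span, ← Set.range_comp] at hP

end closure

theorem eventually_zero [Finite σ] {I : Ideal (MvPolynomial σ k)} {x : α → σ → k}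
    (h : ∀ P ∈ I, aeval (fun a => germ U fun n => x n a) P = 0) :
    ∀ᶠ n in U, ∀ P ∈ I, aeval (x n) P = 0 := by
  obtain ⟨m, f, rfl⟩ := Submodule.fg_iff_exists_fin_generating_family.1
    (IsNoetherian.noetherian I)
  have h1 : ∀ᶠ n in U, ∀ j, eval (x n) (f j) = 0 := eventually_all.2 fun j => by
    rw [← germ_eq_zero, ← aeval_germ]
    exact h _ (Submodule.subset_span ⟨j, rfl⟩)
  refine h1.mono fun n hn P hP => ?_
  have h2 : Submodule.span (MvPolynomial σ k) (Set.range f) ≤ RingHom.ker (aeval (x n)) := by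
    rw [Submodule.span_le]
    rintro _ ⟨j, rfl⟩
    exact hn j
  exact h2 hP

theorem exists_unit_germ [Finite ι] {x : α → ι → k} (h : ∀ᶠ n in U, ∃ a, IsUnit (x n a)) :
    ∃ a, IsUnit (germ U fun n => x n a) :=
  (Ultrafilter.eventually_exists_iff.1 h).imp fun _ ha => germ_isUnit.2 ha

theorem IsGerm.rep [Finite ι] {A : AV k ι} {Y : A.Pt (Up U k)} {y : α → A.Pt k} (h : IsGerm U Y y)
    {x : α → ι → k} (hx : ∀ᶠ n in U, AV.Rep (y n) (x n)) :
    AV.Rep Y fun a => germ U fun n => x n a := by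
  refine AV.Rep.of_minors h (exists_unit_germ (hx.mono fun n hn => hn.unit)) fun a b => ?_
  rw [← map_mul, ← map_mul, germ_eq]
  exact hx.mono fun n hn => (AV.rep_co _).minors hn a b

theorem IsGerm.of_rep [Finite ι] {A : AV k ι} {Y : A.Pt (Up U k)} {y : α → A.Pt k}
    (h : IsGerm U Y y) {x : α → ι → k} (hx : AV.Rep Y fun a => germ U fun n => x n a) :
    ∀ᶠ n in U, AV.Rep (y n) (x n) := by
  obtain ⟨a, ha⟩ := hx.unit
  have h1 : ∀ᶠ n in U, ∀ a b, (y n).co a * x n b = (y n).co b * x n a :=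
    eventually_all.2 fun a => eventually_all.2 fun b => by
      have h2 := AV.Rep.minors h hx a b
      rwa [← map_mul, ← map_mul, germ_eq] at h2
  exact (h1.and (germ_isUnit.1 ha)).mono fun n hn => (AV.rep_co _).of_minors ⟨a, hn.2⟩ hn.1

theorem AV.ph_germ (A : AV k ι) (a b : ι) (x x' : α → ι → k) :
    A.ph a b (fun c => germ U fun n => x n c) (fun c => germ U fun n => x' n c) =
      germ U fun n => A.ph a b (x n) (x' n) := by
  have h1 := AV.map_ph (A := A) (germA U k) a b (fun c n => x n c) fun c n => x' n c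
  have h2 : A.ph a b (fun c n => x n c) (fun c n => x' n c) = fun n => A.ph a b (x n) (x' n) :=
    funext fun n => AV.map_ph (A := A) (Pi.evalAlgHom k (fun _ : α => k) n) a b _ _
  rw [h2] at h1
  exact h1.symm

/-- The germ of a family of points. -/
theorem AV.exists_germ [Finite ι] (A : AV k ι) (U : Ultrafilter α) :
    ∃ γ : (α → A.Pt k) →+ A.Pt (Up U k), Function.Surjective γ ∧ (∀ y, IsGerm U (γ y) y) ∧
      ∀ y, γ y = 0 ↔ ∀ᶠ n in U, y n = 0 := by
  classical
  have hex : ∀ y : α → A.Pt k, ∃ Y, IsGerm U Y y := fun y =>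
    AV.exists_rep (exists_unit_germ (.of_forall fun n => (AV.rep_co (y n)).unit)) fun P hP => by
      rw [aeval_germ, germ_eq_zero]
      exact .of_forall fun n => (AV.rep_co (y n)).zero P hP
  choose γ hγ using hex
  have hadd : ∀ y y', γ (y + y') = γ y + γ y' := by
    intro y y'
    obtain ⟨a, b, hab⟩ := AV.exists_unit_ph (hγ y) (hγ y')
    have h1 := AV.rep_add (hγ y) (hγ y') hab
    simp only [AV.ph_germ] at h1 hab
    refine AV.Rep.inj ((hγ (y + y')).rep ?_) h1
    exact (germ_isUnit.1 hab).mono fun n hn => AV.rep_add (AV.rep_co _) (AV.rep_co _) hn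
  refine ⟨AddMonoidHom.mk' γ hadd, fun Y => ?_, hγ, fun y => ⟨fun h => ?_, fun h => ?_⟩⟩
  · choose f hf using fun a => germ_surj U (Y.co a)
    have hY : AV.Rep Y fun a => germ U fun n => f a n := by
      have e : (fun a => germ U fun n => f a n) = Y.co := funext hf
      rw [e]
      exact AV.rep_co Y
    obtain ⟨a, ha⟩ := hY.unit
    have h1 : ∀ᶠ n in U, ∃ p : A.Pt k, AV.Rep p fun a => f a n :=
      ((germ_isUnit.1 ha).and (eventually_zero (x := fun n a => f a n) hY.zero)).mono fun n hn =>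
        AV.exists_rep ⟨a, hn.1⟩ hn.2
    refine ⟨fun n => if h : ∃ p : A.Pt k, AV.Rep p fun a => f a n then h.choose else 0,
      AV.Rep.inj ((hγ _).rep (x := fun n a => f a n) (h1.mono fun n hn => ?_)) hY⟩
    simp only [dif_pos hn]
    exact hn.choose_spec
  · have h1 : AV.Rep (γ y) fun a => germ U fun _ => A.o a := by
      have e : γ y = 0 := h
      rw [e]
      exact AV.rep_zero
    exact ((hγ y).of_rep (x := fun _ => A.o) h1).mono fun n hn => hn.inj AV.rep_zero
  · refine AV.Rep.inj ((hγ y).rep (x := fun _ => A.o) (h.mono fun n hn => ?_)) AV.rep_zero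
    rw [hn]
    exact AV.rep_zero

/-- The diagonal argument. -/
theorem exists_delta {H : α → ℝ} (hH : Tendsto H U atTop) {p : ℝ → α → Prop}
    (h : ∀ d : α → ℝ, (Lo U H fun n => d n * H n) → ¬∀ᶠ n in U, p (d n) n) :
    ∃ δ : ℝ, 0 < δ ∧ ∀ᶠ n in U, ¬p δ n := by
  classical
  by_contra hc
  have h1 : ∀ j : ℕ, ∀ᶠ n in U, p (1 / ((j : ℝ) + 1)) n := fun j => by
    by_contra h2
    exact hc ⟨_, Nat.one_div_pos_of_nat, Ultrafilter.eventually_not.2 h2⟩
  refine h (fun n => 1 / ((Nat.findGreatest (fun j => p (1 / ((j : ℝ) + 1)) n) ⌊H n⌋₊ : ℝ) + 1))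
    (fun ε hε => ?_) ((h1 0).mono fun n hn => ?_)
  · obtain ⟨N, hN⟩ := exists_nat_one_div_lt hε
    filter_upwards [h1 N, hH.eventually_ge_atTop N] with n hn hn'
    have h0 : 0 ≤ H n := (Nat.cast_nonneg N).trans hn'
    have h2 : N ≤ Nat.findGreatest (fun j => p (1 / ((j : ℝ) + 1)) n) ⌊H n⌋₊ :=
      Nat.le_findGreatest ((Nat.le_floor_iff h0).2 hn') hn
    exact mul_le_mul_of_nonneg_right ((Nat.one_div_le_one_div h2).trans hN.le) h0
  · exact Nat.findGreatest_spec (P := fun j => p (1 / ((j : ℝ) + 1)) n) (Nat.zero_le _) hn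

end Pool.Agent.Lib.MP_651af7_nt.Av
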