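import Pool.Agent.Lib.MP_651af7_nt.FinGl

/-! Consequences of the Nullstellensatz: certificates, local lower bounds, finite maps given by
forms without common zero. -/

namespace Pool.Agent.Lib.MP_651af7_nt.Av

open MvPolynomial Pool.Agent.MP_651af7_nt.Final

attribute [local instance] MvPolynomial.gradedAlgebra

section cert

variable {K : Type} [Field K] {σ κ : Type} [Finite σ] [Fintype κ]

theorem null_cert (Ω : Type) [Field Ω] [IsAlgClosed Ω] [Algebra K Ω]
    (J : Ideal (MvPolynomial σ K)) (E : κ → MvPolynomial σ K) (p : MvPolynomial σ K)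
    (h : ∀ z : σ → Ω, (∀ f ∈ J, aeval z f = 0) → (∀ j, aeval z (E j) = 0) → aeval z p = 0) :
    ∃ M₀ : ℕ, ∀ M, M₀ ≤ M → ∃ H : κ → MvPolynomial σ K, p ^ M - ∑ j, H j * E j ∈ J := by
  have hrad : p ∈ (J ⊔ Ideal.span (Set.range E)).radical := by
    rw [← vanishingIdeal_zeroLocus_eq_radical (K := Ω), mem_vanishingIdeal_iff]
    intro z hz
    exact h z (fun f hf => hz f (Ideal.mem_sup_left hf))
      fun j => hz _ (Ideal.mem_sup_right (Ideal.subset_span ⟨j, rfl⟩))
  obtain ⟨n, hn⟩ := hrad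
  refine ⟨n, fun M hM => ?_⟩
  obtain ⟨f, hf, g, hg, e⟩ := Submodule.mem_sup.1 (Ideal.pow_mem_of_pow_mem _ hn hM)
  obtain ⟨H, rfl⟩ := Ideal.mem_span_range_iff_exists_fun.1 hg
  exact ⟨H, by rw [← e, add_sub_cancel_right]; exact hf⟩

theorem local_lower [Height.AdmissibleAbsValues K] (Ω : Type) [Field Ω] [IsAlgClosed Ω]
    [Algebra K Ω] (J : Ideal (MvPolynomial σ K)) (E : κ → MvPolynomial σ K) (p : MvPolynomial σ K)
    (h : ∀ z : σ → Ω, (∀ f ∈ J, aeval z f = 0) → (∀ j, aeval z (E j) = 0) → aeval z p = 0) :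
    ∃ c : AbsoluteValue K ℝ → ℝ, FS c ∧ (∀ v, 0 ≤ c v) ∧ ∀ (v : AbsoluteValue K ℝ) (z : σ → K),
      (∀ f ∈ J, eval z f = 0) → (∀ i, v (z i) ≤ 1) → v (eval z p) = 1 →
      1 ≤ Real.exp (c v) * nm (fun j => eval z (E j)) v := by
  obtain ⟨M, hM⟩ := null_cert Ω J E p h
  obtain ⟨H, hH⟩ := hM M le_rfl
  obtain ⟨c₁, f₁, n₁, h₁⟩ := exists_unif (α := κ) (K := K)
    (P := fun j v t => ∀ z : σ → K, (∀ i, v (z i) ≤ 1) → v (eval z (H j)) ≤ Real.exp t)
    (fun j v t t' ht h z hz => (h z hz).trans (Real.exp_le_exp.2 ht)) fun j => by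
      obtain ⟨c, h1, h2, h3⟩ := exists_poly_bound (H j)
      refine ⟨c, h1, h2, fun v z hz => ?_⟩
      have := h3 v z 1 zero_le_one fun m _ => Finset.prod_le_one (fun i _ => by positivity)
        fun i _ => pow_le_one₀ (v.nonneg _) (hz i)
      rwa [mul_one] at this
  obtain ⟨c₂, f₂, n₂, h₂⟩ := exists_lin_bound (K := K) Finset.univ fun _ : κ => 1
  refine ⟨fun v => c₂ v + c₁ v, f₂.add f₁, fun v => add_nonneg (n₂ v) (n₁ v),
    fun v z hz h1 hp => ?_⟩
  have e := hz _ hH
  rw [map_sub, map_pow, map_sum, sub_eq_zero] at e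
  have hn : 0 ≤ nm (fun j => eval z (E j)) v := Real.iSup_nonneg fun _ => v.nonneg _
  have h3 := h₂ v (fun j => eval z (H j * E j)) (Real.exp (c₁ v) * nm (fun j => eval z (E j)) v)
    (by positivity) fun j _ => by
      rw [map_mul, map_mul]
      exact mul_le_mul (h₁ j v z h1) (le_nm (fun j => eval z (E j)) v j) (v.nonneg _)
        (Real.exp_pos _).le
  simp only [one_mul] at h3
  rw [← e, map_pow, hp, one_pow] at h3
  rw [Real.exp_add, mul_assoc]
  exact h3

end cert

section finite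

variable {F : Type} [Field F] {ι κ : Type} [Fintype κ]

theorem homog_cert {J : Ideal (MvPolynomial ι F)} (hJ : J.IsHomogeneous (homogeneousSubmodule ι F))
    {δ : κ → MvPolynomial ι F} {d n : ℕ} (hδ : ∀ j, (δ j).IsHomogeneous d)
    {p : MvPolynomial ι F} (hp : p.IsHomogeneous (n + d)) {H : κ → MvPolynomial ι F}
    (h : p - ∑ j, H j * δ j ∈ J) : ∃ H' : κ → MvPolynomial ι F, (∀ j, (H' j).IsHomogeneous n) ∧
      p - ∑ j, H' j * δ j ∈ J := by
  classical
  refine ⟨fun j => homogeneousComponent n (H j),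
    fun j => homogeneousComponent_isHomogeneous _ _, ?_⟩
  have h1 := homogeneousComponent_mem_of_mem hJ h (n + d)
  rw [map_sub, map_sum, homogeneousComponent_eq_self hp] at h1
  have h2 : ∀ j, homogeneousComponent (n + d) (H j * δ j) = homogeneousComponent n (H j) * δ j :=
    fun j => by
      have := DirectSum.coe_decompose_mul_add_of_right_mem (homogeneousSubmodule ι F)
        (a := H j) (i := n) (hδ j)
      exact ((decomposition.decompose'_apply _ _).symm.trans
        (this.trans (congrArg (· * δ j) (decomposition.decompose'_apply _ _))))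
  simpa only [h2] using h1

/-- Forms of the same positive degree that generate a power of every variable modulo a
homogeneous ideal make the quotient a finite module. -/
theorem finite_of_forms [Fintype ι] {J : Ideal (MvPolynomial ι F)}
    (hJ : J.IsHomogeneous (homogeneousSubmodule ι F)) {δ : κ → MvPolynomial ι F} {d : ℕ}
    (hd : 1 ≤ d) (hδ : ∀ j, (δ j).IsHomogeneous d)
    (h : ∀ a, ∃ M₀ : ℕ, ∀ M, M₀ ≤ M → ∃ H : κ → MvPolynomial ι F, X a ^ M - ∑ j, H j * δ j ∈ J) :
    ((Ideal.Quotient.mkₐ F J).comp (aeval δ)).toRingHom.Finite := by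
  classical
  choose M₀ hM₀ using h
  obtain ⟨n, hn⟩ : ∃ n, ∀ a, M₀ a ≤ n + d :=
    ⟨∑ a, M₀ a, fun a => (Finset.single_le_sum (f := M₀) (fun _ _ => Nat.zero_le _)
      (Finset.mem_univ a)).trans (Nat.le_add_right _ _)⟩
  have h1 : ∀ a, ∃ H' : κ → MvPolynomial ι F, (∀ j, (H' j).IsHomogeneous n) ∧
      X a ^ (n + d) - ∑ j, H' j * δ j ∈ J := fun a => by
    obtain ⟨H, hH⟩ := hM₀ a _ (hn a)
    exact homog_cert hJ hδ (by simpa using (isHomogeneous_X F a).pow (n + d)) hH
  choose H hH hHJ using h1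
  let ψ := (Ideal.Quotient.mkₐ F J).comp (aeval δ)
  let _ : Algebra (MvPolynomial κ F) (MvPolynomial ι F ⧸ J) := ψ.toRingHom.toAlgebra
  let π := Ideal.Quotient.mk J
  have hs : ∀ (q : MvPolynomial κ F) (r : MvPolynomial ι F),
      q • π r = π (aeval δ q * r) := fun q r => rfl
  let T : Set (ι →₀ ℕ) := {μ | ∀ a, μ a ≤ n + d}
  have hT : T.Finite := by
    refine Set.Finite.subset (Set.finite_Iic (Finsupp.equivFunOnFinite.symm fun _ => n + d)) ?_
    exact fun μ hμ a => hμ a
  let N : Submodule (MvPolynomial κ F) (MvPolynomial ι F ⧸ J) :=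
    Submodule.span _ ((fun μ => π (monomial μ 1)) '' T)
  have hmon : ∀ (m : ℕ) (p : MvPolynomial ι F), p.IsHomogeneous m → π p ∈ N := by
    intro m
    induction m using Nat.strong_induction_on with
    | _ m ih =>
      intro p hp
      rw [p.as_sum, map_sum]
      refine N.sum_mem fun μ hμ => ?_
      have e : π (monomial μ (coeff μ p)) = (C (coeff μ p) : MvPolynomial κ F) •
          π (monomial μ 1) := by
        rw [hs, aeval_C, algebraMap_eq, C_mul_monomial, mul_one]
      rw [e]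
      refine N.smul_mem _ ?_
      by_cases hμT : μ ∈ T
      · exact Submodule.subset_span ⟨μ, hμT, rfl⟩
      obtain ⟨a, ha⟩ : ∃ a, n + d < μ a := by simpa [T] using hμT
      obtain ⟨ν, rfl⟩ : ∃ ν, μ = ν + Finsupp.single a (n + d) :=
        ⟨μ - Finsupp.single a (n + d),
          (tsub_add_cancel_of_le (Finsupp.single_le_iff.2 ha.le)).symm⟩
      have hdeg : ν.degree + (n + d) = m := by
        have : (ν + Finsupp.single a (n + d)).degree = m := by
          rw [Finsupp.degree_eq_weight_one]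
          exact hp (mem_support_iff.1 hμ)
        rwa [map_add, Finsupp.degree_single] at this
      have e2 : π (monomial (ν + Finsupp.single a (n + d)) 1) =
          ∑ j, (X j : MvPolynomial κ F) • π (monomial ν 1 * H a j) := by
        have e3 : π (X a ^ (n + d)) = π (∑ j, H a j * δ j) := Ideal.Quotient.eq.2 (hHJ a)
        rw [← mul_one (1 : F), ← monomial_mul, ← X_pow_eq_monomial, map_mul, e3, ← map_mul,
          Finset.mul_sum, map_sum]
        refine Finset.sum_congr rfl fun j _ => ?_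
        rw [hs, aeval_X, mul_one]
        exact congrArg π (by ring)
      rw [e2]
      refine N.sum_mem fun j _ => N.smul_mem _ (ih (ν.degree + n) (by omega) _ ?_)
      exact (isHomogeneous_monomial 1 rfl).mul (hH a j)
  refine ⟨⟨(hT.image fun μ => π (monomial μ 1)).toFinset, ?_⟩⟩
  rw [Set.Finite.coe_toFinset, eq_top_iff]
  rintro r -
  obtain ⟨p, rfl⟩ := Ideal.Quotient.mk_surjective r
  rw [← sum_homogeneousComponent p, map_sum]
  exact N.sum_mem fun m _ => hmon m _ (homogeneousComponent_isHomogeneous _ _)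

end finite

section lift

variable {F R S Ω : Type} [Field F] [CommRing R] [CommRing S] [Algebra F R] [Algebra F S]
  [Field Ω] [Algebra F Ω]

theorem lift_point [IsAlgClosed Ω] (φ : R →ₐ[F] S) (hφ : φ.toRingHom.IsIntegral) (f : R →ₐ[F] Ω)
    (h : ∀ r, φ r = 0 → f r = 0) : ∃ g : S →ₐ[F] Ω, ∀ r, g (φ r) = f r := by
  let _ : Algebra R S := φ.toRingHom.toAlgebra
  have : Algebra.IsIntegral R S := ⟨hφ⟩
  let P : Ideal R := RingHom.ker f
  have : P.IsPrime := RingHom.ker_isPrime f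
  obtain ⟨Q, -, hQ, e⟩ := Ideal.exists_ideal_over_prime_of_isIntegral (S := S) P ⊥
    fun r hr => h r hr
  have : Q.LiesOver P := ⟨e.symm⟩
  let _ : Algebra (R ⧸ P) Ω := (RingHom.kerLift (f : R →+* Ω)).toAlgebra
  have : FaithfulSMul (R ⧸ P) Ω :=
    (faithfulSMul_iff_algebraMap_injective _ _).2 (RingHom.kerLift_injective _)
  let l : (S ⧸ Q) →ₐ[R ⧸ P] Ω := IsAlgClosed.lift
  have hl : ∀ r, l (Ideal.Quotient.mk Q (φ r)) = f r := fun r =>
    l.commutes (Ideal.Quotient.mk P r)
  refine ⟨⟨l.toRingHom.comp (Ideal.Quotient.mk Q), fun c => ?_⟩, hl⟩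
  have := hl (algebraMap F R c)
  rw [φ.commutes, f.commutes] at this
  exact this

theorem injective_of_integral [IsDomain R] [Algebra.FiniteType F R] (φ : R →ₐ[F] R)
    (hφ : φ.toRingHom.IsIntegral) : Function.Injective φ := by
  have h1 : Algebra.IsAlgebraic (Algebra.adjoin F (Set.range φ)) R := by
    refine ⟨fun r => IsIntegral.isAlgebraic ?_⟩
    let φ' : R →+* Algebra.adjoin F (Set.range φ) :=
      (φ : R →+* R).codRestrict _ fun x => Algebra.subset_adjoin ⟨x, rfl⟩
    obtain ⟨p, hp, e⟩ := hφ r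
    refine ⟨p.map φ', hp.map _, ?_⟩
    rw [Polynomial.eval₂_map]
    exact e
  obtain ⟨t, ht, hb⟩ := exists_isTranscendenceBasis_subset (R := F) (Set.range φ)
  choose r hr using fun i : t => ht i.2
  have h2 : AlgebraicIndependent F (φ ∘ r) := by
    have : φ ∘ r = ((↑) : t → R) := funext hr
    rw [this]
    exact hb.1
  have h3 := (h2.of_comp φ).isTranscendenceBasis_of_trdeg_le
    (trdeg_lt_aleph0_of_finiteType) hb.cardinalMk_eq_trdeg.ge
  rw [injective_iff_map_eq_zero]
  intro f hf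
  by_contra h0
  have h4 := Ideal.comap_ne_bot_of_algebraic_mem (I := RingHom.ker φ) h0 hf
    (h3.isAlgebraic.isAlgebraic f)
  obtain ⟨⟨c, hc⟩, h5, h6⟩ := Submodule.exists_mem_ne_zero_of_ne_bot h4
  rw [Algebra.adjoin_range_eq_range_aeval] at hc
  obtain ⟨p, rfl⟩ := hc
  have h7 : aeval (φ ∘ r) p = 0 := by
    rw [← show φ (aeval r p) = 0 from h5]
    exact (comp_aeval_apply r φ p).symm
  have h8 : p = 0 := h2 (by rw [h7, map_zero])
  exact h6 (Subtype.ext (by simp [h8]))

theorem finite_fibre {ι κ : Type} [Finite ι] {J : Ideal (MvPolynomial ι F)}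
    {δ : κ → MvPolynomial ι F}
    (hφ : ((Ideal.Quotient.mkₐ F J).comp (aeval δ)).toRingHom.IsIntegral) (x : κ → Ω) :
    {y : ι → Ω | (∀ f ∈ J, aeval y f = 0) ∧ ∀ j, aeval y (δ j) = x j}.Finite := by
  choose p hp e using fun a : ι => hφ (Ideal.Quotient.mk J (X a))
  refine (Set.Finite.pi' 
    (t := fun a => ((p a).map ((aeval x : MvPolynomial κ F →ₐ[F] Ω) : _ →+* Ω)).rootSet Ω)
    fun a => Polynomial.rootSet_finite _ _).subset ?_
  rintro y ⟨h1, h2⟩ a
  let g : (MvPolynomial ι F ⧸ J) →ₐ[F] Ω := Ideal.Quotient.liftₐ J (aeval y) h1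
  have h3 : (g : _ →+* Ω).comp ((Ideal.Quotient.mkₐ F J).comp (aeval δ)).toRingHom =
      (aeval x : MvPolynomial κ F →ₐ[F] Ω) := by
    have : g.comp ((Ideal.Quotient.mkₐ F J).comp (aeval δ)) = aeval x := by
      ext j
      simp [g, h2]
    rw [← this]
    rfl
  have h4 := congrArg (g : _ →+* Ω) (e a)
  rw [Polynomial.hom_eval₂, map_zero, h3] at h4
  rw [Polynomial.mem_rootSet_of_ne ((hp a).map _).ne_zero, Polynomial.coe_aeval_eq_eval,
    Polynomial.eval_map]
  simpa [g] using h4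

/-- Forms without common zero that map an irreducible cone to itself map it onto itself. -/
theorem forms_onto [IsAlgClosed Ω] {ι : Type} [Finite ι] {J : Ideal (MvPolynomial ι F)}
    [J.IsPrime] {δ : ι → MvPolynomial ι F} (hJ : ∀ f ∈ J, aeval δ f ∈ J)
    (hφ : ((Ideal.Quotient.mkₐ F J).comp (aeval δ)).toRingHom.IsIntegral) (x : ι → Ω)
    (hx : ∀ f ∈ J, aeval x f = 0) :
    ∃ y : ι → Ω, (∀ f ∈ J, aeval y f = 0) ∧ ∀ a, aeval y (δ a) = x a := by
  let ψ := (Ideal.Quotient.mkₐ F J).comp (aeval δ)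
  let φ : (MvPolynomial ι F ⧸ J) →ₐ[F] (MvPolynomial ι F ⧸ J) :=
    Ideal.Quotient.liftₐ J ψ fun f hf => Ideal.Quotient.eq_zero_iff_mem.2 (hJ f hf)
  have hφ' : φ.toRingHom.IsIntegral :=
    RingHom.IsIntegral.tower_top (Ideal.Quotient.mk J) φ.toRingHom hφ
  have hi := injective_of_integral φ hφ'
  obtain ⟨g, hg⟩ := lift_point ψ hφ (aeval x) fun r hr => hx r
    (Ideal.Quotient.eq_zero_iff_mem.1 (hi (a₁ := Ideal.Quotient.mk J r) (by rw [map_zero]; exact hr)))
  have h1 : ∀ f, aeval (fun a => g (Ideal.Quotient.mk J (X a))) f = g (Ideal.Quotient.mk J f) :=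
    fun f => by
      have : aeval (fun a => g (Ideal.Quotient.mk J (X a))) = g.comp (Ideal.Quotient.mkₐ F J) := by
        ext a
        simp
      rw [this]
      rfl
  refine ⟨fun a => g (Ideal.Quotient.mk J (X a)), fun f hf => ?_, fun a => ?_⟩
  · rw [h1, Ideal.Quotient.eq_zero_iff_mem.2 hf, map_zero]
  · rw [h1]
    simpa [ψ] using hg (X a)

end lift

end Pool.Agent.Lib.MP_651af7_nt.Av
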