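import Pool.Agent.Lib.MP_651af7_nt.Av.Defs
import Pool.Agent.Lib.MP_651af7_nt.Av.MWNull

/-! The doubling forms; multiplication by two is onto with finite kernel. -/

namespace Pool.Agent.Lib.MP_651af7_nt.Av

open MvPolynomial

variable {k : Type} [Field k] {ι : Type}

theorem hom_diag {P : MvPolynomial (ι ⊕ ι) k} {d e : ℕ}
    (hP : P.IsWeightedHomogeneous (bw ι ι) (d, e)) :
    (aeval (Sum.elim X X : ι ⊕ ι → MvPolynomial ι k) P).IsHomogeneous (d + e) := by
  have h1 : P.IsHomogeneous (d + e) := by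
    intro m hm
    have h := hP hm
    rw [Finsupp.weight_apply, Finsupp.sum] at h ⊢
    have h2 : ∀ i, m i • (1 : ι ⊕ ι → ℕ) i = (m i • bw ι ι i).1 + (m i • bw ι ι i).2 := by
      rintro (a | b) <;> simp [bw]
    simp only [h2, Finset.sum_add_distrib, ← Prod.fst_sum, ← Prod.snd_sum, h]
  have h2 := h1.aeval (Sum.elim X X : ι ⊕ ι → MvPolynomial ι k) (n := 1) (by
    rintro (a | a) <;> exact isHomogeneous_X k a)
  rwa [one_mul] at h2

namespace AV

variable (A : AV k ι)

/-- The quartic forms that give the doubling map. -/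
noncomputable def dbl (a : ι) : MvPolynomial ι k := aeval (Sum.elim X X) (A.Φ a A.ao)

/-- The forms of degree `4 ^ j` that give the multiplication by `2 ^ j`. -/
noncomputable def mulP : ℕ → ι → MvPolynomial ι k
  | 0 => X
  | j + 1 => fun a => aeval (mulP j) (A.dbl a)

theorem dbl_hom (a : ι) : (A.dbl a).IsHomogeneous 4 := hom_diag (A.bih a A.ao)

theorem mulP_hom (j : ℕ) (a : ι) : (A.mulP j a).IsHomogeneous (4 ^ j) := by
  induction j generalizing a with
  | zero => exact isHomogeneous_X k a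
  | succ j ih => exact (A.dbl_hom a).aeval _ ih

variable {A} {R : Type} [CommRing R] [Algebra k R]

theorem aeval_dbl (v : ι → R) (a : ι) : aeval v (A.dbl a) = A.ph a A.ao v v := by
  rw [dbl, ph, ← AlgHom.comp_apply, comp_aeval]
  congr 2
  ext (c | c) <;> simp

theorem aeval_mulP_zero (v : ι → R) (a : ι) : aeval v (A.mulP 0 a) = v a := aeval_X v a

theorem aeval_mulP_succ (v : ι → R) (j : ℕ) (a : ι) :
    aeval v (A.mulP (j + 1) a) = aeval (fun b => aeval v (A.mulP j b)) (A.dbl a) := by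
  rw [mulP, ← AlgHom.comp_apply, comp_aeval]

variable [IsLocalRing R]

theorem ph_self {p : A.Pt R} {v : ι → R} (h : Rep p v) (a b : ι) :
    A.ph a b v v = aeval v (A.dbl a) * algebraMap k R (A.o b) := by
  obtain ⟨c, hc⟩ := law h h (rep_co _) (by rw [sub_self]; exact rep_zero)
  rw [aeval_dbl, hc, hc, A.o_ao, map_one]
  ring

theorem Rep.dbl {p : A.Pt R} {v : ι → R} (h : Rep p v) :
    Rep (p + p) fun a => aeval v (A.dbl a) := by
  obtain ⟨c, hc⟩ := law h h (rep_co _) (by rw [sub_self]; exact rep_zero)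
  have : (fun a => aeval v (A.dbl a)) = fun a => c * (p + p).co a := funext fun a => by
    rw [aeval_dbl, hc, A.o_ao, map_one, mul_one]
  rw [this]
  exact (rep_co _).smul c.isUnit

theorem Rep.mulP {p : A.Pt R} {v : ι → R} (h : Rep p v) (j : ℕ) :
    Rep (2 ^ j • p) fun a => aeval v (A.mulP j a) := by
  induction j with
  | zero => simpa [aeval_mulP_zero] using h
  | succ j ih =>
    simp only [aeval_mulP_succ]
    rw [pow_succ, mul_two, add_nsmul]
    exact ih.dbl

section field

variable {F : Type} [Field F] [Algebra k F]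

theorem Rep.ne_zero {p : A.Pt F} {v : ι → F} (h : Rep p v) : v ≠ 0 := by
  obtain ⟨a, ha⟩ := h.unit
  exact fun h0 => ha.ne_zero (congrFun h0 a)

theorem exists_rep_of_ne {v : ι → F} (h0 : v ≠ 0) (hz : ∀ P ∈ A.I, aeval v P = 0) :
    ∃ p : A.Pt F, Rep p v := by
  obtain ⟨a, ha⟩ := Function.ne_iff.1 h0
  exact exists_rep ⟨a, Ne.isUnit ha⟩ hz

theorem Rep.div {p : A.Pt F} {v : ι → F} (h : Rep p v) {c : F} (hc : c ≠ 0) :
    Rep p fun a => c⁻¹ * v a := h.smul (Ne.isUnit (inv_ne_zero hc))

theorem exists_rep_one (p : A.Pt F) : ∃ (v : ι → F) (a : ι), Rep p v ∧ v a = 1 := by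
  obtain ⟨a, ha⟩ := (rep_co p).unit
  exact ⟨_, a, (rep_co p).div ha.ne_zero, inv_mul_cancel₀ ha.ne_zero⟩

theorem isPrime (A : AV k ι) : A.I.IsPrime := by
  have h := A.prime k
  have e : (MvPolynomial.map (algebraMap k k) : MvPolynomial ι k →+* MvPolynomial ι k) =
      RingHom.id _ := RingHom.ext fun p => MvPolynomial.map_id p
  rwa [e, Ideal.map_id] at h

attribute [local instance] MvPolynomial.gradedAlgebra in
theorem isHomogeneous (A : AV k ι) : A.I.IsHomogeneous (homogeneousSubmodule ι k) :=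
  fun d P hP => (decomposition.decompose'_apply P d).symm ▸ A.hom P hP d

theorem dbl_integral [Fintype ι] (A : AV k ι) :
    ((Ideal.Quotient.mkₐ k A.I).comp (aeval A.dbl)).toRingHom.IsIntegral := by
  refine RingHom.Finite.to_isIntegral (finite_of_forms A.isHomogeneous (d := 4) (by norm_num)
    A.dbl_hom fun a => null_cert (AlgebraicClosure k) _ _ _ fun z hz h => ?_)
  rw [aeval_X]
  by_contra h0
  obtain ⟨p, hp⟩ := exists_rep_of_ne (A := A) (fun e => h0 (congrFun e a)) hz
  exact hp.dbl.ne_zero (funext h)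

theorem dbl_mem [Finite ι] (A : AV k ι) : ∀ f ∈ A.I, aeval A.dbl f ∈ A.I := by
  intro f hf
  have := A.isPrime
  rw [← IsPrime.vanishingIdeal_zeroLocus (K := AlgebraicClosure k) A.I]
  intro z hz
  rw [← AlgHom.comp_apply, comp_aeval]
  by_cases h0 : z = 0
  · have : (fun a => aeval z (A.dbl a)) = z := funext fun a => by
      have := aeval_mul_of_hom (A.dbl_hom a) (0 : AlgebraicClosure k) z
      simp only [zero_mul] at this
      rw [h0]
      simpa using this
    rw [this]
    exact hz f hf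
  · obtain ⟨p, hp⟩ := exists_rep_of_ne (A := A) h0 hz
    exact hp.dbl.zero f hf

variable [IsAlgClosed F] [Fintype ι]

theorem exists_half (p : A.Pt F) : ∃ q : A.Pt F, q + q = p := by
  have := A.isPrime
  obtain ⟨y, h1, h2⟩ := forms_onto A.dbl_mem A.dbl_integral p.co (rep_co p).zero
  have h0 : y ≠ 0 := by
    rintro rfl
    refine (rep_co p).ne_zero (funext fun a => ?_)
    have := aeval_mul_of_hom (A.dbl_hom a) (0 : F) 0
    simp only [zero_mul] at this
    rw [← h2]
    simpa using this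
  obtain ⟨q, hq⟩ := exists_rep_of_ne (A := A) h0 h1
  have h3 := hq.dbl
  simp only [h2] at h3
  exact ⟨q, h3.inj (rep_co p)⟩

theorem finite_half (p : A.Pt F) : {q : A.Pt F | q + q = p}.Finite := by
  have h1 := finite_fibre A.dbl_integral p.co
  refine (h1.biUnion (t := fun y => {q : A.Pt F | Rep q y})
    fun y _ => Set.Subsingleton.finite fun q hq q' hq' => Rep.inj hq hq').subset fun q hq => ?_
  have hq' : q + q = p := hq
  obtain ⟨u, hu⟩ := (hq' ▸ (rep_co q).dbl).exists_smul (rep_co p)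
  obtain ⟨s, hs⟩ := IsAlgClosed.exists_pow_nat_eq (u : F) (n := 4) (by norm_num)
  have hs0 : s ≠ 0 := by
    rintro rfl
    exact u.ne_zero (by simpa using hs.symm)
  have h2 := (rep_co q).smul (Ne.isUnit hs0)
  refine Set.mem_biUnion (x := fun a => s * q.co a) ⟨h2.zero, fun a => ?_⟩ h2
  rw [aeval_mul_of_hom (A.dbl_hom a), hs, hu]

end field

end AV

end Pool.Agent.Lib.MP_651af7_nt.Av
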