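import Pool.Agent.Lib.MP_651af7_nt.Av.MWDbl

/-! Local bounds for the group law, the approximate parallelogram law and the Northcott property. -/

namespace Pool.Agent.Lib.MP_651af7_nt.Av

open MvPolynomial Height Pool.Agent.MP_651af7_nt.Final

variable {k : Type} [Field k] {ι : Type} [Fintype ι] {K : Type} [Field K] [Algebra k K]

omit [Fintype ι] in
theorem nm_nonneg (x : ι → K) (v : AbsoluteValue K ℝ) : 0 ≤ nm x v :=
  Real.iSup_nonneg fun _ => v.nonneg _

omit [Fintype ι] in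
theorem nm_mul (c : K) (x : ι → K) (v : AbsoluteValue K ℝ) :
    nm (fun a => c * x a) v = v c * nm x v := by
  simp only [nm, map_mul]
  exact (Real.mul_iSup_of_nonneg (v.nonneg c) _).symm

theorem nm_mul_mul {κ : Type} [Fintype κ] (x : ι → K) (y : κ → K) (v : AbsoluteValue K ℝ) :
    nm (fun ab : ι × κ => x ab.1 * y ab.2) v = nm x v * nm y v :=
  Real.iSup_fun_mul_eq_iSup_mul_iSup_of_nonneg v x y

omit [Fintype ι] in
theorem eval_map_alg (z : ι → K) (P : MvPolynomial ι k) :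
    eval z (MvPolynomial.map (algebraMap k K) P) = aeval z P := by
  rw [eval_map, aeval_def]

theorem exists_normal {x : ι → K} (hx : x ≠ 0) (v : AbsoluteValue K ℝ) :
    ∃ a, x a ≠ 0 ∧ v (x a) = nm x v ∧ ∀ b, v ((x a)⁻¹ * x b) ≤ 1 := by
  obtain ⟨i, -⟩ := Function.ne_iff.1 hx
  have : Nonempty ι := ⟨i⟩
  obtain ⟨a, ha⟩ := exists_nm_eq x v
  have h0 : 0 < v (x a) := ha ▸ nm_pos hx v
  refine ⟨a, v.pos_iff.1 h0, ha, fun b => ?_⟩
  rw [map_mul, map_inv₀, inv_mul_le_iff₀ h0, mul_one, ha]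
  exact le_nm x v b

namespace AV

variable [AdmissibleAbsValues K] {A : AV k ι}

/-- The logarithmic height of a point, relative to `K`. -/
noncomputable def htK (p : A.Pt K) : ℝ := logHeight p.co

theorem htK_nonneg (p : A.Pt K) : 0 ≤ htK p := logHeight_nonneg _

theorem Rep.htK {p : A.Pt K} {x : ι → K} (h : Rep p x) : logHeight x = htK p := by
  obtain ⟨u, hu⟩ := h
  obtain rfl : x = (u : K) • p.co := funext hu
  exact logHeight_smul_eq_logHeight _ u.ne_zero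

variable (A K)

theorem phi_low (a b : ι) : ∃ c : AbsoluteValue K ℝ → ℝ, FS c ∧ (∀ v, 0 ≤ c v) ∧
    ∀ (v : AbsoluteValue K ℝ) (x y : ι → K), (∀ P ∈ A.I, aeval x P = 0) →
      (∀ P ∈ A.I, aeval y P = 0) → (∀ a, v (x a) ≤ 1) → (∀ a, v (y a) ≤ 1) → x a = 1 →
      y b = 1 → 1 ≤ Real.exp (c v) * nm (fun ab : ι × ι => A.ph ab.1 ab.2 x y) v := by
  obtain ⟨J, hJ1, hJ2, hJ⟩ : ∃ J : Ideal (MvPolynomial (ι ⊕ ι) K),
      (∀ P ∈ A.I, MvPolynomial.map (algebraMap k K) (rename Sum.inl P) ∈ J) ∧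
      (∀ P ∈ A.I, MvPolynomial.map (algebraMap k K) (rename Sum.inr P) ∈ J) ∧
      ∀ x y : ι → K, (∀ P ∈ A.I, aeval x P = 0) → (∀ P ∈ A.I, aeval y P = 0) →
        ∀ f ∈ J, eval (Sum.elim x y) f = 0 := by
    refine ⟨Ideal.span ((fun P => MvPolynomial.map (algebraMap k K) (rename Sum.inl P)) '' A.I ∪
      (fun P => MvPolynomial.map (algebraMap k K) (rename Sum.inr P)) '' A.I),
      fun P hP => Ideal.subset_span (Or.inl ⟨P, hP, rfl⟩),
      fun P hP => Ideal.subset_span (Or.inr ⟨P, hP, rfl⟩), fun x y hx hy f hf => ?_⟩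
    refine (Ideal.span_le (I := RingHom.ker (eval (Sum.elim x y)))).2 ?_ hf
    rintro _ (⟨P, hP, rfl⟩ | ⟨P, hP, rfl⟩)
    · rw [SetLike.mem_coe, RingHom.mem_ker, eval_map_alg, aeval_rename]
      exact hx P hP
    · rw [SetLike.mem_coe, RingHom.mem_ker, eval_map_alg, aeval_rename]
      exact hy P hP
  obtain ⟨c, h1, h2, h3⟩ := local_lower (AlgebraicClosure K) J
    (fun ab : ι × ι => MvPolynomial.map (algebraMap k K) (A.Φ ab.1 ab.2))
    (X (.inl a) * X (.inr b)) fun z hz h => by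
      by_contra h0
      rw [map_mul, aeval_X, aeval_X, mul_eq_zero, not_or] at h0
      obtain ⟨p, hp⟩ := exists_rep_of_ne (A := A) (v := z ∘ .inl)
        (fun e => h0.1 (congrFun e a)) fun P hP => by
          have := hz _ (hJ1 P hP)
          rwa [aeval_map_algebraMap, aeval_rename] at this
      obtain ⟨q, hq⟩ := exists_rep_of_ne (A := A) (v := z ∘ .inr)
        (fun e => h0.2 (congrFun e b)) fun P hP => by
          have := hz _ (hJ2 P hP)
          rwa [aeval_map_algebraMap, aeval_rename] at this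
      obtain ⟨a, b, hu⟩ := exists_unit_ph hp hq
      have := h (a, b)
      rw [aeval_map_algebraMap] at this
      rw [ph, Sum.elim_comp_inl_inr, this] at hu
      exact hu.ne_zero rfl
  refine ⟨c, h1, h2, fun v x y hx hy hx1 hy1 ha hb => ?_⟩
  have := h3 v _ (hJ x y hx hy) (by rintro (i | i); exacts [hx1 i, hy1 i]) (by simp [ha, hb])
  simpa only [eval_map_alg, ph] using this

omit [Fintype ι] in
theorem phi_up (a b : ι) : ∃ c : AbsoluteValue K ℝ → ℝ, FS c ∧ (∀ v, 0 ≤ c v) ∧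
    ∀ (v : AbsoluteValue K ℝ) (x y : ι → K), (∀ a, v (x a) ≤ 1) → (∀ a, v (y a) ≤ 1) →
      v (A.ph a b x y) ≤ Real.exp (c v) := by
  obtain ⟨c, h1, h2, h3⟩ := exists_poly_bound (MvPolynomial.map (algebraMap k K) (A.Φ a b))
  refine ⟨c, h1, h2, fun v x y hx hy => ?_⟩
  have := h3 v (Sum.elim x y) 1 zero_le_one fun m _ => Finset.prod_le_one
    (fun i _ => by positivity) fun i _ => pow_le_one₀ (v.nonneg _)
      (by rcases i with i | i; exacts [hx i, hy i])
  rwa [mul_one, eval_map_alg] at this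

theorem phi_unit : ∃ c : AbsoluteValue K ℝ → ℝ, FS c ∧ (∀ v, 0 ≤ c v) ∧
    ∀ (v : AbsoluteValue K ℝ) (x y : ι → K), (∀ P ∈ A.I, aeval x P = 0) →
      (∀ P ∈ A.I, aeval y P = 0) → (∀ a, v (x a) ≤ 1) → (∀ a, v (y a) ≤ 1) → (∃ a, x a = 1) →
      (∃ a, y a = 1) → nm (fun ab : ι × ι => A.ph ab.1 ab.2 x y) v ≤ Real.exp (c v) ∧
        1 ≤ Real.exp (c v) * nm (fun ab : ι × ι => A.ph ab.1 ab.2 x y) v := by
  choose c₁ f₁ n₁ h₁ using fun ab : ι × ι => phi_low K A ab.1 ab.2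
  choose c₂ f₂ n₂ h₂ using fun ab : ι × ι => phi_up K A ab.1 ab.2
  have hs : ∀ v ab, c₁ ab v + c₂ ab v ≤ ∑ ab, (c₁ ab v + c₂ ab v) := fun v ab =>
    Finset.single_le_sum (f := fun ab => c₁ ab v + c₂ ab v)
      (fun ab _ => add_nonneg (n₁ ab v) (n₂ ab v)) (Finset.mem_univ ab)
  refine ⟨fun v => ∑ ab, (c₁ ab v + c₂ ab v), FS.sum _ fun ab _ => (f₁ ab).add (f₂ ab),
    fun v => Finset.sum_nonneg fun ab _ => add_nonneg (n₁ ab v) (n₂ ab v), ?_⟩
  rintro v x y hx hy hx1 hy1 ⟨a, ha⟩ ⟨b, hb⟩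
  have : Nonempty (ι × ι) := ⟨(a, b)⟩
  constructor
  · exact nm_le fun ab => (h₂ ab v x y hx1 hy1).trans
      (Real.exp_le_exp.2 ((le_add_of_nonneg_left (n₁ ab v)).trans (hs v ab)))
  · exact (h₁ (a, b) v x y hx hy hx1 hy1 ha hb).trans (mul_le_mul_of_nonneg_right
      (Real.exp_le_exp.2 ((le_add_of_nonneg_right (n₂ _ v)).trans (hs v _))) (nm_nonneg _ _))

/-- Two-sided local bound for the forms `Φ`. -/
theorem phi_bound : ∃ c : AbsoluteValue K ℝ → ℝ, FS c ∧ (∀ v, 0 ≤ c v) ∧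
    ∀ (v : AbsoluteValue K ℝ) {p q : A.Pt K} {x y : ι → K}, Rep p x → Rep q y →
      nm (fun ab : ι × ι => A.ph ab.1 ab.2 x y) v ≤ Real.exp (c v) * (nm x v ^ 2 * nm y v ^ 2) ∧
      nm x v ^ 2 * nm y v ^ 2 ≤ Real.exp (c v) * nm (fun ab : ι × ι => A.ph ab.1 ab.2 x y) v := by
  obtain ⟨c, h1, h2, h3⟩ := phi_unit K A
  refine ⟨c, h1, h2, fun v p q x y hx hy => ?_⟩
  obtain ⟨a, a0, a1, a2⟩ := exists_normal hx.ne_zero v
  obtain ⟨b, b0, b1, b2⟩ := exists_normal hy.ne_zero v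
  obtain ⟨h4, h5⟩ := h3 v _ _ (hx.div a0).zero (hy.div b0).zero a2 b2 ⟨a, inv_mul_cancel₀ a0⟩
    ⟨b, inv_mul_cancel₀ b0⟩
  simp only [ph_mul] at h4 h5
  rw [nm_mul, map_mul, map_pow, map_pow, map_inv₀, map_inv₀, a1, b1] at h4 h5
  have p1 := nm_pos hx.ne_zero v
  have p2 := nm_pos hy.ne_zero v
  rw [inv_pow, inv_pow, ← mul_inv] at h4 h5
  have p3 : 0 < nm x v ^ 2 * nm y v ^ 2 := by positivity
  rw [inv_mul_le_iff₀ p3, mul_comm] at h4
  rw [mul_left_comm, le_inv_mul_iff₀ p3, mul_one] at h5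
  exact ⟨h4, h5⟩

/-- The local form of the parallelogram law. -/
theorem ln_law : ∃ c : AbsoluteValue K ℝ → ℝ, FS c ∧ (∀ v, 0 ≤ c v) ∧
    ∀ (v : AbsoluteValue K ℝ) {p q : A.Pt K} {x y : ι → K}, Rep p x → Rep q y →
      |ln (fun ab : ι × ι => A.ph ab.1 ab.2 x y) v - 2 * (ln x v + ln y v)| ≤ c v := by
  obtain ⟨c, h1, h2, h3⟩ := phi_bound K A
  refine ⟨c, h1, h2, fun v p q x y hx hy => ?_⟩
  obtain ⟨h4, h5⟩ := h3 v hx hy
  have p1 := nm_pos hx.ne_zero v
  have p2 := nm_pos hy.ne_zero v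
  have p3 : 0 < nm (fun ab : ι × ι => A.ph ab.1 ab.2 x y) v :=
    (mul_pos_iff_of_pos_left (Real.exp_pos _)).1
      ((by positivity : 0 < nm x v ^ 2 * nm y v ^ 2).trans_le h5)
  have h6 := Real.log_le_log p3 h4
  have h7 := Real.log_le_log (by positivity) h5
  rw [Real.log_mul (by positivity) (by positivity), Real.log_exp,
    Real.log_mul (by positivity) (by positivity), Real.log_pow, Real.log_pow] at h6
  rw [Real.log_mul (by positivity) (by positivity), Real.log_mul (by positivity) p3.ne',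
    Real.log_exp, Real.log_pow, Real.log_pow] at h7
  simp only [ln]
  push_cast at h6 h7
  rw [abs_le]
  constructor <;> linarith

/-- The approximate parallelogram law. -/
theorem ht_parallelogram : ∃ C : ℝ, ∀ p q : A.Pt K,
    |htK (p + q) + htK (p - q) - 2 * (htK p + htK q)| ≤ C := by
  obtain ⟨c, h1, h2, h3⟩ := ln_law K A
  refine ⟨Gl c, fun p q => ?_⟩
  obtain ⟨u, hu⟩ := law (rep_co p) (rep_co q) (rep_co _) (rep_co _)
  have e : (fun ab : ι × ι => A.ph ab.1 ab.2 p.co q.co) =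
      (u : K) • fun ab : ι × ι => (p + q).co ab.1 * (p - q).co ab.2 := funext fun ab => hu _ _
  have h0 : (fun ab : ι × ι => A.ph ab.1 ab.2 p.co q.co) ≠ 0 := by
    obtain ⟨a, b, h⟩ := exists_unit_ph (rep_co p) (rep_co q)
    exact fun e => h.ne_zero (congrFun e (a, b))
  have h4 := Gl_ln h0
  conv_rhs at h4 => rw [e, logHeight_smul_eq_logHeight _ u.ne_zero,
    logHeight_fun_mul_eq (rep_co _).ne_zero (rep_co _).ne_zero]
  have f1 := FS_ln (rep_co p).ne_zero
  have f2 := FS_ln (rep_co q).ne_zero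
  have f3 := (FS_ln h0).sub ((f1.add f2).const_mul 2)
  have h5 := Gl_sub (FS_ln h0) ((f1.add f2).const_mul 2)
  rw [Gl_const_mul, Gl_add f1 f2, h4, Gl_ln (rep_co p).ne_zero, Gl_ln (rep_co q).ne_zero] at h5
  have h6 := Gl_mono f3 h1 fun v => (abs_le.1 (h3 v (rep_co p) (rep_co q))).2
  have h7 := Gl_mono (h1.const_mul (-1)) f3 fun v => by
    have := (abs_le.1 (h3 v (rep_co p) (rep_co q))).1
    linarith
  rw [Gl_const_mul, h5] at h7
  rw [h5] at h6
  simp only [htK]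
  rw [abs_le]
  constructor <;> linarith

/-- Local bound for the multiplication by `2 ^ j`. -/
theorem ln_mulP : ∃ c : AbsoluteValue K ℝ → ℝ, FS c ∧ (∀ v, 0 ≤ c v) ∧
    ∀ (v : AbsoluteValue K ℝ) {p : A.Pt K} {x : ι → K}, Rep p x → ∀ j : ℕ,
      |ln (fun a => aeval x (A.mulP j a)) v - 4 ^ j * ln x v| ≤ 4 ^ j * c v := by
  obtain ⟨c, h1, h2, h3⟩ := ln_law K A
  have h0 : Rep (0 : A.Pt K) fun a => algebraMap k K (A.o a) := rep_zero
  have ho : ∀ v, 0 ≤ ln (fun a => algebraMap k K (A.o a)) v := fun v => by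
    refine Real.log_nonneg ?_
    simpa [A.o_ao] using le_nm (fun a => algebraMap k K (A.o a)) v A.ao
  have h4 : ∀ (v : AbsoluteValue K ℝ) {p : A.Pt K} {x : ι → K}, Rep p x →
      |ln (fun a => aeval x (A.dbl a)) v - 4 * ln x v| ≤
        c v + ln (fun a => algebraMap k K (A.o a)) v := fun v p x hx => by
    have h5 := h3 v hx hx
    simp only [ph_self hx, ln] at h5 ⊢
    rw [nm_mul_mul (fun a => aeval x (A.dbl a)) fun a => algebraMap k K (A.o a),
      Real.log_mul (nm_pos hx.dbl.ne_zero v).ne' (nm_pos h0.ne_zero v).ne', abs_le] at h5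
    have := ho v
    simp only [ln] at this
    rw [abs_le]
    constructor <;> linarith [h5.1, h5.2]
  refine ⟨fun v => c v + ln (fun a => algebraMap k K (A.o a)) v, h1.add (FS_ln h0.ne_zero),
    fun v => add_nonneg (h2 v) (ho v), fun v p x hx j => ?_⟩
  have h5 := add_nonneg (h2 v) (ho v)
  replace h4 := fun (p : A.Pt K) (x : ι → K) (hx : Rep p x) => h4 v hx
  beta_reduce
  generalize c v + ln (fun a => algebraMap k K (A.o a)) v = t at h4 h5 ⊢
  suffices h : |ln (fun a => aeval x (A.mulP j a)) v - 4 ^ j * ln x v| ≤ (4 ^ j - 1) / 3 * t by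
    refine h.trans (mul_le_mul_of_nonneg_right ?_ h5)
    have : (0 : ℝ) < 4 ^ j := by positivity
    linarith
  induction j with
  | zero => simp [aeval_mulP_zero]
  | succ j ih =>
    have h6 := h4 _ _ (hx.mulP j)
    simp only [aeval_mulP_succ]
    rw [abs_le] at h6 ih ⊢
    rw [pow_succ]
    constructor <;> linarith [h6.1, h6.2, ih.1, ih.2]

end AV

theorem AV.finite_ht_le [NumberField K] (A : AV k ι) (B : ℝ) :
    {p : A.Pt K | AV.htK p ≤ B}.Finite := by
  have hfin := NumberField.finite_setOfPred_logHeight₁_le (K := K) B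
  have h1 : {y : ι → K | ∀ a, y a ∈ {x : K | logHeight₁ x ≤ B}}.Finite :=
    Set.Finite.pi' fun _ => hfin
  refine (h1.biUnion (t := fun y => {q : A.Pt K | AV.Rep q y})
    fun y _ => Set.Subsingleton.finite fun q hq q' hq' => AV.Rep.inj hq hq').subset fun q hq => ?_
  obtain ⟨y, a, hy, ha⟩ := AV.exists_rep_one q
  refine Set.mem_biUnion (x := y) (fun b => ?_) hy
  have h2 := logHeight_comp_le ![b, a] y
  have h3 : y ∘ ![b, a] = ![y b, 1] := by
    ext i
    fin_cases i <;> simp [ha]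
  rw [h3, ← logHeight₁_eq_logHeight, hy.htK] at h2
  exact h2.trans hq

instance [NumberField K] (A : AV k ι) : Northcott (AV.htK (A := A) (K := K)) := ⟨A.finite_ht_le⟩

end Pool.Agent.Lib.MP_651af7_nt.Av
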