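import Pool.Agent.Lib.MP_651af7_nt.Av.ParA

/-! Block P: the size of the coefficients of implicit functions. -/

namespace Pool.Agent.Lib.MP_651af7_nt.Av

open MvPolynomial Finset

theorem par_one_le_E (na : Prop) {c : ℝ} (h : 1 ≤ c) : 1 ≤ E na c := by
  unfold E
  split_ifs
  exacts [le_rfl, h]

theorem par_E_mul (na : Prop) (c d : ℝ) : E na (c * d) = E na c * E na d := by
  unfold E
  split_ifs <;> simp

theorem par_E_pow (na : Prop) (c : ℝ) (n : ℕ) : E na (c ^ n) = E na c ^ n := by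
  unfold E
  split_ifs <;> simp

variable {k : Type} [Field k] {r : ℕ}

/-- The norm of radius `ρ` of the terms of degree at most `n` is at most `t`. -/
def SLe (v : AbsoluteValue k ℝ) (ρ : ℝ) (n : ℕ) (u : MvPowerSeries (Fin r) k) (t : ℝ) : Prop :=
  ∀ s : Finset (Fin r →₀ ℕ), (∀ β ∈ s, β.degree ≤ n) → (IsNonarchimedean v → s.card ≤ 1) →
    ∑ β ∈ s, v (MvPowerSeries.coeff β u) * ρ ^ β.degree ≤ t

variable {v : AbsoluteValue k ℝ} {ρ t t' : ℝ} {m n : ℕ} {u u' : MvPowerSeries (Fin r) k}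

theorem SLe.nonneg (h : SLe v ρ n u t) : 0 ≤ t := by simpa using h ∅ (by simp) (by simp)

theorem SLe.mono (h : SLe v ρ n u t) (hm : m ≤ n) (ht : t ≤ t') : SLe v ρ m u t' :=
  fun s h1 h2 => (h s (fun β hβ => (h1 β hβ).trans hm) h2).trans ht

theorem SLe.coeff (h : SLe v ρ n u t) {β : Fin r →₀ ℕ} (hβ : β.degree ≤ n) :
    v (MvPowerSeries.coeff β u) * ρ ^ β.degree ≤ t := by
  simpa using h {β} (by simpa using hβ) (by simp)

theorem sle_of_na (hv : IsNonarchimedean v) (ht : 0 ≤ t) (h : ∀ β : Fin r →₀ ℕ, β.degree ≤ n →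
    v (MvPowerSeries.coeff β u) * ρ ^ β.degree ≤ t) : SLe v ρ n u t := by
  intro s h1 h2
  rcases s.eq_empty_or_nonempty with rfl | ⟨β, hβ⟩
  · simpa using ht
  · rw [eq_singleton_iff_unique_mem.2 ⟨hβ, fun γ hγ => card_le_one.1 (h2 hv) γ hγ β hβ⟩,
      sum_singleton]
    exact h β (h1 β hβ)

theorem sle_monomial (hρ : 0 ≤ ρ) (α : Fin r →₀ ℕ) (c : k) :
    SLe v ρ n (MvPowerSeries.monomial α c) (v c * ρ ^ α.degree) := by
  classical
  intro s _ _
  have h1 : ∀ β, v (MvPowerSeries.coeff β (MvPowerSeries.monomial α c)) * ρ ^ β.degree =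
      if β = α then v c * ρ ^ α.degree else 0 := fun β => by
    rw [MvPowerSeries.coeff_monomial]
    split_ifs with h <;> simp [h]
  simp only [h1, sum_ite_eq']
  split_ifs
  exacts [le_rfl, by positivity]

theorem sle_C (hρ : 0 ≤ ρ) (c : k) : SLe v ρ n (MvPowerSeries.C (σ := Fin r) c) (v c) := by
  simpa using sle_monomial (v := v) (n := n) (r := r) hρ 0 c

theorem sle_X (hρ : 0 ≤ ρ) (j : Fin r) : SLe v ρ n (MvPowerSeries.X j) ρ := by
  simpa [MvPowerSeries.X] using sle_monomial (v := v) (n := n) hρ (Finsupp.single j 1) 1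

theorem sle_zero (ht : 0 ≤ t) : SLe v ρ n (0 : MvPowerSeries (Fin r) k) t := fun _ _ _ => by
  simpa using ht

theorem sle_base (h : MvPowerSeries.constantCoeff u = 0) (ht : 0 ≤ t) : SLe v ρ 0 u t := by
  intro s h1 _
  refine (sum_eq_zero fun β hβ => ?_).le.trans ht
  rw [(Finsupp.degree_eq_zero_iff β).1 (Nat.le_zero.1 (h1 β hβ))]
  simp [h]

theorem SLe.neg (h : SLe v ρ n u t) : SLe v ρ n (-u) t := by
  simpa [SLe] using h

theorem SLe.scale (h : SLe v ρ n u t) (hρ : 0 ≤ ρ) (h0 : MvPowerSeries.constantCoeff u = 0) {l : ℝ}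
    (hl : 0 ≤ l) (hl1 : l ≤ 1) : SLe v (l * ρ) n u (l * t) := by
  intro s h1 h2
  refine le_trans ?_ (mul_le_mul_of_nonneg_left (h s h1 h2) hl)
  rw [mul_sum]
  refine sum_le_sum fun β _ => ?_
  by_cases hβ : β = 0
  · simp [hβ, h0]
  rw [mul_pow, mul_left_comm]
  exact mul_le_mul_of_nonneg_right
    (pow_le_of_le_one hl hl1 ((Finsupp.degree_eq_zero_iff β).not.2 hβ)) (by positivity)

theorem par_na_sum (hv : IsNonarchimedean v) {J : Type} (s : Finset J) (f : J → k) {c : ℝ}
    (hc : 0 ≤ c) (ht : 0 ≤ t) (h : ∀ i ∈ s, v (f i) * c ≤ t) : v (∑ i ∈ s, f i) * c ≤ t := by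
  refine sum_induction _ (fun y => v y * c ≤ t) (fun y z hy hz => ?_) (by simpa using ht) h
  refine (mul_le_mul_of_nonneg_right (hv y z) hc).trans ?_
  rw [max_mul_of_nonneg _ _ hc]
  exact max_le hy hz

theorem sle_sum (hρ : 0 ≤ ρ) {J : Type} (s : Finset J) {f : J → MvPowerSeries (Fin r) k} {c : ℝ}
    (hc : s.card ≤ c) (ht : 0 ≤ t) (h : ∀ i ∈ s, SLe v ρ n (f i) t) :
    SLe v ρ n (∑ i ∈ s, f i) (E (IsNonarchimedean v) c * t) := by
  by_cases hv : IsNonarchimedean v
  · rw [E, if_pos hv, one_mul]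
    refine sle_of_na hv ht fun β hβ => ?_
    rw [map_sum]
    exact par_na_sum hv s _ (by positivity) ht fun i hi => (h i hi).coeff hβ
  · rw [E, if_neg hv]
    intro s' h1 h2
    calc ∑ β ∈ s', v (MvPowerSeries.coeff β (∑ i ∈ s, f i)) * ρ ^ β.degree
        ≤ ∑ β ∈ s', ∑ i ∈ s, v (MvPowerSeries.coeff β (f i)) * ρ ^ β.degree := by
          refine sum_le_sum fun β _ => ?_
          rw [map_sum, ← sum_mul]
          exact mul_le_mul_of_nonneg_right (v.sum_le _ _) (by positivity)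
      _ ≤ ∑ _i ∈ s, t := by
          rw [sum_comm]
          exact sum_le_sum fun i hi => h i hi s' h1 h2
      _ ≤ c * t := by
          rw [sum_const, nsmul_eq_mul]
          exact mul_le_mul_of_nonneg_right hc ht

theorem SLe.add (hρ : 0 ≤ ρ) (h : SLe v ρ n u t) (h' : SLe v ρ n u' t) :
    SLe v ρ n (u + u') (E (IsNonarchimedean v) 2 * t) := by
  simpa using sle_sum hρ (univ : Finset (Fin 2)) (f := ![u, u']) (c := 2) (by simp) h.nonneg
    (by simp [Fin.forall_fin_two, h, h'])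

theorem SLe.mul_aux (hρ : 0 ≤ ρ) (h : SLe v ρ n u t) (h' : SLe v ρ n u' t')
    (hm : ∀ a b : Fin r →₀ ℕ, a.degree + b.degree ≤ m → (a.degree ≤ n ∧ b.degree ≤ n) ∨
      MvPowerSeries.coeff a u * MvPowerSeries.coeff b u' = 0) : SLe v ρ m (u * u') (t * t') := by
  classical
  let T : MvPowerSeries (Fin r) k → (Fin r →₀ ℕ) → ℝ :=
    fun u β => v (MvPowerSeries.coeff β u) * ρ ^ β.degree
  have hT : ∀ u β, 0 ≤ T u β := fun u β => by positivity
  have hab : ∀ a b : Fin r →₀ ℕ, v (MvPowerSeries.coeff a u * MvPowerSeries.coeff b u') *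
      ρ ^ (a + b).degree = T u a * T u' b := fun a b => by
    simp only [T, map_mul, map_add, pow_add]
    ring
  have ht := mul_nonneg h.nonneg h'.nonneg
  by_cases hv : IsNonarchimedean v
  · refine sle_of_na hv ht fun β hβ => ?_
    rw [MvPowerSeries.coeff_mul]
    refine par_na_sum hv _ _ (by positivity) ht fun q hq => ?_
    rw [← mem_antidiagonal.1 hq] at hβ ⊢
    rcases hm q.1 q.2 (by rwa [← map_add]) with h1 | h1
    · rw [hab]
      exact mul_le_mul (h.coeff h1.1) (h'.coeff h1.2) (hT _ _) h.nonneg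
    · simpa [h1] using ht
  intro s h1 _
  let s' := (Finsupp.finite_of_degree_le (σ := Fin r) n).toFinset
  have hs : ∀ β, β ∈ s' ↔ β.degree ≤ n := fun β => Set.Finite.mem_toFinset _
  calc ∑ β ∈ s, T (u * u') β ≤ ∑ β ∈ s, ∑ q ∈ antidiagonal β, T u q.1 * T u' q.2 := by
        refine sum_le_sum fun β _ => ?_
        simp only [← hab]
        simp only [T, MvPowerSeries.coeff_mul]
        refine (mul_le_mul_of_nonneg_right (v.sum_le _ _) (by positivity)).trans ?_
        rw [sum_mul]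
        exact sum_le_sum fun q hq => le_of_eq (by rw [mem_antidiagonal.1 hq])
    _ = ∑ q ∈ s.biUnion antidiagonal, T u q.1 * T u' q.2 := by
        refine (sum_biUnion fun l _ l' _ hll => disjoint_left.2 fun q hq hq' => hll ?_).symm
        rw [← mem_antidiagonal.1 hq, ← mem_antidiagonal.1 hq']
    _ ≤ ∑ q ∈ s' ×ˢ s', T u q.1 * T u' q.2 := by
        rw [← sum_filter_ne_zero]
        refine sum_le_sum_of_subset_of_nonneg (fun q hq => ?_)
          fun _ _ _ => mul_nonneg (hT _ _) (hT _ _)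
        obtain ⟨hq, h0⟩ := mem_filter.1 hq
        obtain ⟨β, hβ, hq⟩ := mem_biUnion.1 hq
        have h2 := h1 β hβ
        rw [← mem_antidiagonal.1 hq, map_add] at h2
        rcases hm _ _ h2 with h3 | h3
        · exact mem_product.2 ⟨(hs _).2 h3.1, (hs _).2 h3.2⟩
        · exact absurd (by rw [← hab, h3, map_zero, zero_mul]) h0
    _ ≤ t * t' := by
        rw [sum_product' (f := fun a b => T u a * T u' b), ← sum_mul_sum]
        exact mul_le_mul (h s' (fun β => (hs β).1) fun h => absurd h hv)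
          (h' s' (fun β => (hs β).1) fun h => absurd h hv) (sum_nonneg fun _ _ => hT _ _) h.nonneg

theorem SLe.mul (hρ : 0 ≤ ρ) (h : SLe v ρ n u t) (h' : SLe v ρ n u' t') :
    SLe v ρ n (u * u') (t * t') :=
  h.mul_aux hρ h' fun _ _ _ => .inl ⟨by omega, by omega⟩

theorem SLe.mul_succ (hρ : 0 ≤ ρ) (h : SLe v ρ n u t) (h' : SLe v ρ n u' t')
    (h0 : MvPowerSeries.constantCoeff u = 0) (h0' : MvPowerSeries.constantCoeff u' = 0) :
    SLe v ρ (n + 1) (u * u') (t * t') := by
  refine h.mul_aux hρ h' fun a b hab => ?_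
  by_cases ha : a = 0
  · exact .inr (by simp [ha, h0])
  by_cases hb : b = 0
  · exact .inr (by simp [hb, h0'])
  have h1 := (Finsupp.degree_eq_zero_iff a).not.2 ha
  have h2 := (Finsupp.degree_eq_zero_iff b).not.2 hb
  exact .inl ⟨by omega, by omega⟩

section taylor

variable {σ : Type} [Fintype σ]

/-- The part of the Taylor expansion that is linear in `w`. -/
noncomputable def parL (x : σ → k) (w : σ → MvPowerSeries (Fin r) k) (f : MvPolynomial σ k) :
    MvPowerSeries (Fin r) k := ∑ b, MvPowerSeries.C (aeval x (pderiv b f)) * w b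

theorem parL_mul_X (x : σ → k) (w : σ → MvPowerSeries (Fin r) k) (f : MvPolynomial σ k) (b : σ) :
    parL x w (f * X b) =
      MvPowerSeries.C (aeval x f) * w b + MvPowerSeries.C (x b) * parL x w f := by
  classical
  simp only [parL, pderiv_mul, map_add, map_mul, add_mul, sum_add_distrib, aeval_X, mul_sum]
  rw [add_comm, sum_eq_single b (fun c _ hc => by simp [pderiv_X_of_ne hc.symm]) (by simp)]
  simp only [pderiv_X_self, map_one, mul_one]
  congr 1
  exact sum_congr rfl fun c _ => by ring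

variable {x : σ → k} {ξ w : σ → MvPowerSeries (Fin r) k} {M : ℝ}

theorem par_monomial (hρ : 0 ≤ ρ) (hM : 1 ≤ M) (ht : t ≤ 1)
    (hc : ∀ a, MvPowerSeries.constantCoeff (ξ a) = x a) (hx : ∀ a, v (x a) ≤ M)
    (hw0 : ∀ a, MvPowerSeries.constantCoeff (w a) = 0) (hw : ∀ a, SLe v ρ n (w a) t)
    (hξ : ∀ a, SLe v ρ n (ξ a - MvPowerSeries.C (x a)) t)
    (hξw : ∀ a, SLe v ρ (n + 1) (ξ a - MvPowerSeries.C (x a) - w a) (t ^ 2)) (ht0 : 0 ≤ t) (c : k)
    (d : ℕ) : ∀ μ : σ →₀ ℕ, μ.degree = d → ∀ s, v c * (E (IsNonarchimedean v) 4 * M) ^ d ≤ s →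
      v (aeval x (monomial μ c)) ≤ s ∧ SLe v ρ n (parL x w (monomial μ c)) (s * t) ∧
      SLe v ρ (n + 1) (aeval ξ (monomial μ c) - MvPowerSeries.C (aeval x (monomial μ c)) -
        parL x w (monomial μ c)) (s * t ^ 2) := by
  classical
  induction d with
  | zero =>
    intro μ hμ s hs
    rw [(Finsupp.degree_eq_zero_iff μ).1 hμ, ← C_apply]
    rw [pow_zero, mul_one] at hs
    have h0 := (v.nonneg c).trans hs
    have h1 : parL x w (C c) = 0 := by simp [parL]
    refine ⟨by simpa using hs, h1 ▸ sle_zero (by positivity), ?_⟩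
    rw [h1, aeval_C, aeval_C, sub_zero, MvPowerSeries.algebraMap_apply, sub_self]
    exact sle_zero (by positivity)
  | succ d ih =>
    intro μ hμ s hs
    obtain ⟨b, hb⟩ := Finsupp.support_nonempty_iff.2
      ((Finsupp.degree_eq_zero_iff μ).not.1 (by omega))
    obtain ⟨ν, rfl⟩ : ∃ ν, μ = ν + Finsupp.single b 1 :=
      ⟨μ - Finsupp.single b 1, (tsub_add_cancel_of_le (Finsupp.single_le_iff.2
        (Nat.one_le_iff_ne_zero.2 (Finsupp.mem_support_iff.1 hb)))).symm⟩
    obtain ⟨h1, h2, h3⟩ := ih ν (by simpa using hμ) _ le_rfl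
    rw [monomial_add_single, pow_one]
    generalize monomial ν c = f at h1 h2 h3
    rw [pow_succ, ← mul_assoc, show (4 : ℝ) = 2 * 2 by norm_num, par_E_mul] at hs
    rw [show (4 : ℝ) = 2 * 2 by norm_num, par_E_mul] at h1 h2 h3
    have he := par_one_le_E (IsNonarchimedean v) (one_le_two (α := ℝ))
    generalize v c * (E (IsNonarchimedean v) 2 * E (IsNonarchimedean v) 2 * M) ^ d = s₀ at *
    have hs0 := (v.nonneg _).trans h1
    have hM0 := zero_le_one.trans hM
    have h4 : s₀ ≤ s₀ * M := le_mul_of_one_le_right hs0 hM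
    have h5 : E (IsNonarchimedean v) 2 * (s₀ * M) ≤ s := le_trans (le_trans
      (le_mul_of_one_le_left (by positivity) he) (le_of_eq (by ring))) hs
    refine ⟨?_, ?_, ?_⟩
    · rw [map_mul, map_mul, aeval_X]
      exact ((mul_le_mul h1 (hx b) (v.nonneg _) hs0).trans
        (le_mul_of_one_le_left (by positivity) he)).trans h5
    · rw [parL_mul_X]
      refine (SLe.add (t := s₀ * M * t) hρ (((sle_C hρ _).mul hρ (hw b)).mono le_rfl ?_)
        (((sle_C hρ _).mul hρ h2).mono le_rfl ?_)).mono le_rfl ?_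
      · exact mul_le_mul_of_nonneg_right (h1.trans h4) ht0
      · exact (mul_le_mul_of_nonneg_right (hx b) h2.nonneg).trans (le_of_eq (by ring))
      · rw [← mul_assoc]
        exact mul_le_mul_of_nonneg_right h5 ht0
    · have k1 : MvPowerSeries.constantCoeff (parL x w f) = 0 := by simp [parL, hw0]
      have k2 : MvPowerSeries.constantCoeff (ξ b - MvPowerSeries.C (x b)) = 0 := by simp [hc]
      have k3 : aeval ξ (f * X b) - MvPowerSeries.C (aeval x (f * X b)) - parL x w (f * X b) =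
          (MvPowerSeries.C (aeval x f) * (ξ b - MvPowerSeries.C (x b) - w b) +
            parL x w f * (ξ b - MvPowerSeries.C (x b))) +
          (MvPowerSeries.C (x b) * (aeval ξ f - MvPowerSeries.C (aeval x f) - parL x w f) +
            (aeval ξ f - MvPowerSeries.C (aeval x f) - parL x w f) *
              (ξ b - MvPowerSeries.C (x b))) := by
        rw [parL_mul_X]
        simp only [map_mul, aeval_X]
        ring
      rw [k3]
      refine (SLe.add hρ (SLe.add (t := s₀ * M * t ^ 2) hρ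
        (((sle_C hρ _).mul hρ (hξw b)).mono le_rfl ?_)
        ((h2.mul_succ hρ (hξ b) k1 k2).mono le_rfl ?_)) (SLe.add hρ
        (((sle_C hρ _).mul hρ h3).mono le_rfl ?_) (((h3.mono n.le_succ le_rfl).mul_succ hρ (hξ b)
          (by simp [k1, par_const_aeval hc]) k2).mono le_rfl ?_))).mono le_rfl ?_
      · exact mul_le_mul_of_nonneg_right (h1.trans h4) (by positivity)
      · rw [mul_assoc, ← sq]
        exact mul_le_mul_of_nonneg_right h4 (by positivity)
      · exact (mul_le_mul_of_nonneg_right (hx b) h3.nonneg).trans (le_of_eq (by ring))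
      · exact (mul_le_of_le_one_right h3.nonneg ht).trans
          (mul_le_mul_of_nonneg_right h4 (by positivity))
      · exact le_trans (le_of_eq (by ring)) (mul_le_mul_of_nonneg_right hs (sq_nonneg t))

end taylor

/-- The implicit functions `ξ a`, `a ∈ S`, are small when the other series are very small. -/
theorem par_impl (σ : Type) [Fintype σ] (B : ℕ) : ∃ (c : ℝ) (n : ℕ), 1 ≤ c ∧
    ∀ (k : Type) [Field k] (v : AbsoluteValue k ℝ) (r : ℕ) (S : Set σ) (φ : σ → MvPolynomial σ k)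
      (x : σ → k) (ξ : σ → MvPowerSeries (Fin r) k) (M ρ : ℝ), 1 ≤ M → 0 ≤ ρ →
      (∀ a, MvPowerSeries.constantCoeff (ξ a) = x a) → (∀ a ∈ S, aeval ξ (φ a) = 0) →
      (∀ a ∈ S, ∀ b ∈ S, b ≠ a → pderiv b (φ a) = 0) → (∀ a ∈ S, aeval x (pderiv a (φ a)) ≠ 0) →
      (∀ a ∈ S, (φ a).totalDegree ≤ B) → (∀ a, v (x a) ≤ M) →
      (∀ a ∈ S, ∀ μ, v (coeff μ (φ a)) ≤ M) → (∀ a ∈ S, v (aeval x (pderiv a (φ a)))⁻¹ ≤ M) →
      (∀ b, b ∉ S → ∀ m, SLe v ρ m (ξ b - MvPowerSeries.C (x b))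
        ((E (IsNonarchimedean v) c * M ^ n)⁻¹ ^ 2)) →
      ∀ m a, SLe v ρ m (ξ a - MvPowerSeries.C (x a)) (E (IsNonarchimedean v) c * M ^ n)⁻¹ := by
  classical
  let s := (Finsupp.finite_of_degree_le (σ := σ) B).toFinset
  have hN : (1 : ℝ) ≤ s.card + 1 := by linarith [Nat.cast_nonneg (α := ℝ) s.card]
  refine ⟨(s.card + 1) * 4 ^ B, B + 2, one_le_mul_of_one_le_of_one_le hN (one_le_pow₀ (by norm_num)),
    fun k _ v r S φ x ξ M ρ hM hρ hc h0 hd hd0 hB hx hφ hi hS m => ?_⟩
  have hE := par_one_le_E (IsNonarchimedean v) hN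
  have hE4 := par_one_le_E (IsNonarchimedean v) (show (1 : ℝ) ≤ 4 by norm_num)
  rw [par_E_mul, par_E_pow] at hS ⊢
  set Q := E (IsNonarchimedean v) (s.card + 1) * E (IsNonarchimedean v) 4 ^ B * M ^ (B + 2) with hQ
  have hQ1 : 1 ≤ Q := one_le_mul_of_one_le_of_one_le
    (one_le_mul_of_one_le_of_one_le hE (one_le_pow₀ hE4)) (one_le_pow₀ hM)
  have ht0 : 0 ≤ Q⁻¹ := by positivity
  have ht : Q⁻¹ ≤ 1 := inv_le_one_of_one_le₀ hQ1
  have hk : ∀ b, MvPowerSeries.constantCoeff (ξ b - MvPowerSeries.C (x b)) = 0 := by simp [hc]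
  induction m with
  | zero => exact fun a => sle_base (hk a) ht0
  | succ m ih =>
    intro a
    by_cases ha : a ∈ S
    swap
    · exact (hS a ha _).mono le_rfl (pow_le_of_le_one ht0 ht two_ne_zero)
    let w : σ → MvPowerSeries (Fin r) k := fun b => if b ∈ S then ξ b - MvPowerSeries.C (x b) else 0
    have h1 := fun μ : σ →₀ ℕ => par_monomial (v := v) (w := w) (n := m) hρ hM ht hc hx
      (fun b => by by_cases hb : b ∈ S <;> simp [w, hb, hc])
      (fun b => by by_cases hb : b ∈ S <;> simp [w, hb, ih, sle_zero ht0]) ih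
      (fun b => by by_cases hb : b ∈ S <;> simp [w, hb, hS, sle_zero (sq_nonneg Q⁻¹), -inv_pow])
      ht0 (coeff μ (φ a)) _ μ rfl (M * (E (IsNonarchimedean v) 4 * M) ^ B)
    have hμ : ∀ μ ∈ (φ a).support, μ.degree ≤ B := fun μ hμ => (le_totalDegree hμ).trans (hB a ha)
    have h2 := sle_sum hρ (φ a).support (c := s.card + 1) (by
        have : (φ a).support.card ≤ s.card :=
          card_le_card fun μ h => (Set.Finite.mem_toFinset _).2 (hμ μ h)
        exact (Nat.cast_le.2 this).trans (by linarith)) (by positivity)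
      fun μ h => (h1 μ (mul_le_mul (hφ a ha μ) (pow_le_pow_right₀
        (one_le_mul_of_one_le_of_one_le hE4 hM) (hμ μ h)) (by positivity) (by positivity))).2.2
    have h3 : ∑ μ ∈ (φ a).support, parL x w (monomial μ (coeff μ (φ a))) =
        MvPowerSeries.C (aeval x (pderiv a (φ a))) * (ξ a - MvPowerSeries.C (x a)) := by
      simp only [parL]
      rw [sum_comm]
      simp only [← sum_mul, ← map_sum, ← (φ a).as_sum]
      rw [sum_eq_single a (fun b _ hb => ?_) (by simp), show w a = _ from if_pos ha]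
      by_cases hbS : b ∈ S
      · simp [hd a ha b hbS hb]
      · simp [w, hbS]
    have h4 : aeval x (φ a) = 0 := by rw [← par_const_aeval hc, h0 a ha, map_zero]
    simp only [sum_sub_distrib, ← map_sum, ← (φ a).as_sum, h3, h0 a ha, h4, map_zero, sub_self,
      zero_sub] at h2
    have h5 := (sle_C hρ (aeval x (pderiv a (φ a)))⁻¹).mul hρ h2.neg
    rw [neg_neg, ← mul_assoc, ← map_mul, inv_mul_cancel₀ (hd0 a ha), map_one, one_mul] at h5
    refine h5.mono le_rfl ((mul_le_mul_of_nonneg_right (hi a ha) h2.nonneg).trans (le_of_eq ?_))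
    calc _ = Q * Q⁻¹ * Q⁻¹ := by rw [hQ]; ring
      _ = Q⁻¹ := by rw [mul_inv_cancel₀ (by positivity), one_mul]

end Pool.Agent.Lib.MP_651af7_nt.Av
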