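import Pool.Agent.Lib.MP_651af7_nt.Av.PtB

/-! Construction of abelian varieties as group functors. -/

namespace Pool.Agent.Lib.MP_651af7_nt.Av

open MvPolynomial

variable {k : Type} [Field k] {ι : Type}

theorem exists_origin [CharZero k] {Ω : Type} [Field Ω] [IsAlgClosed Ω] [Algebra k Ω]
    [Algebra.IsAlgebraic k Ω] {I : Ideal (MvPolynomial ι k)}
    {G : Type} [AddCommGroup G] {co : G → ι → Ω} (h0 : ∀ x, co x ≠ 0)
    (hz : ∀ x, ∀ P ∈ I, aeval (co x) P = 0)
    (hs : ∀ v : ι → Ω, v ≠ 0 → (∀ P ∈ I, aeval v P = 0) → ∃ x, ∃ c : Ω, v = c • co x)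
    {Φ : ι → ι → MvPolynomial (ι ⊕ ι) k}
    (hΦ : ∀ a b, (Φ a b).IsWeightedHomogeneous (bw ι ι) (2, 2))
    (law : ∀ x y, ∃ c : Ω, c ≠ 0 ∧ ∀ a b,
      aeval (Sum.elim (co x) (co y)) (Φ a b) = c * (co (x + y) a * co (x - y) b)) :
    ∃ (o : ι → k) (ao : ι), o ao = 1 ∧ ∃ c : Ω, ∀ a, algebraMap k Ω (o a) = c * co 0 a := by
  obtain ⟨ao, hao⟩ := Function.ne_iff.1 (h0 0)
  replace hao : co 0 ao ≠ 0 := hao
  have : IsAlgClosure k Ω := ⟨inferInstance, inferInstance⟩
  have key : ∀ a, ∃ t : k, algebraMap k Ω t = (co 0 ao)⁻¹ * co 0 a := by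
    intro a
    refine (InfiniteGalois.mem_range_algebraMap_iff_fixed _).2 fun σ => ?_
    obtain ⟨x, c, hc⟩ := hs (fun b => σ (co 0 b))
      (fun e => hao ((map_eq_zero σ).1 (congrFun e ao))) fun P hP =>
      (aeval_hom (σ : Ω →ₐ[k] Ω) (co 0) P).trans (by rw [hz 0 P hP, map_zero])
    obtain ⟨c₁, h₁, e₁⟩ := law 0 0
    obtain ⟨c₂, -, e₂⟩ := law x x
    have h : ∀ b, σ c₁ * (σ (co 0 ao) * σ (co 0 b)) =
        c ^ 2 * c ^ 2 * (c₂ * (co (x + x) ao * co 0 b)) := fun b => by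
      have h1 := map_phi Φ (σ : Ω →ₐ[k] Ω) ao b (co 0) (co 0)
      have h2 : (fun b => (σ : Ω →ₐ[k] Ω) (co 0 b)) = fun b => c * co x b := hc
      rw [h2, phi, phi, aeval_mul_of_bih (hΦ ao b), e₁, e₂, add_zero, sub_zero, sub_self] at h1
      simpa using h1
    have h3 : σ (co 0 ao) ≠ 0 := (map_ne_zero σ).2 hao
    have h4 : σ c₁ ≠ 0 := (map_ne_zero σ).2 h₁
    have h5 : σ (co 0 a) * co 0 ao = σ (co 0 ao) * co 0 a :=
      mul_left_cancel₀ (mul_ne_zero h4 h3) (by
        linear_combination co 0 ao * h a - co 0 a * h ao)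
    rw [map_mul, map_inv₀]
    field_simp
    linear_combination h5
  choose o ho using key
  refine ⟨o, ao, (algebraMap k Ω).injective ?_, _, ho⟩
  rw [ho, map_one, inv_mul_cancel₀ hao]

/-- The abelian variety attached to a group of points over an algebraically closed field. -/
theorem exists_av [Finite ι] [CharZero k] (Ω : Type) [Field Ω] [IsAlgClosed Ω] [Algebra k Ω]
    [Algebra.IsAlgebraic k Ω] (I : Ideal (MvPolynomial ι k))
    (hI : ∀ P ∈ I, ∀ d, homogeneousComponent d P ∈ I)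
    (hp : (I.map (MvPolynomial.map (algebraMap k Ω))).IsPrime)
    (G : Type) [AddCommGroup G] (co : G → ι → Ω) (h0 : ∀ x, co x ≠ 0)
    (hz : ∀ x, ∀ P ∈ I, aeval (co x) P = 0)
    (hs : ∀ v : ι → Ω, v ≠ 0 → (∀ P ∈ I, aeval v P = 0) → ∃! x, ∃ c : Ω, v = c • co x)
    (Φ : ι → ι → MvPolynomial (ι ⊕ ι) k)
    (hΦ : ∀ a b, (Φ a b).IsWeightedHomogeneous (bw ι ι) (2, 2))
    (law : ∀ x y, ∃ c : Ω, c ≠ 0 ∧ ∀ a b,
      aeval (Sum.elim (co x) (co y)) (Φ a b) = c * (co (x + y) a * co (x - y) b)) :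
    ∃ A : AV k ι, A.I = I ∧ A.Φ = Φ ∧ ∃ e : G ≃+ A.Pt Ω, ∀ x, AV.Rep (e x) (co x) := by
  have hs' := fun v h1 h2 => (hs v h1 h2).exists
  obtain ⟨o, ao, h1, h2⟩ := exists_origin h0 hz hs' hΦ law
  have H : Pre I Φ o co := ⟨hI, hp, h0, hz, hs', hΦ, law, ⟨ao, h1⟩, h2⟩
  let A : AV k ι := ⟨I, hI, prime_of_isAlgClosed Ω hp, Φ, hΦ, ao, o, h1, H.grp, H.law₀⟩
  have hu : ∀ x, ∃ a, IsUnit (co x a) := fun x =>
    (Function.ne_iff.1 (h0 x)).imp fun a ha => IsUnit.mk0 _ ha
  choose e he using fun x => AV.exists_rep (A := A) (hu x) (hz x)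
  refine ⟨A, rfl, rfl, AddEquiv.ofBijective (AddMonoidHom.mk' e fun x y => ?_) ⟨?_, ?_⟩, he⟩
  · obtain ⟨a, b, h⟩ := AV.exists_unit_ph (he x) (he y)
    refine AV.Rep.inj ((he (x + y)).of_minors ⟨a, h⟩ fun c d => sub_eq_zero.1 ?_)
      (AV.rep_add (he x) (he y) h)
    exact On.minors (co := co) ⟨1, fun _ => (one_mul _).symm⟩
      (H.on_add ⟨1, fun _ => (one_mul _).symm⟩ ⟨1, fun _ => (one_mul _).symm⟩ b) rfl c d
  · intro x y (h : e x = e y)
    obtain ⟨u, hu⟩ := (he y).exists_smul (h ▸ he x)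
    exact (hs (co x) (h0 x) (hz x)).unique ⟨1, (one_smul _ _).symm⟩ ⟨u, funext hu⟩
  · intro p
    obtain ⟨a, ha⟩ := (AV.rep_co p).unit
    obtain ⟨x, c, hc⟩ := hs' p.co (fun e => ha.ne_zero (congrFun e a)) (AV.rep_co p).zero
    have h3 : c ≠ 0 := fun e => ha.ne_zero (by simp [hc, e])
    have h4 := (he x).smul (IsUnit.mk0 c h3)
    exact ⟨x, h4.inj (by convert AV.rep_co p using 1; exact hc.symm)⟩

namespace SubData

open AV

variable {A : AV k ι} {K : Type} [Field K] [Algebra k K] (S : SubData A K)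

section

variable (R : Type) [CommRing R] [IsLocalRing R] [Algebra k R] [Algebra K R] [IsScalarTower k K R]

/-- The zeros of the equations form a subgroup. -/
def grpS : AddSubgroup (A.Pt R) where
  carrier := {p | ∀ P ∈ S.J, aeval p.co P = 0}
  zero_mem' := (rep_zero (A := A)).zero_of S.hom (rep_co _) fun P hP => by
    have e : (fun a => algebraMap k R (A.o a)) = fun a => algebraMap K R (algebraMap k K (A.o a)) :=
      funext fun a => IsScalarTower.algebraMap_apply ..
    rw [e, aeval_alg, S.zero P hP, map_zero]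
  neg_mem' {p} hp := by
    have h0 := S.sub R p p hp hp
    rw [sub_self] at h0
    have h1 := S.sub R 0 p h0 hp
    rwa [zero_sub] at h1
  add_mem' {p q} hp hq := by
    have h0 := S.sub R p p hp hp
    have h1 := S.sub R p _ hp (S.sub R _ q h0 hq)
    rwa [sub_self, zero_sub, sub_neg_eq_add] at h1

theorem exists_equiv : ∃ e : Prj S.J R ≃ S.grpS R, ∀ p, Rep (e p).1 p.co := by
  have h : ∀ p : Prj S.J R, ∃ q : S.grpS R, Rep q.1 p.co := fun p => by
    obtain ⟨q, hq⟩ := exists_rep (A := A) (pr_co p).unit fun P hP => by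
      rw [← aeval_map_algebraMap K]
      exact co_zero p _ (S.le P hP)
    exact ⟨⟨q, hq.zero_of S.hom (rep_co q) (co_zero p)⟩, hq⟩
  choose e he using h
  refine ⟨Equiv.ofBijective e ⟨fun p q h => ?_, fun q => ?_⟩, he⟩
  · exact (pr_co p).inj ((he q).exists_smul (h ▸ he p))
  · obtain ⟨p, u, hu⟩ := exists_pr (I := S.J) (rep_co q.1).unit q.2
    have h1 := (he p).smul u.isUnit
    exact ⟨p, Subtype.ext (h1.inj (by convert rep_co q.1 using 1; exact (funext hu).symm))⟩

theorem law_equiv (e : Prj S.J R ≃ S.grpS R) (he : ∀ p, Rep (e p).1 p.co) :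
    @Law K _ ι S.J (fun a b => MvPolynomial.map (algebraMap k K) (A.Φ a b))
      (fun a => algebraMap k K (A.o a)) R _ _ e.addCommGroup := by
  let _ := e.addCommGroup
  refine ⟨?_, fun p q => ?_⟩
  · have h := he 0
    rw [Equiv.zero_def, e.apply_symm_apply] at h
    simp only [← IsScalarTower.algebraMap_apply]
    exact h.exists_smul rep_zero
  · have h1 := he (p + q)
    have h2 := he (p - q)
    rw [Equiv.add_def, e.apply_symm_apply] at h1
    rw [Equiv.sub_def, e.apply_symm_apply] at h2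
    simp only [aeval_map_algebraMap]
    exact law (he p) (he q) h1 h2

end

theorem exists_grp (R : Type) [CommRing R] [IsLocalRing R] [Algebra K R] :
    ∃ g : AddCommGroup (Prj S.J R),
      @Law K _ ι S.J (fun a b => MvPolynomial.map (algebraMap k K) (A.Φ a b))
        (fun a => algebraMap k K (A.o a)) R _ _ g := by
  let _ : Algebra k R := ((algebraMap K R).comp (algebraMap k K)).toAlgebra
  have : IsScalarTower k K R := IsScalarTower.of_algebraMap_eq fun _ => rfl
  obtain ⟨e, he⟩ := S.exists_equiv R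
  exact ⟨_, S.law_equiv R e he⟩

/-- The closed subgroup as an abelian variety over `K`. -/
noncomputable def av : AV K ι where
  I := S.J
  hom := S.hom
  prime := S.prime
  Φ a b := MvPolynomial.map (algebraMap k K) (A.Φ a b)
  bih a b := fun _ hm => A.bih a b fun e => hm (by rw [coeff_map, e, map_zero])
  ao := A.ao
  o a := algebraMap k K (A.o a)
  o_ao := by rw [A.o_ao, map_one]
  grp R _ _ _ := (S.exists_grp R).choose
  law₀ R _ _ _ := (S.exists_grp R).choose_spec

theorem av_I : S.av.I = S.J := rfl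

theorem sub_av : Sub A S.av := ⟨S.le, fun _ _ => rfl, rfl, fun _ => rfl⟩

end SubData

/-- Equations whose zeros in one algebraically closed field form a subgroup. -/
theorem exists_subData [Finite ι] (A : AV k ι) {K : Type} [Field K] [Algebra k K] (Ω : Type)
    [Field Ω] [IsAlgClosed Ω] [Algebra k Ω] [Algebra K Ω] [IsScalarTower k K Ω]
    (J : Ideal (MvPolynomial ι K)) (hJ : ∀ P ∈ J, ∀ d, homogeneousComponent d P ∈ J)
    (hp : (J.map (MvPolynomial.map (algebraMap K Ω))).IsPrime)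
    (hle : ∀ P ∈ A.I, MvPolynomial.map (algebraMap k K) P ∈ J)
    (S : AddSubgroup (A.Pt Ω)) (hS : ∀ p, p ∈ S ↔ ∀ P ∈ J, aeval p.co P = 0) :
    ∃ D : SubData A K, D.J = J := by
  refine ⟨⟨J, hJ, prime_of_isAlgClosed Ω hp, hle, fun P hP => ?_, ?_⟩, rfl⟩
  · have h := (AV.rep_co _).zero_of hJ AV.rep_zero ((hS 0).1 S.zero_mem) P hP
    have e : (fun a => algebraMap k Ω (A.o a)) = fun a => algebraMap K Ω (algebraMap k K (A.o a)) :=
      funext fun a => IsScalarTower.algebraMap_apply ..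
    rwa [e, aeval_alg, map_eq_zero] at h
  intro R _ _ _ _ _ p q hp' hq'
  obtain ⟨a, b, hu⟩ := AV.exists_unit_ph (AV.rep_co p) (AV.rep_co q)
  refine (AV.rep_sub (AV.rep_co p) (AV.rep_co q) hu).zero_of hJ (AV.rep_co _) fun P hP => ?_
  have nat : ∀ (T : Type) [CommRing T] [Algebra k T] [Algebra K T] [IsScalarTower k K T]
      (x : Fin 2 → ι → T), aeval (fun s : Fin 2 × ι => x s.1 s.2)
        (aeval (fun c => A.ph a c (fun e => (X (0, e) : MvPolynomial (Fin 2 × ι) K))
          fun e => X (1, e)) P) = aeval (fun c => A.ph a c (x 0) (x 1)) P := by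
    intro T _ _ _ _ x
    rw [← aeval_hom]
    congr 2
    ext c
    have := AV.map_ph (A := A) ((aeval (R := K) (fun s : Fin 2 × ι => x s.1 s.2)).restrictScalars k)
      a c (fun e => X (0, e)) fun e => X (1, e)
    simpa using this
  refine (nat R ![p.co, q.co]).symm.trans (vanish Ω hp _ (fun x hx => ?_) _
    (Fin.forall_fin_two.2 ⟨hp', hq'⟩))
  rw [nat]
  have on : ∀ j, ∃ g ∈ S, ∃ c : Ω, x j = fun e => c * g.co e := fun j => by
    by_cases h : x j = 0
    · exact ⟨0, S.zero_mem, 0, funext fun e => by simp [h]⟩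
    · obtain ⟨g, hg⟩ := AV.exists_rep (A := A) (v := x j)
        ((Function.ne_iff.1 h).imp fun a ha => IsUnit.mk0 _ ha) fun Q hQ => by
          rw [← aeval_map_algebraMap K]
          exact hx j _ (hle Q hQ)
      refine ⟨g, (hS g).2 (hg.zero_of hJ (AV.rep_co g) (hx j)), ?_⟩
      obtain ⟨u, hu⟩ := hg
      exact ⟨u, funext hu⟩
  obtain ⟨g, hg, s, hs⟩ := on 0
  obtain ⟨g', hg', t, ht⟩ := on 1
  obtain ⟨u, hu⟩ := AV.law (AV.rep_co g) (AV.rep_co g') (AV.rep_co _) (AV.rep_co _)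
  have e : (fun c => A.ph a c (x 0) (x 1)) =
      fun c => (s ^ 2 * t ^ 2 * u * (g + g').co a) * (g - g').co c := funext fun c => by
    rw [hs, ht, AV.ph_mul, hu]
    ring
  rw [e]
  exact zero_mul_of_hom hJ ((hS _).1 (S.sub_mem hg hg')) _ P hP

theorem homogeneousComponent_map {R S σ : Type*} [CommRing R] [CommRing S] (f : R →+* S) (d : ℕ)
    (P : MvPolynomial σ R) : homogeneousComponent d (MvPolynomial.map f P) =
      MvPolynomial.map f (homogeneousComponent d P) := by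
  ext m
  simp only [coeff_homogeneousComponent, coeff_map]
  split_ifs <;> simp

theorem cf_homogeneousComponent {F R σ : Type*} [Field F] [CommRing R] [Algebra F R]
    (l : R →ₗ[F] F) (d : ℕ) (P : MvPolynomial σ R) :
    cf l (homogeneousComponent d P) = homogeneousComponent d (cf l P) := by
  ext m
  simp only [coeff_homogeneousComponent, coeff_cf]
  split_ifs <;> simp

theorem hom_map {F R σ : Type*} [Field F] [CommRing R] [Algebra F R]
    {J : Ideal (MvPolynomial σ F)} (hJ : ∀ P ∈ J, ∀ d, homogeneousComponent d P ∈ J) :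
    ∀ P ∈ J.map (MvPolynomial.map (algebraMap F R)), ∀ d,
      homogeneousComponent d P ∈ J.map (MvPolynomial.map (algebraMap F R)) := fun _ hP d =>
  mem_map_of_cf fun l => by
    rw [cf_homogeneousComponent]
    exact hJ _ (cf_mem hP l) d

/-- Base change. -/
theorem exists_baseChange (A : AV k ι) (K : Type) [Field K] [Algebra k K] :
    ∃ D : SubData A K, D.J = A.I.map (MvPolynomial.map (algebraMap k K)) := by
  refine ⟨⟨_, hom_map A.hom, fun M _ _ => ?_, fun P hP => Ideal.mem_map_of_mem _ hP,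
    aeval_of_mem_map (AV.rep_zero (A := A) (R := K)).zero,
    fun R _ _ _ _ _ p q _ _ => aeval_of_mem_map (AV.rep_co _).zero⟩, rfl⟩
  let _ : Algebra k M := ((algebraMap K M).comp (algebraMap k K)).toAlgebra
  have : IsScalarTower k K M := IsScalarTower.of_algebraMap_eq fun _ => rfl
  rw [map_map_ideal]
  exact A.prime M

theorem exists_scale [Finite ι] {M : Type} [Field M] (O : Subring M)
    (hv : ∀ x : M, x ∈ O ∨ x⁻¹ ∈ O) {v : ι → M} (h0 : ∃ a, v a ≠ 0) :
    ∃ a, v a ≠ 0 ∧ ∀ b, (v a)⁻¹ * v b ∈ O := by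
  have := Fintype.ofFinite ι
  let V : ValuationSubring M := ⟨O, hv⟩
  obtain ⟨a₀, h₀⟩ := h0
  obtain ⟨a, -, ha⟩ := Finset.exists_max_image Finset.univ (fun a => V.valuation (v a))
    ⟨a₀, Finset.mem_univ _⟩
  have h1 : v a ≠ 0 := fun e => h₀ (by
    have := ha a₀ (Finset.mem_univ _)
    rw [e, map_zero, le_zero_iff] at this
    exact (map_eq_zero _).1 this)
  refine ⟨a, h1, fun b => (V.valuation_le_one_iff _).1 ?_⟩
  rw [map_mul, map_inv₀, inv_mul_le_one₀ (zero_lt_iff.2 ((map_ne_zero _).2 h1))]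
  exact ha b (Finset.mem_univ _)

/-- Over a valuation ring of a field every point of the field has unimodular coordinates. -/
theorem AV.map_surjective_of_valuation [Finite ι] (A : AV k ι) {O M : Type} [CommRing O]
    [IsLocalRing O] [Algebra k O] [Field M] [Algebra k M] (f : O →ₐ[k] M)
    (hf : Function.Injective f) (hv : ∀ x : M, x ∈ f.range ∨ x⁻¹ ∈ f.range) :
    Function.Surjective (A.map f) := by
  intro q
  obtain ⟨a, ha, h⟩ := exists_scale f.range.toSubring hv
    ((AV.rep_co q).unit.imp fun _ h => h.ne_zero)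
  choose v hv using h
  replace hv : ∀ b, f (v b) = (q.co a)⁻¹ * q.co b := hv
  obtain ⟨p, -, hp⟩ := AV.exists_map_eq (A := A) hf (q := q) (v := v)
    ⟨a, by rw [hf (a₁ := v a) (a₂ := 1) (by rw [hv, inv_mul_cancel₀ ha, map_one])]; exact isUnit_one⟩
    (by simp only [hv]; exact (AV.rep_co q).smul (IsUnit.mk0 _ (inv_ne_zero ha)))
  exact ⟨p, hp⟩

end Pool.Agent.Lib.MP_651af7_nt.Av
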