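import Pool.Agent.Lib.MP_651af7_nt.Av.PtA

/-! The group law on the points over local algebras, from the group law on geometric points. -/

namespace Pool.Agent.Lib.MP_651af7_nt.Av

open MvPolynomial

variable {k : Type} [Field k] {ι : Type} {I : Ideal (MvPolynomial ι k)}

section PR

variable {R : Type} [CommRing R] [Algebra k R]

/-- `v` is a vector of homogeneous coordinates of `p`. -/
def PR (p : Prj I R) (v : ι → R) : Prop := ∃ u : Rˣ, ∀ a, v a = u * p.co a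

theorem pr_co (p : Prj I R) : PR p p.co := ⟨1, fun _ => by simp⟩

theorem PR.unit {p : Prj I R} {v : ι → R} (h : PR p v) : ∃ a, IsUnit (v a) := by
  obtain ⟨u, hu⟩ := h
  obtain ⟨a, ha⟩ := (Quotient.out p : Vec I R).unit
  exact ⟨a, hu a ▸ u.isUnit.mul ha⟩

theorem co_zero (p : Prj I R) : ∀ P ∈ I, aeval p.co P = 0 := (Quotient.out p : Vec I R).zero

theorem exists_pr {v : ι → R} (hu : ∃ a, IsUnit (v a)) (hz : ∀ P ∈ I, aeval v P = 0) :
    ∃ p : Prj I R, PR p v :=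
  ⟨Quotient.mk (Vec.rel I R) ⟨v, hu, hz⟩, Quotient.mk_out (s := Vec.rel I R) ⟨v, hu, hz⟩⟩

theorem PR.smul {p : Prj I R} {v : ι → R} (hv : PR p v) {c : R} (hc : IsUnit c) :
    PR p fun a => c * v a := by
  obtain ⟨s, hs⟩ := hv
  obtain ⟨u, rfl⟩ := hc
  exact ⟨u * s, fun a => by simp only [hs, Units.val_mul, mul_assoc]⟩

theorem PR.inj {p q : Prj I R} {v : ι → R} (hp : PR p v) (hq : PR q v) : p = q := by
  obtain ⟨s, hs⟩ := hp
  obtain ⟨t, ht⟩ := hq
  refine (Quotient.out_equiv_out (s := Vec.rel I R)).1 ⟨t⁻¹ * s, fun a => ?_⟩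
  change q.co a = _ * p.co a
  rw [Units.val_mul, mul_assoc, ← hs, ht, Units.inv_mul_cancel_left]

theorem PR.of_minors {p : Prj I R} {v w : ι → R} (hv : PR p v) (hw : ∃ a, IsUnit (w a))
    (h : ∀ a b, v a * w b - v b * w a = 0) : PR p w := by
  obtain ⟨a, ha⟩ := hv.unit
  obtain ⟨b, hb⟩ := hw
  have h1 : IsUnit (w a) := isUnit_of_mul_isUnit_right (sub_eq_zero.1 (h a b) ▸ ha.mul hb)
  obtain ⟨u, hu⟩ := ha
  have h2 : w = fun c => (w a * ↑u⁻¹) * v c := funext fun c => by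
    rw [mul_assoc, mul_comm (w a), mul_assoc, ← sub_eq_zero.1 (h a c), ← hu,
      Units.inv_mul_cancel_left]
  rw [h2]
  exact hv.smul (h1.mul u⁻¹.isUnit)

theorem PR.eq_of_minors {p q : Prj I R} {v w : ι → R} (hv : PR p v) (hw : PR q w)
    (h : ∀ a b, v a * w b - v b * w a = 0) : p = q := (hv.of_minors hw.unit h).inj hw

end PR

/-- The value of the form `Φ a b`. -/
noncomputable def phi (Φ : ι → ι → MvPolynomial (ι ⊕ ι) k) {R : Type} [CommRing R] [Algebra k R]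
    (a b : ι) (v w : ι → R) : R := aeval (Sum.elim v w) (Φ a b)

theorem map_phi (Φ : ι → ι → MvPolynomial (ι ⊕ ι) k) {R R' : Type} [CommRing R] [Algebra k R]
    [CommRing R'] [Algebra k R'] (f : R →ₐ[k] R') (a b : ι) (v w : ι → R) :
    f (phi Φ a b v w) = phi Φ a b (fun c => f (v c)) fun c => f (w c) := by
  rw [phi, phi, ← aeval_hom]
  congr 2
  ext (c | c) <;> rfl

/-- The group of geometric points. -/
structure Pre (I : Ideal (MvPolynomial ι k)) (Φ : ι → ι → MvPolynomial (ι ⊕ ι) k) (o : ι → k)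
    {Ω G : Type} [Field Ω] [Algebra k Ω] [AddCommGroup G] (co : G → ι → Ω) : Prop where
  hom : ∀ P ∈ I, ∀ d, homogeneousComponent d P ∈ I
  prime : (I.map (MvPolynomial.map (algebraMap k Ω))).IsPrime
  ne : ∀ x, co x ≠ 0
  zero : ∀ x, ∀ P ∈ I, aeval (co x) P = 0
  surj : ∀ v : ι → Ω, v ≠ 0 → (∀ P ∈ I, aeval v P = 0) → ∃ x, ∃ c : Ω, v = c • co x
  bih : ∀ a b, (Φ a b).IsWeightedHomogeneous (bw ι ι) (2, 2)
  law : ∀ x y, ∃ c : Ω, c ≠ 0 ∧ ∀ a b,
    aeval (Sum.elim (co x) (co y)) (Φ a b) = c * (co (x + y) a * co (x - y) b)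
  o_ne : ∃ a, o a = 1
  o_on : ∃ c : Ω, ∀ a, algebraMap k Ω (o a) = c * co 0 a

/-- `v` lies on the line of the geometric point `x`. -/
def On {Ω G : Type} [Field Ω] (co : G → ι → Ω) (x : G) (v : ι → Ω) : Prop :=
  ∃ c : Ω, ∀ a, v a = c * co x a

theorem On.minors {Ω G : Type} [Field Ω] {co : G → ι → Ω} {x y : G} {v w : ι → Ω}
    (hv : On co x v) (hw : On co y w) (e : x = y) (a b : ι) : v a * w b - v b * w a = 0 := by
  subst e
  obtain ⟨c, hc⟩ := hv
  obtain ⟨d, hd⟩ := hw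
  rw [hc, hc, hd, hd]
  ring

namespace Pre

variable {Φ : ι → ι → MvPolynomial (ι ⊕ ι) k} {o : ι → k} {Ω G : Type} [Field Ω] [Algebra k Ω]
  [AddCommGroup G] {co : G → ι → Ω} (H : Pre I Φ o co)
include H

theorem phi_mul {R : Type} [CommRing R] [Algebra k R] (a b : ι) (s t : R) (v w : ι → R) :
    phi Φ a b (fun c => s * v c) (fun c => t * w c) = s ^ 2 * t ^ 2 * phi Φ a b v w :=
  aeval_mul_of_bih (H.bih a b) s t v w

theorem exists_on {v : ι → Ω} (hv : ∀ P ∈ I, aeval v P = 0) : ∃ x, On co x v := by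
  by_cases h : v = 0
  · exact ⟨0, 0, fun a => by simp [h]⟩
  · obtain ⟨x, c, e⟩ := H.surj v h hv
    exact ⟨x, c, fun a => by simp [e]⟩

theorem on_zero {x : G} {v : ι → Ω} (hv : On co x v) : ∀ P ∈ I, aeval v P = 0 := by
  obtain ⟨c, hc⟩ := hv
  obtain rfl : v = fun a => c * co x a := funext hc
  exact zero_mul_of_hom H.hom (H.zero x) c

theorem on_law {x y : G} {v w : ι → Ω} (hv : On co x v) (hw : On co y w) :
    ∃ c : Ω, (v ≠ 0 → w ≠ 0 → c ≠ 0) ∧
      ∀ a b, phi Φ a b v w = c * (co (x + y) a * co (x - y) b) := by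
  obtain ⟨s, hs⟩ := hv
  obtain ⟨t, ht⟩ := hw
  obtain rfl : v = fun a => s * co x a := funext hs
  obtain rfl : w = fun a => t * co y a := funext ht
  obtain ⟨c, h0, hc⟩ := H.law x y
  refine ⟨s ^ 2 * t ^ 2 * c, fun h1 h2 => ?_, fun a b => ?_⟩
  · have h3 : s ≠ 0 := fun e => h1 (funext fun a => by simp [e])
    have h4 : t ≠ 0 := fun e => h2 (funext fun a => by simp [e])
    exact mul_ne_zero (mul_ne_zero (pow_ne_zero _ h3) (pow_ne_zero _ h4)) h0
  · rw [H.phi_mul, phi, hc, ← mul_assoc]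

theorem on_add {x y : G} {v w : ι → Ω} (hv : On co x v) (hw : On co y w) (b : ι) :
    On co (x + y) fun a => phi Φ a b v w := by
  obtain ⟨c, -, hc⟩ := H.on_law hv hw
  exact ⟨c * co (x - y) b, fun a => by simp only [hc]; ring⟩

theorem on_sub {x y : G} {v w : ι → Ω} (hv : On co x v) (hw : On co y w) (a : ι) :
    On co (x - y) fun b => phi Φ a b v w := by
  obtain ⟨c, -, hc⟩ := H.on_law hv hw
  exact ⟨c * co (x + y) a, fun b => by simp only [hc]; ring⟩

variable [Finite ι] [IsAlgClosed Ω] {R : Type} [CommRing R] [Algebra k R]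

theorem trans (T : ∀ (R : Type) [CommRing R] [Algebra k R], (ι → R) → (ι → R) → (ι → R) → R)
    (hT : ∀ (R R' : Type) [CommRing R] [Algebra k R] [CommRing R'] [Algebra k R'] (f : R →ₐ[k] R')
      (u v w : ι → R), f (T R u v w) =
        T R' (fun a => f (u a)) (fun a => f (v a)) fun a => f (w a))
    (h : ∀ (x y z : G) (u v w : ι → Ω), On co x u → On co y v → On co z w → T Ω u v w = 0)
    {u v w : ι → R} (hu : ∀ Q ∈ I, aeval u Q = 0) (hv : ∀ Q ∈ I, aeval v Q = 0)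
    (hw : ∀ Q ∈ I, aeval w Q = 0) : T R u v w = 0 := by
  have h1 := vanish Ω H.prime (J := Fin 3) (T (MvPolynomial (Fin 3 × ι) k) (fun a => X (0, a))
      (fun a => X (1, a)) fun a => X (2, a))
    (fun x hx => by
      choose g hg using fun j => H.exists_on (hx j)
      rw [hT]
      simpa using h _ _ _ _ _ _ (hg 0) (hg 1) (hg 2)) ![u, v, w]
      (Fin.forall_fin_succ.2 ⟨hu, Fin.forall_fin_two.2 ⟨hv, hw⟩⟩)
  rw [hT] at h1
  simpa using h1

omit [Finite ι] [IsAlgClosed Ω] in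
theorem o_zero : ∀ P ∈ I, aeval (fun a => algebraMap k R (o a)) P = 0 := fun P hP => by
  have h := H.on_zero (x := 0) H.o_on P hP
  rw [aeval_alg, map_eq_zero] at h
  rw [aeval_alg, h, map_zero]

theorem zero_add {x y : ι → R} (hx : ∀ P ∈ I, aeval x P = 0) (hy : ∀ P ∈ I, aeval y P = 0)
    (b : ι) : ∀ P ∈ I, aeval (fun a => phi Φ a b x y) P = 0 := fun P hP =>
  H.trans (fun _ _ _ v0 v1 v2 => aeval (fun a => phi Φ a b v0 v1) P)
    (fun _ _ _ _ _ _ f _ _ _ => by simp only [← aeval_hom, map_phi])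
    (fun _ _ _ _ _ _ h0 h1 h2 => H.on_zero (H.on_add h0 h1 b) P hP)
    hx hy hy

theorem zero_sub {x y : ι → R} (hx : ∀ P ∈ I, aeval x P = 0) (hy : ∀ P ∈ I, aeval y P = 0)
    (a : ι) : ∀ P ∈ I, aeval (fun b => phi Φ a b x y) P = 0 := fun P hP =>
  H.trans (fun _ _ _ v0 v1 v2 => aeval (fun b => phi Φ a b v0 v1) P)
    (fun _ _ _ _ _ _ f _ _ _ => by simp only [← aeval_hom, map_phi])
    (fun _ _ _ _ _ _ h0 h1 h2 => H.on_zero (H.on_sub h0 h1 a) P hP)
    hx hy hy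

theorem rank_one {x y : ι → R} (hx : ∀ P ∈ I, aeval x P = 0) (hy : ∀ P ∈ I, aeval y P = 0)
    (a a' b b' : ι) :
    phi Φ a b x y * phi Φ a' b' x y - phi Φ a' b x y * phi Φ a b' x y = 0 :=
  H.trans (fun _ _ _ v0 v1 v2 => phi Φ a b v0 v1 * phi Φ a' b' v0 v1 -
      phi Φ a' b v0 v1 * phi Φ a b' v0 v1)
    (fun _ _ _ _ _ _ f _ _ _ => by simp only [map_sub, map_mul, map_phi])
    (fun _ _ _ _ _ _ h0 h1 h2 => (H.on_add h0 h1 b).minors (H.on_add h0 h1 b') rfl a a')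
    hx hy hy

variable [IsLocalRing R]

theorem exists_unit {x y : ι → R} (hx : ∀ P ∈ I, aeval x P = 0) (hy : ∀ P ∈ I, aeval y P = 0)
    (ux : ∃ a, IsUnit (x a)) (uy : ∃ a, IsUnit (y a)) : ∃ a b, IsUnit (phi Φ a b x y) := by
  obtain ⟨c, hc⟩ := ux
  obtain ⟨d, hd⟩ := uy
  by_contra hn
  push Not at hn
  let S : Set (MvPolynomial (ι ⊕ ι) k) :=
    (rename Sum.inl '' I ∪ rename Sum.inr '' I) ∪ Set.range fun s : ι × ι => Φ s.1 s.2
  have h1 : (X (.inl c) * X (.inr d) : MvPolynomial (ι ⊕ ι) k) ∈ (Ideal.span S).radical := by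
    rw [← vanishingIdeal_zeroLocus_eq_radical (K := Ω), zeroLocus_span]
    intro z hz
    by_contra h0
    simp only [map_mul, aeval_X, mul_eq_zero, not_or] at h0
    obtain ⟨g, hg⟩ := H.exists_on (v := fun a => z (.inl a)) fun P hP => by
      have := hz _ (.inl (.inl ⟨P, hP, rfl⟩))
      rwa [aeval_rename] at this
    obtain ⟨g', hg'⟩ := H.exists_on (v := fun a => z (.inr a)) fun P hP => by
      have := hz _ (.inl (.inr ⟨P, hP, rfl⟩))
      rwa [aeval_rename] at this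
    obtain ⟨e, he, h2⟩ := H.on_law hg hg'
    obtain ⟨a, ha⟩ := Function.ne_iff.1 (H.ne (g + g'))
    obtain ⟨b, hb⟩ := Function.ne_iff.1 (H.ne (g - g'))
    have h3 := hz _ (.inr ⟨(a, b), rfl⟩)
    have h4 : z = Sum.elim (fun a => z (.inl a)) fun a => z (.inr a) := by
      ext (s | s) <;> rfl
    rw [h4] at h3
    exact mul_ne_zero (he (fun e => h0.1 (congrFun e c)) fun e => h0.2 (congrFun e d))
      (mul_ne_zero ha hb) ((h2 a b).symm.trans h3)
  have h2 : Ideal.span S ≤ (IsLocalRing.maximalIdeal R).comap (aeval (R := k) (Sum.elim x y)) := by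
    rw [Ideal.span_le]
    rintro _ ((⟨P, hP, rfl⟩ | ⟨P, hP, rfl⟩) | ⟨s, rfl⟩)
    · change aeval _ _ ∈ IsLocalRing.maximalIdeal R
      rw [aeval_rename, Sum.elim_comp_inl, hx P hP]
      exact zero_mem _
    · change aeval _ _ ∈ IsLocalRing.maximalIdeal R
      rw [aeval_rename, Sum.elim_comp_inr, hy P hP]
      exact zero_mem _
    · exact hn s.1 s.2
  obtain ⟨n, h3⟩ := h1
  have h4 : aeval (Sum.elim x y) ((X (.inl c) * X (.inr d) : MvPolynomial (ι ⊕ ι) k) ^ n) ∈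
    IsLocalRing.maximalIdeal R := h2 h3
  simp only [map_pow, map_mul, aeval_X, Sum.elim_inl, Sum.elim_inr] at h4
  exact h4 ((hc.mul hd).pow n)

omit [Finite ι] [IsAlgClosed Ω] [IsLocalRing R] in
theorem pr_zero {p : Prj I R} {v : ι → R} (h : PR p v) : ∀ P ∈ I, aeval v P = 0 := by
  obtain ⟨u, hu⟩ := h
  obtain rfl : v = fun a => u * p.co a := funext hu
  exact zero_mul_of_hom H.hom (co_zero p) _

theorem pr_unit {p q : Prj I R} {x y : ι → R} (hx : PR p x) (hy : PR q y) :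
    ∃ a b, IsUnit (phi Φ a b x y) := H.exists_unit (H.pr_zero hx) (H.pr_zero hy) hx.unit hy.unit

theorem exists_add (p q : Prj I R) : ∃ s : Prj I R, ∀ x y, PR p x → PR q y → ∀ a b,
    IsUnit (phi Φ a b x y) → PR s fun c => phi Φ c b x y := by
  obtain ⟨a₀, b₀, h₀⟩ := H.pr_unit (pr_co p) (pr_co q)
  obtain ⟨s, hs⟩ := exists_pr ⟨a₀, h₀⟩ (H.zero_add (co_zero p) (co_zero q) b₀)
  refine ⟨s, ?_⟩
  rintro x y ⟨u, hu⟩ ⟨w, hw⟩ a b h
  obtain rfl : x = fun a => u * p.co a := funext hu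
  obtain rfl : y = fun a => w * q.co a := funext hw
  refine hs.of_minors ⟨a, h⟩ fun c d => ?_
  rw [H.phi_mul, H.phi_mul]
  linear_combination (u : R) ^ 2 * (w : R) ^ 2 * H.rank_one (co_zero p) (co_zero q) c d b₀ b

theorem exists_sub (p q : Prj I R) : ∃ s : Prj I R, ∀ x y, PR p x → PR q y → ∀ a b,
    IsUnit (phi Φ a b x y) → PR s fun c => phi Φ a c x y := by
  obtain ⟨a₀, b₀, h₀⟩ := H.pr_unit (pr_co p) (pr_co q)
  obtain ⟨s, hs⟩ := exists_pr ⟨b₀, h₀⟩ (H.zero_sub (co_zero p) (co_zero q) a₀)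
  refine ⟨s, ?_⟩
  rintro x y ⟨u, hu⟩ ⟨w, hw⟩ a b h
  obtain rfl : x = fun a => u * p.co a := funext hu
  obtain rfl : y = fun a => w * q.co a := funext hw
  refine hs.of_minors ⟨b, h⟩ fun c d => ?_
  rw [H.phi_mul, H.phi_mul]
  linear_combination (u : R) ^ 2 * (w : R) ^ 2 * H.rank_one (co_zero p) (co_zero q) a₀ a c d

omit [IsLocalRing R] in
theorem exists_zero : ∃ s : Prj I R, PR s fun a => algebraMap k R (o a) :=
  exists_pr (H.o_ne.imp fun a h => by simp [h]) H.o_zero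

/-- The sum. -/
noncomputable def add (p q : Prj I R) : Prj I R := (H.exists_add p q).choose

/-- The difference. -/
noncomputable def sub (p q : Prj I R) : Prj I R := (H.exists_sub p q).choose

/-- The neutral element. -/
noncomputable def nul (R : Type) [CommRing R] [Algebra k R] : Prj I R :=
  (H.exists_zero (R := R)).choose

theorem pr_add {p q : Prj I R} {x y : ι → R} (hx : PR p x) (hy : PR q y) :
    ∃ b, PR (H.add p q) fun c => phi Φ c b x y := by
  obtain ⟨a, b, h⟩ := H.pr_unit hx hy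
  exact ⟨b, (H.exists_add p q).choose_spec x y hx hy a b h⟩

theorem pr_sub {p q : Prj I R} {x y : ι → R} (hx : PR p x) (hy : PR q y) :
    ∃ a, PR (H.sub p q) fun c => phi Φ a c x y := by
  obtain ⟨a, b, h⟩ := H.pr_unit hx hy
  exact ⟨a, (H.exists_sub p q).choose_spec x y hx hy a b h⟩

omit [IsLocalRing R] in
theorem pr_nul : PR (H.nul R) fun a => algebraMap k R (o a) := (H.exists_zero (R := R)).choose_spec

theorem add_comm' (p q : Prj I R) : H.add p q = H.add q p := by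
  obtain ⟨b, h1⟩ := H.pr_add (pr_co p) (pr_co q)
  obtain ⟨b', h2⟩ := H.pr_add (pr_co q) (pr_co p)
  exact h1.eq_of_minors h2 fun a a' => H.trans
    (fun _ _ _ v0 v1 v2 => phi Φ a b v0 v1 * phi Φ a' b' v1 v0 -
      phi Φ a' b v0 v1 * phi Φ a b' v1 v0)
    (fun _ _ _ _ _ _ f _ _ _ => by simp only [map_sub, map_mul, map_phi])
    (fun _ _ _ _ _ _ h0 h1 h2 => (H.on_add h0 h1 b).minors (H.on_add h1 h0 b') (add_comm _ _) a a')
    (co_zero p) (co_zero q) (co_zero q)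

theorem add_assoc' (p q r : Prj I R) : H.add (H.add p q) r = H.add p (H.add q r) := by
  obtain ⟨b, h1⟩ := H.pr_add (pr_co p) (pr_co q)
  obtain ⟨b', h2⟩ := H.pr_add h1 (pr_co r)
  obtain ⟨c, h3⟩ := H.pr_add (pr_co q) (pr_co r)
  obtain ⟨c', h4⟩ := H.pr_add (pr_co p) h3
  exact h2.eq_of_minors h4 fun a a' => H.trans
    (fun _ _ _ v0 v1 v2 => phi Φ a b' (fun e => phi Φ e b v0 v1) v2 *
        phi Φ a' c' v0 (fun e => phi Φ e c v1 v2) -
      phi Φ a' b' (fun e => phi Φ e b v0 v1) v2 *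
        phi Φ a c' v0 (fun e => phi Φ e c v1 v2))
    (fun _ _ _ _ _ _ f _ _ _ => by simp only [map_sub, map_mul, map_phi])
    (fun _ _ _ _ _ _ h0 h1 h2 => (H.on_add (H.on_add h0 h1 b) h2 b').minors
      (H.on_add h0 (H.on_add h1 h2 c) c') (add_assoc _ _ _) a a')
    (co_zero p) (co_zero q) (co_zero r)

theorem nul_add (p : Prj I R) : H.add (H.nul R) p = p := by
  obtain ⟨b, h1⟩ := H.pr_add H.pr_nul (pr_co p)
  exact h1.eq_of_minors (pr_co p) fun a a' => H.trans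
    (fun S _ _ v0 v1 v2 => phi Φ a b (fun e => algebraMap k S (o e)) v0 * v0 a' -
      phi Φ a' b (fun e => algebraMap k S (o e)) v0 * v0 a)
    (fun _ _ _ _ _ _ f _ _ _ => by simp only [map_sub, map_mul, map_phi, AlgHom.commutes])
    (fun _ _ _ _ _ _ h0 h1 h2 => (H.on_add H.o_on h0 b).minors h0 (_root_.zero_add _) a a')
    (co_zero p) (co_zero p) (co_zero p)

theorem neg_add (p : Prj I R) : H.add (H.sub (H.nul R) p) p = H.nul R := by
  obtain ⟨c, h1⟩ := H.pr_sub H.pr_nul (pr_co p)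
  obtain ⟨b, h2⟩ := H.pr_add h1 (pr_co p)
  exact h2.eq_of_minors H.pr_nul fun a a' => H.trans
    (fun S _ _ v0 v1 v2 => phi Φ a b (fun e => phi Φ c e (fun e => algebraMap k S (o e)) v0) v0 *
        algebraMap k S (o a') -
      phi Φ a' b (fun e => phi Φ c e (fun e => algebraMap k S (o e)) v0) v0 *
        algebraMap k S (o a))
    (fun _ _ _ _ _ _ f _ _ _ => by simp only [map_sub, map_mul, map_phi, AlgHom.commutes])
    (fun _ _ _ _ _ _ h0 h1 h2 => (H.on_add (H.on_sub H.o_on h0 c) h0 b).minors H.o_on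
      (sub_add_cancel _ _) a a')
    (co_zero p) (co_zero p) (co_zero p)

theorem sub_eq (p q : Prj I R) : H.sub p q = H.add p (H.sub (H.nul R) q) := by
  obtain ⟨d, h0⟩ := H.pr_sub (pr_co p) (pr_co q)
  obtain ⟨c, h1⟩ := H.pr_sub H.pr_nul (pr_co q)
  obtain ⟨b, h2⟩ := H.pr_add (pr_co p) h1
  exact h0.eq_of_minors h2 fun a a' => H.trans
    (fun S _ _ v0 v1 v2 => phi Φ d a v0 v1 *
        phi Φ a' b v0 (fun e => phi Φ c e (fun e => algebraMap k S (o e)) v1) -
      phi Φ d a' v0 v1 *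
        phi Φ a b v0 (fun e => phi Φ c e (fun e => algebraMap k S (o e)) v1))
    (fun _ _ _ _ _ _ f _ _ _ => by simp only [map_sub, map_mul, map_phi, AlgHom.commutes])
    (fun _ _ _ _ _ _ h0 h1 h2 => (H.on_sub h0 h1 d).minors (H.on_add h0 (H.on_sub H.o_on h1 c) b)
      (by rw [_root_.zero_sub, sub_eq_add_neg]) a a')
    (co_zero p) (co_zero q) (co_zero q)

/-- The group of points over a local algebra. -/
@[reducible] noncomputable def grp (R : Type) [CommRing R] [IsLocalRing R] [Algebra k R] :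
    AddCommGroup (Prj I R) :=
  letI : Add (Prj I R) := ⟨H.add⟩
  letI : Zero (Prj I R) := ⟨H.nul R⟩
  letI : Neg (Prj I R) := ⟨H.sub (H.nul R)⟩
  { add_assoc := H.add_assoc'
    zero_add := H.nul_add
    add_zero := fun p => (H.add_comm' _ _).trans (H.nul_add p)
    nsmul := nsmulRec
    sub := H.sub
    zsmul := zsmulRec
    sub_eq_add_neg := H.sub_eq
    neg_add_cancel := H.neg_add
    add_comm := H.add_comm' }

theorem law₀ (R : Type) [CommRing R] [IsLocalRing R] [Algebra k R] :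
    @Law k _ ι I Φ o R _ _ (H.grp R) := by
  refine ⟨H.pr_nul, fun p q => ?_⟩
  obtain ⟨a₀, b₀, h₀⟩ := H.pr_unit (pr_co p) (pr_co q)
  obtain ⟨s, hs⟩ := (H.exists_add p q).choose_spec _ _ (pr_co p) (pr_co q) a₀ b₀ h₀
  obtain ⟨t, ht⟩ := (H.exists_sub p q).choose_spec _ _ (pr_co p) (pr_co q) a₀ b₀ h₀
  obtain ⟨u, hu⟩ := h₀
  refine ⟨u⁻¹ * s * t, fun a b => ?_⟩
  have h := H.rank_one (co_zero p) (co_zero q) a a₀ b b₀
  have h1 : phi Φ a b₀ p.co q.co = s * (H.add p q).co a := hs a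
  have h2 : phi Φ a₀ b p.co q.co = t * (H.sub p q).co b := ht b
  rw [h1, h2, ← hu] at h
  change phi Φ a b p.co q.co = _ * ((H.add p q).co a * (H.sub p q).co b)
  push_cast
  linear_combination (↑u⁻¹ : R) * h - phi Φ a b p.co q.co * u.inv_mul

end Pre

end Pool.Agent.Lib.MP_651af7_nt.Av
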