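import Pool.Agent.Lib.MP_651af7_nt.Av.RBQ

/-! Weak transference over a number field. -/

namespace Pool.Agent.Lib.MP_651af7_nt.Av

open Finset Height Height.AdmissibleAbsValues NumberField

/-- Comparison of heights from local comparisons. -/
theorem rb_ht_cmp {K : Type*} [Field K] [AdmissibleAbsValues K] {ι ι' : Type*} [Finite ι]
    [Finite ι'] {x : ι → K} {y : ι' → K} (hy : y ≠ 0) (hx : x ≠ 0) {A : ℝ} (hA : 0 < A)
    (h1 : ∀ v ∈ archAbsVal (K := K), ∀ i, v (x i) ≤ A * ⨆ j, v (y j))
    (h2 : ∀ v ∈ nonarchAbsVal (K := K), ∀ i, v (x i) ≤ ⨆ j, v (y j)) :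
    logHeight x ≤ totalWeight K * Real.log A + logHeight y := by
  have : Nonempty ι := (Function.ne_iff.mp hx).nonempty
  have h : mulHeight x ≤ A ^ totalWeight K * mulHeight y := by
    rw [mulHeight_eq hx, mulHeight_eq hy, ← mul_assoc]
    gcongr
    · exact finprod_nonneg fun v => Real.iSup_nonneg_of_nonnegHomClass v.val _
    · exact mul_nonneg (by positivity)
        (Multiset.prod_map_nonneg fun v _ => Real.iSup_nonneg_of_nonnegHomClass v _)
    · rw [← Multiset.prod_replicate, totalWeight, ← Multiset.map_const', ← Multiset.prod_map_mul]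
      exact Multiset.prod_map_le_prod_map₀ _ _
        (fun v _ => Real.iSup_nonneg_of_nonnegHomClass v _) fun v hv => ciSup_le (h1 v hv)
    · exact finprod_le_finprod (by fun_prop)
        (fun v => Real.iSup_nonneg_of_nonnegHomClass v.val _) (by fun_prop)
        fun v => ciSup_le (h2 v.val v.2)
  have h' := Real.log_le_log (mulHeight_pos x) h
  rwa [Real.log_mul (by positivity) (mulHeight_ne_zero y), Real.log_pow] at h'

variable (k : Type) [Field k] [NumberField k]

theorem rb_arch_rat {v : AbsoluteValue k ℝ} (hv : v ∈ archAbsVal (K := k)) (q : ℚ) :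
    v (q : k) = ((|q| : ℚ) : ℝ) := by
  have h := InfinitePlace.map_ratCast (⟨v, mem_multisetInfinitePlace.mp hv⟩ : InfinitePlace k) q
  rw [← Rat.norm_cast_real, Real.norm_eq_abs, ← Rat.cast_abs] at h
  exact h

theorem rb_non_int {v : AbsoluteValue k ℝ} (hv : v ∈ nonarchAbsVal (K := k)) (a : 𝓞 k) :
    v (a : k) ≤ 1 := by
  have h := FinitePlace.norm_le_one k (FinitePlace.maximalIdeal (⟨v, hv⟩ : FinitePlace k)) a
  rw [FinitePlace.norm_embedding_eq] at h
  exact h

theorem rb_ht_int {ι : Type} [Fintype ι] (y : ι → ℤ) {A : ℝ} (hA : 1 ≤ A)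
    (h : ∀ i, |(y i : ℝ)| ≤ A) :
    logHeight (fun i => (y i : k)) ≤ totalWeight k * Real.log A := by
  rcases eq_or_ne (fun i => (y i : k)) 0 with h0 | h0
  · rw [h0, logHeight_zero]
    exact mul_nonneg (by positivity) (Real.log_nonneg hA)
  have h1 := rb_ht_cmp (y := fun _ : Unit => (1 : k)) (fun h => one_ne_zero (congrFun h ())) h0
    (A := A) (by linarith) (fun v hv i => by
      have h2 := rb_arch_rat k hv (y i)
      rw [Rat.cast_intCast] at h2
      rw [h2, map_one, ciSup_const, mul_one]
      simpa using h i) (fun v hv i => by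
      rw [map_one, ciSup_const]
      simpa using rb_non_int k hv (y i : 𝓞 k))
  rwa [logHeight_eq_zero_of_subsingleton (ι := Unit), add_zero] at h1

/-- Weak transference over a number field: if the annihilator of `T` has no vector of height
below `H`, there are integral vectors exponentially close to `T` at all infinite places which
span the space modulo `T`. -/
theorem rb_field (g : Type) [Fintype g] :
    ∃ (N : ℕ) (c : ℝ), 0 < c ∧ ∃ C : ℝ, ∀ (T : Submodule k (g → k)) (H : ℝ),
      (∀ l : g → k, l ≠ 0 → (∀ τ ∈ T, ∑ j, l j * τ j = 0) → H ≤ logHeight l) →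
      ∃ e τ : Fin N → g → k, (∀ l, τ l ∈ T) ∧
        (∀ v ∈ nonarchAbsVal (K := k), ∀ l j, v (e l j) ≤ 1) ∧
        (∀ v ∈ archAbsVal (K := k), ∀ l j, v (e l j - τ l j) ≤ Real.exp (C - c * H)) ∧
        ∀ x : g → k, ∃ s : Fin N → k, (x - ∑ l, s l • e l) ∈ T := by
  classical
  let b := integralBasis k
  let ι := g × Module.Free.ChooseBasisIndex ℤ (𝓞 k)
  let N := Fintype.card ι
  let n : ℕ := totalWeight k
  let A : g × ι → k := fun p => if p.2.1 = p.1 then b.traceDual p.2.2 else 0
  let C₀ : ℝ := n * Real.log (Nat.card ι) + logHeight A + n * N * Real.log (2 * N + 1) + 1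
  let M : ℝ := n * N * N + 1
  have hM : 0 < M := by positivity
  let B : ℝ := ((archAbsVal (K := k)).map fun v => ∑ a, v (b a)).sum + 1
  have hB : ∀ v ∈ archAbsVal (K := k), ∑ a, v (b a) ≤ B := fun v hv => by
    have := Multiset.single_le_sum (s := (archAbsVal (K := k)).map fun v => ∑ a, v (b a))
      (fun x hx => by
        obtain ⟨w, -, rfl⟩ := Multiset.mem_map.mp hx
        exact sum_nonneg fun a _ => w.nonneg _) _ (Multiset.mem_map_of_mem _ hv)
    simp only [B]; linarith
  have hB0 : 0 < B := by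
    have : 0 ≤ ((archAbsVal (K := k)).map fun v => ∑ a, v (b a)).sum :=
      Multiset.sum_nonneg fun x hx => by
        obtain ⟨w, -, rfl⟩ := Multiset.mem_map.mp hx
        exact sum_nonneg fun a _ => w.nonneg _
    simp only [B]; linarith
  let φ : (ι → ℚ) →ₗ[ℚ] (g → k) :=
    { toFun := fun x j => ∑ a, x (j, a) • b a
      map_add' := fun x y => by funext j; simp [add_smul, sum_add_distrib]
      map_smul' := fun c x => by funext j; simp [smul_sum, mul_smul] }
  have hφ : ∀ x j, φ x j = ∑ a, x (j, a) • b a := fun _ _ => rfl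
  have hsur : ∀ u : g → k, φ (fun p => b.repr (u p.1) p.2) = u := fun u => by
    funext j; exact b.sum_repr (u j)
  refine ⟨N, 1 / M, by positivity,
    Real.log (2 * ((N + 1).factorial : ℝ) * B) + |C₀| / M, fun T H hT => ?_⟩
  let X : ℝ := Real.exp ((H - |C₀|) / M)
  have hX : 0 < X := Real.exp_pos _
  have main : ∃ (e : Fin N → ι → ℤ) (τ : Fin N → ι → ℚ),
      (∀ l, τ l ∈ (T.restrictScalars ℚ).comap φ) ∧
      (∀ l i, ((|(e l i : ℚ) - τ l i| : ℚ) : ℝ) ≤ 2 * ((N + 1).factorial : ℝ) / X) ∧
      ∀ x : ι → ℚ, ∃ s : Fin N → ℚ,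
        (x - ∑ l, s l • fun i => (e l i : ℚ)) ∈ (T.restrictScalars ℚ).comap φ := by
    refine rb_rat _ hX fun y hy0 hy => ?_
    by_contra hc
    push Not at hc
    obtain ⟨i₀, hi₀⟩ := Function.ne_iff.mp hy0
    have hN : (1 : ℝ) ≤ N := by exact_mod_cast Fintype.card_pos_iff.mpr ⟨i₀⟩
    have hy1 : (1 : ℝ) ≤ |(y i₀ : ℝ)| := by exact_mod_cast Int.one_le_abs hi₀
    have hΛ : (1 : ℝ) ≤ (2 * N * X ^ N) ^ N := hy1.trans (hc i₀)
    let l : g → k := fun j => ∑ i, A (j, i) * (y i : k)
    have hl : ∀ j, l j = ∑ a, (y (j, a) : ℚ) • b.traceDual a := fun j => by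
      simp only [l, A, ite_mul, zero_mul]
      rw [Fintype.sum_prod_type, sum_eq_single j]
      · refine sum_congr rfl fun a _ => ?_
        simp [mul_comm, Rat.smul_def]
      · intro j' _ hj
        simp [hj]
      · simp
    have htr : ∀ (u : k) (a), Algebra.trace ℚ k (b.traceDual a * u) = b.repr u a := fun u a => by
      have h1 := b.traceDual.traceDual_repr_apply u a
      rw [Module.Basis.traceDual_traceDual, Algebra.traceForm_apply, mul_comm] at h1
      exact h1.symm
    have hl0 : l ≠ 0 := by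
      intro h0
      have h1 := congrFun h0 i₀.1
      rw [hl, Pi.zero_apply] at h1
      have h2 := Fintype.linearIndependent_iff.mp b.traceDual.linearIndependent _ h1 i₀.2
      exact hi₀ (by exact_mod_cast h2)
    have hperp : ∀ τ ∈ T, ∑ j, l j * τ j = 0 := by
      have h1 : ∀ τ ∈ T, Algebra.trace ℚ k (∑ j, l j * τ j) = 0 := fun τ hτ => by
        have h2 := hy (fun p => b.repr (τ p.1) p.2) (by
          rw [Submodule.mem_comap, hsur]; exact hτ)
        rw [Fintype.sum_prod_type] at h2
        rw [← h2, map_sum]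
        refine sum_congr rfl fun j _ => ?_
        rw [hl, sum_mul, map_sum]
        refine sum_congr rfl fun a _ => ?_
        rw [smul_mul_assoc, map_smul, htr, smul_eq_mul]
      intro τ hτ
      refine (traceForm_nondegenerate ℚ k).1 _ fun β => ?_
      have h2 := h1 (β • τ) (T.smul_mem β hτ)
      rw [Algebra.traceForm_apply, ← h2, sum_mul]
      congr 1
      exact sum_congr rfl fun j _ => by rw [Pi.smul_apply, smul_eq_mul]; ring
    have h1 := hT l hl0 hperp
    have h2 := logHeight_linearMap_apply_le A fun i => (y i : k)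
    have h3 := rb_ht_int k y hΛ hc
    have h4 : Real.log ((2 * N * X ^ N) ^ N) =
        N * Real.log (2 * N) + N * N * ((H - |C₀|) / M) := by
      rw [Real.log_pow, Real.log_mul (by positivity) (by positivity), Real.log_pow, Real.log_exp]
      ring
    have h5 : Real.log (2 * N) ≤ Real.log (2 * N + 1) :=
      Real.log_le_log (by positivity) (by linarith)
    have h6 : (n : ℝ) * N * Real.log (2 * N) ≤ n * N * Real.log (2 * N + 1) := by gcongr
    have h7 : H ≤ C₀ - 1 + n * N * N * ((H - |C₀|) / M) := by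
      have h8 : logHeight l ≤ n * Real.log (Nat.card ι) + logHeight A +
        n * (N * Real.log (2 * N) + N * N * ((H - |C₀|) / M)) := by
        rw [← h4]; exact h2.trans (by linarith)
      simp only [C₀] at h8 ⊢
      nlinarith
    have h8 : (n : ℝ) * N * N * ((H - |C₀|) / M) = (H - |C₀|) - (H - |C₀|) / M := by
      field_simp
      simp only [M]
      ring
    have h9 := le_abs_self C₀
    have h10 : (H - |C₀|) / M ≤ -1 := by linarith
    have h11 : X ≤ Real.exp (-1) := Real.exp_le_exp.mpr h10
    have h12 : 0 ≤ Real.log ((2 * N * X ^ N) ^ N) := Real.log_nonneg hΛ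
    have h13 : 2 * (N : ℝ) * X ^ N < 1 := by
      have h14 : X ^ N ≤ Real.exp (-1) ^ N := by gcongr
      have h15 : Real.exp (-1) ^ N * Real.exp N = 1 := by
        rw [← Real.exp_nat_mul, ← Real.exp_add]; simp
      have h16 : 2 * (N : ℝ) < Real.exp N := by
        have h17 := Real.quadratic_le_exp_of_nonneg (x := N) (by positivity)
        have h18 : (N : ℝ) = 1 ∨ (2 : ℝ) ≤ N := by
          have : 1 ≤ N := by exact_mod_cast hN
          rcases Nat.eq_or_lt_of_le this with h | h
          · exact Or.inl (by exact_mod_cast h.symm)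
          · exact Or.inr (by exact_mod_cast h)
        rcases h18 with h | h <;> nlinarith
      have h19 : 0 < Real.exp (-1) ^ N := by positivity
      nlinarith
    have hN0 : N ≠ 0 := by
      have : 1 ≤ N := by exact_mod_cast hN
      omega
    exact absurd hΛ (not_le.mpr (pow_lt_one₀ (by positivity) h13 hN0))
  obtain ⟨e, τ, hτ, he, hs⟩ := main
  refine ⟨fun l => φ fun i => (e l i : ℚ), fun l => φ (τ l), hτ, fun v hv l j => ?_,
    fun v hv l j => ?_, fun x => ?_⟩
  · have h1 : φ (fun i => (e l i : ℚ)) j =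
        ((∑ a, e l (j, a) • RingOfIntegers.basis k a : 𝓞 k) : k) := by
      rw [hφ, RingOfIntegers.coe_eq_algebraMap, map_sum]
      refine sum_congr rfl fun a _ => ?_
      rw [map_zsmul, ← integralBasis_apply, Int.cast_smul_eq_zsmul]
    exact (congrArg v h1).trans_le (rb_non_int k hv _)
  · have h1 : φ (fun i => (e l i : ℚ)) j - φ (τ l) j =
        ∑ a, (((e l (j, a) : ℚ) - τ l (j, a) : ℚ) : k) * b a := by
      rw [hφ, hφ, ← sum_sub_distrib]
      exact sum_congr rfl fun a _ => by rw [← sub_smul, Rat.smul_def]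
    refine ((congrArg v h1).trans_le (v.sum_le _ _)).trans ?_
    have h2 : ∑ a, v ((((e l (j, a) : ℚ) - τ l (j, a) : ℚ) : k) * b a) ≤
        2 * ((N + 1).factorial : ℝ) / X * ∑ a, v (b a) := by
      rw [mul_sum]
      refine sum_le_sum fun a _ => ?_
      rw [map_mul, rb_arch_rat k hv]
      exact mul_le_mul_of_nonneg_right (he l (j, a)) (v.nonneg _)
    refine h2.trans ((mul_le_mul_of_nonneg_left (hB v hv) (by positivity)).trans (le_of_eq ?_))
    rw [add_sub_assoc, Real.exp_add, Real.exp_log (by positivity), div_mul_eq_mul_div,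
      div_eq_mul_inv, ← Real.exp_neg]
    congr 2
    ring
  · obtain ⟨s, hs'⟩ := hs fun p => b.repr (x p.1) p.2
    refine ⟨fun l => s l, ?_⟩
    rw [Submodule.mem_comap, map_sub, hsur, map_sum] at hs'
    simpa only [map_smul, Rat.cast_smul_eq_qsmul, Submodule.restrictScalars_mem] using hs'

end Pool.Agent.Lib.MP_651af7_nt.Av
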