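import Mathlib

/-! A weak transference principle over the rationals: if a subspace `T` of `ℚ ^ N` is orthogonal
to no small integer vector, then integer vectors very close to `T` span `ℚ ^ N` modulo `T`. -/

namespace Pool.Agent.Lib.MP_651af7_nt.Av

open Finset

variable {ι : Type} [Fintype ι]

/-- Simultaneous Dirichlet approximation. -/
theorem rb_dirichlet (w : ι → ℚ) {Q : ℕ} (hQ : 0 < Q) :
    ∃ z : ℕ, 1 ≤ z ∧ z ≤ Q ^ Fintype.card ι ∧ ∃ e : ι → ℤ, ∀ i, |z * w i - e i| ≤ 1 / Q := by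
  classical
  have hQ' : (0 : ℚ) < Q := by exact_mod_cast hQ
  have hlt : ∀ (z : ℕ) (i : ι), ⌊(Q : ℚ) * Int.fract (z * w i)⌋₊ < Q := fun z i => by
    rw [Nat.floor_lt (mul_nonneg hQ'.le (Int.fract_nonneg _))]
    exact mul_lt_of_lt_one_right hQ' (Int.fract_lt_one _)
  let f : Fin (Q ^ Fintype.card ι + 1) → (ι → Fin Q) := fun z i => ⟨_, hlt z i⟩
  obtain ⟨a, b, hab, hf⟩ := Fintype.exists_ne_map_eq_of_card_lt f (by simp)
  wlog h : a < b generalizing a b
  · exact this b a hab.symm hf.symm (lt_of_le_of_ne (not_lt.mp h) hab.symm)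
  have h' : (a : ℕ) < b := h
  refine ⟨b - a, by omega, by have := b.2; omega, fun i => ⌊(b : ℕ) * w i⌋ - ⌊(a : ℕ) * w i⌋,
    fun i => ?_⟩
  have h1 : ⌊(Q : ℚ) * Int.fract ((a : ℕ) * w i)⌋₊ = ⌊(Q : ℚ) * Int.fract ((b : ℕ) * w i)⌋₊ :=
    congrArg Fin.val (congrFun hf i)
  have e1 : ((b - a : ℕ) : ℚ) * w i - ((⌊(b : ℕ) * w i⌋ - ⌊(a : ℕ) * w i⌋ : ℤ) : ℚ) =
      Int.fract ((b : ℕ) * w i) - Int.fract ((a : ℕ) * w i) := by
    rw [Nat.cast_sub h'.le, Int.fract, Int.fract]; push_cast; ring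
  have a1 := Nat.floor_le (mul_nonneg hQ'.le (Int.fract_nonneg ((a : ℕ) * w i)))
  have a2 := Nat.lt_floor_add_one ((Q : ℚ) * Int.fract ((a : ℕ) * w i))
  have b1 := Nat.floor_le (mul_nonneg hQ'.le (Int.fract_nonneg ((b : ℕ) * w i)))
  have b2 := Nat.lt_floor_add_one ((Q : ℚ) * Int.fract ((b : ℕ) * w i))
  rw [h1] at a1 a2
  rw [e1, abs_le, neg_le, le_div_iff₀ hQ', le_div_iff₀ hQ']
  constructor <;> nlinarith

attribute [local instance] Matrix.seminormedAddCommGroup in
/-- A proper subspace spanned by integer vectors of size at most `R` has a small normal vector. -/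
theorem rb_siegel (S : Set (ι → ℤ)) {R : ℕ} (hR : 1 ≤ R) (hS : ∀ e ∈ S, ∀ i, |e i| ≤ R)
    (hne : Submodule.span ℚ ((fun (e : ι → ℤ) i => (e i : ℚ)) '' S) ≠ ⊤) :
    ∃ y : ι → ℤ, y ≠ 0 ∧ (∀ i, |y i| ≤ (Fintype.card ι * R) ^ Fintype.card ι) ∧
      ∀ e ∈ S, ∑ i, y i * e i = 0 := by
  classical
  obtain ⟨b, hb, hsp, hli⟩ := exists_linearIndependent ℚ ((fun (e : ι → ℤ) i => (e i : ℚ)) '' S)
  have hfin : b.Finite := hli.setFinite
  have : Fintype b := hfin.fintype
  have hcard : Fintype.card b < Fintype.card ι := by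
    have h1 := finrank_span_set_eq_card (R := ℚ) (s := b) hli
    have h2 := Submodule.finrank_lt (K := ℚ) (s := Submodule.span ℚ b) (by rwa [hsp])
    rw [Module.finrank_fintype_fun_eq_card, h1, Set.toFinset_card] at h2
    exact h2
  have hN : 1 ≤ Fintype.card ι := by omega
  have hNR : (1 : ℤ) ≤ Fintype.card ι * R := by
    exact_mod_cast Nat.one_le_iff_ne_zero.mpr (mul_ne_zero (by omega) (by omega))
  choose! E hES hE using fun x (hx : x ∈ b) => hb hx
  have key : ∀ y : ι → ℤ, (∀ x : b, ∑ i, E x i * y i = 0) → ∀ e ∈ S, ∑ i, y i * e i = 0 := by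
    intro y hy e he
    have h1 : (fun i => (e i : ℚ)) ∈ Submodule.span ℚ b := by
      rw [hsp]; exact Submodule.subset_span ⟨e, he, rfl⟩
    have h2 : ∀ x ∈ Submodule.span ℚ b, ∑ i, (y i : ℚ) * x i = 0 := by
      intro x hx
      induction hx using Submodule.span_induction with
      | mem x hx =>
        have h3 := hy ⟨x, hx⟩
        have h4 : ∀ i, x i = E x i := fun i => (congrFun (hE x hx) i).symm
        simp only [h4]
        exact_mod_cast (by simpa only [mul_comm] using h3 : ∑ i, y i * E x i = 0)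
      | zero => simp
      | add x x' _ _ h h' => simp only [Pi.add_apply, mul_add, sum_add_distrib, h, h', add_zero]
      | smul c x _ h =>
        simp only [Pi.smul_apply, smul_eq_mul, mul_left_comm _ c, ← mul_sum, h, mul_zero]
    exact_mod_cast h2 _ h1
  rcases Nat.eq_zero_or_pos (Fintype.card b) with h0 | h0
  · have : IsEmpty b := Fintype.card_eq_zero_iff.mp h0
    have : Nonempty ι := Fintype.card_pos_iff.mp hN
    refine ⟨fun _ => 1, fun h => one_ne_zero (congrFun h (Classical.arbitrary ι)), fun i => ?_,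
      key _ fun x => isEmptyElim x⟩
    simpa using one_le_pow₀ hNR
  · obtain ⟨t, ht0, ht, hn⟩ := Int.Matrix.exists_ne_zero_int_vec_norm_le
      (Matrix.of fun (x : b) (i : ι) => E x i) hcard h0
    refine ⟨t, ht0, fun i => ?_, key _ fun x => congrFun ht x⟩
    have hA : ‖(Matrix.of fun (x : b) (i : ι) => E x i)‖ ≤ R := by
      rw [Matrix.norm_le_iff (by positivity)]
      intro x j
      rw [Matrix.of_apply, Int.norm_eq_abs]
      exact_mod_cast hS _ (hES x x.2) j
    have h1 : (1 : ℝ) ≤ R := by exact_mod_cast hR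
    have h2 : (1 : ℝ) ≤ Fintype.card ι * R := by exact_mod_cast hNR
    have h3 : (Fintype.card b : ℝ) + 1 ≤ Fintype.card ι := by exact_mod_cast hcard
    have h4 : (Fintype.card b : ℝ) / (Fintype.card ι - Fintype.card b) ≤ Fintype.card ι := by
      rw [div_le_iff₀ (by linarith)]
      nlinarith [(by positivity : (0 : ℝ) ≤ Fintype.card b)]
    have h5 : ‖t‖ ≤ ((Fintype.card ι : ℝ) * R) ^ Fintype.card ι := by
      refine hn.trans ?_
      rw [← Real.rpow_natCast]
      refine (Real.rpow_le_rpow (by positivity) ?_ (div_nonneg (by positivity) (by linarith))).trans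
        (Real.rpow_le_rpow_of_exponent_le h2 h4)
      exact mul_le_mul_of_nonneg_left (max_le h1 hA) (by positivity)
    have h6 := (norm_le_pi_norm t i).trans h5
    rw [Int.norm_eq_abs] at h6
    exact_mod_cast h6

/-- One step: an integer vector close to `W` and not in `W`. -/
theorem rb_step (W : Submodule ℚ (ι → ℚ)) (hW : W ≠ ⊤) {Q : ℕ} (hQ : 2 ≤ Q)
    (h : ∀ y : ι → ℤ, y ≠ 0 → (∀ w ∈ W, ∑ i, (y i : ℚ) * w i = 0) →
      ∃ i, ((Fintype.card ι * (Q ^ Fintype.card ι + 1)) ^ Fintype.card ι : ℤ) < |y i|) :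
    ∃ e : ι → ℤ, (fun i => (e i : ℚ)) ∉ W ∧ ∃ w ∈ W, ∀ i, |(e i : ℚ) - w i| ≤ 1 / Q := by
  by_contra hc
  push Not at hc
  have hc' : ∀ e : ι → ℤ, ∀ w ∈ W, (∀ i, |(e i : ℚ) - w i| ≤ 1 / Q) → (fun i => (e i : ℚ)) ∈ W := by
    intro e w hw hi
    by_contra hn
    obtain ⟨i, hi'⟩ := hc e hn w hw
    exact absurd (hi i) (not_le.mpr hi')
  obtain ⟨y, hy0, hy, hyS⟩ := rb_siegel
    {e : ι → ℤ | (fun i => (e i : ℚ)) ∈ W ∧ ∀ i, |e i| ≤ ((Q ^ Fintype.card ι + 1 : ℕ) : ℤ)}
    (R := Q ^ Fintype.card ι + 1) (by omega) (fun e he => he.2) (by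
      intro ht
      refine hW (top_le_iff.mp (ht ▸ Submodule.span_le.mpr ?_))
      rintro _ ⟨e, he, rfl⟩
      exact he.1)
  have hQ' : (2 : ℚ) ≤ Q := by exact_mod_cast hQ
  have hQ1 : (1 : ℚ) / Q ≤ 1 / 2 := one_div_le_one_div_of_le two_pos hQ'
  have it : ∀ n : ℕ, ∀ w ∈ W, (∀ i, |w i| ≤ 1) →
      |∑ i, (y i : ℚ) * w i| ≤ (∑ i, |(y i : ℚ)|) * (1 / 2) ^ n := by
    intro n
    induction n with
    | zero =>
      intro w _ hw
      rw [pow_zero, mul_one]
      refine (abs_sum_le_sum_abs _ _).trans (sum_le_sum fun i _ => ?_)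
      rw [abs_mul]
      exact mul_le_of_le_one_right (abs_nonneg _) (hw i)
    | succ n ih =>
      intro w hwW hw
      obtain ⟨z, hz1, hz2, e, he⟩ := rb_dirichlet w (Q := Q) (by omega)
      have heW : (fun i => (e i : ℚ)) ∈ W :=
        hc' e ((z : ℚ) • w) (W.smul_mem _ hwW) fun i => by
          rw [abs_sub_comm]; exact he i
      have hz1' : (1 : ℚ) ≤ z := by exact_mod_cast hz1
      have hz2' : (z : ℚ) ≤ Q ^ Fintype.card ι := by exact_mod_cast hz2
      have heS := hyS e ⟨heW, fun i => by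
        have h1 : |(e i : ℚ)| ≤ Q ^ Fintype.card ι + 1 := by
          have h2 : (e i : ℚ) = z * w i - (z * w i - e i) := by ring
          rw [h2]
          refine (abs_sub _ _).trans (add_le_add ?_ ((he i).trans (hQ1.trans (by norm_num))))
          rw [abs_mul, abs_of_nonneg (by positivity : (0 : ℚ) ≤ z)]
          exact (mul_le_of_le_one_right (by positivity) (hw i)).trans hz2'
        exact_mod_cast h1⟩
      have heS' : ∑ i, (y i : ℚ) * e i = 0 := by exact_mod_cast heS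
      have h1 := ih ((2 : ℚ) • ((z : ℚ) • w - fun i => (e i : ℚ)))
        (W.smul_mem _ (W.sub_mem (W.smul_mem _ hwW) heW)) fun i => by
          have h2 := (he i).trans hQ1
          simp only [Pi.smul_apply, Pi.sub_apply, smul_eq_mul, abs_mul, abs_two]
          linarith
      have h2 : ∑ i, (y i : ℚ) * ((2 : ℚ) • ((z : ℚ) • w - fun i => (e i : ℚ))) i =
          2 * z * ∑ i, (y i : ℚ) * w i - 2 * ∑ i, (y i : ℚ) * e i := by
        simp only [Pi.smul_apply, Pi.sub_apply, smul_eq_mul, mul_sum, ← sum_sub_distrib]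
        exact sum_congr rfl fun i _ => by ring
      rw [h2, heS', mul_zero, sub_zero, abs_mul, abs_of_nonneg (by positivity : (0 : ℚ) ≤ 2 * z)]
        at h1
      rw [pow_succ]
      nlinarith [abs_nonneg (∑ i, (y i : ℚ) * w i)]
  have z1 : ∀ w ∈ W, (∀ i, |w i| ≤ 1) → ∑ i, (y i : ℚ) * w i = 0 := by
    intro w hwW hw
    by_contra hne
    have hp := abs_pos.mpr hne
    have hM : 0 ≤ ∑ i, |(y i : ℚ)| := sum_nonneg fun i _ => abs_nonneg _
    obtain ⟨n, hn⟩ := exists_pow_lt_of_lt_one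
      (div_pos hp (by positivity : 0 < ∑ i, |(y i : ℚ)| + 1)) (by norm_num : (1 / 2 : ℚ) < 1)
    have h1 := it n w hwW hw
    rw [lt_div_iff₀ (by positivity)] at hn
    nlinarith [(by positivity : (0 : ℚ) < (1 / 2) ^ n)]
  obtain ⟨i, hi⟩ := h y hy0 fun w hwW => by
    have hM : 0 < ∑ i, |w i| + 1 := by positivity
    have h1 := z1 ((∑ i, |w i| + 1)⁻¹ • w) (W.smul_mem _ hwW) fun i => by
      rw [Pi.smul_apply, smul_eq_mul, abs_mul, abs_of_pos (inv_pos.mpr hM), inv_mul_le_iff₀ hM]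
      have := single_le_sum (f := fun i => |w i|) (fun i _ => abs_nonneg _) (mem_univ i)
      linarith
    simp only [Pi.smul_apply, smul_eq_mul, mul_left_comm _ (∑ i, |w i| + 1)⁻¹, ← mul_sum] at h1
    exact (mul_eq_zero.mp h1).resolve_left (inv_pos.mpr hM).ne'
  have h1 := hy i
  push_cast at h1
  exact absurd h1 (not_le.mpr hi)

theorem rb_ind (T : Submodule ℚ (ι → ℚ)) {Q : ℕ} (hQ : 2 ≤ Q)
    (h : ∀ y : ι → ℤ, y ≠ 0 → (∀ w ∈ T, ∑ i, (y i : ℚ) * w i = 0) →
      ∃ i, ((Fintype.card ι * (Q ^ Fintype.card ι + 1)) ^ Fintype.card ι : ℤ) < |y i|) (n : ℕ) :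
    ∃ e : Fin n → ι → ℤ, (∀ l, ∃ τ ∈ T, ∀ i, |(e l i : ℚ) - τ i| ≤ ((n + 1).factorial : ℚ) / Q) ∧
      (T ⊔ Submodule.span ℚ (Set.range fun l i => (e l i : ℚ)) = ⊤ ∨
        n ≤ Module.finrank ℚ ↥(T ⊔ Submodule.span ℚ (Set.range fun l i => (e l i : ℚ)))) := by
  have hQ' : (0 : ℚ) < Q := by exact_mod_cast (by omega : 0 < Q)
  induction n with
  | zero => exact ⟨fun l => l.elim0, fun l => l.elim0, Or.inr (Nat.zero_le _)⟩
  | succ n ih =>
    obtain ⟨e, he, hr⟩ := ih
    set W := T ⊔ Submodule.span ℚ (Set.range fun l i => (e l i : ℚ)) with hW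
    have hmono : ((n + 1).factorial : ℚ) / Q ≤ ((n + 1 + 1).factorial : ℚ) / Q := by
      gcongr; omega
    have hle : ∀ e' : ι → ℤ, W ≤ T ⊔ Submodule.span ℚ
        (Set.range fun l i => ((Fin.cons e' e : Fin (n + 1) → ι → ℤ) l i : ℚ)) := fun e' =>
      sup_le_sup_left (Submodule.span_mono (by
        rintro _ ⟨l, rfl⟩
        exact ⟨l.succ, rfl⟩)) _
    by_cases ht : W = ⊤
    · refine ⟨Fin.cons 0 e, fun l => ?_, Or.inl (top_le_iff.mp (ht ▸ hle 0))⟩
      refine Fin.cases ⟨0, T.zero_mem, fun i => ?_⟩ (fun l => ?_) l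
      · simp only [Fin.cons_zero, Pi.zero_apply, Int.cast_zero, sub_self, abs_zero]
        positivity
      · obtain ⟨τ, hτ, h1⟩ := he l
        exact ⟨τ, hτ, fun i => (h1 i).trans hmono⟩
    · obtain ⟨e₁, he₁, w, hw, hew⟩ := rb_step W ht hQ fun y hy hy' =>
        h y hy fun w hw => hy' w (Submodule.mem_sup_left hw)
      obtain ⟨τ₀, hτ₀, u, hu, rfl⟩ := Submodule.mem_sup.mp hw
      obtain ⟨t, rfl⟩ := (Submodule.mem_span_range_iff_exists_fun ℚ).mp hu
      choose τ hτ hτe using he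
      have hcast : (fun i => ((e₁ - ∑ l, ⌊t l⌋ • e l) i : ℚ)) =
          (fun i => (e₁ i : ℚ)) - ∑ l, (⌊t l⌋ : ℚ) • fun i => (e l i : ℚ) := by
        funext i
        simp only [Pi.sub_apply, Finset.sum_apply, Pi.smul_apply, smul_eq_mul]
        push_cast
        rfl
      have hnot : (fun i => ((e₁ - ∑ l, ⌊t l⌋ • e l) i : ℚ)) ∉ W := by
        intro hin
        apply he₁
        have h1 : (∑ l, (⌊t l⌋ : ℚ) • fun i => (e l i : ℚ)) ∈ W :=
          Submodule.mem_sup_right (Submodule.sum_mem _ fun l _ =>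
            Submodule.smul_mem _ _ (Submodule.subset_span ⟨l, rfl⟩))
        have h2 := W.add_mem hin h1
        rwa [hcast, sub_add_cancel] at h2
      refine ⟨Fin.cons (e₁ - ∑ l, ⌊t l⌋ • e l) e, fun l => ?_, Or.inr ?_⟩
      · refine Fin.cases ⟨τ₀ + ∑ l, Int.fract (t l) • τ l,
          T.add_mem hτ₀ (T.sum_mem fun l _ => T.smul_mem _ (hτ l)), fun i => ?_⟩ (fun l => ?_) l
        · have h1 := hew i
          have h2 : (((Fin.cons (e₁ - ∑ l, ⌊t l⌋ • e l) e : Fin (n + 1) → ι → ℤ) 0 i : ℤ) : ℚ) -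
              (τ₀ + ∑ l, Int.fract (t l) • τ l) i =
              ((e₁ i : ℚ) - (τ₀ + ∑ l, t l • fun i => (e l i : ℚ)) i) +
                ∑ l, Int.fract (t l) * ((e l i : ℚ) - τ l i) := by
            rw [Fin.cons_zero, congrFun hcast i]
            simp only [Pi.sub_apply, Pi.add_apply, Finset.sum_apply, Pi.smul_apply, smul_eq_mul,
              Int.fract, mul_sub, sub_mul, sum_sub_distrib]
            ring
          rw [h2]
          have h3 : |∑ l, Int.fract (t l) * ((e l i : ℚ) - τ l i)| ≤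
              n * (((n + 1).factorial : ℚ) / Q) := by
            refine (abs_sum_le_sum_abs _ _).trans ?_
            refine (sum_le_card_nsmul _ _ (((n + 1).factorial : ℚ) / Q) fun l _ => ?_).trans ?_
            · rw [abs_mul, abs_of_nonneg (Int.fract_nonneg _)]
              exact (mul_le_of_le_one_left (abs_nonneg _) (Int.fract_lt_one _).le).trans (hτe l i)
            · simp
          have h4 : (1 : ℚ) / Q ≤ ((n + 1).factorial : ℚ) / Q := by
            gcongr
            exact_mod_cast Nat.factorial_pos _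
          refine (abs_add_le _ _).trans ?_
          rw [Nat.factorial_succ (n + 1), Nat.cast_mul, mul_div_assoc]
          push_cast
          nlinarith [(by positivity : (0 : ℚ) ≤ ((n + 1).factorial : ℚ) / Q)]
        · exact ⟨τ l, hτ l, fun i => (hτe l i).trans hmono⟩
      · have h1 := hr.resolve_left ht
        refine Nat.succ_le_of_lt (lt_of_le_of_lt h1 (Submodule.finrank_lt_finrank_of_lt
          (lt_of_le_of_ne (hle _) fun heq => hnot ?_)))
        rw [heq]
        exact Submodule.mem_sup_right (Submodule.subset_span ⟨0, rfl⟩)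

/-- Weak transference over the rationals. -/
theorem rb_rat (T : Submodule ℚ (ι → ℚ)) {X : ℝ} (hX : 0 < X)
    (h : ∀ y : ι → ℤ, y ≠ 0 → (∀ w ∈ T, ∑ i, (y i : ℚ) * w i = 0) →
      ∃ i, (2 * Fintype.card ι * X ^ Fintype.card ι) ^ Fintype.card ι < |(y i : ℝ)|) :
    ∃ (e : Fin (Fintype.card ι) → ι → ℤ) (τ : Fin (Fintype.card ι) → ι → ℚ), (∀ l, τ l ∈ T) ∧
      (∀ l i, ((|(e l i : ℚ) - τ l i| : ℚ) : ℝ) ≤ 2 * ((Fintype.card ι + 1).factorial : ℝ) / X) ∧
      ∀ x : ι → ℚ, ∃ s : Fin (Fintype.card ι) → ℚ, (x - ∑ l, s l • fun i => (e l i : ℚ)) ∈ T := by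
  classical
  have hf : (1 : ℝ) ≤ (Fintype.card ι + 1).factorial := by exact_mod_cast Nat.factorial_pos _
  rcases lt_or_ge X 2 with h2 | h2
  · let σ := Fintype.equivFin ι
    refine ⟨fun l => Pi.single (σ.symm l) 1, fun _ => 0, fun _ => T.zero_mem, fun l i => ?_,
      fun x => ⟨fun l => x (σ.symm l), ?_⟩⟩
    · have h1 : |(((Pi.single (σ.symm l) 1 : ι → ℤ) i : ℤ) : ℚ) - (0 : ι → ℚ) i| ≤ 1 := by
        rw [Pi.single_apply]
        split_ifs <;> simp
      have h3 : (1 : ℝ) ≤ 2 * ((Fintype.card ι + 1).factorial : ℝ) / X := by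
        rw [le_div_iff₀ hX]; linarith
      exact le_trans (by exact_mod_cast h1) h3
    · convert T.zero_mem
      funext i
      rw [Pi.sub_apply, Finset.sum_apply, Pi.zero_apply, sub_eq_zero, sum_eq_single (σ i)]
      · simp
      · intro l _ hl
        have : i ≠ σ.symm l := fun h => hl (by rw [h, Equiv.apply_symm_apply])
        simp [Pi.single_apply, this]
      · simp
  · have hQ : 2 ≤ ⌊X⌋₊ := Nat.le_floor (by exact_mod_cast h2)
    have hQX : (⌊X⌋₊ : ℝ) ≤ X := Nat.floor_le hX.le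
    have hXQ : X ≤ 2 * ⌊X⌋₊ := by
      have h1 := Nat.lt_floor_add_one X
      have h3 : (2 : ℝ) ≤ ⌊X⌋₊ := by exact_mod_cast hQ
      linarith
    obtain ⟨e, he, hr⟩ := rb_ind T hQ (fun y hy hy' => by
      obtain ⟨i, hi⟩ := h y hy hy'
      refine ⟨i, ?_⟩
      have h1 : (((Fintype.card ι * (⌊X⌋₊ ^ Fintype.card ι + 1)) ^ Fintype.card ι : ℤ) : ℝ) ≤
          (2 * Fintype.card ι * X ^ Fintype.card ι) ^ Fintype.card ι := by
        push_cast
        have h3 : (1 : ℝ) ≤ X ^ Fintype.card ι := one_le_pow₀ (by linarith)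
        have h4 : (⌊X⌋₊ : ℝ) ^ Fintype.card ι ≤ X ^ Fintype.card ι := by gcongr
        refine pow_le_pow_left₀ (by positivity) ?_ _
        nlinarith [(by positivity : (0 : ℝ) ≤ Fintype.card ι)]
      exact_mod_cast h1.trans_lt hi) (Fintype.card ι)
    choose τ hτ hτe using he
    refine ⟨e, τ, hτ, fun l i => ?_, fun x => ?_⟩
    · have h1 : ((|(e l i : ℚ) - τ l i| : ℚ) : ℝ) ≤
          (((Fintype.card ι + 1).factorial : ℚ) / (⌊X⌋₊ : ℕ) : ℚ) := by exact_mod_cast hτe l i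
      refine h1.trans ?_
      push_cast
      have h3 : (0 : ℝ) < ⌊X⌋₊ := by exact_mod_cast (by omega : 0 < ⌊X⌋₊)
      rw [div_le_div_iff₀ h3 hX]
      nlinarith
    · have ht : T ⊔ Submodule.span ℚ (Set.range fun l i => (e l i : ℚ)) = ⊤ := by
        refine hr.elim id fun h1 => Submodule.eq_top_of_finrank_eq (le_antisymm
          (Submodule.finrank_le _) ?_)
        rwa [Module.finrank_fintype_fun_eq_card]
      obtain ⟨τ₀, hτ₀, u, hu, rfl⟩ := Submodule.mem_sup.mp (ht ▸ Submodule.mem_top (x := x))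
      obtain ⟨t, rfl⟩ := (Submodule.mem_span_range_iff_exists_fun ℚ).mp hu
      exact ⟨t, by rwa [add_sub_cancel_right]⟩

end Pool.Agent.Lib.MP_651af7_nt.Av
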