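import Pool.Agent.Lib.MP_651af7_nt.Av.Los
import Pool.Agent.Lib.MP_651af7_nt.Av.Eng

/-! The contradiction along an ultrafilter on a fixed model. -/

namespace Pool.Agent.Lib.MP_651af7_nt.Av

open MvPolynomial Filter Height

variable {α : Type} {U : Ultrafilter α} {k ι : Type} [Field k] [NumberField k] [Fintype ι]

omit [NumberField k] [Fintype ι] in
theorem eval_mul_of_hom {P : MvPolynomial ι k} {d : ℕ} (hP : P.IsHomogeneous d) (c : k)
    (x : ι → k) : eval (fun a => c * x a) P = c ^ d * eval x P := by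
  simpa only [aeval_eq_eval] using aeval_mul_of_hom hP c x

omit [NumberField k] [Fintype ι] in
theorem iSup_mul_left (v : AbsoluteValue k ℝ) (c : k) (x : ι → k) :
    ⨆ a, v (c * x a) = v c * ⨆ a, v (x a) := by
  simp only [map_mul]
  exact (Real.mul_iSup_of_nonneg (v.nonneg c) _).symm

theorem logHeight_mul_left {σ : Type} [Finite σ] {c : k} (hc : c ≠ 0) (x : σ → k) :
    logHeight (fun a => c * x a) = logHeight x := logHeight_smul_eq_logHeight x hc

theorem Bad.smul {g : ℕ} {md : Option (AbsoluteValue k ℝ)} {e : ℕ} {η : ℝ}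
    {u : Fin (g + 1) → MvPolynomial ι k} (hu : ∀ i, (u i).IsHomogeneous e) {x : ι → k} {c : k}
    (hc : c ≠ 0) (h : Bad md e η u x) : Bad md e η u fun a => c * x a := by
  cases md with
  | none =>
    obtain ⟨h0, h1⟩ : BadY e η (u 0) (u 1) x := h
    have e1 : ![eval (fun a => c * x a) (u 0), eval (fun a => c * x a) (u 1)] =
        fun i => c ^ e * ![eval x (u 0), eval x (u 1)] i := by
      funext i
      fin_cases i <;> simp [eval_mul_of_hom (hu _)]
    change BadY e η (u 0) (u 1) _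
    rw [BadY, e1, logHeight_mul_left hc, logHeight_mul_left (pow_ne_zero e hc)]
    refine ⟨fun h => h0 (funext fun i => ?_), h1⟩
    exact (mul_eq_zero.1 (congrFun h i)).resolve_left (pow_ne_zero e hc)
  | some v =>
    have h1 : BadR v e η (u 0) x := h
    change BadR v e η (u 0) _
    rw [BadR, eval_mul_of_hom (hu _), iSup_mul_left, logHeight_mul_left hc, map_mul, map_pow,
      mul_pow, mul_assoc]
    exact mul_le_mul_of_nonneg_left h1 (pow_nonneg (v.nonneg c) e)

omit [NumberField k] [Fintype ι] in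
/-- A chain of widely separated members. -/
theorem exists_chain {H : α → ℝ} (hH : Tendsto H U atTop) {T : Set α} (hT : T ∈ U) {ζ : ℝ}
    (hζ : 0 < ζ) : ∃ f : ℕ → α, (∀ l, f l ∈ T) ∧
      ∀ l l', l < l' → H (f l) ≤ H (f l') ∧ H (f l) ≤ ζ * H (f l') := by
  have h1 : ∀ n : α, ∃ n' ∈ T, H n ≤ H n' ∧ H n ≤ ζ * H n' := fun n => by
    have h := (hH.eventually_ge_atTop (H n)).and ((hH.const_mul_atTop hζ).eventually_ge_atTop (H n))
    obtain ⟨n', h1, h2⟩ := (Filter.Eventually.and (show ∀ᶠ n in U, n ∈ T from hT) h).exists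
    exact ⟨n', h1, h2⟩
  choose s hs using h1
  obtain ⟨n₀, h₀⟩ := U.nonempty_of_mem hT
  refine ⟨fun l => s^[l] n₀, fun l => ?_, fun l l' h => ?_⟩
  · cases l with
    | zero => exact h₀
    | succ l => simp only [Function.iterate_succ_apply']; exact (hs _).1
  · induction l', h using Nat.le_induction with
    | base => simp only [Function.iterate_succ_apply']; exact (hs _).2
    | succ l' _ ih =>
      simp only [Function.iterate_succ_apply'] at ih ⊢
      exact ⟨ih.1.trans (hs _).2.1, ih.1.trans (hs _).2.2⟩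

namespace AV

omit [NumberField k] [Fintype ι] in
theorem aeval_germ_co {A : AV k ι} {x : α → A.Pt k} {X : A.Pt (Up U k)} (hX : IsGerm U X x)
    {f : MvPolynomial ι k} {n : ℕ} (hf : f.IsHomogeneous n) :
    aeval X.co f = 0 ↔ ∀ᶠ l in U, eval (x l).co f = 0 := by
  obtain ⟨c, hc⟩ := (rep_co X).exists_smul hX
  have h1 : aeval (fun a => germ U fun l => (x l).co a) f = (c : Up U k) ^ n * aeval X.co f := by
    rw [← aeval_mul_of_hom hf]
    exact congrArg (fun z => aeval z f) (funext hc)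
  rw [aeval_germ] at h1
  have h2 : (∀ᶠ l in U, eval (x l).co f = 0) ↔ (germ U fun l => eval (x l).co f) = 0 := by
    rw [← map_zero (germ U), germ_eq]
    rfl
  rw [h2, h1, mul_eq_zero, or_iff_right (pow_ne_zero n c.ne_zero)]

theorem seq_core (B : AV k ι) (y : α → B.Pt k) (hH : Tendsto (fun n => ht (y n)) U atTop)
    {Y : B.Pt (Up U k)} (hY : IsGerm U Y y) (hg : B.Gens (Sm k hH) Y) {e ρ : ℕ} (he : 1 ≤ e)
    {u : Fin (B.dim + 1) → MvPolynomial ι (Sm k hH)}
    {c : ι → Fin ρ → MvPolynomial (Fin (B.dim + 1)) (Sm k hH)} (hnn : NN (B.IK (Sm k hH)) e ρ u c)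
    {un : α → Fin (B.dim + 1) → MvPolynomial ι k}
    (hu : ∀ i, Repr U (MvPolynomial.map (algebraMap _ (Up U k)) (u i)) fun n => un n i)
    {md : Option (AbsoluteValue k ℝ)} (hmd : Mode B.dim md) {η : ℝ} (hη : 0 < η)
    (hbad : ∀ᶠ n in U, Bad md e η (un n) (y n).co) : False := by
  have hd : B.Dense := B.dense_of_gens hg fun f n hf h =>
    (aeval_germ_co hY hf).2 (.of_forall fun l => h _)
  obtain ⟨ϱ, hϱ⟩ := B.exists_par hd
  obtain ⟨r, B₀, δ, b, hδ, hb, hgood, hex⟩ := B.exists_blk hϱ.basis y hH hY hg hnn hu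
  obtain ⟨m, B', θ, ζ, ε₀, hθ, hζ, hε₀, heng⟩ := B.engine hϱ r ρ B₀ he hδ hη hmd
  obtain ⟨δ', hδ', hex'⟩ := hex B'
  have hε : 0 < min ε₀ (δ' / (B' + 1)) := lt_min hε₀ (by positivity)
  obtain ⟨W, hW⟩ := heng _ hε (min_le_left _ _)
  obtain ⟨T, hT, hcone⟩ := B.cone U y hH hθ
  have hall := ((hgood _ hε).and hex').and (hbad.and ((hH.eventually_ge_atTop W).and
    (show ∀ᶠ n in U, n ∈ T from hT)))
  obtain ⟨f, hf, hsep⟩ := exists_chain hH hall hζ
  let ix : Option (Fin m) → ℕ := fun o => o.elim 0 fun i => i + 1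
  have hix : Function.Injective ix := by
    rintro (_ | i) (_ | i') h
    · rfl
    · simp [ix] at h
    · simp [ix] at h
    · simp only [ix, Option.elim_some, add_left_inj] at h
      rw [Fin.ext h]
  choose j hj using fun i : Fin m => hcone (f 0) (hf 0).2.2.2 (f (i + 1)) (hf (i + 1)).2.2.2
    (hsep 0 (i + 1) (Nat.succ_pos _)).1
  obtain ⟨o, q, h0, h1, h2, h3, h4⟩ := hW (fun o => b (f (ix o))) j (fun o => (hf _).1.1)
    (fun o => by rw [(hb _).1]; exact (hf _).2.2.1)
    (fun o o' h => by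
      simp only [(hb _).1]
      rcases lt_or_gt_of_ne (hix.ne h) with h | h
      · exact Or.inl (hsep _ _ h).2
      · exact Or.inr (hsep _ _ h).2)
    (fun i => by rw [(hb _).1, (hb _).1]; exact hj i)
    (fun i => by
      have hG := (hf (ix (some i))).1.1
      obtain ⟨s, hs⟩ := hG.rep
      rw [funext hs, (hb _).1]
      refine Bad.smul hG.nn.hu s.ne_zero ?_
      rw [(hb _).2]
      exact (hf _).2.1)
  refine (hf (ix o)).1.2 ⟨q, h0, h1, h2, h3.trans (Real.exp_le_exp.2 ?_), h4⟩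
  rw [(hb _).1]
  refine mul_le_mul_of_nonneg_right ?_ (ht_nonneg _)
  calc (B' : ℝ) * min ε₀ (δ' / (B' + 1)) ≤ (B' + 1) * (δ' / (B' + 1)) := by
        gcongr
        · linarith
        · exact min_le_right _ _
    _ = δ' := by field_simp

end AV

end Pool.Agent.Lib.MP_651af7_nt.Av
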