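import Pool.Agent.Lib.MP_651af7_nt.Av.Seq
import Pool.Agent.Lib.MP_651af7_nt.Av.GeoA

/-! The reduction to the subgroup generated by the locus over the small field. -/

namespace Pool.Agent.Lib.MP_651af7_nt.Av

open MvPolynomial Filter Height

variable {α : Type} {U : Ultrafilter α} {k ι : Type} [Field k] [NumberField k] [Fintype ι]

theorem Lo.of_le {H H' f : α → ℝ} (hf : Lo U H f) (h : ∀ᶠ n in U, H n ≤ 2 * H' n) : Lo U H' f :=
  fun ε hε => by
    filter_upwards [hf (ε / 2) (half_pos hε), h] with n h1 h2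
    calc f n ≤ ε / 2 * H n := h1
      _ ≤ ε / 2 * (2 * H' n) := by gcongr
      _ = ε * H' n := by ring

theorem sm_congr {H H' : α → ℝ} (hH : Tendsto H U atTop) (hH' : Tendsto H' U atTop)
    (h : ∀ᶠ n in U, H n ≤ 2 * H' n) (h' : ∀ᶠ n in U, H' n ≤ 2 * H n) : Sm k hH = Sm k hH' :=
  IntermediateField.ext fun _ => ⟨fun ⟨f, h1, h2⟩ => ⟨f, h1, h2.of_le h⟩,
    fun ⟨f, h1, h2⟩ => ⟨f, h1, h2.of_le h'⟩⟩

namespace AV

theorem ht_inc {A B : AV k ι} (h : Sub A B) (y : B.Pt k) : ht (h.inc k y) = ht y :=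
  ht_eq (h.rep_inc (rep_co y))

/-- A germ of points of unbounded height does not lie on a variety of dimension zero. -/
theorem one_le_dim (B : AV k ι) {y : α → B.Pt k} (hH : Tendsto (fun n => ht (y n)) U atTop)
    {Y : B.Pt (Up U k)} (hY : IsGerm U Y y) : 1 ≤ B.dim := by
  by_contra h0
  have h1 : td (Sm k hH) (rat Y.co) ≤ 0 := by
    simpa [show B.dim = 0 by omega] using B.td_le_dim (K := Sm k hH) (rep_co Y).zero
  obtain ⟨b, hb⟩ := (rep_co Y).unit
  have h2 : ∀ a, ∃ c : Sm k hH, algebraMap _ (Up U k) c = (Y.co b)⁻¹ * Y.co a := fun a => by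
    refine (relCl_sm hH).2 _ (not_not.1 fun ht => ?_)
    have h3 := (card_le_td (σ := Unit) (y := fun _ => (Y.co b)⁻¹ * Y.co a) (S := rat Y.co)
      (algebraicIndependent_unique_type_iff.2 ht)
      fun _ => ⟨(a, b), by simp [div_eq_inv_mul]⟩).trans h1
    simp at h3
  choose c hc using h2
  have h3 : IsUnit (c b) := IsUnit.mk0 _ fun h => by
    have := hc b
    rw [h, map_zero, inv_mul_cancel₀ hb.ne_zero] at this
    exact zero_ne_one this
  obtain ⟨s, -, hs⟩ := exists_map_eq (A := B) (f := IsScalarTower.toAlgHom k (Sm k hH) (Up U k))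
    (algebraMap (Sm k hH) (Up U k)).injective (q := Y) ⟨b, h3⟩ (by
      simp only [IsScalarTower.coe_toAlgHom', hc]
      exact (rep_co Y).smul hb.inv)
  obtain ⟨n, h4, h5⟩ := (((small_pt_iff hH hY).1 ⟨s, hs⟩ (1 / 2) one_half_pos).and
    (hH.eventually_ge_atTop 1)).exists
  linarith

/-- `x = y + a` with `a` small and `y` generating `B` over the small field; `a'` are small
coordinates of `a`. -/
structure Coset {A B : AV k ι} (h : Sub A B) (x : α → A.Pt k) (y : α → B.Pt k) (a : α → A.Pt k)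
    (hH : Tendsto (fun n => ht (y n)) U atTop) (X : A.Pt (Up U k)) (Y : B.Pt (Up U k))
    (aK : A.Pt (Sm k hH)) (a' : α → ι → k) : Prop where
  gX : IsGerm U X x
  gY : IsGerm U Y y
  gens : B.Gens (Sm k hH) Y
  dim : 1 ≤ B.dim
  add : ∀ n, x n = h.inc k (y n) + a n
  sub : h.inc (Up U k) Y = X - A.map (IsScalarTower.toAlgHom k (Sm k hH) (Up U k)) aK
  co : ∀ c, algebraMap (Sm k hH) (Up U k) (aK.co c) = germ U fun n => a' n c
  rep : ∀ᶠ n in U, Rep (a n) (a' n)
  small : ∀ c, Lo U (fun n => ht (y n)) fun n => logHeight₁ (a' n c)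
  lo : Lo U (fun n => ht (y n)) fun n => ht (a n)
  le : ∀ᶠ n in U, ht (y n) ≤ 2 * ht (x n)

theorem exists_coset (A : AV k ι) (x : α → A.Pt k) (hx : Tendsto (fun n => ht (x n)) U atTop) :
    ∃ (B : AV k ι) (h : Sub A B) (y : α → B.Pt k) (a : α → A.Pt k)
      (hH : Tendsto (fun n => ht (y n)) U atTop) (X : A.Pt (Up U k)) (Y : B.Pt (Up U k))
      (aK : A.Pt (Sm k hH)) (a' : α → ι → k), Coset h x y a hH X Y aK a' := by
  obtain ⟨γ, hγ, gγ, zγ⟩ := A.exists_germ U
  obtain ⟨B, h, D, s, hD, ⟨Z, hZ⟩, hgens⟩ :=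
    A.exists_sub (relCl_sm hx).1 (relCl_sm hx).2 (γ x)
  obtain ⟨β, hβ, gβ, -⟩ := B.exists_germ U
  have hinc : ∀ z, h.inc _ (β z) = γ fun n => h.inc k (z n) := fun z =>
    (h.rep_inc (gβ z)).inj ((gγ _).rep (.of_forall fun n => h.rep_inc (rep_co _)))
  obtain ⟨s', hs'⟩ := hγ (A.map (IsScalarTower.toAlgHom k (Sm k hx) (Up U k)) s)
  have hls := (small_pt_iff hx (gγ s')).1 ⟨s, hs'.symm⟩
  obtain ⟨z, rfl⟩ := hβ Z
  have hz : ∀ᶠ n in U, h.inc k (z n) = D • x n - s' n := by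
    rw [hinc, ← hs', ← map_nsmul, ← map_sub, ← sub_eq_zero, ← map_sub, zγ] at hZ
    exact hZ.mono fun n hn => sub_eq_zero.1 hn
  have := B.fg
  have := AddSubgroup.finiteIndex_range_nsmulAddMonoidHom_of_fg (B.Pt k) hD.ne'
  obtain ⟨q, hq⟩ := Ultrafilter.eventually_exists_iff.1 (Eventually.of_forall (f := U) fun n =>
    (⟨_, rfl⟩ : ∃ q : B.Pt k ⧸ (nsmulAddMonoidHom (α := B.Pt k) D).range, q = z n))
  obtain ⟨p, rfl⟩ := QuotientAddGroup.mk_surjective q
  have hy : ∀ n, ∃ y : B.Pt k, ((p : B.Pt k ⧸ (nsmulAddMonoidHom (α := B.Pt k) D).range) = z n →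
      D • y = -p + z n) := fun n => by
    by_cases hn : (p : B.Pt k ⧸ (nsmulAddMonoidHom (α := B.Pt k) D).range) = z n
    · obtain ⟨y, hy⟩ := QuotientAddGroup.eq.1 hn
      exact ⟨y, fun _ => hy⟩
    · exact ⟨0, fun h => (hn h).elim⟩
  choose y hy using hy
  set a : α → A.Pt k := fun n => x n - h.inc k (y n) with ha
  obtain ⟨C, hC, hadd⟩ := A.ht_add_le one_half_pos
  obtain ⟨C', hC'⟩ := A.ht_le_smul hD
  have hla : Lo U (fun n => ht (x n)) fun n => ht (a n) := by
    refine ((hls.const_mul (c := 1 + 1 / 2) (by norm_num)).add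
      (Lo.const hx (C * (ht (h.inc k p) + 1) + C'))).mono ?_
    filter_upwards [hz, hq] with n h1 h2
    have h3 : D • a n = s' n + h.inc k p := by
      simp only [ha, smul_sub, ← map_nsmul, hy n h2, map_add, map_neg, h1]
      abel
    have h4 := hC' (a n)
    have h5 := (hadd (s' n) (h.inc k p)).1
    rw [h3] at h4
    linarith
  have herr : ∀ᶠ n in U, C * (ht (a n) + 1) ≤ 1 / 4 * ht (x n) :=
    ((hla.add (Lo.const hx 1)).const_mul (c := C + 1) (by linarith) (1 / 4) (by norm_num)).mono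
      fun n hn => le_trans (by have := ht_nonneg (a n); nlinarith) hn
  have h1 : ∀ᶠ n in U, ht (y n) ≤ 2 * ht (x n) := by
    filter_upwards [herr] with n hn
    have h3 := (hadd (x n) (a n)).2
    rw [ha, sub_sub_cancel, ht_inc] at h3
    have := ht_nonneg (x n)
    simp only [ha] at hn
    linarith
  have h2 : ∀ᶠ n in U, ht (x n) ≤ 2 * ht (y n) := by
    filter_upwards [herr] with n hn
    have h3 := (hadd (h.inc k (y n)) (a n)).1
    rw [ha, add_sub_cancel, ht_inc] at h3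
    simp only [ha] at hn
    linarith
  have hH : Tendsto (fun n => ht (y n)) U atTop :=
    tendsto_atTop_mono' _ (h2.mono fun n hn => by
      change 1 / 2 * ht (x n) ≤ ht (y n)
      linarith) (hx.const_mul_atTop one_half_pos)
  have hY : h.inc _ (β y) = γ x - γ a := by
    rw [hinc, ← map_sub]
    exact congrArg γ (funext fun n => (sub_sub_cancel _ _).symm)
  have key : ∃ aK : A.Pt (Sm k hH), B.Gens (Sm k hH) (β y) ∧
      A.map (IsScalarTower.toAlgHom k (Sm k hH) (Up U k)) aK = γ a := by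
    rw [← sm_congr hx hH h2 h1]
    obtain ⟨aK, haK⟩ := (small_pt_iff hx (gγ a)).2 hla
    exact ⟨aK, hgens aK _ (haK ▸ hY), haK⟩
  obtain ⟨aK, hg, haK⟩ := key
  choose f hf hf' using fun c => (aK.co c).2
  refine ⟨B, h, y, a, hH, γ x, β y, aK, fun n c => f c n, gγ x, gβ y, hg, B.one_le_dim hH (gβ y),
    fun n => (add_sub_cancel _ _).symm, haK ▸ hY, fun c => (hf c).symm, ?_, hf', hla.of_le h2, h1⟩
  refine (gγ a).of_rep ?_
  have h3 := (rep_co aK).map (IsScalarTower.toAlgHom k (Sm k hH) (Up U k))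
  rw [haK] at h3
  convert h3 using 2 with c
  exact hf c

end AV

end Pool.Agent.Lib.MP_651af7_nt.Av
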