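import Pool.Agent.Lib.MP_651af7_nt.Av.SeqB

/-! INTERFACE: no generic family has large common divisors. -/

namespace Pool.Agent.Lib.MP_651af7_nt.Av.AV

open MvPolynomial Filter Height

variable {α : Type} {U : Ultrafilter α} {k ι : Type} [Field k] [NumberField k] [Fintype ι]

section aux

omit [NumberField k] [Fintype ι]

theorem seqC_bih {K : Type} [Field K] [Algebra k K] {P : MvPolynomial (ι ⊕ ι) k} {d e : ℕ}
    (hP : P.IsWeightedHomogeneous (bw ι ι) (d, e)) (a : ι → K) :
    (aeval (Sum.elim (X : ι → MvPolynomial ι K) fun c => C (a c)) P).IsHomogeneous d := by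
  rw [aeval_def, eval₂_eq]
  refine IsHomogeneous.sum _ _ _ fun m hm => ?_
  have h := congrArg Prod.fst (hP (mem_support_iff.mp hm))
  rw [Finsupp.weight_apply, Finsupp.sum, Prod.fst_sum] at h
  have h1 := IsHomogeneous.prod m.support
    (fun i => Sum.elim (X : ι → MvPolynomial ι K) (fun c => C (a c)) i ^ m i)
    (fun i => (m i • bw ι ι i).1) (by
      rintro (i | i) -
      · simpa [bw] using isHomogeneous_X_pow (R := K) i (m (Sum.inl i))
      · simpa [bw] using (isHomogeneous_C ι (a i)).pow (m (Sum.inr i)))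
  rw [h] at h1
  rw [IsScalarTower.algebraMap_apply k K (MvPolynomial ι K)]
  exact h1.C_mul _

theorem seqC_hom (A : AV k ι) {K : Type} [Field K] [Algebra k K] (a : ι → K)
    {G : MvPolynomial ι k} {d : ℕ} (hG : G.IsHomogeneous d) (b : ι) :
    (A.shift a G b).IsHomogeneous (2 * d) :=
  hG.aeval _ fun c => seqC_bih (A.bih c b) a

theorem seqC_aeval (A : AV k ι) {K F : Type} [Field K] [Algebra k K] [CommRing F] [Algebra k F]
    [Algebra K F] [IsScalarTower k K F] (a : ι → K) (G : MvPolynomial ι k) (b : ι) (w : ι → F) :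
    aeval w (A.shift a G b) =
      aeval (fun c => A.ph c b w fun c => algebraMap K F (a c)) G := by
  have h := aeval_hom ((aeval w : MvPolynomial ι K →ₐ[K] F).restrictScalars k)
    (fun c => A.ph c b (X : ι → MvPolynomial ι K) fun c => C (a c)) G
  simp only [map_ph, AlgHom.restrictScalars_apply, aeval_X, aeval_C] at h
  exact h.symm

theorem seqC_germ (A : AV k ι) (c b : ι) (v w : α → ι → k) :
    A.ph c b (fun a => germ U fun n => v n a) (fun a => germ U fun n => w n a) =
      germ U fun n => A.ph c b (v n) (w n) := by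
  have h := aeval_germ (U := U) (A.Φ c b) fun n => Sum.elim (v n) (w n)
  have e : (fun a => germ U fun n => Sum.elim (v n) (w n) a) =
      Sum.elim (fun a => germ U fun n => v n a) fun a => germ U fun n => w n a := by
    funext a
    rcases a with a | a <;> rfl
  rw [e] at h
  exact h

theorem seqC_comb {K T : Type} [Field K] [Fintype T] (F : T → MvPolynomial ι K)
    (γ : MvPolynomial ι K → K) (s : Finset (MvPolynomial ι K)) (W : Subfield K)
    (hγ : ∀ f, γ f ∈ W) (hs : ∀ f ∈ s, f ∈ Set.range F) :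
    ∃ M : T → K, (∀ t, M t ∈ W) ∧ ∑ f ∈ s, C (γ f) * f = ∑ t, C (M t) * F t := by
  classical
  induction s using Finset.induction_on with
  | empty => exact ⟨0, fun _ => zero_mem W, by simp⟩
  | insert f s hf ih =>
    obtain ⟨M, hM, e⟩ := ih fun g hg => hs g (Finset.mem_insert_of_mem hg)
    obtain ⟨t₀, rfl⟩ := hs f (Finset.mem_insert_self f s)
    refine ⟨fun t => (if t = t₀ then γ (F t₀) else 0) + M t, fun t => add_mem ?_ (hM t), ?_⟩
    · split_ifs
      exacts [hγ _, zero_mem W]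
    · rw [Finset.sum_insert hf, e]
      simp only [map_add, add_mul, Finset.sum_add_distrib, apply_ite C, map_zero, ite_mul, zero_mul,
        Finset.sum_ite_eq', Finset.mem_univ, if_true]

end aux

/-- The height inequality at one member of the family. -/
theorem seqC_ht (A : AV k ι) {J : Type} [Fintype J] {G : J → MvPolynomial ι k} {d : ℕ}
    (hG : ∀ j, (G j).IsHomogeneous d) (M : Fin 2 × (J × ι) → k) : ∃ C : ℝ, ∀ (P Q : A.Pt k)
      (v w : ι → k), Rep P v → Rep Q w → (fun j => eval (P + Q).co (G j)) ≠ 0 →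
      logHeight (fun i => ∑ t, M (i, t) * eval (fun c => A.ph c t.2 v w) (G t.1)) ≤
        C + d * (2 * (ht P + ht Q) - ht (P + Q)) + logHeight fun j => eval (P + Q).co (G j) := by
  obtain ⟨C, hC⟩ := A.ht_par
  refine ⟨totalWeight k * Real.log (Nat.card (J × ι)) + logHeight M + d * C,
    fun P Q v w hv hw h0 => ?_⟩
  obtain ⟨c, hc⟩ := law hv hw (rep_co (P + Q)) (rep_co (P - Q))
  have e : (fun t : J × ι => eval (fun a => A.ph a t.2 v w) (G t.1)) =
      fun t => (c : k) ^ d * (eval (P + Q).co (G t.1) * ((P - Q).co ^ d) t.2) := by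
    funext t
    have e1 : (fun a => A.ph a t.2 v w) = fun a => (c * (P - Q).co t.2) * (P + Q).co a :=
      funext fun a => by rw [hc]; ring
    rw [e1, eval_mul_of_hom (hG _), Pi.pow_apply]
    ring
  have h1 := logHeight_linearMap_apply_le M fun t : J × ι => eval (fun a => A.ph a t.2 v w) (G t.1)
  have h2 : (P - Q).co ^ d ≠ 0 := by
    obtain ⟨a, ha⟩ := (rep_co (P - Q)).unit
    exact fun h => pow_ne_zero d ha.ne_zero (congrFun h a)
  refine h1.trans ?_
  rw [e, logHeight_mul_left (pow_ne_zero d c.ne_zero), logHeight_fun_mul_eq h0 h2, logHeight_pow]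
  have h3 := mul_le_mul_of_nonneg_left (abs_le.1 (hC P Q)).2 (Nat.cast_nonneg (α := ℝ) d)
  have h4 : logHeight (P - Q).co = ht (P - Q) := rfl
  rw [h4]
  linarith

theorem seq_gcd (A : AV k ι) {J : Type} [Fintype J] (G : J → MvPolynomial ι k) {d : ℕ}
    (hG : ∀ j, (G j).IsHomogeneous d)
    (hc : 2 ≤ ((Ideal.span (Set.range G)).map (Ideal.Quotient.mk A.I)).height)
    (x : α → A.Pt k) (hx : Tendsto (fun n => ht (x n)) U atTop)
    (hgen : ∀ (f : MvPolynomial ι k) (n : ℕ), f.IsHomogeneous n →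
      (∀ᶠ l in U, eval (x l).co f = 0) → f ∈ A.I) {η : ℝ} (hη : 0 < η)
    (hbad : ∀ᶠ n in U,
      η * ht (x n) ≤ d * ht (x n) - logHeight fun j => eval (x n).co (G j)) : False := by
  classical
  obtain ⟨B, h, y, a, hH, X, Y, aK, a', hC⟩ := A.exists_coset x hx
  have hd : 1 ≤ d := by
    rcases Nat.eq_zero_or_pos d with rfl | hd
    · obtain ⟨n, h1, h2⟩ := (hbad.and (hx.eventually_gt_atTop 0)).exists
      have h3 := logHeight_nonneg fun j => eval (x n).co (G j)
      have h4 := mul_pos hη h2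
      rw [Nat.cast_zero, zero_mul] at h1
      linarith
    · exact hd
  have hX : Gen A.I X.co := fun f n hf h0 => hgen f n hf ((aeval_germ_co hC.gX hf).1 h0)
  obtain ⟨j₀, hj₀⟩ : ∃ j, G j ∉ A.I := by
    by_contra h0
    push Not at h0
    have h1 : (Ideal.span (Set.range G)).map (Ideal.Quotient.mk A.I) = ⊥ := by
      rw [Ideal.map_eq_bot_iff_le_ker, Ideal.mk_ker, Ideal.span_le]
      rintro _ ⟨j, rfl⟩
      exact h0 j
    have := A.tr_prime
    rw [h1, Ideal.height_bot] at hc
    exact absurd hc (by decide)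
  have hG0 : ∀ᶠ n in U, eval (x n).co (G j₀) ≠ 0 :=
    Ultrafilter.eventually_not.2 fun h0 => hj₀ (hgen _ d (hG j₀) h0)
  let F : J × ι → MvPolynomial ι (Sm k hH) := fun t => A.shift aK.co (G t.1) t.2
  let z : α → J × ι → k := fun n t => eval (fun c => A.ph c t.2 (y n).co (a' n)) (G t.1)
  have hF : ∀ t, aeval (fun c => germ U fun n => (y n).co c) (F t) = germ U fun n => z n t := by
    intro t
    rw [seqC_aeval]
    simp only [hC.co, seqC_germ]
    exact aeval_germ _ _
  obtain ⟨b₀, hb₀⟩ : ∃ b, ∀ᶠ n in U, z n (j₀, b) ≠ 0 := by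
    refine Ultrafilter.eventually_exists_iff.1 ((hG0.and hC.rep).mono fun n hn => ?_)
    have hs : Rep (h.inc k (y n) + a n) (x n).co := by
      rw [← hC.add n]
      exact rep_co _
    obtain ⟨c, hc⟩ := law (h.rep_inc (rep_co (y n))) hn.2 hs (rep_co (h.inc k (y n) - a n))
    obtain ⟨b, hb⟩ := (rep_co (h.inc k (y n) - a n)).unit
    refine ⟨b, ?_⟩
    have e1 : (fun c => A.ph c b (y n).co (a' n)) =
        fun l => (c * (h.inc k (y n) - a n).co b) * (x n).co l :=
      funext fun l => by rw [hc]; ring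
    change eval (fun c => A.ph c b (y n).co (a' n)) (G j₀) ≠ 0
    rw [e1, eval_mul_of_hom (hG _)]
    exact mul_ne_zero (pow_ne_zero _ (mul_ne_zero c.ne_zero hb.ne_zero)) hn.1
  have hz0 : (germ U fun n => z n (j₀, b₀)) ≠ 0 := by
    intro h0
    rw [← map_zero (germ U), germ_eq] at h0
    obtain ⟨n, h1, h2⟩ := (h0.and hb₀).exists
    exact h2 h1
  have hf0 : F (j₀, b₀) ∉ B.IK (Sm k hH) := fun h0 =>
    hz0 ((hF _).symm.trans (B.tr_zero_IK (Rep.zero hC.gY) _ h0))
  have hFh : ∀ t, (F t).IsHomogeneous (2 * d) := fun t => A.seqC_hom _ (hG _) _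
  let 𝒢 : Fin (B.dim + 1) → Finset (MvPolynomial ι (Sm k hH)) := fun i =>
    if (i : ℕ) = 0 then {F (j₀, b₀)} else if (i : ℕ) = 1 then Finset.univ.image F
      else Finset.univ.image fun c => MvPolynomial.X c ^ (2 * d)
  have hv1 : ((1 : Fin (B.dim + 1)) : ℕ) = 1 := by
    rw [Fin.val_one', Nat.mod_eq_of_lt (Nat.succ_lt_succ hC.dim)]
  have h𝒢0 : 𝒢 0 = {F (j₀, b₀)} := if_pos rfl
  have h𝒢1 : 𝒢 1 = Finset.univ.image F := (if_neg (by omega)).trans (if_pos hv1)
  obtain ⟨γ, ρ, c, hnn, hu0⟩ := B.exists_nn (Sm k hH) (e := 2 * d) (by omega) 𝒢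
    (fun i f hf => by
      dsimp only [𝒢] at hf
      split_ifs at hf
      · rw [Finset.mem_singleton.1 hf]
        exact hFh _
      · obtain ⟨t, -, rfl⟩ := Finset.mem_image.1 hf
        exact hFh t
      · obtain ⟨t, -, rfl⟩ := Finset.mem_image.1 hf
        exact isHomogeneous_X_pow t _)
    (fun i E _ _ _ _ w h0 hw hf => by
      dsimp only [𝒢] at hf
      split_ifs at hf with h1 h2
      · have h3 := B.td_le_dim (K := Sm k hH) hw
        have h4 : td (Sm k hH) (rat w) ≠ B.dim := fun e =>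
          hf0 ((B.gen_iff h0 hw).2 e _ _ (hFh _) (hf _ (Finset.mem_singleton_self _)))
        rw [h1, zero_add, Nat.cast_one]
        exact Order.add_one_le_of_lt (lt_of_le_of_ne h3 h4)
      · rw [h2]
        refine codim h (relCl_sm hH).2 hX ⟨Y, hC.sub⟩ G hG hc E w h0 hw fun j b => ?_
        exact hf (F (j, b)) (Finset.mem_image_of_mem F (Finset.mem_univ (j, b)))
      · refine absurd (funext fun l => ?_) h0
        have h3 := hf _ (Finset.mem_image_of_mem _ (Finset.mem_univ l))
        rw [map_pow, aeval_X] at h3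
        exact pow_eq_zero_iff (by omega) |>.1 h3)
  choose un hun using fun i => exists_repr (U := U) (MvPolynomial.map (algebraMap _ (Up U k))
    (∑ f ∈ 𝒢 i, C ((γ i f : ℚ) : Sm k hH) * f))
  have hev : ∀ i, aeval (fun c => germ U fun n => (y n).co c)
      (∑ f ∈ 𝒢 i, C ((γ i f : ℚ) : Sm k hH) * f) = germ U fun n => eval (y n).co (un i n) := by
    intro i
    rw [← (hun i).aeval fun n => (y n).co, aeval_map_algebraMap]
  have hM : ∀ i : Fin (B.dim + 1), (∀ f ∈ 𝒢 i, f ∈ Set.range F) →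
      ∃ M : J × ι → k, ∀ᶠ n in U, eval (y n).co (un i n) = ∑ t, M t * z n t := by
    intro i hi
    obtain ⟨M, hM, e⟩ := seqC_comb F (fun f => ((γ i f : ℚ) : Sm k hH)) (𝒢 i)
      (algebraMap k (Sm k hH)).fieldRange (fun f => ⟨(γ i f : k), map_ratCast _ _⟩) hi
    choose M' hM' using hM
    refine ⟨M', (germ_eq U).1 ?_⟩
    rw [← hev, e, map_sum]
    have e1 : (fun n => ∑ t, M' t * z n t) = ∑ t, (fun _ => M' t) * fun n => z n t := by
      funext n
      rw [Finset.sum_apply]
      rfl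
    rw [e1, map_sum]
    refine Finset.sum_congr rfl fun t _ => ?_
    rw [map_mul, map_mul, hF, aeval_C, ← hM' t, ← IsScalarTower.algebraMap_apply, algebraMap_up]
  obtain ⟨M₀, hM₀⟩ := hM 0 fun f hf => by
    rw [h𝒢0] at hf
    exact ⟨_, (Finset.mem_singleton.1 hf).symm⟩
  obtain ⟨M₁, hM₁⟩ := hM 1 fun f hf => by
    rw [h𝒢1] at hf
    obtain ⟨t, -, rfl⟩ := Finset.mem_image.1 hf
    exact ⟨t, rfl⟩
  have hne : ∀ᶠ n in U, eval (y n).co (un 0 n) ≠ 0 := by
    refine Ultrafilter.eventually_not.2 fun h0 => ?_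
    have h1 : (germ U fun n => eval (y n).co (un 0 n)) = 0 := by
      rw [← map_zero (germ U), germ_eq]
      exact h0
    rw [← hev, h𝒢0, Finset.sum_singleton, map_mul, hF, aeval_C] at h1
    rw [h𝒢0, Finset.sum_singleton] at hu0
    refine hu0 ?_
    rw [(map_eq_zero _).1 ((mul_eq_zero.1 h1).resolve_right hz0), map_zero, zero_mul]
    exact zero_mem _
  obtain ⟨C₀, hC₀⟩ := A.seqC_ht hG fun s => ![M₀, M₁] s.1 s.2
  have hd0 : (0 : ℝ) < d := by exact_mod_cast hd
  refine B.seq_core y hH hC.gY hC.gens (by omega) hnn (un := fun n i => un i n) hun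
    (md := none) ⟨hC.dim, nofun⟩ (η := η / 4) (by positivity) ?_
  filter_upwards [hbad, hG0, hC.rep, hM₀, hM₁, hne, hC.le, hC.lo (η / (16 * d)) (by positivity),
    Lo.const hH C₀ (η / 8) (by positivity)] with n h1 h2 h3 h4 h5 h6 h7 h8 h9
  refine ⟨fun h0 => h6 (congrFun h0 0), ?_⟩
  have h10 := hC₀ _ _ _ _ (h.rep_inc (rep_co (y n))) h3
    (by rw [← hC.add n]; exact fun h0 => h2 (congrFun h0 j₀))
  have e : (fun i => ∑ t, ![M₀, M₁] i t * eval (fun c => A.ph c t.2 (y n).co (a' n)) (G t.1)) =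
      ![eval (y n).co (un 0 n), eval (y n).co (un 1 n)] := by
    funext i
    fin_cases i
    · exact h4.symm
    · exact h5.symm
  rw [← hC.add n, ht_eq (h.rep_inc (rep_co (y n)))] at h10
  dsimp only at h10
  rw [e] at h10
  have h11 : logHeight (y n).co = ht (y n) := rfl
  have h12 := mul_le_mul_of_nonneg_left h8 hd0.le
  have e2 : d * (η / (16 * d) * ht (y n)) = η / 16 * ht (y n) := by field_simp
  have h13 := mul_le_mul_of_nonneg_left h7 hη.le
  rw [h11] at h10 ⊢
  push_cast
  linarith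

end Pool.Agent.Lib.MP_651af7_nt.Av.AV
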