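import Pool.Agent.Lib.MP_651af7_nt.Av.Voc
import Pool.Agent.Lib.MP_651af7_nt.Av.Pt

/-! INTERFACE of block T (transcendence degree, generic points, independent copies, charts,
derivations). -/

namespace Pool.Agent.Lib.MP_651af7_nt.Av

open MvPolynomial

variable {k ι K F F' : Type} [Field k] [Field K] [Field F] [Field F'] [Algebra K F] [Algebra K F']

theorem td_mono {S T : Set F} (h : S ⊆ T) : td K S ≤ td K T :=
  (AlgebraicIndependent.matroid K F).eRk_mono h

/-- An independent family bounds the degree from below. -/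
theorem card_le_td {σ : Type} {y : σ → F} (hy : AlgebraicIndependent K y) {S : Set F}
    (h : ∀ i, y i ∈ S) : ENat.card σ ≤ td K S := by
  exact hy.injective.encard_range.trans
    (Matroid.Indep.encard_le_eRk_of_subset (M := AlgebraicIndependent.matroid K F)
      hy.to_subtype_range (by rintro _ ⟨i, rfl⟩; exact h i))

/-- A transcendence basis of a set. -/
theorem exists_td_basis (K : Type) [Field K] [Algebra K F] (S : Set F) :
    ∃ I : Set F, I ⊆ S ∧ AlgebraicIndependent K ((↑) : I → F) ∧ ENat.card I = td K S ∧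
      ∀ a ∈ S, IsAlgebraic (Algebra.adjoin K I) a := by
  obtain ⟨I, hI⟩ := (AlgebraicIndependent.matroid K F).exists_isBasis S
  have h := AlgebraicIndependent.matroid_isBasis_iff.1 hI
  exact ⟨I, h.2.1, h.1, hI.encard_eq_eRk, h.2.2⟩

/-- A transcendence basis among the members of a family. -/
theorem exists_td_basis_range (K : Type) [Field K] [Algebra K F] (w : ι → F) :
    ∃ (σ : Type) (j : σ → ι), Function.Injective j ∧ AlgebraicIndependent K (w ∘ j) ∧
      ENat.card σ = td K (Set.range w) ∧
      ∀ a, IsAlgebraic (Algebra.adjoin K (Set.range (w ∘ j))) (w a) := by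
  obtain ⟨I, hI, h1, h2, h3⟩ := exists_td_basis K (Set.range w)
  choose j hj using fun i : I => hI i.2
  have e : w ∘ j = ((↑) : I → F) := funext hj
  refine ⟨I, j, Function.Injective.of_comp (f := w) (e ▸ Subtype.val_injective), e ▸ h1, h2,
    fun a => ?_⟩
  rw [e, Subtype.range_coe]
  exact h3 _ ⟨a, rfl⟩

theorem td_le_of_isAlgebraic {S T : Set F} (h : ∀ a ∈ S, IsAlgebraic (Algebra.adjoin K T) a) :
    td K S ≤ td K T := by
  unfold td
  rw [← (AlgebraicIndependent.matroid K F).eRk_closure_eq T]
  refine (AlgebraicIndependent.matroid K F).eRk_mono fun a ha => ?_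
  rw [AlgebraicIndependent.matroid_closure_eq]
  exact (Subalgebra.mem_algebraicClosure _ _).2 (h a ha)

theorem td_le_of_adjoin {S T : Set F} (h : S ⊆ Algebra.adjoin K T) : td K S ≤ td K T :=
  td_le_of_isAlgebraic fun a ha => isAlgebraic_algebraMap (⟨a, h ha⟩ : Algebra.adjoin K T)

theorem td_le_encard (S : Set F) : td K S ≤ S.encard :=
  (AlgebraicIndependent.matroid K F).eRk_le_encard S

theorem td_ne_top {S : Set F} (h : S.Finite) : td K S ≠ ⊤ :=
  ((td_le_encard S).trans_lt h.encard_lt_top).ne

theorem td_union_le (S T : Set F) : td K (S ∪ T) ≤ td K S + td K T :=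
  (AlgebraicIndependent.matroid K F).eRk_union_le_eRk_add_eRk S T

theorem td_insert_le (c : F) (S : Set F) : td K (insert c S) ≤ td K S + 1 :=
  (AlgebraicIndependent.matroid K F).eRk_insert_le_add_one c S

/-- An independent family of full size is a basis. -/
theorem isAlgebraic_of_td_le {σ : Type} [Finite σ] {y : σ → F} (hy : AlgebraicIndependent K y)
    {S : Set F} (h : ∀ i, y i ∈ S) (hle : td K S ≤ ENat.card σ) {a : F} (ha : a ∈ S) :
    IsAlgebraic (Algebra.adjoin K (Set.range y)) a := by
  have hI : (AlgebraicIndependent.matroid K F).Indep (Set.range y) := hy.to_subtype_range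
  have h1 := hI.isBasis_of_eRk_ge (X := S) (Set.finite_range y)
    (by rintro _ ⟨i, rfl⟩; exact h i)
    (by rw [hI.eRk_eq_encard]; exact hle.trans hy.injective.encard_range) (Set.subset_univ S)
  exact (AlgebraicIndependent.matroid_isBasis_iff.1 h1).2.2 a ha

theorem td_rat_eq {w : ι → F} {b : ι} (hb : w b ≠ 0) :
    td K (rat w) = td K (Set.range fun a => (w b)⁻¹ * w a) := by
  refine le_antisymm (td_le_of_isAlgebraic ?_) (td_mono ?_)
  · rintro _ ⟨p, rfl⟩
    have h1 : ∀ a, IsAlgebraic (Algebra.adjoin K (Set.range fun a => (w b)⁻¹ * w a))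
        ((w b)⁻¹ * w a) := fun a => isAlgebraic_algebraMap
      (⟨_, Algebra.subset_adjoin ⟨a, rfl⟩⟩ : Algebra.adjoin K (Set.range fun a => (w b)⁻¹ * w a))
    have h2 := (h1 p.1).mul (h1 p.2).inv
    rwa [← div_eq_mul_inv, mul_div_mul_left _ _ (inv_ne_zero hb)] at h2
  · rintro _ ⟨a, rfl⟩
    exact ⟨(a, b), (inv_mul_eq_div _ _).symm⟩

/-- Homogenisation with respect to the variable `b`. -/
theorem exists_homogenise (f : MvPolynomial ι K) (b : ι) :
    ∃ (g : MvPolynomial ι K) (n : ℕ), g.IsHomogeneous n ∧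
      ∀ (R : Type) [CommRing R] [Algebra K R] (v : ι → R), v b = 1 → aeval v g = aeval v f := by
  refine ⟨∑ d ∈ Finset.range (f.totalDegree + 1),
    X b ^ (f.totalDegree - d) * homogeneousComponent d f, f.totalDegree, ?_, fun R _ _ v hv => ?_⟩
  · refine IsHomogeneous.sum _ _ _ fun d hd => ?_
    have h := (isHomogeneous_X_pow (R := K) b (f.totalDegree - d)).mul
      (homogeneousComponent_isHomogeneous d f)
    rwa [Nat.sub_add_cancel (Nat.lt_succ_iff.1 (Finset.mem_range.1 hd))] at h
  · conv_rhs => rw [← sum_homogeneousComponent f]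
    rw [map_sum, map_sum]
    refine Finset.sum_congr rfl fun d _ => ?_
    rw [map_mul, map_pow, aeval_X, hv, one_pow, one_mul]

theorem td_image (f : F →ₐ[K] F') (S : Set F) : td K (f '' S) = td K S := by
  refine le_antisymm ?_ ?_
  · obtain ⟨I, hI, h1, h2, -⟩ := exists_td_basis K (f '' S)
    choose g hg hg' using fun i : I => hI i.2
    have e : f ∘ g = ((↑) : I → F') := funext hg'
    rw [← h2]
    exact card_le_td (AlgebraicIndependent.of_comp f (e ▸ h1)) hg
  · obtain ⟨I, hI, h1, h2, -⟩ := exists_td_basis K S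
    rw [← h2]
    exact card_le_td (h1.map' (f := f) f.toRingHom.injective) fun i => ⟨i, hI i.2, rfl⟩

theorem td_rat_smul {w : ι → F} {c : F} (hc : c ≠ 0) : rat (fun a => c * w a) = rat w := by
  unfold rat
  simp only [mul_div_mul_left _ _ hc]

/-- The degree drops under a specialisation, strictly unless the ideals are equal. -/
theorem td_le_of_spec [Finite ι] {x : ι → F} {w : ι → F'}
    (h : ∀ f : MvPolynomial ι K, aeval x f = 0 → aeval w f = 0) :
    td K (Set.range w) ≤ td K (Set.range x) ∧ (td K (Set.range x) ≤ td K (Set.range w) →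
      ∀ f : MvPolynomial ι K, aeval w f = 0 → aeval x f = 0) := by
  obtain ⟨σ, j, hj, h1, h2, -⟩ := exists_td_basis_range K w
  have h3 : AlgebraicIndependent K (x ∘ j) := by
    rw [algebraicIndependent_iff] at h1 ⊢
    intro p hp
    rw [← aeval_rename] at hp
    exact h1 p (by rw [← aeval_rename]; exact h _ hp)
  refine ⟨h2 ▸ card_le_td h3 fun i => ⟨j i, rfl⟩, fun hle f hf => ?_⟩
  have : Finite σ := Finite.of_injective j hj
  rw [← h2] at hle
  have h4 : ∀ g : MvPolynomial ι K,
      IsAlgebraic (Algebra.adjoin K (Set.range (x ∘ j))) (aeval x g) := by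
    intro g
    induction g using MvPolynomial.induction_on with
    | C a =>
      rw [algHom_C]
      exact isAlgebraic_algebraMap
        (⟨_, Subalgebra.algebraMap_mem _ a⟩ : Algebra.adjoin K (Set.range (x ∘ j)))
    | add p q hp hq => rw [map_add]; exact hp.add hq
    | mul_X p i hp =>
      rw [map_mul, aeval_X]
      exact hp.mul (isAlgebraic_of_td_le h3 (S := Set.range x) (fun i => ⟨j i, rfl⟩) hle ⟨i, rfl⟩)
  by_contra h0
  obtain ⟨t, ht, r, hr, e⟩ :=
    (h4 f).exists_nonzero_eq_adjoin_mul (mem_nonZeroDivisors_of_ne_zero h0)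
  have h5 : ∀ s : Algebra.adjoin K (Set.range (x ∘ j)),
      ∃ p : MvPolynomial σ K, aeval x (rename j p) = (s : F) := by
    intro s
    obtain ⟨p, hp⟩ := (Algebra.adjoin_range_eq_range_aeval K (x ∘ j)).le s.2
    exact ⟨p, by rw [aeval_rename]; exact hp⟩
  have h6 : ∃ g : MvPolynomial ι K, aeval x g = t := by
    clear e
    induction ht using Algebra.adjoin_induction with
    | mem y hy => exact ⟨f, hy.symm⟩
    | algebraMap s =>
      obtain ⟨p, hp⟩ := h5 s
      exact ⟨_, hp⟩
    | add y z _ _ hy hz =>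
      obtain ⟨p, rfl⟩ := hy
      obtain ⟨q, rfl⟩ := hz
      exact ⟨p + q, map_add _ _ _⟩
    | mul y z _ _ hy hz =>
      obtain ⟨p, rfl⟩ := hy
      obtain ⟨q, rfl⟩ := hz
      exact ⟨p * q, map_mul _ _ _⟩
  obtain ⟨g, rfl⟩ := h6
  obtain ⟨p, hp⟩ := h5 r
  have h7 := h (f * g - rename j p) (by rw [map_sub, map_mul, e, hp]; exact sub_self _)
  rw [map_sub, map_mul, hf, zero_mul, zero_sub, neg_eq_zero, aeval_rename] at h7
  rw [algebraicIndependent_iff.1 h1 p h7, map_zero, map_zero] at hp
  exact hr (Subtype.ext hp.symm)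

/-- The same for points of projective space. -/
theorem td_rat_le_of_spec [Finite ι] {x : ι → F} {w : ι → F'} (hw : w ≠ 0)
    (h : ∀ (f : MvPolynomial ι K) (n : ℕ), f.IsHomogeneous n → aeval x f = 0 → aeval w f = 0) :
    td K (rat w) ≤ td K (rat x) ∧ (td K (rat x) ≤ td K (rat w) →
      ∀ (f : MvPolynomial ι K) (n : ℕ), f.IsHomogeneous n → aeval w f = 0 → aeval x f = 0) := by
  obtain ⟨b, hb⟩ := Function.ne_iff.1 hw
  have hb' : w b ≠ 0 := hb
  have hx : x b ≠ 0 := fun h0 =>
    hb' (by simpa using h (X b) 1 (isHomogeneous_X K b) (by simpa using h0))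
  have h1 := td_le_of_spec (K := K) (x := fun a => (x b)⁻¹ * x a) (w := fun a => (w b)⁻¹ * w a)
    (fun f hf => by
      obtain ⟨g, n, hg, e⟩ := exists_homogenise f b
      rw [← e F _ (inv_mul_cancel₀ hx), aeval_mul_of_hom hg] at hf
      rw [← e F' _ (inv_mul_cancel₀ hb'), aeval_mul_of_hom hg, h g n hg
        ((mul_eq_zero.1 hf).resolve_left (pow_ne_zero _ (inv_ne_zero hx))), mul_zero])
  rw [td_rat_eq hb', td_rat_eq hx]
  refine ⟨h1.1, fun hle f n hf h0 => ?_⟩
  have h2 := h1.2 hle f (by rw [aeval_mul_of_hom hf, h0, mul_zero])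
  rw [aeval_mul_of_hom hf] at h2
  exact (mul_eq_zero.1 h2).resolve_left (pow_ne_zero _ (inv_ne_zero hx))

theorem td_range_le [Finite ι] (w : ι → F) : td K (Set.range w) ≤ td K (rat w) + 1 := by
  by_cases hw : ∃ b, w b ≠ 0
  · obtain ⟨b, hb⟩ := hw
    refine (td_le_of_adjoin ?_).trans (td_insert_le (w b) (rat w))
    rintro _ ⟨a, rfl⟩
    rw [← div_mul_cancel₀ (w a) hb]
    exact mul_mem (Algebra.subset_adjoin (Or.inr ⟨(a, b), rfl⟩))
      (Algebra.subset_adjoin (Or.inl rfl))
  · push Not at hw
    refine (td_le_of_adjoin ?_).trans le_self_add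
    rintro _ ⟨a, rfl⟩
    rw [hw a]
    exact zero_mem _

/-- Towers: `S` lies in the image of the bigger base field `M`. -/
theorem td_add_le {M : Type} [Field M] [Algebra K M] [Algebra M F] [IsScalarTower K M F]
    {S T : Set F} (hS : S ⊆ Set.range (algebraMap M F)) : td K S + td M T ≤ td K (S ∪ T) := by
  obtain ⟨I, hI, h1, h2, -⟩ := exists_td_basis K S
  obtain ⟨J, hJ, h3, h4, -⟩ := exists_td_basis M T
  choose g hg using fun i : I => hS (hI i.2)
  have e : IsScalarTower.toAlgHom K M F ∘ g = ((↑) : I → F) := funext hg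
  have h5 := (AlgebraicIndependent.of_comp _ (e ▸ h1)).sumElim_comp h3
  rw [← h2, ← h4, add_comm, ← ENat.card_sum]
  refine card_le_td h5 ?_
  rintro (i | i)
  · exact Or.inr (hJ i.2)
  · exact Or.inl (show algebraMap M F (g i) ∈ S from hg i ▸ hI i.2)

theorem td_le_of_tower {M : Type} [Field M] [Algebra K M] [Algebra M F] [IsScalarTower K M F]
    (T : Set F) : td M T ≤ td K T := by
  obtain ⟨I, hI, h1, h2, -⟩ := exists_td_basis M T
  rw [← h2]
  exact card_le_td (h1.restrictScalars (algebraMap K M).injective) fun i => hI i.2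

theorem td_eq_of_isAlgebraic {M : Type} [Field M] [Algebra K M] [Algebra M F]
    [IsScalarTower K M F] [Algebra.IsAlgebraic K M] (T : Set F) : td M T = td K T := by
  refine le_antisymm (td_le_of_tower T) ?_
  obtain ⟨I, hI, h1, h2, -⟩ := exists_td_basis K T
  rw [← h2]
  exact card_le_td (h1.extendScalars M) fun i => hI i.2

/-- In a join the second field keeps its transcendence degrees over the first one. -/
theorem td_join {M : Type} [Field M] [Algebra K M] [Algebra F M] [IsScalarTower K F M]
    (i' : F' →ₐ[K] M) (h : Function.Injective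
      (Algebra.TensorProduct.productMap (IsScalarTower.toAlgHom K F M) i')) (T : Set F') :
    td F (i' '' T) = td K T := by
  refine le_antisymm ((td_le_of_tower (K := K) _).trans (td_image i' T).le) ?_
  obtain ⟨I, hI, h1, h2, -⟩ := exists_td_basis K T
  rw [← h2]
  refine card_le_td (y := fun i : I => i' i) ?_ fun i => ⟨i, hI i.2, rfl⟩
  have h3 : Function.Injective (Algebra.TensorProduct.map (AlgHom.id K F)
      (aeval ((↑) : I → F') : MvPolynomial I K →ₐ[K] F')) :=
    Module.Flat.lTensor_preserves_injective_linearMap (M := F)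
      (aeval ((↑) : I → F') : MvPolynomial I K →ₐ[K] F').toLinearMap h1
  have h4 : ∀ z, aeval (fun i : I => i' i) (algebraTensorAlgEquiv K F z) =
      Algebra.TensorProduct.productMap (IsScalarTower.toAlgHom K F M) i'
        (Algebra.TensorProduct.map (AlgHom.id K F)
          (aeval ((↑) : I → F') : MvPolynomial I K →ₐ[K] F') z) := by
    intro z
    induction z using TensorProduct.induction_on with
    | zero => simp
    | add a b ha hb => simp only [map_add, ha, hb]
    | tmul a p =>
      rw [algebraTensorAlgEquiv_tmul, map_smul, aeval_map_algebraMap,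
        Algebra.TensorProduct.map_tmul, Algebra.TensorProduct.productMap_apply_tmul,
        Algebra.smul_def, ← AlgHom.comp_apply i', comp_aeval]
      rfl
  rw [algebraicIndependent_iff]
  intro p hp
  obtain ⟨z, rfl⟩ := (algebraTensorAlgEquiv (σ := I) K F).surjective p
  rw [h4] at hp
  rw [h3 ((h (hp.trans (map_zero _).symm)).trans (map_zero _).symm), map_zero]

end Pool.Agent.Lib.MP_651af7_nt.Av
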