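import Pool.Agent.Lib.MP_651af7_nt.Av.TrA

/-! Block T: independent copies, charts, derivations. -/

namespace Pool.Agent.Lib.MP_651af7_nt.Av

open MvPolynomial

variable {k ι K F F' : Type} [Field k] [Field K] [Field F] [Field F'] [Algebra K F] [Algebra K F']

/-- Algebraic elements that are independent over `K` stay independent over `F`. -/
theorem trb_indep [CharZero K] (h : RelCl K F) {Ω : Type} [Field Ω] [Algebra K Ω] [Algebra F Ω]
    [IsScalarTower K F Ω] {β : Type} {b : β → Ω} (hb : LinearIndependent K b)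
    (ha : ∀ i, IsIntegral K (b i)) : LinearIndependent F b := by
  rw [linearIndependent_iff_finset_linearIndependent]
  intro s
  let A := IntermediateField.adjoin K (Set.range fun i : s => b i)
  have h1 : FiniteDimensional K A := IntermediateField.finiteDimensional_adjoin (by
    rintro _ ⟨i, rfl⟩
    exact ha i)
  let pb := Field.powerBasisOfFiniteOfSeparable K A
  have h2 : IsIntegral K (pb.gen : Ω) := pb.isIntegral_gen.map A.val
  have h3 : (minpoly K (pb.gen : Ω)).map (algebraMap K F) = minpoly F (pb.gen : Ω) :=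
    minpoly.map_algebraMap h2 ((Polynomial.lifts_iff_coeff_lifts _).2 fun n => h _
      (Polynomial.isIntegral_coeff_of_dvd _ _ (minpoly.monic h2) (minpoly.monic h2.tower_top)
        (minpoly.dvd_map_of_isScalarTower K F _) n).isAlgebraic)
  have h4 : (minpoly F (pb.gen : Ω)).natDegree = pb.dim := by
    rw [← h3, Polynomial.natDegree_map, ← pb.natDegree_minpoly, IntermediateField.minpoly_eq]
  have h5 : A.LinearDisjoint F := .of_basis_left pb.basis (by
    have h6 := linearIndependent_pow (K := F) (pb.gen : Ω)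
    have h7 := h6.comp (Fin.cast h4.symm) (Fin.cast_injective _)
    convert h7 using 1
    ext i
    simp)
  exact h5.linearIndependent_left
    (a := fun i : s => ⟨b i, IntermediateField.subset_adjoin _ _ ⟨i, rfl⟩⟩)
    (LinearIndependent.of_comp A.val.toLinearMap (hb.comp _ Subtype.val_injective))

/-- The ideal of a point of a regular extension stays prime. -/
theorem trb_prime [CharZero K] [Finite ι] (h : RelCl K F) (x : ι → F) (F' : Type) [Field F']
    [Algebra K F'] : ((RingHom.ker (aeval x : MvPolynomial ι K →ₐ[K] F)).map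
      (MvPolynomial.map (algebraMap K F'))).IsPrime := by
  refine prime_of_isAlgClosed (AlgebraicClosure K) ?_ F'
  let j : AlgebraicClosure K →ₐ[K] AlgebraicClosure F := IsAlgClosed.lift
  let _ := j.toRingHom.toAlgebra
  have h1 : IsScalarTower K (AlgebraicClosure K) (AlgebraicClosure F) :=
    IsScalarTower.of_algebraMap_eq fun c => (j.commutes c).symm
  let y : ι → AlgebraicClosure F := fun a => algebraMap F _ (x a)
  have h2 : (RingHom.ker (aeval x : MvPolynomial ι K →ₐ[K] F)).map
      (MvPolynomial.map (algebraMap K (AlgebraicClosure K))) =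
      RingHom.ker (aeval (R := AlgebraicClosure K) y) := by
    refine le_antisymm (fun P hP => aeval_of_mem_map (fun Q hQ => ?_) P hP) fun P hP => ?_
    · rw [aeval_alg, RingHom.mem_ker.1 hQ, map_zero]
    let b := Module.Basis.ofVectorSpace K (AlgebraicClosure K)
    obtain ⟨T, -, hT⟩ := exists_sum_cf b P
    have h3 := trb_indep h (b.linearIndependent.map' j.toLinearMap
      (LinearMap.ker_eq_bot.2 j.toRingHom.injective))
      fun i => (Algebra.IsIntegral.isIntegral (b i)).map j
    have h4 := linearIndependent_iff'.1 h3 T (fun i => aeval x (cf (b.coord i) P)) (by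
      rw [RingHom.mem_ker, hT, map_sum] at hP
      rw [← hP]
      refine Finset.sum_congr rfl fun i _ => ?_
      rw [map_mul, aeval_map_algebraMap, algHom_C, Algebra.smul_def, mul_comm, ← aeval_alg]
      rfl)
    rw [hT]
    exact Ideal.sum_mem _ fun i hi => Ideal.mul_mem_left _ _ (Ideal.mem_map_of_mem _ (h4 i hi))
  rw [h2]
  exact RingHom.ker_isPrime _

theorem trb_domain [CharZero K] (h : RelCl K F) (F' : Type) [Field F'] [Algebra K F'] :
    IsDomain (TensorProduct K F F') := by
  classical
  have : NoZeroDivisors (TensorProduct K F F') := ⟨fun {z w} hzw => by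
    obtain ⟨S, hS⟩ := TensorProduct.exists_finset z
    obtain ⟨T, hT⟩ := TensorProduct.exists_finset w
    let x : ↥(S ∪ T) → F := fun a => a.1.1
    let Φ : MvPolynomial ↥(S ∪ T) F' →+* TensorProduct K F F' :=
      eval₂Hom (Algebra.TensorProduct.includeRight (R := K) (A := F) (B := F')).toRingHom
        fun a => Algebra.TensorProduct.includeLeftRingHom (x a)
    have h1 : ∀ U : Finset (F × F'), U ⊆ S ∪ T → (U.sum fun i => i.1 ⊗ₜ[K] i.2) ∈ Φ.range :=
      fun U hU => Subring.sum_mem _ fun i hi => ⟨X ⟨i, hU hi⟩ * C i.2, by simp [Φ, x]⟩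
    have h2 : RingHom.ker Φ = (RingHom.ker (aeval x : MvPolynomial _ K →ₐ[K] F)).map
        (MvPolynomial.map (algebraMap K F')) := by
      refine le_antisymm (fun P hP => mem_map_of_cf fun l => ?_)
        (Ideal.map_le_iff_le_comap.2 fun P hP => ?_)
      · have h3 : aeval x (cf l P) = TensorProduct.rid K F (l.lTensor F (Φ P)) := by
          rw [cf, map_sum, coe_eval₂Hom, eval₂_eq, map_sum, map_sum]
          refine Finset.sum_congr rfl fun m _ => ?_
          simp only [← map_pow, ← map_prod]
          rw [aeval_monomial, Finsupp.prod, ← Algebra.smul_def]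
          generalize ∏ a ∈ m.support, x a ^ m a = t
          simp
        rw [RingHom.mem_ker, h3, RingHom.mem_ker.1 hP, map_zero, map_zero]
      · have h3 : Φ.comp (MvPolynomial.map (algebraMap K F')) =
            Algebra.TensorProduct.includeLeftRingHom.comp
              (aeval x : MvPolynomial _ K →ₐ[K] F).toRingHom := by
          ext a <;> simp [Φ]
        refine (RingHom.congr_fun h3 P).trans ?_
        rw [RingHom.comp_apply]
        exact (congrArg _ hP).trans (map_zero _)
    obtain ⟨P, hP⟩ := h1 S Finset.subset_union_left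
    obtain ⟨Q, hQ⟩ := h1 T Finset.subset_union_right
    rw [hS, hT, ← hP, ← hQ] at hzw ⊢
    have h4 := trb_prime h x F'
    rw [← h2] at h4
    exact h4.mem_or_mem ((map_mul Φ P Q).trans hzw)⟩
  exact NoZeroDivisors.to_isDomain _

/-- Independent copies: `F` regular over `K`, `F'` arbitrary; `M` is the field of fractions of
the tensor product. -/
theorem exists_join [CharZero K] (h : RelCl K F) (F' : Type) [Field F'] [Algebra K F'] :
    ∃ (M : Type) (_ : Field M) (_ : Algebra K M) (i : F →ₐ[K] M) (i' : F' →ₐ[K] M),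
      Function.Injective (Algebra.TensorProduct.productMap i i') := by
  have h1 := trb_domain h F'
  let j := IsScalarTower.toAlgHom K (TensorProduct K F F') (FractionRing (TensorProduct K F F'))
  refine ⟨FractionRing (TensorProduct K F F'), inferInstance, inferInstance,
    j.comp Algebra.TensorProduct.includeLeft, j.comp Algebra.TensorProduct.includeRight, ?_⟩
  have h2 : Algebra.TensorProduct.productMap (j.comp Algebra.TensorProduct.includeLeft)
      (j.comp Algebra.TensorProduct.includeRight) = j := by
    refine Algebra.TensorProduct.ext' fun a b => ?_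
    rw [Algebra.TensorProduct.productMap_apply_tmul, AlgHom.comp_apply, AlgHom.comp_apply,
      ← map_mul]
    simp
  rw [h2]
  exact IsFractionRing.injective _ _

/-- The chain rule. -/
theorem trb_chain [Fintype ι] {E S M : Type} [CommRing E] [CommRing S] [Algebra E S] [Algebra K S]
    [AddCommGroup M] [Module S M] [Module E M] (D : Derivation E S M)
    (h : ∀ c, D (algebraMap K S c) = 0) (ξ : ι → S) (f : MvPolynomial ι K) :
    D (aeval ξ f) = ∑ a, aeval ξ (pderiv a f) • D (ξ a) := by
  classical
  induction f using MvPolynomial.induction_on with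
  | C c => simp [h]
  | add p q hp hq => simp [hp, hq, add_smul, Finset.sum_add_distrib]
  | mul_X p i hp =>
    simp only [map_mul, aeval_X, D.leibniz, hp, pderiv_mul, map_add, add_smul,
      Finset.sum_add_distrib, Finset.smul_sum, smul_smul]
    rw [add_comm, Finset.sum_eq_single i (f := fun a => (aeval ξ p * aeval ξ (pderiv a (X i))) • _)
      (fun b _ hb => by rw [pderiv_X_of_ne hb.symm, map_zero, mul_zero, zero_smul]) (by simp)]
    simp [mul_comm]

/-- A local ring that is etale over the field of the coordinates is a field. -/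
theorem trb_unr [Fintype ι] {r : ℕ} (C : Chart K ι r) {S : Type} [CommRing S] [IsLocalRing S]
    [Algebra K S] [Algebra.EssFiniteType K S] (π : MvPolynomial ι K →ₐ[K] S)
    (hs : ∀ s, ∃ f t, IsUnit (π t) ∧ s * π t = π f) (hI : ∀ y, y ≠ 0 → IsUnit (π (rename C.I y)))
    (hφ : ∀ a, a ∉ Set.range C.I → π (C.φ a) = 0 ∧ IsUnit (π (pderiv a (C.φ a)))) :
    IsLocalRing.maximalIdeal S = ⊥ := by
  let E := FractionRing (MvPolynomial (Fin r) K)
  let g : MvPolynomial (Fin r) K →+* S := (π.comp (rename C.I)).toRingHom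
  have hg : ∀ y : nonZeroDivisors (MvPolynomial (Fin r) K), IsUnit (g y) := fun y =>
    hI _ (nonZeroDivisors.coe_ne_zero y)
  let _ : Algebra E S := (IsLocalization.lift hg).toAlgebra
  have h3 : ∀ q, algebraMap E S (algebraMap _ E q) = π (rename C.I q) := IsLocalization.lift_eq hg
  have h4 : IsScalarTower K E S := IsScalarTower.of_algebraMap_eq fun c => by
    rw [IsScalarTower.algebraMap_apply K (MvPolynomial (Fin r) K) E, h3, AlgHom.commutes,
      AlgHom.commutes]
  have h5 : Algebra.EssFiniteType E S := .of_comp K _ _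
  have h6 : Algebra.FormallyUnramified E S := by
    let D := KaehlerDifferential.D E S
    have h7 : ∀ f, D (π f) = ∑ a, π (pderiv a f) • D (π (X a)) := fun f => by
      have h := trb_chain D (fun c => by
        rw [IsScalarTower.algebraMap_apply K E, D.map_algebraMap]) (fun a => π (X a)) f
      simpa only [aeval_hom, aeval_X_left_apply] using h
    have h8 : ∀ j, D (π (X (C.I j))) = 0 := fun j => by
      rw [← rename_X, ← h3, D.map_algebraMap]
    have h9 : ∀ a, D (π (X a)) = 0 := fun a => by
      by_cases ha : a ∈ Set.range C.I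
      · obtain ⟨j, rfl⟩ := ha
        exact h8 j
      have h := h7 (C.φ a)
      rw [(hφ a ha).1, map_zero, Finset.sum_eq_single a (fun b _ hb => ?_) (by simp)] at h
      · exact (hφ a ha).2.smul_eq_zero.1 h.symm
      by_cases hb' : b ∈ Set.range C.I
      · obtain ⟨j, rfl⟩ := hb'
        rw [h8, smul_zero]
      rw [pderiv_eq_zero_of_notMem_vars, map_zero, zero_smul]
      intro h
      obtain ⟨μ, hμ, h⟩ := (mem_vars_iff_mem_support _).1 h
      exact (C.supp a μ hμ b (Finsupp.mem_support_iff.1 h)).elim hb hb'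
    have h10 : ∀ f, D (π f) = 0 := fun f =>
      (h7 f).trans (Finset.sum_eq_zero fun a _ => by rw [h9, smul_zero])
    have h11 : ∀ s, D s = 0 := fun s => by
      obtain ⟨f, t, ht, e⟩ := hs s
      have h := h10 f
      rw [← e, D.leibniz, h10, smul_zero, zero_add] at h
      exact ht.smul_eq_zero.1 h
    refine ⟨subsingleton_of_forall_eq 0 fun ω => ?_⟩
    have h : ω ∈ Submodule.span S (Set.range D) := by
      rw [KaehlerDifferential.span_range_derivation]
      trivial
    refine (Submodule.span_le (p := ⊥)).2 ?_ h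
    rintro _ ⟨s, rfl⟩
    exact h11 s
  rw [← Algebra.FormallyUnramified.map_maximalIdeal (R := E) (S := S),
    IsLocalRing.maximalIdeal_eq_bot, Ideal.map_bot]

/-- At a point with independent coordinates the equations of an etale chart generate the ideal. -/
theorem Chart.on_of_at [Fintype ι] {r : ℕ} (C : Chart K ι r) {x : ι → F} (hx : C.At x)
    (hI : AlgebraicIndependent K fun j => x (C.I j)) :
    C.On (RingHom.ker (aeval x : MvPolynomial ι K →ₐ[K] F)) x := by
  set P := RingHom.ker (aeval x : MvPolynomial ι K →ₐ[K] F) with hP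
  have hp : P.IsPrime := RingHom.ker_isPrime _
  obtain ⟨L, _, _, _, _, _⟩ : ∃ (L : Type) (_ : CommRing L) (_ : Algebra (MvPolynomial ι K) L)
      (_ : Algebra K L) (_ : IsScalarTower K (MvPolynomial ι K) L), IsLocalization.AtPrime L P :=
    ⟨Localization.AtPrime P, inferInstance, inferInstance, inferInstance, inferInstance,
      inferInstance⟩
  have h0 : IsLocalRing L := IsLocalization.AtPrime.isLocalRing L P
  have h3 : Algebra.EssFiniteType (MvPolynomial ι K) L := .of_isLocalization _ P.primeCompl
  have h4 : Algebra.EssFiniteType K L := .comp _ (MvPolynomial ι K) _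
  let J : Ideal L := C.ideal.map (algebraMap (MvPolynomial ι K) L)
  let π : MvPolynomial ι K →ₐ[K] L ⧸ J :=
    (Ideal.Quotient.mkₐ K J).comp (IsScalarTower.toAlgHom K (MvPolynomial ι K) L)
  have hu : ∀ f, aeval x f ≠ 0 → IsUnit (π f) := fun f hf =>
    (IsLocalization.map_units L (⟨f, hf⟩ : P.primeCompl)).map (Ideal.Quotient.mk J)
  have hJ : J ≤ IsLocalRing.maximalIdeal L := by
    rw [← IsLocalization.AtPrime.map_eq_maximalIdeal P L]
    refine Ideal.map_mono (Ideal.span_le.2 ?_)
    rintro _ ⟨a, ha, rfl⟩
    exact (hx a ha).1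
  have h1 : Nontrivial (L ⧸ J) := Ideal.Quotient.nontrivial_iff.2
    (ne_top_of_le_ne_top (IsLocalRing.maximalIdeal.isMaximal L).ne_top hJ)
  have h2 : IsLocalRing (L ⧸ J) := .of_surjective' _ Ideal.Quotient.mk_surjective
  have h7 := trb_unr (S := L ⧸ J) C π (fun s => by
      obtain ⟨s, rfl⟩ := Ideal.Quotient.mk_surjective s
      obtain ⟨⟨f, t⟩, e⟩ := IsLocalization.surj P.primeCompl s
      exact ⟨f, t, hu _ t.2, congrArg (Ideal.Quotient.mk J) e⟩)
    (fun y hy => hu _ fun h0 => hy
      (algebraicIndependent_iff.1 hI _ ((aeval_rename C.I x _).symm.trans h0)))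
    fun a ha => ⟨Ideal.Quotient.eq_zero_iff_mem.2
      (Ideal.mem_map_of_mem _ (Ideal.subset_span ⟨a, ha, rfl⟩)), hu _ (hx a ha).2.ne_zero⟩
  intro f hf
  have h8 : π f ∈ IsLocalRing.maximalIdeal (L ⧸ J) := by
    have := IsLocalHom.of_surjective (Ideal.Quotient.mk J) Ideal.Quotient.mk_surjective
    exact map_nonunit (Ideal.Quotient.mk J) _
      ((IsLocalization.AtPrime.to_map_mem_maximal_iff L P f).2 hf)
  rw [h7] at h8
  obtain ⟨s, hs, h9⟩ := (IsLocalization.algebraMap_mem_map_algebraMap_iff P.primeCompl L _ f).1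
    (Ideal.Quotient.eq_zero_iff_mem.1 h8)
  exact ⟨s, isUnit_iff_ne_zero.2 hs, h9⟩

/-- An algebraic element is a simple root of some polynomial. -/
theorem trb_simple {R : Type} [CommRing R] [IsDomain R] [CharZero R] {g : R →+* F}
    (hg : Function.Injective g) (y : F) (n : ℕ) : ∀ p : Polynomial R, p.natDegree = n → p ≠ 0 →
      p.eval₂ g y = 0 → ∃ q : Polynomial R, q.eval₂ g y = 0 ∧ q.derivative.eval₂ g y ≠ 0 := by
  induction n using Nat.strong_induction_on with
  | h n ih =>
    intro p hn h0 hp
    by_cases h : p.derivative.eval₂ g y = 0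
    · have h1 : p.natDegree ≠ 0 := fun h1 => by
        rw [Polynomial.eq_C_of_natDegree_eq_zero h1] at h0 hp
        rw [Polynomial.eval₂_C, map_eq_zero_iff g hg] at hp
        exact h0 (by rw [hp, map_zero])
      exact ih _ (hn ▸ Polynomial.natDegree_derivative_lt h1) _ rfl
        (fun h2 => h1 (Polynomial.derivative_eq_zero.1 h2)) h
    · exact ⟨p, hp, h⟩

theorem trb_eqn [CharZero K] {r : ℕ} {I : Fin r → ι} {x : ι → F}
    (hI : AlgebraicIndependent K (x ∘ I)) {a : ι} (ha : a ∉ Set.range I)
    (h : IsAlgebraic (Algebra.adjoin K (Set.range (x ∘ I))) (x a)) :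
    ∃ φ ∈ supported K (insert a (Set.range I)), aeval x φ = 0 ∧ aeval x (pderiv a φ) ≠ 0 := by
  obtain ⟨p, h0, hp⟩ := h
  let g : MvPolynomial (Fin r) K →+* MvPolynomial ι K := (rename I).toRingHom
  have h1 : ∀ q : Polynomial (MvPolynomial (Fin r) K), aeval x (q.eval₂ g (X a)) =
      q.eval₂ (aeval (x ∘ I) : MvPolynomial (Fin r) K →ₐ[K] F).toRingHom (x a) := fun q => by
    refine (Polynomial.hom_eval₂ q g (aeval x : MvPolynomial ι K →ₐ[K] F).toRingHom (X a)).trans ?_
    congr 1
    · exact RingHom.ext fun c => aeval_rename _ _ _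
    · exact aeval_X _ _
  have h2 : ∀ c, ((g c).vars : Set ι) ⊆ Set.range I := fun c b hb => by
    obtain ⟨j, -, e⟩ := mem_vars_rename _ _ hb
    exact ⟨j, e⟩
  obtain ⟨q, hq, hq'⟩ := trb_simple (g := (aeval (x ∘ I) : MvPolynomial (Fin r) K →ₐ[K] F).toRingHom)
    hI (x a) _ (p.map hI.aevalEquiv.symm.toRingEquiv.toRingHom) rfl
    ((Polynomial.map_ne_zero_iff hI.aevalEquiv.symm.injective).2 h0) (by
      rw [Polynomial.eval₂_map, ← hp, Polynomial.aeval_def]
      congr 1
      refine RingHom.ext fun c => ?_
      obtain ⟨c, rfl⟩ := hI.aevalEquiv.surjective c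
      rw [hI.algebraMap_aevalEquiv]
      exact congrArg (aeval (x ∘ I)) (hI.aevalEquiv.symm_apply_apply c))
  refine ⟨q.eval₂ g (X a), ?_, (h1 q).trans hq, fun h => hq' ?_⟩
  · rw [Polynomial.eval₂_eq_sum_range]
    exact sum_mem fun i _ => mul_mem (mem_supported.2 ((h2 _).trans (Set.subset_insert _ _)))
      (pow_mem (X_mem_supported.2 (Set.mem_insert _ _)) _)
  rw [← h1, ← h]
  congr 1
  clear hq hq' h
  induction q using Polynomial.induction_on' with
  | add p q hp hq => simp only [map_add, Polynomial.eval₂_add, hp, hq]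
  | monomial n c =>
    rw [Polynomial.derivative_monomial, Polynomial.eval₂_monomial, Polynomial.eval₂_monomial,
      pderiv_mul, pderiv_eq_zero_of_notMem_vars fun hb => ha (h2 c hb), pderiv_pow, pderiv_X_self,
      map_mul, map_natCast]
    ring

/-- The chart of the locus of a point. -/
theorem exists_chart [CharZero K] [Fintype ι] (x : ι → F) (a₀ : ι) (h : x a₀ = 1) :
    ∃ (r : ℕ) (C : Chart K ι r), C.a₀ = a₀ ∧ C.At x ∧ td K (rat x) = r ∧
      AlgebraicIndependent K (fun j => x (C.I j)) ∧
      C.On (RingHom.ker (aeval x : MvPolynomial ι K →ₐ[K] F)) x := by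
  obtain ⟨σ, j, hj, h1, h2, h3⟩ := exists_td_basis_range K x
  have : Finite σ := Finite.of_injective j hj
  obtain ⟨r, ⟨e⟩⟩ := Finite.exists_equiv_fin σ
  have h4 : AlgebraicIndependent K (x ∘ j ∘ e.symm) := h1.comp _ e.symm.injective
  have h5 : Set.range (x ∘ j ∘ e.symm) = Set.range (x ∘ j) := e.symm.surjective.range_comp (x ∘ j)
  have h6 : a₀ ∉ Set.range (j ∘ e.symm) := by
    rintro ⟨i, hi⟩
    exact h4.transcendental i (by rw [Function.comp_apply, hi, h]; exact isAlgebraic_one)
  have h7 : ∀ a, ∃ φ ∈ supported K (insert a (Set.range (j ∘ e.symm))), (a = a₀ → φ = X a₀ - 1) ∧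
      (a ∉ Set.range (j ∘ e.symm) → aeval x φ = 0 ∧ IsUnit (aeval x (pderiv a φ))) := by
    intro a
    by_cases ha : a = a₀
    · subst ha
      exact ⟨X a - 1, sub_mem (X_mem_supported.2 (Set.mem_insert _ _)) (one_mem _), fun _ => rfl,
        fun _ => by simp [h]⟩
    by_cases ha' : a ∈ Set.range (j ∘ e.symm)
    · exact ⟨0, zero_mem _, fun h => absurd h ha, fun h => absurd ha' h⟩
    obtain ⟨φ, h8, h9, h10⟩ := trb_eqn h4 ha' (h5 ▸ h3 a)
    exact ⟨φ, h8, fun h => absurd h ha, fun _ => ⟨h9, isUnit_iff_ne_zero.2 h10⟩⟩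
  choose φ h8 h9 h10 using h7
  let C : Chart K ι r := ⟨a₀, j ∘ e.symm, φ, hj.comp e.symm.injective, fun i hi => h6 ⟨i, hi⟩,
    h9 a₀ rfl, fun a μ hμ b hb => mem_supported.1 (h8 a)
      ((mem_vars_iff_mem_support b).2 ⟨μ, hμ, Finsupp.mem_support_iff.2 hb⟩)⟩
  refine ⟨r, C, rfl, h10, ?_, h4, C.on_of_at h10 h4⟩
  rw [td_rat_eq (b := a₀) (h ▸ one_ne_zero)]
  simp only [h, inv_one, one_mul]
  rw [← h2, ENat.card_congr e]
  simp

/-- Lifting along a nilpotent thickening. -/
theorem trb_lift {A B : Type} [CommRing A] [CommRing B] [Algebra A F] [Algebra.FormallySmooth A F]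
    (g : A →+* B) (π : B →+* F) (hπ : Function.Surjective π) (hn : IsNilpotent (RingHom.ker π))
    (e : ∀ a, π (g a) = algebraMap A F a) :
    ∃ G : F →+* B, (∀ x, π (G x) = x) ∧ ∀ a, G (algebraMap A F a) = g a := by
  let _ := g.toAlgebra
  let p : B →ₐ[A] F := ⟨π, e⟩
  let G := Algebra.FormallySmooth.liftOfSurjective (AlgHom.id A F) p hπ hn
  exact ⟨G.toRingHom, fun x => Algebra.FormallySmooth.liftOfSurjective_apply _ p hπ hn x,
    fun a => G.commutes a⟩

theorem trb_nil : IsNilpotent (RingHom.ker (TrivSqZeroExt.fstHom F F F : DualNumber F →+* F)) := by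
  refine ⟨2, ?_⟩
  rw [Submodule.pow_succ, Submodule.pow_one, Ideal.zero_eq_bot, eq_bot_iff, Ideal.mul_le]
  intro r hr s hs
  have hr' : r.fst = 0 := hr
  have hs' : s.fst = 0 := hs
  rw [Ideal.mem_bot]
  ext
  · rw [TrivSqZeroExt.fst_mul, hr', zero_mul, TrivSqZeroExt.fst_zero]
  · rw [DualNumber.snd_mul, hr', hs', zero_mul, mul_zero, add_zero, TrivSqZeroExt.snd_zero]

/-- A derivation from a section over the dual numbers. -/
theorem trb_der [Algebra k F] (G : F →+* DualNumber F) (h1 : ∀ x, (G x).fst = x)
    (h2 : ∀ c, (G (algebraMap k F c)).snd = 0) : ∃ D : Derivation k F F, ∀ x, D x = (G x).snd := by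
  refine ⟨Derivation.mk' ⟨⟨fun x => (G x).snd, fun x y => ?_⟩, fun c x => ?_⟩ fun x y => ?_,
    fun _ => rfl⟩
  · rw [map_add, TrivSqZeroExt.snd_add]
  · change (G (c • x)).snd = c • (G x).snd
    rw [Algebra.smul_def, Algebra.smul_def, map_mul, DualNumber.snd_mul, h1, h2, zero_mul, add_zero]
  · change (G (x * y)).snd = x • (G y).snd + y • (G x).snd
    rw [map_mul, DualNumber.snd_mul, h1, h1, smul_eq_mul, smul_eq_mul, mul_comm y]

theorem trb_ext {A : Type} [CommRing A] [Algebra A F] [Algebra.FormallySmooth A F] [Algebra k A]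
    [Algebra k F] [IsScalarTower k A F] (g : A →+* DualNumber F)
    (e : ∀ a, (g a).fst = algebraMap A F a) (e' : ∀ c, (g (algebraMap k A c)).snd = 0) :
    ∃ D : Derivation k F F, ∀ a, D (algebraMap A F a) = (g a).snd := by
  obtain ⟨G, h1, h2⟩ := trb_lift g (TrivSqZeroExt.fstHom F F F : DualNumber F →+* F)
    (fun x => ⟨TrivSqZeroExt.inl x, rfl⟩) trb_nil e
  obtain ⟨D, hD⟩ := trb_der (k := k) G h1 fun c => by
    rw [IsScalarTower.algebraMap_apply k A F, h2, e']
  exact ⟨D, fun a => by rw [hD, h2]⟩

theorem trb_smooth (K F : Type) [Field K] [Field F] [Algebra K F] [CharZero K] :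
    Algebra.FormallySmooth K F := by
  obtain ⟨s, hs⟩ := exists_isTranscendenceBasis K F
  have := hs.isAlgebraic_field
  exact .of_algebraicIndependent_of_isSeparable hs.1

open scoped IntermediateField.algebraAdjoinAdjoin in
/-- Derivations with prescribed values on an algebraically independent family. -/
theorem exists_derivation [CharZero K] {J : Type} {t : J → F} (ht : AlgebraicIndependent K t)
    (c : J → F) : ∃ D : Derivation K F F, ∀ j, D (t j) = c j := by
  have h1 : Algebra.FormallySmooth (Algebra.adjoin K (Set.range t))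
      (IntermediateField.adjoin K (Set.range t)) := .of_isLocalization (nonZeroDivisors _)
  have h2 := trb_smooth (IntermediateField.adjoin K (Set.range t)) F
  have h3 : Algebra.FormallySmooth (Algebra.adjoin K (Set.range t)) F :=
    .comp _ (IntermediateField.adjoin K (Set.range t)) _
  let g : Algebra.adjoin K (Set.range t) →ₐ[K] DualNumber F :=
    (aeval (dv t c)).comp ht.aevalEquiv.symm.toAlgHom
  have h4 : ∀ p, g (ht.aevalEquiv p) = aeval (dv t c) p := fun p =>
    congrArg (aeval (dv t c)) (ht.aevalEquiv.symm_apply_apply p)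
  obtain ⟨D, hD⟩ := trb_ext (k := K) g.toRingHom (fun a => by
    obtain ⟨p, rfl⟩ := ht.aevalEquiv.surjective a
    rw [ht.algebraMap_aevalEquiv]
    change (g _).fst = _
    rw [h4]
    have h : ((TrivSqZeroExt.fstHom F F F).restrictScalars K).comp (aeval (dv t c)) = aeval t := by
      ext j
      simp [dv]
    exact AlgHom.congr_fun h p) fun c => by
      change (g _).snd = 0
      rw [g.commutes]
      rfl
  refine ⟨D, fun j => ?_⟩
  have h := hD (ht.aevalEquiv (X j))
  rw [ht.algebraMap_aevalEquiv, aeval_X] at h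
  rw [h]
  change (g _).snd = _
  rw [h4, aeval_X]
  simp [dv]

/-- Extension of derivations. -/
theorem exists_derivation_ext [CharZero K] [Algebra k K] [Algebra k F] [IsScalarTower k K F]
    (D : Derivation k K K) :
    ∃ D' : Derivation k F F, ∀ c, D' (algebraMap K F c) = algebraMap K F (D c) := by
  have h := trb_smooth K F
  let g : K →+* DualNumber F :=
    { toFun := fun a => ⟨algebraMap K F a, algebraMap K F (D a)⟩
      map_one' := by
        ext
        · exact map_one _
        · exact (congrArg (algebraMap K F) D.map_one_eq_zero).trans (map_zero (algebraMap K F))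
      map_mul' := fun a b => by
        ext
        · exact map_mul _ _ _
        · rw [DualNumber.snd_mul]
          change algebraMap K F (D (a * b)) = algebraMap K F a * algebraMap K F (D b) +
            algebraMap K F (D a) * algebraMap K F b
          rw [D.leibniz, smul_eq_mul, smul_eq_mul, map_add, map_mul, map_mul,
            mul_comm (algebraMap K F b)]
      map_zero' := by
        ext
        · exact map_zero _
        · exact (congrArg (algebraMap K F) D.map_zero).trans (map_zero (algebraMap K F))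
      map_add' := fun a b => by
        ext
        · exact map_add _ _ _
        · exact (congrArg (algebraMap K F) (D.map_add a b)).trans (map_add (algebraMap K F) _ _) }
  exact trb_ext (k := k) g (fun _ => rfl) fun c =>
    (congrArg (algebraMap K F) (D.map_algebraMap c)).trans (map_zero (algebraMap K F))

end Pool.Agent.Lib.MP_651af7_nt.Av
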