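import Pool.Agent.Lib.MP_651af7_nt.Av.Defs
import Pool.Agent.Lib.Common.Subspace.Defs

/-! The vocabulary shared by the blocks. -/

namespace Pool.Agent.Lib.MP_651af7_nt.Av

open MvPolynomial Height Filter
open Pool.Agent.Lib.Common.Subspace (IsInt len)

section trdeg

/-- The transcendence degree over `K` of a set of elements of `F`. -/
noncomputable def td (K : Type) {F : Type} [Field K] [Field F] [Algebra K F] (S : Set F) : ℕ∞ :=
  (AlgebraicIndependent.matroid K F).eRk S

/-- The ratios of the coordinates of a vector. -/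
def rat {ι F : Type} [Field F] (w : ι → F) : Set F := Set.range fun p : ι × ι => w p.1 / w p.2

/-- Every form over `K` that vanishes at `w` lies in `J`. -/
def Gen {ι K R : Type} [Field K] [CommRing R] [Algebra K R] (J : Ideal (MvPolynomial ι K))
    (w : ι → R) : Prop :=
  ∀ (f : MvPolynomial ι K) (n : ℕ), f.IsHomogeneous n → aeval w f = 0 → f ∈ J

/-- `K` is algebraically closed in `E`. -/
def RelCl (K E : Type) [Field K] [Field E] [Algebra K E] : Prop :=
  ∀ c : E, IsAlgebraic K c → c ∈ Set.range (algebraMap K E)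

end trdeg

section chart

variable {ι K : Type} [Field K] {r : ℕ}

/-- Local coordinates `X (I j)` on the affine piece `X a₀ = 1`; each other variable `a` satisfies
the equation `φ a` in `X a` and the coordinates. -/
structure Chart (K ι : Type) [Field K] (r : ℕ) where
  /-- the coordinate that equals `1` -/
  a₀ : ι
  /-- the local coordinates -/
  I : Fin r → ι
  /-- the equations -/
  φ : ι → MvPolynomial ι K
  inj : Function.Injective I
  ne : ∀ j, I j ≠ a₀
  φ₀ : φ a₀ = X a₀ - 1
  supp : ∀ a, ∀ μ ∈ (φ a).support, ∀ b, μ b ≠ 0 → b = a ∨ b ∈ Set.range I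

namespace Chart

variable (C : Chart K ι r) {R : Type} [CommRing R] [Algebra K R]

/-- The chart is etale at `x`. -/
def At (x : ι → R) : Prop :=
  ∀ a, a ∉ Set.range C.I → aeval x (C.φ a) = 0 ∧ IsUnit (aeval x (pderiv a (C.φ a)))

/-- The ideal of the equations. -/
noncomputable def ideal : Ideal (MvPolynomial ι K) := Ideal.span (C.φ '' (Set.range C.I)ᶜ)

/-- Near `x` the elements of `J` follow from the equations. -/
def On (J : Ideal (MvPolynomial ι K)) (x : ι → R) : Prop :=
  ∀ f ∈ J, ∃ s, IsUnit (aeval x s) ∧ s * f ∈ C.ideal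

/-- `v` is the tangent vector at `x` in the direction of the coordinate `j`. -/
def Tv [Fintype ι] (x : ι → R) (j : Fin r) (v : ι → R) : Prop :=
  (∀ l, v (C.I l) = if l = j then 1 else 0) ∧
    ∀ a, a ∉ Set.range C.I → ∑ b, aeval x (pderiv b (C.φ a)) * v b = 0

/-- `ξ` is the branch of the chart at `x`. -/
structure Br (x : ι → K) (ξ : ι → MvPowerSeries (Fin r) K) : Prop where
  const : ∀ a, MvPowerSeries.constantCoeff (ξ a) = x a
  coord : ∀ j, ξ (C.I j) = MvPowerSeries.C (x (C.I j)) + MvPowerSeries.X j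
  eqn : ∀ a, a ∉ Set.range C.I → aeval ξ (C.φ a) = 0

end Chart

/-- Forms `u` of degree `e` and homogeneous monic equations of degree `ρ` for the variables. -/
structure NN (J : Ideal (MvPolynomial ι K)) {g : ℕ} (e ρ : ℕ) (u : Fin (g + 1) → MvPolynomial ι K)
    (c : ι → Fin ρ → MvPolynomial (Fin (g + 1)) K) : Prop where
  pos : 0 < ρ
  hu : ∀ i, (u i).IsHomogeneous e
  hc : ∀ a l, ∀ β ∈ (c a l).support, e * β.degree + l = ρ
  rel : ∀ a, X a ^ ρ - ∑ l, aeval u (c a l) * X a ^ (l : ℕ) ∈ J

/-- The vector `x + ε v`. -/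
def dv {R : Type} [CommRing R] (x v : ι → R) : ι → DualNumber R :=
  fun a => TrivSqZeroExt.inl (x a) + TrivSqZeroExt.inr (v a)

end chart

open Classical in
/-- `1` at a non-archimedean place, `t` otherwise. -/
noncomputable def E (na : Prop) (t : ℝ) : ℝ := if na then 1 else t

/-- One of the normalised absolute values. -/
def Adm {K : Type} [Field K] [AdmissibleAbsValues K] (v : AbsoluteValue K ℝ) : Prop :=
  v ∈ AdmissibleAbsValues.archAbsVal ∨ v ∈ AdmissibleAbsValues.nonarchAbsVal

/-- Degree at most `B` and coefficients of height at most `s`. -/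
def SmallP {σ k : Type} [Field k] [NumberField k] (B : ℕ) (s : ℝ) (P : MvPolynomial σ k) : Prop :=
  P.totalDegree ≤ B ∧ ∀ μ, logHeight₁ (coeff μ P) ≤ s

namespace AV

variable {k ι : Type} [Field k] (A : AV k ι)

/-- The ideal of the model over `K`. -/
noncomputable def IK (K : Type) [Field K] [Algebra k K] : Ideal (MvPolynomial ι K) :=
  A.I.map (MvPolynomial.map (algebraMap k K))

/-- The dimension. -/
noncomputable def dim : ℕ := Cardinal.toNat (Algebra.trdeg k (MvPolynomial ι k ⧸ A.I)) - 1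

/-- The rational points are dense. -/
def Dense : Prop :=
  ∀ (f : MvPolynomial ι k) (n : ℕ), f.IsHomogeneous n → (∀ P : A.Pt k, eval P.co f = 0) → f ∈ A.I

/-- The locus of `y` over `K` generates the group: a sum of differences of conjugates of `y` is a
generic point over `K`. -/
def Gens (K : Type) {E : Type} [Field K] [Field E] [Algebra k K] [Algebra k E] [Algebra K E]
    [IsScalarTower k K E] (y : A.Pt E) : Prop :=
  ∃ (F : Type) (_ : Field F) (_ : Algebra k F) (_ : Algebra K F) (_ : IsScalarTower k K F) (N : ℕ)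
    (i i' : Fin N → E →ₐ[K] F), Gen (A.IK K)
      (∑ l, (A.map ((i l).restrictScalars k) y - A.map ((i' l).restrictScalars k) y)).co

section

variable {R : Type} [CommRing R] [Algebra k R]

/-- `(x + ε v) - x = o + ε l` in the group of points over the dual numbers. -/
structure Tang (x v l : ι → R) : Prop where
  mem : ∀ f ∈ A.I, aeval (dv x v) f = 0
  ao : l A.ao = 0
  eq : ∀ a b, A.ph a b (dv x v) (dv x 0) =
    A.ph a A.ao (dv x v) (dv x 0) * dv (fun c => algebraMap k R (A.o c)) l b

/-- The tangent space at the origin. -/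
def IsLie (l : ι → R) : Prop :=
  l A.ao = 0 ∧ ∀ f ∈ A.I, aeval (dv (fun c => algebraMap k R (A.o c)) l) f = 0

end

/-- The forms `G (X + a)`. -/
noncomputable def shift {K : Type} [Field K] [Algebra k K] (a : ι → K) (G : MvPolynomial ι k)
    (b : ι) : MvPolynomial ι K :=
  aeval (fun c => A.ph c b (X : ι → MvPolynomial ι K) fun c => C (a c)) G

/-- The first order terms of a parametrisation. -/
noncomputable def _root_.Pool.Agent.Lib.MP_651af7_nt.Av.lin {g : ℕ}
    (ϱ : ι → MvPowerSeries (Fin g) k) (j : Fin g) : ι → k :=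
  fun a => MvPowerSeries.coeff (Finsupp.single j 1) (ϱ a)

/-- A basis of the tangent space at the origin. -/
structure LieBasis {g : ℕ} (σ : Fin g → ι → k) : Prop where
  mem : ∀ j, A.IsLie (σ j)
  indep : LinearIndependent k σ
  span : ∀ (R : Type) [CommRing R] [Algebra k R] (l : ι → R), A.IsLie l →
    ∃ τ : Fin g → R, ∀ a, l a = ∑ j, τ j * algebraMap k R (σ j a)

/-- The covector `ℓ` kills the tangent space of the chart at `x`, moved to the origin. -/
def Kills [Fintype ι] {K R : Type} [Field K] [CommRing R] [Algebra k R] [Algebra K R] {g r : ℕ}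
    (σ : Fin g → ι → k) (C : Chart K ι r) (x : ι → R) (ℓ : Fin g → R) : Prop :=
  ∀ j, ∃ (v : ι → R) (τ : Fin g → R), C.Tv x j v ∧
    A.Tang x v (fun a => ∑ l, τ l * algebraMap k R (σ l a)) ∧ ∑ l, ℓ l * τ l = 0

variable [NumberField k] [Fintype ι]

variable {A} in
/-- The height of a rational point. -/
noncomputable def ht (P : A.Pt k) : ℝ := logHeight P.co

/-- A parametrisation of the formal neighbourhood of the origin. -/
structure Par (g : ℕ) (ϱ : ι → MvPowerSeries (Fin g) k) : Prop where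
  mem : ∀ f ∈ A.I, aeval ϱ f = 0
  const : ∀ a, MvPowerSeries.constantCoeff (ϱ a) = A.o a
  ao : ϱ A.ao = 1
  basis : A.LieBasis (lin ϱ)
  gen : ∀ (y : A.Pt k) (b : ι), (fun a => A.ph a b (fun c => MvPowerSeries.C (y.co c)) ϱ) ≠ 0 →
    Gen A.I fun a => A.ph a b (fun c => MvPowerSeries.C (y.co c)) ϱ
  bd : ∃ (c : ℝ) (s : Finset k), ∀ v : AbsoluteValue k ℝ, ∀ a α, α ≠ 0 →
    v (MvPowerSeries.coeff α (ϱ a)) ≤
      (E (IsNonarchimedean v) c * ∏ z ∈ s, max 1 (v z)) ^ α.degree

variable {A} in
/-- `2 ^ j • P` is close to `Q`. -/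
def Close (θ : ℝ) (j : ℕ) (P Q : A.Pt k) : Prop :=
  ht (Q - 2 ^ j • P) ≤ θ * ht Q ∧ ht Q ≤ 2 * (4 ^ j * ht P) ∧ 4 ^ j * ht P ≤ 2 * ht Q

/-- The data attached to one point. -/
structure Blk (g r ρ : ℕ) where
  /-- the point -/
  P : A.Pt k
  /-- its coordinates -/
  x : ι → k
  /-- the chart of the moving variety -/
  C : Chart k ι r
  /-- the parameters -/
  u : Fin (g + 1) → MvPolynomial ι k
  /-- the coefficients of the monic equations -/
  c : ι → Fin ρ → MvPolynomial (Fin (g + 1)) k

namespace Blk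

variable {A} {g r ρ : ℕ} (b : A.Blk g r ρ)

/-- The data are small and no small covector kills the tangent space. -/
structure Good (σ : Fin g → ι → k) (B₀ e : ℕ) (ε δ : ℝ) : Prop where
  rep : Rep b.P b.x
  atx : b.C.At b.x
  on : b.C.On A.I b.x
  nn : NN A.I e ρ b.u b.c
  smφ : ∀ a, SmallP B₀ (ε * ht b.P) (b.C.φ a)
  smu : ∀ i, SmallP B₀ (ε * ht b.P) (b.u i)
  smc : ∀ a l, SmallP B₀ (ε * ht b.P) (b.c a l)
  nsv : ∀ ℓ : Fin g → k, ℓ ≠ 0 → A.Kills σ b.C b.x ℓ → δ * ht b.P ≤ logHeight ℓ

/-- The point lies on a small hypersurface in the coordinates of the chart. -/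
def Exit (B' : ℕ) (s : ℝ) : Prop :=
  ∃ q : MvPolynomial (Fin r) ℚ, q ≠ 0 ∧ IsInt q ∧ (∀ μ ∈ q.support, ∀ j, μ j ≤ B') ∧
    len q ≤ Real.exp s ∧ aeval (fun j => b.x (b.C.I j)) q = 0

end Blk

end AV

section bad

variable {k ι : Type} [Field k] [NumberField k] [Fintype ι]

/-- Two forms of degree `e` have a large common divisor at `x`. -/
def BadY (e : ℕ) (η : ℝ) (u₀ u₁ : MvPolynomial ι k) (x : ι → k) : Prop :=
  ![eval x u₀, eval x u₁] ≠ 0 ∧
    η * logHeight x ≤ e * logHeight x - logHeight ![eval x u₀, eval x u₁]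

/-- A form of degree `e` is small at `x` at the place `v`. -/
def BadR (v : AbsoluteValue k ℝ) (e : ℕ) (η : ℝ) (u₀ : MvPolynomial ι k) (x : ι → k) : Prop :=
  v (eval x u₀) ≤ (⨆ a, v (x a)) ^ e * Real.exp (-(η * logHeight x))

/-- The two kinds of approximation. -/
def Bad {g : ℕ} (md : Option (AbsoluteValue k ℝ)) (e : ℕ) (η : ℝ)
    (u : Fin (g + 1) → MvPolynomial ι k) (x : ι → k) : Prop :=
  match md with
  | none => BadY e η (u 0) (u 1) x
  | some v => BadR v e η (u 0) x

/-- The admissible kinds. -/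
def Mode (g : ℕ) (md : Option (AbsoluteValue k ℝ)) : Prop := 1 ≤ g ∧ ∀ v, md = some v → Adm v

end bad

section germs

variable {α : Type} (U : Ultrafilter α) {k : Type} [Field k]

/-- The ultrapower. -/
def Up (k : Type) : Type := Germ (U : Filter α) k

noncomputable instance : Field (Up U k) := inferInstanceAs (Field (Germ (U : Filter α) k))

/-- The germ of a family. -/
def germ : (α → k) →+* Up U k := Germ.coeRingHom (U : Filter α)

noncomputable instance : Algebra k (Up U k) :=
  ((germ U).comp (Pi.constRingHom α k)).toAlgebra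

theorem germ_surj (a : Up U k) : ∃ f, germ U f = a := Quot.exists_rep a

theorem germ_eq {f g : α → k} : germ U f = germ U g ↔ ∀ᶠ n in U, f n = g n := Germ.coe_eq

theorem algebraMap_up (c : k) : algebraMap k (Up U k) c = germ U fun _ => c := rfl

/-- The family `p` represents the polynomial `P`. -/
def Repr {σ : Type} (P : MvPolynomial σ (Up U k)) (p : α → MvPolynomial σ k) : Prop :=
  (∃ s : Finset (σ →₀ ℕ), ∀ n, (p n).support ⊆ s) ∧ ∀ μ, coeff μ P = germ U fun n => coeff μ (p n)

/-- The point `Y` is the germ of the family `y`. -/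
def IsGerm {ι : Type} {A : AV k ι} (Y : A.Pt (Up U k)) (y : α → A.Pt k) : Prop :=
  AV.Rep Y fun a => germ U fun n => (y n).co a

variable [NumberField k] {U}

/-- A family of numbers that is `o (H)`. -/
def Lo (U : Ultrafilter α) (H f : α → ℝ) : Prop := ∀ ε : ℝ, 0 < ε → ∀ᶠ n in U, f n ≤ ε * H n

theorem Lo.const {H : α → ℝ} (hH : Tendsto H U atTop) (c : ℝ) : Lo U H fun _ => c :=
  fun _ hε => ((hH.const_mul_atTop hε).eventually_ge_atTop c)

theorem Lo.add {H f g : α → ℝ} (hf : Lo U H f) (hg : Lo U H g) : Lo U H fun n => f n + g n :=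
  fun ε hε => ((hf (ε / 2) (half_pos hε)).and (hg (ε / 2) (half_pos hε))).mono fun n h => by
    have := h.1
    have := h.2
    change f n + g n ≤ _
    linarith

theorem Lo.mono {H f g : α → ℝ} (hg : Lo U H g) (h : ∀ᶠ n in U, f n ≤ g n) : Lo U H f :=
  fun ε hε => ((hg ε hε).and h).mono fun _ h => h.2.trans h.1

/-- The field of the germs of height `o (H)`. -/
noncomputable def Sm (k : Type) [Field k] [NumberField k] {H : α → ℝ} (hH : Tendsto H U atTop) :
    IntermediateField k (Up U k) where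
  carrier := {a | ∃ f, germ U f = a ∧ Lo U H fun n => logHeight₁ (f n)}
  mul_mem' := by
    rintro _ _ ⟨f, rfl, hf⟩ ⟨g, rfl, hg⟩
    exact ⟨f * g, map_mul _ _ _, (hf.add hg).mono (.of_forall fun n => logHeight₁_mul_le _ _)⟩
  add_mem' := by
    rintro _ _ ⟨f, rfl, hf⟩ ⟨g, rfl, hg⟩
    exact ⟨f + g, map_add _ _ _, (((Lo.const hH _).add hf).add hg).mono
      (.of_forall fun n => logHeight₁_add_le _ _)⟩
  algebraMap_mem' c := ⟨fun _ => c, rfl, Lo.const hH _⟩
  inv_mem' := by
    rintro _ ⟨f, rfl, hf⟩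
    exact ⟨fun n => (f n)⁻¹, rfl, hf.mono (.of_forall fun n => (logHeight₁_inv _).le)⟩

end germs

end Pool.Agent.Lib.MP_651af7_nt.Av
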